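import Pool.Agent.Helper658.Tri

set_option autoImplicit false

open MeasureTheory Metric Set Filter Topology

namespace Q144

abbrev E2 := EuclideanSpace ℝ (Fin 2)

open Pool.Agent.Helper658

theorem three {s : Set E2} (hs : Convex ℝ s) {p q r : E2} (hp : p ∈ s) (hq : q ∈ s) (hr : r ∈ s)
    {a b c : ℝ} (ha : 0 ≤ a) (hb : 0 ≤ b) (hc : 0 ≤ c) (h : a + b + c = 1) :
    a • p + b • q + c • r ∈ s := by
  have := hs.sum_mem (t := Finset.univ) (w := ![a, b, c]) (z := ![p, q, r])
    (by intro i _; fin_cases i <;> simpa) (by simp [Fin.sum_univ_three, h])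
    (by intro i _; fin_cases i <;> simpa)
  simpa [Fin.sum_univ_three] using this

/-- the standard triangle has area at least 1/2 -/
theorem vol_stdTri_ge :
    ENNReal.ofReal (1/2) ≤ volume {x : E2 | 0 ≤ x 0 ∧ 0 ≤ x 1 ∧ x 0 + x 1 ≤ 1} := by
  set D : Set E2 := {x | 0 ≤ x 0 ∧ 0 ≤ x 1 ∧ x 0 + x 1 ≤ 1} with hD
  set w : E2 := !₂[1, 1] with hw
  have hw0 : w 0 = 1 := by simp [hw]
  have hw1 : w 1 = 1 := by simp [hw]
  have hc0 : Continuous (fun x : E2 => x 0) := by fun_prop
  have hc1 : Continuous (fun x : E2 => x 1) := by fun_prop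
  have hDclosed : IsClosed D := by
    rw [hD]
    exact (isClosed_le continuous_const hc0).inter ((isClosed_le continuous_const hc1).inter
      (isClosed_le (hc0.add hc1) continuous_const))
  have hvol' : volume ((fun x => w - x) ⁻¹' D) = volume D :=
    (Measure.measurePreserving_sub_left volume w).measure_preimage
      hDclosed.measurableSet.nullMeasurableSet
  have hsub : (@WithLp.ofLp 2 (Fin 2 → ℝ)) ⁻¹' (Icc (0 : Fin 2 → ℝ) 1) ⊆
      D ∪ (fun x => w - x) ⁻¹' D := by
    intro x hx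
    rw [mem_preimage, mem_Icc, Pi.le_def, Pi.le_def] at hx
    have h0 : 0 ≤ x 0 := hx.1 0
    have h1 : 0 ≤ x 1 := hx.1 1
    have h2 : x 0 ≤ 1 := hx.2 0
    have h3 : x 1 ≤ 1 := hx.2 1
    rcases le_total (x 0 + x 1) 1 with h | h
    · exact Or.inl ⟨h0, h1, h⟩
    · right
      show 0 ≤ (w - x) 0 ∧ 0 ≤ (w - x) 1 ∧ (w - x) 0 + (w - x) 1 ≤ 1
      simp only [PiLp.sub_apply, hw0, hw1]
      exact ⟨by linarith, by linarith, by linarith⟩
  have h1 : volume ((@WithLp.ofLp 2 (Fin 2 → ℝ)) ⁻¹' (Icc (0 : Fin 2 → ℝ) 1)) = 1 := by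
    rw [(PiLp.volume_preserving_ofLp (Fin 2)).measure_preimage
      measurableSet_Icc.nullMeasurableSet, Real.volume_Icc_pi]
    simp
  have h2 : (1 : ENNReal) ≤ volume D + volume D := by
    calc (1 : ENNReal) = _ := h1.symm
      _ ≤ volume (D ∪ (fun x => w - x) ⁻¹' D) := measure_mono hsub
      _ ≤ volume D + volume ((fun x => w - x) ⁻¹' D) := measure_union_le _ _
      _ = volume D + volume D := by rw [hvol']
  rw [← two_mul] at h2
  have h3 : ENNReal.ofReal (1 / 2) = 1 / 2 := by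
    rw [ENNReal.ofReal_div_of_pos (by norm_num)]
    simp
  rw [h3, ENNReal.div_le_iff_le_mul (by simp) (by simp), mul_comm]
  exact h2

theorem vol_tri_ge (p q r : E2) :
    ENNReal.ofReal (|(q 0 - p 0) * (r 1 - p 1) - (q 1 - p 1) * (r 0 - p 0)| / 2) ≤ volume (convexHull ℝ {p, q, r}) := by
  set D : Set E2 := {x | 0 ≤ x 0 ∧ 0 ≤ x 1 ∧ x 0 + x 1 ≤ 1} with hD
  have hvol : ENNReal.ofReal (1/2) ≤ volume D := vol_stdTri_ge
  set L := linUV (q - p) (r - p) with hL
  have hsub : (fun x => -p + x) ⁻¹' (L '' D) ⊆ convexHull ℝ {p, q, r} := by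
    rintro x ⟨y, ⟨hy0, hy1, hy2⟩, hyx⟩
    have hx : x = (1 - y 0 - y 1) • p + y 0 • q + y 1 • r := by
      have h1 : x = p + L y := by rw [hyx]; exact (add_neg_cancel_left p x).symm
      rw [h1, hL]
      show p + (y 0 • (q - p) + y 1 • (r - p)) = _
      simp only [sub_smul, smul_sub, one_smul]
      abel
    rw [hx]
    have hp : p ∈ convexHull ℝ ({p, q, r} : Set E2) := subset_convexHull _ _ (by simp)
    have hq : q ∈ convexHull ℝ ({p, q, r} : Set E2) := subset_convexHull _ _ (by simp)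
    have hr : r ∈ convexHull ℝ ({p, q, r} : Set E2) := subset_convexHull _ _ (by simp)
    exact three (convex_convexHull ℝ _) hp hq hr (by linarith) hy0 hy1 (by ring)
  refine le_trans ?_ (measure_mono hsub)
  rw [measure_preimage_add, Measure.addHaar_image_linearMap, hL, det_linUV]
  refine le_trans ?_ (mul_le_mul_right hvol _)
  rw [← ENNReal.ofReal_mul (abs_nonneg _)]
  apply ENNReal.ofReal_le_ofReal
  have h1 : |(q - p) 0 * (r - p) 1 - (r - p) 0 * (q - p) 1| =
      |(q 0 - p 0) * (r 1 - p 1) - (q 1 - p 1) * (r 0 - p 0)| := by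
    congr 1
    simp only [PiLp.sub_apply]; ring
  rw [h1]
  linarith

theorem vol_tri_eq (p q r : E2) :
    volume (convexHull ℝ {p, q, r}) =
      ENNReal.ofReal (|(q 0 - p 0) * (r 1 - p 1) - (q 1 - p 1) * (r 0 - p 0)| / 2) :=
  le_antisymm (vol_tri p q r) (vol_tri_ge p q r)

end Q144
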