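import Pool.Agent.Q144.K33
import Pool.Agent.Q144.TriArea

set_option autoImplicit false

open MeasureTheory Set

namespace Q144.Beer

open Q144.K33

/-- the plane -/
abbrev R2 := ℝ × ℝ

theorem cube_jensen {α : Type*} [MeasurableSpace α] (μ : Measure α) [IsProbabilityMeasure μ]
    {g : α → ENNReal} (hg : Measurable g) : (∫⁻ x, g x ∂μ) ^ 3 ≤ ∫⁻ x, g x ^ 3 ∂μ := by
  have h := eLpNorm'_le_eLpNorm'_of_exponent_le (p := 1) (q := 3) one_pos (by norm_num) μ
    (f := g) hg.aestronglyMeasurable
  simp only [eLpNorm', enorm_eq_self] at h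
  have h2 := ENNReal.rpow_le_rpow h (z := 3) (by norm_num)
  rw [← ENNReal.rpow_mul, ← ENNReal.rpow_mul] at h2
  norm_num at h2
  exact_mod_cast h2

theorem continuous_D (x : R2) : Continuous (fun p : R2 × R2 => D x p.1 p.2) := by
  unfold D; fun_prop

theorem slab (w1 w2 t v1 : ℝ) (hw : 0 < |w1|) :
    volume {v2 : ℝ | |v1 * w2 - v2 * w1| < t} ≤ ENNReal.ofReal (2 * t / |w1|) := by
  have hw0 : w1 ≠ 0 := abs_pos.1 hw
  have hsub : {v2 : ℝ | |v1 * w2 - v2 * w1| < t} ⊆
      Ioo (v1 * w2 / w1 - t / |w1|) (v1 * w2 / w1 + t / |w1|) := by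
    intro v hv
    rw [mem_ofPred_eq] at hv
    have h1 : v1 * w2 - v * w1 = w1 * (v1 * w2 / w1 - v) := by field_simp
    rw [h1, abs_mul] at hv
    have h2 : |v1 * w2 / w1 - v| < t / |w1| := by
      rw [lt_div_iff₀ hw]; linarith
    rw [abs_lt] at h2
    exact ⟨by linarith, by linarith⟩
  calc _ ≤ volume (Ioo (v1 * w2 / w1 - t / |w1|) (v1 * w2 / w1 + t / |w1|)) := measure_mono hsub
    _ = ENNReal.ofReal (2 * t / |w1|) := by
      rw [Real.volume_Ioo]; congr 1; ring

/-- width of a strip inside a square -/
theorem strip (x z : R2) (t : ℝ) (ht : 0 < t) :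
    volume {y : R2 | ‖y - x‖ ≤ ‖z - x‖ ∧ |D x y z| < t} ≤ ENNReal.ofReal (4 * t) := by
  -- translate to the origin
  set w : R2 := z - x with hw
  have hpre : {y : R2 | ‖y - x‖ ≤ ‖z - x‖ ∧ |D x y z| < t} =
      (fun y => y - x) ⁻¹' {v : R2 | ‖v‖ ≤ ‖w‖ ∧ |v.1 * w.2 - v.2 * w.1| < t} := by
    ext y
    simp only [mem_ofPred_eq, mem_preimage, D, hw, Prod.fst_sub, Prod.snd_sub]
  have hmeas : MeasurableSet {v : R2 | ‖v‖ ≤ ‖w‖ ∧ |v.1 * w.2 - v.2 * w.1| < t} := by
    have h1 : MeasurableSet {v : R2 | ‖v‖ ≤ ‖w‖} :=
      measurableSet_le (by fun_prop) (by fun_prop)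
    have h2 : MeasurableSet {v : R2 | |v.1 * w.2 - v.2 * w.1| < t} :=
      measurableSet_lt (by fun_prop) (by fun_prop)
    exact h1.inter h2
  rw [hpre, (measurePreserving_sub_right volume x).measure_preimage hmeas.nullMeasurableSet]
  by_cases hw0 : w = 0
  · have : {v : R2 | ‖v‖ ≤ ‖w‖ ∧ |v.1 * w.2 - v.2 * w.1| < t} ⊆ {0} := by
      intro v hv
      have := hv.1
      rw [hw0, norm_zero] at this
      simpa using this
    calc _ ≤ volume ({0} : Set R2) := measure_mono this
      _ = 0 := measure_singleton _
      _ ≤ _ := bot_le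
  · rcases le_total |w.2| |w.1| with hle | hle
    · have hnw : ‖w‖ = |w.1| := by
        rw [Prod.norm_def]; simp [hle]
      have hpos : 0 < |w.1| := by
        rw [← hnw]; exact norm_pos_iff.2 hw0
      rw [Measure.volume_eq_prod, Measure.prod_apply hmeas]
      calc ∫⁻ v1, volume (Prod.mk v1 ⁻¹' {v : R2 | ‖v‖ ≤ ‖w‖ ∧ |v.1 * w.2 - v.2 * w.1| < t})
          ≤ ∫⁻ v1, (Icc (-|w.1|) |w.1|).indicator (fun _ => ENNReal.ofReal (2 * t / |w.1|)) v1 := by
            apply lintegral_mono
            intro v1
            by_cases hv : v1 ∈ Icc (-|w.1|) |w.1|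
            · rw [indicator_of_mem hv]
              refine le_trans (measure_mono ?_) (slab w.1 w.2 t v1 hpos)
              intro v2 h2
              exact h2.2
            · rw [indicator_of_notMem hv]
              rw [nonpos_iff_eq_zero]
              convert measure_empty (μ := (volume : Measure ℝ))
              rw [eq_empty_iff_forall_notMem]
              intro v2 h2
              apply hv
              have h3 : ‖((v1, v2) : R2)‖ ≤ ‖w‖ := h2.1
              rw [hnw] at h3
              have h4 : |v1| ≤ |w.1| := le_trans (by rw [Prod.norm_def]; simp) h3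
              exact abs_le.1 h4
        _ = ENNReal.ofReal (4 * t) := by
            rw [lintegral_indicator measurableSet_Icc, setLIntegral_const, Real.volume_Icc,
              ← ENNReal.ofReal_mul (by positivity)]
            congr 1
            field_simp
            ring
    · have hnw : ‖w‖ = |w.2| := by
        rw [Prod.norm_def]; simp [hle]
      have hpos : 0 < |w.2| := by
        rw [← hnw]; exact norm_pos_iff.2 hw0
      rw [Measure.volume_eq_prod, Measure.prod_apply_symm hmeas]
      calc ∫⁻ v2, volume ((fun v1 => (v1, v2)) ⁻¹'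
            {v : R2 | ‖v‖ ≤ ‖w‖ ∧ |v.1 * w.2 - v.2 * w.1| < t})
          ≤ ∫⁻ v2, (Icc (-|w.2|) |w.2|).indicator (fun _ => ENNReal.ofReal (2 * t / |w.2|)) v2 := by
            apply lintegral_mono
            intro v2
            by_cases hv : v2 ∈ Icc (-|w.2|) |w.2|
            · rw [indicator_of_mem hv]
              refine le_trans (measure_mono ?_) (slab w.2 w.1 t v2 hpos)
              intro v1 h2
              have h3 : |v1 * w.2 - v2 * w.1| < t := h2.2
              show |v2 * w.1 - v1 * w.2| < t
              rw [abs_sub_comm]; exact h3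
            · rw [indicator_of_notMem hv]
              rw [nonpos_iff_eq_zero]
              convert measure_empty (μ := (volume : Measure ℝ))
              rw [eq_empty_iff_forall_notMem]
              intro v1 h2
              apply hv
              have h3 : ‖((v1, v2) : R2)‖ ≤ ‖w‖ := h2.1
              rw [hnw] at h3
              have h4 : |v2| ≤ |w.2| := le_trans (by rw [Prod.norm_def]; simp) h3
              exact abs_le.1 h4
        _ = ENNReal.ofReal (4 * t) := by
            rw [lintegral_indicator measurableSet_Icc, setLIntegral_const, Real.volume_Icc,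
              ← ENNReal.ofReal_mul (by positivity)]
            congr 1
            field_simp
            ring

end Q144.Beer
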