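import Pool.Agent.Q144.BeerA

set_option autoImplicit false

open MeasureTheory Set

namespace Q144.Beer

open Q144.K33

theorem meas_badD (t : ℝ) :
    MeasurableSet {p : R2 × (R2 × R2) | |D p.1 p.2.1 p.2.2| < t} := by
  have : Continuous (fun p : R2 × (R2 × R2) => |D p.1 p.2.1 p.2.2|) := by
    unfold D; fun_prop
  exact (isOpen_lt this continuous_const).measurableSet

/-- the chance that three random points span a small triangle -/
theorem bad_prob (μ : Measure R2) [IsProbabilityMeasure μ] (c : ENNReal)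
    (hμ : ∀ A : Set R2, μ A ≤ c * volume A) (t : ℝ) (ht : 0 < t) :
    (μ.prod (μ.prod μ)) {p : R2 × (R2 × R2) | |D p.1 p.2.1 p.2.2| < t}
      ≤ 2 * (c * ENNReal.ofReal (4 * t)) := by
  rw [Measure.prod_apply (meas_badD t)]
  set β := c * ENNReal.ofReal (4 * t) with hβ
  calc ∫⁻ x, (μ.prod μ) (Prod.mk x ⁻¹' {p : R2 × (R2 × R2) | |D p.1 p.2.1 p.2.2| < t}) ∂μ
      ≤ ∫⁻ _, 2 * β ∂μ := by
        apply lintegral_mono
        intro x
        have hA : MeasurableSet {q : R2 × R2 | ‖q.1 - x‖ ≤ ‖q.2 - x‖ ∧ |D x q.1 q.2| < t} := by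
          have h1 : MeasurableSet {q : R2 × R2 | ‖q.1 - x‖ ≤ ‖q.2 - x‖} :=
            measurableSet_le (by fun_prop) (by fun_prop)
          have h2 : MeasurableSet {q : R2 × R2 | |D x q.1 q.2| < t} := by
            have hc := (continuous_D x).abs
            exact (isOpen_lt hc continuous_const).measurableSet
          exact h1.inter h2
        have hB : MeasurableSet {q : R2 × R2 | ‖q.2 - x‖ ≤ ‖q.1 - x‖ ∧ |D x q.1 q.2| < t} := by
          have h1 : MeasurableSet {q : R2 × R2 | ‖q.2 - x‖ ≤ ‖q.1 - x‖} :=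
            measurableSet_le (by fun_prop) (by fun_prop)
          have h2 : MeasurableSet {q : R2 × R2 | |D x q.1 q.2| < t} := by
            have hc := (continuous_D x).abs
            exact (isOpen_lt hc continuous_const).measurableSet
          exact h1.inter h2
        have hsub : (Prod.mk x ⁻¹' {p : R2 × (R2 × R2) | |D p.1 p.2.1 p.2.2| < t}) ⊆
            {q : R2 × R2 | ‖q.1 - x‖ ≤ ‖q.2 - x‖ ∧ |D x q.1 q.2| < t} ∪
            {q : R2 × R2 | ‖q.2 - x‖ ≤ ‖q.1 - x‖ ∧ |D x q.1 q.2| < t} := by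
          intro q hq
          rcases le_total ‖q.1 - x‖ ‖q.2 - x‖ with h | h
          · exact Or.inl ⟨h, hq⟩
          · exact Or.inr ⟨h, hq⟩
        have h1 : (μ.prod μ) {q : R2 × R2 | ‖q.1 - x‖ ≤ ‖q.2 - x‖ ∧ |D x q.1 q.2| < t} ≤ β := by
          rw [Measure.prod_apply_symm hA]
          calc _ ≤ ∫⁻ _, β ∂μ := by
                apply lintegral_mono
                intro z
                refine (hμ _).trans ?_
                exact mul_le_mul_right (strip x z t ht) c
            _ = β := by simp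
        have h2 : (μ.prod μ) {q : R2 × R2 | ‖q.2 - x‖ ≤ ‖q.1 - x‖ ∧ |D x q.1 q.2| < t} ≤ β := by
          rw [Measure.prod_apply hB]
          calc _ ≤ ∫⁻ _, β ∂μ := by
                apply lintegral_mono
                intro y
                refine (hμ _).trans ?_
                refine mul_le_mul_right ((measure_mono ?_).trans (strip x y t ht)) c
                intro z hz
                refine ⟨hz.1, ?_⟩
                have h3 : |D x y z| < t := hz.2
                rwa [show D x z y = - D x y z by unfold D; ring, abs_neg]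
            _ = β := by simp
        calc _ ≤ _ := measure_mono hsub
          _ ≤ _ := measure_union_le _ _
          _ ≤ β + β := add_le_add h1 h2
          _ = 2 * β := by ring
    _ = 2 * β := by simp

/-- triples of points -/
abbrev Om := R2 × (R2 × R2)

/-- the three points of a triple -/
def single (i : Fin 3) (ω : Om) : R2 := ![ω.1, ω.2.1, ω.2.2] i

/-- the three pairs of a triple -/
def pair (i : Fin 3) (ω : Om) : R2 × R2 :=
  ![(ω.1, ω.2.1), (ω.1, ω.2.2), (ω.2.1, ω.2.2)] i

theorem mp_single (μ : Measure R2) [IsProbabilityMeasure μ] (i : Fin 3) :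
    MeasurePreserving (single i) (μ.prod (μ.prod μ)) μ := by
  fin_cases i
  · exact measurePreserving_fst
  · exact measurePreserving_fst.comp measurePreserving_snd
  · exact measurePreserving_snd.comp measurePreserving_snd

theorem mp_pair (μ : Measure R2) [IsProbabilityMeasure μ] (i : Fin 3) :
    MeasurePreserving (pair i) (μ.prod (μ.prod μ)) (μ.prod μ) := by
  fin_cases i
  · exact (MeasurePreserving.id μ).prod measurePreserving_fst
  · exact (MeasurePreserving.id μ).prod measurePreserving_snd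
  · exact measurePreserving_snd

theorem triple_int (μ : Measure R2) [IsProbabilityMeasure μ] {a : R2 → ENNReal}
    (ha : Measurable a) :
    ∫⁻ ω : Om, a ω.1 * (a ω.2.1 * a ω.2.2) ∂(μ.prod (μ.prod μ)) = (∫⁻ x, a x ∂μ) ^ 3 := by
  have h2 : ∫⁻ p : R2 × R2, a p.1 * a p.2 ∂(μ.prod μ) = (∫⁻ x, a x ∂μ) * (∫⁻ x, a x ∂μ) :=
    lintegral_prod_mul ha.aemeasurable ha.aemeasurable
  have hm : Measurable (fun p : R2 × R2 => a p.1 * a p.2) := by fun_prop
  have h3 : ∫⁻ ω : Om, a ω.1 * (a ω.2.1 * a ω.2.2) ∂(μ.prod (μ.prod μ)) =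
      (∫⁻ x, a x ∂μ) * ∫⁻ p : R2 × R2, a p.1 * a p.2 ∂(μ.prod μ) :=
    lintegral_prod_mul (g := fun p : R2 × R2 => a p.1 * a p.2) ha.aemeasurable hm.aemeasurable
  rw [h3, h2]
  ring

/-- the counting lemma for `K_{3,3}` -/
theorem count (μ : Measure R2) [IsProbabilityMeasure μ] (M : Set (R2 × R2)) (hM : MeasurableSet M) :
    ((μ.prod μ) M) ^ 9 ≤ ((μ.prod (μ.prod μ)).prod (μ.prod (μ.prod μ)))
      {ω : Om × Om | ∀ i j : Fin 3, (single i ω.1, single j ω.2) ∈ M} := by
  classical
  set P := μ.prod (μ.prod μ) with hP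
  set f : R2 → R2 → ENNReal := fun u v => M.indicator (fun _ => 1) (u, v) with hf
  have hfm : Measurable (fun p : R2 × R2 => f p.1 p.2) := by
    rw [hf]
    exact (measurable_const.indicator hM)
  set F : Om → R2 → ENNReal := fun ω z => f ω.1 z * (f ω.2.1 z * f ω.2.2 z) with hF
  have hFm : Measurable (fun p : Om × R2 => F p.1 p.2) := by
    have e1 : Measurable (fun p : Om × R2 => f p.1.1 p.2) :=
      hfm.comp (by fun_prop : Measurable (fun p : Om × R2 => (p.1.1, p.2)))
    have e2 : Measurable (fun p : Om × R2 => f p.1.2.1 p.2) :=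
      hfm.comp (by fun_prop : Measurable (fun p : Om × R2 => (p.1.2.1, p.2)))
    have e3 : Measurable (fun p : Om × R2 => f p.1.2.2 p.2) :=
      hfm.comp (by fun_prop : Measurable (fun p : Om × R2 => (p.1.2.2, p.2)))
    exact e1.mul (e2.mul e3)
  have hcol : ∀ z, Measurable (fun u => f u z) := fun z =>
    hfm.comp (by fun_prop : Measurable (fun u : R2 => (u, z)))
  have hFrow : ∀ ω, Measurable (fun z => F ω z) := fun ω =>
    hFm.comp (by fun_prop : Measurable (fun z : R2 => (ω, z)))
  set h : R2 → ENNReal := fun z => ∫⁻ u, f u z ∂μ with hh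
  have hhm : Measurable h := by
    have : Measurable (fun p : R2 × R2 => f p.2 p.1) :=
      hfm.comp (by fun_prop : Measurable (fun p : R2 × R2 => (p.2, p.1)))
    exact this.lintegral_prod_right'
  set G : Om → ENNReal := fun ω => ∫⁻ z, F ω z ∂μ with hG
  have hGm : Measurable G := hFm.lintegral_prod_right'
  have s1 : (μ.prod μ) M = ∫⁻ z, h z ∂μ := by
    rw [Measure.prod_apply_symm hM]
    refine lintegral_congr fun z => ?_
    rw [hh]
    simp only [hf]
    have : (fun u : R2 => M.indicator (fun _ => (1 : ENNReal)) (u, z)) =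
        ((fun u : R2 => (u, z)) ⁻¹' M).indicator 1 := by
      funext u
      simp only [indicator, mem_preimage, Pi.one_apply]
    rw [this, lintegral_indicator_one (hM.preimage (by fun_prop))]
  have s2 : ∀ z, ∫⁻ ω, F ω z ∂P = h z ^ 3 := fun z => triple_int μ (hcol z)
  have s3 : ∫⁻ z, h z ^ 3 ∂μ = ∫⁻ ω, G ω ∂P := by
    simp_rw [← s2, hG]
    exact lintegral_lintegral_swap (f := fun z ω => F ω z)
      (hFm.comp measurable_swap).aemeasurable
  have s4 : ∀ ω, G ω ^ 3 = ∫⁻ η : Om, F ω η.1 * (F ω η.2.1 * F ω η.2.2) ∂P :=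
    fun ω => (triple_int μ (hFrow ω)).symm
  have hind : ∀ ω η : Om, F ω η.1 * (F ω η.2.1 * F ω η.2.2) =
      {p : Om × Om | ∀ i j : Fin 3, (single i p.1, single j p.2) ∈ M}.indicator
        (fun _ => (1 : ENNReal)) (ω, η) := by
    intro ω η
    by_cases hmem : (ω, η) ∈ {p : Om × Om | ∀ i j : Fin 3, (single i p.1, single j p.2) ∈ M}
    · rw [indicator_of_mem hmem]
      have a00 : (ω.1, η.1) ∈ M := hmem 0 0
      have a01 : (ω.1, η.2.1) ∈ M := hmem 0 1
      have a02 : (ω.1, η.2.2) ∈ M := hmem 0 2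
      have a10 : (ω.2.1, η.1) ∈ M := hmem 1 0
      have a11 : (ω.2.1, η.2.1) ∈ M := hmem 1 1
      have a12 : (ω.2.1, η.2.2) ∈ M := hmem 1 2
      have a20 : (ω.2.2, η.1) ∈ M := hmem 2 0
      have a21 : (ω.2.2, η.2.1) ∈ M := hmem 2 1
      have a22 : (ω.2.2, η.2.2) ∈ M := hmem 2 2
      simp only [hF, hf, indicator_of_mem, a00, a01, a02, a10, a11, a12, a20, a21, a22, mul_one]
    · rw [indicator_of_notMem hmem]
      have : ∃ i j : Fin 3, (single i ω, single j η) ∉ M := by
        by_contra hcon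
        push Not at hcon
        exact hmem hcon
      obtain ⟨i, j, hij⟩ := this
      fin_cases i <;> fin_cases j <;>
        simp [single] at hij <;> simp [hF, hf, hij]
  have hset : MeasurableSet {p : Om × Om | ∀ i j : Fin 3, (single i p.1, single j p.2) ∈ M} := by
    have : {p : Om × Om | ∀ i j : Fin 3, (single i p.1, single j p.2) ∈ M} =
        ⋂ i : Fin 3, ⋂ j : Fin 3, (fun p : Om × Om => (single i p.1, single j p.2)) ⁻¹' M := by
      ext p; simp
    rw [this]
    refine MeasurableSet.iInter fun i => MeasurableSet.iInter fun j => ?_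
    refine hM.preimage ?_
    exact ((mp_single μ i).measurable.comp measurable_fst).prodMk
      ((mp_single μ j).measurable.comp measurable_snd)
  have s5 : ∫⁻ ω, G ω ^ 3 ∂P = (P.prod P)
      {p : Om × Om | ∀ i j : Fin 3, (single i p.1, single j p.2) ∈ M} := by
    simp_rw [s4, hind]
    rw [Measure.prod_apply hset]
    refine lintegral_congr fun ω => ?_
    have : (fun η : Om => {p : Om × Om | ∀ i j : Fin 3, (single i p.1, single j p.2) ∈ M}.indicator
        (fun _ => (1 : ENNReal)) (ω, η)) =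
        (Prod.mk ω ⁻¹' {p : Om × Om | ∀ i j : Fin 3, (single i p.1, single j p.2) ∈ M}).indicator
          1 := by
      funext η
      simp only [indicator, mem_preimage, Pi.one_apply]
    rw [this, lintegral_indicator_one (hset.preimage (by fun_prop))]
  calc ((μ.prod μ) M) ^ 9 = ((∫⁻ z, h z ∂μ) ^ 3) ^ 3 := by rw [s1]; ring
    _ ≤ (∫⁻ z, h z ^ 3 ∂μ) ^ 3 := by
        exact pow_le_pow_left' (cube_jensen μ hhm) 3
    _ = (∫⁻ ω, G ω ∂P) ^ 3 := by rw [s3]
    _ ≤ ∫⁻ ω, G ω ^ 3 ∂P := cube_jensen P hGm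
    _ = _ := s5

end Q144.Beer
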