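import Pool.Agent.Q144.BeerB

set_option autoImplicit false

open MeasureTheory Set

namespace Q144.Beer

open Q144.K33

theorem bad_prob' (μ : Measure R2) [IsProbabilityMeasure μ] (c : ENNReal)
    (hμ : ∀ A : Set R2, μ A ≤ c * volume A) (t : ℝ) (ht : 0 < t) :
    ((μ.prod μ).prod μ) {p : (R2 × R2) × R2 | |D p.1.1 p.1.2 p.2| < t}
      ≤ 2 * (c * ENNReal.ofReal (4 * t)) := by
  have hm : MeasurePreserving (MeasurableEquiv.prodAssoc : (R2 × R2) × R2 ≃ᵐ R2 × (R2 × R2))
      ((μ.prod μ).prod μ) (μ.prod (μ.prod μ)) := by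
    exact measurePreserving_prodAssoc μ μ μ
  have h1 : {p : (R2 × R2) × R2 | |D p.1.1 p.1.2 p.2| < t} =
      (MeasurableEquiv.prodAssoc : (R2 × R2) × R2 ≃ᵐ R2 × (R2 × R2)) ⁻¹'
        {p : R2 × (R2 × R2) | |D p.1 p.2.1 p.2.2| < t} := rfl
  rw [h1, hm.measure_preimage (meas_badD t).nullMeasurableSet]
  exact bad_prob μ c hμ t ht

theorem meas_badD' (t : ℝ) :
    MeasurableSet {p : (R2 × R2) × R2 | |D p.1.1 p.1.2 p.2| < t} := by
  have : Continuous (fun p : (R2 × R2) × R2 => |D p.1.1 p.1.2 p.2|) := by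
    unfold D; fun_prop
  exact (isOpen_lt this continuous_const).measurableSet

/-- six points from a pair of triples -/
def six (ω : Om × Om) : Fin 6 → R2 :=
  ![ω.1.1, ω.1.2.1, ω.1.2.2, ω.2.1, ω.2.2.1, ω.2.2.2]

theorem exists_six (μ : Measure R2) [IsProbabilityMeasure μ] (c : ENNReal)
    (hμ : ∀ A : Set R2, μ A ≤ c * volume A) (t : ℝ) (ht : 0 < t)
    (M : Set (R2 × R2)) (hM : MeasurableSet M)
    (hlt : 20 * (2 * (c * ENNReal.ofReal (4 * t))) < ((μ.prod μ) M) ^ 9) :
    ∃ P : Fin 6 → R2, (∀ i j : Fin 6, i < 3 → 3 ≤ j → (P i, P j) ∈ M) ∧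
      ∀ a b c : Fin 6, a ≠ b → a ≠ c → b ≠ c → t ≤ |D (P a) (P b) (P c)| := by
  classical
  set Q := μ.prod (μ.prod μ) with hQ
  set β := 2 * (c * ENNReal.ofReal (4 * t)) with hβ
  set B1 : Fin 3 → Fin 3 → Set (Om × Om) := fun i j =>
    {ω | |D (pair i ω.1).1 (pair i ω.1).2 (single j ω.2)| < t} with hB1
  set B2 : Fin 3 → Fin 3 → Set (Om × Om) := fun i j =>
    {ω | |D (single i ω.1) (pair j ω.2).1 (pair j ω.2).2| < t} with hB2
  set B3 : Set (Om × Om) := {ω | |D ω.1.1 ω.1.2.1 ω.1.2.2| < t} with hB3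
  set B4 : Set (Om × Om) := {ω | |D ω.2.1 ω.2.2.1 ω.2.2.2| < t} with hB4
  have m1 : ∀ i j, (Q.prod Q) (B1 i j) ≤ β := by
    intro i j
    have hm := (mp_pair μ i).prod (mp_single μ j)
    have h1 : B1 i j = (fun p : Om × Om => (pair i p.1, single j p.2)) ⁻¹'
        {p : (R2 × R2) × R2 | |D p.1.1 p.1.2 p.2| < t} := rfl
    rw [h1]
    have h2 := hm.measure_preimage (meas_badD' t).nullMeasurableSet
    calc _ = _ := h2
      _ ≤ β := bad_prob' μ c hμ t ht
  have m2 : ∀ i j, (Q.prod Q) (B2 i j) ≤ β := by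
    intro i j
    have hm := (mp_single μ i).prod (mp_pair μ j)
    have h2 := hm.measure_preimage (meas_badD t).nullMeasurableSet
    calc (Q.prod Q) (B2 i j) = _ := h2
      _ ≤ β := bad_prob μ c hμ t ht
  have m3 : (Q.prod Q) B3 ≤ β := by
    have hm : MeasurePreserving (Prod.fst : Om × Om → Om) (Q.prod Q) Q := measurePreserving_fst
    have h2 := hm.measure_preimage (meas_badD t).nullMeasurableSet
    calc (Q.prod Q) B3 = _ := h2
      _ ≤ β := bad_prob μ c hμ t ht
  have m4 : (Q.prod Q) B4 ≤ β := by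
    have hm : MeasurePreserving (Prod.snd : Om × Om → Om) (Q.prod Q) Q := measurePreserving_snd
    have h2 := hm.measure_preimage (meas_badD t).nullMeasurableSet
    calc (Q.prod Q) B4 = _ := h2
      _ ≤ β := bad_prob μ c hμ t ht
  set U : Set (Om × Om) := ((⋃ i, ⋃ j, B1 i j) ∪ (⋃ i, ⋃ j, B2 i j)) ∪ (B3 ∪ B4) with hU
  have b1 : (Q.prod Q) (⋃ i, ⋃ j, B1 i j) ≤ 9 * β := by
    calc _ ≤ ∑ i : Fin 3, (Q.prod Q) (⋃ j, B1 i j) := measure_iUnion_fintype_le _ _
      _ ≤ ∑ i : Fin 3, ∑ j : Fin 3, (Q.prod Q) (B1 i j) :=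
          Finset.sum_le_sum fun i _ => measure_iUnion_fintype_le _ _
      _ ≤ ∑ i : Fin 3, ∑ j : Fin 3, β :=
          Finset.sum_le_sum fun i _ => Finset.sum_le_sum fun j _ => m1 i j
      _ = 9 * β := by simp [Finset.sum_const]; ring
  have b2 : (Q.prod Q) (⋃ i, ⋃ j, B2 i j) ≤ 9 * β := by
    calc _ ≤ ∑ i : Fin 3, (Q.prod Q) (⋃ j, B2 i j) := measure_iUnion_fintype_le _ _
      _ ≤ ∑ i : Fin 3, ∑ j : Fin 3, (Q.prod Q) (B2 i j) :=
          Finset.sum_le_sum fun i _ => measure_iUnion_fintype_le _ _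
      _ ≤ ∑ i : Fin 3, ∑ j : Fin 3, β :=
          Finset.sum_le_sum fun i _ => Finset.sum_le_sum fun j _ => m2 i j
      _ = 9 * β := by simp [Finset.sum_const]; ring
  have bU : (Q.prod Q) U ≤ 20 * β := by
    calc _ ≤ (9 * β + 9 * β) + (β + β) := by
          refine (measure_union_le _ _).trans (add_le_add ?_ ?_)
          · exact (measure_union_le _ _).trans (add_le_add b1 b2)
          · exact (measure_union_le _ _).trans (add_le_add m3 m4)
      _ = 20 * β := by ring
  set Gd : Set (Om × Om) := {ω | ∀ i j : Fin 3, (single i ω.1, single j ω.2) ∈ M} with hGd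
  have hne : ¬ (Gd ⊆ U) := by
    intro hsub
    have := measure_mono (μ := Q.prod Q) hsub
    exact absurd ((count μ M hM).trans (this.trans bU)) (not_le.2 hlt)
  rw [not_subset] at hne
  obtain ⟨ω, hω, hωU⟩ := hne
  refine ⟨six ω, ?_, ?_⟩
  · intro i j hi hj
    have g : ∀ i j : Fin 3, (single i ω.1, single j ω.2) ∈ M := hω
    fin_cases i <;> fin_cases j <;> first
      | exact absurd hi (by decide)
      | exact absurd hj (by decide)
      | exact g 0 0
      | exact g 0 1
      | exact g 0 2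
      | exact g 1 0
      | exact g 1 1
      | exact g 1 2
      | exact g 2 0
      | exact g 2 1
      | exact g 2 2
  · have n1 : ∀ i j, t ≤ |D (pair i ω.1).1 (pair i ω.1).2 (single j ω.2)| := by
      intro i j
      by_contra hcon
      push Not at hcon
      exact hωU (Or.inl (Or.inl (mem_iUnion.2 ⟨i, mem_iUnion.2 ⟨j, hcon⟩⟩)))
    have n2 : ∀ i j, t ≤ |D (single i ω.1) (pair j ω.2).1 (pair j ω.2).2| := by
      intro i j
      by_contra hcon
      push Not at hcon
      exact hωU (Or.inl (Or.inr (mem_iUnion.2 ⟨i, mem_iUnion.2 ⟨j, hcon⟩⟩)))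
    have n3 : t ≤ |D ω.1.1 ω.1.2.1 ω.1.2.2| := by
      by_contra hcon
      push Not at hcon
      exact hωU (Or.inr (Or.inl hcon))
    have n4 : t ≤ |D ω.2.1 ω.2.2.1 ω.2.2.2| := by
      by_contra hcon
      push Not at hcon
      exact hωU (Or.inr (Or.inr hcon))
    have key : ∀ a b c : Fin 6, a < b → b < c → t ≤ |D (six ω a) (six ω b) (six ω c)| := by
      intro a b c hab hbc
      fin_cases a <;> fin_cases b <;> first
        | exact absurd hab (by decide)
        | (fin_cases c <;> first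
            | exact absurd hbc (by decide)
            | exact n3
            | exact n4
            | exact n1 0 0
            | exact n1 0 1
            | exact n1 0 2
            | exact n1 1 0
            | exact n1 1 1
            | exact n1 1 2
            | exact n1 2 0
            | exact n1 2 1
            | exact n1 2 2
            | exact n2 0 0
            | exact n2 0 1
            | exact n2 0 2
            | exact n2 1 0
            | exact n2 1 1
            | exact n2 1 2
            | exact n2 2 0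
            | exact n2 2 1
            | exact n2 2 2)
    have sw1 : ∀ p q r : R2, |D q p r| = |D p q r| := by
      intro p q r
      rw [show D q p r = - D p q r by unfold D; ring, abs_neg]
    have sw2 : ∀ p q r : R2, |D p r q| = |D p q r| := by
      intro p q r
      rw [show D p r q = - D p q r by unfold D; ring, abs_neg]
    intro a b c hab hac hbc
    rcases lt_or_gt_of_ne hab with h1 | h1 <;> rcases lt_or_gt_of_ne hbc with h2 | h2
    · exact key a b c h1 h2
    · rcases lt_or_gt_of_ne hac with h3 | h3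
      · rw [← sw2]; exact key a c b h3 h2
      · rw [← sw2, ← sw1]; exact key c a b h3 h1
    · rcases lt_or_gt_of_ne hac with h3 | h3
      · rw [← sw1]; exact key b a c h1 h3
      · rw [← sw1, ← sw2]; exact key b c a h2 h3
    · rw [← sw1, ← sw2, ← sw1]
      exact key c b a h2 h1

end Q144.Beer
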