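import Pool.Agent.Q17.ML2.Stm

/-!
Project CA of helper17, job SB: the squarefree part of an integer a product of whose conjugates is a
square is bad.
-/

set_option autoImplicit false

open NumberField

namespace Pool.Agent.Q144.CA

open Pool.Agent.Q17.ML2 Pool.Agent.TH9.J3098 IntermediateField

section

variable {K M N : Type} [Field K] [NumberField K] [Field M] [NumberField M] [Algebra K M]
  [Field N] [NumberField N] [Algebra K N]

theorem mp_comp (φ : M →ₐ[K] N) :
    (mp φ).comp (algebraMap (𝓞 K) (𝓞 M)) = algebraMap (𝓞 K) (𝓞 N) := by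
  refine RingHom.ext fun x => RingOfIntegers.coe_injective ?_
  exact φ.commutes (x : K)

theorem mp_injective (φ : M →ₐ[K] N) : Function.Injective (mp φ) := by
  intro x y h
  apply RingOfIntegers.coe_injective
  exact φ.injective (congrArg (fun z : 𝓞 N => (z : N)) h)

theorem mp_integral (φ : M →ₐ[K] N) : (mp φ).IsIntegral := by
  have h : ((mp φ).comp (algebraMap ℤ (𝓞 M))).IsIntegral := by
    have h1 : (mp φ).comp (algebraMap ℤ (𝓞 M)) = algebraMap ℤ (𝓞 N) := RingHom.ext_int _ _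
    rw [h1]
    exact fun x => Algebra.IsIntegral.isIntegral x
  exact RingHom.IsIntegral.tower_top _ _ h

/-- lying over -/
theorem exists_above (φ : M →ₐ[K] N) (p : Ideal (𝓞 K)) (Q : Ideal (𝓞 M))
    (hQ : Q ∈ p.primesOver (𝓞 M)) : ∃ P ∈ p.primesOver (𝓞 N), P.comap (mp φ) = Q := by
  obtain ⟨⟨P, hP⟩, hPQ⟩ := (mp_integral φ).comap_surjective (mp_injective φ) ⟨Q, hQ.1⟩
  have h1 : P.comap (mp φ) = Q := congrArg PrimeSpectrum.asIdeal hPQ
  refine ⟨P, ⟨hP, ⟨?_⟩⟩, h1⟩
  have h2 : Q.LiesOver p := hQ.2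
  rw [h2.over, ← h1, Ideal.under_def, Ideal.under_def, Ideal.comap_comap, mp_comp]

theorem bad (hE1 : S_E1) [IsGalois K N] (hcardN : Nat.card (M →ₐ[K] N) = Module.finrank K M)
    (hfix : ∀ σ : N ≃ₐ[K] N, (∀ φ : M →ₐ[K] N, σ.toAlgHom.comp φ = φ) → σ = 1)
    (α : 𝓞 M) (𝔡 𝔠 : Ideal (𝓞 M)) (S : Finset (M →ₐ[K] N)) (hα : α ≠ 0) (hsq : Squarefree 𝔡)
    (hdc : Ideal.span {α} = 𝔡 * 𝔠 ^ 2) (hS : S.Nonempty) (b : N)
    (hb : ∏ φ ∈ S, φ (α : M) = b ^ 2) : 𝔡 ∈ Pool.Agent.TH444.ML.badId K M := by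
  classical
  refine ⟨hsq, fun p hp hp0 hcard => ?_⟩
  rintro ⟨Q, ⟨hQp, hQd⟩, huniq⟩
  obtain ⟨φ₀, hφ₀⟩ := hS
  obtain ⟨P, hPp, hPQ⟩ := exists_above φ₀ p Q hQp
  obtain ⟨hmem, hinj, hv⟩ := hE1 K M N hcardN hfix p hp hp0 hcard P hPp
  have hQd' : 𝔡 ≤ Q := Ideal.dvd_iff_le.mp hQd
  have hspan : Ideal.span {α} ≠ ⊥ := by
    rw [Ne, Ideal.span_singleton_eq_bot]
    exact hα
  have hd0 : 𝔡 ≠ ⊥ := by
    rintro rfl
    apply hspan
    rw [hdc, Ideal.bot_mul]
  have hc0 : 𝔠 ≠ ⊥ := by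
    rintro rfl
    apply hspan
    rw [hdc]
    simp [pow_two]
  have hcnt : ∀ φ : M →ₐ[K] N, v (P.comap (mp φ)) 𝔡 = if φ = φ₀ then 1 else 0 := by
    intro φ
    by_cases hφ : φ = φ₀
    · rw [if_pos hφ, hφ]
      refine v_sqf _ _ (hmem _).1 hd0 hsq ?_
      rw [hPQ]; exact hQd'
    · rw [if_neg hφ]
      refine v_zero _ _ hd0 ?_
      intro h
      have h3 : P.comap (mp φ) = Q := huniq _ ⟨hmem _, Ideal.dvd_iff_le.mpr h⟩
      exact hφ (hinj _ _ (h3.trans hPQ.symm))
  -- the product is a square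
  have hbint : IsIntegral ℤ b := by
    have h1 : IsIntegral ℤ (b ^ 2) := by
      rw [← hb]
      refine IsIntegral.prod _ fun φ _ => ?_
      exact map_isIntegral_int φ.toRingHom α.2
    exact IsIntegral.of_pow (by norm_num) h1
  obtain ⟨β, hβ⟩ : ∃ β : 𝓞 N, (β : N) = b := ⟨⟨b, hbint⟩, rfl⟩
  have hprod2 : ∏ φ ∈ S, mp φ α = β * β := by
    apply RingOfIntegers.coe_injective
    rw [map_prod, map_mul, show algebraMap (𝓞 N) N β = b from hβ, ← pow_two, ← hb]
    rfl
  have hI0 : ∀ φ : M →ₐ[K] N, (Ideal.span {α}).map (mp φ) ≠ ⊥ := by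
    intro φ h
    rw [Ideal.map_eq_bot_iff_of_injective (mp_injective φ)] at h
    exact hspan h
  have h1 : ∏ φ ∈ S, (Ideal.span {α}).map (mp φ) = Ideal.span {β} * Ideal.span {β} := by
    rw [Ideal.span_singleton_mul_span_singleton, ← hprod2, ← Ideal.prod_span_singleton]
    refine Finset.prod_congr rfl fun φ _ => ?_
    rw [Ideal.map_span, Set.image_singleton]
  have hβ0 : Ideal.span {β} ≠ ⊥ := by
    intro h
    have h4 : ∏ φ ∈ S, (Ideal.span {α}).map (mp φ) ≠ 0 :=
      Finset.prod_ne_zero_iff.mpr fun φ _ => hI0 φ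
    rw [h1, h] at h4
    exact h4 (by simp)
  have h2 : v P (∏ φ ∈ S, (Ideal.span {α}).map (mp φ)) = v P (Ideal.span {β}) + v P (Ideal.span {β}) := by
    rw [h1, v_mul _ hβ0 hβ0]
  rw [v_prod _ _ _ hI0] at h2
  have h3 : ∀ φ ∈ S, v P ((Ideal.span {α}).map (mp φ)) =
      (if φ = φ₀ then 1 else 0) + 2 * v (P.comap (mp φ)) 𝔠 := by
    intro φ _
    rw [hv φ _ hspan, hdc, pow_two, v_mul _ hd0 (mul_ne_zero hc0 hc0), v_mul _ hc0 hc0, hcnt]
    ring
  rw [Finset.sum_congr rfl h3, Finset.sum_add_distrib, Finset.sum_ite_eq', if_pos hφ₀,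
    ← Finset.mul_sum] at h2
  omega

end

/-- an automorphism of the normal closure which fixes all embeddings of `M` is trivial -/
theorem fix_all {K Ω : Type} [Field K] [Field Ω] [Algebra K Ω] (M : IntermediateField K Ω)
    (σ : IntermediateField.normalClosure K M Ω ≃ₐ[K] IntermediateField.normalClosure K M Ω)
    (h : ∀ φ : M →ₐ[K] IntermediateField.normalClosure K M Ω, σ.toAlgHom.comp φ = φ) : σ = 1 := by
  let E : IntermediateField K (IntermediateField.normalClosure K M Ω) :=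
    { AlgHom.equalizer σ.toAlgHom (AlgHom.id K _) with
      inv_mem' := fun x hx => by
        have h1 : σ x = x := hx
        show σ x⁻¹ = x⁻¹
        rw [map_inv₀, h1] }
  have hE : ∀ x : IntermediateField.normalClosure K M Ω, x ∈ E ↔ σ x = x := fun x => Iff.rfl
  have h1 : IntermediateField.normalClosure K M Ω ≤ IntermediateField.lift E := by
    rw [normalClosure_le_iff]
    rintro φ _ ⟨y, rfl⟩
    have h2 := (normalClosure.algHomEquiv K M Ω).apply_symm_apply φ
    have h3 : φ y = (((normalClosure.algHomEquiv K M Ω).symm φ y :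
        IntermediateField.normalClosure K M Ω) : Ω) := rfl
    show φ y ∈ IntermediateField.lift E
    rw [h3, IntermediateField.mem_lift, hE]
    exact congrArg (fun f : M →ₐ[K] IntermediateField.normalClosure K M Ω => f y)
      (h ((normalClosure.algHomEquiv K M Ω).symm φ))
  refine AlgEquiv.ext fun x => ?_
  have h2 := h1 x.2
  rw [IntermediateField.mem_lift, hE] at h2
  exact h2

theorem t_SB : S_SB := by
  classical
  intro hE1 K Ω _ _ _ _ _ M _ _ α 𝔡 𝔠 S hα hsq hdc hS hb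
  obtain ⟨b, hbN, hb⟩ := hb
  have : NumberField (IntermediateField.normalClosure K M Ω) := NumberField.of_module_finite K _
  have : IsAlgClosed Ω := IsAlgClosure.isAlgClosed K
  have : Algebra.IsAlgebraic K Ω := IsAlgClosure.isAlgebraic
  have : CharZero K := inferInstance
  have : IsGalois K (IntermediateField.normalClosure K M Ω) := ⟨⟩
  let e := normalClosure.algHomEquiv K M Ω
  have hval : ∀ (φ : M →ₐ[K] Ω) (x : M), ((e.symm φ x : IntermediateField.normalClosure K M Ω) : Ω) = φ x :=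
    fun φ x => rfl
  refine bad (N := IntermediateField.normalClosure K M Ω) hE1 ?_ (fun σ hσ => fix_all M σ hσ) α 𝔡 𝔠
    (S.map e.symm.toEmbedding) hα hsq hdc (by simpa using hS) ⟨b, hbN⟩ ?_
  · rw [Nat.card_congr e, Nat.card_eq_fintype_card]
    exact AlgHom.card K M Ω
  · rw [Finset.prod_map]
    apply Subtype.ext
    have h5 : ((∏ φ ∈ S, (e.symm.toEmbedding φ) (α : M) : IntermediateField.normalClosure K M Ω) : Ω) =
        ∏ φ ∈ S, φ (α : M) := by
      rw [show ((∏ φ ∈ S, (e.symm.toEmbedding φ) (α : M) : IntermediateField.normalClosure K M Ω) : Ω) =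
        (IntermediateField.normalClosure K M Ω).val (∏ φ ∈ S, (e.symm.toEmbedding φ) (α : M)) from rfl, map_prod]
      rfl
    rw [h5, hb]
    rfl

end Pool.Agent.Q144.CA
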