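import Pool.Agent.Q2.CS2.Stm

/-!
Project CAS of helper2, job 9: the class sizes of the example.
-/

set_option autoImplicit false

namespace Pool.Agent.Q144.CS

open Q2.CS2

lemma pi_default (z : V) : (Pi default z).1 = (z.1.1, z.1.2.filter (fun i => i < 0)) := by
  have hz := z.2
  refine Prod.ext ?_ ?_
  · show z.1.1 - 0 = z.1.1
    simp
  · show ((symmDiff (∅ : Finset ℤ) z.1.2).filter (fun i => i < 0 ∧ i < z.1.1)).image
      (fun i => i - 0) = z.1.2.filter (fun i => i < 0)
    ext i
    simp only [Finset.mem_image, Finset.mem_filter, Finset.mem_symmDiff, Finset.notMem_empty,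
      false_and, not_false_eq_true, and_true, false_or, sub_zero, exists_eq_right]
    exact ⟨fun h => ⟨h.1, h.2.1⟩, fun h => ⟨h.1, h.2, hz i h.1⟩⟩

/-- the class sizes of the example -/
theorem n_eq (h : E) : n Pi h = (2 : ℝ) ^ (h.1.1).toNat := by
  have hU := h.2
  have hinj : Set.InjOn (fun z : V => z.1.2.filter (fun i => 0 ≤ i)) {z | Pi default z = h} := by
    intro z hz z' hz' he
    have e1 : (Pi default z).1 = (Pi default z').1 := by
      rw [show Pi default z = h from hz, show Pi default z' = h from hz']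
    rw [pi_default, pi_default, Prod.mk.injEq] at e1
    refine Subtype.ext (Prod.ext e1.1 ?_)
    ext i
    have e2 := congrArg (fun s : Finset ℤ => i ∈ s) e1.2
    have e3 := congrArg (fun s : Finset ℤ => i ∈ s) he
    simp only [Finset.mem_filter, eq_iff_iff] at e2 e3
    by_cases hi : i < 0
    · exact ⟨fun h => (e2.1 ⟨h, hi⟩).1, fun h => (e2.2 ⟨h, hi⟩).1⟩
    · have hi' : 0 ≤ i := by omega
      exact ⟨fun h => (e3.1 ⟨h, hi'⟩).1, fun h => (e3.2 ⟨h, hi'⟩).1⟩
  have himg : (fun z : V => z.1.2.filter (fun i => 0 ≤ i)) '' {z | Pi default z = h} =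
      (((Finset.Ico (0 : ℤ) h.1.1).powerset : Finset (Finset ℤ)) : Set (Finset ℤ)) := by
    ext W
    rw [Set.mem_image, Finset.mem_coe, Finset.mem_powerset]
    constructor
    · rintro ⟨z, hz, rfl⟩ i hi
      have e1 : z.1.1 = h.1.1 := by
        rw [← show Pi default z = h from hz, pi_default]
      rw [Finset.mem_filter] at hi
      rw [Finset.mem_Ico, ← e1]
      exact ⟨hi.2, z.2 i hi.1⟩
    · intro hW
      refine ⟨⟨(h.1.1, h.1.2 ∪ W), ?_⟩, ?_, ?_⟩
      · intro i hi
        rcases Finset.mem_union.1 hi with hi | hi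
        · exact (hU i hi).2
        · exact (Finset.mem_Ico.1 (hW hi)).2
      · show Pi default _ = h
        refine Subtype.ext ?_
        rw [pi_default]
        refine Prod.ext rfl ?_
        ext i
        simp only [Finset.mem_filter, Finset.mem_union]
        constructor
        · rintro ⟨hi | hi, h0⟩
          · exact hi
          · have := (Finset.mem_Ico.1 (hW hi)).1
            omega
        · exact fun hi => ⟨Or.inl hi, (hU i hi).1⟩
      · show (h.1.2 ∪ W).filter (fun i => 0 ≤ i) = W
        ext i
        simp only [Finset.mem_filter, Finset.mem_union]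
        constructor
        · rintro ⟨hi | hi, h0⟩
          · have := (hU i hi).1
            omega
          · exact hi
        · exact fun hi => ⟨Or.inr hi, (Finset.mem_Ico.1 (hW hi)).1⟩
  have h1 : {z | Pi default z = h}.ncard = 2 ^ (h.1.1).toNat := by
    rw [← hinj.ncard_image, himg, Set.ncard_coe_finset, Finset.card_powerset, Int.card_Ico, sub_zero]
  unfold n
  rw [h1]
  push_cast
  rfl

theorem j9 (_h1 : S_1) (_h8 : S_8) : S_9 := by
  intro x y
  rw [n_eq]
  show (2 : ℝ) ^ (y.1.1 - x.1.1).toNat = _
  split_ifs with h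
  · rfl
  · rw [Int.toNat_of_nonpos (by omega), pow_zero]

end Pool.Agent.Q144.CS
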