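import Mathlib

set_option autoImplicit false

/-! Operator convex corners: rank one steps and the tangent cone at a vertex. -/

open Matrix Filter Topology
open scoped ComplexOrder

namespace Q144.Corner

/-- Hermitian matrices -/
abbrev H (n : ℕ) := selfAdjoint (Matrix (Fin n) (Fin n) ℂ)

variable {n : ℕ}

/-- positive semidefinite Hermitian matrices -/
def psd (A : H n) : Prop := (A : Matrix (Fin n) (Fin n) ℂ).PosSemidef

/-- the trace pairing -/
def tr (A B : H n) : ℝ :=
  ((A : Matrix (Fin n) (Fin n) ℂ) * (B : Matrix (Fin n) (Fin n) ℂ)).trace.re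

/-- rank one positive matrix -/
def rk (x : Fin n → ℂ) : H n := ⟨vecMulVec x (star x), by
  rw [selfAdjoint.mem_iff, star_eq_conjTranspose, conjTranspose_vecMulVec, star_star]⟩

/-- symmetric product of two vectors -/
def sy (u w : Fin n → ℂ) : H n := ⟨vecMulVec u (star w) + vecMulVec w (star u), by
  rw [selfAdjoint.mem_iff, star_eq_conjTranspose, conjTranspose_add, conjTranspose_vecMulVec,
    conjTranspose_vecMulVec, star_star, star_star, add_comm]⟩

theorem rk_psd (x : Fin n → ℂ) : psd (rk x) := posSemidef_vecMulVec_self_star x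

theorem rk_add (u w : Fin n → ℂ) : rk (u + w) = rk u + rk w + sy u w := by
  apply Subtype.ext
  show vecMulVec (u + w) (star (u + w)) = (vecMulVec u (star u) + vecMulVec w (star w)) +
    (vecMulVec u (star w) + vecMulVec w (star u))
  rw [star_add, add_vecMulVec, vecMulVec_add, vecMulVec_add]
  abel

theorem rk_smul (c : ℝ) (u : Fin n → ℂ) : rk (c • u) = (c ^ 2) • rk u := by
  apply Subtype.ext
  ext i j
  show (c • u) i * star ((c • u) j) = (((c ^ 2) • rk u : H n) : Matrix (Fin n) (Fin n) ℂ) i j
  rw [selfAdjoint.val_smul, Matrix.smul_apply]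
  show (c • u) i * star ((c • u) j) = (c ^ 2) • (u i * star (u j))
  have hc : star (c : ℂ) = c := Complex.conj_ofReal c
  simp only [Pi.smul_apply, Complex.real_smul, star_mul', hc]
  push_cast
  ring

theorem sy_smul (c : ℝ) (u w : Fin n → ℂ) : sy (c • u) w = c • sy u w := by
  apply Subtype.ext
  ext i j
  show (c • u) i * star (w j) + w i * star ((c • u) j) =
    ((c • sy u w : H n) : Matrix (Fin n) (Fin n) ℂ) i j
  rw [selfAdjoint.val_smul, Matrix.smul_apply]
  show (c • u) i * star (w j) + w i * star ((c • u) j) =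
    c • (u i * star (w j) + w i * star (u j))
  have hc : star (c : ℂ) = c := Complex.conj_ofReal c
  simp only [Pi.smul_apply, Complex.real_smul, star_mul', hc]
  ring

/-- the rank one step stays below `W` -/
theorem step_psd {W : H n} (hW : psd W) {x : Fin n → ℂ} {g : ℝ} (hg : 0 < g)
    (hx : star x ⬝ᵥ ((W : Matrix (Fin n) (Fin n) ℂ) *ᵥ x) = (g : ℂ)) :
    psd (W - (1 / g) • rk ((W : Matrix (Fin n) (Fin n) ℂ) *ᵥ x)) := by
  set M : Matrix (Fin n) (Fin n) ℂ := (W : Matrix (Fin n) (Fin n) ℂ) with hM
  have hMh : Mᴴ = M := hW.1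
  set y := M *ᵥ x with hy
  have hsy : star y = star x ᵥ* M := by
    rw [hy, star_mulVec, hMh]
  set P : Matrix (Fin n) (Fin n) ℂ := 1 - (1 / (g : ℂ)) • vecMulVec x (star y) with hP
  have hPh : Pᴴ = 1 - (1 / (g : ℂ)) • vecMulVec y (star x) := by
    rw [hP, conjTranspose_sub, conjTranspose_one, conjTranspose_smul, conjTranspose_vecMulVec,
      star_star]
    simp
  have key : Pᴴ * M * P = M - (1 / (g : ℂ)) • vecMulVec y (star y) := by
    rw [hPh, hP]
    have e1 : vecMulVec y (star x) * M = vecMulVec y (star y) := by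
      rw [vecMulVec_mul, ← hsy]
    have e2 : M * vecMulVec x (star y) = vecMulVec y (star y) := by
      rw [mul_vecMulVec]
    have e3 : vecMulVec y (star y) * vecMulVec x (star y) = (g : ℂ) • vecMulVec y (star y) := by
      rw [vecMulVec_mul_vecMulVec]
      have : star y ⬝ᵥ x = (g : ℂ) := by
        rw [hsy, ← dotProduct_mulVec]; exact hx
      rw [this, vecMulVec_smul]
    have hg0 : (g : ℂ) ≠ 0 := by exact_mod_cast hg.ne'
    simp only [sub_mul, mul_sub, one_mul, mul_one, smul_mul_assoc, mul_smul_comm, e1, e2, e3]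
    have h1 : (1 / (g : ℂ)) • (g : ℂ) • vecMulVec y (star y) = vecMulVec y (star y) := by
      rw [smul_smul, one_div, inv_mul_cancel₀ hg0, one_smul]
    rw [h1, sub_self, smul_zero, sub_zero]
  have h1 : (Pᴴ * M * P).PosSemidef := hW.conjTranspose_mul_mul_same P
  rw [key] at h1
  have h2 : ((W - (1 / g) • rk y : H n) : Matrix (Fin n) (Fin n) ℂ) =
      M - (1 / (g : ℂ)) • vecMulVec y (star y) := by
    ext i j
    rw [AddSubgroupClass.coe_sub, selfAdjoint.val_smul, Matrix.sub_apply, Matrix.sub_apply,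
      Matrix.smul_apply, Matrix.smul_apply]
    show M i j - (1 / g) • (y i * star (y j)) = M i j - (1 / (g : ℂ)) • (y i * star (y j))
    rw [Complex.real_smul, smul_eq_mul]
    push_cast
    ring
  show ((W - (1 / g) • rk y : H n) : Matrix (Fin n) (Fin n) ℂ).PosSemidef
  rw [h2]
  exact h1

end Q144.Corner
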