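import Pool.Agent.Q144.CornerA

set_option autoImplicit false

open Matrix Filter Topology
open scoped ComplexOrder

namespace Q144.Corner

variable {n : ℕ}

/-- convex corners -/
structure IsCorner (C : Set (H n)) : Prop where
  nonempty : C.Nonempty
  closed : IsClosed C
  convex : Convex ℝ C
  psd : ∀ A ∈ C, psd A
  hered : ∀ A ∈ C, ∀ B : H n, Corner.psd B → Corner.psd (A - B) → B ∈ C

instance instContSMul : ContinuousSMul ℝ (H n) := by
  refine ⟨?_⟩
  apply Continuous.subtype_mk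
  fun_prop

instance instFC : FirstCountableTopology (H n) :=
  haveI : FirstCountableTopology (Matrix (Fin n) (Fin n) ℂ) :=
    inferInstanceAs (FirstCountableTopology (Fin n → Fin n → ℂ))
  Topology.IsInducing.firstCountableTopology (f := fun A : H n => (A : Matrix (Fin n) (Fin n) ℂ))
    Topology.IsInducing.subtypeVal

/-- directions from `X` into `C` -/
def S (C : Set (H n)) (X : H n) : Set (H n) :=
  {D | ∃ c : ℝ, 0 ≤ c ∧ ∃ W ∈ C, D = c • (W - X)}

/-- tangent cone of `C` at `X` -/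
def T (C : Set (H n)) (X : H n) : Set (H n) := closure (S C X)

theorem S_smul {C : Set (H n)} {X D : H n} (hD : D ∈ S C X) {c : ℝ} (hc : 0 ≤ c) :
    c • D ∈ S C X := by
  obtain ⟨c', hc', W, hW, rfl⟩ := hD
  exact ⟨c * c', mul_nonneg hc hc', W, hW, smul_smul _ _ _⟩

theorem S_add {C : Set (H n)} (hC : Convex ℝ C) {X D D' : H n} (hD : D ∈ S C X)
    (hD' : D' ∈ S C X) : D + D' ∈ S C X := by
  obtain ⟨c, hc, W, hW, rfl⟩ := hD
  obtain ⟨c', hc', W', hW', rfl⟩ := hD'
  rcases eq_or_lt_of_le (add_nonneg hc hc') with h | h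
  · have h1 : c = 0 := by linarith
    have h2 : c' = 0 := by linarith
    exact ⟨0, le_rfl, W, hW, by rw [h1, h2]; simp⟩
  · refine ⟨c + c', h.le, (c / (c + c')) • W + (c' / (c + c')) • W', ?_, ?_⟩
    · apply hC hW hW'
      · positivity
      · positivity
      · rw [← add_div, div_self h.ne']
    · have e1 : c = (c + c') * (c / (c + c')) := by field_simp
      have e2 : c' = (c + c') * (c' / (c + c')) := by field_simp
      have e3 : (c + c') • ((c / (c + c')) • W + (c' / (c + c')) • W' - X) =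
          ((c + c') * (c / (c + c'))) • W + ((c + c') * (c' / (c + c'))) • W' - (c + c') • X := by
        module
      rw [e3, ← e1, ← e2]
      module

theorem T_smul {C : Set (H n)} {X D : H n} (hD : D ∈ T C X) {c : ℝ} (hc : 0 ≤ c) :
    c • D ∈ T C X := by
  have hcont : Continuous (fun D : H n => c • D) := continuous_const_smul c
  have hmaps : Set.MapsTo (fun D : H n => c • D) (S C X) (S C X) := fun D hD => S_smul hD hc
  exact map_mem_closure hcont hD hmaps

theorem T_add {C : Set (H n)} (hC : Convex ℝ C) {X D D' : H n} (hD : D ∈ T C X)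
    (hD' : D' ∈ T C X) : D + D' ∈ T C X :=
  map_mem_closure₂ continuous_add hD hD' (fun _ h1 _ h2 => S_add hC h1 h2)

theorem T_closed (C : Set (H n)) (X : H n) : IsClosed (T C X) := isClosed_closure

theorem S_sub_T (C : Set (H n)) (X : H n) : S C X ⊆ T C X := subset_closure

theorem T_of_mem {C : Set (H n)} {X W : H n} (hW : W ∈ C) : W - X ∈ T C X :=
  S_sub_T C X ⟨1, zero_le_one, W, hW, by rw [one_smul]⟩

theorem herm_re (A : H n) (x : Fin n → ℂ) :
    star x ⬝ᵥ ((A : Matrix (Fin n) (Fin n) ℂ) *ᵥ x) =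
      ((star x ⬝ᵥ ((A : Matrix (Fin n) (Fin n) ℂ) *ᵥ x)).re : ℂ) := by
  have h1 : (A : Matrix (Fin n) (Fin n) ℂ).IsHermitian := A.2
  have h2 := h1.im_star_dotProduct_mulVec_self x
  apply Complex.ext
  · simp
  · simpa using h2

theorem cont_mv {X : Type*} [TopologicalSpace X] {A : X → H n} {v : X → Fin n → ℂ}
    (hA : Continuous A) (hv : Continuous v) :
    Continuous (fun x => (A x : Matrix (Fin n) (Fin n) ℂ) *ᵥ v x) :=
  Continuous.matrix_mulVec (continuous_subtype_val.comp hA) hv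

theorem cont_rk {X : Type*} [TopologicalSpace X] {v : X → Fin n → ℂ} (hv : Continuous v) :
    Continuous (fun x => rk (v x)) := by
  apply Continuous.subtype_mk
  exact Continuous.matrix_vecMulVec hv (continuous_star.comp hv)

/-- the main perturbation step -/
theorem star_step {C : Set (H n)} (hC : IsCorner C) {X Q : H n} (hX : X ∈ C) (hQ : Q ∈ T C X)
    {η : Fin n → ℂ} (ξ : Fin n → ℂ) (hη : (X : Matrix (Fin n) (Fin n) ℂ) *ᵥ η = 0) {q : ℝ}
    (hq : 0 < q) (hqe : star η ⬝ᵥ ((Q : Matrix (Fin n) (Fin n) ℂ) *ᵥ η) = (q : ℂ)) :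
    Q - (1 / q) • rk ((X : Matrix (Fin n) (Fin n) ℂ) *ᵥ ξ +
      (Q : Matrix (Fin n) (Fin n) ℂ) *ᵥ η) ∈ T C X := by
  obtain ⟨s, hs, hlim⟩ := mem_closure_iff_seq_limit.1 hQ
  choose c hc W hW hsW using hs
  set t : ℕ → ℝ := fun k => 1 / (c k + k + 1) with ht
  have hden : ∀ k, 0 < c k + k + 1 := fun k => by
    have := hc k
    positivity
  have htpos : ∀ k, 0 < t k := fun k => one_div_pos.2 (hden k)
  have htc : ∀ k, t k * c k ≤ 1 := by
    intro k
    rw [ht]
    simp only
    rw [one_div, inv_mul_le_iff₀ (hden k)]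
    have : (0 : ℝ) ≤ k := Nat.cast_nonneg k
    linarith
  have htlim : Tendsto t atTop (𝓝 0) := by
    have h1 : ∀ k, t k ≤ 1 / ((k : ℝ) + 1) := by
      intro k
      apply one_div_le_one_div_of_le (by positivity)
      have := hc k
      linarith
    exact squeeze_zero (fun k => (htpos k).le) h1 tendsto_one_div_add_atTop_nhds_zero_nat
  -- the points of `C`
  set W' : ℕ → H n := fun k => X + t k • s k with hW'
  have hW'C : ∀ k, W' k ∈ C := by
    intro k
    have h1 : W' k = (1 - t k * c k) • X + (t k * c k) • W k := by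
      rw [hW']
      simp only
      rw [hsW k, smul_smul, smul_sub, sub_smul, one_smul]
      abel
    rw [h1]
    exact hC.convex hX (hW k) (by linarith [htc k]) (mul_nonneg (htpos k).le (hc k)) (by ring)
  -- the vectors
  set x : ℕ → Fin n → ℂ := fun k => t k • ξ + η with hx
  set y : ℕ → Fin n → ℂ := fun k => (X : Matrix (Fin n) (Fin n) ℂ) *ᵥ ξ +
    (s k : Matrix (Fin n) (Fin n) ℂ) *ᵥ x k with hy
  have hxlim : Tendsto x atTop (𝓝 η) := by
    have h1 : Tendsto (fun k => t k • ξ + η) atTop (𝓝 ((0 : ℝ) • ξ + η)) :=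
      (htlim.smul_const ξ).add_const η
    rwa [zero_smul, zero_add] at h1
  have hylim : Tendsto y atTop (𝓝 ((X : Matrix (Fin n) (Fin n) ℂ) *ᵥ ξ +
      (Q : Matrix (Fin n) (Fin n) ℂ) *ᵥ η)) := by
    have hc2 : Continuous (fun p : H n × (Fin n → ℂ) =>
        (p.1 : Matrix (Fin n) (Fin n) ℂ) *ᵥ p.2) := cont_mv continuous_fst continuous_snd
    have h1 : Tendsto (fun k => (s k, x k)) atTop (𝓝 (Q, η)) := hlim.prodMk_nhds hxlim
    exact ((hc2.tendsto (Q, η)).comp h1).const_add _
  set h : ℕ → ℝ := fun k => (star (x k) ⬝ᵥ y k).re with hh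
  have hhlim : Tendsto h atTop (𝓝 q) := by
    have hc2 : Continuous (fun p : (Fin n → ℂ) × (Fin n → ℂ) => (star p.1 ⬝ᵥ p.2).re) :=
      Complex.continuous_re.comp ((continuous_star.comp continuous_fst).dotProduct continuous_snd)
    have h1 := (hc2.tendsto (η, (X : Matrix (Fin n) (Fin n) ℂ) *ᵥ ξ +
      (Q : Matrix (Fin n) (Fin n) ℂ) *ᵥ η)).comp (hxlim.prodMk_nhds hylim)
    have h2 : (star η ⬝ᵥ ((X : Matrix (Fin n) (Fin n) ℂ) *ᵥ ξ +
        (Q : Matrix (Fin n) (Fin n) ℂ) *ᵥ η)).re = q := by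
      have hXh : (X : Matrix (Fin n) (Fin n) ℂ)ᴴ = (X : Matrix (Fin n) (Fin n) ℂ) := X.2
      have e1 : star η ᵥ* (X : Matrix (Fin n) (Fin n) ℂ) = 0 := by
        have := star_mulVec (X : Matrix (Fin n) (Fin n) ℂ) η
        rw [hη, hXh, star_zero] at this
        exact this.symm
      rw [dotProduct_add, hqe, dotProduct_mulVec, e1, zero_dotProduct, zero_add]
      simp
    rw [← h2]
    exact h1
  have hhpos : ∀ᶠ k in atTop, 0 < h k := hhlim.eventually (lt_mem_nhds hq)
  -- `W' x = t y`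
  have hWx : ∀ k, (W' k : Matrix (Fin n) (Fin n) ℂ) *ᵥ x k = t k • y k := by
    intro k
    have e1 : (W' k : Matrix (Fin n) (Fin n) ℂ) = (X : Matrix (Fin n) (Fin n) ℂ) +
        t k • (s k : Matrix (Fin n) (Fin n) ℂ) := by
      rw [hW']
      simp only [AddSubgroup.coe_add, selfAdjoint.val_smul]
    rw [e1, add_mulVec, smul_mulVec, hy]
    simp only
    have e2 : (X : Matrix (Fin n) (Fin n) ℂ) *ᵥ x k =
        t k • ((X : Matrix (Fin n) (Fin n) ℂ) *ᵥ ξ) := by
      rw [hx]
      simp only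
      rw [mulVec_add, hη, add_zero, mulVec_smul]
    rw [e2, smul_add]
  have hgx : ∀ k, star (x k) ⬝ᵥ ((W' k : Matrix (Fin n) (Fin n) ℂ) *ᵥ x k) =
      ((t k * h k : ℝ) : ℂ) := by
    intro k
    rw [herm_re (W' k) (x k), hWx k, dotProduct_smul]
    rw [Complex.real_smul, Complex.re_ofReal_mul]
  have hmem : ∀ᶠ k in atTop, s k - (1 / h k) • rk (y k) ∈ S C X := by
    filter_upwards [hhpos] with k hk
    have hg : 0 < t k * h k := mul_pos (htpos k) hk
    have h1 := step_psd (hC.psd _ (hW'C k)) hg (hgx k)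
    have h2 : psd ((1 / (t k * h k)) • rk ((W' k : Matrix (Fin n) (Fin n) ℂ) *ᵥ x k)) := by
      have := (rk_psd ((W' k : Matrix (Fin n) (Fin n) ℂ) *ᵥ x k)).smul
        (show (0 : ℝ) ≤ 1 / (t k * h k) by positivity)
      exact this
    have hB : W' k - (1 / (t k * h k)) • rk ((W' k : Matrix (Fin n) (Fin n) ℂ) *ᵥ x k) ∈ C := by
      apply hC.hered (W' k) (hW'C k) _ h1
      rw [sub_sub_cancel]
      exact h2
    refine ⟨1 / t k, (one_div_pos.2 (htpos k)).le, _, hB, ?_⟩
    rw [hWx k, rk_smul, smul_smul]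
    have e1 : W' k - (1 / (t k * h k) * t k ^ 2) • rk (y k) - X =
        t k • (s k - (1 / h k) • rk (y k)) := by
      rw [hW', smul_sub, smul_smul]
      simp only
      have e2 : 1 / (t k * h k) * t k ^ 2 = t k * (1 / h k) := by
        have := (htpos k).ne'
        field_simp
      rw [e2]
      abel
    rw [e1, smul_smul, one_div_mul_cancel (htpos k).ne', one_smul]
  have hlim2 : Tendsto (fun k => s k - (1 / h k) • rk (y k)) atTop
      (𝓝 (Q - (1 / q) • rk ((X : Matrix (Fin n) (Fin n) ℂ) *ᵥ ξ +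
        (Q : Matrix (Fin n) (Fin n) ℂ) *ᵥ η))) := by
    have hc2 : Continuous (fun v : Fin n → ℂ => rk v) := cont_rk continuous_id
    apply hlim.sub
    have h1 : Tendsto (fun k => 1 / h k) atTop (𝓝 (1 / q)) :=
      (tendsto_const_nhds).div hhlim hq.ne'
    exact h1.smul ((hc2.tendsto _).comp hylim)
  exact mem_closure_of_tendsto hlim2 hmem

end Q144.Corner
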