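import Pool.Agent.Q144.CornerB

set_option autoImplicit false

open Matrix Filter Topology
open scoped ComplexOrder

namespace Q144.Corner

variable {n : ℕ}

theorem factor (X Q : Matrix (Fin n) (Fin n) ℂ) (h : ∀ z, X *ᵥ z = 0 → Q *ᵥ z = 0) :
    ∃ Z : Matrix (Fin n) (Fin n) ℂ, Q = Z * X := by
  set f := Matrix.toLin' X with hf
  set g := Matrix.toLin' Q with hg
  have hle : LinearMap.ker f ≤ LinearMap.ker g := by
    intro z hz
    rw [LinearMap.mem_ker] at hz ⊢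
    rw [hg, Matrix.toLin'_apply]
    rw [hf, Matrix.toLin'_apply] at hz
    exact h z hz
  set h0 : LinearMap.range f →ₗ[ℂ] (Fin n → ℂ) :=
    ((LinearMap.ker f).liftQ g hle).comp f.quotKerEquivRange.symm.toLinearMap with hh0
  obtain ⟨k, hk⟩ := LinearMap.exists_extend h0
  refine ⟨LinearMap.toMatrix' k, ?_⟩
  have hcomp : k.comp f = g := by
    refine LinearMap.ext fun x => ?_
    have h1 : k (f x) = h0 ⟨f x, LinearMap.mem_range_self _ _⟩ := by
      rw [← hk]; rfl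
    have h2 : f.quotKerEquivRange.symm ⟨f x, LinearMap.mem_range_self _ _⟩ =
        Submodule.Quotient.mk x := by
      rw [LinearEquiv.symm_apply_eq]
      rfl
    show k (f x) = _
    rw [h1, hh0]
    show ((LinearMap.ker f).liftQ g hle) (f.quotKerEquivRange.symm _) = _
    rw [h2]
    rfl
  have h3 : LinearMap.toMatrix' (k.comp f) = LinearMap.toMatrix' k * LinearMap.toMatrix' f :=
    LinearMap.toMatrix'_comp k f
  rw [hcomp, hf, hg, LinearMap.toMatrix'_toLin', LinearMap.toMatrix'_toLin'] at h3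
  exact h3

theorem neg_rk_mem {C : Set (H n)} (hC : IsCorner C) {X : H n} (hX : X ∈ C) (z : Fin n → ℂ) :
    - rk ((X : Matrix (Fin n) (Fin n) ℂ) *ᵥ z) ∈ T C X := by
  set g := (star z ⬝ᵥ ((X : Matrix (Fin n) (Fin n) ℂ) *ᵥ z)).re with hg
  have hge : star z ⬝ᵥ ((X : Matrix (Fin n) (Fin n) ℂ) *ᵥ z) = (g : ℂ) := herm_re X z
  have hpX : psd X := hC.psd X hX
  have hg0 : 0 ≤ g := by
    have := (posSemidef_iff_dotProduct_mulVec.1 hpX).2 z
    rw [hge] at this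
    exact_mod_cast this
  rcases eq_or_lt_of_le hg0 with h | h
  · have h1 : (X : Matrix (Fin n) (Fin n) ℂ) *ᵥ z = 0 := by
      rw [← hpX.dotProduct_mulVec_zero_iff, hge, ← h]; simp
    rw [h1]
    have : rk (0 : Fin n → ℂ) = 0 := by
      apply Subtype.ext
      show vecMulVec (0 : Fin n → ℂ) (star 0) = 0
      simp
    rw [this, neg_zero]
    have := T_of_mem (X := X) hX
    rwa [sub_self] at this
  · have hB : X - (1 / g) • rk ((X : Matrix (Fin n) (Fin n) ℂ) *ᵥ z) ∈ C := by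
      apply hC.hered X hX _ (step_psd hpX h hge)
      rw [sub_sub_cancel]
      exact (rk_psd _).smul (show (0 : ℝ) ≤ 1 / g by positivity)
    have h1 := T_smul (T_of_mem (X := X) hB) h.le
    have h2 : g • (X - (1 / g) • rk ((X : Matrix (Fin n) (Fin n) ℂ) *ᵥ z) - X) =
        - rk ((X : Matrix (Fin n) (Fin n) ℂ) *ᵥ z) := by
      rw [sub_sub_cancel_left, smul_neg, smul_smul, mul_one_div_cancel h.ne', one_smul]
    rwa [h2] at h1

theorem neg_mem {C : Set (H n)} (hC : IsCorner C) {X Q : H n} (hX : X ∈ C) (hQ : psd Q)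
    (hker : ∀ z, (X : Matrix (Fin n) (Fin n) ℂ) *ᵥ z = 0 →
      (Q : Matrix (Fin n) (Fin n) ℂ) *ᵥ z = 0) : - Q ∈ T C X := by
  obtain ⟨m, v, hv⟩ := posSemidef_iff_eq_sum_vecMulVec.1 hQ
  have hQs : Q = ∑ i, rk (v i) := by
    apply Subtype.ext
    rw [hv, AddSubgroup.val_finsetSum]
    rfl
  have hXh : (X : Matrix (Fin n) (Fin n) ℂ)ᴴ = (X : Matrix (Fin n) (Fin n) ℂ) := X.2
  have hvi : ∀ i, ∃ z, v i = (X : Matrix (Fin n) (Fin n) ℂ) *ᵥ z := by
    intro i
    by_cases hvi0 : v i = 0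
    · exact ⟨0, by rw [hvi0, mulVec_zero]⟩
    have hk : ∀ z, (X : Matrix (Fin n) (Fin n) ℂ) *ᵥ z = 0 →
        (vecMulVec (v i) (star (v i))) *ᵥ z = 0 := by
      intro z hz
      have h1 := hker z hz
      have h2 : star z ⬝ᵥ ((Q : Matrix (Fin n) (Fin n) ℂ) *ᵥ z) = 0 := by rw [h1, dotProduct_zero]
      rw [hv, sum_mulVec, dotProduct_sum] at h2
      have h3 : ∀ j ∈ Finset.univ, (0 : ℂ) ≤ star z ⬝ᵥ (vecMulVec (v j) (star (v j)) *ᵥ z) :=
        fun j _ => (posSemidef_iff_dotProduct_mulVec.1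
          (posSemidef_vecMulVec_self_star (v j))).2 z
      have h4 := (Finset.sum_eq_zero_iff_of_nonneg h3).1 h2 i (Finset.mem_univ i)
      exact ((posSemidef_vecMulVec_self_star (v i)).dotProduct_mulVec_zero_iff z).1 h4
    obtain ⟨Z, hZ⟩ := factor _ _ hk
    have hZ2 : vecMulVec (v i) (star (v i)) = (X : Matrix (Fin n) (Fin n) ℂ) * Zᴴ := by
      have h5 := congrArg conjTranspose hZ
      rw [conjTranspose_vecMulVec, star_star, conjTranspose_mul, hXh] at h5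
      exact h5
    have hne : star (v i) ⬝ᵥ v i ≠ 0 := by
      intro h0
      exact hvi0 (dotProduct_star_self_eq_zero.1 h0)
    refine ⟨(star (v i) ⬝ᵥ v i)⁻¹ • (Zᴴ *ᵥ v i), ?_⟩
    rw [mulVec_smul, mulVec_mulVec, ← hZ2, vecMulVec_mulVec]
    rw [op_smul_eq_smul, smul_smul, inv_mul_cancel₀ hne, one_smul]
  rw [hQs, ← Finset.sum_neg_distrib]
  have h0 : (0 : H n) ∈ T C X := by
    have := T_of_mem (X := X) hX
    rwa [sub_self] at this
  have hind : ∀ s : Finset (Fin m), ∑ i ∈ s, - rk (v i) ∈ T C X := by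
    intro s
    classical
    induction s using Finset.induction_on with
    | empty => simpa using h0
    | insert a s ha ih =>
      rw [Finset.sum_insert ha]
      refine T_add hC.convex ?_ ih
      obtain ⟨z, hz⟩ := hvi a
      rw [hz]
      exact neg_rk_mem hC hX z
  exact hind _

theorem sy_mem {C : Set (H n)} (hC : IsCorner C) {X : H n} (hX : X ∈ C) {w η : Fin n → ℂ}
    {q : ℝ} (hq : 0 < q) (hη : (X : Matrix (Fin n) (Fin n) ℂ) *ᵥ η = 0)
    (hQ : (1 / q) • rk w ∈ T C X)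
    (hw : (((1 / q) • rk w : H n) : Matrix (Fin n) (Fin n) ℂ) *ᵥ η = w)
    (hqe : star η ⬝ᵥ w = (q : ℂ)) (ξ : Fin n → ℂ) :
    - sy ((X : Matrix (Fin n) (Fin n) ℂ) *ᵥ ξ) w ∈ T C X := by
  -- elements for small positive parameters
  have hstep : ∀ l : ℝ, 0 < l → - sy ((X : Matrix (Fin n) (Fin n) ℂ) *ᵥ ξ) w -
      l • rk ((X : Matrix (Fin n) (Fin n) ℂ) *ᵥ ξ) ∈ T C X := by
    intro l hl
    have h1 := star_step hC hX hQ (l • ξ) hη hq (by rw [hw]; exact hqe)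
    rw [hw, mulVec_smul, rk_add, rk_smul, sy_smul] at h1
    have h2 := T_smul h1 (show (0 : ℝ) ≤ q / l by positivity)
    have h3 : (q / l) • ((1 / q) • rk w - (1 / q) •
        (l ^ 2 • rk ((X : Matrix (Fin n) (Fin n) ℂ) *ᵥ ξ) + rk w +
          l • sy ((X : Matrix (Fin n) (Fin n) ℂ) *ᵥ ξ) w)) =
        - sy ((X : Matrix (Fin n) (Fin n) ℂ) *ᵥ ξ) w -
          l • rk ((X : Matrix (Fin n) (Fin n) ℂ) *ᵥ ξ) := by
      have e1 : (q / l) • ((1 / q) • rk w - (1 / q) •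
          (l ^ 2 • rk ((X : Matrix (Fin n) (Fin n) ℂ) *ᵥ ξ) + rk w +
          l • sy ((X : Matrix (Fin n) (Fin n) ℂ) *ᵥ ξ) w)) =
          - ((q / l) * (1 / q) * l) • sy ((X : Matrix (Fin n) (Fin n) ℂ) *ᵥ ξ) w -
          ((q / l) * (1 / q) * l ^ 2) • rk ((X : Matrix (Fin n) (Fin n) ℂ) *ᵥ ξ) := by
        module
      rw [e1]
      have e2 : (q / l) * (1 / q) * l = 1 := by field_simp
      have e3 : (q / l) * (1 / q) * l ^ 2 = l := by field_simp
      rw [e2, e3, neg_smul, one_smul]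
    rwa [h3] at h2
  have hlim : Tendsto (fun k : ℕ => - sy ((X : Matrix (Fin n) (Fin n) ℂ) *ᵥ ξ) w -
      (1 / ((k : ℝ) + 1)) • rk ((X : Matrix (Fin n) (Fin n) ℂ) *ᵥ ξ)) atTop
      (𝓝 (- sy ((X : Matrix (Fin n) (Fin n) ℂ) *ᵥ ξ) w)) := by
    have h1 : Tendsto (fun k : ℕ => - sy ((X : Matrix (Fin n) (Fin n) ℂ) *ᵥ ξ) w -
      (1 / ((k : ℝ) + 1)) • rk ((X : Matrix (Fin n) (Fin n) ℂ) *ᵥ ξ)) atTop
      (𝓝 (- sy ((X : Matrix (Fin n) (Fin n) ℂ) *ᵥ ξ) w -
        (0 : ℝ) • rk ((X : Matrix (Fin n) (Fin n) ℂ) *ᵥ ξ))) :=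
      tendsto_const_nhds.sub
        ((tendsto_one_div_add_atTop_nhds_zero_nat (𝕜 := ℝ)).smul_const _)
    rwa [zero_smul, sub_zero] at h1
  exact (T_closed C X).mem_of_tendsto hlim (Eventually.of_forall fun k => hstep _ (by positivity))

end Q144.Corner
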