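import Pool.Agent.Q144.CornerC

set_option autoImplicit false

open Matrix Filter Topology
open scoped ComplexOrder

namespace Q144.Corner

variable {n : ℕ}

/-- the tangent cone at a nonzero vertex contains no nonzero positive matrix -/
theorem inter_zero {C : Set (H n)} (hC : IsCorner C) {X : H n} (hX : X ∈ C) (hX0 : X ≠ 0)
    (hpt : ∀ D, D ∈ T C X → - D ∈ T C X → D = 0) : ∀ Q ∈ T C X, psd Q → Q = 0 := by
  have hXh : (X : Matrix (Fin n) (Fin n) ℂ)ᴴ = (X : Matrix (Fin n) (Fin n) ℂ) := X.2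
  obtain ⟨ξ, hξ⟩ : ∃ ξ, (X : Matrix (Fin n) (Fin n) ℂ) *ᵥ ξ ≠ 0 := by
    by_contra hcon
    push Not at hcon
    apply hX0
    apply Subtype.ext
    ext i j
    have h1 := congrFun (hcon (Pi.single j 1)) i
    rw [mulVec_single_one] at h1
    exact h1
  -- it suffices to kill the kernel
  have hfin : ∀ Q ∈ T C X, psd Q → (∀ z, (X : Matrix (Fin n) (Fin n) ℂ) *ᵥ z = 0 →
      (Q : Matrix (Fin n) (Fin n) ℂ) *ᵥ z = 0) → Q = 0 :=
    fun Q hQ hQp hk => hpt Q hQ (neg_mem hC hX hQp hk)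
  have main : ∀ (m : ℕ) (Q : H n), Q ∈ T C X → psd Q →
      n ≤ Module.finrank ℂ (LinearMap.ker (mulVecLin (Q : Matrix (Fin n) (Fin n) ℂ))) + m →
      (∀ z, (X : Matrix (Fin n) (Fin n) ℂ) *ᵥ z = 0 →
        (Q : Matrix (Fin n) (Fin n) ℂ) *ᵥ z = 0) := by
    intro m
    induction m with
    | zero =>
      intro Q _ _ hd z _
      have htop : LinearMap.ker (mulVecLin (Q : Matrix (Fin n) (Fin n) ℂ)) = ⊤ := by
        apply Submodule.eq_top_of_finrank_eq
        apply le_antisymm (Submodule.finrank_le _)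
        simpa using hd
      have : z ∈ LinearMap.ker (mulVecLin (Q : Matrix (Fin n) (Fin n) ℂ)) := by
        rw [htop]; trivial
      simpa using this
    | succ m ih =>
      intro Q hQ hQp hd
      by_contra hcon
      push Not at hcon
      obtain ⟨η, hη, hQη⟩ := hcon
      set w := (Q : Matrix (Fin n) (Fin n) ℂ) *ᵥ η with hw
      set q := (star η ⬝ᵥ w).re with hq
      have hqe : star η ⬝ᵥ w = (q : ℂ) := herm_re Q η
      have hq0 : 0 < q := by
        have h1 := (posSemidef_iff_dotProduct_mulVec.1 hQp).2 η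
        rw [← hw, hqe] at h1
        have h2 : (0 : ℝ) ≤ q := by exact_mod_cast h1
        refine lt_of_le_of_ne h2 (fun h0 => hQη ?_)
        rw [← hQp.dotProduct_mulVec_zero_iff, ← hw, hqe, ← h0]
        simp
      have hQh : (Q : Matrix (Fin n) (Fin n) ℂ)ᴴ = (Q : Matrix (Fin n) (Fin n) ℂ) := Q.2
      have hstarw : star w ⬝ᵥ η = (q : ℂ) := by
        rw [hw, star_mulVec, hQh, ← dotProduct_mulVec]; exact hqe
      set Q1 := Q - (1 / q) • rk w with hQ1
      have hQ1T : Q1 ∈ T C X := by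
        have := star_step hC hX hQ 0 hη hq0 hqe
        rwa [mulVec_zero, zero_add] at this
      have hQ1p : psd Q1 := step_psd hQp hq0 hqe
      have hQ1c : ∀ z, (Q1 : Matrix (Fin n) (Fin n) ℂ) *ᵥ z =
          (Q : Matrix (Fin n) (Fin n) ℂ) *ᵥ z - ((1 / q : ℝ) : ℂ) • ((star w ⬝ᵥ z) • w) := by
        intro z
        rw [hQ1, AddSubgroupClass.coe_sub, selfAdjoint.val_smul, sub_mulVec, smul_mulVec]
        have : (rk w : Matrix (Fin n) (Fin n) ℂ) *ᵥ z = (star w ⬝ᵥ z) • w := by
          show vecMulVec w (star w) *ᵥ z = _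
          rw [vecMulVec_mulVec, op_smul_eq_smul]
        rw [this]
        rfl
      have hlt : LinearMap.ker (mulVecLin (Q : Matrix (Fin n) (Fin n) ℂ)) <
          LinearMap.ker (mulVecLin (Q1 : Matrix (Fin n) (Fin n) ℂ)) := by
        apply lt_of_le_of_ne
        · intro z hz
          have hz' : (Q : Matrix (Fin n) (Fin n) ℂ) *ᵥ z = 0 := by simpa using hz
          have h1 : star w ⬝ᵥ z = 0 := by
            rw [hw, star_mulVec, hQh, ← dotProduct_mulVec, hz', dotProduct_zero]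
          rw [LinearMap.mem_ker, mulVecLin_apply, hQ1c, hz', h1, zero_smul, smul_zero, sub_zero]
        · intro heq
          have h1 : η ∈ LinearMap.ker (mulVecLin (Q1 : Matrix (Fin n) (Fin n) ℂ)) := by
            rw [LinearMap.mem_ker, mulVecLin_apply, hQ1c, hstarw, smul_smul, ← hw]
            have : ((1 / q : ℝ) : ℂ) * (q : ℂ) = 1 := by
              rw [← Complex.ofReal_mul, one_div_mul_cancel hq0.ne']; simp
            rw [this, one_smul, sub_self]
          rw [← heq, LinearMap.mem_ker, mulVecLin_apply] at h1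
          exact hQη h1
      have hd1 := Submodule.finrank_lt_finrank_of_lt hlt
      have hk1 := ih Q1 hQ1T hQ1p (by omega)
      have hQ10 : Q1 = 0 := hfin Q1 hQ1T hQ1p hk1
      have hQeq : Q = (1 / q) • rk w := by
        rw [hQ1, sub_eq_zero] at hQ10; exact hQ10
      have hsy : ∀ ζ, - sy ((X : Matrix (Fin n) (Fin n) ℂ) *ᵥ ζ) w ∈ T C X := by
        intro ζ
        apply sy_mem hC hX hq0 hη (by rw [← hQeq]; exact hQ) _ hqe
        rw [← hQeq]
      have h1 := hsy ξ
      have h2 := hsy ((-1 : ℝ) • ξ)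
      rw [mulVec_smul, sy_smul, neg_one_smul, neg_neg] at h2
      have h3 := hpt _ h2 h1
      have h4 : (sy ((X : Matrix (Fin n) (Fin n) ℂ) *ᵥ ξ) w : Matrix (Fin n) (Fin n) ℂ) *ᵥ η
          = 0 := by
        rw [h3]; simp
      have h5 : (sy ((X : Matrix (Fin n) (Fin n) ℂ) *ᵥ ξ) w : Matrix (Fin n) (Fin n) ℂ) *ᵥ η
          = (star w ⬝ᵥ η) • ((X : Matrix (Fin n) (Fin n) ℂ) *ᵥ ξ) +
            (star ((X : Matrix (Fin n) (Fin n) ℂ) *ᵥ ξ) ⬝ᵥ η) • w := by
        show (vecMulVec _ (star w) + vecMulVec w (star _)) *ᵥ η = _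
        rw [add_mulVec, vecMulVec_mulVec, vecMulVec_mulVec, op_smul_eq_smul, op_smul_eq_smul]
      have h6 : star ((X : Matrix (Fin n) (Fin n) ℂ) *ᵥ ξ) ⬝ᵥ η = 0 := by
        rw [star_mulVec, hXh, ← dotProduct_mulVec, hη, dotProduct_zero]
      rw [h5, h6, zero_smul, add_zero, hstarw] at h4
      rcases smul_eq_zero.1 h4 with h7 | h7
      · have : q = 0 := by exact_mod_cast h7
        exact hq0.ne' this
      · exact hξ h7
  intro Q hQ hQp
  exact hfin Q hQ hQp (main n Q hQ hQp (by omega))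

end Q144.Corner
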