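import Pool.Agent.Q144.CornerD

set_option autoImplicit false

open Matrix Filter Topology
open scoped ComplexOrder

namespace Q144.Corner

variable {n : ℕ}

/-- inclusion into all matrices, as a real linear map -/
def incl (n : ℕ) : H n →ₗ[ℝ] Matrix (Fin n) (Fin n) ℂ where
  toFun A := A
  map_add' _ _ := rfl
  map_smul' _ _ := rfl

instance instFin : Module.Finite ℝ (H n) :=
  have : Module.Finite ℝ (Matrix (Fin n) (Fin n) ℂ) := Module.Finite.matrix
  Module.Finite.of_injective (incl n) Subtype.val_injective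

theorem tr_add_left (A B Z : H n) : tr (A + B) Z = tr A Z + tr B Z := by
  unfold tr
  rw [AddSubgroup.coe_add, add_mul, trace_add, Complex.add_re]

theorem tr_smul_left (c : ℝ) (A Z : H n) : tr (c • A) Z = c * tr A Z := by
  unfold tr
  rw [selfAdjoint.val_smul, smul_mul, trace_smul, Complex.real_smul, Complex.re_ofReal_mul]

theorem tr_comm (A Z : H n) : tr A Z = tr Z A := by
  unfold tr; rw [trace_mul_comm]

/-- pairing with `Z` as a linear functional -/
def trL (Z : H n) : H n →ₗ[ℝ] ℝ where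
  toFun A := tr A Z
  map_add' A B := tr_add_left A B Z
  map_smul' c A := by rw [tr_smul_left]; rfl

theorem trL_apply (A Z : H n) : trL Z A = tr A Z := rfl

theorem tr_sub_left (A B Z : H n) : tr (A - B) Z = tr A Z - tr B Z := (trL Z).map_sub A B

theorem tr_neg_left (A Z : H n) : tr (- A) Z = - tr A Z := (trL Z).map_neg A

theorem tr_add_right (A B Z : H n) : tr Z (A + B) = tr Z A + tr Z B := by
  rw [tr_comm, tr_add_left, tr_comm A, tr_comm B]

theorem tr_smul_right (c : ℝ) (A Z : H n) : tr Z (c • A) = c * tr Z A := by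
  rw [tr_comm, tr_smul_left, tr_comm A]

theorem tr_sub_right (A B Z : H n) : tr Z (A - B) = tr Z A - tr Z B := by
  rw [tr_comm, tr_sub_left, tr_comm A, tr_comm B]

theorem tr_self_eq_zero {A : H n} (h : tr A A = 0) : A = 0 := by
  have hA : (A : Matrix (Fin n) (Fin n) ℂ)ᴴ = (A : Matrix (Fin n) (Fin n) ℂ) := A.2
  have h1 : (((A : Matrix (Fin n) (Fin n) ℂ)ᴴ * (A : Matrix (Fin n) (Fin n) ℂ)).trace) = 0 := by
    have hp := (posSemidef_conjTranspose_mul_self (A : Matrix (Fin n) (Fin n) ℂ)).trace_nonneg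
    rw [Complex.nonneg_iff] at hp
    apply Complex.ext
    · rw [hA]; exact h
    · exact hp.2.symm
  apply Subtype.ext
  exact trace_conjTranspose_mul_self_eq_zero_iff.1 h1

theorem riesz (f : H n →ₗ[ℝ] ℝ) : ∃ Z : H n, ∀ A, f A = tr A Z := by
  set Φ : H n →ₗ[ℝ] Module.Dual ℝ (H n) :=
    { toFun := fun Z => trL Z
      map_add' := fun Z Z' => by
        ext A
        exact tr_add_right Z Z' A
      map_smul' := fun c Z => by
        ext A
        exact tr_smul_right c Z A } with hΦ
  have hinj : Function.Injective Φ := by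
    rw [injective_iff_map_eq_zero]
    intro Z hZ
    apply tr_self_eq_zero
    have := LinearMap.congr_fun hZ Z
    exact this
  have hsurj := (LinearMap.injective_iff_surjective_of_finrank_eq_finrank
    (Subspace.dual_finrank_eq (K := ℝ) (V := H n)).symm).1 hinj
  obtain ⟨Z, hZ⟩ := hsurj f
  exact ⟨Z, fun A => by rw [← hZ]; rfl⟩

theorem tr_rk (x : Fin n → ℂ) (A : H n) :
    tr (rk x) A = (star x ⬝ᵥ ((A : Matrix (Fin n) (Fin n) ℂ) *ᵥ x)).re := by
  unfold tr
  show (vecMulVec x (star x) * (A : Matrix (Fin n) (Fin n) ℂ)).trace.re = _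
  rw [vecMulVec_mul, trace_vecMulVec, dotProduct_comm, ← dotProduct_mulVec]

theorem psd_iff (A : H n) : psd A ↔ ∀ x, 0 ≤ tr (rk x) A := by
  unfold psd
  rw [posSemidef_iff_dotProduct_mulVec]
  constructor
  · rintro ⟨-, h⟩ x
    have := h x
    rw [Complex.nonneg_iff] at this
    rw [tr_rk]; exact this.1
  · intro h
    refine ⟨A.2, fun x => ?_⟩
    rw [herm_re A x, ← tr_rk]
    exact_mod_cast h x

theorem cont_tr (Z : H n) : Continuous (fun A : H n => tr A Z) := by
  unfold tr
  have h1 : Continuous (fun A : H n =>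
      (A : Matrix (Fin n) (Fin n) ℂ) * (Z : Matrix (Fin n) (Fin n) ℂ)) :=
    Continuous.matrix_mul continuous_subtype_val continuous_const
  exact Complex.continuous_re.comp h1.matrix_trace

theorem tr_nonneg {A Z : H n} (hA : psd A) (hZ : psd Z) : 0 ≤ tr A Z := by
  obtain ⟨m, v, hv⟩ := posSemidef_iff_eq_sum_vecMulVec.1 hA
  have hAs : A = ∑ i, rk (v i) := by
    apply Subtype.ext
    rw [hv, AddSubgroup.val_finsetSum]
    rfl
  have h1 : tr A Z = ∑ i, tr (rk (v i)) Z := by
    rw [hAs]
    exact map_sum (trL Z) _ _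
  rw [h1]
  exact Finset.sum_nonneg fun i _ => (psd_iff Z).1 hZ _

/-- the identity -/
def idH (n : ℕ) : H n := ⟨1, by rw [selfAdjoint.mem_iff]; exact star_one _⟩

theorem tr_idH (A : H n) : tr A (idH n) = (A : Matrix (Fin n) (Fin n) ℂ).trace.re := by
  unfold tr idH
  rw [mul_one]

theorem entry_bound {A : H n} (hA : psd A) (i j : Fin n) :
    ‖(A : Matrix (Fin n) (Fin n) ℂ) i j‖ ≤ tr A (idH n) := by
  obtain ⟨m, v, hv⟩ := posSemidef_iff_eq_sum_vecMulVec.1 hA
  have h1 : tr A (idH n) = ∑ k, ∑ l, ‖v k l‖ ^ 2 := by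
    rw [tr_idH, hv, trace_sum, Complex.re_sum]
    refine Finset.sum_congr rfl fun k _ => ?_
    rw [trace_vecMulVec, dotProduct, Complex.re_sum]
    refine Finset.sum_congr rfl fun l _ => ?_
    rw [Pi.star_apply, Complex.star_def, Complex.mul_conj, Complex.normSq_eq_norm_sq]
    norm_cast
  have h2 : (A : Matrix (Fin n) (Fin n) ℂ) i j = ∑ k, v k i * star (v k j) := by
    rw [hv, Matrix.sum_apply]
    rfl
  rw [h1, h2]
  refine (norm_sum_le _ _).trans (Finset.sum_le_sum fun k _ => ?_)
  rw [norm_mul, norm_star]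
  have hi : ‖v k i‖ ^ 2 ≤ ∑ l, ‖v k l‖ ^ 2 :=
    Finset.single_le_sum (f := fun l => ‖v k l‖ ^ 2) (fun l _ => by positivity)
      (Finset.mem_univ i)
  have hj : ‖v k j‖ ^ 2 ≤ ∑ l, ‖v k l‖ ^ 2 :=
    Finset.single_le_sum (f := fun l => ‖v k l‖ ^ 2) (fun l _ => by positivity)
      (Finset.mem_univ j)
  nlinarith [sq_nonneg (‖v k i‖ - ‖v k j‖)]

/-- density matrices -/
def dens (n : ℕ) : Set (H n) := {A | psd A ∧ tr A (idH n) = 1}

theorem dens_convex : Convex ℝ (dens n) := by
  intro A hA B hB a b ha hb hab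
  refine ⟨?_, ?_⟩
  · rw [psd_iff]
    intro x
    rw [tr_comm, tr_add_left, tr_smul_left, tr_smul_left, tr_comm A, tr_comm B]
    have h1 := (psd_iff A).1 hA.1 x
    have h2 := (psd_iff B).1 hB.1 x
    positivity
  · rw [tr_add_left, tr_smul_left, tr_smul_left, hA.2, hB.2]; linarith

section
open scoped Matrix.Norms.Elementwise

theorem dens_compact : IsCompact (dens n) := by
  have : ProperSpace (H n) := FiniteDimensional.proper_real (H n)
  apply Metric.isCompact_of_isClosed_isBounded
  · have : dens n = (⋂ x : Fin n → ℂ, {A : H n | 0 ≤ tr (rk x) A}) ∩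
        {A : H n | tr A (idH n) = 1} := by
      ext A
      simp only [dens, Set.mem_inter_iff, Set.mem_iInter]
      constructor
      · rintro ⟨h1, h2⟩
        exact ⟨fun x => (psd_iff A).1 h1 x, h2⟩
      · rintro ⟨h1, h2⟩
        exact ⟨(psd_iff A).2 h1, h2⟩
    rw [this]
    apply IsClosed.inter
    · apply isClosed_iInter
      intro x
      have hc : Continuous (fun A : H n => tr (rk x) A) := by
        have := cont_tr (rk x)
        refine this.congr fun A => ?_
        exact tr_comm A (rk x)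
      exact isClosed_le continuous_const hc
    · exact isClosed_eq (cont_tr _) continuous_const
  · rw [isBounded_iff_forall_norm_le]
    refine ⟨1, fun A hA => ?_⟩
    have h1 : ‖(A : Matrix (Fin n) (Fin n) ℂ)‖ ≤ 1 := by
      rw [Matrix.norm_le_iff zero_le_one]
      intro i j
      exact (entry_bound hA.1 i j).trans (le_of_eq hA.2)
    exact h1

theorem exists_sep {T : Set (H n)} (hTc : Convex ℝ T) (hTcl : IsClosed T)
    (hT0 : (0 : H n) ∈ T) (hTs : ∀ D ∈ T, ∀ c : ℝ, 0 ≤ c → c • D ∈ T)
    (hdis : ∀ Q ∈ T, psd Q → Q = 0) :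
    ∃ (Z : H n) (δ : ℝ), 0 < δ ∧ (∀ D ∈ T, tr D Z ≤ 0) ∧ (∀ Q ∈ dens n, δ ≤ tr Q Z) := by
  have : LocallyConvexSpace ℝ (H n) := NormedSpace.toLocallyConvexSpace (E := H n)
  have hd : Disjoint (dens n) T := by
    rw [Set.disjoint_left]
    intro Q hQ hQT
    have h0 := hdis Q hQT hQ.1
    have h1 := hQ.2
    rw [h0] at h1
    have : tr (0 : H n) (idH n) = 0 := (trL (idH n)).map_zero
    rw [this] at h1
    exact zero_ne_one h1
  obtain ⟨f, u, v, hu, huv, hv⟩ :=
    geometric_hahn_banach_compact_closed dens_convex dens_compact hTc hTcl hd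
  have hv0 : v < 0 := by
    have := hv 0 hT0
    rwa [map_zero] at this
  have hfT : ∀ D ∈ T, 0 ≤ f D := by
    intro D hD
    by_contra hcon
    push Not at hcon
    have h1 := hv ((v / f D) • D) (hTs D hD _ (div_nonneg_of_nonpos hv0.le hcon.le))
    rw [map_smul, smul_eq_mul, div_mul_cancel₀ _ hcon.ne] at h1
    exact lt_irrefl _ h1
  obtain ⟨Z, hZ⟩ := riesz (-(f : H n →ₗ[ℝ] ℝ))
  have hZ' : ∀ A, - f A = tr A Z := fun A => hZ A
  refine ⟨Z, -u, by linarith, ?_, ?_⟩
  · intro D hD
    rw [← hZ' D]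
    linarith [hfT D hD]
  · intro Q hQ
    rw [← hZ' Q]
    linarith [hu Q hQ]

end

theorem finrank_H : Module.finrank ℝ (H n) = n ^ 2 := by
  have e1 : Module.finrank ℝ (Matrix (Fin n) (Fin n) ℂ) = 2 * n ^ 2 := by
    have h1 : Module.finrank ℝ (Matrix (Fin n) (Fin n) ℂ) =
        2 * Module.finrank ℂ (Matrix (Fin n) (Fin n) ℂ) := finrank_real_of_complex _
    rw [h1, Module.finrank_matrix]
    simp
    ring
  have e2 := LinearEquiv.finrank_eq (StarModule.decomposeProdAdjoint ℝ
    (Matrix (Fin n) (Fin n) ℂ))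
  have : Module.Finite ℝ (Matrix (Fin n) (Fin n) ℂ) := Module.Finite.matrix
  have : Module.Finite ℝ (skewAdjoint (Matrix (Fin n) (Fin n) ℂ)) := by
    let g : skewAdjoint (Matrix (Fin n) (Fin n) ℂ) →ₗ[ℝ] Matrix (Fin n) (Fin n) ℂ :=
      { toFun := fun A => A
        map_add' := fun _ _ => rfl
        map_smul' := fun _ _ => rfl }
    exact Module.Finite.of_injective g Subtype.val_injective
  have e3 : Module.finrank ℝ (skewAdjoint (Matrix (Fin n) (Fin n) ℂ)) =
      Module.finrank ℝ (H n) := by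
    let g : skewAdjoint (Matrix (Fin n) (Fin n) ℂ) →ₗ[ℝ] H n :=
      { toFun := fun A => ⟨Complex.I • (A : Matrix (Fin n) (Fin n) ℂ), by
          rw [selfAdjoint.mem_iff, star_smul, A.2]
          simp⟩
        map_add' := fun A B => by
          apply Subtype.ext
          exact smul_add _ _ _
        map_smul' := fun c A => by
          apply Subtype.ext
          exact smul_comm _ _ _ }
    let k : H n →ₗ[ℝ] skewAdjoint (Matrix (Fin n) (Fin n) ℂ) :=
      { toFun := fun A => ⟨Complex.I • (A : Matrix (Fin n) (Fin n) ℂ), by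
          rw [skewAdjoint.mem_iff, star_smul, A.2]
          simp⟩
        map_add' := fun A B => by
          apply Subtype.ext
          exact smul_add _ _ _
        map_smul' := fun c A => by
          apply Subtype.ext
          exact smul_comm _ _ _ }
    apply le_antisymm
    · apply LinearMap.finrank_le_finrank_of_injective (f := g)
      intro A B hAB
      have h1 : Complex.I • (A : Matrix (Fin n) (Fin n) ℂ) = Complex.I • (B : Matrix _ _ ℂ) :=
        congrArg Subtype.val hAB
      exact Subtype.ext (smul_right_injective _ Complex.I_ne_zero h1)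
    · apply LinearMap.finrank_le_finrank_of_injective (f := k)
      intro A B hAB
      have h1 : Complex.I • (A : Matrix (Fin n) (Fin n) ℂ) = Complex.I • (B : Matrix _ _ ℂ) :=
        congrArg Subtype.val hAB
      exact Subtype.ext (smul_right_injective _ Complex.I_ne_zero h1)
  have e4 : Module.finrank ℝ (H n × skewAdjoint (Matrix (Fin n) (Fin n) ℂ)) =
      Module.finrank ℝ (H n) + Module.finrank ℝ (skewAdjoint (Matrix (Fin n) (Fin n) ℂ)) :=
    Module.finrank_prod
  have e5 : 2 * n ^ 2 = Module.finrank ℝ (H n) + Module.finrank ℝ (H n) := by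
    rw [← e1]
    refine e2.trans (e4.trans ?_)
    rw [e3]
  omega

end Q144.Corner
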