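import Pool.Agent.Q144.DSForm

set_option autoImplicit false

/-! Counting: some bipartite graph is not the cross alternation graph of a two-sided word. -/

namespace Q144.DS

open List

variable {α : Type*}

/-- number of blocks of the letters satisfying `q` -/
def B [DecidableEq α] (q : α → Bool) (w : List α) : ℕ :=
  ((w.filter q).destutter (· ≠ ·)).length

theorem B_mono [DecidableEq α] (q : α → Bool) (u v : List α) : B q v ≤ B q (u ++ v) := by
  unfold B
  apply List.IsChain.length_le_length_destutter_ne
  · rw [filter_append]
    exact (destutter_sublist _ _).trans (sublist_append_right _ _)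
  · exact isChain_destutter _ _

theorem B_step [DecidableEq α] (q : α → Bool) (u v : List α) (a x0 : α) (ha : q a = true)
    (hx : a ≠ ((u ++ a :: v).filter q).head?.getD x0) :
    1 + B q (a :: v) ≤ B q (u ++ a :: v) := by
  unfold B
  set x := ((u ++ a :: v).filter q).head?.getD x0 with hxdef
  have hfa : (a :: v).filter q = a :: v.filter q := filter_cons_of_pos ha
  match hu : u.filter q with
  | [] =>
    exfalso
    apply hx
    rw [hxdef, filter_append, hu, hfa]
    simp
  | z :: t =>
    have hz : x = z := by
      rw [hxdef, filter_append, hu]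
      simp
    have h1 : x :: ((a :: v).filter q).destutter (· ≠ ·) <+ (u ++ a :: v).filter q := by
      rw [filter_append, hu, hz]
      have : z :: ((a :: v).filter q).destutter (· ≠ ·) =
          [z] ++ ((a :: v).filter q).destutter (· ≠ ·) := rfl
      rw [this]
      exact Sublist.append (Sublist.cons_cons z (nil_sublist t)) (destutter_sublist _ _)
    have h2 : (x :: ((a :: v).filter q).destutter (· ≠ ·)).IsChain (· ≠ ·) := by
      rw [hfa, destutter_cons']
      exact isChain_cons_destutter'_of_rel _ _ hx.symm
    have h3 := List.IsChain.length_le_length_destutter_ne h1 h2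
    rw [length_cons] at h3
    omega

theorem B_pos [DecidableEq α] (q : α → Bool) (a : α) (v : List α) (ha : q a = true) :
    1 ≤ B q (a :: v) := by
  unfold B
  have h1 : [a] <+ (a :: v).filter q := by
    rw [filter_cons_of_pos ha]; exact Sublist.cons_cons a (nil_sublist _)
  have h3 := List.IsChain.length_le_length_destutter_ne h1 (by simp)
  simpa using h3

/-- normal form of bounded length -/
theorem normal [DecidableEq α] (c : α → Bool) (x0 y0 : α) : ∀ (n : ℕ) (w : List α), w.length ≤ n →
    ∃ w', Eqv c w w' ∧ w'.length ≤ 6 * (B c w + B (fun z => !c z) w) := by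
  intro n
  induction n with
  | zero =>
    intro w hw
    have : w = [] := length_eq_zero_iff.1 (by omega)
    exact ⟨[], by rw [this]; exact Eqv.refl c [], by simp⟩
  | succ n ih =>
    intro w hw
    by_cases hw0 : w = []
    · exact ⟨[], by rw [hw0]; exact Eqv.refl c [], by simp⟩
    set x := (w.filter c).head?.getD x0 with hx
    set y := (w.filter (fun z => !c z)).head?.getD y0 with hy
    set u := w.takeWhile (fun z => decide (z = x ∨ z = y)) with hu
    set v := w.dropWhile (fun z => decide (z = x ∨ z = y)) with hv
    have huv : u ++ v = w := takeWhile_append_dropWhile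
    have huxy : ∀ z ∈ u, z = x ∨ z = y := by
      intro z hz
      have := mem_takeWhile_imp hz
      simpa using this
    obtain ⟨u', hu', huu'⟩ := cell c x y u.length u le_rfl huxy
    match hvv : v with
    | [] =>
      refine ⟨u', ?_, ?_⟩
      · have : w = u := by rw [← huv]; simp
        rw [this]; exact huu'
      · match w, hw0 with
        | a :: w1, _ =>
          cases hca : c a with
          | true =>
            have := B_pos c a w1 hca
            omega
          | false =>
            have := B_pos (fun z => !c z) a w1 (by simp [hca])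
            omega
    | a :: v' =>
      have hPa : ¬ (a = x ∨ a = y) := by
        have h1 : (w.dropWhile (fun z => decide (z = x ∨ z = y))).head? = some a := by
          rw [← hv]; rfl
        have h2 := head?_dropWhile_not (fun z => decide (z = x ∨ z = y)) w
        rw [h1] at h2
        simpa using h2
      push Not at hPa
      have hulen : 1 ≤ u.length := by
        match w, hw0, hu, hx, hy with
        | b :: w1, _, hu, hx, hy =>
          have hb : b = x ∨ b = y := by
            cases hcb : c b with
            | true => left; rw [hx, filter_cons_of_pos hcb]; simp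
            | false => right; rw [hy, filter_cons_of_pos (by simp [hcb])]; simp
          have : b ∈ u := by
            rw [hu, takeWhile_cons_of_pos (by simpa using hb)]
            simp
          exact length_pos_of_mem this
      have hlen : w.length = u.length + (a :: v').length := by
        rw [← huv]; simp
      obtain ⟨v'', hv1, hv2⟩ := ih (a :: v') (by omega)
      refine ⟨u' ++ v'', ?_, ?_⟩
      · rw [← huv]
        exact huu'.append hv1
      · rw [length_append]
        cases hca : c a with
        | true =>
          have h1 : 1 + B c (a :: v') ≤ B c w := by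
            have := B_step c u v' a x0 hca (by rw [huv]; exact hPa.1)
            rwa [huv] at this
          have h2 : B (fun z => !c z) (a :: v') ≤ B (fun z => !c z) w := by
            rw [← huv]; exact B_mono _ _ _
          omega
        | false =>
          have h1 : 1 + B (fun z => !c z) (a :: v') ≤ B (fun z => !c z) w := by
            have := B_step (fun z => !c z) u v' a y0 (by simp [hca]) (by rw [huv]; exact hPa.2)
            rwa [huv] at this
          have h2 : B c (a :: v') ≤ B c w := by
            rw [← huv]; exact B_mono _ _ _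
          omega

/-- words over `2 n` letters, the first `n` being the left ones -/
abbrev V (n : ℕ) := Fin n ⊕ Fin n

theorem B_le {n : ℕ} (q : V (n + 1) → Bool) (A : Finset (V (n + 1))) (hA : A.card = n + 1)
    (hq : ∀ z, q z = true → z ∈ A) (w : List (V (n + 1)))
    (h : ∀ a ∈ A, ∀ b ∈ A, b ≠ a → ¬ [a, b, a, b, a] <+ w) :
    (B q w : ℝ) ≤ (n + 1) * (1 + 2 * (harmonic n : ℝ)) := by
  unfold B
  apply ds_bound n A hA
  · intro x hx
    have := (destutter_sublist _ _).subset hx
    exact hq x (mem_filter.1 this).2
  · exact isChain_destutter _ _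
  · intro a ha b hb hab hs
    exact h a ha b hb hab (hs.trans ((destutter_sublist _ _).trans filter_sublist))

/-- a matrix is represented by a word -/
def Rep {n : ℕ} (G : Fin n → Fin n → Bool) (w : List (V n)) : Prop :=
  ∀ i j, G i j = true ↔
    (altp (Sum.inl i : V n) (Sum.inr j) 5 <+ w ∨ altp (Sum.inr j : V n) (Sum.inl i) 5 <+ w)

/-- no long alternations on either side -/
def Quiet {n : ℕ} (w : List (V n)) : Prop :=
  (∀ i j : Fin n, j ≠ i → ¬ [(Sum.inl i : V n), Sum.inl j, Sum.inl i, Sum.inl j, Sum.inl i] <+ w) ∧
  (∀ i j : Fin n, j ≠ i → ¬ [(Sum.inr i : V n), Sum.inr j, Sum.inr i, Sum.inr j, Sum.inr i] <+ w)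

theorem log_bound : (harmonic 8191 : ℝ) ≤ 10.1 := by
  have h1 : ((harmonic 8191 : ℚ) : ℝ) ≤ 1 + Real.log ((8191 : ℕ) : ℝ) :=
    harmonic_le_one_add_log 8191
  have h2 : Real.log (8191 : ℕ) ≤ 9.02 := by
    have h3 : Real.log ((8191 : ℕ) : ℝ) ≤ Real.log (2 ^ 13) :=
      Real.log_le_log (by norm_num) (by norm_num)
    rw [Real.log_pow] at h3
    have h4 := Real.log_two_lt_d9
    norm_num at h3 ⊢
    linarith
  calc ((harmonic 8191 : ℚ) : ℝ) ≤ 1 + Real.log ((8191 : ℕ) : ℝ) := h1
    _ ≤ 1 + 9.02 := add_le_add le_rfl h2
    _ ≤ 10.1 := by norm_num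

theorem short_word {G : Fin 8192 → Fin 8192 → Bool} {w : List (V 8192)} (hq : Quiet w)
    (hG : Rep G w) : ∃ w', Rep G w' ∧ w'.length ≤ 264 * 8192 := by
  obtain ⟨w', hw, hlen⟩ := normal (fun z : V 8192 => z.isLeft) (Sum.inl 0) (Sum.inr 0) w.length w
    le_rfl
  refine ⟨w', ?_, ?_⟩
  · intro i j
    rw [hG i j, hw (Sum.inl i) (Sum.inr j) (by simp) 5 le_rfl,
      hw (Sum.inr j) (Sum.inl i) (by simp) 5 le_rfl]
  · have hb1 : (B (fun z : V 8192 => z.isLeft) w : ℝ) ≤ (8191 + 1) * (1 + 2 * (harmonic 8191 : ℝ)) := by
      have := B_le (n := 8191) (fun z => z.isLeft) (Finset.univ.image Sum.inl)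
        (by rw [Finset.card_image_of_injective _ Sum.inl_injective]; simp)
        (by
          intro z hz
          rcases z with z | z
          · exact Finset.mem_image_of_mem _ (Finset.mem_univ z)
          · simp at hz) w
        (by
          intro a ha b hb hab
          obtain ⟨i, -, rfl⟩ := Finset.mem_image.1 ha
          obtain ⟨j, -, rfl⟩ := Finset.mem_image.1 hb
          exact hq.1 i j (fun h => hab (by rw [h])))
      exact_mod_cast this
    have hb2 : (B (fun z : V 8192 => !z.isLeft) w : ℝ) ≤
        (8191 + 1) * (1 + 2 * (harmonic 8191 : ℝ)) := by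
      have := B_le (n := 8191) (fun z => !z.isLeft) (Finset.univ.image Sum.inr)
        (by rw [Finset.card_image_of_injective _ Sum.inr_injective]; simp)
        (by
          intro z hz
          rcases z with z | z
          · simp at hz
          · exact Finset.mem_image_of_mem _ (Finset.mem_univ z)) w
        (by
          intro a ha b hb hab
          obtain ⟨i, -, rfl⟩ := Finset.mem_image.1 ha
          obtain ⟨j, -, rfl⟩ := Finset.mem_image.1 hb
          exact hq.2 i j (fun h => hab (by rw [h])))
      exact_mod_cast this
    have hlog := log_bound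
    have h1 : (B (fun z : V 8192 => z.isLeft) w : ℝ) ≤ (22 * 8192 : ℕ) := by
      push_cast; linarith
    have h2 : (B (fun z : V 8192 => !z.isLeft) w : ℝ) ≤ (22 * 8192 : ℕ) := by
      push_cast; linarith
    have h1' := Nat.cast_le.1 h1
    have h2' := Nat.cast_le.1 h2
    omega

theorem pow_aux {n M : ℕ} (h5 : n + n + 1 ≤ 2 ^ 15) (h : (2 ^ n) ^ n ≤ (n + n + 1) ^ M) :
    n * n ≤ 15 * M := by
  have h6 : ((2 ^ n) ^ n : ℕ) ≤ (2 ^ 15) ^ M := h.trans (Nat.pow_le_pow_left h5 M)
  rw [← pow_mul, ← pow_mul] at h6
  exact (Nat.pow_le_pow_iff_right (by norm_num : 1 < 2)).1 h6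

theorem exists_bad_gen {n M : ℕ} (h5 : n + n + 1 ≤ 2 ^ 15) (hM : 15 * M < n * n)
    (hs : ∀ {G : Fin n → Fin n → Bool} {w : List (V n)}, Quiet w → Rep G w →
      ∃ w', Rep G w' ∧ w'.length ≤ M) :
    ∃ G : Fin n → Fin n → Bool, ∀ w : List (V n), Quiet w → ¬ Rep G w := by
  classical
  by_contra hcon
  push Not at hcon
  have h1 : ∀ G : Fin n → Fin n → Bool, ∃ w', Rep G w' ∧ w'.length ≤ M := by
    intro G
    obtain ⟨w, hq, hG⟩ := hcon G
    exact hs hq hG
  choose F hF hFl using h1
  set Φ : (Fin n → Fin n → Bool) → (Fin M → Option (V n)) :=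
    fun G i => (F G)[(i : ℕ)]? with hΦ
  have hinj : Function.Injective Φ := by
    intro G G' hGG
    have hl : F G = F G' := by
      apply List.ext_getElem?
      intro k
      by_cases hk : k < M
      · exact congrFun hGG ⟨k, hk⟩
      · rw [getElem?_eq_none_iff.2, getElem?_eq_none_iff.2]
        · exact (hFl G').trans (not_lt.1 hk)
        · exact (hFl G).trans (not_lt.1 hk)
    funext i j
    have h2 := hF G i j
    have h3 := hF G' i j
    rw [hl] at h2
    have h4 : G i j = true ↔ G' i j = true := h2.trans h3.symm
    cases hg : G i j <;> cases hg' : G' i j <;> simp [hg, hg'] at h4 ⊢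
  have hcard := Fintype.card_le_of_injective Φ hinj
  rw [Fintype.card_fun, Fintype.card_fun, Fintype.card_fun, Fintype.card_option,
    Fintype.card_sum, Fintype.card_fin, Fintype.card_fin, Fintype.card_bool] at hcard
  exact absurd (pow_aux h5 hcard) (not_le.2 hM)

theorem exists_bad : ∃ G : Fin 8192 → Fin 8192 → Bool, ∀ w : List (V 8192), Quiet w →
    ¬ Rep G w :=
  exists_bad_gen (n := 8192) (M := 264 * 8192) (by norm_num) (by norm_num) short_word

end Q144.DS
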