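import Pool.Agent.Q144.DSWord

set_option autoImplicit false

/-! A normal form of bounded length for the cross alternations of a two-sided word. -/

namespace Q144.DS

variable {α : Type*}

open List

/-- the alternating word `a b a b ...` of length `k` -/
def altp (a b : α) : ℕ → List α
  | 0 => []
  | k + 1 => a :: altp b a k

theorem altp_split (a b : α) : ∀ (k : ℕ) (l₁ l₂ : List α), altp a b k = l₁ ++ l₂ →
    ∃ i j, i + j = k ∧ l₁ = altp a b i ∧ (l₂ = altp a b j ∨ l₂ = altp b a j)
  | 0, l₁, l₂, h => by
      have h' : l₁ ++ l₂ = [] := h.symm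
      rw [append_eq_nil_iff] at h'
      exact ⟨0, 0, rfl, h'.1, Or.inl h'.2⟩
  | k + 1, [], l₂, h => ⟨0, k + 1, by omega, rfl, Or.inl h.symm⟩
  | k + 1, x :: l₁, l₂, h => by
      have h' : a :: altp b a k = x :: (l₁ ++ l₂) := h
      rw [cons_eq_cons] at h'
      obtain ⟨i, j, hij, h1, h2⟩ := altp_split b a k l₁ l₂ h'.2
      refine ⟨i + 1, j, by omega, ?_, h2.symm⟩
      rw [h1, ← h'.1]; rfl

/-- two words have the same cross patterns up to length five -/
def Eqv (c : α → Bool) (w w' : List α) : Prop :=
  ∀ a b, c a ≠ c b → ∀ k ≤ 5, (altp a b k <+ w ↔ altp a b k <+ w')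

theorem Eqv.refl (c : α → Bool) (w : List α) : Eqv c w w := fun _ _ _ _ _ => Iff.rfl

theorem Eqv.symm {c : α → Bool} {w w' : List α} (h : Eqv c w w') : Eqv c w' w :=
  fun a b hab k hk => (h a b hab k hk).symm

theorem Eqv.trans {c : α → Bool} {w w' w'' : List α} (h : Eqv c w w') (h' : Eqv c w' w'') :
    Eqv c w w'' :=
  fun a b hab k hk => (h a b hab k hk).trans (h' a b hab k hk)

theorem Eqv.append_aux {c : α → Bool} {u u' v v' : List α} (h : Eqv c u u') (h' : Eqv c v v')
    {a b : α} (hab : c a ≠ c b) {k : ℕ} (hk : k ≤ 5) (hs : altp a b k <+ u ++ v) :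
    altp a b k <+ u' ++ v' := by
  rw [sublist_append_iff] at hs
  obtain ⟨l₁, l₂, h12, h1, h2⟩ := hs
  obtain ⟨i, j, hij, e1, e2⟩ := altp_split a b k l₁ l₂ h12
  rw [h12]
  apply Sublist.append
  · rw [e1] at h1 ⊢
    exact (h a b hab i (by omega)).1 h1
  · rcases e2 with e2 | e2
    · rw [e2] at h2 ⊢
      exact (h' a b hab j (by omega)).1 h2
    · rw [e2] at h2 ⊢
      exact (h' b a hab.symm j (by omega)).1 h2

theorem Eqv.append {c : α → Bool} {u u' v v' : List α} (h : Eqv c u u') (h' : Eqv c v v') :
    Eqv c (u ++ v) (u' ++ v') :=
  fun _ _ hab _ hk => ⟨Eqv.append_aux h h' hab hk, Eqv.append_aux h.symm h'.symm hab hk⟩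

theorem eqv_double (c : α → Bool) (x : α) : Eqv c [x, x] [x] := by
  intro a b hab k _
  constructor
  · intro h
    match k, h with
    | 0, _ => exact nil_sublist _
    | 1, h =>
      have : a = x := by
        have := h.subset (show a ∈ altp a b 1 by simp [altp])
        simpa using this
      rw [this]; exact Sublist.refl _
    | k + 2, h =>
      exfalso
      have h1 : a = x := by
        have := h.subset (show a ∈ altp a b (k + 2) by simp [altp])
        simpa using this
      have h2 : b = x := by
        have := h.subset (show b ∈ altp a b (k + 2) by simp [altp])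
        simpa using this
      exact hab (by rw [h1, h2])
  · intro h
    exact h.trans (by simp)

theorem eqv_seven (c : α → Bool) (x y : α) :
    Eqv c [x, y, x, y, x, y, x] [x, y, x, y, x, y] := by
  intro a b hab k hk
  have hsub : [x, y, x, y, x, y] <+ [x, y, x, y, x, y, x] := by
    have : [x, y, x, y, x, y, x] = [x, y, x, y, x, y] ++ [x] := by simp
    rw [this]; exact sublist_append_left _ _
  constructor
  · intro h
    match k, hk, h with
    | 0, _, _ => exact nil_sublist _
    | 1, _, h =>
      have h1 : a = x ∨ a = y := by
        have := h.subset (show a ∈ altp a b 1 by simp [altp])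
        simp at this
        tauto
      rcases h1 with h1 | h1 <;> rw [h1] <;> simp [altp]
    | k + 2, hk, h =>
      have h1 : a = x ∨ a = y := by
        have := h.subset (show a ∈ altp a b (k + 2) by simp [altp])
        simp at this
        tauto
      have h2 : b = x ∨ b = y := by
        have := h.subset (show b ∈ altp a b (k + 2) by simp [altp])
        simp at this
        tauto
      have e1 : ∀ j, j ≤ 5 → altp x y j <+ [x, y, x, y, x, y] := by
        intro j hj
        have : altp x y j <+ altp x y 6 := by
          have : ∀ (i j : ℕ) (p q : α), altp p q i <+ altp p q (i + j) := by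
            intro i
            induction i with
            | zero => intro j p q; exact nil_sublist _
            | succ i ih =>
              intro j p q
              rw [Nat.succ_add]
              exact Sublist.cons_cons p (ih j q p)
          have h := this j (6 - j) x y
          rwa [show j + (6 - j) = 6 by omega] at h
        exact this
      have e2 : ∀ j, j ≤ 5 → altp y x j <+ [x, y, x, y, x, y] := by
        intro j hj
        have : altp y x j <+ altp y x 5 := by
          have : ∀ (i j : ℕ) (p q : α), altp p q i <+ altp p q (i + j) := by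
            intro i
            induction i with
            | zero => intro j p q; exact nil_sublist _
            | succ i ih =>
              intro j p q
              rw [Nat.succ_add]
              exact Sublist.cons_cons p (ih j q p)
          have h := this j (5 - j) y x
          rwa [show j + (5 - j) = 5 by omega] at h
        exact this.cons x
      rcases h1 with h1 | h1 <;> rcases h2 with h2 | h2
      · exact absurd (by rw [h1, h2]) hab
      · rw [h1, h2]; exact e1 _ hk
      · rw [h1, h2]; exact e2 _ hk
      · exact absurd (by rw [h1, h2]) hab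
  · intro h
    exact h.trans hsub

theorem seven_of_length {u : List α} (h : 6 < u.length) :
    ∃ a1 a2 a3 a4 a5 a6 a7 t, u = a1 :: a2 :: a3 :: a4 :: a5 :: a6 :: a7 :: t := by
  have step : ∀ (n : ℕ) (v : List α), n < v.length → ∃ a t, v = a :: t ∧ n ≤ t.length := by
    intro n v hv
    match v, hv with
    | a :: t, hv => exact ⟨a, t, rfl, by simpa using hv⟩
  obtain ⟨a1, t1, h1, l1⟩ := step 6 u h
  obtain ⟨a2, t2, h2, l2⟩ := step 5 t1 l1
  obtain ⟨a3, t3, h3, l3⟩ := step 4 t2 l2
  obtain ⟨a4, t4, h4, l4⟩ := step 3 t3 l3
  obtain ⟨a5, t5, h5, l5⟩ := step 2 t4 l4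
  obtain ⟨a6, t6, h6, l6⟩ := step 1 t5 l5
  obtain ⟨a7, t7, h7, l7⟩ := step 0 t6 l6
  exact ⟨a1, a2, a3, a4, a5, a6, a7, t7, by rw [h1, h2, h3, h4, h5, h6, h7]⟩

/-- a word over two letters can be shortened to length at most six -/
theorem cell (c : α → Bool) (x y : α) : ∀ (n : ℕ) (u : List α), u.length ≤ n →
    (∀ z ∈ u, z = x ∨ z = y) → ∃ u', u'.length ≤ 6 ∧ Eqv c u u' := by
  classical
  intro n
  induction n with
  | zero =>
    intro u hu _
    exact ⟨u, by omega, Eqv.refl c u⟩
  | succ n ih =>
    intro u hu huxy
    by_cases h6 : u.length ≤ 6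
    · exact ⟨u, h6, Eqv.refl c u⟩
    · push Not at h6
      by_cases hch : u.IsChain (· ≠ ·)
      · -- the first seven letters alternate
        obtain ⟨a1, a2, a3, a4, a5, a6, a7, t, hut⟩ := seven_of_length h6
        · rw [hut] at hch huxy hu ⊢
          clear h6 hut
          simp only [isChain_cons_cons] at hch
          obtain ⟨n12, n23, n34, n45, n56, n67, -⟩ := hch
          have m1 := huxy a1 (by simp)
          have m2 := huxy a2 (by simp)
          have m3 := huxy a3 (by simp)
          have m4 := huxy a4 (by simp)
          have m5 := huxy a5 (by simp)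
          have m6 := huxy a6 (by simp)
          have m7 := huxy a7 (by simp)
          have key : ∀ p q r : α, (p = x ∨ p = y) → (q = x ∨ q = y) → (r = x ∨ r = y) →
              p ≠ q → q ≠ r → r = p := by
            intro p q r hp hq hr hpq hqr
            rcases hp with rfl | rfl <;> rcases hq with rfl | rfl <;> rcases hr with rfl | rfl <;>
              first | rfl | exact absurd rfl hpq | exact absurd rfl hqr
          have e3 : a3 = a1 := key a1 a2 a3 m1 m2 m3 n12 n23
          have e4 : a4 = a2 := key a2 a3 a4 m2 m3 m4 n23 n34
          have e5 : a5 = a1 := (key a3 a4 a5 m3 m4 m5 n34 n45).trans e3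
          have e6 : a6 = a2 := (key a4 a5 a6 m4 m5 m6 n45 n56).trans e4
          have e7 : a7 = a1 := (key a5 a6 a7 m5 m6 m7 n56 n67).trans e5
          subst e3 e4 e5 e6 e7
          have heq : Eqv c ([a7, a6, a7, a6, a7, a6, a7] ++ t) ([a7, a6, a7, a6, a7, a6] ++ t) :=
            (eqv_seven c a7 a6).append (Eqv.refl c t)
          obtain ⟨u', hu', hu''⟩ := ih ([a7, a6, a7, a6, a7, a6] ++ t)
            (by simp at hu ⊢; omega)
            (by
              intro z hz
              apply huxy
              have hs : [a7, a6, a7, a6, a7, a6] ++ t <+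
                  a7 :: a6 :: a7 :: a6 :: a7 :: a6 :: a7 :: t :=
                (sublist_cons_self a7 t).cons_cons _ |>.cons_cons _ |>.cons_cons _ |>.cons_cons _
                  |>.cons_cons _ |>.cons_cons _
              exact hs.subset hz)
          exact ⟨u', hu', heq.trans hu''⟩
      · -- two equal neighbours
        have : ∃ s a t, u = s ++ [a, a] ++ t := by
          clear h6 huxy ih hu
          induction u with
          | nil => exact absurd (by simp) hch
          | cons a u ihu =>
            match u, ihu, hch with
            | [], _, hch => exact absurd (by simp) hch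
            | b :: t, ihu, hch =>
              by_cases hab : a = b
              · exact ⟨[], a, t, by rw [hab]; simp⟩
              · have : ¬ (b :: t).IsChain (· ≠ ·) := fun hc => hch (isChain_cons_cons.2 ⟨hab, hc⟩)
                obtain ⟨s, z, t', h⟩ := ihu this
                exact ⟨a :: s, z, t', by rw [h]; simp⟩
        obtain ⟨s, a, t, hsat⟩ := this
        have heq : Eqv c (s ++ [a, a] ++ t) (s ++ [a] ++ t) :=
          ((Eqv.refl c s).append (eqv_double c a)).append (Eqv.refl c t)
        obtain ⟨u', hu', hu''⟩ := ih (s ++ [a] ++ t)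
          (by rw [hsat] at hu; simp at hu ⊢; omega)
          (by
            intro z hz
            apply huxy
            rw [hsat]
            simp at hz ⊢
            tauto)
        exact ⟨u', hu', by rw [hsat]; exact heq.trans hu''⟩

end Q144.DS
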