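import Pool.Agent.Q144.DSCount

set_option autoImplicit false

/-! Convex hulls of disjoint sets of points of the moment curve in three-space meet exactly when
the sets alternate at least five times. -/

namespace Q144.DS

/-- three-space -/
abbrev E3 := EuclideanSpace ℝ (Fin 3)

/-- moment curve at natural parameters -/
noncomputable def mc (k : ℕ) : E3 := !₂[(k : ℝ), (k : ℝ) ^ 2, (k : ℝ) ^ 3]

/-- alternation of length five -/
def Pat (A B : Set ℕ) : Prop :=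
  ∃ a1 ∈ A, ∃ b1 ∈ B, ∃ a2 ∈ A, ∃ b2 ∈ B, ∃ a3 ∈ A, a1 < b1 ∧ b1 < a2 ∧ a2 < b2 ∧ b2 < a3

theorem hull_disjoint (A B : Set ℕ) (c0 c1 c2 c3 : ℝ)
    (hA : ∀ i ∈ A, c0 + c1 * (i : ℝ) + c2 * (i : ℝ) ^ 2 + c3 * (i : ℝ) ^ 3 < 0)
    (hB : ∀ i ∈ B, 0 < c0 + c1 * (i : ℝ) + c2 * (i : ℝ) ^ 2 + c3 * (i : ℝ) ^ 3) :
    ¬ (convexHull ℝ (mc '' A) ∩ convexHull ℝ (mc '' B)).Nonempty := by
  have hlin : IsLinearMap ℝ (fun p : E3 => c1 * p 0 + c2 * p 1 + c3 * p 2) := by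
    constructor
    · intro x y; simp only [PiLp.add_apply]; ring
    · intro c x; simp only [PiLp.smul_apply, smul_eq_mul]; ring
  have h1 : convexHull ℝ (mc '' A) ⊆ {p : E3 | c1 * p 0 + c2 * p 1 + c3 * p 2 < - c0} := by
    apply convexHull_min
    · rintro _ ⟨i, hi, rfl⟩
      have := hA i hi
      show c1 * (i : ℝ) + c2 * (i : ℝ) ^ 2 + c3 * (i : ℝ) ^ 3 < - c0
      linarith
    · exact convex_halfSpace_lt hlin _
  have h2 : convexHull ℝ (mc '' B) ⊆ {p : E3 | - c0 < c1 * p 0 + c2 * p 1 + c3 * p 2} := by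
    apply convexHull_min
    · rintro _ ⟨i, hi, rfl⟩
      have := hB i hi
      show - c0 < c1 * (i : ℝ) + c2 * (i : ℝ) ^ 2 + c3 * (i : ℝ) ^ 3
      linarith
    · exact convex_halfSpace_gt hlin _
  rintro ⟨p, hp1, hp2⟩
  have e1 : c1 * p 0 + c2 * p 1 + c3 * p 2 < - c0 := h1 hp1
  have e2 : - c0 < c1 * p 0 + c2 * p 1 + c3 * p 2 := h2 hp2
  exact lt_asymm e1 e2

theorem sep (A B : Set ℕ) (hAB : Disjoint A B) (hB : B.Nonempty)
    (hmin : ∃ a0 ∈ A, ∀ b ∈ B, a0 < b) (hpat : ¬ Pat A B) :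
    ∃ c0 c1 c2 c3 : ℝ, (∀ i ∈ A, c0 + c1 * (i : ℝ) + c2 * (i : ℝ) ^ 2 + c3 * (i : ℝ) ^ 3 < 0) ∧
      (∀ i ∈ B, 0 < c0 + c1 * (i : ℝ) + c2 * (i : ℝ) ^ 2 + c3 * (i : ℝ) ^ 3) := by
  classical
  obtain ⟨a0, ha0, hmin⟩ := hmin
  have hne : ∀ i, i ∈ A → i ∈ B → False := fun i h1 h2 => Set.disjoint_left.1 hAB h1 h2
  -- first element of `B`
  obtain ⟨b1, hb1, hb1min⟩ : ∃ b1 ∈ B, ∀ b ∈ B, b1 ≤ b :=
    ⟨sInf B, Nat.sInf_mem hB, fun b hb => Nat.sInf_le hb⟩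
  by_cases h2 : ∃ a ∈ A, b1 < a
  swap
  · push Not at h2
    refine ⟨-((b1 : ℝ) - 1 / 2), 1, 0, 0, ?_, ?_⟩
    · intro i hi
      have h3 : i < b1 := lt_of_le_of_ne (h2 i hi) (fun h => hne i hi (h ▸ hb1))
      have h4 : (i : ℝ) + 1 ≤ b1 := by exact_mod_cast h3
      nlinarith
    · intro i hi
      have h4 : (b1 : ℝ) ≤ i := by exact_mod_cast hb1min i hi
      nlinarith
  obtain ⟨a2, ha2, ha2b, ha2min⟩ : ∃ a2 ∈ A, b1 < a2 ∧ ∀ a ∈ A, b1 < a → a2 ≤ a := by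
    have hs : {a | a ∈ A ∧ b1 < a}.Nonempty := by
      obtain ⟨a, ha, hb⟩ := h2; exact ⟨a, ha, hb⟩
    exact ⟨sInf _, (Nat.sInf_mem hs).1, (Nat.sInf_mem hs).2, fun a ha hb => Nat.sInf_le ⟨ha, hb⟩⟩
  by_cases h3 : ∃ b ∈ B, a2 < b
  swap
  · push Not at h3
    have key : ∀ x : ℝ, -(((b1 : ℝ) - 1 / 2) * ((a2 : ℝ) - 1 / 2)) +
        (((b1 : ℝ) - 1 / 2) + ((a2 : ℝ) - 1 / 2)) * x + (-1) * x ^ 2 + 0 * x ^ 3 =
        (x - ((b1 : ℝ) - 1 / 2)) * (((a2 : ℝ) - 1 / 2) - x) := by intro x; ring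
    refine ⟨_, _, _, _, fun i hi => (key i).trans_lt ?_, fun i hi => lt_of_lt_of_eq ?_ (key i).symm⟩
    · rcases lt_trichotomy i b1 with h | h | h
      · have h5 : (i : ℝ) + 1 ≤ b1 := by exact_mod_cast h
        have h6 : (b1 : ℝ) + 1 ≤ a2 := by exact_mod_cast ha2b
        exact mul_neg_of_neg_of_pos (by linarith) (by linarith)
      · exact (hne i hi (h ▸ hb1)).elim
      · have h5 : (b1 : ℝ) + 1 ≤ i := by exact_mod_cast h
        have h6 : (a2 : ℝ) ≤ i := by exact_mod_cast ha2min i hi h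
        exact mul_neg_of_pos_of_neg (by linarith) (by linarith)
    · have h5 : (b1 : ℝ) ≤ i := by exact_mod_cast hb1min i hi
      have h7 : i < a2 := lt_of_le_of_ne (h3 i hi) (fun h => hne i (h ▸ ha2) hi)
      have h6 : (i : ℝ) + 1 ≤ a2 := by exact_mod_cast h7
      exact mul_pos (by linarith) (by linarith)
  obtain ⟨b2, hb2, hb2a, hb2min⟩ : ∃ b2 ∈ B, a2 < b2 ∧ ∀ b ∈ B, a2 < b → b2 ≤ b := by
    have hs : {b | b ∈ B ∧ a2 < b}.Nonempty := by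
      obtain ⟨b, hb, ha⟩ := h3; exact ⟨b, hb, ha⟩
    exact ⟨sInf _, (Nat.sInf_mem hs).1, (Nat.sInf_mem hs).2, fun b hb ha => Nat.sInf_le ⟨hb, ha⟩⟩
  have h4 : ∀ a ∈ A, a < b2 := by
    intro a ha
    by_contra hcon
    push Not at hcon
    have : b2 < a := lt_of_le_of_ne hcon (fun h => hne a ha (h ▸ hb2))
    exact hpat ⟨a0, ha0, b1, hb1, a2, ha2, b2, hb2, a, ha, hmin b1 hb1, ha2b, hb2a, this⟩
  have key : ∀ x : ℝ, -(((b1 : ℝ) - 1 / 2) * ((a2 : ℝ) - 1 / 2) * ((b2 : ℝ) - 1 / 2)) +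
      (((b1 : ℝ) - 1 / 2) * ((a2 : ℝ) - 1 / 2) + ((b1 : ℝ) - 1 / 2) * ((b2 : ℝ) - 1 / 2) +
        ((a2 : ℝ) - 1 / 2) * ((b2 : ℝ) - 1 / 2)) * x +
      (-(((b1 : ℝ) - 1 / 2) + ((a2 : ℝ) - 1 / 2) + ((b2 : ℝ) - 1 / 2))) * x ^ 2 + 1 * x ^ 3 =
      (x - ((b1 : ℝ) - 1 / 2)) * (x - ((a2 : ℝ) - 1 / 2)) * (x - ((b2 : ℝ) - 1 / 2)) := by
    intro x; ring
  have k1 : (b1 : ℝ) + 1 ≤ a2 := by exact_mod_cast ha2b
  have k2 : (a2 : ℝ) + 1 ≤ b2 := by exact_mod_cast hb2a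
  refine ⟨_, _, _, _, fun i hi => (key i).trans_lt ?_, fun i hi => lt_of_lt_of_eq ?_ (key i).symm⟩
  · have k3 : (i : ℝ) + 1 ≤ b2 := by exact_mod_cast h4 i hi
    rcases lt_trichotomy i b1 with h | h | h
    · have h5 : (i : ℝ) + 1 ≤ b1 := by exact_mod_cast h
      exact mul_neg_of_pos_of_neg (mul_pos_of_neg_of_neg (by linarith) (by linarith)) (by linarith)
    · exact (hne i hi (h ▸ hb1)).elim
    · have h6 : (a2 : ℝ) ≤ i := by exact_mod_cast ha2min i hi h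
      exact mul_neg_of_pos_of_neg (mul_pos (by linarith) (by linarith)) (by linarith)
  · have h5 : (b1 : ℝ) ≤ i := by exact_mod_cast hb1min i hi
    rcases lt_trichotomy i a2 with h | h | h
    · have h6 : (i : ℝ) + 1 ≤ a2 := by exact_mod_cast h
      exact mul_pos_of_neg_of_neg (mul_neg_of_pos_of_neg (by linarith) (by linarith)) (by linarith)
    · exact (hne i (h ▸ ha2) hi).elim
    · have h6 : (b2 : ℝ) ≤ i := by exact_mod_cast hb2min i hi h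
      exact mul_pos (mul_pos (by linarith) (by linarith)) (by linarith)

theorem pat_of_meet (A B : Set ℕ) (hAB : Disjoint A B)
    (h : (convexHull ℝ (mc '' A) ∩ convexHull ℝ (mc '' B)).Nonempty) : Pat A B ∨ Pat B A := by
  have hA : A.Nonempty := by
    by_contra hc
    rw [Set.not_nonempty_iff_eq_empty] at hc
    rw [hc] at h
    simp at h
  have hB : B.Nonempty := by
    by_contra hc
    rw [Set.not_nonempty_iff_eq_empty] at hc
    rw [hc] at h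
    simp at h
  by_contra hcon
  push Not at hcon
  rcases le_or_gt (sInf B) (sInf A) with hle | hlt
  · have hlt : sInf B < sInf A := lt_of_le_of_ne hle
      (fun e => Set.disjoint_left.1 hAB (Nat.sInf_mem hA) (e ▸ Nat.sInf_mem hB))
    obtain ⟨c0, c1, c2, c3, h1, h2⟩ := sep B A hAB.symm hA
      ⟨sInf B, Nat.sInf_mem hB, fun b hb => lt_of_lt_of_le hlt (Nat.sInf_le hb)⟩ hcon.2
    rw [Set.inter_comm] at h
    exact hull_disjoint B A c0 c1 c2 c3 h1 h2 h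
  · obtain ⟨c0, c1, c2, c3, h1, h2⟩ := sep A B hAB hB
      ⟨sInf A, Nat.sInf_mem hA, fun b hb => lt_of_lt_of_le hlt (Nat.sInf_le hb)⟩ hcon.1
    exact hull_disjoint A B c0 c1 c2 c3 h1 h2 h

theorem meet_of_pat (A B : Set ℕ) (h : Pat A B) :
    (convexHull ℝ (mc '' A) ∩ convexHull ℝ (mc '' B)).Nonempty := by
  obtain ⟨a1, ha1, b1, hb1, a2, ha2, b2, hb2, a3, ha3, h12, h23, h34, h45⟩ := h
  set t : Fin 5 → ℕ := ![a1, b1, a2, b2, a3] with ht
  have hmono : StrictMono t := by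
    rw [Fin.strictMono_iff_lt_succ]
    intro i
    fin_cases i
    · exact h12
    · exact h23
    · exact h34
    · exact h45
  have hnot : ¬ AffineIndependent ℝ (fun k => mc (t k)) := by
    intro hi
    have h1 := hi.card_le_finrank_succ
    have h2 : Module.finrank ℝ (vectorSpan ℝ (Set.range fun k => mc (t k))) ≤ 3 :=
      (Submodule.finrank_le _).trans (by simp)
    simp at h1
    omega
  obtain ⟨I, hI⟩ := Convex.radon_partition hnot
  have him : ∀ J : Set (Fin 5), (fun k => mc (t k)) '' J = mc '' (t '' J) := by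
    intro J; rw [Set.image_image]
  rw [him, him] at hI
  have hdis : Disjoint (t '' I) (t '' Iᶜ) :=
    (Set.disjoint_image_iff hmono.injective).2 disjoint_compl_right
  have hpos : ∀ J K : Set (Fin 5), Pat (t '' J) (t '' K) →
      (0 : Fin 5) ∈ J ∧ (1 : Fin 5) ∈ K ∧ (2 : Fin 5) ∈ J ∧ (3 : Fin 5) ∈ K ∧ (4 : Fin 5) ∈ J := by
    rintro J K ⟨_, ⟨k1, hk1, rfl⟩, _, ⟨k2, hk2, rfl⟩, _, ⟨k3, hk3, rfl⟩, _, ⟨k4, hk4, rfl⟩, _,
      ⟨k5, hk5, rfl⟩, l1, l2, l3, l4⟩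
    rw [hmono.lt_iff_lt] at l1 l2 l3 l4
    have e1 : k1 = 0 := by omega
    have e2 : k2 = 1 := by omega
    have e3 : k3 = 2 := by omega
    have e4 : k4 = 3 := by omega
    have e5 : k5 = 4 := by omega
    subst e1 e2 e3 e4 e5
    exact ⟨hk1, hk2, hk3, hk4, hk5⟩
  have hsubA : ∀ J K : Set (Fin 5), Disjoint J K → (1 : Fin 5) ∈ K → (3 : Fin 5) ∈ K →
      t '' J ⊆ A := by
    rintro J K hJK h1 h3 _ ⟨k, hk, rfl⟩
    fin_cases k
    · exact ha1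
    · exact (Set.disjoint_left.1 hJK hk h1).elim
    · exact ha2
    · exact (Set.disjoint_left.1 hJK hk h3).elim
    · exact ha3
  have hsubB : ∀ J K : Set (Fin 5), Disjoint J K → (0 : Fin 5) ∈ J → (2 : Fin 5) ∈ J →
      (4 : Fin 5) ∈ J → t '' K ⊆ B := by
    rintro J K hJK h0 h2 h4 _ ⟨k, hk, rfl⟩
    fin_cases k
    · exact (Set.disjoint_left.1 hJK h0 hk).elim
    · exact hb1
    · exact (Set.disjoint_left.1 hJK h2 hk).elim
    · exact hb2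
    · exact (Set.disjoint_left.1 hJK h4 hk).elim
  rcases pat_of_meet _ _ hdis hI with hp | hp
  · obtain ⟨g0, g1, g2, g3, g4⟩ := hpos _ _ hp
    refine hI.mono (Set.inter_subset_inter ?_ ?_)
    · exact convexHull_mono (Set.image_mono (hsubA I Iᶜ disjoint_compl_right g1 g3))
    · exact convexHull_mono (Set.image_mono (hsubB I Iᶜ disjoint_compl_right g0 g2 g4))
  · obtain ⟨g0, g1, g2, g3, g4⟩ := hpos _ _ hp
    rw [Set.inter_comm] at hI
    refine hI.mono (Set.inter_subset_inter ?_ ?_)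
    · exact convexHull_mono (Set.image_mono (hsubA Iᶜ I disjoint_compl_left g1 g3))
    · exact convexHull_mono (Set.image_mono (hsubB Iᶜ I disjoint_compl_left g0 g2 g4))

end Q144.DS
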