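import Mathlib

set_option autoImplicit false

/-! Words without long alternations: the elementary bound of order three, and a normal form of
bounded length for the cross alternations of a two-sided word. -/

namespace Q144.DS

variable {α : Type*}

open List

theorem chain_filter [DecidableEq α] {a : α} : ∀ {m : List α}, m.IsChain (· ≠ ·) →
    (∀ b, b ≠ a → ¬ [b, a, b] <+ m) → (m.filter (· ≠ a)).IsChain (· ≠ ·)
  | [], _, _ => by simp
  | [x], _, _ => by
      by_cases h : x = a <;> simp [h]
  | x :: y :: m, hm, h => by
      have hxy : x ≠ y := (isChain_cons_cons.1 hm).1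
      have hm' : (y :: m).IsChain (· ≠ ·) := (isChain_cons_cons.1 hm).2
      have h' : ∀ b, b ≠ a → ¬ [b, a, b] <+ y :: m := fun b hb hs => h b hb (hs.cons x)
      have IH := chain_filter hm' h'
      by_cases hx : x = a
      · rw [filter_cons_of_neg (by simpa using hx)]
        exact IH
      · rw [filter_cons_of_pos (by simpa using hx)]
        by_cases hy : y = a
        · match m, hm', h, IH with
          | [], _, _, _ => simp [hy]
          | z :: m'', hm', h, IH =>
            have hz : z ≠ a := by
              have := (isChain_cons_cons.1 hm').1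
              rw [hy] at this
              exact this.symm
            rw [filter_cons_of_neg (by simpa using hy)] at IH ⊢
            rw [filter_cons_of_pos (by simpa using hz)] at IH ⊢
            refine isChain_cons_cons.2 ⟨?_, IH⟩
            intro hxz
            apply h x hx
            rw [← hxz, hy]
            simp
        · rw [filter_cons_of_pos (by simpa using hy)] at IH ⊢
          exact isChain_cons_cons.2 ⟨hxy, IH⟩

theorem join {p q : List α} (hp : p.IsChain (· ≠ ·)) (hq : q.IsChain (· ≠ ·)) :
    ∃ r, r <+ p ++ q ∧ r.IsChain (· ≠ ·) ∧ p.length + q.length ≤ r.length + 1 := by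
  classical
  by_cases h : (p ++ q).IsChain (· ≠ ·)
  · exact ⟨p ++ q, Sublist.refl _, h, by simp⟩
  · match q, hq, h with
    | [], _, _ => exact ⟨p, by simp, hp, by simp⟩
    | y :: q', hq, h =>
      refine ⟨p ++ q', ?_, ?_, by simp; omega⟩
      · exact Sublist.append (Sublist.refl _) (sublist_cons_self y q')
      · rw [isChain_append] at h ⊢
        have hlast : ∃ x ∈ p.getLast?, x = y := by
          by_contra hcon
          apply h
          refine ⟨hp, hq, ?_⟩
          intro x hx z hz
          have hz' : y = z := by simpa using hz
          rw [← hz']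
          intro hxy
          exact hcon ⟨x, hx, hxy⟩
        obtain ⟨x, hx, hxy⟩ := hlast
        refine ⟨hp, hq.tail, ?_⟩
        intro x' hx' z hz
        have h1 : x' = x := Option.mem_unique hx' hx
        rw [h1, hxy]
        match q', hq, hz with
        | [], _, hz => simp at hz
        | z' :: q'', hq, hz =>
          have hz' : z' = z := by simpa using hz
          rw [← hz']
          exact (isChain_cons_cons.1 hq).1

theorem remove [DecidableEq α] {a : α} {l : List α} (hl : l.IsChain (· ≠ ·))
    (h : ∀ b, b ≠ a → ¬ [a, b, a, b, a] <+ l) :
    ∃ r, r <+ l ∧ r.IsChain (· ≠ ·) ∧ a ∉ r ∧ l.length ≤ r.length + l.count a + 2 := by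
  by_cases ha : a ∈ l
  · obtain ⟨u, r, hur, hau⟩ := eq_append_cons_of_mem ha
    have hcl := hl
    rw [hur, isChain_append] at hcl
    have hu : u.IsChain (· ≠ ·) := hcl.1
    have har : (a :: r).IsChain (· ≠ ·) := hcl.2.1
    have hr : r.IsChain (· ≠ ·) := har.tail
    by_cases ha2 : a ∈ r
    · obtain ⟨v, m, hvm, hav⟩ := eq_append_cons_of_mem (mem_reverse.2 ha2)
      have hr2 : r = m.reverse ++ a :: v.reverse := by
        rw [← reverse_reverse r, hvm]; simp
      set m' := m.reverse with hm'
      set v' := v.reverse with hv'
      have hav' : a ∉ v' := by rw [hv']; simpa using hav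
      rw [hr2, isChain_append] at hr
      have hmc : m'.IsChain (· ≠ ·) := hr.1
      have hvc : v'.IsChain (· ≠ ·) := hr.2.1.tail
      have hfil : (m'.filter (· ≠ a)).IsChain (· ≠ ·) := by
        apply chain_filter hmc
        intro b hb hs
        apply h b hb
        rw [hur, hr2]
        have e : [a, b, a, b, a] = [] ++ a :: ([b, a, b] ++ a :: []) := by simp
        rw [e]
        exact Sublist.append (nil_sublist u) (Sublist.cons_cons a
          (Sublist.append hs (Sublist.cons_cons a (nil_sublist v'))))
      obtain ⟨r1, hr1s, hr1c, hr1l⟩ := join hu hfil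
      obtain ⟨r2, hr2s, hr2c, hr2l⟩ := join hr1c hvc
      have hsub0 : r2 <+ (u ++ m'.filter (· ≠ a)) ++ v' :=
        hr2s.trans (Sublist.append hr1s (Sublist.refl _))
      refine ⟨r2, ?_, hr2c, ?_, ?_⟩
      · refine hsub0.trans ?_
        rw [hur, hr2, append_assoc]
        refine Sublist.append (Sublist.refl _) (Sublist.cons a ?_)
        refine Sublist.append filter_sublist (sublist_cons_self a v')
      · intro har2
        have := hsub0.subset har2
        simp at this
        rcases this with h1 | h1
        · exact hau h1
        · exact hav' h1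
      · have hcount : l.count a = 2 + m'.count a := by
          rw [hur, hr2]
          simp only [count_append, count_cons_self, count_eq_zero_of_not_mem hau,
            count_eq_zero_of_not_mem hav']
          ring
        have hlen : l.length = u.length + m'.length + v'.length + 2 := by
          rw [hur, hr2]; simp; ring
        have hmlen : m'.length = (m'.filter (· ≠ a)).length + m'.count a := by
          have := length_eq_length_filter_add (l := m') (fun x => decide (x ≠ a))
          rw [this]
          congr 1
          rw [count_eq_length_filter]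
          congr 1
          apply filter_congr
          intro x _
          by_cases hx : x = a <;> simp [hx]
        omega
    · obtain ⟨r1, hr1s, hr1c, hr1l⟩ := join hu hr
      refine ⟨r1, ?_, hr1c, ?_, ?_⟩
      · rw [hur]
        exact hr1s.trans (Sublist.append (Sublist.refl _) (sublist_cons_self a r))
      · intro h1
        have := hr1s.subset h1
        simp at this
        rcases this with h2 | h2
        · exact hau h2
        · exact ha2 h2
      · have : l.length = u.length + r.length + 1 := by rw [hur]; simp; ring
        omega
  · exact ⟨l, Sublist.refl _, hl, ha, by omega⟩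

/-- the elementary bound for words without alternations of length five -/
theorem ds_bound [DecidableEq α] : ∀ (k : ℕ) (A : Finset α), A.card = k + 1 → ∀ l : List α,
    (∀ x ∈ l, x ∈ A) → l.IsChain (· ≠ ·) →
    (∀ a ∈ A, ∀ b ∈ A, b ≠ a → ¬ [a, b, a, b, a] <+ l) →
    (l.length : ℝ) ≤ (k + 1) * (1 + 2 * (harmonic k : ℝ))
  | 0, A, hA, l, hlA, hl, _ => by
      have h1 : l.length ≤ 1 := by
        obtain ⟨a, ha⟩ := Finset.card_eq_one.1 hA
        match l, hl, hlA with
        | [], _, _ => simp
        | [x], _, _ => simp
        | x :: y :: l', hl, hlA =>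
          exfalso
          have hx : x = a := by simpa [ha] using hlA x (by simp)
          have hy : y = a := by simpa [ha] using hlA y (by simp)
          exact (isChain_cons_cons.1 hl).1 (hx.trans hy.symm)
      have h2 : (l.length : ℝ) ≤ 1 := by exact_mod_cast h1
      simpa using h2
  | k + 1, A, hA, l, hlA, hl, hno => by
      have hsum : ∑ a ∈ A, l.count a = l.length := by
        have := Multiset.sum_count_eq_card (s := A) (m := (l : Multiset α))
          (by intro x hx; exact hlA x (by simpa using hx))
        simpa using this
      obtain ⟨a, haA, hcount⟩ : ∃ a ∈ A, (k + 2) * l.count a ≤ l.length := by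
        by_contra hcon
        push Not at hcon
        have hne : A.Nonempty := Finset.card_pos.1 (by omega)
        have h1 : ∑ a ∈ A, l.length < ∑ a ∈ A, (k + 2) * l.count a :=
          Finset.sum_lt_sum_of_nonempty hne hcon
        rw [← Finset.mul_sum, hsum, Finset.sum_const, hA, smul_eq_mul] at h1
        exact lt_irrefl _ h1
      have hno' : ∀ b, b ≠ a → ¬ [a, b, a, b, a] <+ l := by
        intro b hb hs
        have hbA : b ∈ A := hlA b (hs.subset (by simp))
        exact hno a haA b hbA hb hs
      obtain ⟨r, hrl, hrc, har, hlen⟩ := remove hl hno'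
      have IH := ds_bound k (A.erase a) (by rw [Finset.card_erase_of_mem haA, hA]; rfl) r
        (by
          intro x hx
          refine Finset.mem_erase.2 ⟨fun h => har (h ▸ hx), hlA x (hrl.subset hx)⟩) hrc
        (by
          intro c hc d hd hdc hs
          exact hno c (Finset.mem_of_mem_erase hc) d (Finset.mem_of_mem_erase hd) hdc
            (hs.trans hrl))
      have h1 : (l.length : ℝ) ≤ r.length + l.count a + 2 := by exact_mod_cast hlen
      have h2 : ((k : ℝ) + 2) * l.count a ≤ l.length := by exact_mod_cast hcount
      have h3 : (harmonic (k + 1) : ℝ) = harmonic k + 1 / ((k : ℝ) + 1) := by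
        rw [harmonic_succ]; push_cast; rw [one_div]
      rw [h3]
      have hk1 : (0 : ℝ) < (k : ℝ) + 1 := by positivity
      have hk2 : (0 : ℝ) < (k : ℝ) + 2 := by positivity
      have h4 : ((k : ℝ) + 1) * l.length ≤ (k + 2) * (r.length + 2) := by nlinarith
      have h5 : ((k : ℝ) + 1) * l.length ≤
          (k + 2) * ((k + 1) * (1 + 2 * (harmonic k : ℝ)) + 2) := by
        refine h4.trans ?_
        apply mul_le_mul_of_nonneg_left _ hk2.le
        linarith
      have h6 : ((k : ℝ) + 1) * (((k + 1 : ℕ) : ℝ) + 1) *
          (1 + 2 * ((harmonic k : ℝ) + 1 / ((k : ℝ) + 1))) =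
          (k + 2) * ((k + 1) * (1 + 2 * (harmonic k : ℝ)) + 2) := by
        push_cast
        field_simp
        ring
      rw [← h6] at h5
      have h7 : ((k : ℝ) + 1) * l.length ≤ ((k : ℝ) + 1) * ((((k + 1 : ℕ) : ℝ) + 1) *
          (1 + 2 * ((harmonic k : ℝ) + 1 / ((k : ℝ) + 1)))) := by
        rw [← mul_assoc]; exact h5
      exact le_of_mul_le_mul_left h7 hk1

end Q144.DS
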