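import Pool.Agent.Q161.ESV.Stm2
import Pool.Agent.Q177.ESG.GDJ

/-!
# Job LCB of project ESV (helper161): the relative condition
-/

set_option autoImplicit false

namespace Pool.Agent.Q144.ESV

open NumberField IsDedekindDomain
open Pool.Agent.Q51.EL (Abv Par)
open Pool.Agent.Q161.ESV

theorem zmod_two (a : ZMod 2) : a = 0 ∨ a = 1 := by
  revert a
  decide

/-- linear forms separate the elements -/
theorem sep {V : Type} [AddCommGroup V] (hV : ∀ v : V, v + v = 0) {v t : V}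
    (h : ∀ χ : V →+ ZMod 2, χ v = χ t) : v = t := by
  letI : Module (ZMod 2) V :=
    AddCommGroup.zmodModule (n := 2) (fun v => by rw [two_nsmul]; exact hV v)
  rw [← sub_eq_zero, ← Module.forall_dual_apply_eq_zero_iff (ZMod 2)]
  intro φ
  have h1 : φ v = φ t := h φ.toAddMonoidHom
  rw [map_sub, h1, sub_self]

theorem par_unique {L : Type} [Field L] [NumberField L] {w : HeightOneSpectrum (𝓞 L)} {x : L}
    {a b : ZMod 2} (ha : Par w x a.val) (hb : Par w x b.val) : a = b := by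
  obtain ⟨k, hk⟩ := ha
  obtain ⟨m, hm⟩ := hb
  rw [hk] at hm
  have h := WithZero.exp_injective hm
  have v0 : (0 : ZMod 2).val = 0 := rfl
  have v1 : (1 : ZMod 2).val = 1 := rfl
  rcases zmod_two a with rfl | rfl <;> rcases zmod_two b with rfl | rfl
  · rfl
  · rw [v0, v1] at h
    push_cast at h
    omega
  · rw [v0, v1] at h
    push_cast at h
    omega
  · rfl

/-- the difference of two coboundaries -/
theorem key {G W : Type} [Group G] [AddCommGroup W] [DistribMulAction G W] {P P' C C' T : W} {σ : G}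
    {a a' : ℤ} (ha : a = 1 ∨ a = -1) (ha' : a' = 1 ∨ a' = -1) (h1 : C = a • σ • P - P)
    (h2 : C' = a' • σ • P' - P') (hT : P + P = T) (hT' : P' + P' = T) (h2T : T + T = 0)
    (hC' : C' + C' = 0) :
    ∃ R : W, R + R = 0 ∧ C + C' = σ • R - R + (if a = a' then 0 else T) := by
  have e0 : C + C' = C - C' := by
    rw [← sub_eq_zero]
    have : C + C' - (C - C') = C' + C' := by abel
    rw [this, hC']
  rcases ha with rfl | rfl <;> rcases ha' with rfl | rfl
  · refine ⟨P - P', ?_, ?_⟩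
    · have : P - P' + (P - P') = P + P - (P' + P') := by abel
      rw [this, hT, hT', sub_self]
    · rw [e0, h1, h2, if_pos rfl, one_smul, one_smul, smul_sub]
      abel
  · have hR : P + P' + (P + P') = 0 := by
      have : P + P' + (P + P') = (P + P) + (P' + P') := by abel
      rw [this, hT, hT', h2T]
    refine ⟨P + P', hR, ?_⟩
    rw [e0, h1, h2, if_neg (by decide), one_smul, neg_one_smul, smul_add, ← hT']
    abel
  · have hR : P + P' + (P + P') = 0 := by
      have : P + P' + (P + P') = (P + P) + (P' + P') := by abel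
      rw [this, hT, hT', h2T]
    have hσ : σ • (P + P') + σ • (P + P') = 0 := by rw [← smul_add, hR, smul_zero]
    refine ⟨P + P', hR, ?_⟩
    rw [e0, h1, h2, if_neg (by decide), one_smul, neg_one_smul, ← hT', ← sub_eq_zero]
    rw [smul_add] at hσ ⊢
    have h3 : -(σ • P) - P - (σ • P' - P') - (σ • P + σ • P' - (P + P') + (P' + P'))
        = -(σ • P + σ • P' + (σ • P + σ • P')) := by abel
    rw [h3, hσ, neg_zero]
  · have hR : P - P' + (P - P') = 0 := by
      have : P - P' + (P - P') = P + P - (P' + P') := by abel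
      rw [this, hT, hT', sub_self]
    have hσ : σ • (P - P') + σ • (P - P') = 0 := by rw [← smul_add, hR, smul_zero]
    refine ⟨P - P', hR, ?_⟩
    rw [e0, h1, h2, if_pos rfl, neg_one_smul, neg_one_smul, ← sub_eq_zero]
    rw [smul_sub] at hσ ⊢
    have h3 : -(σ • P) - P - (-(σ • P') - P') - (σ • P - σ • P' - (P - P') + 0)
        = -(σ • P - σ • P' + (σ • P - σ • P')) := by abel
    rw [h3, hσ, neg_zero]

/-- the sign -/
theorem sign {Fa : Type} [Field Fa] {s s' u u' : Fa} {x x' t : ZMod 2} {a a' : ℤ}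
    (ha : a = 1 ∨ a = -1) (ha' : a' = 1 ∨ a' = -1) (h : x + x' = if a = a' then 0 else t) :
    (if x = 1 then -s else s) * (if x' = 1 then -s' else s') *
      (if t = 1 then (a • u) * (a' • u') else 1) = s * s' * (if t = 1 then u * u' else 1) := by
  have h01 : (0 : ZMod 2) ≠ 1 := by decide
  have h11 : (1 : ZMod 2) + 1 = 0 := by decide
  have d1 : ¬ ((1 : ℤ) = -1) := by decide
  have d2 : ¬ ((-1 : ℤ) = 1) := by decide
  rcases zmod_two x with rfl | rfl <;> rcases zmod_two x' with rfl | rfl <;>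
    rcases zmod_two t with rfl | rfl <;> rcases ha with rfl | rfl <;> rcases ha' with rfl | rfl <;>
    simp [h01, h11, d1, d2] at h ⊢

section main

variable {F K : Type} [Field F] [NumberField F] [Field K] [NumberField K] [Algebra F K]
  {V : Type} [AddCommGroup V] [DistribMulAction (K ≃ₐ[F] K) V]

theorem tw_pow {φ : K ≃ₐ[F] K} {χ : V →+ ZMod 2} (h : tw φ χ = χ) (j : ℕ) : tw (φ ^ j) χ = χ := by
  induction j with
  | zero =>
    ext v
    simp [tw]
  | succ n ih =>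
    ext v
    have h1 : ∀ v, χ (φ • v) = χ v := fun v => DFunLike.congr_fun h v
    have h2 : ∀ v, χ ((φ ^ n) • v) = χ v := fun v => DFunLike.congr_fun ih v
    change χ ((φ ^ (n + 1)) • v) = χ v
    rw [pow_succ, mul_smul, h2, h1]

end main

theorem lcb : S_CHI → S_EXI → S_LCT → S_LCB := by
  intro hCHI hEXI hLCT F K _ _ _ _ _ _ W _ _ V _ _ _ e i hA hSt hV
  obtain ⟨B1, hB1, H1⟩ := hEXI F K e
  obtain ⟨B2, hB2, H2⟩ := hLCT F K W V e i hA hSt hV
  obtain ⟨hchi, _, _⟩ := hCHI F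
  refine ⟨2 * B1 * B2, by positivity, ?_⟩
  intro B hB hB0 D D' hD hD' c hc hc2 c' hc' hc2' Δ Δ' hK hK'
  intro l hl hlB w hw hDw hDw' t ht ht' φ hφ χ hχ
  haveI : Fact l.Prime := ⟨hl⟩
  have d1 : B1 ∣ B := Dvd.dvd.trans ⟨2 * B2, by ring⟩ hB
  have d2 : B2 ∣ B := Dvd.dvd.trans ⟨2 * B1, by ring⟩ hB
  have d3 : 2 ∣ B := Dvd.dvd.trans ⟨B1 * B2, by ring⟩ hB
  have hl2 : l ≠ 2 := by
    rintro rfl
    exact hlB d3
  obtain ⟨ψ, hψ⟩ := H1 l (fun h => hlB (h.trans d1)) w hw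
  obtain ⟨⟨σ₀, hσ₀, hσ₀'⟩, hT⟩ := H2 B d2 hB0 D hD c hc2 Δ hK l hlB w hw hDw ψ hψ
  obtain ⟨⟨σ₁, hσ₁, hσ₁'⟩, hT'⟩ := H2 B d2 hB0 D' hD' c' hc2' Δ' hK' l hlB w hw hDw' ψ hψ
  obtain ⟨P, hP⟩ := hc.2.dec l hlB ψ ⟨σ₀, hσ₀, hσ₀'⟩
  obtain ⟨P', hP'⟩ := hc'.2.dec l hlB ψ ⟨σ₁, hσ₁, hσ₁'⟩
  obtain ⟨v, hv, hv2⟩ := hT P hP
  obtain ⟨v', hv', hv2'⟩ := hT' P' hP'
  have e1 : v = t := sep hV fun χ => par_unique (hv2 χ) (ht χ)
  have e2 : v' = t := sep hV fun χ => par_unique (hv2' χ) (ht' χ)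
  subst e1
  rw [e2] at hv'
  -- square roots
  obtain ⟨s, hs⟩ := IsAlgClosed.exists_pow_nat_eq (k := AlgebraicClosure F) (e (Δ χ)) (n := 2)
    (by norm_num)
  obtain ⟨s', hs'⟩ := IsAlgClosed.exists_pow_nat_eq (k := AlgebraicClosure F) (e (Δ' χ)) (n := 2)
    (by norm_num)
  obtain ⟨u, hu⟩ := IsAlgClosed.exists_pow_nat_eq (k := AlgebraicClosure F)
    (algebraMap F _ (D : F)) (n := 2) (by norm_num)
  obtain ⟨u', hu'⟩ := IsAlgClosed.exists_pow_nat_eq (k := AlgebraicClosure F)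
    (algebraMap F _ (D' : F)) (n := 2) (by norm_num)
  set S : AlgebraicClosure F := s * s' * (if χ v = 1 then u * u' else 1) with hS
  set Y : K := Δ χ * Δ' χ * (if χ v = 1 then algebraMap F K ((D : F) * (D' : F)) else 1) with hY
  have hSY : S ^ 2 = e Y := by
    rw [hS, hY, map_mul, map_mul, mul_pow, mul_pow, hs, hs']
    congr 1
    split_ifs with h
    · rw [AlgHom.commutes, map_mul, mul_pow, hu, hu']
    · rw [one_pow, map_one]
  -- `S` is fixed
  have hfix : ∀ τ : PadicAlgCl l ≃ₐ[ℚ_[l]] PadicAlgCl l, τ (ψ S) = ψ S := by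
    intro τ
    obtain ⟨σ, j, hσ, hσj⟩ := hψ.fro φ hφ τ
    have hσD : σ ∈ Dec ψ := ⟨τ, hσ⟩
    rw [hσ S]
    congr 1
    have c1 : c σ = chi (D : F) σ • σ • P - P := hP σ hσD
    have c2 : c' σ = chi (D' : F) σ • σ • P' - P' := hP' σ hσD
    have a1 := (hchi (D : F)).1 σ
    have a2 := (hchi (D' : F)).1 σ
    have hTT : i v + i v = 0 := by rw [← map_add, hV, map_zero]
    obtain ⟨R, hR, hR2⟩ := key a1 a2 c1 c2 hv.symm hv'.symm hTT (hc2' σ)
    obtain ⟨r, hr⟩ := (hSt.im R).1 hR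
    obtain ⟨v1, hv1⟩ := (hSt.im (c σ)).1 (hc2 σ)
    obtain ⟨v1', hv1'⟩ := (hSt.im (c' σ)).1 (hc2' σ)
    have hk1 : v1 + v1' = (φ ^ j) • r - r + (if chi (D : F) σ = chi (D' : F) σ then 0 else v) := by
      apply hSt.inj
      rw [map_add, hv1, hv1', hR2, map_add, map_sub, hSt.act σ (φ ^ j) hσj r, hr]
      congr 1
      split_ifs
      · rw [map_zero]
      · rfl
    have hk2 : χ v1 + χ v1' = (if chi (D : F) σ = chi (D' : F) σ then 0 else χ v) := by
      have h1 : χ ((φ ^ j) • r) = χ r := DFunLike.congr_fun (tw_pow hχ j) r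
      rw [← map_add, hk1, map_add, map_sub, h1, sub_self, zero_add]
      split_ifs
      · rw [map_zero]
      · rfl
    have g1 := hK.gal χ σ (φ ^ j) hσj (tw_pow hχ j) v1 hv1 s hs
    have g2 := hK'.gal χ σ (φ ^ j) hσj (tw_pow hχ j) v1' hv1' s' hs'
    have g3 := (hchi (D : F)).2.2.1 σ u hu
    have g4 := (hchi (D' : F)).2.2.1 σ u' hu'
    have g5 : σ S = σ s * σ s' * (if χ v = 1 then σ u * σ u' else 1) := by
      rw [hS, map_mul, map_mul]
      congr 1
      split_ifs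
      · rw [map_mul]
      · rw [map_one]
    rw [g5, g1, g2, g3, g4, hS]
    exact sign a1 a2 hk2
  obtain ⟨a, ha⟩ := Pool.Agent.Q177.ESG.GDJ.fixed_all (ψ S) hfix
  have hY0 : Y ≠ 0 := by
    rw [hY]
    refine mul_ne_zero (mul_ne_zero (hK.ne χ) (hK'.ne χ)) ?_
    split_ifs
    · rw [Ne, map_eq_zero, mul_eq_zero, not_or]
      exact ⟨fun h => hD.1 (RingOfIntegers.coe_eq_zero_iff.1 h),
        fun h => hD'.1 (RingOfIntegers.coe_eq_zero_iff.1 h)⟩
    · exact one_ne_zero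
  have hS0 : S ≠ 0 := by
    intro h
    rw [h, zero_pow two_ne_zero] at hSY
    exact hY0 ((map_eq_zero e).1 hSY.symm)
  have ha0 : a ≠ 0 := by
    rintro rfl
    rw [map_zero] at ha
    exact hS0 ((map_eq_zero ψ).1 ha.symm)
  refine Pool.Agent.Q177.ESG.GDJ.qr_of (ψ := ψ.comp (e : K →+* AlgebraicClosure F)) hl2
    (fun x m hm => hψ.nm x m hm) ha0 ?_
  rw [ha, ← map_pow, hSY]
  rfl

end Pool.Agent.Q144.ESV
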