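import Pool.Agent.Q144.TriArea

set_option autoImplicit false

open MeasureTheory Metric Set Filter Topology

namespace Q144.GE

/-- planar convex bodies -/
def IsBody (P : Set E2) : Prop := IsCompact P ∧ Convex ℝ P ∧ (interior P).Nonempty

/-- the perimeter: length (one-dimensional Hausdorff measure) of the boundary -/
noncomputable def per (P : Set E2) : ENNReal := Measure.hausdorffMeasure 1 (frontier P)

/-- a non-degenerate affine function of the plane -/
structure Ln where
  a : ℝ
  b : ℝ
  c : ℝ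
  ne : a ≠ 0 ∨ b ≠ 0

namespace Ln

def ev (l : Ln) (x : E2) : ℝ := l.a * x 0 + l.b * x 1 - l.c

def neg (l : Ln) : Ln := ⟨-l.a, -l.b, -l.c, by
  rcases l.ne with h | h
  · exact Or.inl (neg_ne_zero.2 h)
  · exact Or.inr (neg_ne_zero.2 h)⟩

variable (l : Ln)

@[simp] theorem ev_neg (x : E2) : l.neg.ev x = - l.ev x := by
  simp only [ev, neg]; ring

theorem pos : 0 < l.a ^ 2 + l.b ^ 2 := by
  rcases l.ne with h | h
  · have := pow_pos (abs_pos.2 h) 2
    rw [sq_abs] at this; nlinarith [sq_nonneg l.b]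
  · have := pow_pos (abs_pos.2 h) 2
    rw [sq_abs] at this; nlinarith [sq_nonneg l.a]

@[fun_prop] theorem cont : Continuous l.ev := by
  unfold ev; fun_prop

theorem ev_combo (x y : E2) (s t : ℝ) (h : s + t = 1) :
    l.ev (s • x + t • y) = s * l.ev x + t * l.ev y := by
  simp only [ev, PiLp.add_apply, PiLp.smul_apply, smul_eq_mul]
  linear_combination l.c * h

/-- the direction in which `l` grows -/
noncomputable def nrm : E2 := !₂[l.a, l.b]

/-- the direction of the line -/
noncomputable def dir : E2 := !₂[-l.b, l.a]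

theorem ev_add_nrm (x : E2) (t : ℝ) : l.ev (x + t • l.nrm) = l.ev x + t * (l.a ^ 2 + l.b ^ 2) := by
  simp [ev, nrm]; ring

theorem ev_add_dir (x : E2) (t : ℝ) : l.ev (x + t • l.dir) = l.ev x := by
  simp [ev, dir]; ring

theorem dir_ne : l.dir ≠ 0 := by
  intro h
  have h0 : l.dir 0 = 0 := by rw [h]; rfl
  have h1 : l.dir 1 = 0 := by rw [h]; rfl
  simp [dir] at h0 h1
  rcases l.ne with h' | h'
  · exact h' h1
  · exact h' h0

theorem ev_pos_of_interior {P : Set E2} (h : ∀ x ∈ P, 0 ≤ l.ev x) {x : E2} (hx : x ∈ interior P) :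
    0 < l.ev x := by
  have hc : Continuous (fun t : ℝ => x + t • l.nrm) := by fun_prop
  have h1 : ∀ᶠ t in 𝓝 (0:ℝ), x + t • l.nrm ∈ interior P := by
    have := hc.continuousAt (x := 0) |>.preimage_mem_nhds (t := interior P)
      (by simpa using isOpen_interior.mem_nhds hx)
    exact this
  obtain ⟨ε, hε, h2⟩ := Metric.eventually_nhds_iff.1 h1
  have h3 := h2 (y := -(ε/2)) (by simp [abs_of_pos hε]; linarith [half_pos hε, abs_of_pos (half_pos hε)])
  have h4 := h _ (interior_subset h3)
  rw [ev_add_nrm] at h4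
  nlinarith [mul_pos (half_pos hε) l.pos]

theorem vol_line : volume {x : E2 | l.ev x = 0} = 0 := by
  have hconv : Convex ℝ {x : E2 | 0 ≤ l.ev x} := by
    intro x hx y hy s t hs ht hst
    show 0 ≤ l.ev _
    rw [l.ev_combo _ _ _ _ hst]
    exact add_nonneg (mul_nonneg hs hx) (mul_nonneg ht hy)
  refine measure_mono_null ?_ (hconv.addHaar_frontier volume)
  intro x hx
  rw [frontier, Set.mem_sdiff]
  refine ⟨subset_closure (le_of_eq hx.symm), fun h => ?_⟩
  have := l.ev_pos_of_interior (P := {x | 0 ≤ l.ev x}) (fun _ h => h) h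
  exact absurd (hx : l.ev x = 0) this.ne'

theorem isClosed_nonneg : IsClosed {x : E2 | 0 ≤ l.ev x} := isClosed_le continuous_const l.cont

theorem convex_nonneg : Convex ℝ {x : E2 | 0 ≤ l.ev x} := by
  intro x hx y hy s t hs ht hst
  show 0 ≤ l.ev _
  rw [l.ev_combo _ _ _ _ hst]
  exact add_nonneg (mul_nonneg hs hx) (mul_nonneg ht hy)

/-- points of the line through `o` -/
theorem exists_dir {o x : E2} (ho : l.ev o = 0) (hx : l.ev x = 0) : ∃ t : ℝ, x = o + t • l.dir := by
  have hp := l.pos
  refine ⟨(-(x 0 - o 0) * l.b + (x 1 - o 1) * l.a) / (l.a ^ 2 + l.b ^ 2), ?_⟩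
  have h : l.a * (x 0 - o 0) + l.b * (x 1 - o 1) = 0 := by
    simp only [ev] at ho hx; linarith
  ext i
  fin_cases i
  · simp [dir]
    field_simp
    linear_combination l.a * h
  · simp [dir]
    field_simp
    linear_combination l.b * h

/-- a line through an interior point of a convex set meets the frontier in at most two points -/
theorem frontier_line {C : Set E2} (hC : Convex ℝ C) (hcl : IsClosed C) {o : E2} (ho : o ∈ interior C) (hlo : l.ev o = 0) :
    Measure.hausdorffMeasure 1 (frontier C ∩ {x | l.ev x = 0} : Set E2) = 0 := by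
  have hsub : (frontier C ∩ {x | l.ev x = 0} : Set E2) ⊆
      {x | x ∈ frontier C ∧ ∃ t : ℝ, 0 < t ∧ x = o + t • l.dir} ∪
      {x | x ∈ frontier C ∧ ∃ t : ℝ, t < 0 ∧ x = o + t • l.dir} := by
    rintro x ⟨hx, hlx⟩
    obtain ⟨t, ht⟩ := l.exists_dir hlo hlx
    rcases lt_trichotomy t 0 with h | h | h
    · exact Or.inr ⟨hx, t, h, ht⟩
    · exfalso
      rw [h, zero_smul, add_zero] at ht
      rw [ht] at hx
      exact hx.2 ho
    · exact Or.inl ⟨hx, t, h, ht⟩
  have key : ∀ s t : ℝ, 0 < s / t → s / t < 1 → t ≠ 0 → o + s • l.dir ∈ frontier C → o + t • l.dir ∈ frontier C → False := by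
    intro s t h0 h1 ht hs hft
    have hin : o + s • l.dir ∈ interior C := by
      have := hC.combo_interior_self_mem_interior ho (hcl.frontier_subset hft)
        (a := 1 - s / t) (b := s / t) (by linarith) h0.le (by ring)
      have e : (1 - s / t) • o + (s / t) • (o + t • l.dir) = o + s • l.dir := by
        rw [smul_add, smul_smul, div_mul_cancel₀ _ ht, ← add_assoc, ← add_smul]
        simp
      rwa [e] at this
    exact hs.2 hin
  haveI := Measure.nullSingletonClass_hausdorff E2 (d := 1) one_pos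
  refine measure_mono_null hsub (measure_union_null ?_ ?_)
  · apply Set.Subsingleton.measure_zero
    rintro x ⟨hx, s, hs, rfl⟩ y ⟨hy, t, ht, rfl⟩
    by_contra hne
    rcases lt_trichotomy s t with h | h | h
    · exact key s t (div_pos hs ht) ((div_lt_one ht).2 h) ht.ne' hx hy
    · exact hne (by rw [h])
    · exact key t s (div_pos ht hs) ((div_lt_one hs).2 h) hs.ne' hy hx
  · apply Set.Subsingleton.measure_zero
    rintro x ⟨hx, s, hs, rfl⟩ y ⟨hy, t, ht, rfl⟩
    by_contra hne
    rcases lt_trichotomy s t with h | h | h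
    · exact key t s (div_pos_of_neg_of_neg ht hs) (by rw [div_lt_one_of_neg hs]; exact h) hs.ne hy hx
    · exact hne (by rw [h])
    · exact key s t (div_pos_of_neg_of_neg hs ht) (by rw [div_lt_one_of_neg ht]; exact h) ht.ne hx hy

end Ln

/-- separation of two bodies with disjoint interiors -/
theorem exists_sep {P Q : Set E2} (hP : IsBody P) (hQ : IsBody Q) (h : Disjoint (interior P) (interior Q)) :
    ∃ l : Ln, (∀ x ∈ P, 0 ≤ l.ev x) ∧ (∀ x ∈ Q, l.ev x ≤ 0) := by
  obtain ⟨f, u, hf1, hf2⟩ := geometric_hahn_banach_open_open hQ.2.1.interior isOpen_interior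
    hP.2.1.interior isOpen_interior h.symm
  have hrep : ∀ x : E2, f x = f (EuclideanSpace.single 0 1) * x 0 + f (EuclideanSpace.single 1 1) * x 1 := by
    intro x
    have : x = x 0 • EuclideanSpace.single 0 (1:ℝ) + x 1 • EuclideanSpace.single 1 (1:ℝ) := by
      ext i; fin_cases i <;> simp
    conv_lhs => rw [this]
    rw [map_add, map_smul, map_smul]
    simp only [smul_eq_mul]; ring
  have hne : f (EuclideanSpace.single 0 1) ≠ 0 ∨ f (EuclideanSpace.single 1 1) ≠ 0 := by
    by_contra hc
    push Not at hc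
    obtain ⟨x, hx⟩ := hP.2.2
    obtain ⟨y, hy⟩ := hQ.2.2
    have h1 := hf2 x hx
    have h2 := hf1 y hy
    rw [hrep, hc.1, hc.2] at h1 h2
    linarith
  refine ⟨⟨_, _, u, hne⟩, ?_, ?_⟩
  · intro x hx
    have hx' : x ∈ closure (interior P) := by
      rw [hP.2.1.closure_interior_eq_closure_of_nonempty_interior hP.2.2]
      exact subset_closure hx
    have : u ≤ f x := by
      have hsub : closure (interior P) ⊆ {x | u ≤ f x} :=
        closure_minimal (fun y hy => (hf2 y hy).le) (isClosed_le continuous_const f.continuous)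
      exact hsub hx'
    rw [hrep] at this
    simp only [Ln.ev]; linarith
  · intro x hx
    have hx' : x ∈ closure (interior Q) := by
      rw [hQ.2.1.closure_interior_eq_closure_of_nonempty_interior hQ.2.2]
      exact subset_closure hx
    have : f x ≤ u := by
      have hsub : closure (interior Q) ⊆ {x | f x ≤ u} :=
        closure_minimal (fun y hy => (hf1 y hy).le) (isClosed_le f.continuous continuous_const)
      exact hsub hx'
    rw [hrep] at this
    simp only [Ln.ev]; linarith

/-- the line separating two parts meets the interior of the whole -/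
theorem exists_zero {C P Q : Set E2} (hC : Convex ℝ C) (hP : IsBody P) (hQ : IsBody Q) (hPC : P ⊆ C) (hQC : Q ⊆ C)
    {l : Ln} (h1 : ∀ x ∈ P, 0 ≤ l.ev x) (h2 : ∀ x ∈ Q, l.ev x ≤ 0) :
    ∃ o ∈ interior C, l.ev o = 0 := by
  obtain ⟨x, hx⟩ := hP.2.2
  obtain ⟨y, hy⟩ := hQ.2.2
  have hx1 := l.ev_pos_of_interior h1 hx
  have hy1 := l.neg.ev_pos_of_interior (P := Q) (fun z hz => by rw [l.ev_neg]; linarith [h2 z hz]) hy
  rw [l.ev_neg] at hy1
  have hd : 0 < l.ev x - l.ev y := by linarith
  refine ⟨(-l.ev y / (l.ev x - l.ev y)) • x + (l.ev x / (l.ev x - l.ev y)) • y, ?_, ?_⟩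
  · exact hC.interior (interior_mono hPC hx) (interior_mono hQC hy) (div_nonneg (by linarith) hd.le)
      (div_nonneg hx1.le hd.le) (by field_simp; ring)
  · rw [l.ev_combo _ _ _ _ (by field_simp; ring)]
    field_simp; ring

theorem inter_frontier_null {C P Q : Set E2} (hC : IsBody C) (hP : IsBody P) (hQ : IsBody Q)
    (hPC : P ⊆ C) (hQC : Q ⊆ C) (h : Disjoint (interior P) (interior Q)) :
    Measure.hausdorffMeasure 1 (frontier C ∩ (P ∩ Q) : Set E2) = 0 := by
  obtain ⟨l, h1, h2⟩ := exists_sep hP hQ h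
  obtain ⟨o, ho, hlo⟩ := exists_zero hC.2.1 hP hQ hPC hQC h1 h2
  refine measure_mono_null ?_ (l.frontier_line hC.2.1 hC.1.isClosed ho hlo)
  rintro x ⟨hx, hx1, hx2⟩
  exact ⟨hx, le_antisymm (h2 x hx2) (h1 x hx1)⟩

/-- the perimeters of the pieces -/
theorem sum_frontier_eq {n : ℕ} {C : Set E2} (hC : IsBody C) {P : Fin n → Set E2} (hP : ∀ i, IsBody (P i))
    (hd : ∀ i j, i ≠ j → Disjoint (interior (P i)) (interior (P j))) (hcov : ⋃ i, P i = C) :
    ∑ i, Measure.hausdorffMeasure 1 (frontier C ∩ P i : Set E2) = per C := by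
  have hsub : ∀ i, P i ⊆ C := fun i => hcov ▸ subset_iUnion P i
  have h1 : per C = Measure.hausdorffMeasure 1 (⋃ i, (frontier C ∩ P i) : Set E2) := by
    rw [← inter_iUnion, hcov, per]
    rw [inter_eq_left.2 hC.1.isClosed.frontier_subset]
  rw [h1, measure_iUnion₀, tsum_fintype]
  · intro i j hij
    have := inter_frontier_null hC (hP i) (hP j) (hsub i) (hsub j) (hd i j hij)
    refine measure_mono_null ?_ this
    rintro x ⟨⟨a, b⟩, ⟨_, c⟩⟩
    exact ⟨a, b, c⟩
  · intro i
    exact (isClosed_frontier.inter (hP i).1.isClosed).measurableSet.nullMeasurableSet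

theorem total_le {n : ℕ} {C : Set E2} (hC : IsBody C) {P : Fin n → Set E2} (hP : ∀ i, IsBody (P i))
    (hd : ∀ i j, i ≠ j → Disjoint (interior (P i)) (interior (P j))) (hcov : ⋃ i, P i = C) :
    ∑ i, per (P i) ≤ per C + ∑ i, ∑ j ∈ Finset.univ.filter (· ≠ i),
      Measure.hausdorffMeasure 1 (P i ∩ P j : Set E2) := by
  rw [← sum_frontier_eq hC hP hd hcov, ← Finset.sum_add_distrib]
  refine Finset.sum_le_sum fun i _ => ?_
  have hsub : frontier (P i) ⊆ (frontier C ∩ P i) ∪ ⋃ j ∈ Finset.univ.filter (· ≠ i), (P i ∩ P j) := by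
    intro x hx
    have hxi : x ∈ P i := (hP i).1.isClosed.frontier_subset hx
    have hxC : x ∈ C := hcov ▸ mem_iUnion.2 ⟨i, hxi⟩
    by_cases hxf : x ∈ frontier C
    · exact Or.inl ⟨hxf, hxi⟩
    right
    have hxint : x ∈ interior C := by
      by_contra h
      exact hxf ⟨subset_closure hxC, h⟩
    by_contra hno
    simp only [mem_iUnion, not_exists, Finset.mem_filter, Finset.mem_univ, true_and, mem_inter_iff, not_and] at hno
    -- a neighbourhood of x avoids the other pieces
    have hopen : IsOpen (⋂ j ∈ Finset.univ.filter (· ≠ i), (P j)ᶜ) := by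
      apply isOpen_biInter_finset
      intro j _
      exact (hP j).1.isClosed.isOpen_compl
    have hxo : x ∈ interior C ∩ (⋂ j ∈ Finset.univ.filter (· ≠ i), (P j)ᶜ) := by
      refine ⟨hxint, ?_⟩
      simp only [mem_iInter, Finset.mem_filter, Finset.mem_univ, true_and, mem_compl_iff]
      intro j hj hxj
      exact hno j hj hxi hxj
    have hs : interior C ∩ (⋂ j ∈ Finset.univ.filter (· ≠ i), (P j)ᶜ) ⊆ P i := by
      rintro y ⟨hy, hy2⟩
      have : y ∈ ⋃ i, P i := hcov ▸ interior_subset hy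
      obtain ⟨j, hj⟩ := mem_iUnion.1 this
      by_cases hji : j = i
      · exact hji ▸ hj
      · simp only [mem_iInter, Finset.mem_filter, Finset.mem_univ, true_and, mem_compl_iff] at hy2
        exact absurd hj (hy2 j hji)
    exact hx.2 (mem_interior.2 ⟨_, hs, isOpen_interior.inter hopen, hxo⟩)
  calc per (P i) ≤ _ := measure_mono hsub
    _ ≤ _ := measure_union_le _ _
    _ ≤ _ := add_le_add le_rfl (measure_biUnion_finset_le _ _)

end Q144.GE
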