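import Pool.Agent.Q144.GEa

set_option autoImplicit false

open MeasureTheory Metric Set Filter Topology

namespace Q144.GE

structure Three (C P Q R : Set E2) : Prop where
  hC : IsBody C
  hP : IsBody P
  hQ : IsBody Q
  hR : IsBody R
  pq : Disjoint (interior P) (interior Q)
  qr : Disjoint (interior Q) (interior R)
  rp : Disjoint (interior R) (interior P)
  cov : ∀ x, x ∈ C ↔ x ∈ P ∨ x ∈ Q ∨ x ∈ R

namespace Three

variable {C P Q R : Set E2}

theorem rot (T : Three C P Q R) : Three C Q R P :=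
  ⟨T.hC, T.hQ, T.hR, T.hP, T.qr, T.rp, T.pq, fun x => by rw [T.cov]; tauto⟩

theorem swap (T : Three C P Q R) : Three C P R Q :=
  ⟨T.hC, T.hP, T.hR, T.hQ, T.rp.symm, T.qr.symm, T.pq.symm, fun x => by rw [T.cov]; tauto⟩

theorem subP (T : Three C P Q R) : P ⊆ C := fun x hx => (T.cov x).2 (Or.inl hx)
theorem subQ (T : Three C P Q R) : Q ⊆ C := fun x hx => (T.cov x).2 (Or.inr (Or.inl hx))
theorem subR (T : Three C P Q R) : R ⊆ C := fun x hx => (T.cov x).2 (Or.inr (Or.inr hx))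

end Three

theorem mem_of_near {A : Set E2} (hA : IsClosed A) {x y : E2}
    (h : ∀ t : ℝ, 0 < t → t < 1 → (1 - t) • x + t • y ∈ A) : x ∈ A := by
  have h1 : openSegment ℝ x y ⊆ A := by
    rintro z ⟨a, b, ha, hb, hab, rfl⟩
    have := h b hb (by linarith)
    rwa [show 1 - b = a by linarith] at this
  have h2 : x ∈ closure (openSegment ℝ x y) := by
    rw [closure_openSegment]; exact left_mem_segment ℝ x y
  exact closure_minimal h1 hA h2

theorem Three.mem {C P Q R : Set E2} (T : Three C P Q R) {l m : Ln}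
    (hl1 : ∀ x ∈ P, 0 ≤ l.ev x) (hl2 : ∀ x ∈ Q, l.ev x ≤ 0)
    (hm1 : ∀ x ∈ P, 0 ≤ m.ev x) (hm2 : ∀ x ∈ R, m.ev x ≤ 0)
    {x : E2} (hx : x ∈ C) (hlx : 0 ≤ l.ev x) (hmx : 0 ≤ m.ev x) : x ∈ P := by
  obtain ⟨y, hy⟩ := T.hP.2.2
  have hy1 := l.ev_pos_of_interior hl1 hy
  have hy2 := m.ev_pos_of_interior hm1 hy
  refine mem_of_near T.hP.1.isClosed (y := y) fun t ht ht1 => ?_
  have hz : (1 - t) • x + t • y ∈ C :=
    T.hC.2.1 hx (T.subP (interior_subset hy)) (by linarith) ht.le (by ring)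
  have e1 : 0 < l.ev ((1 - t) • x + t • y) := by
    rw [l.ev_combo _ _ _ _ (by ring)]
    have := mul_nonneg (by linarith : (0:ℝ) ≤ 1 - t) hlx
    have := mul_pos ht hy1
    linarith
  have e2 : 0 < m.ev ((1 - t) • x + t • y) := by
    rw [m.ev_combo _ _ _ _ (by ring)]
    have := mul_nonneg (by linarith : (0:ℝ) ≤ 1 - t) hmx
    have := mul_pos ht hy2
    linarith
  rcases (T.cov _).1 hz with h | h | h
  · exact h
  · exact absurd (hl2 _ h) (not_le.2 e1)
  · exact absurd (hm2 _ h) (not_le.2 e2)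

/-- a compact subset of a line is contained in a segment with ends in the set -/
theorem sub_segment {A : Set E2} (hA : IsCompact A) (hne : A.Nonempty) (l : Ln) (hl : ∀ x ∈ A, l.ev x = 0) :
    ∃ p ∈ A, ∃ q ∈ A, A ⊆ segment ℝ p q := by
  set g : E2 → ℝ := fun x => -l.b * x 0 + l.a * x 1 with hg
  have hgc : Continuous g := by rw [hg]; fun_prop
  obtain ⟨p, hp, hpm⟩ := hA.exists_isMinOn hne hgc.continuousOn
  obtain ⟨q, hq, hqm⟩ := hA.exists_isMaxOn hne hgc.continuousOn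
  refine ⟨p, hp, q, hq, fun x hx => ?_⟩
  obtain ⟨s, hs⟩ := l.exists_dir (hl p hp) (hl q hq)
  obtain ⟨t, ht⟩ := l.exists_dir (hl p hp) (hl x hx)
  have hgs : ∀ r : ℝ, g (p + r • l.dir) = g p + r * (l.a ^ 2 + l.b ^ 2) := by
    intro r; simp [hg, Ln.dir]; ring
  have h1 : g p ≤ g x := hpm hx
  have h2 : g x ≤ g q := hqm hx
  rw [ht, hgs] at h1 h2
  rw [hs, hgs] at h2
  have hpos := l.pos
  have ht0 : 0 ≤ t := by by_contra h; push Not at h; nlinarith
  have hts : t ≤ s := by by_contra h; push Not at h; nlinarith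
  rcases eq_or_lt_of_le (ht0.trans hts) with h0 | h0
  · have : t = 0 := by linarith
    rw [this, zero_smul, add_zero] at ht
    rw [ht]; exact left_mem_segment ℝ p q
  · rw [segment_eq_image']
    refine ⟨t / s, ⟨div_nonneg ht0 h0.le, (div_le_one h0).2 hts⟩, ?_⟩
    show p + (t / s) • (q - p) = x
    rw [hs, ht, add_sub_cancel_left, smul_smul, div_mul_cancel₀ _ h0.ne']

theorem hm_le {A : Set E2} (hA : IsCompact A) (l : Ln) (hl : ∀ x ∈ A, l.ev x = 0) {L : ℝ}
    (hd : ∀ p ∈ A, ∀ q ∈ A, dist p q ≤ L) : Measure.hausdorffMeasure 1 A ≤ ENNReal.ofReal L := by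
  rcases A.eq_empty_or_nonempty with rfl | hne
  · simp
  obtain ⟨p, hp, q, hq, hsub⟩ := sub_segment hA hne l hl
  calc Measure.hausdorffMeasure 1 A ≤ Measure.hausdorffMeasure 1 (segment ℝ p q) := measure_mono hsub
    _ = edist p q := by rw [← affineSegment_eq_segment, hausdorffMeasure_affineSegment]
    _ = ENNReal.ofReal (dist p q) := edist_dist p q
    _ ≤ _ := ENNReal.ofReal_le_ofReal (hd p hp q hq)

/-- the long chord property -/
def LC (C : Set E2) (L : ℝ) (a : ENNReal) : Prop :=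
  ∀ p ∈ C, ∀ q ∈ C, L < dist p q → ∀ l : Ln, l.ev p = 0 → l.ev q = 0 → a < volume (C ∩ {x | 0 ≤ l.ev x})

theorem vol_side {C Q : Set E2} (l : Ln) (h : ∀ x ∈ interior C, 0 < l.ev x → x ∈ Q) (hC : Convex ℝ C) :
    volume (C ∩ {x | 0 ≤ l.ev x}) ≤ volume Q := by
  have hsub : C ∩ {x | 0 ≤ l.ev x} ⊆ Q ∪ ({x | l.ev x = 0} ∪ frontier C) := by
    rintro x ⟨hx, hlx⟩
    by_cases h1 : x ∈ frontier C
    · exact Or.inr (Or.inr h1)
    have hxi : x ∈ interior C := by
      by_contra h'; exact h1 ⟨subset_closure hx, h'⟩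
    have hlx' : 0 ≤ l.ev x := hlx
    rcases eq_or_lt_of_le hlx' with h2 | h2
    · exact Or.inr (Or.inl h2.symm)
    · exact Or.inl (h x hxi h2)
  calc volume (C ∩ {x | 0 ≤ l.ev x}) ≤ _ := measure_mono hsub
    _ ≤ volume Q + (volume {x | l.ev x = 0} + volume (frontier C)) :=
      (measure_union_le _ _).trans (add_le_add le_rfl (measure_union_le _ _))
    _ = volume Q := by rw [l.vol_line, hC.addHaar_frontier volume]; simp

theorem Three.side {C P Q R : Set E2} (T : Three C P Q R) {l : Ln}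
    (hl1 : ∀ x ∈ P, 0 ≤ l.ev x) (hl2 : ∀ x ∈ Q, l.ev x ≤ 0) (hs : (Q ∩ R).Subsingleton) :
    ∀ x ∈ interior C, l.ev x < 0 → x ∈ Q := by
  intro x hx hlx
  by_contra hxQ
  obtain ⟨m, hm1, hm2⟩ := exists_sep T.hQ T.hR T.qr
  have memQ : ∀ z ∈ C, l.ev z ≤ 0 → 0 ≤ m.ev z → z ∈ Q := by
    intro z hz h1 h2
    exact T.rot.mem (l := m) (m := l.neg) hm1 hm2 (fun w hw => by rw [l.ev_neg]; linarith [hl2 w hw])
      (fun w hw => by rw [l.ev_neg]; linarith [hl1 w hw]) hz h2 (by rw [l.ev_neg]; linarith)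
  have memR : ∀ z ∈ C, l.ev z < 0 → m.ev z < 0 → z ∈ R := by
    intro z hz h1 h2
    rcases (T.cov z).1 hz with h | h | h
    · exact absurd (hl1 z h) (not_le.2 h1)
    · exact absurd (hm1 z h) (not_le.2 h2)
    · exact h
  have hmx : m.ev x < 0 := by
    by_contra h
    push Not at h
    exact hxQ (memQ x (interior_subset hx) hlx.le h)
  obtain ⟨y, hy⟩ := T.hQ.2.2
  have hly : l.ev y < 0 := by
    have := l.neg.ev_pos_of_interior (P := Q) (fun w hw => by rw [l.ev_neg]; linarith [hl2 w hw]) hy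
    rw [l.ev_neg] at this; linarith
  have hmy : 0 < m.ev y := m.ev_pos_of_interior hm1 hy
  have hyC : y ∈ interior C := interior_mono T.subQ hy
  -- crossing point
  have key : ∀ w ∈ interior C, l.ev w < 0 → m.ev w < 0 →
      (m.ev y / (m.ev y - m.ev w)) • w + (-m.ev w / (m.ev y - m.ev w)) • y ∈ Q ∩ R := by
    intro w hw hlw hmw
    have hd : 0 < m.ev y - m.ev w := by linarith
    set s := m.ev y / (m.ev y - m.ev w) with hs'
    set t := -m.ev w / (m.ev y - m.ev w) with ht'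
    have hs0 : 0 < s := div_pos hmy hd
    have ht0 : 0 < t := div_pos (by linarith) hd
    have hst : s + t = 1 := by rw [hs', ht']; field_simp; ring
    have hzC : s • w + t • y ∈ interior C := T.hC.2.1.interior hw hyC hs0.le ht0.le hst
    have hmz : m.ev (s • w + t • y) = 0 := by
      rw [m.ev_combo _ _ _ _ hst, hs', ht']; field_simp; ring
    have hlz : l.ev (s • w + t • y) < 0 := by
      rw [l.ev_combo _ _ _ _ hst]
      have := mul_neg_of_pos_of_neg hs0 hlw
      have := mul_neg_of_pos_of_neg ht0 hly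
      linarith
    refine ⟨memQ _ (interior_subset hzC) hlz.le hmz.ge, ?_⟩
    refine mem_of_near T.hR.1.isClosed (y := w) fun r hr hr1 => ?_
    refine memR _ (T.hC.2.1 (interior_subset hzC) (interior_subset hw) (by linarith) hr.le (by ring)) ?_ ?_
    · rw [l.ev_combo _ _ _ _ (by ring)]
      have := mul_neg_of_pos_of_neg (by linarith : 0 < 1 - r) hlz
      have := mul_neg_of_pos_of_neg hr hlw
      linarith
    · rw [m.ev_combo _ _ _ _ (by ring), hmz]
      have := mul_neg_of_pos_of_neg hr hmw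
      linarith
  have hc : Continuous (fun t : ℝ => x + t • m.dir) := by fun_prop
  have h1 : ∀ᶠ t in 𝓝 (0:ℝ), x + t • m.dir ∈ interior C :=
    hc.continuousAt (x := 0) |>.preimage_mem_nhds (t := interior C)
      (by simpa using isOpen_interior.mem_nhds hx)
  have h2 : ∀ᶠ t in 𝓝 (0:ℝ), l.ev (x + t • m.dir) < 0 := by
    have hc2 : Continuous (fun t : ℝ => l.ev (x + t • m.dir)) := l.cont.comp hc
    have := hc2.continuousAt (x := 0) |>.preimage_mem_nhds (t := Iio 0)
      (by simpa using isOpen_Iio.mem_nhds hlx)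
    exact this
  obtain ⟨ε, hε, h3⟩ := Metric.eventually_nhds_iff.1 (h1.and h2)
  have h4 := h3 (y := ε / 2) (by simp [abs_of_pos hε]; exact hε)
  have hmx' : m.ev (x + (ε / 2) • m.dir) = m.ev x := m.ev_add_dir x _
  have k1 := key x hx hlx hmx
  have k2 := key _ h4.1 h4.2 (by rw [hmx']; exact hmx)
  rw [hmx'] at k2
  have := hs k1 k2
  have hd : 0 < m.ev y - m.ev x := by linarith
  have hs0 : 0 < m.ev y / (m.ev y - m.ev x) := div_pos hmy hd
  rw [smul_add] at this
  have h5 : (m.ev y / (m.ev y - m.ev x)) • (ε / 2) • m.dir = 0 := by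
    have h6 := congrArg (fun v => v - ((m.ev y / (m.ev y - m.ev x)) • x + (-m.ev x / (m.ev y - m.ev x)) • y)) this
    simp only [sub_self] at h6
    rw [h6]
    abel
  rw [smul_smul, smul_eq_zero] at h5
  rcases h5 with h5 | h5
  · exact (mul_pos hs0 (half_pos hε)).ne' h5
  · exact m.dir_ne h5

theorem Three.adj {C P Q R : Set E2} (T : Three C P Q R) {L : ℝ} {a : ENNReal} (hLC : LC C L a)
    (hvQ : volume Q = a) (hs : (Q ∩ R).Subsingleton) : ∀ p ∈ P ∩ Q, ∀ q ∈ P ∩ Q, dist p q ≤ L := by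
  intro p hp q hq
  obtain ⟨l, hl1, hl2⟩ := exists_sep T.hP T.hQ T.pq
  by_contra h
  push Not at h
  have h1 := hLC p (T.subP hp.1) q (T.subP hq.1) h l.neg
    (by rw [l.ev_neg]; linarith [hl1 p hp.1, hl2 p hp.2]) (by rw [l.ev_neg]; linarith [hl1 q hq.1, hl2 q hq.2])
  have h2 := vol_side (C := C) (Q := Q) l.neg (fun x hx hlx => T.side hl1 hl2 hs x hx (by rw [l.ev_neg] at hlx; linarith)) T.hC.2.1
  exact absurd (h1.trans_le h2) (by rw [hvQ]; exact lt_irrefl _)

theorem hm_inter {P Q : Set E2} (hP : IsBody P) (hQ : IsBody Q) (h : Disjoint (interior P) (interior Q)) {L : ℝ}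
    (hd : ∀ p ∈ P ∩ Q, ∀ q ∈ P ∩ Q, dist p q ≤ L) :
    Measure.hausdorffMeasure 1 (P ∩ Q : Set E2) ≤ ENNReal.ofReal L := by
  obtain ⟨l, h1, h2⟩ := exists_sep hP hQ h
  exact hm_le (hP.1.inter hQ.1) l (fun x hx => le_antisymm (h2 x hx.2) (h1 x hx.1)) hd

theorem hm_sub {A : Set E2} (h : A.Subsingleton) : Measure.hausdorffMeasure 1 A = 0 := by
  haveI := Measure.nullSingletonClass_hausdorff E2 (d := 1) one_pos
  exact h.measure_zero _

/-- case N: two pieces do not share a cut -/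
theorem Three.caseN {C P Q R : Set E2} (T : Three C P Q R) {L : ℝ} {a : ENNReal} (hLC : LC C L a)
    (hvQ : volume Q = a) (hvR : volume R = a) (hs : (Q ∩ R).Subsingleton) :
    Measure.hausdorffMeasure 1 (P ∩ Q : Set E2) + Measure.hausdorffMeasure 1 (Q ∩ R : Set E2) +
      Measure.hausdorffMeasure 1 (R ∩ P : Set E2) ≤ ENNReal.ofReal L + ENNReal.ofReal L := by
  rw [hm_sub hs, add_zero]
  refine add_le_add (hm_inter T.hP T.hQ T.pq (T.adj hLC hvQ hs)) (hm_inter T.hR T.hP T.rp ?_)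
  have := T.swap.adj hLC hvR (by rw [inter_comm]; exact hs)
  intro p hp q hq
  exact this p hp.symm q hq.symm

/-- the midpoint of two different points of a cut is an inner point -/
theorem mid_int {C : Set E2} (hC : Convex ℝ C) {l : Ln} {o p q : E2} (ho : o ∈ interior C) (hlo : l.ev o = 0)
    (hp : p ∈ C) (hq : q ∈ C) (hlp : l.ev p = 0) (hlq : l.ev q = 0) (hne : p ≠ q) :
    (1/2 : ℝ) • p + (1/2 : ℝ) • q ∈ interior C := by
  obtain ⟨s, hs⟩ := l.exists_dir hlp hlq
  obtain ⟨t, ht⟩ := l.exists_dir hlp hlo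
  have hs0 : s ≠ 0 := by
    rintro rfl
    rw [zero_smul, add_zero] at hs
    exact hne hs.symm
  -- o = p + (t / s) (q - p)
  have ho' : o = p + (t / s) • (q - p) := by
    rw [hs, ht, add_sub_cancel_left, smul_smul, div_mul_cancel₀ _ hs0]
  set r := t / s with hr
  rcases le_or_gt r (1/2) with h | h
  · -- midpoint in (o, q)
    have hd : 0 < 1 - r := by linarith
    have := hC.combo_interior_self_mem_interior ho hq (a := (1/2) / (1 - r)) (b := (1/2 - r) / (1 - r))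
      (by positivity) (div_nonneg (by linarith) hd.le) (by field_simp; ring)
    convert this using 1
    rw [ho']
    ext i
    simp only [PiLp.add_apply, PiLp.smul_apply, PiLp.sub_apply, smul_eq_mul]
    field_simp
    ring
  · have hd : 0 < r := by linarith
    have := hC.combo_interior_self_mem_interior ho hp (a := (1/2) / r) (b := (r - 1/2) / r)
      (by positivity) (div_nonneg (by linarith) hd.le) (by field_simp; ring)
    convert this using 1
    rw [ho']
    ext i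
    simp only [PiLp.add_apply, PiLp.smul_apply, PiLp.sub_apply, smul_eq_mul]
    field_simp
    ring

/-- Berge's theorem for three compact convex sets -/
theorem berge {A B D U : Set E2} (hA : IsCompact A) (hB : IsCompact B) (hD : IsCompact D)
    (cA : Convex ℝ A) (cB : Convex ℝ B) (cD : Convex ℝ D) (hU : Convex ℝ U)
    (hcov : ∀ x, x ∈ U ↔ x ∈ A ∨ x ∈ B ∨ x ∈ D)
    (hAB : (A ∩ B).Nonempty) (hBD : (B ∩ D).Nonempty) (hAD : (A ∩ D).Nonempty) :
    ∃ x, x ∈ A ∧ x ∈ B ∧ x ∈ D := by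
  by_contra hno
  push Not at hno
  obtain ⟨f, u, v, hf1, huv, hf2⟩ := geometric_hahn_banach_compact_closed (cA.inter cB) (hA.inter hB) cD hD.isClosed
    (by rw [Set.disjoint_left]; rintro x ⟨h1, h2⟩ h3; exact hno x h1 h2 h3)
  obtain ⟨y, hyA, hyB⟩ := hAB
  obtain ⟨x, hxA, hxD⟩ := hAD
  obtain ⟨x', hx'B, hx'D⟩ := hBD
  have hy := hf1 y ⟨hyA, hyB⟩
  have level : ∀ S : Set E2, Convex ℝ S → y ∈ S → ∀ w ∈ S, v < f w → ∃ z ∈ S, f z = v := by
    intro S hS hyS w hw hfw
    have hd : 0 < f w - f y := by linarith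
    refine ⟨((f w - v) / (f w - f y)) • y + ((v - f y) / (f w - f y)) • w, ?_, ?_⟩
    · exact hS hyS hw (div_nonneg (by linarith) hd.le) (div_nonneg (by linarith) hd.le) (by field_simp; ring)
    · rw [map_add, map_smul, map_smul, smul_eq_mul, smul_eq_mul]; field_simp; ring
  obtain ⟨p, hpA, hfp⟩ := level A cA hyA x hxA (hf2 x hxD)
  obtain ⟨q, hqB, hfq⟩ := level B cB hyB x' hx'B (hf2 x' hx'D)
  have hseg : ∀ z ∈ segment ℝ p q, f z = v := by
    rintro z ⟨s, t, hs, ht, hst, rfl⟩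
    rw [map_add, map_smul, map_smul, hfp, hfq, smul_eq_mul, smul_eq_mul, ← add_mul, hst, one_mul]
  have hsub : segment ℝ p q ⊆ A ∪ B := by
    intro z hz
    have : z ∈ U := hU.segment_subset ((hcov p).2 (Or.inl hpA)) ((hcov q).2 (Or.inr (Or.inl hqB))) hz
    rcases (hcov z).1 this with h | h | h
    · exact Or.inl h
    · exact Or.inr h
    · have := hf2 z h
      rw [hseg z hz] at this
      exact absurd this (lt_irrefl _)
  obtain ⟨z, hz, hzA, hzB⟩ := isPreconnected_closed_iff.1 (convex_segment (𝕜 := ℝ) p q).isPreconnected A B hA.isClosed hB.isClosed hsub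
    ⟨p, left_mem_segment ℝ p q, hpA⟩ ⟨q, right_mem_segment ℝ p q, hqB⟩
  have h1 := hf1 z ⟨hzA, hzB⟩
  rw [hseg z hz] at h1
  linarith

theorem Three.triple {C P Q R : Set E2} (T : Three C P Q R) (h1 : ¬ (P ∩ Q).Subsingleton)
    (h2 : ¬ (Q ∩ R).Subsingleton) (h3 : ¬ (R ∩ P).Subsingleton) : ∃ z ∈ interior C, z ∈ P ∧ z ∈ Q ∧ z ∈ R := by
  have mid : ∀ A B : Set E2, IsBody A → IsBody B → A ⊆ C → B ⊆ C → Disjoint (interior A) (interior B) →
      ¬ (A ∩ B).Subsingleton → ∃ x ∈ interior C, x ∈ A ∧ x ∈ B := by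
    intro A B hA hB hAC hBC hd hn
    rw [Set.not_subsingleton_iff] at hn
    obtain ⟨p, hp, q, hq, hpq⟩ := hn
    obtain ⟨l, hl1, hl2⟩ := exists_sep hA hB hd
    obtain ⟨o, ho, hlo⟩ := exists_zero T.hC.2.1 hA hB hAC hBC hl1 hl2
    refine ⟨_, mid_int T.hC.2.1 ho hlo (hAC hp.1) (hAC hq.1) (le_antisymm (hl2 p hp.2) (hl1 p hp.1))
      (le_antisymm (hl2 q hq.2) (hl1 q hq.1)) hpq, ?_, ?_⟩
    · exact hA.2.1 hp.1 hq.1 (by norm_num) (by norm_num) (by norm_num)
    · exact hB.2.1 hp.2 hq.2 (by norm_num) (by norm_num) (by norm_num)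
  obtain ⟨x, hxi, hxP, hxQ⟩ := mid P Q T.hP T.hQ T.subP T.subQ T.pq h1
  obtain ⟨y, hyi, hyQ, hyR⟩ := mid Q R T.hQ T.hR T.subQ T.subR T.qr h2
  obtain ⟨w, hwi, hwR, hwP⟩ := mid R P T.hR T.hP T.subR T.subP T.rp h3
  set D := convexHull ℝ ({x, y, w} : Set E2) with hD
  have hDc : IsCompact D := (Set.toFinite ({x, y, w} : Set E2)).isCompact_convexHull ℝ
  have hDi : D ⊆ interior C := by
    apply convexHull_min _ T.hC.2.1.interior
    intro v hv
    simp only [mem_insert_iff, mem_singleton_iff] at hv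
    rcases hv with rfl | rfl | rfl <;> assumption
  have hx : x ∈ D := subset_convexHull _ _ (by simp)
  have hy : y ∈ D := subset_convexHull _ _ (by simp)
  have hw : w ∈ D := subset_convexHull _ _ (by simp)
  obtain ⟨z, hz1, hz2, hz3⟩ := berge (A := P ∩ D) (B := Q ∩ D) (D := R ∩ D) (U := D) (T.hP.1.inter hDc) (T.hQ.1.inter hDc)
    (T.hR.1.inter hDc) (T.hP.2.1.inter (convex_convexHull ℝ _)) (T.hQ.2.1.inter (convex_convexHull ℝ _))
    (T.hR.2.1.inter (convex_convexHull ℝ _)) (convex_convexHull ℝ _)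
    (fun v => by
      constructor
      · intro hv
        rcases (T.cov v).1 (interior_subset (hDi hv)) with h | h | h
        · exact Or.inl ⟨h, hv⟩
        · exact Or.inr (Or.inl ⟨h, hv⟩)
        · exact Or.inr (Or.inr ⟨h, hv⟩)
      · rintro (h | h | h) <;> exact h.2)
    ⟨x, ⟨hxP, hx⟩, ⟨hxQ, hx⟩⟩ ⟨y, ⟨hyQ, hy⟩, ⟨hyR, hy⟩⟩ ⟨w, ⟨hwP, hw⟩, ⟨hwR, hw⟩⟩
  exact ⟨z, hDi hz1.2, hz1.1, hz2.1, hz3.1⟩

end Q144.GE
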