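import Pool.Agent.Q144.GEb

set_option autoImplicit false

open MeasureTheory Metric Set Filter Topology

namespace Q144.GE

/-- cross product of vectors -/
def crv (u v : E2) : ℝ := u 0 * v 1 - u 1 * v 0

/-- cross product of the normals of two lines -/
def cr (l m : Ln) : ℝ := l.a * m.b - l.b * m.a

theorem Ln.ev_add (l : Ln) (x v : E2) : l.ev (x + v) = l.ev x + (l.a * v 0 + l.b * v 1) := by
  simp only [Ln.ev, PiLp.add_apply]; ring

theorem ev_dir (l m : Ln) (x : E2) (t : ℝ) : l.ev (x + t • m.dir) = l.ev x + t * cr m l := by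
  simp [Ln.ev, Ln.dir, cr]; ring

theorem norm_add_lt {X Y : E2} (h : crv X Y ≠ 0) : ‖X + Y‖ < ‖X‖ + ‖Y‖ := by
  apply norm_add_lt_of_not_sameRay
  rintro (h1 | h1 | ⟨r, s, hr, hs, he⟩)
  · apply h; rw [h1]; simp [crv]
  · apply h; rw [h1]; simp [crv]
  · apply h
    have e0 : r * X 0 = s * Y 0 := by
      have := congrArg (fun v : E2 => v 0) he
      simpa using this
    have e1 : r * X 1 = s * Y 1 := by
      have := congrArg (fun v : E2 => v 1) he
      simpa using this
    have : r * s * crv X Y = 0 := by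
      unfold crv
      linear_combination (s * Y 1) * e0 - (s * Y 0) * e1
    rcases mul_eq_zero.1 this with h2 | h2
    · exact absurd h2 (mul_pos hr hs).ne'
    · exact h2

theorem fermat {A1 A2 A3 : E2} {w1 w2 w3 L : ℝ} (h : w1 • A1 + w2 • A2 + w3 • A3 = 0)
    (h1 : 0 ≤ w1) (h2 : 0 ≤ w2) (h3 : 0 ≤ w3)
    (hw : (0 < w2 ∧ 0 < w3) ∨ (0 < w3 ∧ 0 < w1) ∨ (0 < w1 ∧ 0 < w2))
    (hc : crv (A1 - A2) (A1 - A3) ≠ 0) (h12 : ‖A1 - A2‖ ≤ L) (h23 : ‖A2 - A3‖ ≤ L) (h31 : ‖A3 - A1‖ ≤ L) :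
    ‖A1‖ + ‖A2‖ + ‖A3‖ < 2 * L := by
  have hW : 0 < w1 + w2 + w3 := by rcases hw with ⟨a, b⟩ | ⟨a, b⟩ | ⟨a, b⟩ <;> linarith
  have e1 : (w1 + w2 + w3) • A1 = w2 • (A1 - A2) + w3 • (A1 - A3) := by
    have : (w1 + w2 + w3) • A1 = (w1 + w2 + w3) • A1 - (w1 • A1 + w2 • A2 + w3 • A3) := by rw [h, sub_zero]
    rw [this]
    simp only [add_smul, smul_sub]; abel
  have e2 : (w1 + w2 + w3) • A2 = w3 • (A2 - A3) + w1 • (A2 - A1) := by
    have : (w1 + w2 + w3) • A2 = (w1 + w2 + w3) • A2 - (w1 • A1 + w2 • A2 + w3 • A3) := by rw [h, sub_zero]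
    rw [this]
    simp only [add_smul, smul_sub]; abel
  have e3 : (w1 + w2 + w3) • A3 = w1 • (A3 - A1) + w2 • (A3 - A2) := by
    have : (w1 + w2 + w3) • A3 = (w1 + w2 + w3) • A3 - (w1 • A1 + w2 • A2 + w3 • A3) := by rw [h, sub_zero]
    rw [this]
    simp only [add_smul, smul_sub]; abel
  have n1 : (w1 + w2 + w3) * ‖A1‖ = ‖w2 • (A1 - A2) + w3 • (A1 - A3)‖ := by
    rw [← e1, norm_smul, Real.norm_of_nonneg hW.le]
  have n2 : (w1 + w2 + w3) * ‖A2‖ = ‖w3 • (A2 - A3) + w1 • (A2 - A1)‖ := by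
    rw [← e2, norm_smul, Real.norm_of_nonneg hW.le]
  have n3 : (w1 + w2 + w3) * ‖A3‖ = ‖w1 • (A3 - A1) + w2 • (A3 - A2)‖ := by
    rw [← e3, norm_smul, Real.norm_of_nonneg hW.le]
  have h21 : ‖A2 - A1‖ ≤ L := by rw [norm_sub_rev]; exact h12
  have h32 : ‖A3 - A2‖ ≤ L := by rw [norm_sub_rev]; exact h23
  have h13 : ‖A1 - A3‖ ≤ L := by rw [norm_sub_rev]; exact h31
  have s : ∀ (w : ℝ) (X : E2), 0 ≤ w → ‖w • X‖ = w * ‖X‖ := fun w X hw => by
    rw [norm_smul, Real.norm_of_nonneg hw]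
  have u1 : ‖w2 • (A1 - A2) + w3 • (A1 - A3)‖ ≤ w2 * L + w3 * L := by
    refine (norm_add_le _ _).trans (add_le_add ?_ ?_)
    · rw [s _ _ h2]; exact mul_le_mul_of_nonneg_left h12 h2
    · rw [s _ _ h3]; exact mul_le_mul_of_nonneg_left h13 h3
  have u2 : ‖w3 • (A2 - A3) + w1 • (A2 - A1)‖ ≤ w3 * L + w1 * L := by
    refine (norm_add_le _ _).trans (add_le_add ?_ ?_)
    · rw [s _ _ h3]; exact mul_le_mul_of_nonneg_left h23 h3
    · rw [s _ _ h1]; exact mul_le_mul_of_nonneg_left h21 h1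
  have u3 : ‖w1 • (A3 - A1) + w2 • (A3 - A2)‖ ≤ w1 * L + w2 * L := by
    refine (norm_add_le _ _).trans (add_le_add ?_ ?_)
    · rw [s _ _ h1]; exact mul_le_mul_of_nonneg_left h31 h1
    · rw [s _ _ h2]; exact mul_le_mul_of_nonneg_left h32 h2
  have fin : (w1 + w2 + w3) * (‖A1‖ + ‖A2‖ + ‖A3‖) < (w1 + w2 + w3) * (2 * L) := by
    rcases hw with ⟨a, b⟩ | ⟨a, b⟩ | ⟨a, b⟩
    · have : ‖w2 • (A1 - A2) + w3 • (A1 - A3)‖ < w2 * L + w3 * L := by
        refine (norm_add_lt ?_).trans_le (add_le_add ?_ ?_)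
        · have : crv (w2 • (A1 - A2)) (w3 • (A1 - A3)) = w2 * w3 * crv (A1 - A2) (A1 - A3) := by
            simp [crv]; ring
          rw [this]; exact mul_ne_zero (mul_pos a b).ne' hc
        · rw [s _ _ h2]; exact mul_le_mul_of_nonneg_left h12 h2
        · rw [s _ _ h3]; exact mul_le_mul_of_nonneg_left h13 h3
      nlinarith
    · have : ‖w3 • (A2 - A3) + w1 • (A2 - A1)‖ < w3 * L + w1 * L := by
        refine (norm_add_lt ?_).trans_le (add_le_add ?_ ?_)
        · have : crv (w3 • (A2 - A3)) (w1 • (A2 - A1)) = w3 * w1 * crv (A1 - A2) (A1 - A3) := by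
            simp [crv]; ring
          rw [this]; exact mul_ne_zero (mul_pos a b).ne' hc
        · rw [s _ _ h3]; exact mul_le_mul_of_nonneg_left h23 h3
        · rw [s _ _ h1]; exact mul_le_mul_of_nonneg_left h21 h1
      nlinarith
    · have : ‖w1 • (A3 - A1) + w2 • (A3 - A2)‖ < w1 * L + w2 * L := by
        refine (norm_add_lt ?_).trans_le (add_le_add ?_ ?_)
        · have : crv (w1 • (A3 - A1)) (w2 • (A3 - A2)) = w1 * w2 * crv (A1 - A2) (A1 - A3) := by
            simp [crv]; ring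
          rw [this]; exact mul_ne_zero (mul_pos a b).ne' hc
        · rw [s _ _ h1]; exact mul_le_mul_of_nonneg_left h31 h1
        · rw [s _ _ h2]; exact mul_le_mul_of_nonneg_left h32 h2
      nlinarith
  exact lt_of_mul_lt_mul_left fin hW.le

theorem ray_end {C : Set E2} (hC : IsCompact C) {z d : E2} (hz : z ∈ interior C) (hd : d ≠ 0) :
    ∃ T : ℝ, 0 < T ∧ z + T • d ∈ C ∧ ∀ t : ℝ, z + t • d ∈ C → t ≤ T := by
  have hc : Continuous (fun t : ℝ => z + t • d) := by fun_prop
  have hemb : IsClosedEmbedding (fun t : ℝ => z + t • d) := by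
    have h1 : IsClosedEmbedding (fun t : ℝ => t • d) := isClosedEmbedding_smul_left hd
    exact (Homeomorph.addLeft z).isClosedEmbedding.comp h1
  have hK : IsCompact ((fun t : ℝ => z + t • d) ⁻¹' C) := hemb.isCompact_preimage hC
  have h0 : (0:ℝ) ∈ (fun t : ℝ => z + t • d) ⁻¹' C := by
    show z + (0:ℝ) • d ∈ C
    rw [zero_smul, add_zero]; exact interior_subset hz
  obtain ⟨T, hT, hTm⟩ := hK.exists_isMaxOn ⟨0, h0⟩ continuousOn_id
  have hmax : ∀ t : ℝ, z + t • d ∈ C → t ≤ T := fun t ht => hTm ht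
  refine ⟨T, ?_, hT, hmax⟩
  have h1 : ∀ᶠ t in 𝓝 (0:ℝ), z + t • d ∈ interior C :=
    hc.continuousAt (x := 0) |>.preimage_mem_nhds (t := interior C)
      (by simpa using isOpen_interior.mem_nhds hz)
  obtain ⟨ε, hε, h2⟩ := Metric.eventually_nhds_iff.1 h1
  have h3 := h2 (y := ε / 2) (by simp [abs_of_pos hε]; exact hε)
  have := hmax _ (interior_subset h3)
  linarith [half_pos hε]

/-- the line through two points -/
def thr (p q : E2) (h : p ≠ q) : Ln where
  a := -(q 1 - p 1)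
  b := q 0 - p 0
  c := -(q 1 - p 1) * p 0 + (q 0 - p 0) * p 1
  ne := by
    by_contra hc
    push Not at hc
    apply h
    ext i
    fin_cases i
    · simp; linarith [hc.2]
    · simp; linarith [hc.1]

theorem thr_ev (p q x : E2) (h : p ≠ q) : (thr p q h).ev x = crv (q - p) (x - p) := by
  simp [thr, Ln.ev, crv]; ring

/-- the distance between the ends of the two cuts of a piece -/
theorem pair_le {C P : Set E2} {L : ℝ} {a : ENNReal} (hC : IsBody C) (hLC : LC C L a) (hvP : volume P = a)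
    {z : E2} {m2 m3 : Ln} (hz2 : m2.ev z = 0) (hz3 : m3.ev z = 0)
    (mem : ∀ x ∈ C, 0 ≤ m3.ev x → m2.ev x ≤ 0 → x ∈ P)
    {y : E2} (hy3 : 0 < m3.ev y) (hy2 : m2.ev y < 0) (hc : 0 ≤ cr m2 m3)
    {T2 T3 : ℝ} (hT2 : 0 < T2) (hT3 : 0 < T3) (hC2 : z + T2 • m2.dir ∈ C) (hC3 : z + T3 • m3.dir ∈ C)
    (hm2 : ∀ t : ℝ, z + t • m2.dir ∈ C → t ≤ T2) (hm3 : ∀ t : ℝ, z + t • m3.dir ∈ C → t ≤ T3) :
    dist (z + T2 • m2.dir) (z + T3 • m3.dir) ≤ L := by
  by_contra hlt
  push Not at hlt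
  set a2 := z + T2 • m2.dir with ha2
  set a3 := z + T3 • m3.dir with ha3
  rcases hc.eq_or_lt with h0 | hpos
  · -- parallel lines
    have l3 : m3.ev a3 = 0 := by rw [ha3, m3.ev_add_dir, hz3]
    have l2 : m3.ev a2 = 0 := by rw [ha2, ev_dir, hz3, ← h0]; ring
    have h1 := hLC a2 hC2 a3 hC3 hlt m3 l2 l3
    have hdot : ∀ x : E2, m2.ev x * (m3.a ^ 2 + m3.b ^ 2) = (m2.a * m3.a + m2.b * m3.b) * m3.ev x := by
      intro x
      have e2 : m2.ev x = m2.a * (x 0 - z 0) + m2.b * (x 1 - z 1) := by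
        have := hz2; simp only [Ln.ev] at this ⊢; linarith
      have e3 : m3.ev x = m3.a * (x 0 - z 0) + m3.b * (x 1 - z 1) := by
        have := hz3; simp only [Ln.ev] at this ⊢; linarith
      rw [e2, e3]
      unfold cr at h0
      linear_combination (m3.a * (x 1 - z 1) - m3.b * (x 0 - z 0)) * h0
    have hp3 := m3.pos
    have hneg : m2.a * m3.a + m2.b * m3.b < 0 := by
      have h2 := hdot y
      by_contra h3
      push Not at h3
      have := mul_nonneg h3 hy3.le
      have := mul_neg_of_neg_of_pos hy2 hp3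
      linarith
    have h2 := vol_side (C := C) (Q := P) m3 (fun x hx hlx => by
      refine mem x (interior_subset hx) hlx.le ?_
      have h2 := hdot x
      have := mul_nonpos_of_nonpos_of_nonneg hneg.le hlx.le
      by_contra h3
      push Not at h3
      have := mul_pos h3 hp3
      linarith) hC.2.1
    exact absurd (h1.trans_le h2) (by rw [hvP]; exact lt_irrefl _)
  · have hne : a2 ≠ a3 := by
      rintro h
      have h1 : m3.ev a2 = m3.ev a3 := by rw [h]
      rw [ha2, ha3, ev_dir, m3.ev_add_dir, hz3] at h1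
      nlinarith [mul_pos hT2 hpos]
    set G := thr a2 a3 hne with hG
    have hGe : ∀ x, G.ev x = crv (a3 - a2) (x - a2) := fun x => thr_ev _ _ _ _
    have g2 : G.ev a2 = 0 := by rw [hGe]; simp [crv]
    have g3 : G.ev a3 = 0 := by rw [hGe]; simp [crv]; ring
    have gr3 : ∀ r : ℝ, G.ev (z + r • m3.dir) = T2 * cr m2 m3 * (T3 - r) := by
      intro r; rw [hGe, ha2, ha3]; simp [crv, Ln.dir, cr]; ring
    have gr2 : ∀ r : ℝ, G.ev (z + r • m2.dir) = T3 * cr m2 m3 * (T2 - r) := by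
      intro r; rw [hGe, ha2, ha3]; simp [crv, Ln.dir, cr]; ring
    have h1 := hLC a2 hC2 a3 hC3 hlt G.neg (by rw [G.ev_neg, g2, neg_zero]) (by rw [G.ev_neg, g3, neg_zero])
    have m3a2 : 0 < m3.ev a2 := by rw [ha2, ev_dir, hz3, zero_add]; exact mul_pos hT2 hpos
    have m2a3 : m2.ev a3 < 0 := by
      rw [ha3, ev_dir, hz2, zero_add]
      have : cr m3 m2 = - cr m2 m3 := by simp [cr]; ring
      rw [this]; nlinarith [mul_pos hT3 hpos]
    have h2 := vol_side (C := C) (Q := P) G.neg (fun x hx hlx => by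
      rw [G.ev_neg] at hlx
      refine mem x (interior_subset hx) ?_ ?_
      · by_contra h3
        push Not at h3
        have hd : 0 < m3.ev a2 - m3.ev x := by linarith
        set s := m3.ev a2 / (m3.ev a2 - m3.ev x) with hs
        set t := -m3.ev x / (m3.ev a2 - m3.ev x) with ht
        have hst : s + t = 1 := by rw [hs, ht]; field_simp; ring
        have hs0 : 0 < s := div_pos m3a2 hd
        have ht0 : 0 < t := div_pos (by linarith) hd
        have hyC : s • x + t • a2 ∈ C := hC.2.1 (interior_subset hx) hC2 hs0.le ht0.le hst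
        have hy0 : m3.ev (s • x + t • a2) = 0 := by
          rw [m3.ev_combo _ _ _ _ hst, hs, ht]; field_simp; ring
        obtain ⟨r, hr⟩ := m3.exists_dir hz3 hy0
        have hg : G.ev (s • x + t • a2) < 0 := by
          rw [G.ev_combo _ _ _ _ hst, g2, mul_zero, add_zero]
          nlinarith
        rw [hr] at hyC hg
        rw [gr3] at hg
        have := hm3 r hyC
        have := mul_nonneg (mul_pos hT2 hpos).le (sub_nonneg.2 this)
        linarith
      · by_contra h3
        push Not at h3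
        have hd : 0 < m2.ev x - m2.ev a3 := by linarith
        set s := -m2.ev a3 / (m2.ev x - m2.ev a3) with hs
        set t := m2.ev x / (m2.ev x - m2.ev a3) with ht
        have hst : s + t = 1 := by rw [hs, ht]; field_simp; ring
        have hs0 : 0 < s := div_pos (by linarith) hd
        have ht0 : 0 < t := div_pos h3 hd
        have hyC : s • x + t • a3 ∈ C := hC.2.1 (interior_subset hx) hC3 hs0.le ht0.le hst
        have hy0 : m2.ev (s • x + t • a3) = 0 := by
          rw [m2.ev_combo _ _ _ _ hst, hs, ht]; field_simp; ring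
        obtain ⟨r, hr⟩ := m2.exists_dir hz2 hy0
        have hg : G.ev (s • x + t • a3) < 0 := by
          rw [G.ev_combo _ _ _ _ hst, g3, mul_zero, add_zero]
          nlinarith
        rw [hr] at hyC hg
        rw [gr2] at hg
        have := hm2 r hyC
        have := mul_nonneg (mul_pos hT3 hpos).le (sub_nonneg.2 this)
        linarith) hC.2.1
    exact absurd (h1.trans_le h2) (by rw [hvP]; exact lt_irrefl _)

/-- if no vector is positive for all three functionals, the cross products have weakly the same sign -/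
theorem sign_lemma {m1 m2 m3 : Ln}
    (hU : ∀ p q : ℝ, ¬ (0 < m1.a * p + m1.b * q ∧ 0 < m2.a * p + m2.b * q ∧ 0 < m3.a * p + m3.b * q)) :
    0 ≤ cr m1 m2 * cr m2 m3 := by
  by_contra h
  push Not at h
  rcases mul_neg_iff.1 h with ⟨h1, h2⟩ | ⟨h1, h2⟩
  · -- v = d1 - M d2
    set M := (1 + |cr m3 m1|) / (- cr m2 m3) with hM
    have hM0 : 0 < M := div_pos (by positivity) (by linarith)
    have hMe : M * (- cr m2 m3) = 1 + |cr m3 m1| := div_mul_cancel₀ _ (by linarith : - cr m2 m3 ≠ 0)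
    refine hU (-m1.b + M * m2.b) (m1.a - M * m2.a) ⟨?_, ?_, ?_⟩
    · have : m1.a * (-m1.b + M * m2.b) + m1.b * (m1.a - M * m2.a) = M * cr m1 m2 := by simp only [cr]; ring
      rw [this]; exact mul_pos hM0 h1
    · have : m2.a * (-m1.b + M * m2.b) + m2.b * (m1.a - M * m2.a) = cr m1 m2 := by simp only [cr]; ring
      rw [this]; exact h1
    · have : m3.a * (-m1.b + M * m2.b) + m3.b * (m1.a - M * m2.a) = M * (- cr m2 m3) - cr m3 m1 := by
        simp only [cr]; ring
      rw [this, hMe]; linarith [le_abs_self (cr m3 m1)]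
  · set M := (1 + |cr m3 m1|) / (cr m2 m3) with hM
    have hM0 : 0 < M := div_pos (by positivity) h2
    have hMe : M * (cr m2 m3) = 1 + |cr m3 m1| := div_mul_cancel₀ _ h2.ne'
    refine hU (m1.b - M * m2.b) (-m1.a + M * m2.a) ⟨?_, ?_, ?_⟩
    · have : m1.a * (m1.b - M * m2.b) + m1.b * (-m1.a + M * m2.a) = M * (- cr m1 m2) := by simp only [cr]; ring
      rw [this]; exact mul_pos hM0 (by linarith)
    · have : m2.a * (m1.b - M * m2.b) + m2.b * (-m1.a + M * m2.a) = - cr m1 m2 := by simp only [cr]; ring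
      rw [this]; linarith
    · have : m3.a * (m1.b - M * m2.b) + m3.b * (-m1.a + M * m2.a) = M * (cr m2 m3) + cr m3 m1 := by
        simp only [cr]; ring
      rw [this, hMe]; linarith [neg_abs_le (cr m3 m1)]

end Q144.GE
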