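import Pool.Agent.Q144.GEc

set_option autoImplicit false

open MeasureTheory Metric Set Filter Topology

namespace Q144.GE

theorem dot_neg {z y : E2} {m2 m3 : Ln} (hz2 : m2.ev z = 0) (hz3 : m3.ev z = 0) (h0 : cr m2 m3 = 0)
    (hy3 : 0 < m3.ev y) (hy2 : m2.ev y < 0) : m2.a * m3.a + m2.b * m3.b < 0 := by
  have hdot : m2.ev y * (m3.a ^ 2 + m3.b ^ 2) = (m2.a * m3.a + m2.b * m3.b) * m3.ev y := by
    have e2 : m2.ev y = m2.a * (y 0 - z 0) + m2.b * (y 1 - z 1) := by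
      have := hz2; simp only [Ln.ev] at this ⊢; linarith
    have e3 : m3.ev y = m3.a * (y 0 - z 0) + m3.b * (y 1 - z 1) := by
      have := hz3; simp only [Ln.ev] at this ⊢; linarith
    rw [e2, e3]
    unfold cr at h0
    linear_combination (-(m3.a * (y 1 - z 1) - m3.b * (y 0 - z 0))) * h0
  have hp3 := m3.pos
  by_contra h3
  push Not at h3
  have := mul_nonneg h3 hy3.le
  have := mul_neg_of_neg_of_pos hy2 hp3
  linarith

theorem two_zero {m1 m2 m3 : Ln} (h1 : cr m1 m2 = 0) (h2 : cr m2 m3 = 0) : cr m3 m1 = 0 := by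
  unfold cr at *
  rcases m2.ne with h | h
  · have : (m3.a * m1.b - m3.b * m1.a) * m2.a = 0 := by linear_combination (-m3.a) * h1 - m1.a * h2
    exact (mul_eq_zero.1 this).resolve_right h
  · have : (m3.a * m1.b - m3.b * m1.a) * m2.b = 0 := by linear_combination (-m3.b) * h1 - m1.b * h2
    exact (mul_eq_zero.1 this).resolve_right h

theorem cut_le {C A B : Set E2} (hA : IsBody A) (hB : IsBody B) {m k1 k2 : Ln} {z : E2}
    (hm : ∀ x ∈ A ∩ B, m.ev x = 0) (hz : m.ev z = 0) (hz1 : k1.ev z = 0) (hz2 : k2.ev z = 0)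
    (hk1 : ∀ x ∈ A ∩ B, 0 ≤ k1.ev x) (hk2 : ∀ x ∈ A ∩ B, k2.ev x ≤ 0)
    (hc1 : 0 ≤ cr m k1) (hc2 : 0 ≤ cr k2 m) (hc : 0 < cr m k1 ∨ 0 < cr k2 m)
    {T : ℝ} (hsub : A ∩ B ⊆ C) (hT : ∀ t : ℝ, z + t • m.dir ∈ C → t ≤ T) :
    Measure.hausdorffMeasure 1 (A ∩ B : Set E2) ≤ ENNReal.ofReal ‖T • m.dir‖ := by
  have par : ∀ x ∈ A ∩ B, ∃ t : ℝ, 0 ≤ t ∧ t ≤ T ∧ x = z + t • m.dir := by
    intro x hx
    obtain ⟨t, ht⟩ := m.exists_dir hz (hm x hx)
    refine ⟨t, ?_, hT t (ht ▸ hsub hx), ht⟩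
    have h1 := hk1 x hx
    have h2 := hk2 x hx
    rw [ht, ev_dir] at h1 h2
    rw [hz1, zero_add] at h1
    rw [hz2, zero_add] at h2
    have e : cr m k2 = - cr k2 m := by simp only [cr]; ring
    rw [e] at h2
    by_contra hneg
    push Not at hneg
    rcases hc with h | h
    · nlinarith
    · nlinarith
  refine hm_le (hA.1.inter hB.1) m hm ?_
  intro p hp q hq
  obtain ⟨s, hs0, hs1, hs⟩ := par p hp
  obtain ⟨t, ht0, ht1, ht⟩ := par q hq
  have hT0 : 0 ≤ T := hs0.trans hs1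
  rw [hs, ht, dist_eq_norm, add_sub_add_left_eq_sub, ← sub_smul, norm_smul, norm_smul, Real.norm_of_nonneg hT0]
  refine mul_le_mul_of_nonneg_right ?_ (norm_nonneg _)
  rw [Real.norm_eq_abs, abs_le]
  constructor <;> linarith

theorem Three.cross_aux {C P Q R : Set E2} (T : Three C P Q R) {L : ℝ} {a : ENNReal} (hLC : LC C L a)
    (hvP : volume P = a) (hvQ : volume Q = a) (hvR : volume R = a)
    {z : E2} (hz : z ∈ interior C) (hzP : z ∈ P) (hzQ : z ∈ Q) (hzR : z ∈ R)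
    {m1 m2 m3 : Ln} (h11 : ∀ x ∈ Q, 0 ≤ m1.ev x) (h12 : ∀ x ∈ R, m1.ev x ≤ 0)
    (h21 : ∀ x ∈ R, 0 ≤ m2.ev x) (h22 : ∀ x ∈ P, m2.ev x ≤ 0)
    (h31 : ∀ x ∈ P, 0 ≤ m3.ev x) (h32 : ∀ x ∈ Q, m3.ev x ≤ 0)
    (c12 : 0 ≤ cr m1 m2) (c23 : 0 ≤ cr m2 m3) (c31 : 0 ≤ cr m3 m1) :
    Measure.hausdorffMeasure 1 (P ∩ Q : Set E2) + Measure.hausdorffMeasure 1 (Q ∩ R : Set E2) +
      Measure.hausdorffMeasure 1 (R ∩ P : Set E2) < ENNReal.ofReal L + ENNReal.ofReal L := by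
  have z1 : m1.ev z = 0 := le_antisymm (h12 z hzR) (h11 z hzQ)
  have z2 : m2.ev z = 0 := le_antisymm (h22 z hzP) (h21 z hzR)
  have z3 : m3.ev z = 0 := le_antisymm (h32 z hzQ) (h31 z hzP)
  have memP : ∀ x ∈ C, 0 ≤ m3.ev x → m2.ev x ≤ 0 → x ∈ P := fun x hx ha hb =>
    T.mem (l := m3) (m := m2.neg) h31 h32 (fun w hw => by rw [Ln.ev_neg]; linarith [h22 w hw])
      (fun w hw => by rw [Ln.ev_neg]; linarith [h21 w hw]) hx ha (by rw [Ln.ev_neg]; linarith)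
  have memQ : ∀ x ∈ C, 0 ≤ m1.ev x → m3.ev x ≤ 0 → x ∈ Q := fun x hx ha hb =>
    T.rot.mem (l := m1) (m := m3.neg) h11 h12 (fun w hw => by rw [Ln.ev_neg]; linarith [h32 w hw])
      (fun w hw => by rw [Ln.ev_neg]; linarith [h31 w hw]) hx ha (by rw [Ln.ev_neg]; linarith)
  have memR : ∀ x ∈ C, 0 ≤ m2.ev x → m1.ev x ≤ 0 → x ∈ R := fun x hx ha hb =>
    T.rot.rot.mem (l := m2) (m := m1.neg) h21 h22 (fun w hw => by rw [Ln.ev_neg]; linarith [h12 w hw])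
      (fun w hw => by rw [Ln.ev_neg]; linarith [h11 w hw]) hx ha (by rw [Ln.ev_neg]; linarith)
  obtain ⟨yP, hyP⟩ := T.hP.2.2
  obtain ⟨yQ, hyQ⟩ := T.hQ.2.2
  obtain ⟨yR, hyR⟩ := T.hR.2.2
  have p3 : 0 < m3.ev yP := m3.ev_pos_of_interior h31 hyP
  have p2 : m2.ev yP < 0 := by
    have := m2.neg.ev_pos_of_interior (P := P) (fun w hw => by rw [Ln.ev_neg]; linarith [h22 w hw]) hyP
    rw [Ln.ev_neg] at this; linarith
  have q1 : 0 < m1.ev yQ := m1.ev_pos_of_interior h11 hyQ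
  have q3 : m3.ev yQ < 0 := by
    have := m3.neg.ev_pos_of_interior (P := Q) (fun w hw => by rw [Ln.ev_neg]; linarith [h32 w hw]) hyQ
    rw [Ln.ev_neg] at this; linarith
  have r2 : 0 < m2.ev yR := m2.ev_pos_of_interior h21 hyR
  have r1 : m1.ev yR < 0 := by
    have := m1.neg.ev_pos_of_interior (P := R) (fun w hw => by rw [Ln.ev_neg]; linarith [h12 w hw]) hyR
    rw [Ln.ev_neg] at this; linarith
  have notall : ¬ (cr m1 m2 = 0 ∧ cr m2 m3 = 0 ∧ cr m3 m1 = 0) := by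
    rintro ⟨e12, e23, e31⟩
    have d23 := dot_neg z2 z3 e23 p3 p2
    have d31 := dot_neg z3 z1 e31 q1 q3
    have d12 := dot_neg z1 z2 e12 r2 r1
    have := m1.pos
    have key : (m1.a * m2.a + m1.b * m2.b) * (m3.a * m1.a + m3.b * m1.b) =
        (m1.a ^ 2 + m1.b ^ 2) * (m2.a * m3.a + m2.b * m3.b) := by
      unfold cr at e12 e31
      linear_combination (m3.a * m1.b - m3.b * m1.a) * e12
    nlinarith [mul_pos_of_neg_of_neg d12 d31, mul_neg_of_pos_of_neg this d23]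
  have two : (0 < cr m3 m1 ∧ 0 < cr m1 m2) ∨ (0 < cr m1 m2 ∧ 0 < cr m2 m3) ∨ (0 < cr m2 m3 ∧ 0 < cr m3 m1) := by
    rcases c12.eq_or_lt with e12 | e12
    · rcases c23.eq_or_lt with e23 | e23
      · exact absurd ⟨e12.symm, e23.symm, two_zero e12.symm e23.symm⟩ notall
      · rcases c31.eq_or_lt with e31 | e31
        · exact absurd ⟨e12.symm, two_zero e31.symm e12.symm, e31.symm⟩ notall
        · exact Or.inr (Or.inr ⟨e23, e31⟩)
    · rcases c23.eq_or_lt with e23 | e23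
      · rcases c31.eq_or_lt with e31 | e31
        · exact absurd ⟨two_zero e23.symm e31.symm, e23.symm, e31.symm⟩ notall
        · exact Or.inl ⟨e31, e12⟩
      · exact Or.inr (Or.inl ⟨e12, e23⟩)
  obtain ⟨T1, hT1, hC1, hm1⟩ := ray_end T.hC.1 hz m1.dir_ne
  obtain ⟨T2, hT2, hC2, hm2⟩ := ray_end T.hC.1 hz m2.dir_ne
  obtain ⟨T3, hT3, hC3, hm3⟩ := ray_end T.hC.1 hz m3.dir_ne
  have D23 := pair_le T.hC hLC hvP z2 z3 memP p3 p2 c23 hT2 hT3 hC2 hC3 hm2 hm3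
  have D31 := pair_le T.hC hLC hvQ z3 z1 memQ q1 q3 c31 hT3 hT1 hC3 hC1 hm3 hm1
  have D12 := pair_le T.hC hLC hvR z1 z2 memR r2 r1 c12 hT1 hT2 hC1 hC2 hm1 hm2
  rw [dist_eq_norm, add_sub_add_left_eq_sub] at D12 D23 D31
  have F := fermat (A1 := T1 • m1.dir) (A2 := T2 • m2.dir) (A3 := T3 • m3.dir) (w1 := cr m2 m3 / T1)
    (w2 := cr m3 m1 / T2) (w3 := cr m1 m2 / T3) (L := L)
    (by
      rw [smul_smul, smul_smul, smul_smul, div_mul_cancel₀ _ hT1.ne', div_mul_cancel₀ _ hT2.ne', div_mul_cancel₀ _ hT3.ne']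
      ext i
      fin_cases i
      · simp [cr, Ln.dir]; ring
      · simp [cr, Ln.dir]; ring)
    (div_nonneg c23 hT1.le) (div_nonneg c31 hT2.le) (div_nonneg c12 hT3.le)
    (by
      rcases two with ⟨u, v⟩ | ⟨u, v⟩ | ⟨u, v⟩
      · exact Or.inl ⟨div_pos u hT2, div_pos v hT3⟩
      · exact Or.inr (Or.inl ⟨div_pos u hT3, div_pos v hT1⟩)
      · exact Or.inr (Or.inr ⟨div_pos u hT1, div_pos v hT2⟩))
    (by
      have e : crv (T1 • m1.dir - T2 • m2.dir) (T1 • m1.dir - T3 • m3.dir) =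
          T1 * T2 * cr m1 m2 + T2 * T3 * cr m2 m3 + T3 * T1 * cr m3 m1 := by
        simp [crv, cr, Ln.dir]; ring
      rw [e]
      have t12 := mul_pos hT1 hT2
      have t23 := mul_pos hT2 hT3
      have t31 := mul_pos hT3 hT1
      have n12 := mul_nonneg t12.le c12
      have n23 := mul_nonneg t23.le c23
      have n31 := mul_nonneg t31.le c31
      rcases two with ⟨u, v⟩ | ⟨u, v⟩ | ⟨u, v⟩
      · have := mul_pos t31 u; linarith
      · have := mul_pos t12 u; linarith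
      · have := mul_pos t23 u; linarith)
    D12 D23 D31
  -- the cuts
  have B3 : Measure.hausdorffMeasure 1 (P ∩ Q : Set E2) ≤ ENNReal.ofReal ‖T3 • m3.dir‖ :=
    cut_le (C := C) T.hP T.hQ (m := m3) (k1 := m1) (k2 := m2) (fun x hx => le_antisymm (h32 x hx.2) (h31 x hx.1)) z3 z1 z2
      (fun x hx => h11 x hx.2) (fun x hx => h22 x hx.1) c31 c23
      (by rcases two with ⟨u, v⟩ | ⟨u, v⟩ | ⟨u, v⟩ <;> [exact Or.inl u; exact Or.inr v; exact Or.inl v])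
      (fun x hx => T.subP hx.1) hm3
  have B1 : Measure.hausdorffMeasure 1 (Q ∩ R : Set E2) ≤ ENNReal.ofReal ‖T1 • m1.dir‖ :=
    cut_le (C := C) T.hQ T.hR (m := m1) (k1 := m2) (k2 := m3) (fun x hx => le_antisymm (h12 x hx.2) (h11 x hx.1)) z1 z2 z3
      (fun x hx => h21 x hx.2) (fun x hx => h32 x hx.1) c12 c31
      (by rcases two with ⟨u, v⟩ | ⟨u, v⟩ | ⟨u, v⟩ <;> [exact Or.inl v; exact Or.inl u; exact Or.inr v])
      (fun x hx => T.subQ hx.1) hm1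
  have B2 : Measure.hausdorffMeasure 1 (R ∩ P : Set E2) ≤ ENNReal.ofReal ‖T2 • m2.dir‖ :=
    cut_le (C := C) T.hR T.hP (m := m2) (k1 := m3) (k2 := m1) (fun x hx => le_antisymm (h22 x hx.2) (h21 x hx.1)) z2 z3 z1
      (fun x hx => h31 x hx.2) (fun x hx => h12 x hx.1) c23 c12
      (by rcases two with ⟨u, v⟩ | ⟨u, v⟩ | ⟨u, v⟩ <;> [exact Or.inr v; exact Or.inl v; exact Or.inl u])
      (fun x hx => T.subR hx.1) hm2
  have hL : 0 ≤ L := (norm_nonneg _).trans D12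
  calc _ ≤ ENNReal.ofReal ‖T3 • m3.dir‖ + ENNReal.ofReal ‖T1 • m1.dir‖ + ENNReal.ofReal ‖T2 • m2.dir‖ :=
        add_le_add (add_le_add B3 B1) B2
    _ = ENNReal.ofReal (‖T3 • m3.dir‖ + ‖T1 • m1.dir‖ + ‖T2 • m2.dir‖) := by
        rw [ENNReal.ofReal_add (by positivity) (norm_nonneg _), ENNReal.ofReal_add (norm_nonneg _) (norm_nonneg _)]
    _ < ENNReal.ofReal (2 * L) := by
        have h0 : 0 ≤ ‖T3 • m3.dir‖ + ‖T1 • m1.dir‖ + ‖T2 • m2.dir‖ := by positivity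
        have h1 : ‖T3 • m3.dir‖ + ‖T1 • m1.dir‖ + ‖T2 • m2.dir‖ < 2 * L := by linarith
        exact (ENNReal.ofReal_lt_ofReal_iff (h0.trans_lt h1)).2 h1
    _ = _ := by rw [two_mul, ENNReal.ofReal_add hL hL]

/-- case X: a point of the interior belongs to all three pieces -/
theorem Three.caseX {C P Q R : Set E2} (T : Three C P Q R) {L : ℝ} {a : ENNReal} (hLC : LC C L a)
    (hvP : volume P = a) (hvQ : volume Q = a) (hvR : volume R = a)
    {z : E2} (hz : z ∈ interior C) (hzP : z ∈ P) (hzQ : z ∈ Q) (hzR : z ∈ R) :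
    Measure.hausdorffMeasure 1 (P ∩ Q : Set E2) + Measure.hausdorffMeasure 1 (Q ∩ R : Set E2) +
      Measure.hausdorffMeasure 1 (R ∩ P : Set E2) < ENNReal.ofReal L + ENNReal.ofReal L := by
  obtain ⟨m1, h11, h12⟩ := exists_sep T.hQ T.hR T.qr
  obtain ⟨m2, h21, h22⟩ := exists_sep T.hR T.hP T.rp
  obtain ⟨m3, h31, h32⟩ := exists_sep T.hP T.hQ T.pq
  have z1 : m1.ev z = 0 := le_antisymm (h12 z hzR) (h11 z hzQ)
  have z2 : m2.ev z = 0 := le_antisymm (h22 z hzP) (h21 z hzR)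
  have z3 : m3.ev z = 0 := le_antisymm (h32 z hzQ) (h31 z hzP)
  have hU : ∀ p q : ℝ, ¬ (0 < m1.a * p + m1.b * q ∧ 0 < m2.a * p + m2.b * q ∧ 0 < m3.a * p + m3.b * q) := by
    rintro p q ⟨e1, e2, e3⟩
    set v : E2 := !₂[p, q] with hv
    have v0 : v 0 = p := by simp [hv]
    have v1 : v 1 = q := by simp [hv]
    have hc : Continuous (fun t : ℝ => z + t • v) := by fun_prop
    have h1 : ∀ᶠ t in 𝓝 (0:ℝ), z + t • v ∈ interior C :=
      hc.continuousAt (x := 0) |>.preimage_mem_nhds (t := interior C)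
        (by simpa using isOpen_interior.mem_nhds hz)
    obtain ⟨ε, hε, h2⟩ := Metric.eventually_nhds_iff.1 h1
    have h3 := h2 (y := ε / 2) (by simp [abs_of_pos hε]; exact hε)
    have ev : ∀ m : Ln, m.ev z = 0 → m.ev (z + (ε / 2) • v) = (ε / 2) * (m.a * p + m.b * q) := by
      intro m hm
      rw [m.ev_add, hm, zero_add]
      simp only [PiLp.smul_apply, smul_eq_mul, v0, v1]; ring
    have hh := half_pos hε
    rcases (T.cov _).1 (interior_subset h3) with h | h | h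
    · have := h22 _ h
      rw [ev m2 z2] at this
      linarith [mul_pos hh e2]
    · have := h32 _ h
      rw [ev m3 z3] at this
      linarith [mul_pos hh e3]
    · have := h12 _ h
      rw [ev m1 z1] at this
      linarith [mul_pos hh e1]
  have s1 := sign_lemma hU
  have s2 := sign_lemma (m1 := m2) (m2 := m3) (m3 := m1) (fun p q h => hU p q ⟨h.2.2, h.1, h.2.1⟩)
  have s3 := sign_lemma (m1 := m3) (m2 := m1) (m3 := m2) (fun p q h => hU p q ⟨h.2.1, h.2.2, h.1⟩)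
  by_cases hall : 0 ≤ cr m1 m2 ∧ 0 ≤ cr m2 m3 ∧ 0 ≤ cr m3 m1
  · exact T.cross_aux hLC hvP hvQ hvR hz hzP hzQ hzR h11 h12 h21 h22 h31 h32 hall.1 hall.2.1 hall.2.2
  · have hneg : cr m1 m2 ≤ 0 ∧ cr m2 m3 ≤ 0 ∧ cr m3 m1 ≤ 0 := by
      by_contra hc
      apply hall
      refine ⟨?_, ?_, ?_⟩ <;> · by_contra hx; push Not at hx; apply hc; refine ⟨?_, ?_, ?_⟩ <;> nlinarith
    have e1 : cr m1.neg m3.neg = - cr m3 m1 := by simp only [cr, Ln.neg]; ring
    have e2 : cr m3.neg m2.neg = - cr m2 m3 := by simp only [cr, Ln.neg]; ring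
    have e3 : cr m2.neg m1.neg = - cr m1 m2 := by simp only [cr, Ln.neg]; ring
    have := T.swap.cross_aux hLC hvP hvR hvQ hz hzP hzR hzQ (m1 := m1.neg) (m2 := m3.neg) (m3 := m2.neg)
      (fun w hw => by rw [Ln.ev_neg]; linarith [h12 w hw]) (fun w hw => by rw [Ln.ev_neg]; linarith [h11 w hw])
      (fun w hw => by rw [Ln.ev_neg]; linarith [h32 w hw]) (fun w hw => by rw [Ln.ev_neg]; linarith [h31 w hw])
      (fun w hw => by rw [Ln.ev_neg]; linarith [h22 w hw]) (fun w hw => by rw [Ln.ev_neg]; linarith [h21 w hw])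
      (by rw [e1]; linarith [hneg.2.2]) (by rw [e2]; linarith [hneg.2.1]) (by rw [e3]; linarith [hneg.1])
    rw [inter_comm P R, inter_comm R Q, inter_comm Q P] at this
    calc _ = _ := by abel
      _ < _ := this

/-- all equipartitions -/
theorem Three.cuts_le {C P Q R : Set E2} (T : Three C P Q R) {L : ℝ} {a : ENNReal} (hLC : LC C L a)
    (hvP : volume P = a) (hvQ : volume Q = a) (hvR : volume R = a) :
    Measure.hausdorffMeasure 1 (P ∩ Q : Set E2) + Measure.hausdorffMeasure 1 (Q ∩ R : Set E2) +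
      Measure.hausdorffMeasure 1 (R ∩ P : Set E2) ≤ ENNReal.ofReal L + ENNReal.ofReal L := by
  by_cases h1 : (P ∩ Q).Subsingleton
  · have := T.rot.rot.caseN hLC hvP hvQ h1
    calc _ = _ := by abel
      _ ≤ _ := this
  by_cases h2 : (Q ∩ R).Subsingleton
  · exact T.caseN hLC hvQ hvR h2
  by_cases h3 : (R ∩ P).Subsingleton
  · have := T.rot.caseN hLC hvR hvP h3
    calc _ = _ := by abel
      _ ≤ _ := this
  obtain ⟨z, hz, hzP, hzQ, hzR⟩ := T.triple h1 h2 h3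
  exact (T.caseX hLC hvP hvQ hvR hz hzP hzQ hzR).le

end Q144.GE
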