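import Pool.Agent.Q144.GEd

set_option autoImplicit false

open MeasureTheory Metric Set Filter Topology
namespace Q144.GE

theorem vol_trap {a b m k n j : ℝ} (hab : a ≤ b) (ha : m * a + k ≤ n * a + j) (hb : m * b + k ≤ n * b + j) :
    volume {x : E2 | a ≤ x 0 ∧ x 0 ≤ b ∧ m * x 0 + k ≤ x 1 ∧ x 1 ≤ n * x 0 + j} =
      ENNReal.ofReal ((b - a) * ((n - m) * (a + b) / 2 + (j - k))) := by
  have mp := (volume_preserving_finTwoArrow ℝ).comp (PiLp.volume_preserving_ofLp (Fin 2))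
  set S : Set (ℝ × ℝ) := {p | a ≤ p.1 ∧ p.1 ≤ b ∧ m * p.1 + k ≤ p.2 ∧ p.2 ≤ n * p.1 + j} with hS
  have hSc : IsClosed S := by
    rw [hS]
    refine (isClosed_le continuous_const continuous_fst).inter ((isClosed_le continuous_fst continuous_const).inter
      ((isClosed_le ?_ continuous_snd).inter (isClosed_le continuous_snd ?_)))
    · fun_prop
    · fun_prop
  have h1 : {x : E2 | a ≤ x 0 ∧ x 0 ≤ b ∧ m * x 0 + k ≤ x 1 ∧ x 1 ≤ n * x 0 + j} =
      ((MeasurableEquiv.finTwoArrow (α := ℝ)) ∘ (@WithLp.ofLp 2 (Fin 2 → ℝ))) ⁻¹' S := by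
    ext x; rfl
  rw [h1, mp.measure_preimage hSc.measurableSet.nullMeasurableSet]
  have hline : ∀ x : ℝ, a ≤ x → x ≤ b → m * x + k ≤ n * x + j := by
    intro x h1 h2
    rcases hab.eq_or_lt with h | h
    · have : x = a := by linarith
      rw [this]; exact ha
    · have e1 := mul_le_mul_of_nonneg_left ha (sub_nonneg.2 h2)
      have e2 := mul_le_mul_of_nonneg_left hb (sub_nonneg.2 h1)
      have e3 : 0 < b - a := by linarith
      by_contra hc
      push Not at hc
      nlinarith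
  rw [Measure.volume_eq_prod, Measure.prod_apply hSc.measurableSet]
  have h2 : ∀ x : ℝ, volume (Prod.mk x ⁻¹' S) = (Icc a b).indicator (fun x => ENNReal.ofReal ((n - m) * x + (j - k))) x := by
    intro x
    by_cases hx : x ∈ Icc a b
    · rw [indicator_of_mem hx]
      have : Prod.mk x ⁻¹' S = Icc (m * x + k) (n * x + j) := by
        ext y; simp only [hS, mem_preimage, mem_ofPred_eq, mem_Icc]
        exact ⟨fun h => h.2.2, fun h => ⟨hx.1, hx.2, h⟩⟩
      rw [this, Real.volume_Icc]; congr 1; ring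
    · rw [indicator_of_notMem hx]
      have : Prod.mk x ⁻¹' S = ∅ := by
        ext y; simp only [hS, mem_preimage, mem_ofPred_eq, mem_empty_iff_false, iff_false]
        exact fun h => hx ⟨h.1, h.2.1⟩
      rw [this, measure_empty]
  simp_rw [h2]
  rw [lintegral_indicator measurableSet_Icc, ← ofReal_integral_eq_lintegral_ofReal]
  · congr 1
    rw [integral_Icc_eq_integral_Ioc, ← intervalIntegral.integral_of_le hab]
    rw [intervalIntegral.integral_add (by apply Continuous.intervalIntegrable; fun_prop) (by apply Continuous.intervalIntegrable; fun_prop)]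
    rw [intervalIntegral.integral_const_mul, integral_id, intervalIntegral.integral_const, smul_eq_mul]
    ring
  · exact (Continuous.integrableOn_Icc (by fun_prop))
  · refine (ae_restrict_iff' measurableSet_Icc).2 (Eventually.of_forall fun x hx => ?_)
    have := hline x hx.1 hx.2
    show (0:ℝ) ≤ _
    linarith

/-- the pentagon -/
def Cg : Set E2 := {x | 0 ≤ x 0 ∧ x 0 ≤ 6 ∧ 0 ≤ x 1 ∧ x 1 ≤ 2 + x 0 / 2 ∧ x 1 ≤ 4 - x 0 / 6}

theorem vol_split {K : Set E2} (g : Ln) :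
    volume K = volume (K ∩ {x | 0 ≤ g.ev x}) + volume (K ∩ {x | g.ev x ≤ 0}) := by
  have hm : MeasurableSet {x : E2 | 0 ≤ g.ev x} := g.isClosed_nonneg.measurableSet
  rw [← measure_inter_add_sdiff K hm]
  congr 1
  apply le_antisymm
  · apply measure_mono
    rintro x ⟨h1, h2⟩
    have h3 : ¬ (0 ≤ g.ev x) := h2
    refine ⟨h1, ?_⟩
    show g.ev x ≤ 0
    exact (not_le.1 h3).le
  · have hsub : K ∩ {x | g.ev x ≤ 0} ⊆ (K \ {x | 0 ≤ g.ev x}) ∪ {x | g.ev x = 0} := by
      rintro x ⟨h1, h2⟩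
      rcases eq_or_lt_of_le (show g.ev x ≤ 0 from h2) with h | h
      · exact Or.inr h
      · exact Or.inl ⟨h1, not_le.2 h⟩
    calc _ ≤ _ := measure_mono hsub
      _ ≤ _ := measure_union_le _ _
      _ = _ := by rw [g.vol_line, add_zero]

theorem closed_Cg : IsClosed Cg := by
  have h0 : Continuous (fun x : E2 => x 0) := by fun_prop
  have h1 : Continuous (fun x : E2 => x 1) := by fun_prop
  exact (isClosed_le continuous_const h0).inter ((isClosed_le h0 continuous_const).inter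
    ((isClosed_le continuous_const h1).inter ((isClosed_le h1 (by fun_prop)).inter (isClosed_le h1 (by fun_prop)))))

theorem convex_Cg : Convex ℝ Cg := by
  rintro x ⟨a1, a2, a3, a4, a5⟩ y ⟨b1, b2, b3, b4, b5⟩ s t hs ht hst
  have e0 : (s • x + t • y) 0 = s * x 0 + t * y 0 := by simp
  have e1 : (s • x + t • y) 1 = s * x 1 + t * y 1 := by simp
  show 0 ≤ (s • x + t • y) 0 ∧ (s • x + t • y) 0 ≤ 6 ∧ 0 ≤ (s • x + t • y) 1 ∧ (s • x + t • y) 1 ≤ 2 + (s • x + t • y) 0 / 2 ∧ (s • x + t • y) 1 ≤ 4 - (s • x + t • y) 0 / 6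
  rw [e0, e1]
  have t1 : t = 1 - s := by linarith
  subst t1
  refine ⟨by nlinarith, by nlinarith, by nlinarith, by nlinarith, by nlinarith⟩

theorem dist_sq (p q : E2) : dist p q ^ 2 = (q 0 - p 0) ^ 2 + (q 1 - p 1) ^ 2 := by
  rw [EuclideanSpace.dist_eq, Real.sq_sqrt (by positivity), Fin.sum_univ_two, Real.dist_eq, Real.dist_eq, sq_abs, sq_abs]
  ring

theorem bound_Cg {p q : E2} (hp : p ∈ Cg) (hq : q ∈ Cg) : dist p q ≤ 10 := by
  obtain ⟨a1, a2, a3, a4, a5⟩ := hp
  obtain ⟨b1, b2, b3, b4, b5⟩ := hq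
  have := dist_sq p q
  have h1 : (q 0 - p 0) ^ 2 ≤ 36 := by nlinarith
  have h2 : (q 1 - p 1) ^ 2 ≤ 16 := by nlinarith
  nlinarith [dist_nonneg (x := p) (y := q)]

theorem compact_Cg : IsCompact Cg := by
  refine Metric.isCompact_of_isClosed_isBounded closed_Cg ?_
  rw [Metric.isBounded_iff]
  exact ⟨10, fun p hp q hq => bound_Cg hp hq⟩

theorem interior_Cg : (interior Cg).Nonempty := by
  refine ⟨!₂[3, 1], ?_⟩
  have h0 : Continuous (fun x : E2 => x 0) := by fun_prop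
  have h1 : Continuous (fun x : E2 => x 1) := by fun_prop
  have ho : IsOpen {x : E2 | 0 < x 0 ∧ x 0 < 6 ∧ 0 < x 1 ∧ x 1 < 2 + x 0 / 2 ∧ x 1 < 4 - x 0 / 6} :=
    (isOpen_lt continuous_const h0).inter ((isOpen_lt h0 continuous_const).inter
      ((isOpen_lt continuous_const h1).inter ((isOpen_lt h1 (by fun_prop)).inter (isOpen_lt h1 (by fun_prop)))))
  refine mem_interior.2 ⟨_, ?_, ho, ?_⟩
  · rintro x ⟨a, b, c, d, e⟩
    exact ⟨a.le, b.le, c.le, d.le, e.le⟩
  · refine ⟨?_, ?_, ?_, ?_, ?_⟩ <;> simp <;> norm_num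

theorem body_Cg : IsBody Cg := ⟨compact_Cg, convex_Cg, interior_Cg⟩

/-- the real inequalities behind the long chord property -/
theorem chord_facts {a s y0 y1 : ℝ} (ha : 0 ≤ a) (hs : 0 ≤ s) (hd0 : 0 < 6 - (a + s)) (h0 : 0 ≤ y0) (h1 : 0 ≤ y1)
    (h2 : y0 ≤ 2 + a / 2) (h3 : y0 ≤ 4 - a / 6) (h4 : y1 ≤ 2 + (6 - s) / 2) (h5 : y1 ≤ 4 - (6 - s) / 6)
    (hl : 40 < (6 - (a + s)) ^ 2 + (y1 - y0) ^ 2) :
    a + s < 3/4 ∧ 2 < y1 - y0 ∧ 12 < (6 - (a + s)) * (y1 - y0) ∧ 12 + 2 * s < (6 - s) * (y1 - y0) := by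
  have e0 : y0 ≤ 7/2 := by linarith
  have e1 : y1 ≤ 7/2 := by linarith
  have e2 : (y1 - y0) ^ 2 ≤ 49/4 := by nlinarith
  have hd : a + s < 3/4 := by
    by_contra h
    push Not at h
    nlinarith
  have hu : 0 < y1 - y0 := by
    by_contra h
    push Not at h
    have : (y1 - y0) ^ 2 ≤ (2 + a/2) ^ 2 := by nlinarith
    nlinarith
  set d := a + s with hdd
  set u := y1 - y0 with huu
  have hd1 : 0 ≤ d := by positivity
  have hu2 : 4 + 12 * d - d ^ 2 < u ^ 2 := by nlinarith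
  have hu3 : 4 < u ^ 2 := by nlinarith
  have hu4 : 2 < u := by nlinarith
  have hsd : s ≤ d := by linarith
  refine ⟨hd, hu4, ?_, ?_⟩
  · have h6 : 0 < (6 - d) * u := mul_pos hd0 hu
    have h7 : (12:ℝ) ^ 2 < ((6 - d) * u) ^ 2 := by
      have h8 : (6 - d) ^ 2 * (4 + 12 * d - d ^ 2) < (6 - d) ^ 2 * u ^ 2 :=
        mul_lt_mul_of_pos_left hu2 (by positivity)
      have h9 : 144 ≤ (6 - d) ^ 2 * (4 + 12 * d - d ^ 2) := by
        have : (6 - d) ^ 2 * (4 + 12 * d - d ^ 2) = 144 + d * (384 - 176 * d) + d ^ 3 * (24 - d) := by ring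
        rw [this]
        have i1 : 0 ≤ d * (384 - 176 * d) := mul_nonneg hd1 (by linarith)
        have i2 : 0 ≤ d ^ 3 * (24 - d) := mul_nonneg (by positivity) (by linarith)
        linarith
      nlinarith
    nlinarith
  · have hu5 : 4 + 12 * s - s ^ 2 < u ^ 2 := by nlinarith
    have h6 : 0 < (6 - s) * u := mul_pos (by linarith) hu
    have h7 : (12 + 2 * s) ^ 2 < ((6 - s) * u) ^ 2 := by
      have h8 : (6 - s) ^ 2 * (4 + 12 * s - s ^ 2) < (6 - s) ^ 2 * u ^ 2 :=
        mul_lt_mul_of_pos_left hu5 (by nlinarith)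
      have h9 : (12 + 2 * s) ^ 2 ≤ (6 - s) ^ 2 * (4 + 12 * s - s ^ 2) := by
        have : (6 - s) ^ 2 * (4 + 12 * s - s ^ 2) = (12 + 2 * s) ^ 2 + s * (336 - 180 * s) + s ^ 3 * (24 - s) := by ring
        rw [this]
        have i1 : 0 ≤ s * (336 - 180 * s) := mul_nonneg hs (by linarith)
        have i2 : 0 ≤ s ^ 3 * (24 - s) := mul_nonneg (by positivity) (by linarith)
        linarith
      nlinarith
    nlinarith

theorem ev_cross {l : Ln} {p q : E2} (hp : l.ev p = 0) (hq : l.ev q = 0) (x : E2) :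
    l.ev x * (q 0 - p 0) = l.b * crv (q - p) (x - p) := by
  simp only [Ln.ev, crv, PiLp.sub_apply] at *
  linear_combination (x 0 - p 0) * hq + (q 0 - x 0) * hp

theorem six : (6 : ENNReal) = ENNReal.ofReal 6 := by simp

theorem LC_aux {p q : E2} (hp : p ∈ Cg) (hq : q ∈ Cg) (hpq : p 0 < q 0) (hd : √40 < dist p q) (l : Ln)
    (hlp : l.ev p = 0) (hlq : l.ev q = 0) : 6 < volume (Cg ∩ {x | 0 ≤ l.ev x}) := by
  have hd2 : 40 < (q 0 - p 0) ^ 2 + (q 1 - p 1) ^ 2 := by
    rw [← dist_sq]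
    have h0 := Real.sq_sqrt (show (0:ℝ) ≤ 40 by norm_num)
    have h1 := Real.sqrt_nonneg (40:ℝ)
    nlinarith
  obtain ⟨a1, a2, a3, a4, a5⟩ := id hp
  obtain ⟨b1, b2, b3, b4, b5⟩ := id hq
  obtain ⟨f1, f2, f3, f4⟩ := chord_facts (a := p 0) (s := 6 - q 0) (y0 := p 1) (y1 := q 1) a1 (by linarith)
    (by linarith) a3 b3 a4 a5 (by linarith) (by linarith) (by
      have : 6 - (p 0 + (6 - q 0)) = q 0 - p 0 := by ring
      rw [this]; exact hd2)
  have hΔ : 6 - (p 0 + (6 - q 0)) = q 0 - p 0 := by ring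
  have hΔ2 : 6 - (6 - q 0) = q 0 := by ring
  rw [hΔ] at f3
  rw [hΔ2] at f4
  set K := Cg ∩ {x | 0 ≤ l.ev x} with hK
  have hKc : Convex ℝ K := convex_Cg.inter l.convex_nonneg
  have hpK : p ∈ K := ⟨hp, hlp.ge⟩
  have hqK : q ∈ K := ⟨hq, hlq.ge⟩
  have hΔp : 0 < q 0 - p 0 := by linarith
  set U : E2 := !₂[6, 0] with hU
  have U0 : U 0 = 6 := by simp [hU]
  have U1 : U 1 = 0 := by simp [hU]
  have hUC : U ∈ Cg := by
    refine ⟨?_, ?_, ?_, ?_, ?_⟩ <;> simp only [U0, U1] <;> norm_num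
  by_cases hlU : 0 ≤ l.ev U
  · have hsub : convexHull ℝ {p, U, q} ⊆ K := by
      apply convexHull_min _ hKc
      intro v hv
      simp only [mem_insert_iff, mem_singleton_iff] at hv
      rcases hv with rfl | rfl | rfl
      · exact hpK
      · exact ⟨hUC, hlU⟩
      · exact hqK
    refine lt_of_lt_of_le ?_ ((vol_tri_ge p U q).trans (measure_mono hsub))
    rw [six, ENNReal.ofReal_lt_ofReal_iff_of_nonneg (by norm_num), U0, U1]
    have : 12 < (6 - p 0) * (q 1 - p 1) - (0 - p 1) * (q 0 - p 0) := by nlinarith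
    have := this.trans_le (le_abs_self _)
    linarith
  · push Not at hlU
    have hcU : crv (q - p) (U - p) < 0 := by
      simp only [crv, PiLp.sub_apply, U0, U1]; nlinarith
    have hb : 0 < l.b := by
      have h1 := ev_cross hlp hlq U
      have h2 := mul_neg_of_neg_of_pos hlU hΔp
      by_contra h
      push Not at h
      have := mul_nonneg_of_nonpos_of_nonpos h hcU.le
      linarith
    have pos : ∀ x : E2, 0 ≤ crv (q - p) (x - p) → 0 ≤ l.ev x := by
      intro x hx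
      have h1 := ev_cross hlp hlq x
      by_contra h
      push Not at h
      have h2 := mul_neg_of_neg_of_pos h hΔp
      have := mul_nonneg hb.le hx
      linarith
    set V : E2 := !₂[3, 7/2] with hV
    set W : E2 := !₂[0, 2] with hW
    have V0 : V 0 = 3 := by simp [hV]
    have V1 : V 1 = 7/2 := by simp [hV]
    have W0 : W 0 = 0 := by simp [hW]
    have W1 : W 1 = 2 := by simp [hW]
    have hVC : V ∈ Cg := by
      refine ⟨?_, ?_, ?_, ?_, ?_⟩ <;> simp only [V0, V1] <;> norm_num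
    have hWC : W ∈ Cg := by
      refine ⟨?_, ?_, ?_, ?_, ?_⟩ <;> simp only [W0, W1] <;> norm_num
    have y0 : p 1 < 5/4 := by linarith
    have y1 : q 1 < 25/8 := by linarith
    have cV : 0 ≤ crv (q - p) (V - p) := by
      simp only [crv, PiLp.sub_apply, V0, V1]; nlinarith
    have cW : 0 ≤ crv (q - p) (W - p) := by
      simp only [crv, PiLp.sub_apply, W0, W1]; nlinarith
    have hVK : V ∈ K := ⟨hVC, pos V cV⟩
    have hWK : W ∈ K := ⟨hWC, pos W cW⟩
    have hne : p ≠ V := by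
      intro h
      have := congrArg (fun v : E2 => v 1) h
      simp only [V1] at this
      linarith
    set g := thr p V hne with hg
    have ge : ∀ x, g.ev x = crv (V - p) (x - p) := fun x => thr_ev _ _ _ _
    have gp : g.ev p = 0 := by rw [ge]; simp [crv]
    have gV : g.ev V = 0 := by rw [ge]; simp [crv]; ring
    have gq : g.ev q ≤ 0 := by
      rw [ge]; simp only [crv, PiLp.sub_apply, V0, V1]; nlinarith
    have gW : 0 ≤ g.ev W := by
      rw [ge]; simp only [crv, PiLp.sub_apply, V0, V1, W0, W1]; nlinarith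
    have s1 : convexHull ℝ {p, V, W} ⊆ K ∩ {x | 0 ≤ g.ev x} := by
      apply convexHull_min _ (hKc.inter g.convex_nonneg)
      intro v hv
      simp only [mem_insert_iff, mem_singleton_iff] at hv
      rcases hv with rfl | rfl | rfl
      · exact ⟨hpK, gp.ge⟩
      · exact ⟨hVK, gV.ge⟩
      · exact ⟨hWK, gW⟩
    have s2 : convexHull ℝ {p, q, V} ⊆ K ∩ {x | g.ev x ≤ 0} := by
      have hconv : Convex ℝ {x | g.ev x ≤ 0} := by
        have := g.neg.convex_nonneg
        simpa only [Ln.ev_neg, Left.nonneg_neg_iff] using this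
      apply convexHull_min _ (hKc.inter hconv)
      intro v hv
      simp only [mem_insert_iff, mem_singleton_iff] at hv
      rcases hv with rfl | rfl | rfl
      · exact ⟨hpK, gp.le⟩
      · exact ⟨hqK, gq⟩
      · exact ⟨hVK, gV.le⟩
    rw [vol_split g]
    have v1 := (vol_tri_ge p V W).trans (measure_mono s1)
    have v2 := (vol_tri_ge p q V).trans (measure_mono s2)
    refine lt_of_lt_of_le ?_ (add_le_add v1 v2)
    rw [← ENNReal.ofReal_add (by positivity) (by positivity), six, ENNReal.ofReal_lt_ofReal_iff_of_nonneg (by norm_num), V0, V1, W0, W1]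
    have e1 := le_abs_self ((3 - p 0) * (2 - p 1) - (7/2 - p 1) * (0 - p 0))
    have e2 := le_abs_self ((q 0 - p 0) * (7/2 - p 1) - (q 1 - p 1) * (3 - p 0))
    have e3 : 12 < (3 - p 0) * (2 - p 1) - (7/2 - p 1) * (0 - p 0) + ((q 0 - p 0) * (7/2 - p 1) - (q 1 - p 1) * (3 - p 0)) := by
      have i1 : (3 - p 0) * (2 - p 1) - (7/2 - p 1) * (0 - p 0) + ((q 0 - p 0) * (7/2 - p 1) - (q 1 - p 1) * (3 - p 0)) =
        q 0 * (q 1 - p 1) + (3 + q 0 - p 0) * (4 - q 0 / 6 - q 1) + (- 2 * (6 - q 0) + p 0 + (6 - q 0) ^ 2 / 6 + p 0 * (6 - q 0) / 6) := by ring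
      rw [i1]
      have i2 : 0 ≤ (3 + q 0 - p 0) * (4 - q 0 / 6 - q 1) := mul_nonneg (by linarith) (by linarith)
      have i3 : 0 ≤ p 0 * (6 - q 0) := mul_nonneg a1 (by linarith)
      nlinarith
    linarith

theorem LC_Cg : LC Cg (√40) 6 := by
  intro p hp q hq hd l hlp hlq
  rcases lt_trichotomy (p 0) (q 0) with h | h | h
  · exact LC_aux hp hq h hd l hlp hlq
  · exfalso
    have h0 := Real.sq_sqrt (show (0:ℝ) ≤ 40 by norm_num)
    have h1 := Real.sqrt_nonneg (40:ℝ)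
    have h2 := dist_sq p q
    rw [h] at h2
    obtain ⟨a1, a2, a3, a4, a5⟩ := hp
    obtain ⟨b1, b2, b3, b4, b5⟩ := hq
    nlinarith
  · exact LC_aux hq hp h (by rwa [dist_comm]) l hlq hlp

end Q144.GE
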