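import Pool.Agent.Q144.GEe

set_option autoImplicit false

open MeasureTheory Metric Set Filter Topology

namespace Q144.GE

/-- the chord `[p, q]` of `K` splits `K` into the convex pieces `P` and `Q` -/
def Splits (K P Q : Set E2) (p q : E2) : Prop :=
  p ∈ frontier K ∧ q ∈ frontier K ∧ p ≠ q ∧ IsBody P ∧ IsBody Q ∧
    Disjoint (interior P) (interior Q) ∧ P ∪ Q = K ∧ P ∩ Q = segment ℝ p q

/-- one step of the greedy procedure: cut off a piece `P` of area `a` by a longest chord -/
def GreedyStep (K : Set E2) (a : ENNReal) (P Q : Set E2) : Prop :=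
  ∃ p q : E2, Splits K P Q p q ∧ volume P = a ∧
    ∀ (P' Q' : Set E2) (p' q' : E2), Splits K P' Q' p' q' → volume P' = a → dist p' q' ≤ dist p q

/-- a half plane bounded by the line through `p` and `q` -/
def half (p q : E2) : Set E2 := {x | 0 ≤ crv (q - p) (x - p)}

theorem half_eq {p q : E2} (h : p ≠ q) : half p q = {x | 0 ≤ (thr p q h).ev x} := by
  ext x
  show 0 ≤ crv (q - p) (x - p) ↔ 0 ≤ (thr p q h).ev x
  rw [thr_ev]

theorem closed_half (p q : E2) : IsClosed (half p q) := by
  refine isClosed_le continuous_const ?_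
  unfold crv
  simp only [PiLp.sub_apply]
  fun_prop

theorem convex_half (p q : E2) : Convex ℝ (half p q) := by
  rcases eq_or_ne p q with h | h
  · have : half p q = univ := by
      ext x; simp [half, h, crv]
    rw [this]; exact convex_univ
  · rw [half_eq h]; exact (thr p q h).convex_nonneg

theorem tendsto_half {K : Set E2} (hK : IsCompact K) {p q : E2} (h : p ≠ q) :
    Tendsto (fun z : E2 × E2 => volume (K ∩ half z.1 z.2)) (𝓝 (p, q)) (𝓝 (volume (K ∩ half p q))) := by
  refine tendsto_measure_of_ae_tendsto_indicator (𝓝 (p, q)) (hK.isClosed.inter (closed_half p q)).measurableSet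
    (fun z => (hK.isClosed.inter (closed_half z.1 z.2)).measurableSet) hK.isClosed.measurableSet
    hK.measure_lt_top.ne (Eventually.of_forall fun z => inter_subset_left) ?_
  have hnull : ∀ᵐ x : E2, (thr p q h).ev x ≠ 0 := by
    rw [ae_iff]
    simpa using (thr p q h).vol_line
  filter_upwards [hnull] with x hx
  rw [thr_ev] at hx
  have hc : Continuous (fun z : E2 × E2 => crv (z.2 - z.1) (x - z.1)) := by
    unfold crv
    simp only [PiLp.sub_apply]
    fun_prop
  rcases lt_or_gt_of_ne hx with h1 | h1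
  · have : ∀ᶠ z in 𝓝 (p, q), crv (z.2 - z.1) (x - z.1) < 0 := hc.continuousAt.eventually_lt continuousAt_const h1
    filter_upwards [this] with z hz
    constructor
    · rintro ⟨_, h2⟩
      exact absurd hz (not_lt.2 h2)
    · rintro ⟨_, h2⟩
      exact absurd h1 (not_lt.2 h2)
  · have : ∀ᶠ z in 𝓝 (p, q), 0 < crv (z.2 - z.1) (x - z.1) := continuousAt_const.eventually_lt hc.continuousAt h1
    filter_upwards [this] with z hz
    constructor
    · rintro ⟨h3, _⟩
      exact ⟨h3, h1.le⟩
    · rintro ⟨h3, _⟩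
      exact ⟨h3, hz.le⟩

theorem half_scale {p q : E2} {α β : ℝ} (h : α < β) :
    half (p + α • (q - p)) (p + β • (q - p)) = half p q := by
  ext x
  have e : crv ((p + β • (q - p)) - (p + α • (q - p))) (x - (p + α • (q - p))) = (β - α) * crv (q - p) (x - p) := by
    simp [crv]; ring
  show 0 ≤ crv _ _ ↔ 0 ≤ crv _ _
  rw [e]
  constructor
  · intro h1
    by_contra h2
    push Not at h2
    nlinarith [mul_neg_of_pos_of_neg (sub_pos.2 h) h2]
  · intro h1
    exact mul_nonneg (sub_pos.2 h).le h1

theorem interior_of_vol {P : Set E2} (hP : Convex ℝ P) (h : 0 < volume P) : (interior P).Nonempty := by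
  by_contra hne
  rw [not_nonempty_iff_eq_empty] at hne
  have h1 : P ⊆ frontier P := by
    intro x hx
    refine ⟨subset_closure hx, ?_⟩
    rw [hne]; exact notMem_empty x
  have := measure_mono_null h1 (hP.addHaar_frontier volume)
  exact h.ne' this

theorem two_mem {K P Q : Set E2} (hP : IsBody P) (hcov : P ∪ Q = K) {l : Ln}
    (hl2 : ∀ x ∈ Q, l.ev x ≤ 0) {x : E2} (hx : x ∈ interior K) (hlx : 0 < l.ev x) : x ∈ P := by
  have : x ∈ P ∪ Q := hcov ▸ interior_subset hx
  rcases this with h | h
  · exact h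
  · exact absurd (hl2 x h) (not_le.2 hlx)

theorem two_vol {K P Q : Set E2} (hK : IsBody K) (hP : IsBody P) (hcov : P ∪ Q = K) {l : Ln}
    (hl1 : ∀ x ∈ P, 0 ≤ l.ev x) (hl2 : ∀ x ∈ Q, l.ev x ≤ 0) : volume (K ∩ {x | 0 ≤ l.ev x}) = volume P := by
  apply le_antisymm
  · exact vol_side l (fun x hx hlx => two_mem hP hcov hl2 hx hlx) hK.2.1
  · exact measure_mono fun x hx => ⟨hcov ▸ Or.inl hx, hl1 x hx⟩

/-- the chord of a splitting lies on the separating line, and the pieces are half plane sections -/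
theorem splits_half {K P Q : Set E2} {p q : E2} (hK : IsBody K) (h : Splits K P Q p q) :
    volume (K ∩ half p q) = volume P ∨ volume (K ∩ half q p) = volume P := by
  obtain ⟨_, _, hne, hP, hQ, hd, hcov, hseg⟩ := h
  obtain ⟨l, hl1, hl2⟩ := exists_sep hP hQ hd
  have hp : p ∈ P ∩ Q := hseg ▸ left_mem_segment ℝ p q
  have hq : q ∈ P ∩ Q := hseg ▸ right_mem_segment ℝ p q
  have lp : l.ev p = 0 := le_antisymm (hl2 p hp.2) (hl1 p hp.1)
  have lq : l.ev q = 0 := le_antisymm (hl2 q hq.2) (hl1 q hq.1)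
  -- proportionality
  obtain ⟨t, ht⟩ := l.exists_dir lp lq
  have ht0 : t ≠ 0 := by
    rintro rfl
    rw [zero_smul, add_zero] at ht
    exact hne ht.symm
  have hev : ∀ x, crv (q - p) (x - p) = (-t) * l.ev x := by
    intro x
    rw [ht]
    have := lp
    simp only [Ln.ev] at this ⊢
    simp [crv, Ln.dir]
    linear_combination t * this
  have hev2 : ∀ x, crv (p - q) (x - q) = t * l.ev x := by
    intro x
    rw [ht]
    have := lp
    simp only [Ln.ev] at this ⊢
    simp [crv, Ln.dir]
    linear_combination (-t) * this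
  rw [← two_vol hK hP hcov hl1 hl2]
  rcases lt_or_gt_of_ne ht0 with h1 | h1
  · left
    congr 2
    ext x
    show 0 ≤ crv _ _ ↔ 0 ≤ l.ev x
    rw [hev]
    constructor
    · intro h2
      by_contra h3
      push Not at h3
      nlinarith [mul_neg_of_pos_of_neg (neg_pos.2 h1) h3]
    · intro h2; exact mul_nonneg (neg_pos.2 h1).le h2
  · right
    congr 2
    ext x
    show 0 ≤ crv _ _ ↔ 0 ≤ l.ev x
    rw [hev2]
    constructor
    · intro h2
      by_contra h3
      push Not at h3
      nlinarith [mul_neg_of_pos_of_neg h1 h3]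
    · intro h2; exact mul_nonneg h1.le h2

theorem greedy_exists {K : Set E2} (hK : IsBody K) {a : ENNReal} {p0 q0 : E2} (hp0 : p0 ∈ K) (hq0 : q0 ∈ K)
    (hne0 : p0 ≠ q0) (hv0 : volume (K ∩ half p0 q0) = a) (ha : 0 < a) (haK : a < volume K) :
    ∃ P Q, GreedyStep K a P Q := by
  set δ := dist p0 q0 with hδ
  have hδ0 : 0 < δ := dist_pos.2 hne0
  set s : Set (E2 × E2) := {z | z.1 ∈ K ∧ z.2 ∈ K ∧ δ ≤ dist z.1 z.2} with hs
  have hsc : IsCompact s := by
    have h1 : IsCompact (K ×ˢ K) := hK.1.prod hK.1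
    have h2 : IsClosed {z : E2 × E2 | δ ≤ dist z.1 z.2} := isClosed_le continuous_const continuous_dist
    have h3 : s = (K ×ˢ K) ∩ {z : E2 × E2 | δ ≤ dist z.1 z.2} := by
      ext z; simp [hs, and_assoc]
    rw [h3]; exact h1.inter_right h2
  have hF : ContinuousOn (fun z : E2 × E2 => volume (K ∩ half z.1 z.2)) s := by
    intro z hz
    have hzne : z.1 ≠ z.2 := by
      intro h
      have := hz.2.2
      rw [h, dist_self] at this
      linarith
    exact (tendsto_half hK.1 hzne).mono_left nhdsWithin_le_nhds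
  have hZc : IsClosed (s ∩ (fun z : E2 × E2 => volume (K ∩ half z.1 z.2)) ⁻¹' {a}) :=
    hF.preimage_isClosed_of_isClosed hsc.isClosed isClosed_singleton
  have hZ : IsCompact (s ∩ (fun z : E2 × E2 => volume (K ∩ half z.1 z.2)) ⁻¹' {a}) :=
    hsc.of_isClosed_subset hZc inter_subset_left
  obtain ⟨⟨p, q⟩, ⟨⟨hpK, hqK, hpq⟩, hFa⟩, hmax⟩ := hZ.exists_isMaxOn ⟨(p0, q0), ⟨hp0, hq0, le_rfl⟩, hv0⟩
    (continuous_dist.continuousOn)
  simp only at hpK hqK hpq
  have hFa' : volume (K ∩ half p q) = a := hFa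
  have hpqne : p ≠ q := by
    rintro rfl
    rw [dist_self] at hpq; linarith
  have hmax2 : ∀ z : E2 × E2, z ∈ s → volume (K ∩ half z.1 z.2) = a → dist z.1 z.2 ≤ dist p q := by
    intro z hz hv
    exact isMaxOn_iff.1 hmax z ⟨hz, hv⟩
  clear hmax
  have hmax' : ∀ p' ∈ K, ∀ q' ∈ K, p' ≠ q' → volume (K ∩ half p' q') = a → dist p' q' ≤ dist p q := by
    intro p' hp' q' hq' _ hv
    rcases le_or_gt δ (dist p' q') with h | h
    · exact hmax2 (p', q') ⟨hp', hq', h⟩ hv
    · exact h.le.trans hpq
  have hext : ∀ α β : ℝ, α < β → p + α • (q - p) ∈ K → p + β • (q - p) ∈ K → β - α ≤ 1 := by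
    intro α β hαβ h1 h2
    have hdist : dist (p + α • (q - p)) (p + β • (q - p)) = (β - α) * dist p q := by
      rw [dist_eq_norm, add_sub_add_left_eq_sub, ← sub_smul, norm_smul, Real.norm_eq_abs, abs_sub_comm,
        abs_of_pos (sub_pos.2 hαβ), dist_comm p q, dist_eq_norm]
    have hdp := dist_pos.2 hpqne
    have hne' : p + α • (q - p) ≠ p + β • (q - p) := by
      rw [← dist_pos, hdist]; exact mul_pos (sub_pos.2 hαβ) hdp
    have := hmax' _ h1 _ h2 hne' (by rw [half_scale hαβ]; exact hFa')
    rw [hdist] at this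
    by_contra hc
    push Not at hc
    nlinarith
  have hq1 : p + (1:ℝ) • (q - p) = q := by rw [one_smul]; abel
  have hp1 : p + (0:ℝ) • (q - p) = p := by rw [zero_smul, add_zero]
  -- end points on the frontier
  have near : ∀ t0 : ℝ, p + t0 • (q - p) ∈ interior K → ∃ ε > 0, p + (t0 + ε) • (q - p) ∈ K ∧ p + (t0 - ε) • (q - p) ∈ K := by
    intro t0 ht0
    have hc : Continuous (fun t : ℝ => p + t • (q - p)) := by fun_prop
    have h1 : ∀ᶠ t in 𝓝 t0, p + t • (q - p) ∈ interior K := hc.continuousAt.preimage_mem_nhds (isOpen_interior.mem_nhds ht0)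
    obtain ⟨ε, hε, h2⟩ := Metric.eventually_nhds_iff.1 h1
    refine ⟨ε / 2, half_pos hε, interior_subset (h2 ?_), interior_subset (h2 ?_)⟩
    · rw [Real.dist_eq, add_sub_cancel_left, abs_of_pos (half_pos hε)]; linarith
    · rw [Real.dist_eq, sub_sub_cancel_left, abs_neg, abs_of_pos (half_pos hε)]; linarith
  have hpf : p ∈ frontier K := by
    refine ⟨subset_closure hpK, fun hint => ?_⟩
    rw [← hp1] at hint
    obtain ⟨ε, hε, _, h2⟩ := near 0 hint
    have := hext (0 - ε) 1 (by linarith) h2 (by rw [hq1]; exact hqK)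
    linarith
  have hqf : q ∈ frontier K := by
    refine ⟨subset_closure hqK, fun hint => ?_⟩
    rw [← hq1] at hint
    obtain ⟨ε, hε, h1, _⟩ := near 1 hint
    have := hext 0 (1 + ε) (by linarith) (by rw [hp1]; exact hpK) h1
    linarith
  set g := thr p q hpqne with hg
  have gev : ∀ x, g.ev x = crv (q - p) (x - p) := fun x => thr_ev _ _ _ _
  have gp : g.ev p = 0 := by rw [gev]; simp [crv]
  have gq : g.ev q = 0 := by rw [gev]; simp [crv]; ring
  set P := K ∩ half p q with hPdef
  set Q := K ∩ {x | g.ev x ≤ 0} with hQdef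
  have hPeq : P = K ∩ {x | 0 ≤ g.ev x} := by rw [hPdef, half_eq hpqne]
  have hQconv : Convex ℝ Q := by
    refine hK.2.1.inter ?_
    have := g.neg.convex_nonneg
    simpa only [Ln.ev_neg, Left.nonneg_neg_iff] using this
  have hQcomp : IsCompact Q := hK.1.inter_right (isClosed_le g.cont continuous_const)
  have hPcomp : IsCompact P := hK.1.inter_right (closed_half p q)
  have hPconv : Convex ℝ P := hK.2.1.inter (convex_half p q)
  have hsum : volume K = a + volume Q := by
    rw [vol_split g, ← hPeq, hFa']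
  have hafin : a ≠ ⊤ := (haK.trans hK.1.measure_lt_top).ne
  have hQpos : 0 < volume Q := by
    rw [pos_iff_ne_zero]
    intro h0
    rw [h0, add_zero] at hsum
    exact haK.ne hsum.symm
  have hPb : IsBody P := ⟨hPcomp, hPconv, interior_of_vol hPconv (by rw [hFa']; exact ha)⟩
  have hQb : IsBody Q := ⟨hQcomp, hQconv, interior_of_vol hQconv hQpos⟩
  have hsplit : Splits K P Q p q := by
    refine ⟨hpf, hqf, hpqne, hPb, hQb, ?_, ?_, ?_⟩
    · rw [Set.disjoint_left]
      intro x hx1 hx2
      have e1 := g.ev_pos_of_interior (P := P) (fun y hy => by rw [hPeq] at hy; exact hy.2) hx1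
      have e2 := g.neg.ev_pos_of_interior (P := Q) (fun y hy => by rw [Ln.ev_neg]; linarith [show g.ev y ≤ 0 from hy.2]) hx2
      rw [Ln.ev_neg] at e2
      linarith
    · rw [hPeq]
      ext x
      constructor
      · rintro (h | h) <;> exact h.1
      · intro h
        rcases le_total 0 (g.ev x) with h1 | h1
        · exact Or.inl ⟨h, h1⟩
        · exact Or.inr ⟨h, h1⟩
    · apply Subset.antisymm
      · rintro x ⟨hx1, hx2⟩
        have hgx : g.ev x = 0 := by
          rw [hPeq] at hx1
          exact le_antisymm hx2.2 hx1.2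
        obtain ⟨t, ht⟩ := g.exists_dir gp hgx
        obtain ⟨t1, ht1⟩ := g.exists_dir gp gq
        have ht10 : t1 ≠ 0 := by
          rintro rfl
          rw [zero_smul, add_zero] at ht1
          exact hpqne ht1.symm
        have hx : x = p + (t / t1) • (q - p) := by
          conv_rhs => rw [ht1]
          rw [add_sub_cancel_left, smul_smul, div_mul_cancel₀ _ ht10]
          exact ht
        set r := t / t1 with hr
        have hxK : x ∈ K := hx1.1
        rw [hx] at hxK
        have r0 : 0 ≤ r := by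
          by_contra hc
          push Not at hc
          have := hext r 1 (by linarith) hxK (by rw [hq1]; exact hqK)
          linarith
        have r1 : r ≤ 1 := by
          by_contra hc
          push Not at hc
          have := hext 0 r (by linarith) (by rw [hp1]; exact hpK) hxK
          linarith
        rw [hx, segment_eq_image']
        exact ⟨r, ⟨r0, r1⟩, rfl⟩
      · have hpm : p ∈ P ∩ Q := ⟨by rw [hPeq]; exact ⟨hpK, gp.ge⟩, hpK, gp.le⟩
        have hqm : q ∈ P ∩ Q := ⟨by rw [hPeq]; exact ⟨hqK, gq.ge⟩, hqK, gq.le⟩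
        exact (hPconv.inter hQconv).segment_subset hpm hqm
  refine ⟨P, Q, p, q, hsplit, hFa', ?_⟩
  intro P' Q' p' q' h' hv'
  have hp'K : p' ∈ K := hK.1.isClosed.frontier_subset h'.1
  have hq'K : q' ∈ K := hK.1.isClosed.frontier_subset h'.2.1
  rcases splits_half hK h' with h1 | h1
  · exact hmax' p' hp'K q' hq'K h'.2.2.1 (h1.trans hv')
  · rw [dist_comm]
    exact hmax' q' hq'K p' hp'K h'.2.2.1.symm (h1.trans hv')

end Q144.GE
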