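import Pool.Agent.Q144.GEf

set_option autoImplicit false

open MeasureTheory Metric Set Filter Topology

namespace Q144.GE

/-- a convex equipartition of `C` into `n` pieces -/
structure IsEqui (C : Set E2) (n : ℕ) (P : Fin n → Set E2) : Prop where
  body : ∀ i, IsBody (P i)
  disj : ∀ i j, i ≠ j → Disjoint (interior (P i)) (interior (P j))
  cover : ⋃ i, P i = C
  area : ∀ i, volume (P i) = volume C / n

/-- the total perimeter -/
noncomputable def total {n : ℕ} (P : Fin n → Set E2) : ENNReal := ∑ i, per (P i)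

/-- no point of the interior of `C` belongs to three or more pieces -/
def NonCrossing (C : Set E2) {n : ℕ} (P : Fin n → Set E2) : Prop :=
  ∀ x ∈ interior C, ∀ i j k, i ≠ j → j ≠ k → i ≠ k → ¬ (x ∈ P i ∧ x ∈ P j ∧ x ∈ P k)

/-- an equipartition of maximum total perimeter -/
def IsMax (C : Set E2) (n : ℕ) (P : Fin n → Set E2) : Prop :=
  IsEqui C n P ∧ ∀ Q : Fin n → Set E2, IsEqui C n Q → total Q ≤ total P

/-- a greedy partition: `K 0 = C`; for `j < n - 1` the piece `P j` is cut off from `K j` by a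
longest chord, leaving `K (j + 1)`; the last piece is what remains -/
def IsGreedy (C : Set E2) (n : ℕ) (P : Fin n → Set E2) : Prop :=
  ∃ K : ℕ → Set E2, K 0 = C ∧
    (∀ j : Fin n, (j : ℕ) + 1 < n → GreedyStep (K j) (volume C / n) (P j) (K (j + 1))) ∧
    (∀ j : Fin n, (j : ℕ) + 1 = n → P j = K j)

theorem total3_le {C P Q R : Set E2} (T : Three C P Q R) :
    per P + per Q + per R ≤ per C + 2 * (Measure.hausdorffMeasure 1 (P ∩ Q : Set E2) +
      Measure.hausdorffMeasure 1 (Q ∩ R : Set E2) + Measure.hausdorffMeasure 1 (R ∩ P : Set E2)) := by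
  have h := total_le (n := 3) T.hC (P := ![P, Q, R])
    (by intro i; fin_cases i; exacts [T.hP, T.hQ, T.hR])
    (by
      intro i j hij
      fin_cases i <;> fin_cases j <;> first
        | exact absurd rfl hij
        | exact T.pq
        | exact T.qr
        | exact T.rp
        | exact T.pq.symm
        | exact T.qr.symm
        | exact T.rp.symm)
    (by
      ext x
      rw [mem_iUnion, T.cov]
      constructor
      · rintro ⟨i, hi⟩
        fin_cases i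
        exacts [Or.inl hi, Or.inr (Or.inl hi), Or.inr (Or.inr hi)]
      · rintro (h | h | h)
        exacts [⟨0, h⟩, ⟨1, h⟩, ⟨2, h⟩])
  have f0 : Finset.univ.filter (fun j : Fin 3 => j ≠ 0) = {1, 2} := by decide
  have f1 : Finset.univ.filter (fun j : Fin 3 => j ≠ 1) = {0, 2} := by decide
  have f2 : Finset.univ.filter (fun j : Fin 3 => j ≠ 2) = {0, 1} := by decide
  rw [Fin.sum_univ_three, Fin.sum_univ_three, f0, f1, f2,
    Finset.sum_pair (by decide), Finset.sum_pair (by decide), Finset.sum_pair (by decide)] at h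
  have e0 : (![P, Q, R] : Fin 3 → Set E2) 0 = P := rfl
  have e1 : (![P, Q, R] : Fin 3 → Set E2) 1 = Q := rfl
  have e2 : (![P, Q, R] : Fin 3 → Set E2) 2 = R := rfl
  rw [e0, e1, e2, inter_comm P R, inter_comm Q P, inter_comm R Q] at h
  refine h.trans_eq ?_
  rw [two_mul]
  congr 1
  abel

theorem total2_le {K P Q : Set E2} (hK : IsBody K) (hP : IsBody P) (hQ : IsBody Q)
    (hd : Disjoint (interior P) (interior Q)) (hcov : P ∪ Q = K) :
    per P + per Q ≤ per K + 2 * Measure.hausdorffMeasure 1 (P ∩ Q : Set E2) := by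
  have h := total_le (n := 2) hK (P := ![P, Q])
    (by intro i; fin_cases i; exacts [hP, hQ])
    (by
      intro i j hij
      fin_cases i <;> fin_cases j <;> first
        | exact absurd rfl hij
        | exact hd
        | exact hd.symm)
    (by
      ext x
      rw [mem_iUnion, ← hcov]
      constructor
      · rintro ⟨i, hi⟩
        fin_cases i
        exacts [Or.inl hi, Or.inr hi]
      · rintro (h | h)
        exacts [⟨0, h⟩, ⟨1, h⟩])
  have f0 : Finset.univ.filter (fun j : Fin 2 => j ≠ 0) = {1} := by decide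
  have f1 : Finset.univ.filter (fun j : Fin 2 => j ≠ 1) = {0} := by decide
  rw [Fin.sum_univ_two, Fin.sum_univ_two, f0, f1, Finset.sum_singleton, Finset.sum_singleton] at h
  have e0 : (![P, Q] : Fin 2 → Set E2) 0 = P := rfl
  have e1 : (![P, Q] : Fin 2 → Set E2) 1 = Q := rfl
  rw [e0, e1, inter_comm Q P, ← two_mul] at h
  exact h

theorem IsEqui.three {C : Set E2} (hC : IsBody C) {P : Fin 3 → Set E2} (h : IsEqui C 3 P) :
    Three C (P 0) (P 1) (P 2) := by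
  refine ⟨hC, h.body 0, h.body 1, h.body 2, h.disj 0 1 (by decide), h.disj 1 2 (by decide), h.disj 2 0 (by decide), ?_⟩
  intro x
  rw [← h.cover, mem_iUnion]
  constructor
  · rintro ⟨i, hi⟩
    fin_cases i
    exacts [Or.inl hi, Or.inr (Or.inl hi), Or.inr (Or.inr hi)]
  · rintro (h | h | h)
    exacts [⟨0, h⟩, ⟨1, h⟩, ⟨2, h⟩]

theorem Three.equi {C P Q R : Set E2} (T : Three C P Q R) {a : ENNReal} (ha : volume C / (3 : ℕ) = a)
    (hP : volume P = a) (hQ : volume Q = a) (hR : volume R = a) : IsEqui C 3 ![P, Q, R] := by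
  refine ⟨?_, ?_, ?_, ?_⟩
  · intro i; fin_cases i; exacts [T.hP, T.hQ, T.hR]
  · intro i j hij
    fin_cases i <;> fin_cases j <;> first
      | exact absurd rfl hij
      | exact T.pq
      | exact T.qr
      | exact T.rp
      | exact T.pq.symm
      | exact T.qr.symm
      | exact T.rp.symm
  · ext x
    rw [mem_iUnion, T.cov]
    constructor
    · rintro ⟨i, hi⟩
      fin_cases i
      exacts [Or.inl hi, Or.inr (Or.inl hi), Or.inr (Or.inr hi)]
    · rintro (h | h | h)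
      exacts [⟨0, h⟩, ⟨1, h⟩, ⟨2, h⟩]
  · intro i
    rw [ha]
    fin_cases i
    exacts [hP, hQ, hR]

/-! ### the lines -/

noncomputable def l1 : Ln := ⟨-(1/3), 1, 0, Or.inr one_ne_zero⟩
noncomputable def l2 : Ln := ⟨-(1/3), 1, 1, Or.inr one_ne_zero⟩
noncomputable def lk : Ln := ⟨1/3, 1, 2, Or.inr one_ne_zero⟩
noncomputable def lv : Ln := ⟨1, 0, 3, Or.inl one_ne_zero⟩

theorem l1_ev (x : E2) : l1.ev x = x 1 - x 0 / 3 := by simp [l1, Ln.ev]; ring
theorem l2_ev (x : E2) : l2.ev x = x 1 - x 0 / 3 - 1 := by simp [l2, Ln.ev]; ring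
theorem lk_ev (x : E2) : lk.ev x = x 1 + x 0 / 3 - 2 := by simp [lk, Ln.ev]; ring
theorem lv_ev (x : E2) : lv.ev x = x 0 - 3 := by simp [lv, Ln.ev]

def A1 : Set E2 := Cg ∩ {x | l1.ev x ≤ 0}
def A2 : Set E2 := (Cg ∩ {x | 0 ≤ l1.ev x}) ∩ {x | l2.ev x ≤ 0}
def A3 : Set E2 := (Cg ∩ {x | 0 ≤ l1.ev x}) ∩ {x | 0 ≤ l2.ev x}
def Tg : Set E2 := Cg ∩ {x | lk.ev x ≤ 0}
def Kg : Set E2 := Cg ∩ {x | 0 ≤ lk.ev x}

theorem mem_Cg (x : E2) : x ∈ Cg ↔ 0 ≤ x 0 ∧ x 0 ≤ 6 ∧ 0 ≤ x 1 ∧ x 1 ≤ 2 + x 0 / 2 ∧ x 1 ≤ 4 - x 0 / 6 := Iff.rfl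

theorem vol_A1 : volume A1 = 6 := by
  have h : A1 = {x : E2 | (0:ℝ) ≤ x 0 ∧ x 0 ≤ 6 ∧ 0 * x 0 + 0 ≤ x 1 ∧ x 1 ≤ (1/3) * x 0 + 0} := by
    ext x
    rw [A1, mem_inter_iff, mem_Cg]
    show _ ∧ l1.ev x ≤ 0 ↔ _ ∧ _ ∧ _ ∧ _
    rw [l1_ev]
    constructor
    · rintro ⟨⟨h1, h2, h3, h4, h5⟩, h6⟩
      exact ⟨h1, h2, by linarith, by linarith⟩
    · rintro ⟨h1, h2, h3, h4⟩
      exact ⟨⟨h1, h2, by linarith, by linarith, by linarith⟩, by linarith⟩
  rw [h, vol_trap (by norm_num) (by norm_num) (by norm_num), six]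
  congr 1; norm_num

theorem vol_A2 : volume A2 = 6 := by
  have h : A2 = {x : E2 | (0:ℝ) ≤ x 0 ∧ x 0 ≤ 6 ∧ (1/3) * x 0 + 0 ≤ x 1 ∧ x 1 ≤ (1/3) * x 0 + 1} := by
    ext x
    rw [A2, mem_inter_iff, mem_inter_iff, mem_Cg]
    show (_ ∧ 0 ≤ l1.ev x) ∧ l2.ev x ≤ 0 ↔ _ ∧ _ ∧ _ ∧ _
    rw [l1_ev, l2_ev]
    constructor
    · rintro ⟨⟨⟨h1, h2, h3, h4, h5⟩, h6⟩, h7⟩
      exact ⟨h1, h2, by linarith, by linarith⟩
    · rintro ⟨h1, h2, h3, h4⟩
      exact ⟨⟨⟨h1, h2, by linarith, by linarith, by linarith⟩, by linarith⟩, by linarith⟩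
  rw [h, vol_trap (by norm_num) (by norm_num) (by norm_num), six]
  congr 1; norm_num

theorem vol_A3 : volume A3 = 6 := by
  rw [vol_split lv]
  have h1 : A3 ∩ {x | 0 ≤ lv.ev x} = {x : E2 | (3:ℝ) ≤ x 0 ∧ x 0 ≤ 6 ∧ (1/3) * x 0 + 1 ≤ x 1 ∧ x 1 ≤ (-1/6) * x 0 + 4} := by
    ext x
    rw [A3, mem_inter_iff, mem_inter_iff, mem_inter_iff, mem_Cg]
    show ((_ ∧ 0 ≤ l1.ev x) ∧ 0 ≤ l2.ev x) ∧ 0 ≤ lv.ev x ↔ _ ∧ _ ∧ _ ∧ _
    rw [l1_ev, l2_ev, lv_ev]
    constructor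
    · rintro ⟨⟨⟨⟨h1, h2, h3, h4, h5⟩, h6⟩, h7⟩, h8⟩
      exact ⟨by linarith, h2, by linarith, by linarith⟩
    · rintro ⟨h1, h2, h3, h4⟩
      exact ⟨⟨⟨⟨by linarith, h2, by linarith, by linarith, by linarith⟩, by linarith⟩, by linarith⟩, by linarith⟩
  have h2 : A3 ∩ {x | lv.ev x ≤ 0} = {x : E2 | (0:ℝ) ≤ x 0 ∧ x 0 ≤ 3 ∧ (1/3) * x 0 + 1 ≤ x 1 ∧ x 1 ≤ (1/2) * x 0 + 2} := by
    ext x
    rw [A3, mem_inter_iff, mem_inter_iff, mem_inter_iff, mem_Cg]
    show ((_ ∧ 0 ≤ l1.ev x) ∧ 0 ≤ l2.ev x) ∧ lv.ev x ≤ 0 ↔ _ ∧ _ ∧ _ ∧ _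
    rw [l1_ev, l2_ev, lv_ev]
    constructor
    · rintro ⟨⟨⟨⟨h1, h2, h3, h4, h5⟩, h6⟩, h7⟩, h8⟩
      exact ⟨h1, by linarith, by linarith, by linarith⟩
    · rintro ⟨h1, h2, h3, h4⟩
      exact ⟨⟨⟨⟨h1, by linarith, by linarith, by linarith, by linarith⟩, by linarith⟩, by linarith⟩, by linarith⟩
  rw [h1, h2, vol_trap (by norm_num) (by norm_num) (by norm_num), vol_trap (by norm_num) (by norm_num) (by norm_num),
    ← ENNReal.ofReal_add (by norm_num) (by norm_num), six]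
  congr 1; norm_num

theorem vol_Tg : volume Tg = 6 := by
  have h : Tg = {x : E2 | (0:ℝ) ≤ x 0 ∧ x 0 ≤ 6 ∧ 0 * x 0 + 0 ≤ x 1 ∧ x 1 ≤ (-1/3) * x 0 + 2} := by
    ext x
    rw [Tg, mem_inter_iff, mem_Cg]
    show _ ∧ lk.ev x ≤ 0 ↔ _ ∧ _ ∧ _ ∧ _
    rw [lk_ev]
    constructor
    · rintro ⟨⟨h1, h2, h3, h4, h5⟩, h6⟩
      exact ⟨h1, h2, by linarith, by linarith⟩
    · rintro ⟨h1, h2, h3, h4⟩
      exact ⟨⟨h1, h2, by linarith, by linarith, by linarith⟩, by linarith⟩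
  rw [h, vol_trap (by norm_num) (by norm_num) (by norm_num), six]
  congr 1; norm_num

theorem vol_Cg : volume Cg = 18 := by
  rw [vol_split l1, vol_split (K := Cg ∩ {x | 0 ≤ l1.ev x}) l2]
  change volume A3 + volume A2 + volume A1 = 18
  rw [vol_A1, vol_A2, vol_A3]; norm_num

theorem vol_Kg : volume Kg = 12 := by
  have h : volume Cg = volume Kg + volume Tg := vol_split lk
  rw [vol_Cg, vol_Tg] at h
  have h2 : (12 : ENNReal) + 6 = volume Kg + 6 := by rw [← h]; norm_num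
  exact ((ENNReal.add_left_inj (by norm_num)).1 h2).symm

theorem vol_div : volume Cg / ((3 : ℕ) : ENNReal) = 6 := by
  rw [vol_Cg]
  have h1 : (18 : ENNReal) = 6 * 3 := by norm_num
  have h2 : ((3 : ℕ) : ENNReal) = 3 := by norm_num
  rw [h1, h2]
  exact ENNReal.mul_div_cancel_right (by norm_num) (by norm_num)

theorem body_sub {K : Set E2} (hK : IsBody K) (g : Ln) (h : 0 < volume (K ∩ {x | 0 ≤ g.ev x})) :
    IsBody (K ∩ {x | 0 ≤ g.ev x}) :=
  ⟨hK.1.inter_right g.isClosed_nonneg, hK.2.1.inter g.convex_nonneg, interior_of_vol (hK.2.1.inter g.convex_nonneg) h⟩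

theorem body_sub' {K : Set E2} (hK : IsBody K) (g : Ln) (h : 0 < volume (K ∩ {x | g.ev x ≤ 0})) :
    IsBody (K ∩ {x | g.ev x ≤ 0}) := by
  have e : {x | g.ev x ≤ 0} = {x | 0 ≤ g.neg.ev x} := by ext x; simp
  rw [e] at h ⊢
  exact body_sub hK g.neg h

theorem disj_sub {P Q : Set E2} (g : Ln) (h1 : ∀ x ∈ P, 0 ≤ g.ev x) (h2 : ∀ x ∈ Q, g.ev x ≤ 0) :
    Disjoint (interior P) (interior Q) := by
  rw [Set.disjoint_left]
  intro x hx1 hx2
  have e1 := g.ev_pos_of_interior h1 hx1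
  have e2 := g.neg.ev_pos_of_interior (P := Q) (fun y hy => by rw [Ln.ev_neg]; linarith [h2 y hy]) hx2
  rw [Ln.ev_neg] at e2
  linarith

end Q144.GE
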