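import Pool.Agent.Q144.GEg

set_option autoImplicit false

open MeasureTheory Metric Set Filter Topology

namespace Q144.GE

/-- the length of the long chords -/
noncomputable def ell : ENNReal := ENNReal.ofReal (√40)

theorem ell_fin : ell ≠ ⊤ := ENNReal.ofReal_ne_top

/-- the perimeter of the pentagon is finite -/
theorem per_fin : per Cg ≠ ⊤ := by
  set k0 : Ln := ⟨1, 0, 0, Or.inl one_ne_zero⟩ with hk0
  set k1 : Ln := ⟨1, 0, 6, Or.inl one_ne_zero⟩ with hk1
  set k2 : Ln := ⟨0, 1, 0, Or.inr one_ne_zero⟩ with hk2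
  set k3 : Ln := ⟨-(1/2), 1, 2, Or.inr one_ne_zero⟩ with hk3
  set k4 : Ln := ⟨1/6, 1, 4, Or.inr one_ne_zero⟩ with hk4
  have b : ∀ k : Ln, Measure.hausdorffMeasure 1 (Cg ∩ {x | k.ev x = 0} : Set E2) ≤ ENNReal.ofReal 10 := by
    intro k
    refine hm_le (compact_Cg.inter_right (isClosed_eq k.cont continuous_const)) k (fun x hx => hx.2) ?_
    intro p hp q hq
    exact bound_Cg hp.1 hq.1
  have hsub : frontier Cg ⊆ (Cg ∩ {x | k0.ev x = 0}) ∪ ((Cg ∩ {x | k1.ev x = 0}) ∪ ((Cg ∩ {x | k2.ev x = 0}) ∪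
      ((Cg ∩ {x | k3.ev x = 0}) ∪ (Cg ∩ {x | k4.ev x = 0})))) := by
    intro x hx
    have hxC : x ∈ Cg := closed_Cg.frontier_subset hx
    by_contra hno
    simp only [mem_union, mem_inter_iff, not_or, not_and] at hno
    obtain ⟨n0, n1, n2, n3, n4⟩ := hno
    have m0 : k0.ev x ≠ 0 := n0 hxC
    have m1 : k1.ev x ≠ 0 := n1 hxC
    have m2 : k2.ev x ≠ 0 := n2 hxC
    have m3 : k3.ev x ≠ 0 := n3 hxC
    have m4 : k4.ev x ≠ 0 := n4 hxC
    have e0 : k0.ev x = x 0 := by simp [hk0, Ln.ev]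
    have e1 : k1.ev x = x 0 - 6 := by simp [hk1, Ln.ev]
    have e2 : k2.ev x = x 1 := by simp [hk2, Ln.ev]
    have e3 : k3.ev x = x 1 - x 0 / 2 - 2 := by simp [hk3, Ln.ev]; ring
    have e4 : k4.ev x = x 1 + x 0 / 6 - 4 := by simp [hk4, Ln.ev]; ring
    rw [e0] at m0; rw [e1] at m1; rw [e2] at m2; rw [e3] at m3; rw [e4] at m4
    obtain ⟨h1, h2, h3, h4, h5⟩ := hxC
    have h0' : Continuous (fun x : E2 => x 0) := by fun_prop
    have h1' : Continuous (fun x : E2 => x 1) := by fun_prop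
    have ho : IsOpen {x : E2 | 0 < x 0 ∧ x 0 < 6 ∧ 0 < x 1 ∧ x 1 < 2 + x 0 / 2 ∧ x 1 < 4 - x 0 / 6} :=
      (isOpen_lt continuous_const h0').inter ((isOpen_lt h0' continuous_const).inter
        ((isOpen_lt continuous_const h1').inter ((isOpen_lt h1' (by fun_prop)).inter (isOpen_lt h1' (by fun_prop)))))
    apply hx.2
    refine mem_interior.2 ⟨_, ?_, ho, ?_⟩
    · rintro x ⟨a, b, c, d, e⟩
      exact ⟨a.le, b.le, c.le, d.le, e.le⟩
    · refine ⟨lt_of_le_of_ne h1 (Ne.symm m0), lt_of_le_of_ne h2 (fun h => m1 (by linarith)),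
        lt_of_le_of_ne h3 (Ne.symm m2), lt_of_le_of_ne h4 (fun h => m3 (by linarith)),
        lt_of_le_of_ne h5 (fun h => m4 (by linarith))⟩
  have : per Cg ≤ ENNReal.ofReal 10 + (ENNReal.ofReal 10 + (ENNReal.ofReal 10 + (ENNReal.ofReal 10 + ENNReal.ofReal 10))) := by
    refine (measure_mono hsub).trans ?_
    refine (measure_union_le _ _).trans (add_le_add (b _) ?_)
    refine (measure_union_le _ _).trans (add_le_add (b _) ?_)
    refine (measure_union_le _ _).trans (add_le_add (b _) ?_)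
    exact (measure_union_le _ _).trans (add_le_add (b _) (b _))
  exact ne_top_of_le_ne_top (by simp) this

/-- the maximum -/
noncomputable def M : ENNReal := per Cg + 2 * (ell + ell)

theorem total_three (P : Fin 3 → Set E2) : total P = per (P 0) + per (P 1) + per (P 2) := by
  rw [total, Fin.sum_univ_three]

theorem upper {P : Fin 3 → Set E2} (h : IsEqui Cg 3 P) : total P ≤ M := by
  have T := h.three body_Cg
  have v : ∀ i, volume (P i) = 6 := fun i => (h.area i).trans vol_div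
  rw [total_three]
  exact (total3_le T).trans (add_le_add le_rfl (mul_le_mul_right (T.cuts_le LC_Cg (v 0) (v 1) (v 2)) 2))

theorem upper_lt {P : Fin 3 → Set E2} (h : IsEqui Cg 3 P) {z : E2} (hz : z ∈ interior Cg) (h0 : z ∈ P 0)
    (h1 : z ∈ P 1) (h2 : z ∈ P 2) : total P < M := by
  have T := h.three body_Cg
  have v : ∀ i, volume (P i) = 6 := fun i => (h.area i).trans vol_div
  rw [total_three]
  refine (total3_le T).trans_lt ?_
  refine ENNReal.add_lt_add_left per_fin ?_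
  exact (ENNReal.mul_lt_mul_iff_right (by norm_num) (by norm_num)).2 (T.caseX LC_Cg (v 0) (v 1) (v 2) hz h0 h1 h2)

theorem three_A : Three Cg A1 A2 A3 := by
  have hB : IsBody (Cg ∩ {x | 0 ≤ l1.ev x}) := by
    apply body_sub body_Cg
    have h := vol_split (K := Cg ∩ {x | 0 ≤ l1.ev x}) l2
    rw [h]
    change 0 < volume A3 + volume A2
    rw [vol_A3]; exact add_pos_of_pos_of_nonneg (by norm_num) zero_le
  refine ⟨body_Cg, ?_, ?_, ?_, ?_, ?_, ?_, ?_⟩
  · exact body_sub' body_Cg l1 (by change 0 < volume A1; rw [vol_A1]; norm_num)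
  · exact body_sub' hB l2 (by change 0 < volume A2; rw [vol_A2]; norm_num)
  · exact body_sub hB l2 (by change 0 < volume A3; rw [vol_A3]; norm_num)
  · exact (disj_sub l1 (fun x hx => hx.1.2) (fun x hx => hx.2)).symm
  · exact (disj_sub l2 (fun x hx => hx.2) (fun x hx => hx.2)).symm
  · exact disj_sub l1 (fun x hx => hx.1.2) (fun x hx => hx.2)
  · intro x
    constructor
    · intro hx
      rcases le_total (l1.ev x) 0 with h | h
      · exact Or.inl ⟨hx, h⟩
      · rcases le_total (l2.ev x) 0 with h' | h'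
        · exact Or.inr (Or.inl ⟨⟨hx, h⟩, h'⟩)
        · exact Or.inr (Or.inr ⟨⟨hx, h⟩, h'⟩)
    · rintro (h | h | h)
      exacts [h.1, h.1.1, h.1.1]

theorem frontier_sup {C P Q : Set E2} (hP : IsBody P) (hQ : IsBody Q) (hPC : P ⊆ C)
    (hd : Disjoint (interior P) (interior Q)) : (frontier C ∩ P) ∪ (P ∩ Q) ⊆ frontier P := by
  rintro x (⟨h1, h2⟩ | ⟨h1, h2⟩)
  · exact ⟨subset_closure h2, fun h => h1.2 (interior_mono hPC h)⟩
  · refine ⟨subset_closure h1, fun h => ?_⟩
    have h3 : x ∈ closure (interior Q) := by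
      rw [hQ.2.1.closure_interior_eq_closure_of_nonempty_interior hQ.2.2]
      exact subset_closure h2
    obtain ⟨y, hy1, hy2⟩ := mem_closure_iff.1 h3 _ isOpen_interior h
    exact Set.disjoint_left.1 hd hy1 hy2

theorem seg_ell {p q : E2} (h : dist p q = √40) : Measure.hausdorffMeasure 1 (segment ℝ p q) = ell := by
  rw [← affineSegment_eq_segment, hausdorffMeasure_affineSegment, edist_dist, h, ell]

theorem dist_eq_of {p q : E2} (h : (q 0 - p 0) ^ 2 + (q 1 - p 1) ^ 2 = 40) : dist p q = √40 := by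
  rw [← h, ← dist_sq, Real.sqrt_sq dist_nonneg]

theorem cut12 : ell ≤ Measure.hausdorffMeasure 1 (A1 ∩ A2 : Set E2) := by
  set p : E2 := !₂[0, 0] with hp
  set q : E2 := !₂[6, 2] with hq
  have p0 : p 0 = 0 := by simp [hp]
  have p1 : p 1 = 0 := by simp [hp]
  have q0 : q 0 = 6 := by simp [hq]
  have q1 : q 1 = 2 := by simp [hq]
  rw [← seg_ell (p := p) (q := q) (dist_eq_of (by rw [p0, p1, q0, q1]; norm_num))]
  apply measure_mono
  refine (three_A.hP.2.1.inter three_A.hQ.2.1).segment_subset ?_ ?_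
  · refine ⟨⟨?_, ?_⟩, ⟨⟨?_, ?_⟩, ?_⟩⟩
    · rw [mem_Cg, p0, p1]; norm_num
    · show l1.ev p ≤ 0
      rw [l1_ev, p0, p1]; norm_num
    · rw [mem_Cg, p0, p1]; norm_num
    · show 0 ≤ l1.ev p
      rw [l1_ev, p0, p1]; norm_num
    · show l2.ev p ≤ 0
      rw [l2_ev, p0, p1]; norm_num
  · refine ⟨⟨?_, ?_⟩, ⟨⟨?_, ?_⟩, ?_⟩⟩
    · rw [mem_Cg, q0, q1]; norm_num
    · show l1.ev q ≤ 0
      rw [l1_ev, q0, q1]; norm_num
    · rw [mem_Cg, q0, q1]; norm_num
    · show 0 ≤ l1.ev q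
      rw [l1_ev, q0, q1]; norm_num
    · show l2.ev q ≤ 0
      rw [l2_ev, q0, q1]; norm_num

theorem cut23 : ell ≤ Measure.hausdorffMeasure 1 (A2 ∩ A3 : Set E2) := by
  set p : E2 := !₂[0, 1] with hp
  set q : E2 := !₂[6, 3] with hq
  have p0 : p 0 = 0 := by simp [hp]
  have p1 : p 1 = 1 := by simp [hp]
  have q0 : q 0 = 6 := by simp [hq]
  have q1 : q 1 = 3 := by simp [hq]
  rw [← seg_ell (p := p) (q := q) (dist_eq_of (by rw [p0, p1, q0, q1]; norm_num))]
  apply measure_mono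
  have key : ∀ v ∈ Cg, 0 ≤ l1.ev v → l2.ev v = 0 → v ∈ A2 ∩ A3 := fun v h1 h2 h3 =>
    ⟨⟨⟨h1, h2⟩, h3.le⟩, ⟨⟨h1, h2⟩, h3.ge⟩⟩
  refine (three_A.hQ.2.1.inter three_A.hR.2.1).segment_subset (key p ?_ ?_ ?_) (key q ?_ ?_ ?_)
  · rw [mem_Cg, p0, p1]; norm_num
  · rw [l1_ev, p0, p1]; norm_num
  · rw [l2_ev, p0, p1]; norm_num
  · rw [mem_Cg, q0, q1]; norm_num
  · rw [l1_ev, q0, q1]; norm_num
  · rw [l2_ev, q0, q1]; norm_num

theorem lower : M ≤ total ![A1, A2, A3] := by
  have T := three_A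
  rw [total_three]
  change M ≤ per A1 + per A2 + per A3
  have mF : MeasurableSet (frontier Cg) := isClosed_frontier.measurableSet
  have m1 : MeasurableSet A1 := T.hP.1.isClosed.measurableSet
  have m2 : MeasurableSet A2 := T.hQ.1.isClosed.measurableSet
  have m3 : MeasurableSet A3 := T.hR.1.isClosed.measurableSet
  have n12 := inter_frontier_null body_Cg T.hP T.hQ T.subP T.subQ T.pq
  have n23 := inter_frontier_null body_Cg T.hQ T.hR T.subQ T.subR T.qr
  have u1 : Measure.hausdorffMeasure 1 (frontier Cg ∩ A1 : Set E2) + ell ≤ per A1 := by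
    have h := measure_mono (μ := Measure.hausdorffMeasure 1) (frontier_sup T.hP T.hQ T.subP T.pq)
    rw [measure_union₀ (m1.inter m2).nullMeasurableSet (measure_mono_null (by
      rintro x ⟨⟨a, _⟩, b⟩; exact ⟨a, b⟩) n12)] at h
    exact (add_le_add le_rfl cut12).trans h
  have u3 : Measure.hausdorffMeasure 1 (frontier Cg ∩ A3 : Set E2) + ell ≤ per A3 := by
    have h := measure_mono (μ := Measure.hausdorffMeasure 1) (frontier_sup T.hR T.hQ T.subR T.qr.symm)
    rw [inter_comm A3 A2, measure_union₀ (m2.inter m3).nullMeasurableSet (measure_mono_null (by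
      rintro x ⟨⟨a, _⟩, b⟩; exact ⟨a, b⟩) n23)] at h
    exact (add_le_add le_rfl cut23).trans h
  have u2 : Measure.hausdorffMeasure 1 (frontier Cg ∩ A2 : Set E2) + ell + ell ≤ per A2 := by
    have hs : ((frontier Cg ∩ A2) ∪ (A1 ∩ A2)) ∪ (A2 ∩ A3) ⊆ frontier A2 := by
      apply union_subset
      · have := frontier_sup T.hQ T.hP T.subQ T.pq.symm
        rwa [inter_comm A2 A1] at this
      · exact subset_union_right.trans (frontier_sup T.hQ T.hR T.subQ T.qr)
    have h := measure_mono (μ := Measure.hausdorffMeasure 1) hs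
    have hn : Measure.hausdorffMeasure 1 (((frontier Cg ∩ A2) ∪ (A1 ∩ A2)) ∩ (A2 ∩ A3) : Set E2) = 0 := by
      refine measure_mono_null ?_ n23
      rintro x ⟨h1 | h1, h2⟩
      · exact ⟨h1.1, h2⟩
      · exfalso
        have e1 : l1.ev x ≤ 0 := h1.1.2
        have e2 : 0 ≤ l2.ev x := h2.2.2
        rw [l1_ev] at e1
        rw [l2_ev] at e2
        linarith
    rw [measure_union₀ (m2.inter m3).nullMeasurableSet hn,
      measure_union₀ (m1.inter m2).nullMeasurableSet (measure_mono_null (by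
      rintro x ⟨⟨a, _⟩, b⟩; exact ⟨a, b⟩) n12)] at h
    exact (add_le_add (add_le_add le_rfl cut12) cut23).trans h
  have hcov : frontier Cg ⊆ (frontier Cg ∩ A1) ∪ ((frontier Cg ∩ A2) ∪ (frontier Cg ∩ A3)) := by
    intro x hx
    rcases (T.cov x).1 (closed_Cg.frontier_subset hx) with h | h | h
    exacts [Or.inl ⟨hx, h⟩, Or.inr (Or.inl ⟨hx, h⟩), Or.inr (Or.inr ⟨hx, h⟩)]
  have hper : per Cg ≤ Measure.hausdorffMeasure 1 (frontier Cg ∩ A1 : Set E2) +
      (Measure.hausdorffMeasure 1 (frontier Cg ∩ A2 : Set E2) + Measure.hausdorffMeasure 1 (frontier Cg ∩ A3 : Set E2)) :=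
    (measure_mono hcov).trans ((measure_union_le _ _).trans (add_le_add le_rfl (measure_union_le _ _)))
  calc M ≤ (Measure.hausdorffMeasure 1 (frontier Cg ∩ A1 : Set E2) +
      (Measure.hausdorffMeasure 1 (frontier Cg ∩ A2 : Set E2) + Measure.hausdorffMeasure 1 (frontier Cg ∩ A3 : Set E2))) +
      2 * (ell + ell) := add_le_add hper le_rfl
    _ = (Measure.hausdorffMeasure 1 (frontier Cg ∩ A1 : Set E2) + ell) +
      (Measure.hausdorffMeasure 1 (frontier Cg ∩ A2 : Set E2) + ell + ell) +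
      (Measure.hausdorffMeasure 1 (frontier Cg ∩ A3 : Set E2) + ell) := by rw [two_mul]; abel
    _ ≤ _ := add_le_add (add_le_add u1 u2) u3

theorem isMax_A : IsMax Cg 3 ![A1, A2, A3] :=
  ⟨three_A.equi vol_div vol_A1 vol_A2 vol_A3, fun _ hQ => (upper hQ).trans lower⟩

theorem max_total {P : Fin 3 → Set E2} (h : IsMax Cg 3 P) : M ≤ total P := lower.trans (h.2 _ isMax_A.1)

theorem max_nonCrossing {P : Fin 3 → Set E2} (h : IsMax Cg 3 P) : NonCrossing Cg P := by
  intro x hx i j k hij hjk hik hh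
  have key : x ∈ P 0 ∧ x ∈ P 1 ∧ x ∈ P 2 := by
    obtain ⟨a, b, c⟩ := hh
    fin_cases i <;> fin_cases j <;> fin_cases k <;> first
      | exact absurd rfl hij
      | exact absurd rfl hjk
      | exact absurd rfl hik
      | exact ⟨a, b, c⟩
      | exact ⟨a, c, b⟩
      | exact ⟨b, a, c⟩
      | exact ⟨b, c, a⟩
      | exact ⟨c, a, b⟩
      | exact ⟨c, b, a⟩
  exact absurd (upper_lt h.1 hx key.1 key.2.1 key.2.2) (not_lt.2 (max_total h))

end Q144.GE
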