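import Pool.Agent.Q144.GEh

set_option autoImplicit false

open MeasureTheory Metric Set Filter Topology

namespace Q144.GE

theorem body_Tg : IsBody Tg := body_sub' body_Cg lk (by change 0 < volume Tg; rw [vol_Tg]; norm_num)
theorem body_Kg : IsBody Kg := body_sub body_Cg lk (by change 0 < volume Kg; rw [vol_Kg]; norm_num)

theorem disj_TK : Disjoint (interior Tg) (interior Kg) := (disj_sub lk (fun x hx => hx.2) (fun x hx => hx.2)).symm

theorem union_TK : Tg ∪ Kg = Cg := by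
  ext x
  constructor
  · rintro (h | h) <;> exact h.1
  · intro h
    rcases le_total (lk.ev x) 0 with h1 | h1
    exacts [Or.inl ⟨h, h1⟩, Or.inr ⟨h, h1⟩]

theorem first_step : ∃ p q : E2, Splits Cg Tg Kg p q ∧ dist p q = √40 ∧ volume Tg = 6 ∧
    ∀ (P' Q' : Set E2) (p' q' : E2), Splits Cg P' Q' p' q' → volume P' = 6 → dist p' q' ≤ dist p q := by
  set p : E2 := !₂[0, 2] with hp
  set q : E2 := !₂[6, 0] with hq
  have p0 : p 0 = 0 := by simp [hp]
  have p1 : p 1 = 2 := by simp [hp]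
  have q0 : q 0 = 6 := by simp [hq]
  have q1 : q 1 = 0 := by simp [hq]
  have hd : dist p q = √40 := dist_eq_of (by rw [p0, p1, q0, q1]; norm_num)
  have hpC : p ∈ Cg := by rw [mem_Cg, p0, p1]; norm_num
  have hqC : q ∈ Cg := by rw [mem_Cg, q0, q1]; norm_num
  have lp : lk.ev p = 0 := by rw [lk_ev, p0, p1]; norm_num
  have lq : lk.ev q = 0 := by rw [lk_ev, q0, q1]; norm_num
  refine ⟨p, q, ⟨?_, ?_, ?_, body_Tg, body_Kg, disj_TK, union_TK, ?_⟩, hd, vol_Tg, ?_⟩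
  · refine ⟨subset_closure hpC, fun h => ?_⟩
    have := Ln.ev_pos_of_interior (⟨1, 0, 0, Or.inl one_ne_zero⟩ : Ln) (P := Cg)
      (fun x hx => by simp [Ln.ev]; exact hx.1) h
    simp [Ln.ev, p0] at this
  · refine ⟨subset_closure hqC, fun h => ?_⟩
    have := Ln.ev_pos_of_interior (⟨0, 1, 0, Or.inr one_ne_zero⟩ : Ln) (P := Cg)
      (fun x hx => by simp [Ln.ev]; exact hx.2.2.1) h
    simp [Ln.ev, q1] at this
  · intro h
    have := congrArg (fun v : E2 => v 1) h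
    simp only [p1, q1] at this
    norm_num at this
  · apply Subset.antisymm
    · rintro x ⟨⟨h1, h2⟩, ⟨_, h3⟩⟩
      have h4 : lk.ev x = 0 := le_antisymm h2 h3
      rw [lk_ev] at h4
      rw [segment_eq_image']
      obtain ⟨a1, a2, _⟩ := h1
      refine ⟨x 0 / 6, ⟨by linarith, by linarith⟩, ?_⟩
      ext i
      fin_cases i
      · simp [p0, q0]
      · simp [p1, q1]; linarith
    · exact (body_Tg.2.1.inter body_Kg.2.1).segment_subset ⟨⟨hpC, lp.le⟩, ⟨hpC, lp.ge⟩⟩ ⟨⟨hqC, lq.le⟩, ⟨hqC, lq.ge⟩⟩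
  · intro P' Q' p' q' hs hv
    rw [hd]
    by_contra hc
    push Not at hc
    obtain ⟨_, _, _, hP, hQ, hdj, hcov, hseg⟩ := hs
    obtain ⟨l, hl1, hl2⟩ := exists_sep hP hQ hdj
    have hp' : p' ∈ P' ∩ Q' := hseg ▸ left_mem_segment ℝ p' q'
    have hq' : q' ∈ P' ∩ Q' := hseg ▸ right_mem_segment ℝ p' q'
    have h1 := LC_Cg p' (hcov ▸ Or.inl hp'.1) q' (hcov ▸ Or.inl hq'.1) hc l
      (le_antisymm (hl2 p' hp'.2) (hl1 p' hp'.1)) (le_antisymm (hl2 q' hq'.2) (hl1 q' hq'.1))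
    rw [two_vol body_Cg hP hcov hl1 hl2, hv] at h1
    exact lt_irrefl _ h1

theorem second_step : ∃ P Q, GreedyStep Kg 6 P Q := by
  set p : E2 := !₂[6, 2] with hp
  set q : E2 := !₂[0, 2] with hq
  have p0 : p 0 = 6 := by simp [hp]
  have p1 : p 1 = 2 := by simp [hp]
  have q0 : q 0 = 0 := by simp [hq]
  have q1 : q 1 = 2 := by simp [hq]
  have hpC : p ∈ Kg := by
    refine ⟨?_, ?_⟩
    · rw [mem_Cg, p0, p1]; norm_num
    · show 0 ≤ lk.ev p
      rw [lk_ev, p0, p1]; norm_num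
  have hqC : q ∈ Kg := by
    refine ⟨?_, ?_⟩
    · rw [mem_Cg, q0, q1]; norm_num
    · show 0 ≤ lk.ev q
      rw [lk_ev, q0, q1]; norm_num
  refine greedy_exists body_Kg hpC hqC ?_ ?_ (by norm_num) (by rw [vol_Kg]; norm_num)
  · intro h
    have := congrArg (fun v : E2 => v 0) h
    simp only [p0, q0] at this
    norm_num at this
  · have h : Kg ∩ half p q = {x : E2 | (0:ℝ) ≤ x 0 ∧ x 0 ≤ 6 ∧ (-1/3) * x 0 + 2 ≤ x 1 ∧ x 1 ≤ 0 * x 0 + 2} := by
      ext x
      have hh : x ∈ half p q ↔ x 1 ≤ 2 := by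
        show 0 ≤ crv (q - p) (x - p) ↔ _
        simp only [crv, PiLp.sub_apply, p0, p1, q0, q1]
        constructor <;> intro h <;> linarith
      rw [mem_inter_iff, hh, Kg, mem_inter_iff, mem_Cg]
      show (_ ∧ 0 ≤ lk.ev x) ∧ _ ↔ _ ∧ _ ∧ _ ∧ _
      rw [lk_ev]
      constructor
      · rintro ⟨⟨⟨h1, h2, h3, h4, h5⟩, h6⟩, h7⟩
        exact ⟨h1, h2, by linarith, by linarith⟩
      · rintro ⟨h1, h2, h3, h4⟩
        exact ⟨⟨⟨h1, h2, by linarith, by linarith, by linarith⟩, by linarith⟩, by linarith⟩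
    rw [h, vol_trap (by norm_num) (by norm_num) (by norm_num), six]
    congr 1; norm_num

theorem diam_aux {p q : E2} (hp : p ∈ Kg) (hq : q ∈ Kg) (h : p 0 ≤ q 0) (hd : 40 ≤ (q 0 - p 0) ^ 2 + (q 1 - p 1) ^ 2) :
    lk.ev p = 0 ∧ lk.ev q = 0 := by
  obtain ⟨⟨a1, a2, a3, a4, a5⟩, a6⟩ := hp
  obtain ⟨⟨b1, b2, b3, b4, b5⟩, b6⟩ := hq
  have a6' : 0 ≤ lk.ev p := a6
  have b6' : 0 ≤ lk.ev q := b6
  rw [lk_ev] at a6' b6'
  rw [lk_ev, lk_ev]
  rcases le_total (q 1) (p 1) with hy | hy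
  · have e1 : p 1 - q 1 ≤ p 0 / 2 + q 0 / 3 := by linarith
    have e2 : (q 1 - p 1) ^ 2 ≤ (p 0 / 2 + q 0 / 3) ^ 2 := by nlinarith
    have e3 : (q 0 - p 0) ^ 2 + (p 0 / 2 + q 0 / 3) ^ 2 = 10/9 * q 0 ^ 2 - 5/3 * (p 0 * q 0) + 5/4 * p 0 ^ 2 := by ring
    have e4 : q 0 ^ 2 ≤ 6 * q 0 := by nlinarith
    have e5 : p 0 ^ 2 ≤ p 0 * q 0 := by nlinarith
    have e6 : 0 ≤ p 0 * q 0 := mul_nonneg a1 b1
    have e7 : q 0 = 6 := by nlinarith
    have e8 : p 0 = 0 := by rw [e7] at e3 e4 e5 e6; nlinarith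
    rw [e7, e8] at hd
    rw [e7] at b6' b5 b4
    rw [e8] at a6' a4 a5
    have e9 : 2 ≤ p 1 - q 1 := by nlinarith
    constructor <;> [rw [e8]; rw [e7]] <;> linarith
  · exfalso
    have e1 : q 1 - p 1 ≤ 3 - (q 0 - p 0) / 3 := by linarith
    have e2 : (q 1 - p 1) ^ 2 ≤ (3 - (q 0 - p 0) / 3) ^ 2 := by nlinarith
    have e3 : 0 ≤ q 0 - p 0 := by linarith
    have e4 : q 0 - p 0 ≤ 6 := by linarith
    nlinarith

theorem diam_Kg {p q : E2} (hp : p ∈ Kg) (hq : q ∈ Kg) (h : √40 ≤ dist p q) : lk.ev p = 0 ∧ lk.ev q = 0 := by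
  have hd : 40 ≤ dist p q ^ 2 := by
    have h0 := Real.sq_sqrt (show (0:ℝ) ≤ 40 by norm_num)
    have h1 := Real.sqrt_nonneg (40:ℝ)
    nlinarith
  rcases le_total (p 0) (q 0) with h1 | h1
  · exact diam_aux hp hq h1 (by rwa [← dist_sq])
  · have := diam_aux hq hp h1 (by rwa [← dist_sq, dist_comm])
    exact ⟨this.2, this.1⟩

theorem second_short {P Q : Set E2} {p q : E2} (h : Splits Kg P Q p q) : dist p q < √40 := by
  by_contra hc
  push Not at hc
  obtain ⟨hpf, hqf, hne, hP, hQ, hd, hcov, hseg⟩ := h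
  obtain ⟨kp, kq⟩ := diam_Kg (body_Kg.1.isClosed.frontier_subset hpf) (body_Kg.1.isClosed.frontier_subset hqf) hc
  obtain ⟨l, hl1, hl2⟩ := exists_sep hP hQ hd
  have hp : p ∈ P ∩ Q := hseg ▸ left_mem_segment ℝ p q
  have hq : q ∈ P ∩ Q := hseg ▸ right_mem_segment ℝ p q
  have lp : l.ev p = 0 := le_antisymm (hl2 p hp.2) (hl1 p hp.1)
  have lq : l.ev q = 0 := le_antisymm (hl2 q hq.2) (hl1 q hq.1)
  have hprop : ∀ k : Ln, k.ev p = 0 → k.ev q = 0 → ∃ t : ℝ, t ≠ 0 ∧ ∀ x, crv (q - p) (x - p) = t * k.ev x := by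
    intro k hkp hkq
    obtain ⟨t, ht⟩ := k.exists_dir hkp hkq
    refine ⟨-t, ?_, ?_⟩
    · rw [neg_ne_zero]
      rintro rfl
      rw [zero_smul, add_zero] at ht
      exact hne ht.symm
    · intro x
      rw [ht]
      have := hkp
      simp only [Ln.ev] at this ⊢
      simp [crv, Ln.dir]
      linear_combination t * this
  obtain ⟨t, ht0, ht⟩ := hprop l lp lq
  obtain ⟨s, hs0, hs⟩ := hprop lk kp kq
  have rel : ∀ x, t * l.ev x = s * lk.ev x := fun x => (ht x).symm.trans (hs x)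
  obtain ⟨y, hy⟩ := hP.2.2
  obtain ⟨w, hw⟩ := hQ.2.2
  have ly : 0 < l.ev y := l.ev_pos_of_interior hl1 hy
  have lw : l.ev w < 0 := by
    have := l.neg.ev_pos_of_interior (P := Q) (fun y hy => by rw [Ln.ev_neg]; linarith [hl2 y hy]) hw
    rw [Ln.ev_neg] at this; linarith
  have hyK : y ∈ Kg := hcov ▸ Or.inl (interior_subset hy)
  have hwK : w ∈ Kg := hcov ▸ Or.inr (interior_subset hw)
  have ky : 0 ≤ lk.ev y := hyK.2
  have kw : 0 ≤ lk.ev w := hwK.2
  have r1 := rel y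
  have r2 := rel w
  have h1 : 0 < t * s * (lk.ev y) * (l.ev y) := by
    have : t * s * lk.ev y * l.ev y = (s * lk.ev y) * (t * l.ev y) := by ring
    rw [this, ← r1]
    have : 0 < (t * l.ev y) ^ 2 := by positivity
    nlinarith
  have h2 : 0 < t * s * (lk.ev w) * (l.ev w) := by
    have : t * s * lk.ev w * l.ev w = (s * lk.ev w) * (t * l.ev w) := by ring
    rw [this, ← r2]
    have : t * l.ev w ≠ 0 := mul_ne_zero ht0 lw.ne
    have : 0 < (t * l.ev w) ^ 2 := by positivity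
    nlinarith
  have h3 : 0 ≤ lk.ev y * l.ev y := mul_nonneg ky ly.le
  have h4 : lk.ev w * l.ev w ≤ 0 := mul_nonpos_of_nonneg_of_nonpos kw lw.le
  have h5 : 0 < t * s := by
    by_contra hc
    push Not at hc
    nlinarith
  nlinarith

/-- greedy fails -/
theorem greedy_fails : ∃ G : Fin 3 → Set E2, IsGreedy Cg 3 G ∧ IsEqui Cg 3 G ∧ total G < M := by
  obtain ⟨p1, q1, hs1, hd1, hv1, hm1⟩ := first_step
  obtain ⟨P, Q, p, q, hs, hv, hm⟩ := second_step
  have hshort := second_short hs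
  obtain ⟨hpf, hqf, hne, hP, hQ, hd, hcov, hseg⟩ := id hs
  obtain ⟨l, hl1, hl2⟩ := exists_sep hP hQ hd
  have hvQ : volume Q = 6 := by
    have h1 := vol_split (K := Kg) l
    rw [two_vol body_Kg hP hcov hl1 hl2, hv, vol_Kg] at h1
    have h2 : volume (Kg ∩ {x | l.ev x ≤ 0}) = volume Q := by
      have e : {x | l.ev x ≤ 0} = {x | 0 ≤ l.neg.ev x} := by ext x; simp
      rw [e]
      refine two_vol body_Kg hQ (by rw [union_comm]; exact hcov) ?_ ?_
      · intro x hx; rw [Ln.ev_neg]; linarith [hl2 x hx]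
      · intro x hx; rw [Ln.ev_neg]; linarith [hl1 x hx]
    rw [h2] at h1
    have h3 : (6 : ENNReal) + 6 = 6 + volume Q := by rw [← h1]; norm_num
    exact ((ENNReal.add_right_inj (by norm_num)).1 h3).symm
  have hPK : P ⊆ Kg := fun x hx => hcov ▸ Or.inl hx
  have hQK : Q ⊆ Kg := fun x hx => hcov ▸ Or.inr hx
  have T : Three Cg Tg P Q := by
    refine ⟨body_Cg, body_Tg, hP, hQ, disj_TK.mono_right (interior_mono hPK), hd,
      (disj_TK.mono_right (interior_mono hQK)).symm, ?_⟩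
    intro x
    rw [← union_TK, mem_union, ← hcov, mem_union]
  refine ⟨![Tg, P, Q], ?_, T.equi vol_div vol_Tg hv hvQ, ?_⟩
  · refine ⟨fun n => match n with
      | 0 => Cg
      | 1 => Kg
      | _ => Q, rfl, ?_, ?_⟩
    · intro j hj
      rw [vol_div]
      fin_cases j
      · exact ⟨p1, q1, hs1, hv1, hm1⟩
      · exact ⟨p, q, hs, hv, hm⟩
      · exact absurd hj (by decide)
    · intro j hj
      fin_cases j
      · exact absurd hj (by decide)
      · exact absurd hj (by decide)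
      · rfl
  · rw [total_three]
    change per Tg + per P + per Q < M
    have t1 := total2_le body_Cg body_Tg body_Kg disj_TK union_TK
    have t2 := total2_le body_Kg hP hQ hd hcov
    rw [hs1.2.2.2.2.2.2.2, seg_ell hd1] at t1
    have hlt : Measure.hausdorffMeasure 1 (P ∩ Q : Set E2) < ell := by
      rw [hseg, ← affineSegment_eq_segment, hausdorffMeasure_affineSegment, edist_dist, ell]
      exact (ENNReal.ofReal_lt_ofReal_iff (by positivity)).2 hshort
    calc per Tg + per P + per Q = per Tg + (per P + per Q) := by rw [add_assoc]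
      _ ≤ per Tg + (per Kg + 2 * Measure.hausdorffMeasure 1 (P ∩ Q : Set E2)) := add_le_add le_rfl t2
      _ = (per Tg + per Kg) + 2 * Measure.hausdorffMeasure 1 (P ∩ Q : Set E2) := by rw [add_assoc]
      _ ≤ (per Cg + 2 * ell) + 2 * Measure.hausdorffMeasure 1 (P ∩ Q : Set E2) := add_le_add t1 le_rfl
      _ < (per Cg + 2 * ell) + 2 * ell := by
          refine ENNReal.add_lt_add_left ?_ ?_
          · exact ENNReal.add_ne_top.2 ⟨per_fin, ENNReal.mul_ne_top (by norm_num) ell_fin⟩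
          · exact (ENNReal.mul_lt_mul_iff_right (by norm_num) (by norm_num)).2 hlt
      _ = M := by rw [M, mul_add, add_assoc]

end Q144.GE
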