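import Pool.Agent.Q31.GLV.Stm

/-! Job GLV-T5A of project GLV (helper31). -/

set_option autoImplicit false

namespace Pool.Agent.Q144.GLVT5A

open Module Cardinal Submodule Pool.Agent.Q31.GLV

theorem t_T5A : S_T5A := by
  intro F V _ _ _ hV hμ H hH U hU hNT
  obtain ⟨μ, hμ0, hμ1⟩ := hμ
  have hμ1' : μ - 1 ≠ 0 := sub_ne_zero.mpr hμ1
  obtain ⟨k, hkH, hkU, hkV⟩ := hNT (LinearEquiv.smulOfNeZero F U μ hμ0)
  have hkU' : ∀ u : V, u ∈ U → k u = μ • u := by
    intro u hu
    have := hkU ⟨u, hu⟩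
    simpa using this
  let γ : V →ₗ[F] U := LinearMap.codRestrict U ((k : V →ₗ[F] V) - LinearMap.id) (fun v => by
    simpa using hkV v)
  have hγ : ∀ v, ((γ v : U) : V) = k v - v := fun v => by simp [γ]
  have hγU : ∀ u : V, u ∈ U → ((γ u : U) : V) = (μ - 1) • u := by
    intro u hu
    rw [hγ, hkU' u hu, sub_smul, one_smul]
  let C : Submodule F V := LinearMap.ker γ
  have hC : ∀ v, v ∈ C ↔ ((γ v : U) : V) = 0 := by
    intro v
    rw [LinearMap.mem_ker]
    constructor
    · intro h; rw [h]; rfl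
    · intro h; exact Subtype.ext h
  -- the projection onto `C`
  let q : V →ₗ[F] V := LinearMap.id - (μ - 1)⁻¹ • (U.subtype ∘ₗ γ)
  have hq : ∀ v, q v = v - (μ - 1)⁻¹ • ((γ v : U) : V) := fun v => by simp [q]
  have hqU : ∀ u : V, u ∈ U → q u = 0 := by
    intro u hu
    rw [hq, hγU u hu, smul_smul, inv_mul_cancel₀ hμ1', one_smul, sub_self]
  have hqC : ∀ c : V, c ∈ C → q c = c := by
    intro c hc
    rw [hq, (hC c).1 hc, smul_zero, sub_zero]
  refine ⟨C, ?_, ?_⟩
  · constructor
    · rw [Submodule.disjoint_def]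
      intro x hx hxC
      have h1 := hqU x hx
      rw [hqC x hxC] at h1
      exact h1
    · rw [codisjoint_iff, eq_top_iff]
      intro v _
      rw [Submodule.mem_sup]
      refine ⟨(μ - 1)⁻¹ • ((γ v : U) : V), U.smul_mem _ (γ v).2, q v, ?_, ?_⟩
      · rw [hC]
        have : γ (q v) = 0 := by
          apply Subtype.ext
          rw [hq, map_sub, map_smul]
          rw [Submodule.coe_sub, Submodule.coe_smul, hγU _ (γ v).2, smul_smul,
            inv_mul_cancel₀ hμ1', one_smul, sub_self]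
          rfl
        rw [this]; rfl
      · rw [hq]; abel
  · intro C₁ hC₁ hr hr'
    let W : Submodule F V := U ⊔ C₁
    have hW : Large W := by
      refine ⟨le_antisymm (Submodule.rank_le W) ?_, hr'⟩
      rw [← hU.1]
      exact Submodule.rank_mono (le_sup_left)
    have hne : Nonempty (C₁ ≃ₗ[F] U) := by
      rw [Module.nonempty_linearEquiv_iff_rank_eq]
      rw [hr, hU.1]
    obtain ⟨p⟩ := hne
    have hqW : ∀ w : V, w ∈ W → q w ∈ C₁ := by
      intro w hw
      obtain ⟨u, hu, c, hc, rfl⟩ := Submodule.mem_sup.1 hw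
      rw [map_add, hqU u hu, hqC c (hC₁ hc), zero_add]
      exact hc
    let q' : W →ₗ[F] C₁ := LinearMap.codRestrict C₁ (q ∘ₗ W.subtype) (fun w => hqW w w.2)
    let ρ : W →ₗ[F] W := (Submodule.inclusion (le_sup_left : U ≤ W)) ∘ₗ (p : C₁ →ₗ[F] U) ∘ₗ q'
    have hρ : ∀ w : W, ((ρ w : W) : V) = ((p (q' w) : U) : V) := fun w => rfl
    have hq'U : ∀ w : W, (w : V) ∈ U → q' w = 0 := by
      intro w hw
      apply Subtype.ext
      exact hqU _ hw
    have hρρ : ∀ w, ρ (ρ w) = 0 := by
      intro w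
      apply Subtype.ext
      rw [hρ, hq'U, map_zero]
      · rfl
      · rw [hρ]; exact (p (q' w)).2
    let g : W ≃ₗ[F] W := LinearEquiv.ofLinearMap (LinearMap.id + ρ) (LinearMap.id - ρ)
      (by ext w; simp [hρρ]) (by ext w; simp [hρρ])
    have hg : ∀ w : W, ((g w : W) : V) = (w : V) + ((p (q' w) : U) : V) := fun w => by
      have : g w = w + ρ w := by simp [g]
      rw [this, Submodule.coe_add, hρ]
    obtain ⟨h, hhH, hh⟩ := hH W hW g
    have hhU : ∀ u : V, u ∈ U → h u = u := by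
      intro u hu
      have h1 := hh ⟨u, le_sup_left (a := U) (b := C₁) hu⟩
      rw [hg, hq'U _ hu, map_zero] at h1
      simpa using h1
    have hhU' : ∀ u : V, u ∈ U → h⁻¹ u = u := by
      intro u hu
      have : h.symm u = u := by
        rw [LinearEquiv.symm_apply_eq]; exact (hhU u hu).symm
      exact this
    let τ : V →ₗ[F] U := γ ∘ₗ ((h : V →ₗ[F] V) - LinearMap.id)
    have hτ : ∀ v, τ v = γ (h v - v) := fun v => by simp [τ]
    refine ⟨τ, ⟨?_, h⁻¹ * k * h * k⁻¹, ?_, ?_⟩, ?_⟩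
    · intro u
      rw [hτ, hhU u u.2, sub_self, map_zero]
    · exact H.mul_mem (H.mul_mem (H.mul_mem (H.inv_mem hhH) hkH) hhH) (H.inv_mem hkH)
    · intro v
      obtain ⟨v', rfl⟩ : ∃ v', k v' = v := ⟨k.symm v, k.apply_symm_apply v⟩
      have e1 : (h⁻¹ * k * h * k⁻¹) (k v') = h⁻¹ (k (h v')) := by
        have : k⁻¹ (k v') = v' := k.symm_apply_apply v'
        simp only [LinearEquiv.mul_apply, this]
      have e2 : k (h v') = h v' + ((γ (h v') : U) : V) := by rw [hγ]; abel
      have e3 : h⁻¹ (h v') = v' := h.symm_apply_apply v'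
      have e4 : k v' = v' + ((γ v' : U) : V) := by rw [hγ]; abel
      have e5 : h (k v') - k v' = h v' - v' := by
        rw [e4, map_add, hhU _ (γ v').2]; abel
      rw [e1, e2, map_add, e3, hhU' _ (γ (h v')).2, hτ, e5, map_sub, Submodule.coe_sub]
      rw [e4]; abel
    · intro v hv hτv
      have hvW : v ∈ W := le_sup_right (a := U) (b := C₁) hv
      have h1 := hh ⟨v, hvW⟩
      rw [hg] at h1
      have h2 : q' ⟨v, hvW⟩ = ⟨v, hv⟩ := by
        apply Subtype.ext
        exact hqC v (hC₁ hv)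
      rw [h2] at h1
      rw [hτ] at hτv
      have h3 : h v - v = ((p ⟨v, hv⟩ : U) : V) := by
        have : h v = v + ((p ⟨v, hv⟩ : U) : V) := h1
        rw [this]; abel
      rw [h3] at hτv
      have h4 := hγU _ (p ⟨v, hv⟩).2
      rw [hτv] at h4
      have h5 : ((p ⟨v, hv⟩ : U) : V) = 0 := by
        rcases smul_eq_zero.1 h4.symm with h | h
        · exact absurd h hμ1'
        · exact h
      have h6 : p ⟨v, hv⟩ = 0 := Subtype.ext h5
      have h7 : (⟨v, hv⟩ : C₁) = 0 := by
        apply p.injective; rw [h6, map_zero]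
      exact congrArg Subtype.val h7

end Pool.Agent.Q144.GLVT5A
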