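import Pool.Agent.Q31.GLW.Stm

/-! Job GLW-RS of project GLW (helper31). -/

set_option autoImplicit false

namespace Pool.Agent.Q144.GLWRS

open Module Cardinal Submodule Pool.Agent.Q31.GLW

section
variable {F V : Type} [Field F] [AddCommGroup V] [Module F V]

theorem side_mono {p q : V →ₗ.[F] V} (h : p ≤ q) (e : Bool) : side p e ≤ side q e := by
  cases e with
  | true => exact h.1
  | false =>
    rintro _ ⟨x, rfl⟩
    exact ⟨⟨x, h.1 x.2⟩, (h.2 (x := x) (y := ⟨x, h.1 x.2⟩) rfl).symm⟩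

theorem step1 (hADD : S_ADD) (hICS : S_ICS) (U : Submodule F V) (g : U ≃ₗ[F] U) (hU : IC U)
    (p : V →ₗ.[F] V) (hp : Cond U g p) (e : Bool) (a : V) :
    ∃ q : V →ₗ.[F] V, Cond U g q ∧ p ≤ q ∧ a ∈ side q e := by
  by_cases ha : a ∈ side p e
  · exact ⟨p, hp, le_rfl, ha⟩
  · have hic := hICS F V U g p ⊥ hU hp inferInstance
    have hz : ∃ z, z ∉ side p (!e) := by
      by_contra hcon
      push Not at hcon
      apply hic
      have htop : side p true ⊔ side p false ⊔ ⊥ = (⊤ : Submodule F V) := by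
        rw [eq_top_iff]
        intro v _
        refine Submodule.mem_sup_left ?_
        cases e with
        | true => exact Submodule.mem_sup_right (hcon v)
        | false => exact Submodule.mem_sup_left (hcon v)
      rw [htop]
      infer_instance
    obtain ⟨z, hz⟩ := hz
    obtain ⟨q, hq, hpq, hs, -, -⟩ := hADD F V U g p e a z hp ha hz
    refine ⟨q, hq, hpq, ?_⟩
    rw [hs]
    exact Submodule.mem_sup_right (Submodule.mem_span_singleton_self a)

theorem step2 (hADD : S_ADD) (hICS : S_ICS) (U : Submodule F V) (g : U ≃ₗ[F] U) (hU : IC U)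
    (D : Set (V →ₗ.[F] V)) (hD : ∀ p, Cond U g p → ∃ q ∈ D, Cond U g q ∧ p ≤ q)
    (p : V →ₗ.[F] V) (hp : Cond U g p) (a : V) :
    ∃ q : V →ₗ.[F] V, Cond U g q ∧ p ≤ q ∧ (∃ d ∈ D, d ≤ q) ∧ a ∈ side q true ∧
      a ∈ side q false := by
  obtain ⟨d, hdD, hd, hpd⟩ := hD p hp
  obtain ⟨q₁, h1, h2, h3⟩ := step1 hADD hICS U g hU d hd true a
  obtain ⟨q₂, h4, h5, h6⟩ := step1 hADD hICS U g hU q₁ h1 false a
  exact ⟨q₂, h4, hpd.trans (h2.trans h5), ⟨d, hdD, h2.trans h5⟩, side_mono h5 true h3, h6⟩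

end

theorem t_RS (hADD : S_ADD) (hICS : S_ICS) : S_RS := by
  intro F V _ _ _ _ U g hU D hD
  obtain ⟨f, hf⟩ := exists_surjective_nat V
  let start : V →ₗ.[F] V := ⟨U, U.subtype ∘ₗ (g : U →ₗ[F] U)⟩
  have hstart : Cond U g start := by
    refine ⟨?_, ⟨⊥, inferInstance, ?_⟩, ?_⟩
    · intro x hx
      have h1 : ((g x : U) : V) = 0 := hx
      have h2 : g x = 0 := Subtype.ext h1
      have h3 : x = 0 := by
        apply g.injective; rw [h2, map_zero]
      rw [h3]; rfl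
    · change U = U ⊔ ⊥
      simp
    · intro u x hxu
      have : x = u := Subtype.ext hxu
      change ((g x : U) : V) = _
      rw [this]
  choose st hst1 hst2 hst3 hst4 hst5 using fun (n : ℕ) (p : V →ₗ.[F] V) (hp : Cond U g p) =>
    step2 hADD hICS U g hU (D n) (hD n) p hp (f n)
  let P : ℕ → {p : V →ₗ.[F] V // Cond U g p} := fun n =>
    Nat.rec ⟨start, hstart⟩ (fun n p => ⟨st n p.1 p.2, hst1 n p.1 p.2⟩) n
  have hP : ∀ n, (P (n + 1)).1 = st n (P n).1 (P n).2 := fun n => rfl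
  have hmono : Monotone (fun n => (P n).1) := by
    apply monotone_nat_of_le_succ
    intro n
    rw [hP]
    exact hst2 n _ _
  have hdir : DirectedOn (· ≤ ·) (Set.range fun n => (P n).1) := by
    rintro _ ⟨m, rfl⟩ _ ⟨n, rfl⟩
    exact ⟨_, ⟨max m n, rfl⟩, hmono (le_max_left m n), hmono (le_max_right m n)⟩
  let Q := LinearPMap.sSup _ hdir
  have hQ : ∀ n, (P n).1 ≤ Q := fun n => LinearPMap.le_sSup hdir ⟨n, rfl⟩
  have hdom : ∀ n, f n ∈ (P (n + 1)).1.domain := fun n => by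
    rw [hP]; exact hst4 n _ _
  have hran : ∀ n, f n ∈ LinearMap.range (P (n + 1)).1.toFun := fun n => by
    rw [hP]; exact hst5 n _ _
  have hall : ∀ v : V, v ∈ Q.domain := by
    intro v
    obtain ⟨n, rfl⟩ := hf v
    exact (hQ (n + 1)).1 (hdom n)
  let h₀ : V →ₗ[F] V := Q.toFun ∘ₗ LinearMap.codRestrict Q.domain LinearMap.id hall
  have hh₀ : ∀ (q : V →ₗ.[F] V), q ≤ Q → ∀ x : q.domain, h₀ (x : V) = q x := by
    intro q hq x
    exact (hq.2 (x := x) (y := ⟨(x : V), hall x⟩) rfl).symm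
  have hinj : Function.Injective h₀ := by
    rw [injective_iff_map_eq_zero]
    intro v hv
    obtain ⟨n, rfl⟩ := hf v
    have h1 := hh₀ _ (hQ (n + 1)) ⟨f n, hdom n⟩
    have h2 : (P (n + 1)).1 ⟨f n, hdom n⟩ = 0 := by rw [← h1]; exact hv
    exact (P (n + 1)).2.1 _ h2
  have hsurj : Function.Surjective h₀ := by
    intro v
    obtain ⟨n, rfl⟩ := hf v
    obtain ⟨x, hx⟩ := hran n
    exact ⟨x, (hh₀ _ (hQ (n + 1)) x).trans hx⟩
  refine ⟨LinearEquiv.ofBijective h₀ ⟨hinj, hsurj⟩, ?_, ?_⟩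
  · intro u
    change h₀ (u : V) = _
    exact hh₀ start (hQ 0) u
  · intro n
    obtain ⟨d, hd, hle⟩ := hst3 n (P n).1 (P n).2
    refine ⟨d, hd, ?_⟩
    intro x
    change h₀ (x : V) = _
    exact hh₀ d (hle.trans (by rw [← hP]; exact hQ (n + 1))) x

end Pool.Agent.Q144.GLWRS
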