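import Pool.Agent.Q276.HL.Stm

/-!
Project HL of helper276, job CLT4: large shape.
-/

set_option autoImplicit false

namespace Pool.Agent.Q144.HL

open Pool.Agent.Q276.HL

/-- the integers `z` with `|α z + β| ≤ X` -/
noncomputable def sol (α β : ℤ) (X : ℝ) : Finset ℤ :=
  Finset.Icc ⌈(-(β : ℝ) / α) - X / |(α : ℝ)|⌉ ⌊(-(β : ℝ) / α) + X / |(α : ℝ)|⌋

lemma mem_sol (α β : ℤ) (X : ℝ) (z : ℤ) (hα : α ≠ 0) (h : |((α * z + β : ℤ) : ℝ)| ≤ X) :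
    z ∈ sol α β X := by
  have h0 : (α : ℝ) ≠ 0 := by exact_mod_cast hα
  have h1 : |(z : ℝ) - (-(β : ℝ) / α)| ≤ X / |(α : ℝ)| := by
    rw [le_div_iff₀ (abs_pos.2 h0), ← abs_mul]
    have h2 : ((z : ℝ) - (-(β : ℝ) / α)) * α = ((α * z + β : ℤ) : ℝ) := by
      push_cast
      field_simp
      ring
    rw [h2]
    exact h
  rw [abs_le] at h1
  rw [sol, Finset.mem_Icc, Int.ceil_le, Int.le_floor]
  constructor <;> linarith

lemma card_sol (α β : ℤ) (X : ℝ) (hX : 0 ≤ X) :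
    ((sol α β X).card : ℝ) ≤ 2 * (X / |(α : ℝ)|) + 1 := by
  have hr : 0 ≤ X / |(α : ℝ)| := by positivity
  rw [sol, Int.card_Icc]
  generalize -(β : ℝ) / α = y
  generalize X / |(α : ℝ)| = r at hr
  by_cases h : ⌈y - r⌉ ≤ ⌊y + r⌋ + 1
  · have h1 : (((⌊y + r⌋ + 1 - ⌈y - r⌉).toNat : ℕ) : ℝ) = (⌊y + r⌋ : ℝ) + 1 - ⌈y - r⌉ := by
      have h2 : (((⌊y + r⌋ + 1 - ⌈y - r⌉).toNat : ℕ) : ℤ) = ⌊y + r⌋ + 1 - ⌈y - r⌉ :=
        Int.toNat_of_nonneg (by omega)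
      exact_mod_cast congrArg (fun z : ℤ => (z : ℝ)) h2
    rw [h1]
    have h3 := Int.floor_le (y + r)
    have h4 := Int.le_ceil (y - r)
    linarith
  · rw [Int.toNat_of_nonpos (by omega)]
    push_cast
    linarith

lemma card_bU {ι κ : Type} [DecidableEq κ] (s : Finset ι) (f : ι → Finset κ) (B : ℝ)
    (h : ∀ i ∈ s, ((f i).card : ℝ) ≤ B) : ((s.biUnion f).card : ℝ) ≤ s.card * B := by
  calc ((s.biUnion f).card : ℝ) ≤ ((∑ i ∈ s, (f i).card : ℕ) : ℝ) := by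
        exact_mod_cast Finset.card_biUnion_le
    _ = ∑ i ∈ s, ((f i).card : ℝ) := by push_cast; rfl
    _ ≤ ∑ i ∈ s, B := Finset.sum_le_sum h
    _ = _ := by rw [Finset.sum_const, nsmul_eq_mul]

/-- the pairs of the forms with the first coefficient `a` -/
noncomputable def Fa (Xc Xd Xe : ℝ) (a : ℤ) : Finset (ℤ × ℤ) :=
  (Finset.Ico 0 |a|).biUnion fun b => (sol (-a) (b ^ 2) Xc).biUnion fun c =>
    (sol (a ^ 2) (-3 * a * b * c + 2 * b ^ 3) Xd).biUnion fun d =>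
      (sol a (-4 * b * d + 3 * c ^ 2) Xe).image fun e =>
        (-(iI a b c d e) / 4, -(iJ a b c d e) / 4)

lemma card_Fa (Xc Xd Xe : ℝ) (hc : 0 ≤ Xc) (hd : 0 ≤ Xd) (he : 0 ≤ Xe) (a : ℤ) :
    ((Fa Xc Xd Xe a).card : ℝ) ≤ |(a : ℝ)| * ((2 * (Xc / |(a : ℝ)|) + 1) *
      ((2 * (Xd / |(a : ℝ)| ^ 2) + 1) * (2 * (Xe / |(a : ℝ)|) + 1))) := by
  have h0 : ((Finset.Ico 0 |a|).card : ℝ) = |(a : ℝ)| := by
    rw [Int.card_Ico, sub_zero]
    have h2 : ((|a|.toNat : ℕ) : ℤ) = |a| := Int.toNat_of_nonneg (abs_nonneg a)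
    have h3 := congrArg (fun z : ℤ => (z : ℝ)) h2
    push_cast at h3
    exact_mod_cast h3
  unfold Fa
  refine (card_bU _ _ _ fun b _ => ?_).trans_eq (by rw [h0])
  refine (card_bU _ _ ((2 * (Xd / |(a : ℝ)| ^ 2) + 1) * (2 * (Xe / |(a : ℝ)|) + 1))
    fun c _ => ?_).trans ?_
  · refine (card_bU _ _ (2 * (Xe / |(a : ℝ)|) + 1) fun d _ => ?_).trans ?_
    · exact (Nat.cast_le.2 Finset.card_image_le).trans (card_sol _ _ _ he)
    · refine mul_le_mul_of_nonneg_right ?_ (by positivity)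
      have h1 := card_sol (a ^ 2) (-3 * a * b * c + 2 * b ^ 3) Xd hd
      have h2 : |((a ^ 2 : ℤ) : ℝ)| = |(a : ℝ)| ^ 2 := by push_cast; rw [abs_pow]
      rwa [h2] at h1
  · refine mul_le_mul_of_nonneg_right ?_ (by positivity)
    have h1 := card_sol (-a) (b ^ 2) Xc hc
    have h2 : |((-a : ℤ) : ℝ)| = |(a : ℝ)| := by push_cast; rw [abs_neg]
    rwa [h2] at h1

lemma mem_Fa (Xc Xd Xe : ℝ) (a b c d e : ℤ) (X : ℤ × ℤ) (ha : a ≠ 0)
    (hH : |((b ^ 2 - a * c : ℤ) : ℝ)| ≤ Xc)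
    (hG : |((a ^ 2 * d - 3 * a * b * c + 2 * b ^ 3 : ℤ) : ℝ)| ≤ Xd)
    (hI : |((iI a b c d e : ℤ) : ℝ)| ≤ Xe)
    (h1 : iI a b c d e = -4 * X.1) (h2 : iJ a b c d e = -4 * X.2) : X ∈ Fa Xc Xd Xe a := by
  obtain ⟨k, hk⟩ : ∃ k : ℤ, k = -(b / a) := ⟨_, rfl⟩
  have hI' : iI a (b + k * a) (c + 2 * k * b + k ^ 2 * a)
      (d + 3 * k * c + 3 * k ^ 2 * b + k ^ 3 * a)
      (e + 4 * k * d + 6 * k ^ 2 * c + 4 * k ^ 3 * b + k ^ 4 * a) = iI a b c d e := by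
    unfold iI
    ring
  have hJ' : iJ a (b + k * a) (c + 2 * k * b + k ^ 2 * a)
      (d + 3 * k * c + 3 * k ^ 2 * b + k ^ 3 * a)
      (e + 4 * k * d + 6 * k ^ 2 * c + 4 * k ^ 3 * b + k ^ 4 * a) = iJ a b c d e := by
    unfold iJ
    ring
  refine Finset.mem_biUnion.2 ⟨b + k * a, ?_, Finset.mem_biUnion.2
    ⟨c + 2 * k * b + k ^ 2 * a, ?_, Finset.mem_biUnion.2
      ⟨d + 3 * k * c + 3 * k ^ 2 * b + k ^ 3 * a, ?_, Finset.mem_image.2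
        ⟨e + 4 * k * d + 6 * k ^ 2 * c + 4 * k ^ 3 * b + k ^ 4 * a, ?_, ?_⟩⟩⟩⟩
  · have h3 : b + k * a = b % a := by
      rw [Int.emod_def, hk]
      ring
    rw [h3, Finset.mem_Ico]
    exact ⟨Int.emod_nonneg _ ha, Int.emod_lt_abs _ ha⟩
  · refine mem_sol _ _ _ _ (neg_ne_zero.2 ha) ?_
    convert hH using 3
    ring
  · refine mem_sol _ _ _ _ (pow_ne_zero 2 ha) ?_
    convert hG using 3
    ring
  · refine mem_sol _ _ _ _ ha ?_
    convert hI using 3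
    rw [← hI']
    unfold iI
    ring
  · rw [hI', hJ', h1, h2]
    refine Prod.ext ?_ ?_
    · show -(-4 * X.1) / 4 = X.1
      omega
    · show -(-4 * X.2) / 4 = X.2
      omega

/-- sizes of the covariants -/
lemma sizes (R T a b c d e : ℝ) (hT : 0 < T) (hR : 0 ≤ R)
    (ha : |a| * T ^ 4 ≤ 3000 * R) (hb : |b| * T ^ 2 ≤ 3000 * R) (hc : |c| ≤ 3000 * R)
    (hd : |d| ≤ 3000 * (R * T ^ 2)) (he : |e| ≤ 3000 * (R * T ^ 4)) :
    |b ^ 2 - a * c| ≤ 2 * 10 ^ 7 * (R ^ 2 / T ^ 4) ∧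
      |a ^ 2 * d - 3 * a * b * c + 2 * b ^ 3| ≤ 2 * 10 ^ 11 * (R ^ 3 / T ^ 6) ∧
      |a * e - 4 * b * d + 3 * c ^ 2| ≤ 10 ^ 8 * R ^ 2 := by
  have ha' : |a| ≤ 3000 * R / T ^ 4 := by rwa [le_div_iff₀ (by positivity)]
  have hb' : |b| ≤ 3000 * R / T ^ 2 := by rwa [le_div_iff₀ (by positivity)]
  have hRT : 0 ≤ R ^ 2 / T ^ 4 := by positivity
  have hRT6 : 0 ≤ R ^ 3 / T ^ 6 := by positivity
  refine ⟨?_, ?_, ?_⟩
  · have h1 : |a * c| ≤ 3000 * R / T ^ 4 * (3000 * R) := by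
      rw [abs_mul]
      exact mul_le_mul ha' hc (abs_nonneg _) (by positivity)
    have h2 : |b ^ 2| ≤ (3000 * R / T ^ 2) ^ 2 := by
      rw [abs_pow]
      exact pow_le_pow_left₀ (abs_nonneg _) hb' 2
    have h3 : 3000 * R / T ^ 4 * (3000 * R) = 9000000 * (R ^ 2 / T ^ 4) := by
      field_simp
      ring
    have h4 : (3000 * R / T ^ 2) ^ 2 = 9000000 * (R ^ 2 / T ^ 4) := by
      field_simp
      ring
    have h5 : |b ^ 2 - a * c| ≤ |b ^ 2| + |a * c| := abs_sub _ _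
    linarith
  · have h1 : |a ^ 2 * d| ≤ (3000 * R / T ^ 4) ^ 2 * (3000 * (R * T ^ 2)) := by
      rw [abs_mul, abs_pow]
      exact mul_le_mul (pow_le_pow_left₀ (abs_nonneg _) ha' 2) hd (abs_nonneg _) (by positivity)
    have h2 : |3 * a * b * c| ≤ 3 * (3000 * R / T ^ 4) * (3000 * R / T ^ 2) * (3000 * R) := by
      rw [abs_mul, abs_mul, abs_mul]
      have h3 : |(3 : ℝ)| = 3 := by norm_num
      rw [h3]
      refine mul_le_mul (mul_le_mul (mul_le_mul_of_nonneg_left ha' (by norm_num)) hb'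
        (abs_nonneg _) (by positivity)) hc (abs_nonneg _) (by positivity)
    have h3 : |2 * b ^ 3| ≤ 2 * (3000 * R / T ^ 2) ^ 3 := by
      rw [abs_mul, abs_pow]
      have h4 : |(2 : ℝ)| = 2 := by norm_num
      rw [h4]
      exact mul_le_mul_of_nonneg_left (pow_le_pow_left₀ (abs_nonneg _) hb' 3) (by norm_num)
    have e1 : (3000 * R / T ^ 4) ^ 2 * (3000 * (R * T ^ 2)) = 27000000000 * (R ^ 3 / T ^ 6) := by
      field_simp
      ring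
    have e2 : 3 * (3000 * R / T ^ 4) * (3000 * R / T ^ 2) * (3000 * R) =
        81000000000 * (R ^ 3 / T ^ 6) := by
      field_simp
      ring
    have e3 : 2 * (3000 * R / T ^ 2) ^ 3 = 54000000000 * (R ^ 3 / T ^ 6) := by
      field_simp
      ring
    have h5 : |a ^ 2 * d - 3 * a * b * c + 2 * b ^ 3| ≤
        |a ^ 2 * d| + |3 * a * b * c| + |2 * b ^ 3| :=
      (abs_add_le _ _).trans (by
        have := abs_sub (a ^ 2 * d) (3 * a * b * c)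
        linarith)
    linarith
  · have h1 : |a * e| ≤ 3000 * R / T ^ 4 * (3000 * (R * T ^ 4)) := by
      rw [abs_mul]
      exact mul_le_mul ha' he (abs_nonneg _) (by positivity)
    have h2 : |4 * b * d| ≤ 4 * (3000 * R / T ^ 2) * (3000 * (R * T ^ 2)) := by
      rw [abs_mul, abs_mul]
      have h3 : |(4 : ℝ)| = 4 := by norm_num
      rw [h3]
      exact mul_le_mul (mul_le_mul_of_nonneg_left hb' (by norm_num)) hd (abs_nonneg _)
        (by positivity)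
    have h3 : |3 * c ^ 2| ≤ 3 * (3000 * R) ^ 2 := by
      rw [abs_mul, abs_pow]
      have h4 : |(3 : ℝ)| = 3 := by norm_num
      rw [h4]
      exact mul_le_mul_of_nonneg_left (pow_le_pow_left₀ (abs_nonneg _) hc 2) (by norm_num)
    have e1 : 3000 * R / T ^ 4 * (3000 * (R * T ^ 4)) = 9000000 * R ^ 2 := by
      field_simp
      ring
    have e2 : 4 * (3000 * R / T ^ 2) * (3000 * (R * T ^ 2)) = 36000000 * R ^ 2 := by
      field_simp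
      ring
    have h5 : |a * e - 4 * b * d + 3 * c ^ 2| ≤ |a * e| + |4 * b * d| + |3 * c ^ 2| :=
      (abs_add_le _ _).trans (by
        have := abs_sub (a * e) (4 * b * d)
        linarith)
    nlinarith [sq_nonneg R]

/-- the number of the pairs for a given `a` -/
lemma bound (R T x : ℝ) (hR : 1 ≤ R) (hT : 1 ≤ T) (hx : 1 ≤ x) (hxa : x * T ^ 4 ≤ 3000 * R) :
    x * ((2 * (2 * 10 ^ 7 * (R ^ 2 / T ^ 4) / x) + 1) *
      ((2 * (2 * 10 ^ 11 * (R ^ 3 / T ^ 6) / x ^ 2) + 1) * (2 * (10 ^ 8 * R ^ 2 / x) + 1))) ≤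
      10 ^ 30 * (R ^ 7 / T ^ 10) * (1 / x ^ 2) := by
  have hR0 : 0 < R := by linarith
  have hT0 : 0 < T := by linarith
  have hx0 : 0 < x := by linarith
  have hT4 : 1 ≤ T ^ 4 := one_le_pow₀ hT
  have hT2 : 1 ≤ T ^ 2 := one_le_pow₀ hT
  have hR2 : R ≤ R ^ 2 := by nlinarith
  have hR3 : R ^ 2 ≤ R ^ 3 := by nlinarith [sq_nonneg R]
  have k1 : 1 ≤ 3000 * (R ^ 2 / T ^ 4 / x) := by
    rw [div_div, ← mul_div_assoc, le_div_iff₀ (by positivity)]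
    nlinarith
  have k2 : 1 ≤ 9000000 * (R ^ 3 / T ^ 6 / x ^ 2) := by
    rw [div_div, ← mul_div_assoc, le_div_iff₀ (by positivity)]
    have h1 : (x * T ^ 4) ^ 2 ≤ (3000 * R) ^ 2 := pow_le_pow_left₀ (by positivity) hxa 2
    have h2 : T ^ 6 * x ^ 2 ≤ (x * T ^ 4) ^ 2 := by
      have h3 : (x * T ^ 4) ^ 2 = T ^ 6 * x ^ 2 * T ^ 2 := by ring
      rw [h3]
      exact le_mul_of_one_le_right (by positivity) hT2
    nlinarith
  have k3 : 1 ≤ 3000 * (R ^ 2 / x) := by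
    rw [← mul_div_assoc, le_div_iff₀ hx0]
    have h2 : x ≤ x * T ^ 4 := le_mul_of_one_le_right hx0.le hT4
    nlinarith
  have e1 : 2 * (2 * 10 ^ 7 * (R ^ 2 / T ^ 4) / x) + 1 ≤ 10 ^ 8 * (R ^ 2 / T ^ 4 / x) := by
    have h1 : 2 * 10 ^ 7 * (R ^ 2 / T ^ 4) / x = 2 * 10 ^ 7 * (R ^ 2 / T ^ 4 / x) := by ring
    rw [h1]
    linarith
  have e2 : 2 * (2 * 10 ^ 11 * (R ^ 3 / T ^ 6) / x ^ 2) + 1 ≤
      10 ^ 12 * (R ^ 3 / T ^ 6 / x ^ 2) := by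
    have h1 : 2 * 10 ^ 11 * (R ^ 3 / T ^ 6) / x ^ 2 = 2 * 10 ^ 11 * (R ^ 3 / T ^ 6 / x ^ 2) := by
      ring
    rw [h1]
    linarith
  have e3 : 2 * (10 ^ 8 * R ^ 2 / x) + 1 ≤ 10 ^ 9 * (R ^ 2 / x) := by
    have h1 : 10 ^ 8 * R ^ 2 / x = 10 ^ 8 * (R ^ 2 / x) := by ring
    rw [h1]
    linarith
  calc x * ((2 * (2 * 10 ^ 7 * (R ^ 2 / T ^ 4) / x) + 1) *
      ((2 * (2 * 10 ^ 11 * (R ^ 3 / T ^ 6) / x ^ 2) + 1) * (2 * (10 ^ 8 * R ^ 2 / x) + 1)))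
      ≤ x * ((10 ^ 8 * (R ^ 2 / T ^ 4 / x)) *
        ((10 ^ 12 * (R ^ 3 / T ^ 6 / x ^ 2)) * (10 ^ 9 * (R ^ 2 / x)))) := by
        refine mul_le_mul_of_nonneg_left (mul_le_mul e1 (mul_le_mul e2 e3 (by positivity)
          (by positivity)) (by positivity) (by positivity)) hx0.le
    _ = 10 ^ 29 * (R ^ 7 / T ^ 10) * (1 / x ^ 3) := by
        field_simp
    _ ≤ 10 ^ 30 * (R ^ 7 / T ^ 10) * (1 / x ^ 2) := by
        refine mul_le_mul (mul_le_mul_of_nonneg_right (by norm_num) (by positivity)) ?_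
          (by positivity) (by positivity)
        exact one_div_le_one_div_of_le (by positivity) (pow_le_pow_right₀ hx (by norm_num))

theorem clt4 : StmtCLT4 := by
  have hsum : Summable (fun n : ℤ => 1 / (n : ℝ) ^ 2) := Real.summable_one_div_int_pow.2 (by norm_num)
  have hM0 : 0 ≤ ∑' n : ℤ, 1 / (n : ℝ) ^ 2 := tsum_nonneg fun n => by positivity
  refine ⟨10 ^ 30 * ∑' n : ℤ, 1 / (n : ℝ) ^ 2 + 1, by nlinarith, ?_⟩
  intro R T hR hTR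
  have hR0 : 0 < R := by linarith
  have hT1 : 1 ≤ T := (Real.one_le_rpow hR (by norm_num)).trans hTR
  have hT : 0 < T := by linarith
  obtain ⟨A, hA⟩ : ∃ A : Finset ℤ, A = (Finset.Icc (-⌊3000 * R / T ^ 4⌋) ⌊3000 * R / T ^ 4⌋).filter
      (fun a => a ≠ 0) := ⟨_, rfl⟩
  obtain ⟨Xc, hXc⟩ : ∃ X : ℝ, X = 2 * 10 ^ 7 * (R ^ 2 / T ^ 4) := ⟨_, rfl⟩
  obtain ⟨Xd, hXd⟩ : ∃ X : ℝ, X = 2 * 10 ^ 11 * (R ^ 3 / T ^ 6) := ⟨_, rfl⟩
  obtain ⟨Xe, hXe⟩ : ∃ X : ℝ, X = 10 ^ 8 * R ^ 2 := ⟨_, rfl⟩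
  obtain ⟨F, hF⟩ : ∃ F : Finset (ℤ × ℤ), F = A.biUnion (Fa Xc Xd Xe) := ⟨_, rfl⟩
  have hsub : (pairs fun a b c d e => Box R T a b c d e ∧ a ≠ 0) ⊆ (F : Set (ℤ × ℤ)) := by
    rintro X ⟨a, b, c, d, e, ⟨⟨ha, hb, hc, hd, he⟩, ha0⟩, h1, h2⟩
    obtain ⟨s1, s2, s3⟩ := sizes R T a b c d e hT hR0.le ha hb hc hd he
    rw [Finset.mem_coe, hF, Finset.mem_biUnion]
    refine ⟨a, ?_, mem_Fa _ _ _ a b c d e X ha0 ?_ ?_ ?_ h1 h2⟩
    · rw [hA, Finset.mem_filter, Finset.mem_Icc]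
      have h3 : |(a : ℝ)| ≤ 3000 * R / T ^ 4 := by rwa [le_div_iff₀ (by positivity)]
      rw [abs_le] at h3
      refine ⟨⟨?_, Int.le_floor.2 h3.2⟩, ha0⟩
      have h4 : -a ≤ ⌊3000 * R / T ^ 4⌋ := Int.le_floor.2 (by push_cast; linarith)
      omega
    · push_cast
      rw [hXc]
      exact s1
    · push_cast
      rw [hXd]
      exact s2
    · unfold iI
      push_cast
      rw [hXe]
      exact s3
  refine ⟨(Finset.finite_toSet _).subset hsub, ?_⟩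
  have h1 : (pairs fun a b c d e => Box R T a b c d e ∧ a ≠ 0).ncard ≤ F.card := by
    refine (Set.ncard_le_ncard hsub (Finset.finite_toSet _)).trans ?_
    rw [Set.ncard_coe_finset]
  have h2 : (F.card : ℝ) ≤ ∑ a ∈ A, 10 ^ 30 * (R ^ 7 / T ^ 10) * (1 / (a : ℝ) ^ 2) := by
    calc (F.card : ℝ) ≤ ((∑ a ∈ A, (Fa Xc Xd Xe a).card : ℕ) : ℝ) := by
          rw [hF]
          exact_mod_cast Finset.card_biUnion_le
      _ = ∑ a ∈ A, ((Fa Xc Xd Xe a).card : ℝ) := by push_cast; rfl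
      _ ≤ _ := by
        refine Finset.sum_le_sum fun a ha => ?_
        rw [hA, Finset.mem_filter, Finset.mem_Icc] at ha
        obtain ⟨⟨h3, h4⟩, h5⟩ := ha
        have h6 : |(a : ℝ)| ≤ 3000 * R / T ^ 4 := by
          rw [abs_le]
          constructor
          · have h7 : -a ≤ ⌊3000 * R / T ^ 4⌋ := by omega
            have h8 := Int.le_floor.1 h7
            push_cast at h8
            linarith
          · exact Int.le_floor.1 h4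
        have h7 : (1 : ℝ) ≤ |(a : ℝ)| := by
          have : (1 : ℤ) ≤ |a| := Int.one_le_abs h5
          exact_mod_cast this
        have h8 : |(a : ℝ)| * T ^ 4 ≤ 3000 * R := by rwa [le_div_iff₀ (by positivity)] at h6
        have h9 := bound R T |(a : ℝ)| hR hT1 h7 h8
        have h10 : |(a : ℝ)| ^ 2 = (a : ℝ) ^ 2 := sq_abs _
        refine (card_Fa Xc Xd Xe (by rw [hXc]; positivity) (by rw [hXd]; positivity)
          (by rw [hXe]; positivity) a).trans ?_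
        rw [hXc, hXd, hXe]
        refine h9.trans_eq ?_
        rw [h10]
  have h3 : ∑ a ∈ A, 10 ^ 30 * (R ^ 7 / T ^ 10) * (1 / (a : ℝ) ^ 2) ≤
      10 ^ 30 * (R ^ 7 / T ^ 10) * ∑' n : ℤ, 1 / (n : ℝ) ^ 2 := by
    rw [← Finset.mul_sum]
    refine mul_le_mul_of_nonneg_left ?_ (by positivity)
    exact hsum.sum_le_tsum A fun n _ => by positivity
  have h4 : R ^ 7 / T ^ 10 ≤ R ^ ((49 : ℝ) / 10) := by
    have h5 : R ^ ((21 : ℝ) / 10) ≤ T ^ 10 := by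
      have h6 : (R ^ ((21 : ℝ) / 100)) ^ 10 ≤ T ^ 10 :=
        pow_le_pow_left₀ (Real.rpow_nonneg hR0.le _) hTR 10
      rw [← Real.rpow_natCast, ← Real.rpow_mul hR0.le] at h6
      norm_num at h6 ⊢
      exact h6
    rw [div_le_iff₀ (by positivity)]
    have h7 : R ^ 7 = R ^ ((49 : ℝ) / 10) * R ^ ((21 : ℝ) / 10) := by
      rw [← Real.rpow_add hR0, ← Real.rpow_natCast]
      norm_num
    rw [h7]
    exact mul_le_mul_of_nonneg_left h5 (Real.rpow_nonneg hR0.le _)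
  have h5 : (0 : ℝ) ≤ R ^ ((49 : ℝ) / 10) := Real.rpow_nonneg hR0.le _
  calc ((pairs fun a b c d e => Box R T a b c d e ∧ a ≠ 0).ncard : ℝ) ≤ F.card := by
        exact_mod_cast h1
    _ ≤ 10 ^ 30 * (R ^ 7 / T ^ 10) * ∑' n : ℤ, 1 / (n : ℝ) ^ 2 := h2.trans h3
    _ ≤ 10 ^ 30 * R ^ ((49 : ℝ) / 10) * ∑' n : ℤ, 1 / (n : ℝ) ^ 2 := by
        refine mul_le_mul_of_nonneg_right (mul_le_mul_of_nonneg_left h4 (by norm_num)) hM0
    _ ≤ (10 ^ 30 * ∑' n : ℤ, 1 / (n : ℝ) ^ 2 + 1) * R ^ ((49 : ℝ) / 10) := by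
        nlinarith

end Pool.Agent.Q144.HL
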