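import Mathlib

/-!
General facts used for the John ellipsoid of the metric polytope: John's sufficient condition
(with the uniqueness part) and the existence of a linear map turning a positive definite form
into the standard inner product.
-/

namespace Q144.JE

open scoped BigOperators RealInnerProductSpace

variable {V : Type*} [NormedAddCommGroup V] [InnerProductSpace ℝ V] [FiniteDimensional ℝ V]

/-- A positive definite symmetric operator is congruent to the identity. -/
theorem exists_congr (T : V →ₗ[ℝ] V) (hT : T.IsSymmetric) (hpos : ∀ x, x ≠ 0 → 0 < ⟪T x, x⟫) :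
    ∃ Y : V ≃ₗ[ℝ] V, ∀ x y, ⟪T (Y x), Y y⟫ = ⟪x, y⟫ := by
  classical
  obtain ⟨n, hn⟩ : ∃ n, Module.finrank ℝ V = n := ⟨_, rfl⟩
  set b := hT.eigenvectorBasis hn with hb
  set τ := hT.eigenvalues hn with hτ
  have hTb : ∀ i, T (b i) = τ i • b i := fun i => by
    rw [hb, hT.apply_eigenvectorBasis hn i]
    rfl
  have hτpos : ∀ i, 0 < τ i := by
    intro i
    have hbi : b i ≠ 0 := b.orthonormal.ne_zero i
    have h := hpos (b i) hbi
    rw [hTb, inner_smul_left] at h
    have h1 : ⟪b i, b i⟫ = 1 := by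
      rw [real_inner_self_eq_norm_sq, b.orthonormal.norm_eq_one]; norm_num
    rw [h1] at h
    simpa using h
  -- the rescaled basis
  have hu : ∀ i, IsUnit ((Real.sqrt (τ i))⁻¹) := fun i =>
    (inv_ne_zero (Real.sqrt_pos.mpr (hτpos i)).ne').isUnit
  let w : Fin n → ℝˣ := fun i => (hu i).unit
  let b' : Module.Basis (Fin n) ℝ V := b.toBasis.unitsSMul w
  have hb' : ∀ i, b' i = (Real.sqrt (τ i))⁻¹ • b i := by
    intro i
    simp only [b', Module.Basis.unitsSMul_apply, OrthonormalBasis.coe_toBasis]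
    rfl
  let Y : V ≃ₗ[ℝ] V := b.toBasis.equiv b' (Equiv.refl _)
  have hY : ∀ i, Y (b i) = (Real.sqrt (τ i))⁻¹ • b i := by
    intro i
    have h := b.toBasis.equiv_apply (b' := b') (e := Equiv.refl _) i
    simp only [OrthonormalBasis.coe_toBasis] at h
    change Y (b i) = _ at h
    rw [h, Equiv.refl_apply, hb']
  refine ⟨Y, fun x y => ?_⟩
  have hYx : ∀ x, Y x = ∑ i, (⟪b i, x⟫ * (Real.sqrt (τ i))⁻¹) • b i := by
    intro x
    conv_lhs => rw [← b.sum_repr' x]
    rw [map_sum]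
    refine Finset.sum_congr rfl fun i _ => ?_
    rw [map_smul, hY, smul_smul]
  have hTY : T (Y x) = ∑ i, (⟪b i, x⟫ * (Real.sqrt (τ i))⁻¹ * τ i) • b i := by
    rw [hYx, map_sum]
    refine Finset.sum_congr rfl fun i _ => ?_
    rw [map_smul, hTb, smul_smul]
  rw [hTY, hYx y, b.orthonormal.inner_sum, ← b.sum_inner_mul_inner x y]
  refine Finset.sum_congr rfl fun i _ => ?_
  have hs : Real.sqrt (τ i) ≠ 0 := (Real.sqrt_pos.mpr (hτpos i)).ne'
  have hss : Real.sqrt (τ i) * Real.sqrt (τ i) = τ i := Real.mul_self_sqrt (hτpos i).le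
  rw [real_inner_comm (b i) x]
  simp only [conj_trivial]
  field_simp
  rw [sq, hss]

/-- AM-GM with equality for nonnegative numbers with sum at most the number of terms. -/
theorem prod_le_one_of_sum_le {n : ℕ} (s : Fin n → ℝ) (hs : ∀ i, 0 ≤ s i)
    (hsum : ∑ i, s i ≤ n) (hprod : 1 ≤ ∏ i, s i) : ∀ i, s i = 1 := by
  have hpos : ∀ i, 0 < s i := by
    intro i
    rcases (hs i).lt_or_eq with h | h
    · exact h
    · exfalso
      have : ∏ i, s i = 0 := Finset.prod_eq_zero (Finset.mem_univ i) h.symm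
      linarith
  have hlog : 0 ≤ ∑ i, Real.log (s i) := by
    rw [← Real.log_prod (fun i _ => (hpos i).ne')]
    exact Real.log_nonneg hprod
  have hle : ∀ i, Real.log (s i) ≤ s i - 1 := fun i => Real.log_le_sub_one_of_pos (hpos i)
  have hsum0 : ∑ i, (s i - 1 - Real.log (s i)) ≤ 0 := by
    rw [Finset.sum_sub_distrib, Finset.sum_sub_distrib]
    simp
    linarith
  have hz : ∀ i, s i - 1 - Real.log (s i) = 0 := by
    have := (Finset.sum_eq_zero_iff_of_nonneg (fun i _ => sub_nonneg.mpr (hle i))).mp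
      (le_antisymm hsum0 (Finset.sum_nonneg fun i _ => sub_nonneg.mpr (hle i)))
    exact fun i => this i (Finset.mem_univ i)
  intro i
  by_contra hne
  have := Real.log_lt_sub_one_of_pos (hpos i) hne
  linarith [hz i]

/-- John's sufficient condition, in coordinates in which the ellipsoid is the unit ball. -/
theorem john {κ : Type*} [Fintype κ] (u : κ → V) (m : κ → ℝ) (hm : ∀ k, 0 ≤ m k)
    (hid : ∀ x y : V, ∑ k, m k * (⟪u k, x⟫ * ⟪u k, y⟫) = ⟪x, y⟫)
    (hbal : ∑ k, (m k * ‖u k‖) • u k = 0)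
    (Z : V →ₗ[ℝ] V) (z : V)
    (hc : ∀ k, ⟪u k, z⟫ + ‖LinearMap.adjoint Z (u k)‖ ≤ ‖u k‖) (hdet : 1 ≤ |LinearMap.det Z|) :
    |LinearMap.det Z| = 1 ∧ (∀ x, ‖LinearMap.adjoint Z x‖ = ‖x‖) ∧ z = 0 := by
  classical
  obtain ⟨n, hn⟩ : ∃ n, Module.finrank ℝ V = n := ⟨_, rfl⟩
  set T : V →ₗ[ℝ] V := Z ∘ₗ LinearMap.adjoint Z with hTdef
  have hTx : ∀ x y, ⟪T x, y⟫ = ⟪LinearMap.adjoint Z x, LinearMap.adjoint Z y⟫ := by
    intro x y
    rw [hTdef, LinearMap.comp_apply, ← LinearMap.adjoint_inner_right]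
  have hT : T.IsSymmetric := by
    intro x y
    rw [hTx, real_inner_comm, ← hTx, real_inner_comm]
  set b := hT.eigenvectorBasis hn with hb
  set τ := hT.eigenvalues hn with hτ
  have hTb : ∀ i, T (b i) = τ i • b i := fun i => by
    rw [hb, hT.apply_eigenvectorBasis hn i]
    rfl
  have hbb : ∀ i, ⟪b i, b i⟫ = 1 := fun i => by
    rw [real_inner_self_eq_norm_sq, b.orthonormal.norm_eq_one]; norm_num
  have hτ0 : ∀ i, 0 ≤ τ i := by
    intro i
    have h1 : ⟪T (b i), b i⟫ = τ i := by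
      rw [hTb, inner_smul_left, hbb]; simp
    rw [← h1, hTx]
    exact real_inner_self_nonneg
  set s : Fin n → ℝ := fun i => Real.sqrt (τ i) with hs
  have hs0 : ∀ i, 0 ≤ s i := fun i => Real.sqrt_nonneg _
  have hss : ∀ i, s i ^ 2 = τ i := fun i => Real.sq_sqrt (hτ0 i)
  -- product of the s_i is |det Z|
  have hdetT : LinearMap.det T = LinearMap.det Z ^ 2 := by
    rw [hTdef, LinearMap.det_comp]
    have : LinearMap.det (LinearMap.adjoint Z) = LinearMap.det Z := by
      have h := LinearMap.det_toMatrix b.toBasis (LinearMap.adjoint Z)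
      rw [← h, LinearMap.toMatrix_adjoint b b Z]
      rw [Matrix.det_conjTranspose]
      rw [LinearMap.det_toMatrix b.toBasis Z]
      simp
    rw [this]; ring
  have hprodτ : ∏ i, τ i = LinearMap.det Z ^ 2 := by
    rw [← hdetT]
    have := hT.det_eq_prod_eigenvalues hn
    rw [this]
    simp [hτ]
  have hprods : ∏ i, s i = |LinearMap.det Z| := by
    have h1 : (∏ i, s i) ^ 2 = |LinearMap.det Z| ^ 2 := by
      rw [← Finset.prod_pow, sq_abs, ← hprodτ]
      exact Finset.prod_congr rfl fun i _ => hss i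
    exact (pow_left_inj₀ (Finset.prod_nonneg fun i _ => hs0 i) (abs_nonneg _) two_ne_zero).mp h1
  -- squared norms
  have hpars : ∀ x, ∑ i, ⟪b i, x⟫ ^ 2 = ‖x‖ ^ 2 := by
    intro x
    rw [← real_inner_self_eq_norm_sq, ← b.sum_inner_mul_inner x x]
    refine Finset.sum_congr rfl fun i _ => ?_
    rw [real_inner_comm (b i) x]; ring
  have hnormT : ∀ x, ‖LinearMap.adjoint Z x‖ ^ 2 = ∑ i, τ i * ⟪b i, x⟫ ^ 2 := by
    intro x
    rw [← real_inner_self_eq_norm_sq, ← hTx, ← b.sum_inner_mul_inner (T x) x]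
    refine Finset.sum_congr rfl fun i _ => ?_
    rw [hT x (b i), hTb, inner_smul_right, real_inner_comm (b i) x]; ring
  -- the key inequality
  have hkey : ∀ x, ∑ i, s i * ⟪b i, x⟫ ^ 2 ≤ ‖x‖ * ‖LinearMap.adjoint Z x‖ := by
    intro x
    have hcs := Finset.sum_mul_sq_le_sq_mul_sq Finset.univ (fun i => ⟪b i, x⟫)
      (fun i => s i * ⟪b i, x⟫)
    have e1 : ∑ i, ⟪b i, x⟫ * (s i * ⟪b i, x⟫) = ∑ i, s i * ⟪b i, x⟫ ^ 2 :=
      Finset.sum_congr rfl fun i _ => by ring
    have e2 : ∑ i, (s i * ⟪b i, x⟫) ^ 2 = ‖LinearMap.adjoint Z x‖ ^ 2 := by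
      rw [hnormT]
      refine Finset.sum_congr rfl fun i _ => ?_
      rw [mul_pow, hss]
    rw [e1, hpars, e2, ← mul_pow] at hcs
    exact le_of_sq_le_sq hcs (by positivity)
  -- sum of the weights
  have hw : ∑ k, m k * ‖u k‖ ^ 2 = n := by
    have h1 : ∑ i : Fin n, ∑ k, m k * (⟪u k, b i⟫ * ⟪u k, b i⟫) = n := by
      rw [Finset.sum_congr rfl fun i _ => hid (b i) (b i)]
      rw [Finset.sum_congr rfl fun i _ => hbb i]
      simp
    rw [Finset.sum_comm] at h1
    rw [← h1]
    refine Finset.sum_congr rfl fun k _ => ?_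
    rw [← Finset.mul_sum, ← hpars]
    congr 1
    refine Finset.sum_congr rfl fun i _ => ?_
    rw [real_inner_comm (b i) (u k)]; ring
  have hbalz : ∑ k, m k * ‖u k‖ * ⟪u k, z⟫ = 0 := by
    have := congrArg (fun v => ⟪v, z⟫) hbal
    simp only [inner_zero_left, sum_inner, inner_smul_left, conj_trivial] at this
    exact this
  have hsum : ∑ i, s i ≤ n := by
    have h1 : ∑ i, s i = ∑ k, m k * ∑ i, s i * ⟪b i, u k⟫ ^ 2 := by
      have h2 : ∀ i, s i = ∑ k, m k * (s i * ⟪b i, u k⟫ ^ 2) := by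
        intro i
        have h3 := hid (b i) (b i)
        rw [hbb] at h3
        calc s i = s i * 1 := by ring
          _ = s i * ∑ k, m k * (⟪u k, b i⟫ * ⟪u k, b i⟫) := by rw [h3]
          _ = _ := by
            rw [Finset.mul_sum]
            refine Finset.sum_congr rfl fun k _ => ?_
            rw [real_inner_comm (b i) (u k)]; ring
      rw [Finset.sum_congr rfl fun i _ => h2 i, Finset.sum_comm]
      refine Finset.sum_congr rfl fun k _ => ?_
      rw [Finset.mul_sum]
    rw [h1]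
    calc ∑ k, m k * ∑ i, s i * ⟪b i, u k⟫ ^ 2
        ≤ ∑ k, m k * (‖u k‖ * (‖u k‖ - ⟪u k, z⟫)) := by
          refine Finset.sum_le_sum fun k _ => mul_le_mul_of_nonneg_left ?_ (hm k)
          refine (hkey (u k)).trans (mul_le_mul_of_nonneg_left ?_ (norm_nonneg _))
          linarith [hc k]
      _ = ∑ k, m k * ‖u k‖ ^ 2 - ∑ k, m k * ‖u k‖ * ⟪u k, z⟫ := by
          rw [← Finset.sum_sub_distrib]
          exact Finset.sum_congr rfl fun k _ => by ring
      _ = n := by rw [hw, hbalz, sub_zero]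
  have hs1 : ∀ i, s i = 1 := prod_le_one_of_sum_le s hs0 hsum (by rw [hprods]; exact hdet)
  have hτ1 : ∀ i, τ i = 1 := fun i => by rw [← hss, hs1]; norm_num
  have hiso : ∀ x, ‖LinearMap.adjoint Z x‖ = ‖x‖ := by
    intro x
    have h1 : ‖LinearMap.adjoint Z x‖ ^ 2 = ‖x‖ ^ 2 := by
      rw [hnormT, ← hpars]
      exact Finset.sum_congr rfl fun i _ => by rw [hτ1, one_mul]
    exact (pow_left_inj₀ (norm_nonneg _) (norm_nonneg _) two_ne_zero).mp h1
  refine ⟨?_, hiso, ?_⟩
  · rw [← hprods]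
    exact Finset.prod_eq_one fun i _ => hs1 i
  · have hle : ∀ k, ⟪u k, z⟫ ≤ 0 := by
      intro k
      have := hc k
      rw [hiso] at this
      linarith
    have hterm : ∀ k, m k * ‖u k‖ * ⟪u k, z⟫ = 0 := by
      have h0 : ∀ k ∈ Finset.univ, m k * ‖u k‖ * ⟪u k, z⟫ ≤ 0 := fun k _ =>
        mul_nonpos_of_nonneg_of_nonpos (mul_nonneg (hm k) (norm_nonneg _)) (hle k)
      have := (Finset.sum_eq_zero_iff_of_nonpos h0).mp hbalz
      exact fun k => this k (Finset.mem_univ k)
    have hzz : ⟪z, z⟫ = 0 := by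
      rw [← hid z z]
      refine Finset.sum_eq_zero fun k _ => ?_
      have := hterm k
      rcases mul_eq_zero.mp this with h | h
      · rcases mul_eq_zero.mp h with h | h
        · rw [h, zero_mul]
        · rw [norm_eq_zero.mp h]; simp
      · rw [h]; ring
    exact inner_self_eq_zero.mp hzz

end Q144.JE
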