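import Mathlib

/-!
The maximum of the quadratic function `F` over the semimetrics on `n` points with values in
`[0,1]`: symmetrisation shows that a maximiser is `0/1`-valued, and then a count finishes.
-/

namespace Q144.JE

open scoped BigOperators

variable {n : ℕ}

/-- Semimetrics on `n` points with values in `[0,1]`. -/
def SM (n : ℕ) : Set (Fin n → Fin n → ℝ) :=
  {D | (∀ i, D i i = 0) ∧ (∀ i j, D i j = D j i) ∧ (∀ i j, 0 ≤ D i j) ∧ (∀ i j, D i j ≤ 1) ∧
    ∀ i j k, D i k ≤ D i j + D j k}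

/-- Row sums. -/
def row (D : Fin n → Fin n → ℝ) (a : Fin n) : ℝ := ∑ b, D a b

/-- The objective function. -/
def F (P q g : ℝ) (D : Fin n → Fin n → ℝ) : ℝ :=
  P * ∑ a, ∑ b, D a b ^ 2 - q * ∑ a, row D a ^ 2 - g * ∑ a, row D a

theorem isCompact_SM (n : ℕ) : IsCompact (SM n) := by
  have hsub : SM n ⊆ Set.Icc (0 : Fin n → Fin n → ℝ) 1 := by
    intro D hD
    refine ⟨fun i j => hD.2.2.1 i j, fun i j => hD.2.2.2.1 i j⟩
  refine IsCompact.of_isClosed_subset isCompact_Icc ?_ hsub
  have e : SM n = {D | ∀ i, D i i = 0} ∩ {D | ∀ i j, D i j = D j i} ∩ {D | ∀ i j, 0 ≤ D i j} ∩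
      {D | ∀ i j, D i j ≤ 1} ∩ {D | ∀ i j k, D i k ≤ D i j + D j k} := by
    ext D
    simp only [SM, Set.mem_inter_iff, Set.mem_ofPred_eq]
    tauto
  rw [e]
  have c : ∀ i j : Fin n, Continuous fun D : Fin n → Fin n → ℝ => D i j := fun i j => by fun_prop
  refine ((((?_ : IsClosed _).inter ?_).inter ?_).inter ?_).inter ?_
  · simp only [Set.ofPred_forall]
    exact isClosed_iInter fun i => isClosed_eq (c i i) continuous_const
  · simp only [Set.ofPred_forall]
    exact isClosed_iInter fun i => isClosed_iInter fun j => isClosed_eq (c i j) (c j i)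
  · simp only [Set.ofPred_forall]
    exact isClosed_iInter fun i => isClosed_iInter fun j => isClosed_le continuous_const (c i j)
  · simp only [Set.ofPred_forall]
    exact isClosed_iInter fun i => isClosed_iInter fun j => isClosed_le (c i j) continuous_const
  · simp only [Set.ofPred_forall]
    exact isClosed_iInter fun i => isClosed_iInter fun j => isClosed_iInter fun k =>
      isClosed_le (c i k) ((c i j).add (c j k))

theorem continuous_F (P q g : ℝ) : Continuous (F P q g : (Fin n → Fin n → ℝ) → ℝ) := by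
  unfold F row
  fun_prop

theorem zero_mem_SM : (0 : Fin n → Fin n → ℝ) ∈ SM n := by
  refine ⟨fun _ => rfl, fun _ _ => rfl, fun _ _ => le_rfl, fun _ _ => zero_le_one, fun _ _ _ => ?_⟩
  simp

/-! ### Merging two points -/

theorem sum_upd (h : Fin n → ℝ) (i j : Fin n) :
    ∑ a, h (Function.update id j i a) = ∑ a, h a + h i - h j := by
  classical
  have e : ∀ a, h (Function.update id j i a) = h a + (if a = j then h i - h j else 0) := by
    intro a
    by_cases ha : a = j
    · subst ha; simp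
    · simp [ha]
  rw [Finset.sum_congr rfl fun a _ => e a, Finset.sum_add_distrib]
  simp
  ring

/-- The semimetric obtained by replacing point `j` by a copy of point `i`. -/
def merge (D : Fin n → Fin n → ℝ) (i j : Fin n) : Fin n → Fin n → ℝ :=
  fun a b => D (Function.update id j i a) (Function.update id j i b)

theorem merge_mem {D : Fin n → Fin n → ℝ} (hD : D ∈ SM n) (i j : Fin n) : merge D i j ∈ SM n := by
  obtain ⟨h1, h2, h3, h4, h5⟩ := hD
  exact ⟨fun a => h1 _, fun a b => h2 _ _, fun a b => h3 _ _, fun a b => h4 _ _,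
    fun a b c => h5 _ _ _⟩

theorem sum_merge (φ : Fin n → Fin n → ℝ) (h0 : ∀ i, φ i i = 0) (hs : ∀ i j, φ i j = φ j i)
    (i j : Fin n) :
    ∑ a, ∑ b, φ (Function.update id j i a) (Function.update id j i b) =
      ∑ a, ∑ b, φ a b + 2 * ∑ b, φ i b - 2 * ∑ b, φ j b - 2 * φ i j := by
  have e1 : ∀ a, ∑ b, φ (Function.update id j i a) (Function.update id j i b) =
      (fun c => ∑ b, φ c b + φ c i - φ c j) (Function.update id j i a) := by
    intro a
    rw [sum_upd (fun b => φ (Function.update id j i a) b) i j]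
  rw [Finset.sum_congr rfl fun a _ => e1 a,
    sum_upd (fun c => ∑ b, φ c b + φ c i - φ c j) i j]
  simp only [Finset.sum_sub_distrib, Finset.sum_add_distrib]
  have e2 : ∑ a, φ a i = ∑ b, φ i b := Finset.sum_congr rfl fun a _ => hs a i
  have e3 : ∑ a, φ a j = ∑ b, φ j b := Finset.sum_congr rfl fun a _ => hs a j
  rw [e2, e3, h0 i, h0 j, hs j i]
  ring

theorem row_merge (D : Fin n → Fin n → ℝ) (i j a : Fin n) :
    row (merge D i j) a = (fun c => row D c + D c i - D c j) (Function.update id j i a) := by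
  unfold row merge
  rw [sum_upd (fun b => D (Function.update id j i a) b) i j]

theorem sum_row (D : Fin n → Fin n → ℝ) : ∑ a, row D a = ∑ a, ∑ b, D a b := rfl

theorem F_merge (P q g : ℝ) {D : Fin n → Fin n → ℝ} (hD : D ∈ SM n) (i j : Fin n) :
    F P q g (merge D i j) + F P q g (merge D j i) = 2 * F P q g D - 4 * P * D i j ^ 2
      - q * (2 * ∑ a, (D a i - D a j) ^ 2 - 4 * D i j * ∑ a, (D a i + D a j))
      + 4 * g * D i j := by
  obtain ⟨h1, h2, -, -, -⟩ := hD
  -- squares
  have s1 : ∀ i j, ∑ a, ∑ b, merge D i j a b ^ 2 =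
      ∑ a, ∑ b, D a b ^ 2 + 2 * ∑ b, D i b ^ 2 - 2 * ∑ b, D j b ^ 2 - 2 * D i j ^ 2 := by
    intro i j
    exact sum_merge (fun a b => D a b ^ 2) (fun i => by simp [h1]) (fun i j => by simp [h2 i j]) i j
  have s2 : ∀ i j, ∑ a, row (merge D i j) a =
      ∑ a, row D a + 2 * ∑ b, D i b - 2 * ∑ b, D j b - 2 * D i j := by
    intro i j
    exact sum_merge D h1 h2 i j
  have s3 : ∀ i j, ∑ a, row (merge D i j) a ^ 2 =
      ∑ a, (row D a + D a i - D a j) ^ 2 + (row D i - D i j) ^ 2 - (row D j + D i j) ^ 2 := by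
    intro i j
    have e : ∀ a, row (merge D i j) a ^ 2 =
        (fun c => (row D c + D c i - D c j) ^ 2) (Function.update id j i a) := by
      intro a
      rw [row_merge]
    rw [Finset.sum_congr rfl fun a _ => e a,
      sum_upd (fun c => (row D c + D c i - D c j) ^ 2) i j]
    simp only [h1, h2 j i]
    ring
  have s4 : ∑ a, (row D a + D a i - D a j) ^ 2 + ∑ a, (row D a + D a j - D a i) ^ 2 =
      2 * ∑ a, row D a ^ 2 + 2 * ∑ a, (D a i - D a j) ^ 2 := by
    rw [← Finset.sum_add_distrib, Finset.mul_sum, Finset.mul_sum, ← Finset.sum_add_distrib]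
    exact Finset.sum_congr rfl fun a _ => by ring
  have s5 : ∑ a, (D a i + D a j) = row D i + row D j := by
    rw [Finset.sum_add_distrib]
    congr 1
    · exact Finset.sum_congr rfl fun a _ => h2 a i
    · exact Finset.sum_congr rfl fun a _ => h2 a j
  unfold F
  rw [s1 i j, s1 j i, s2 i j, s2 j i, s3 i j, s3 j i, s5, h2 j i]
  have s4' : ∑ a, (row D a + D a j - D a i) ^ 2 =
      2 * ∑ a, row D a ^ 2 + 2 * ∑ a, (D a i - D a j) ^ 2
        - ∑ a, (row D a + D a i - D a j) ^ 2 := by linarith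
  rw [s4']
  ring

/-- At a maximiser no distance lies strictly between `0` and `2/3`. -/
theorem gap_of_max {P q g : ℝ} (hq : 0 ≤ q)
    (hpos : ∀ z : ℝ, 0 < z → z < 2 / 3 → 0 < 4 * g - 4 * P * z + 2 * n * q * z)
    {D : Fin n → Fin n → ℝ} (hD : D ∈ SM n) (hmax : ∀ D' ∈ SM n, F P q g D' ≤ F P q g D)
    (i j : Fin n) : D i j = 0 ∨ 2 / 3 ≤ D i j := by
  by_contra hcon
  push Not at hcon
  obtain ⟨hne, hlt⟩ := hcon
  set z := D i j with hz
  have hz0 : 0 < z := lt_of_le_of_ne (hD.2.2.1 i j) (Ne.symm hne)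
  have h1 := hmax _ (merge_mem hD i j)
  have h2 := hmax _ (merge_mem hD j i)
  have h3 := F_merge P q g hD i j
  rw [← hz] at h3
  obtain ⟨d0, ds, dn, d1, dt⟩ := hD
  have hbd : 2 * ∑ a, (D a i - D a j) ^ 2 - 4 * z * ∑ a, (D a i + D a j) ≤ - (2 * n * z ^ 2) := by
    rw [Finset.mul_sum, Finset.mul_sum, ← Finset.sum_sub_distrib]
    have : ∀ a ∈ Finset.univ, 2 * (D a i - D a j) ^ 2 - 4 * z * (D a i + D a j) ≤ -(2 * z ^ 2) := by
      intro a _
      have t1 : D a i ≤ D a j + z := by
        have := dt a j i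
        rw [ds j i] at this; exact this
      have t2 : D a j ≤ D a i + z := dt a i j
      have t3 : z ≤ D a i + D a j := by
        have := dt i a j
        rw [ds i a] at this; exact this
      nlinarith [mul_nonneg (sub_nonneg.mpr t1) (sub_nonneg.mpr t2),
        mul_nonneg hz0.le (sub_nonneg.mpr t3)]
    refine (Finset.sum_le_sum this).trans (le_of_eq ?_)
    rw [Finset.sum_const, Finset.card_univ, Fintype.card_fin, nsmul_eq_mul]
    ring
  have h4 := mul_le_mul_of_nonneg_left hbd hq
  have h5 := mul_pos hz0 (hpos z hz0 hlt)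
  nlinarith [h4, h5]

/-! ### A maximiser is `0/1`-valued -/

theorem F_add (P q g t : ℝ) (D h : Fin n → Fin n → ℝ) :
    F P q g (fun a b => D a b + t * h a b) = F P q g D
      + t * (2 * P * ∑ a, ∑ b, D a b * h a b - 2 * q * ∑ a, row D a * row h a - g * ∑ a, row h a)
      + t ^ 2 * (P * ∑ a, ∑ b, h a b ^ 2 - q * ∑ a, row h a ^ 2) := by
  have r : ∀ a, row (fun a b => D a b + t * h a b) a = row D a + t * row h a := by
    intro a
    unfold row
    rw [Finset.sum_add_distrib, Finset.mul_sum]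
  have e1 : ∑ a, ∑ b, (D a b + t * h a b) ^ 2 =
      ∑ a, ∑ b, D a b ^ 2 + 2 * t * ∑ a, ∑ b, D a b * h a b + t ^ 2 * ∑ a, ∑ b, h a b ^ 2 := by
    simp only [Finset.mul_sum, ← Finset.sum_add_distrib]
    exact Finset.sum_congr rfl fun a _ => Finset.sum_congr rfl fun b _ => by ring
  have e2 : ∑ a, (row D a + t * row h a) ^ 2 =
      ∑ a, row D a ^ 2 + 2 * t * ∑ a, row D a * row h a + t ^ 2 * ∑ a, row h a ^ 2 := by
    simp only [Finset.mul_sum, ← Finset.sum_add_distrib]
    exact Finset.sum_congr rfl fun a _ => by ring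
  have e3 : ∑ a, (row D a + t * row h a) = ∑ a, row D a + t * ∑ a, row h a := by
    rw [Finset.sum_add_distrib, Finset.mul_sum]
  unfold F
  simp only [r]
  rw [e1, e2, e3]
  ring

/-- A maximiser is `0/1`-valued. -/
theorem zero_one_of_max {P q g : ℝ} (hq : 0 ≤ q) (hPq : n * q < P)
    (hpos : ∀ z : ℝ, 0 < z → z < 2 / 3 → 0 < 4 * g - 4 * P * z + 2 * n * q * z)
    {D : Fin n → Fin n → ℝ} (hD : D ∈ SM n) (hmax : ∀ D' ∈ SM n, F P q g D' ≤ F P q g D)
    (i j : Fin n) : D i j = 0 ∨ D i j = 1 := by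
  classical
  have hgap := gap_of_max hq hpos hD hmax
  set h : Fin n → Fin n → ℝ := fun a b => if D a b = 0 then 0 else 1 - D a b with hh
  have hmem : ∀ t : ℝ, |t| ≤ 1 / 2 → (fun a b => D a b + t * h a b) ∈ SM n := by
    intro t ht
    obtain ⟨t1, t2⟩ := abs_le.mp ht
    obtain ⟨d0, ds, dn, d1, dt⟩ := hD
    have val : ∀ a b, (D a b = 0 ∧ D a b + t * h a b = 0) ∨
        (D a b ≠ 0 ∧ 1 / 2 ≤ D a b + t * h a b ∧ D a b + t * h a b ≤ 1) := by
      intro a b
      by_cases hab : D a b = 0
      · left; simp [hh, hab]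
      · right
        have h23 : 2 / 3 ≤ D a b := (hgap a b).resolve_left hab
        have h1 := d1 a b
        simp only [hh, if_neg hab]
        refine ⟨hab, by nlinarith, by nlinarith⟩
    have heq : ∀ a b c, D a b = 0 → D a c = D b c := by
      intro a b c hab
      have h1 := dt a b c
      have h2 := dt b a c
      rw [ds b a] at h2
      linarith
    refine ⟨fun a => ?_, fun a b => ?_, fun a b => ?_, fun a b => ?_, fun a b c => ?_⟩
    · simp [hh, d0]
    · simp only [hh, ds a b]
    · rcases val a b with h | h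
      · exact h.2.ge
      · linarith [h.2.1]
    · rcases val a b with h | h
      · linarith [h.2]
      · exact h.2.2
    · show D a c + t * h a c ≤ (D a b + t * h a b) + (D b c + t * h b c)
      rcases val a b with h1 | h1
      · have : D a c = D b c := heq a b c h1.1
        rw [h1.2, zero_add]
        simp only [hh, this]
        exact le_rfl
      · rcases val b c with h2 | h2
        · have : D a c = D a b := by
            have := heq c b a (by rw [ds]; exact h2.1)
            rw [ds a c, this, ds]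
          rw [h2.2, add_zero]
          simp only [hh, this]
          exact le_rfl
        · rcases val a c with h3 | h3
          · linarith [h3.2, h1.2.1, h2.2.1]
          · linarith [h3.2.2, h1.2.1, h2.2.1]
  have hp := hmax _ (hmem (1 / 2) (by rw [abs_of_pos (by norm_num)]))
  have hm := hmax _ (hmem (-(1 / 2)) (by rw [abs_neg, abs_of_pos (by norm_num)]))
  rw [F_add] at hp hm
  have hquad : P * ∑ a, ∑ b, h a b ^ 2 - q * ∑ a, row h a ^ 2 ≤ 0 := by linarith
  have hcs : ∑ a, row h a ^ 2 ≤ n * ∑ a, ∑ b, h a b ^ 2 := by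
    rw [Finset.mul_sum]
    refine Finset.sum_le_sum fun a _ => ?_
    unfold row
    have := sq_sum_le_card_mul_sum_sq (s := Finset.univ) (f := fun b => h a b)
    rw [Finset.card_univ, Fintype.card_fin] at this
    exact this
  have hS0 : 0 ≤ ∑ a, ∑ b, h a b ^ 2 :=
    Finset.sum_nonneg fun a _ => Finset.sum_nonneg fun b _ => sq_nonneg _
  have hS : ∑ a, ∑ b, h a b ^ 2 = 0 := by
    have h1 := mul_le_mul_of_nonneg_left hcs hq
    have h2 : (P - n * q) * ∑ a, ∑ b, h a b ^ 2 ≤ 0 := by nlinarith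
    have h3 : 0 < P - n * q := by linarith
    by_contra hne
    have h4 : 0 < ∑ a, ∑ b, h a b ^ 2 := lt_of_le_of_ne hS0 (Ne.symm hne)
    nlinarith [mul_pos h3 h4]
  have hz : h i j = 0 := by
    have h1 := (Finset.sum_eq_zero_iff_of_nonneg (fun a _ =>
      Finset.sum_nonneg fun b _ => sq_nonneg (h a b))).mp hS i (Finset.mem_univ i)
    have h2 := (Finset.sum_eq_zero_iff_of_nonneg (fun b _ => sq_nonneg (h i b))).mp h1 j
      (Finset.mem_univ j)
    exact pow_eq_zero_iff two_ne_zero |>.mp h2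
  by_cases hij : D i j = 0
  · exact Or.inl hij
  · right
    simp only [hh, if_neg hij] at hz
    linarith

end Q144.JE
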