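import Pool.Agent.Q144.JEb

/-!
Counting for `0/1`-valued semimetrics, and the exact maximum of `F`.
-/

namespace Q144.JE

open scoped BigOperators

variable {n : ℕ}

theorem sum_row_le {D : Fin n → Fin n → ℝ} (hD : D ∈ SM n)
    (h01 : ∀ i j, D i j = 0 ∨ D i j = 1) :
    n * ∑ a, row D a ≤ 2 * ∑ a, row D a ^ 2 := by
  obtain ⟨d0, ds, dn, d1, dt⟩ := hD
  have e1 : (n : ℝ) * ∑ a, row D a = ∑ a, ∑ b, ∑ _c : Fin n, D a b := by
    unfold row
    simp only [Finset.mul_sum]
    refine Finset.sum_congr rfl fun a _ => Finset.sum_congr rfl fun b _ => ?_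
    rw [Finset.sum_const, Finset.card_univ, Fintype.card_fin, nsmul_eq_mul]
  have e2 : 2 * ∑ a, row D a ^ 2 = ∑ a, ∑ b, ∑ c, D a b * (D a c + D b c) := by
    have f1 : ∑ a, ∑ b, ∑ c, D a b * D a c = ∑ a, row D a ^ 2 := by
      refine Finset.sum_congr rfl fun a _ => ?_
      unfold row
      rw [sq, Finset.sum_mul_sum]
    have f2 : ∑ a, ∑ b, ∑ c, D a b * D b c = ∑ a, row D a ^ 2 := by
      rw [Finset.sum_comm]
      refine Finset.sum_congr rfl fun b _ => ?_
      unfold row
      rw [sq, Finset.sum_mul_sum]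
      exact Finset.sum_congr rfl fun a _ => Finset.sum_congr rfl fun c _ => by rw [ds a b]
    have f3 : ∑ a, ∑ b, ∑ c, D a b * (D a c + D b c) =
        ∑ a, ∑ b, ∑ c, D a b * D a c + ∑ a, ∑ b, ∑ c, D a b * D b c := by
      simp only [← Finset.sum_add_distrib]
      exact Finset.sum_congr rfl fun a _ => Finset.sum_congr rfl fun b _ =>
        Finset.sum_congr rfl fun c _ => by ring
    rw [f3, f1, f2]; ring
  rw [e1, e2]
  refine Finset.sum_le_sum fun a _ => Finset.sum_le_sum fun b _ => Finset.sum_le_sum fun c _ => ?_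
  have t : D a b ≤ D a c + D b c := by
    have := dt a c b
    rw [ds c b] at this; exact this
  rcases h01 a b with h | h
  · rw [h]; simp
  · rw [h] at t ⊢; linarith

theorem row_eq {D : Fin n → Fin n → ℝ} (h01 : ∀ i j, D i j = 0 ∨ D i j = 1) (a : Fin n) :
    row D a = n - ((Finset.univ.filter fun b => D a b = 0).card : ℝ) := by
  have e : ∀ b, D a b = 1 - (if D a b = 0 then (1 : ℝ) else 0) := by
    intro b
    rcases h01 a b with h | h
    · rw [h]; simp
    · rw [h]; simp
  unfold row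
  rw [Finset.sum_congr rfl fun b _ => e b, Finset.sum_sub_distrib, Finset.sum_boole]
  simp

theorem count_le {D : Fin n → Fin n → ℝ} (hD : D ∈ SM n)
    (h01 : ∀ i j, D i j = 0 ∨ D i j = 1) :
    ∑ a, row D a * (n - 1 - row D a) ≤ (n - 2) * ((n ^ 2 / 4 : ℕ) : ℝ) := by
  classical
  set p : Fin n → ℕ := fun a => (Finset.univ.filter fun b => D a b = 0).card with hp
  have hrow : ∀ a, row D a = n - (p a : ℝ) := fun a => row_eq h01 a
  rcases Nat.even_or_odd' n with ⟨m, hm | hm⟩
  · -- even case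
    have hq : ((n ^ 2 / 4 : ℕ) : ℝ) = (m : ℝ) ^ 2 := by
      have : n ^ 2 / 4 = m ^ 2 := by
        rw [hm]
        have : (2 * m) ^ 2 = 4 * m ^ 2 := by ring
        rw [this]
        exact Nat.mul_div_cancel_left _ (by norm_num)
      rw [this]; push_cast; ring
    have hn : (n : ℝ) = 2 * m := by rw [hm]; push_cast; ring
    have hterm : ∀ a ∈ Finset.univ, row D a * (n - 1 - row D a) ≤ (m : ℝ) * (m - 1) := by
      intro a _
      rw [hrow, hn]
      have hz : (0 : ℤ) ≤ ((p a : ℤ) - m) * ((p a : ℤ) - m - 1) := by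
        rcases le_or_gt (p a : ℤ) m with h | h
        · nlinarith
        · have : (m : ℤ) + 1 ≤ p a := h
          nlinarith
      have hr : (0 : ℝ) ≤ ((p a : ℝ) - m) * ((p a : ℝ) - m - 1) := by exact_mod_cast hz
      nlinarith
    refine (Finset.sum_le_sum hterm).trans (le_of_eq ?_)
    rw [Finset.sum_const, Finset.card_univ, Fintype.card_fin, nsmul_eq_mul, hq, hn]
    ring
  · -- odd case
    have hq : ((n ^ 2 / 4 : ℕ) : ℝ) = (m : ℝ) * (m + 1) := by
      have : n ^ 2 / 4 = m * (m + 1) := by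
        rw [hm]
        have : (2 * m + 1) ^ 2 = 4 * (m * (m + 1)) + 1 := by ring
        rw [this]
        omega
      rw [this]; push_cast; ring
    have hn : (n : ℝ) = 2 * m + 1 := by rw [hm]; push_cast; ring
    have hterm : ∀ a ∈ Finset.univ, row D a * (n - 1 - row D a) ≤
        (m : ℝ) ^ 2 - (if p a ≠ m + 1 then (1 : ℝ) else 0) := by
      intro a _
      rw [hrow, hn]
      by_cases h : p a = m + 1
      · have h' : (p a : ℝ) = m + 1 := by rw [h]; push_cast; ring
        rw [if_neg (by simpa using h), h']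
        apply le_of_eq; ring
      · rw [if_pos h]
        have hz : (1 : ℤ) ≤ ((p a : ℤ) - (m + 1)) ^ 2 := by
          have h2 : (p a : ℤ) - (m + 1) ≠ 0 := by omega
          have := Int.one_le_abs h2
          calc (1 : ℤ) = 1 ^ 2 := by norm_num
            _ ≤ |(p a : ℤ) - (m + 1)| ^ 2 := by gcongr
            _ = _ := sq_abs _
        have hr : (1 : ℝ) ≤ ((p a : ℝ) - (m + 1)) ^ 2 := by exact_mod_cast hz
        nlinarith
    have hcard : (Finset.univ.filter fun a => p a = m + 1).card ≤ m + 1 := by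
      by_cases hex : ∃ a0, p a0 = m + 1
      · obtain ⟨a0, ha0⟩ := hex
        rw [← ha0]
        refine Finset.card_le_card ?_
        intro a ha
        rw [Finset.mem_filter] at ha ⊢
        refine ⟨Finset.mem_univ _, ?_⟩
        -- the two zero sets intersect
        have hint : ((Finset.univ.filter fun b => D a b = 0) ∩
            (Finset.univ.filter fun b => D a0 b = 0)).Nonempty := by
          rw [← Finset.card_pos]
          have h1 := Finset.card_union_add_card_inter (Finset.univ.filter fun b => D a b = 0)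
            (Finset.univ.filter fun b => D a0 b = 0)
          have h2 : ((Finset.univ.filter fun b => D a b = 0) ∪
              (Finset.univ.filter fun b => D a0 b = 0)).card ≤ n := by
            refine (Finset.card_le_univ _).trans (by simp)
          have h3 : (Finset.univ.filter fun b => D a b = 0).card = m + 1 := ha.2.trans ha0
          have h4 : (Finset.univ.filter fun b => D a0 b = 0).card = m + 1 := ha0
          omega
        obtain ⟨b, hb⟩ := hint
        rw [Finset.mem_inter, Finset.mem_filter, Finset.mem_filter] at hb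
        obtain ⟨d0, ds, dn, d1, dt⟩ := hD
        have h5 := dt a0 b a
        rw [hb.2.2, ds b a, hb.1.2] at h5
        have := dn a0 a
        linarith
      · push Not at hex
        have : (Finset.univ.filter fun a => p a = m + 1) = ∅ := by
          rw [Finset.filter_eq_empty_iff]
          exact fun a _ => hex a
        rw [this]; simp
    have hcard2 : m ≤ (Finset.univ.filter fun a => p a ≠ m + 1).card := by
      have h1 := Finset.card_filter_add_card_filter_not (s := (Finset.univ : Finset (Fin n)))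
        (fun a => p a = m + 1)
      rw [Finset.card_univ, Fintype.card_fin] at h1
      show m ≤ (Finset.univ.filter fun a => ¬ p a = m + 1).card
      omega
    refine (Finset.sum_le_sum hterm).trans ?_
    rw [Finset.sum_sub_distrib, Finset.sum_const, Finset.card_univ, Fintype.card_fin,
      nsmul_eq_mul, Finset.sum_boole, hq, hn]
    have hc : (m : ℝ) ≤ ((Finset.univ.filter fun a => p a ≠ m + 1).card : ℝ) := by
      exact_mod_cast hcard2
    nlinarith

/-! ### The exact maximum -/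

/-- The parameters: `P = (1/G + 3/δ + 2/(δ(n-2)))/2`, `q = 1/(δ(n-2))`, `g = 1/G`, `δ = 1 - G`. -/
noncomputable def obj (n : ℕ) (G : ℝ) : (Fin n → Fin n → ℝ) → ℝ :=
  F ((1 / G + 3 / (1 - G) + 2 / ((1 - G) * (n - 2))) / 2) (1 / ((1 - G) * (n - 2))) (1 / G)

/-- The value of the maximum. -/
noncomputable def maxval (n : ℕ) (G : ℝ) : ℝ :=
  (2 - 3 * (1 - G)) / ((1 - G) * G) * ((n ^ 2 / 4 : ℕ) : ℝ)

theorem obj_zero_one {G : ℝ} (hG : 0 < G) (hG1 : G < 1) (hn : 3 ≤ n) {D : Fin n → Fin n → ℝ}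
    (h01 : ∀ i j, D i j = 0 ∨ D i j = 1) :
    obj n G D = 1 / (n - 2) * ((2 - 3 * (1 - G)) / ((1 - G) * G) * ∑ a, row D a * (n - 1 - row D a)
      - (2 * (1 - G) - 1) / (2 * (1 - G) * G) * (2 * ∑ a, row D a ^ 2 - n * ∑ a, row D a)) := by
  have hsq : ∑ a, ∑ b, D a b ^ 2 = ∑ a, row D a := by
    unfold row
    refine Finset.sum_congr rfl fun a _ => Finset.sum_congr rfl fun b _ => ?_
    rcases h01 a b with h | h <;> rw [h] <;> norm_num
  have hR : ∑ a, row D a * (n - 1 - row D a) = (n - 1) * ∑ a, row D a - ∑ a, row D a ^ 2 := by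
    rw [Finset.mul_sum, ← Finset.sum_sub_distrib]
    exact Finset.sum_congr rfl fun a _ => by ring
  have hn3 : (3 : ℝ) ≤ n := by exact_mod_cast hn
  have h1 : (n : ℝ) - 2 ≠ 0 := by linarith
  have h2 : (1 : ℝ) - G ≠ 0 := by linarith
  unfold obj F
  rw [hsq, hR]
  generalize ∑ a, row D a = S
  generalize ∑ a, row D a ^ 2 = Q
  field_simp
  ring

theorem obj_le {G : ℝ} (hG : 1 / 3 < G) (hG1 : G < 1 / 2) (hn : 3 ≤ n) {D : Fin n → Fin n → ℝ}
    (hD : D ∈ SM n) : obj n G D ≤ maxval n G := by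
  have hn3 : (3 : ℝ) ≤ n := by exact_mod_cast hn
  have hG0 : 0 < G := by linarith
  have hδ : 0 < 1 - G := by linarith
  have hn2 : 0 < (n : ℝ) - 2 := by linarith
  obtain ⟨D0, hD0, hmax⟩ := (isCompact_SM n).exists_isMaxOn ⟨_, zero_mem_SM⟩
    (continuous_F ((1 / G + 3 / (1 - G) + 2 / ((1 - G) * (n - 2))) / 2)
      (1 / ((1 - G) * (n - 2))) (1 / G)).continuousOn
  have hmax' : ∀ D' ∈ SM n, F ((1 / G + 3 / (1 - G) + 2 / ((1 - G) * (n - 2))) / 2)
      (1 / ((1 - G) * (n - 2))) (1 / G) D' ≤ F ((1 / G + 3 / (1 - G) + 2 / ((1 - G) * (n - 2))) / 2)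
      (1 / ((1 - G) * (n - 2))) (1 / G) D0 := fun D' hD' => hmax hD'
  refine (hmax' D hD).trans ?_
  have hq : 0 ≤ 1 / ((1 - G) * (n - 2)) := by positivity
  have hPq : n * (1 / ((1 - G) * (n - 2))) < (1 / G + 3 / (1 - G) + 2 / ((1 - G) * (n - 2))) / 2 := by
    have e : (1 / G + 3 / (1 - G) + 2 / ((1 - G) * (n - 2))) / 2 - n * (1 / ((1 - G) * (n - 2)))
        = ((1 - G) * (n - 2) + 3 * G * (n - 2) - 2 * G * (n - 1)) / (2 * G * (1 - G) * (n - 2)) := by
      field_simp
      ring
    have e2 : 0 < ((1 - G) * (n - 2) + 3 * G * (n - 2) - 2 * G * (n - 1)) /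
        (2 * G * (1 - G) * (n - 2)) := by
      refine div_pos ?_ (by positivity)
      nlinarith
    linarith
  have hpos : ∀ z : ℝ, 0 < z → z < 2 / 3 → 0 < 4 * (1 / G) -
      4 * ((1 / G + 3 / (1 - G) + 2 / ((1 - G) * (n - 2))) / 2) * z +
      2 * n * (1 / ((1 - G) * (n - 2))) * z := by
    intro z hz hz2
    have e : 4 * (1 / G) - 4 * ((1 / G + 3 / (1 - G) + 2 / ((1 - G) * (n - 2))) / 2) * z +
      2 * n * (1 / ((1 - G) * (n - 2))) * z
        = 2 * (2 * (1 - G) - z * (1 + G)) / (G * (1 - G)) := by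
      field_simp
      ring
    rw [e]
    refine div_pos ?_ (by positivity)
    nlinarith
  have h01 := zero_one_of_max hq hPq hpos hD0 hmax'
  have h1 := obj_zero_one hG0 (by linarith) hn h01
  unfold obj at h1
  rw [h1]
  have h2 := sum_row_le hD0 h01
  have h3 := count_le hD0 h01
  unfold maxval
  have hc : 0 < (2 - 3 * (1 - G)) / ((1 - G) * G) := div_pos (by linarith) (by positivity)
  have hf : 0 < (2 * (1 - G) - 1) / (2 * (1 - G) * G) := div_pos (by linarith) (by positivity)
  have h4 := mul_le_mul_of_nonneg_left h3 hc.le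
  have h5 := mul_nonneg hf.le (sub_nonneg.mpr h2)
  rw [one_div, inv_mul_le_iff₀ hn2]
  calc _ ≤ (2 - 3 * (1 - G)) / ((1 - G) * G) * ((n - 2) * ((n ^ 2 / 4 : ℕ) : ℝ)) := by linarith
    _ = _ := by ring

/-- The balanced cut. -/
noncomputable def cut (n : ℕ) : Fin n → Fin n → ℝ :=
  fun a b => if ((a : ℕ) < n / 2 ↔ (b : ℕ) < n / 2) then 0 else 1

theorem cut_01 (i j : Fin n) : cut n i j = 0 ∨ cut n i j = 1 := by
  unfold cut
  split_ifs <;> simp

theorem cut_mem : cut n ∈ SM n := by
  refine ⟨fun i => by simp [cut], fun i j => ?_, fun i j => ?_, fun i j => ?_, fun i j k => ?_⟩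
  · unfold cut
    by_cases h : ((i : ℕ) < n / 2 ↔ (j : ℕ) < n / 2)
    · rw [if_pos h, if_pos h.symm]
    · rw [if_neg h, if_neg (fun h' => h h'.symm)]
  · rcases cut_01 i j with h | h
    · rw [h]
    · rw [h]; norm_num
  · rcases cut_01 i j with h | h
    · rw [h]; norm_num
    · rw [h]
  · unfold cut
    by_cases h1 : (i : ℕ) < n / 2 <;> by_cases h2 : (j : ℕ) < n / 2 <;>
      by_cases h3 : (k : ℕ) < n / 2 <;> simp [h1, h2, h3]

theorem card_lt (n : ℕ) : (Finset.univ.filter fun b : Fin n => (b : ℕ) < n / 2).card = n / 2 := by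
  rw [Fin.card_filter_val_lt]
  omega

theorem row_cut (a : Fin n) :
    row (cut n) a = if (a : ℕ) < n / 2 then (n : ℝ) - ((n / 2 : ℕ) : ℝ) else ((n / 2 : ℕ) : ℝ) := by
  rw [row_eq cut_01]
  by_cases h : (a : ℕ) < n / 2
  · rw [if_pos h]
    congr 2
    rw [← card_lt n]
    congr 1
    ext b
    simp only [Finset.mem_filter, Finset.mem_univ, true_and, cut, h, true_iff]
    by_cases hb : (b : ℕ) < n / 2 <;> simp [hb]
  · rw [if_neg h]
    have h1 := Finset.card_filter_add_card_filter_not (s := (Finset.univ : Finset (Fin n)))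
        (fun b => (b : ℕ) < n / 2)
    rw [card_lt, Finset.card_univ, Fintype.card_fin] at h1
    have h2 : (Finset.univ.filter fun b => cut n a b = 0) =
        (Finset.univ.filter fun b : Fin n => ¬ (b : ℕ) < n / 2) := by
      ext b
      simp only [Finset.mem_filter, Finset.mem_univ, true_and, cut, h, false_iff]
      by_cases hb : (b : ℕ) < n / 2 <;> simp [hb]
    rw [h2]
    have h3 : (n : ℝ) = ((n / 2 : ℕ) : ℝ) +
      ((Finset.univ.filter fun b : Fin n => ¬ (b : ℕ) < n / 2).card : ℝ) := by exact_mod_cast h1.symm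
    linarith

theorem sum_row_cut (φ : ℝ → ℝ) : ∑ a, φ (row (cut n) a) =
    ((n / 2 : ℕ) : ℝ) * φ ((n : ℝ) - ((n / 2 : ℕ) : ℝ)) +
      ((n : ℝ) - ((n / 2 : ℕ) : ℝ)) * φ ((n / 2 : ℕ) : ℝ) := by
  have h1 := Finset.card_filter_add_card_filter_not (s := (Finset.univ : Finset (Fin n)))
        (fun b => (b : ℕ) < n / 2)
  rw [card_lt, Finset.card_univ, Fintype.card_fin] at h1
  have h3 : ((Finset.univ.filter fun b : Fin n => ¬ (b : ℕ) < n / 2).card : ℝ) =
      (n : ℝ) - ((n / 2 : ℕ) : ℝ) := by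
    have : (n : ℝ) = ((n / 2 : ℕ) : ℝ) +
      ((Finset.univ.filter fun b : Fin n => ¬ (b : ℕ) < n / 2).card : ℝ) := by exact_mod_cast h1.symm
    linarith
  have e : ∀ a, φ (row (cut n) a) = if (a : ℕ) < n / 2 then φ ((n : ℝ) - ((n / 2 : ℕ) : ℝ))
      else φ ((n / 2 : ℕ) : ℝ) := by
    intro a
    rw [row_cut]
    split_ifs <;> rfl
  rw [Finset.sum_congr rfl fun a _ => e a, Finset.sum_ite, Finset.sum_const, Finset.sum_const,
    card_lt, nsmul_eq_mul, nsmul_eq_mul, h3]

theorem obj_cut {G : ℝ} (hG : 1 / 3 < G) (hG1 : G < 1 / 2) (hn : 3 ≤ n) :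
    obj n G (cut n) = maxval n G := by
  have hn3 : (3 : ℝ) ≤ n := by exact_mod_cast hn
  have hn2 : (n : ℝ) - 2 ≠ 0 := by linarith
  rw [obj_zero_one (by linarith) (by linarith) hn cut_01,
    sum_row_cut (fun x => x * (n - 1 - x)), sum_row_cut (fun x => x ^ 2),
    sum_row_cut (fun x => x)]
  have e1 : ∀ m : ℝ, m * ((n - m) * (n - 1 - (n - m))) + (n - m) * (m * (n - 1 - m)) =
      (n - 2) * (m * (n - m)) := fun m => by ring
  have e2 : ∀ m : ℝ, 2 * (m * (n - m) ^ 2 + (n - m) * m ^ 2) -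
      n * (m * (n - m) + (n - m) * m) = 0 := fun m => by ring
  rw [e1, e2, mul_zero, sub_zero]
  unfold maxval
  have hq : ((n ^ 2 / 4 : ℕ) : ℝ) = ((n / 2 : ℕ) : ℝ) * (n - ((n / 2 : ℕ) : ℝ)) := by
    rcases Nat.even_or_odd' n with ⟨m, hm | hm⟩
    · have h1 : n / 2 = m := by omega
      have h2 : n ^ 2 / 4 = m ^ 2 := by
        rw [hm]
        have : (2 * m) ^ 2 = 4 * m ^ 2 := by ring
        rw [this]
        exact Nat.mul_div_cancel_left _ (by norm_num)
      rw [h1, h2, hm]; push_cast; ring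
    · have h1 : n / 2 = m := by omega
      have h2 : n ^ 2 / 4 = m * (m + 1) := by
        rw [hm]
        have : (2 * m + 1) ^ 2 = 4 * (m * (m + 1)) + 1 := by ring
        rw [this]
        omega
      rw [h1, h2, hm]; push_cast; ring
  rw [hq]
  generalize ((n / 2 : ℕ) : ℝ) * (n - ((n / 2 : ℕ) : ℝ)) = x
  field_simp

end Q144.JE
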