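import Mathlib

/-!
The cubic equation for the half width `G` of the John ellipsoid, and the limit.
-/

namespace Q144.JE

open Filter Topology

/-- The cubic polynomial whose root in `(0,1)` is the half width of the ellipsoid in the
coordinate directions. -/
noncomputable def cubic (n : ℕ) (x : ℝ) : ℝ :=
  (2 * (n : ℝ) ^ 2 - 2 * n + 4) * x ^ 3 + (4 * (n : ℝ) ^ 2 - 8 * n - 4) * x ^ 2
    + ((n : ℝ) - 2) * (n - 6) * x - ((n : ℝ) - 2) ^ 2

theorem exists_root (n : ℕ) (hn : 3 ≤ n) : ∃ G : ℝ, 1 / 3 < G ∧ G < 1 / 2 ∧ cubic n G = 0 := by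
  have hn3 : (3 : ℝ) ≤ n := by exact_mod_cast hn
  have hcont : Continuous (cubic n) := by unfold cubic; fun_prop
  have h1 : cubic n (1 / 3) < 0 := by
    unfold cubic
    nlinarith
  have h2 : 0 < cubic n (1 / 2) := by
    unfold cubic
    nlinarith
  obtain ⟨G, hG, hG0⟩ := intermediate_value_Icc (by norm_num : (1 / 3 : ℝ) ≤ 1 / 2)
    hcont.continuousOn ⟨h1.le, h2.le⟩
  refine ⟨G, ?_, ?_, hG0⟩
  · refine lt_of_le_of_ne hG.1 fun h => ?_
    rw [← h] at hG0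
    linarith
  · refine lt_of_le_of_ne hG.2 fun h => ?_
    rw [h] at hG0
    linarith

theorem root_unique (n : ℕ) (hn : 3 ≤ n) {x y : ℝ} (hx : 0 < x) (hy : 0 < y)
    (h1 : cubic n x = 0) (h2 : cubic n y = 0) : x = y := by
  have hn3 : (3 : ℝ) ≤ n := by exact_mod_cast hn
  have key : ∀ x y : ℝ, 0 < x → x < y → cubic n x = 0 → cubic n y = 0 → False := by
    intro x y hx hxy h1 h2
    unfold cubic at h1 h2
    have hy : 0 < y := hx.trans hxy
    have hA : 0 < 2 * (n : ℝ) ^ 2 - 2 * n + 4 := by nlinarith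
    have hB : 0 < 4 * (n : ℝ) ^ 2 - 8 * n - 4 := by nlinarith
    have hE : 0 < ((n : ℝ) - 2) ^ 2 := by nlinarith
    generalize 2 * (n : ℝ) ^ 2 - 2 * n + 4 = A at *
    generalize 4 * (n : ℝ) ^ 2 - 8 * n - 4 = B at *
    generalize ((n : ℝ) - 2) ^ 2 = E at *
    generalize ((n : ℝ) - 2) * (n - 6) = C at *
    rcases le_or_gt C 0 with hC | hC
    · have e : (A * y ^ 3 + B * y ^ 2 + C * y - E) * x ^ 2 - (A * x ^ 3 + B * x ^ 2 + C * x - E) * y ^ 2
          = A * x ^ 2 * y ^ 2 * (y - x) + (-C) * (x * y) * (y - x) + E * (y - x) * (y + x) := by ring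
      rw [h1, h2] at e
      have p1 : 0 < A * x ^ 2 * y ^ 2 * (y - x) := by
        have := sub_pos.mpr hxy; positivity
      have p2 : 0 ≤ (-C) * (x * y) * (y - x) := by
        have := sub_pos.mpr hxy
        exact mul_nonneg (mul_nonneg (by linarith) (by positivity)) this.le
      have p3 : 0 < E * (y - x) * (y + x) := by
        have := sub_pos.mpr hxy; positivity
      linarith
    · have e : (A * y ^ 3 + B * y ^ 2 + C * y - E) - (A * x ^ 3 + B * x ^ 2 + C * x - E)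
          = (y - x) * (A * (y ^ 2 + x * y + x ^ 2) + B * (y + x) + C) := by ring
      rw [h1, h2] at e
      have p1 : 0 < (y - x) * (A * (y ^ 2 + x * y + x ^ 2) + B * (y + x) + C) := by
        have := sub_pos.mpr hxy; positivity
      linarith
  rcases lt_trichotomy x y with h | h | h
  · exact (key x y hx h h1 h2).elim
  · exact h
  · exact (key y x hy h h2 h1).elim

/-- The square of the inflation factor. -/
noncomputable def rsq (n : ℕ) (G : ℝ) : ℝ :=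
  (n : ℝ) * (n - 1) / 2 * ((1 - G) / G) + ((n ^ 2 / 4 : ℕ) : ℝ) * ((3 * G - 1) / (G * (1 - G)))

theorem root_close (n : ℕ) (hn : 3 ≤ n) {G : ℝ} (h1 : 1 / 3 < G) (h2 : G < 1 / 2)
    (h0 : cubic n G = 0) : |G - (Real.sqrt 3 - 1) / 2| ≤ 15 / n := by
  have hn3 : (3 : ℝ) ≤ n := by exact_mod_cast hn
  have hn0 : (0 : ℝ) < n := by linarith
  set w := Real.sqrt 3 with hw
  have hw2 : w ^ 2 = 3 := Real.sq_sqrt (by norm_num)
  have hw0 : 0 ≤ w := Real.sqrt_nonneg _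
  have e1 : (n : ℝ) ^ 2 * ((G - (w - 1) / 2) * (2 * (G + 1) * (G + (w + 1) / 2))) =
      (2 * n - 4) * G ^ 3 + (8 * n + 4) * G ^ 2 + (8 * n - 12) * G - 4 * n + 4 := by
    unfold cubic at h0
    have : (G - (w - 1) / 2) * (2 * (G + 1) * (G + (w + 1) / 2)) =
        2 * G ^ 3 + 4 * G ^ 2 + G - 1 := by
      linear_combination (-(G + 1) / 2) * hw2
    rw [this]
    linear_combination h0
  have hG0 : 0 < G := by linarith
  have hG2 : G ^ 2 < 1 / 4 := by nlinarith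
  have hG3 : G ^ 3 < 1 / 8 := by nlinarith
  have hG2' : 0 < G ^ 2 := by positivity
  have hG3' : 0 < G ^ 3 := by positivity
  have hb1 : (2 * (n : ℝ) - 4) * G ^ 3 + (8 * n + 4) * G ^ 2 + (8 * n - 12) * G - 4 * n + 4 ≤ 15 * n := by
    nlinarith
  have hb2 : -(15 * (n : ℝ)) ≤ (2 * (n : ℝ) - 4) * G ^ 3 + (8 * n + 4) * G ^ 2 + (8 * n - 12) * G - 4 * n + 4 := by
    nlinarith
  have hX : 1 ≤ 2 * (G + 1) * (G + (w + 1) / 2) := by nlinarith
  rw [← e1] at hb1 hb2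
  have habs : |(n : ℝ) ^ 2 * ((G - (w - 1) / 2) * (2 * (G + 1) * (G + (w + 1) / 2)))| ≤ 15 * (n : ℝ) :=
    abs_le.mpr ⟨hb2, hb1⟩
  rw [abs_mul, abs_mul, abs_of_pos (by positivity : (0 : ℝ) < (n : ℝ) ^ 2),
    abs_of_pos (by linarith : 0 < 2 * (G + 1) * (G + (w + 1) / 2))] at habs
  have h3 : |G - (w - 1) / 2| ≤ |G - (w - 1) / 2| * (2 * (G + 1) * (G + (w + 1) / 2)) := by
    nlinarith [abs_nonneg (G - (w - 1) / 2)]
  rw [le_div_iff₀ hn0]
  have h4 : (n : ℝ) ^ 2 * |G - (w - 1) / 2| ≤ 15 * n := by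
    refine le_trans ?_ habs
    exact mul_le_mul_of_nonneg_left h3 (by positivity)
  nlinarith [h4, hn0, abs_nonneg (G - (w - 1) / 2)]

theorem tendsto_root (G : ℕ → ℝ) (hG : ∀ n, 3 ≤ n → 1 / 3 < G n ∧ G n < 1 / 2 ∧ cubic n (G n) = 0) :
    Tendsto G atTop (𝓝 ((Real.sqrt 3 - 1) / 2)) := by
  rw [tendsto_iff_norm_sub_tendsto_zero]
  refine squeeze_zero' (g := fun n : ℕ => 15 / (n : ℝ)) (Eventually.of_forall fun n => norm_nonneg _)
    ?_ (tendsto_const_div_atTop_nhds_zero_nat 15)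
  filter_upwards [eventually_ge_atTop 3] with n hn
  obtain ⟨h1, h2, h3⟩ := hG n hn
  rw [Real.norm_eq_abs]
  exact root_close n hn h1 h2 h3

theorem limit_value : Real.sqrt ((5 * Real.sqrt 3 + 3) / 12) =
    (3 : ℝ) ^ (3 / 4 : ℝ) * Real.sqrt (5 + Real.sqrt 3) / 6 := by
  have h3 : ((3 : ℝ) ^ (3 / 4 : ℝ)) ^ 2 = 3 * Real.sqrt 3 := by
    rw [← Real.rpow_natCast, ← Real.rpow_mul (by norm_num), Real.sqrt_eq_rpow]
    have : (3 : ℝ) * 3 ^ (1 / 2 : ℝ) = 3 ^ (1 : ℝ) * 3 ^ (1 / 2 : ℝ) := by rw [Real.rpow_one]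
    rw [this, ← Real.rpow_add (by norm_num)]
    norm_num
  have hw2 : Real.sqrt 3 ^ 2 = 3 := Real.sq_sqrt (by norm_num)
  rw [Real.sqrt_eq_iff_mul_self_eq (by positivity) (by positivity)]
  have h5 : Real.sqrt (5 + Real.sqrt 3) ^ 2 = 5 + Real.sqrt 3 := Real.sq_sqrt (by positivity)
  have e : (3 : ℝ) ^ (3 / 4 : ℝ) * Real.sqrt (5 + Real.sqrt 3) / 6 *
      ((3 : ℝ) ^ (3 / 4 : ℝ) * Real.sqrt (5 + Real.sqrt 3) / 6) =
      ((3 : ℝ) ^ (3 / 4 : ℝ)) ^ 2 * Real.sqrt (5 + Real.sqrt 3) ^ 2 / 36 := by ring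
  rw [e, h3, h5]
  linear_combination (-(1 / 12)) * hw2

theorem tendsto_ratio (G r : ℕ → ℝ)
    (hG : ∀ n, 3 ≤ n → 1 / 3 < G n ∧ G n < 1 / 2 ∧ cubic n (G n) = 0)
    (hr : ∀ n, 3 ≤ n → r n = Real.sqrt (rsq n (G n))) :
    Tendsto (fun n : ℕ => r n / n) atTop
      (𝓝 ((3 : ℝ) ^ (3 / 4 : ℝ) * Real.sqrt (5 + Real.sqrt 3) / 6)) := by
  have hlim := tendsto_root G hG
  rw [← limit_value]
  set w := Real.sqrt 3 with hw
  have hw2 : w ^ 2 = 3 := Real.sq_sqrt (by norm_num)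
  have hw0 : 0 ≤ w := Real.sqrt_nonneg _
  have hw1 : 1 < w := by nlinarith
  have hw3 : w < 2 := by nlinarith
  have h1 : Tendsto (fun n : ℕ => ((n : ℝ) * (n - 1) / 2) / (n : ℝ) ^ 2) atTop (𝓝 (1 / 2)) := by
    have h0 : Tendsto (fun n : ℕ => (1 / 2 : ℝ) - (1 / 2) / (n : ℝ)) atTop (𝓝 (1 / 2 - 0)) :=
      tendsto_const_nhds.sub (tendsto_const_div_atTop_nhds_zero_nat _)
    rw [sub_zero] at h0
    refine h0.congr' ?_
    filter_upwards [eventually_gt_atTop 0] with n hn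
    have hn0 : (n : ℝ) ≠ 0 := by positivity
    field_simp
  have h2 : Tendsto (fun n : ℕ => ((n ^ 2 / 4 : ℕ) : ℝ) / (n : ℝ) ^ 2) atTop (𝓝 (1 / 4)) := by
    rw [tendsto_iff_norm_sub_tendsto_zero]
    refine squeeze_zero' (g := fun n : ℕ => 1 / (n : ℝ)) (Eventually.of_forall fun n => norm_nonneg _)
      ?_ (tendsto_const_div_atTop_nhds_zero_nat 1)
    filter_upwards [eventually_gt_atTop 0] with n hn
    have hn0 : (0 : ℝ) < n := by exact_mod_cast hn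
    have hn1 : (1 : ℝ) ≤ n := by exact_mod_cast hn
    have ha : 4 * (n ^ 2 / 4) ≤ n ^ 2 := Nat.mul_div_le _ _
    have hb : n ^ 2 < 4 * (n ^ 2 / 4) + 4 := by omega
    have ha' : 4 * ((n ^ 2 / 4 : ℕ) : ℝ) ≤ (n : ℝ) ^ 2 := by exact_mod_cast ha
    have hb' : (n : ℝ) ^ 2 < 4 * ((n ^ 2 / 4 : ℕ) : ℝ) + 4 := by exact_mod_cast hb
    rw [Real.norm_eq_abs, abs_le]
    constructor
    · rw [neg_le_sub_iff_le_add, ← sub_le_iff_le_add, le_div_iff₀ (by positivity)]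
      have : (1 / 4 - 1 / (n : ℝ)) * (n : ℝ) ^ 2 = (n : ℝ) ^ 2 / 4 - n := by field_simp
      rw [this]
      nlinarith
    · have hle : ((n ^ 2 / 4 : ℕ) : ℝ) / (n : ℝ) ^ 2 ≤ 1 / 4 := by
        rw [div_le_iff₀ (by positivity)]; linarith
      have : 0 ≤ 1 / (n : ℝ) := by positivity
      linarith
  have hG0 : (w - 1) / 2 ≠ 0 := by
    have : 0 < (w - 1) / 2 := by linarith
    exact this.ne'
  have hG1 : 1 - (w - 1) / 2 ≠ 0 := by
    have : 0 < 1 - (w - 1) / 2 := by linarith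
    exact this.ne'
  have h3 : Tendsto (fun n => (1 - G n) / G n) atTop (𝓝 ((1 - (w - 1) / 2) / ((w - 1) / 2))) :=
    (tendsto_const_nhds.sub hlim).div hlim hG0
  have h4 : Tendsto (fun n => (3 * G n - 1) / (G n * (1 - G n))) atTop
      (𝓝 ((3 * ((w - 1) / 2) - 1) / ((w - 1) / 2 * (1 - (w - 1) / 2)))) :=
    ((hlim.const_mul 3).sub tendsto_const_nhds).div (hlim.mul (tendsto_const_nhds.sub hlim))
      (mul_ne_zero hG0 hG1)
  have h5 := (h1.mul h3).add (h2.mul h4)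
  have e5 : (1 / 2 : ℝ) * ((1 - (w - 1) / 2) / ((w - 1) / 2)) +
      1 / 4 * ((3 * ((w - 1) / 2) - 1) / ((w - 1) / 2 * (1 - (w - 1) / 2))) = (5 * w + 3) / 12 := by
    have a1 : w - 1 ≠ 0 := by linarith
    have a2 : 3 - w ≠ 0 := by linarith
    have a3 : (1 : ℝ) - (w - 1) / 2 = (3 - w) / 2 := by ring
    rw [a3]
    field_simp
    ring_nf
    have w3 : w ^ 3 = 3 * w := by rw [pow_succ, hw2]
    nlinarith [w3, hw2]
  rw [e5] at h5
  have h6 := (Real.continuous_sqrt.tendsto ((5 * w + 3) / 12)).comp h5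
  refine h6.congr' ?_
  filter_upwards [eventually_ge_atTop 3] with n hn
  have hn0 : (0 : ℝ) < n := by
    have : 0 < n := by omega
    exact_mod_cast this
  rw [hr n hn, Function.comp_apply, ← Real.sqrt_sq hn0.le, ← Real.sqrt_div' _ (by positivity),
    Real.sqrt_sq hn0.le]
  congr 1
  unfold rsq
  field_simp

end Q144.JE
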