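import Pool.Agent.Q144.JEa
import Pool.Agent.Q144.JEc
import Pool.Agent.Q144.JEd

/-!
The space of functions on the edges of the complete graph: the quadratic form of the John
ellipsoid, the vectors dual to edges and triangles.
-/

namespace Q144.JE

open scoped BigOperators RealInnerProductSpace

variable {n : ℕ}

/-- Unordered pairs of distinct elements, written in increasing order. -/
abbrev Edge (n : ℕ) := {p : Fin n × Fin n // p.1 < p.2}

/-- The space `ℝ^(pairs)`. -/
abbrev VE (n : ℕ) := EuclideanSpace ℝ (Edge n)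

/-- The symmetric function on pairs belonging to a point. -/
noncomputable def dd (d : VE n) (i j : Fin n) : ℝ :=
  if h : i < j then d ⟨(i, j), h⟩ else if h : j < i then d ⟨(j, i), h⟩ else 0

theorem dd_self (d : VE n) (i : Fin n) : dd d i i = 0 := by
  simp [dd]

theorem dd_symm (d : VE n) (i j : Fin n) : dd d i j = dd d j i := by
  unfold dd
  rcases lt_trichotomy i j with h | h | h
  · rw [dif_pos h, dif_neg (asymm h), dif_pos h]
  · subst h; rfl
  · rw [dif_neg (asymm h), dif_pos h, dif_pos h]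

theorem dd_edge (d : VE n) (e : Edge n) : dd d e.1.1 e.1.2 = d e := by
  unfold dd
  rw [dif_pos e.2]

theorem dd_add (x y : VE n) (i j : Fin n) : dd (x + y) i j = dd x i j + dd y i j := by
  unfold dd
  split_ifs <;> simp

theorem dd_smul (c : ℝ) (x : VE n) (i j : Fin n) : dd (c • x) i j = c * dd x i j := by
  unfold dd
  split_ifs <;> simp

theorem dd_sub (x y : VE n) (i j : Fin n) : dd (x - y) i j = dd x i j - dd y i j := by
  unfold dd
  split_ifs <;> simp

theorem row_add (x y : VE n) (i : Fin n) : row (dd (x + y)) i = row (dd x) i + row (dd y) i := by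
  unfold row
  rw [← Finset.sum_add_distrib]
  exact Finset.sum_congr rfl fun j _ => dd_add x y i j

theorem row_smul (c : ℝ) (x : VE n) (i : Fin n) : row (dd (c • x)) i = c * row (dd x) i := by
  unfold row
  rw [Finset.mul_sum]
  exact Finset.sum_congr rfl fun j _ => dd_smul c x i j

/-- Sums over ordered pairs of a symmetric function. -/
theorem sum_edge (f : Fin n → Fin n → ℝ) (h0 : ∀ i, f i i = 0) (hs : ∀ i j, f i j = f j i) :
    ∑ i, ∑ j, f i j = 2 * ∑ e : Edge n, f e.1.1 e.1.2 := by
  have e1 : ∑ i, ∑ j, f i j = ∑ p : Fin n × Fin n, f p.1 p.2 := by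
    rw [Fintype.sum_prod_type]
  have e2 : ∀ p : Fin n × Fin n, f p.1 p.2 = (if p.1 < p.2 then f p.1 p.2 else 0) +
      (if p.2 < p.1 then f p.1 p.2 else 0) := by
    intro p
    rcases lt_trichotomy p.1 p.2 with h | h | h
    · rw [if_pos h, if_neg (asymm h), add_zero]
    · rw [if_neg h.not_lt, if_neg h.symm.not_lt, h, h0]; simp
    · rw [if_neg (asymm h), if_pos h, zero_add]
  have e3 : ∑ p : Fin n × Fin n, (if p.2 < p.1 then f p.1 p.2 else 0) =
      ∑ p : Fin n × Fin n, (if p.1 < p.2 then f p.1 p.2 else 0) := by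
    rw [← Equiv.sum_comp (Equiv.prodComm (Fin n) (Fin n))]
    refine Finset.sum_congr rfl fun p _ => ?_
    show (if p.1 < p.2 then f p.2 p.1 else 0) = (if p.1 < p.2 then f p.1 p.2 else 0)
    rw [hs p.2 p.1]
  have e4 : ∑ p : Fin n × Fin n, (if p.1 < p.2 then f p.1 p.2 else 0) =
      ∑ e : Edge n, f e.1.1 e.1.2 := by
    rw [← Finset.sum_filter]
    exact Finset.sum_subtype (Finset.univ.filter fun p : Fin n × Fin n => p.1 < p.2)
      (fun p => by simp) (fun p => f p.1 p.2)
  rw [e1, Finset.sum_congr rfl fun p _ => e2 p, Finset.sum_add_distrib, e3, e4]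
  ring

theorem sum_mul_dd (x y : VE n) :
    ∑ i, ∑ j, dd x i j * dd y i j = 2 * ∑ e, x e * y e := by
  rw [sum_edge (fun i j => dd x i j * dd y i j) (fun i => by simp [dd_self])
    (fun i j => by simp only [dd_symm x i j, dd_symm y i j])]
  congr 1
  exact Finset.sum_congr rfl fun e _ => by rw [dd_edge, dd_edge]

theorem inner_eq (x y : VE n) : ⟪x, y⟫ = ∑ e, x e * y e := by
  rw [PiLp.inner_apply]
  refine Finset.sum_congr rfl fun e _ => ?_
  simp [mul_comm]

/-- The operator of the quadratic form. -/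
noncomputable def Top (A B : ℝ) : VE n →ₗ[ℝ] VE n where
  toFun x := WithLp.toLp 2 fun e => A * x e - B * (row (dd x) e.1.1 + row (dd x) e.1.2)
  map_add' x y := by
    ext e
    simp only [PiLp.add_apply, row_add]
    ring
  map_smul' c x := by
    ext e
    simp only [PiLp.smul_apply, row_smul, smul_eq_mul, RingHom.id_apply]
    ring

theorem Top_apply (A B : ℝ) (x : VE n) (e : Edge n) :
    Top A B x e = A * x e - B * (row (dd x) e.1.1 + row (dd x) e.1.2) := rfl

theorem inner_Top (A B : ℝ) (x y : VE n) :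
    ⟪Top A B x, y⟫ = A * ∑ e, x e * y e - B * ∑ i, row (dd x) i * row (dd y) i := by
  rw [inner_eq]
  have e1 : ∑ e, Top A B x e * y e = A * ∑ e, x e * y e -
      B * ∑ e : Edge n, (row (dd x) e.1.1 + row (dd x) e.1.2) * y e := by
    rw [Finset.mul_sum, Finset.mul_sum, ← Finset.sum_sub_distrib]
    exact Finset.sum_congr rfl fun e _ => by rw [Top_apply]; ring
  have e2 : ∑ i, ∑ j, (row (dd x) i + row (dd x) j) * dd y i j =
      2 * ∑ e : Edge n, (row (dd x) e.1.1 + row (dd x) e.1.2) * y e := by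
    rw [sum_edge (fun i j => (row (dd x) i + row (dd x) j) * dd y i j)
      (fun i => by simp [dd_self]) (fun i j => by simp only [dd_symm y i j]; ring)]
    congr 1
    exact Finset.sum_congr rfl fun e _ => by rw [dd_edge]
  have e3 : ∑ i, ∑ j, (row (dd x) i + row (dd x) j) * dd y i j =
      2 * ∑ i, row (dd x) i * row (dd y) i := by
    have a1 : ∑ i, ∑ j, row (dd x) i * dd y i j = ∑ i, row (dd x) i * row (dd y) i := by
      refine Finset.sum_congr rfl fun i _ => ?_
      rw [← Finset.mul_sum]; rfl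
    have a2 : ∑ i, ∑ j, row (dd x) j * dd y i j = ∑ i, row (dd x) i * row (dd y) i := by
      rw [Finset.sum_comm]
      refine Finset.sum_congr rfl fun i _ => ?_
      rw [← Finset.mul_sum]
      congr 1
      exact Finset.sum_congr rfl fun j _ => dd_symm y j i
    simp only [add_mul, Finset.sum_add_distrib, a1, a2]
    ring
  rw [e1]
  have : ∑ e : Edge n, (row (dd x) e.1.1 + row (dd x) e.1.2) * y e =
      ∑ i, row (dd x) i * row (dd y) i := by linarith
  rw [this]

theorem Top_symm (A B : ℝ) : (Top A B : VE n →ₗ[ℝ] VE n).IsSymmetric := by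
  intro x y
  rw [inner_Top, real_inner_comm, inner_Top]
  congr 2
  · exact Finset.sum_congr rfl fun e _ => mul_comm _ _
  · exact Finset.sum_congr rfl fun e _ => mul_comm _ _

theorem Top_pos {A B : ℝ} (hB : 0 ≤ B) (hAB : 2 * n * B < A) (x : VE n) (hx : x ≠ 0) :
    0 < ⟪Top A B x, x⟫ := by
  rw [inner_Top]
  have h1 : ∑ i, row (dd x) i * row (dd x) i ≤ n * (2 * ∑ e, x e * x e) := by
    rw [← sum_mul_dd, Finset.mul_sum]
    refine Finset.sum_le_sum fun i _ => ?_
    have := sq_sum_le_card_mul_sum_sq (s := Finset.univ) (f := fun b => dd x i b)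
    rw [Finset.card_univ, Fintype.card_fin] at this
    unfold row
    simpa only [sq] using this
  have h2 : 0 < ∑ e, x e * x e := by
    rw [← inner_eq]
    exact real_inner_self_pos.mpr hx
  have h3 := mul_le_mul_of_nonneg_left h1 hB
  nlinarith [mul_pos h2 (sub_pos.mpr hAB)]

/-! ### Dual vectors -/

/-- The vector dual to the coordinate `d_ij`. -/
noncomputable def eps (i j : Fin n) : VE n :=
  if h : i < j then EuclideanSpace.single ⟨(i, j), h⟩ 1
  else if h : j < i then EuclideanSpace.single ⟨(j, i), h⟩ 1 else 0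

theorem inner_eps (i j : Fin n) (x : VE n) : ⟪eps i j, x⟫ = dd x i j := by
  unfold eps dd
  split_ifs <;> simp [EuclideanSpace.inner_single_left]

theorem eps_edge (e f : Edge n) : (eps e.1.1 e.1.2 : VE n) f = if f = e then 1 else 0 := by
  unfold eps
  rw [dif_pos e.2]
  simp [PiLp.single_apply]

/-- Indicator. -/
noncomputable def del (i j : Fin n) : ℝ := if i = j then 1 else 0

/-- Indicator of the pair `pq`. -/
noncomputable def ind (p q i j : Fin n) : ℝ := del i p * del j q + del i q * del j p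

/-- Degree of `i` in the pair `pq`. -/
noncomputable def deg (p q i : Fin n) : ℝ := del i p + del i q

/-- The vector `s` with `Top s = eps`. -/
noncomputable def sv (α β γ : ℝ) (p q : Fin n) : VE n :=
  WithLp.toLp 2 fun e => α * ind p q e.1.1 e.1.2 + β * (deg p q e.1.1 + deg p q e.1.2) + γ

theorem ind_symm (p q i j : Fin n) : ind p q i j = ind p q j i := by
  unfold ind; ring

theorem dd_sv (α β γ : ℝ) (p q : Fin n) {i j : Fin n} (hij : i ≠ j) :
    dd (sv α β γ p q) i j = α * ind p q i j + β * (deg p q i + deg p q j) + γ := by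
  unfold dd
  rcases lt_or_gt_of_ne hij with h | h
  · rw [dif_pos h]; rfl
  · rw [dif_neg (asymm h), dif_pos h]
    show α * ind p q j i + β * (deg p q j + deg p q i) + γ = _
    rw [ind_symm]; ring

theorem sum_del (p : Fin n) : ∑ j, del j p = 1 := by
  unfold del; simp

theorem row_sv (α β γ : ℝ) {p q : Fin n} (hpq : p ≠ q) (i : Fin n) :
    row (dd (sv α β γ p q)) i =
      α * deg p q i + β * ((n - 2) * deg p q i + 2) + (n - 1) * γ := by
  have e : ∀ j, dd (sv α β γ p q) i j =
      α * ind p q i j + β * (deg p q i + deg p q j) + γ -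
        (if i = j then (α * ind p q i i + β * (deg p q i + deg p q i) + γ) else 0) := by
    intro j
    by_cases h : i = j
    · subst h; rw [dd_self, if_pos rfl]; ring
    · rw [dd_sv α β γ p q h, if_neg h, sub_zero]
  unfold row
  rw [Finset.sum_congr rfl fun j _ => e j, Finset.sum_sub_distrib, Finset.sum_ite_eq]
  simp only [Finset.mem_univ, if_true, Finset.sum_add_distrib, ← Finset.mul_sum]
  have h1 : ∑ j, ind p q i j = deg p q i := by
    unfold ind deg
    rw [Finset.sum_add_distrib, ← Finset.mul_sum, ← Finset.mul_sum, sum_del, sum_del]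
    ring
  have h2 : ∑ j, deg p q j = 2 := by
    unfold deg
    rw [Finset.sum_add_distrib, sum_del, sum_del]; norm_num
  have h3 : ind p q i i = 0 := by
    unfold ind del
    by_cases h : i = p
    · subst h; simp [hpq]
    · simp [h]
  rw [h1, h2, h3]
  simp only [Finset.sum_const, Finset.card_univ, Fintype.card_fin, nsmul_eq_mul]
  ring

theorem ind_edge (p q : Fin n) (hpq : p ≠ q) (e : Edge n) :
    (eps p q : VE n) e = ind p q e.1.1 e.1.2 := by
  have he := e.2
  unfold eps ind del
  rcases lt_or_gt_of_ne hpq with h | h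
  · rw [dif_pos h]
    simp only [PiLp.single_apply]
    by_cases h1 : e.1.1 = p
    · by_cases h2 : e.1.2 = q
      · have : e = ⟨(p, q), h⟩ := Subtype.ext (Prod.ext h1 h2)
        rw [if_pos this, if_pos h1, if_pos h2, if_neg (h1.trans_ne hpq)]; ring
      · have : e ≠ ⟨(p, q), h⟩ := fun h' => h2 (by rw [h'])
        rw [if_neg this, if_neg h2, if_neg (h1.trans_ne hpq)]; ring
    · have : e ≠ ⟨(p, q), h⟩ := fun h' => h1 (by rw [h'])
      rw [if_neg this, if_neg h1]
      by_cases h2 : e.1.1 = q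
      · have h3 : e.1.2 ≠ p := by
          intro h3
          rw [h2, h3] at he
          exact asymm he h
        rw [if_neg h3]; ring
      · rw [if_neg h2]; ring
  · rw [dif_neg (asymm h), dif_pos h]
    simp only [PiLp.single_apply]
    by_cases h1 : e.1.1 = q
    · by_cases h2 : e.1.2 = p
      · have : e = ⟨(q, p), h⟩ := Subtype.ext (Prod.ext h1 h2)
        rw [if_pos this, if_pos h1, if_pos h2, if_neg (h1.trans_ne hpq.symm)]; ring
      · have : e ≠ ⟨(q, p), h⟩ := fun h' => h2 (by rw [h'])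
        rw [if_neg this, if_neg h2, if_neg (h1.trans_ne hpq.symm)]; ring
    · have : e ≠ ⟨(q, p), h⟩ := fun h' => h1 (by rw [h'])
      rw [if_neg this, if_neg h1]
      by_cases h2 : e.1.1 = p
      · have h3 : e.1.2 ≠ q := by
          intro h3
          rw [h2, h3] at he
          exact asymm he h
        rw [if_neg h3]; ring
      · rw [if_neg h2]; ring

theorem Top_sv {A B α β γ : ℝ} (h1 : A * α = 1) (h2 : (A - (n - 2) * B) * β = B * α)
    (h3 : (A - 2 * (n - 1) * B) * γ = 4 * B * β) {p q : Fin n} (hpq : p ≠ q) :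
    Top A B (sv α β γ p q) = eps p q := by
  ext e
  rw [Top_apply, ind_edge p q hpq, row_sv α β γ hpq, row_sv α β γ hpq]
  have : (sv α β γ p q : VE n) e =
      α * ind p q e.1.1 e.1.2 + β * (deg p q e.1.1 + deg p q e.1.2) + γ := rfl
  rw [this]
  linear_combination ind p q e.1.1 e.1.2 * h1 + (deg p q e.1.1 + deg p q e.1.2) * h2 + h3

/-! ### Triangles -/

/-- Ordered triples of distinct points. -/
abbrev Tri (n : ℕ) := {t : Fin n × Fin n × Fin n // t.1 ≠ t.2.1 ∧ t.2.1 ≠ t.2.2 ∧ t.1 ≠ t.2.2}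

/-- The triangle vector. -/
noncomputable def tv (i j k : Fin n) : VE n := eps i j + eps j k - eps i k

theorem inner_tv (i j k : Fin n) (x : VE n) : ⟪tv i j k, x⟫ = dd x i j + dd x j k - dd x i k := by
  unfold tv
  rw [inner_sub_left, inner_add_left, inner_eps, inner_eps, inner_eps]

theorem sum_tri (f : Fin n → Fin n → Fin n → ℝ) (h1 : ∀ i k, f i i k = 0)
    (h2 : ∀ i j, f i j j = 0) :
    ∑ t : Tri n, f t.1.1 t.1.2.1 t.1.2.2 = ∑ i, ∑ j, ∑ k, f i j k - ∑ i, ∑ j, f i j i := by
  classical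
  have e1 : ∑ t : Tri n, f t.1.1 t.1.2.1 t.1.2.2 = ∑ t : Fin n × Fin n × Fin n,
      (if t.1 ≠ t.2.1 ∧ t.2.1 ≠ t.2.2 ∧ t.1 ≠ t.2.2 then f t.1 t.2.1 t.2.2 else 0) := by
    rw [← Finset.sum_filter]
    exact (Finset.sum_subtype (Finset.univ.filter fun t : Fin n × Fin n × Fin n =>
      t.1 ≠ t.2.1 ∧ t.2.1 ≠ t.2.2 ∧ t.1 ≠ t.2.2) (fun p => by simp)
      (fun t => f t.1 t.2.1 t.2.2)).symm
  have e2 : ∀ i j k : Fin n, (if i ≠ j ∧ j ≠ k ∧ i ≠ k then f i j k else 0) =
      f i j k - (if i = k then f i j i else 0) := by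
    intro i j k
    by_cases h : i = j
    · subst h
      rw [if_neg (by tauto), h1]
      by_cases h' : i = k
      · rw [if_pos h', h1]; ring
      · rw [if_neg h']; ring
    · by_cases h' : j = k
      · subst h'
        rw [if_neg (by tauto), h2, if_neg h]; ring
      · by_cases h'' : i = k
        · subst h''
          rw [if_neg (by tauto), if_pos rfl]; ring
        · rw [if_pos ⟨h, h', h''⟩, if_neg h'']; ring
  rw [e1, Fintype.sum_prod_type]
  simp only [Fintype.sum_prod_type]
  rw [← Finset.sum_sub_distrib]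
  refine Finset.sum_congr rfl fun i _ => ?_
  rw [← Finset.sum_sub_distrib]
  refine Finset.sum_congr rfl fun j _ => ?_
  rw [Finset.sum_congr rfl fun k _ => e2 i j k, Finset.sum_sub_distrib]
  simp

theorem sum_tri_lin (x : VE n) :
    ∑ t : Tri n, ⟪tv t.1.1 t.1.2.1 t.1.2.2, x⟫ = 2 * (n - 2) * ∑ e, x e := by
  have e0 : ∑ t : Tri n, ⟪tv t.1.1 t.1.2.1 t.1.2.2, x⟫ =
      ∑ t : Tri n, (fun i j k => dd x i j + dd x j k - dd x i k) t.1.1 t.1.2.1 t.1.2.2 :=
    Finset.sum_congr rfl fun t _ => inner_tv _ _ _ _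
  rw [e0, sum_tri (fun i j k => dd x i j + dd x j k - dd x i k) (fun i k => by simp [dd_self])
    (fun i j => by simp [dd_self])]
  have hS : ∑ i, ∑ j, dd x i j = 2 * ∑ e, x e := by
    rw [sum_edge (dd x) (dd_self x) (dd_symm x)]
    congr 1
    exact Finset.sum_congr rfl fun e _ => dd_edge x e
  have a1 : ∑ i, ∑ j, ∑ _k : Fin n, dd x i j = n * ∑ i, ∑ j, dd x i j := by
    simp only [Finset.sum_const, Finset.card_univ, Fintype.card_fin, nsmul_eq_mul,
      ← Finset.mul_sum]
  have a2 : ∑ _i : Fin n, ∑ j, ∑ k, dd x j k = n * ∑ i, ∑ j, dd x i j := by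
    simp only [Finset.sum_const, Finset.card_univ, Fintype.card_fin, nsmul_eq_mul]
  have a3 : ∑ i, ∑ _j : Fin n, ∑ k, dd x i k = n * ∑ i, ∑ j, dd x i j := by
    simp only [Finset.sum_const, Finset.card_univ, Fintype.card_fin, nsmul_eq_mul,
      ← Finset.mul_sum]
  have a4 : ∑ i, ∑ j, (dd x i j + dd x j i - dd x i i) = 2 * ∑ i, ∑ j, dd x i j := by
    rw [Finset.mul_sum]
    refine Finset.sum_congr rfl fun i _ => ?_
    rw [Finset.mul_sum]
    refine Finset.sum_congr rfl fun j _ => ?_
    rw [dd_self, dd_symm x j i]; ring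
  rw [a4]
  simp only [Finset.sum_sub_distrib, Finset.sum_add_distrib]
  rw [a1, a2, a3, hS]
  ring

theorem sum_tri_quad (x y : VE n) :
    ∑ t : Tri n, ⟪tv t.1.1 t.1.2.1 t.1.2.2, x⟫ * ⟪tv t.1.1 t.1.2.1 t.1.2.2, y⟫ =
      2 * (3 * n - 4) * ∑ e, x e * y e - 2 * ∑ i, row (dd x) i * row (dd y) i := by
  have e0 : ∑ t : Tri n, ⟪tv t.1.1 t.1.2.1 t.1.2.2, x⟫ * ⟪tv t.1.1 t.1.2.1 t.1.2.2, y⟫ =
      ∑ t : Tri n, (fun i j k => (dd x i j + dd x j k - dd x i k) *
        (dd y i j + dd y j k - dd y i k)) t.1.1 t.1.2.1 t.1.2.2 :=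
    Finset.sum_congr rfl fun t _ => by rw [inner_tv, inner_tv]
  rw [e0, sum_tri (fun i j k => (dd x i j + dd x j k - dd x i k) *
        (dd y i j + dd y j k - dd y i k)) (fun i k => by simp [dd_self])
    (fun i j => by simp [dd_self])]
  have a4 : ∑ i, ∑ j, (dd x i j + dd x j i - dd x i i) * (dd y i j + dd y j i - dd y i i) =
      4 * ∑ i, ∑ j, dd x i j * dd y i j := by
    rw [Finset.mul_sum]
    refine Finset.sum_congr rfl fun i _ => ?_
    rw [Finset.mul_sum]
    refine Finset.sum_congr rfl fun j _ => ?_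
    rw [dd_self, dd_self, dd_symm x j i, dd_symm y j i]; ring
  have b0 : ∀ i j k, (dd x i j + dd x j k - dd x i k) * (dd y i j + dd y j k - dd y i k) =
      dd x i j * dd y i j + dd x j k * dd y j k + dd x i k * dd y i k +
      dd x j i * dd y j k + dd x j k * dd y j i - dd x i j * dd y i k - dd x i k * dd y i j
      - dd x k j * dd y k i - dd x k i * dd y k j := by
    intro i j k
    rw [dd_symm x j i, dd_symm y j i, dd_symm x k j, dd_symm y k i, dd_symm x k i,
      dd_symm y k j]
    ring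
  have c1 : ∑ i, ∑ j, ∑ _k : Fin n, dd x i j * dd y i j = n * ∑ i, ∑ j, dd x i j * dd y i j := by
    simp only [Finset.sum_const, Finset.card_univ, Fintype.card_fin, nsmul_eq_mul,
      ← Finset.mul_sum]
  have c2 : ∑ _i : Fin n, ∑ j, ∑ k, dd x j k * dd y j k = n * ∑ i, ∑ j, dd x i j * dd y i j := by
    simp only [Finset.sum_const, Finset.card_univ, Fintype.card_fin, nsmul_eq_mul]
  have c3 : ∑ i, ∑ _j : Fin n, ∑ k, dd x i k * dd y i k = n * ∑ i, ∑ j, dd x i j * dd y i j := by
    simp only [Finset.sum_const, Finset.card_univ, Fintype.card_fin, nsmul_eq_mul,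
      ← Finset.mul_sum]
  have c4 : ∀ x y : VE n, ∑ i, ∑ j, ∑ k, dd x j i * dd y j k =
      ∑ i, row (dd x) i * row (dd y) i := by
    intro x y
    rw [Finset.sum_comm]
    refine Finset.sum_congr rfl fun j _ => ?_
    unfold row
    rw [Finset.sum_mul_sum]
  have c5 : ∀ x y : VE n, ∑ i, ∑ j, ∑ k, dd x i j * dd y i k =
      ∑ i, row (dd x) i * row (dd y) i := by
    intro x y
    refine Finset.sum_congr rfl fun j _ => ?_
    unfold row
    rw [Finset.sum_mul_sum]
  have c6 : ∀ x y : VE n, ∑ i, ∑ j, ∑ k, dd x k j * dd y k i =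
      ∑ i, row (dd x) i * row (dd y) i := by
    intro x y
    have : ∑ i, ∑ j, ∑ k, dd x k j * dd y k i = ∑ i, ∑ k, ∑ j, dd x k j * dd y k i :=
      Finset.sum_congr rfl fun i _ => Finset.sum_comm
    rw [this, Finset.sum_comm]
    refine Finset.sum_congr rfl fun k _ => ?_
    unfold row
    rw [Finset.sum_mul_sum, Finset.sum_comm]
  have d4 : ∑ i, ∑ j, ∑ k, dd x j k * dd y j i = ∑ i, row (dd x) i * row (dd y) i := by
    have := c4 y x
    rw [Finset.sum_congr rfl fun i _ => mul_comm (row (dd y) i) (row (dd x) i)] at this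
    rw [← this]
    exact Finset.sum_congr rfl fun i _ => Finset.sum_congr rfl fun j _ =>
      Finset.sum_congr rfl fun k _ => mul_comm _ _
  have d5 : ∑ i, ∑ j, ∑ k, dd x i k * dd y i j = ∑ i, row (dd x) i * row (dd y) i := by
    have := c5 y x
    rw [Finset.sum_congr rfl fun i _ => mul_comm (row (dd y) i) (row (dd x) i)] at this
    rw [← this]
    exact Finset.sum_congr rfl fun i _ => Finset.sum_congr rfl fun j _ =>
      Finset.sum_congr rfl fun k _ => mul_comm _ _
  have d6 : ∑ i, ∑ j, ∑ k, dd x k i * dd y k j = ∑ i, row (dd x) i * row (dd y) i := by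
    have := c6 y x
    rw [Finset.sum_congr rfl fun i _ => mul_comm (row (dd y) i) (row (dd x) i)] at this
    rw [← this]
    exact Finset.sum_congr rfl fun i _ => Finset.sum_congr rfl fun j _ =>
      Finset.sum_congr rfl fun k _ => mul_comm _ _
  rw [a4]
  simp only [b0, Finset.sum_sub_distrib, Finset.sum_add_distrib]
  rw [c1, c2, c3, c4, c5, c6, d4, d5, d6, sum_mul_dd]
  ring

end Q144.JE
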