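import Pool.Agent.Q144.JEe

/-!
The John ellipsoid of the metric polytope and its inflation factor.
-/

namespace Q144.JE

open scoped BigOperators RealInnerProductSpace
open MeasureTheory

variable {n : ℕ}

/-- The metric polytope. -/
def MP (n : ℕ) : Set (VE n) :=
  {d | (∀ e, 0 ≤ d e ∧ d e ≤ 1) ∧
    ∀ i j k : Fin n, i ≠ j → j ≠ k → i ≠ k → 0 ≤ dd d i j + dd d j k - dd d i k}

theorem mem_MP_iff (d : VE n) : d ∈ MP n ↔ dd d ∈ SM n := by
  constructor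
  · rintro ⟨h1, h2⟩
    have hb : ∀ i j, 0 ≤ dd d i j ∧ dd d i j ≤ 1 := by
      intro i j
      unfold dd
      split_ifs
      · exact h1 _
      · exact h1 _
      · exact ⟨le_rfl, zero_le_one⟩
    refine ⟨dd_self d, dd_symm d, fun i j => (hb i j).1, fun i j => (hb i j).2, fun i j k => ?_⟩
    by_cases hij : i = j
    · subst hij; rw [dd_self]; simp
    · by_cases hjk : j = k
      · subst hjk; rw [dd_self]; simp
      · by_cases hik : i = k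
        · subst hik; rw [dd_self]
          exact add_nonneg (hb _ _).1 (hb _ _).1
        · linarith [h2 i j k hij hjk hik]
  · rintro ⟨h0, hs, hn, h1, ht⟩
    refine ⟨fun e => ?_, fun i j k _ _ _ => by linarith [ht i j k]⟩
    rw [← dd_edge]
    exact ⟨hn _ _, h1 _ _⟩

theorem exists_of_SM {D : Fin n → Fin n → ℝ} (hD : D ∈ SM n) : ∃ d ∈ MP n, dd d = D := by
  refine ⟨WithLp.toLp 2 fun e => D e.1.1 e.1.2, ?_, ?_⟩
  · rw [mem_MP_iff]
    have : dd (WithLp.toLp 2 fun e : Edge n => D e.1.1 e.1.2) = D := by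
      funext i j
      unfold dd
      rcases lt_trichotomy i j with h | h | h
      · rw [dif_pos h]
      · subst h; simp [hD.1 i]
      · rw [dif_neg (asymm h), dif_pos h]
        exact hD.2.1 j i
    rw [this]; exact hD
  · funext i j
    unfold dd
    rcases lt_trichotomy i j with h | h | h
    · rw [dif_pos h]
    · subst h; simp [hD.1 i]
    · rw [dif_neg (asymm h), dif_pos h]
      exact hD.2.1 j i

/-- The centre. -/
noncomputable def cen (n : ℕ) (δ : ℝ) : VE n := WithLp.toLp 2 fun _ => δ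

theorem dd_cen (δ : ℝ) {i j : Fin n} (h : i ≠ j) : dd (cen n δ) i j = δ := by
  unfold dd
  rcases lt_or_gt_of_ne h with h | h
  · rw [dif_pos h]; rfl
  · rw [dif_neg (asymm h), dif_pos h]; rfl

/-- The first coefficient of the quadratic form. -/
noncomputable def cA (n : ℕ) (G : ℝ) : ℝ := 1 / G + 3 / (1 - G) + 2 / ((1 - G) * (n - 2))

/-- The second coefficient of the quadratic form. -/
noncomputable def cB (n : ℕ) (G : ℝ) : ℝ := 1 / ((1 - G) * (n - 2))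

section

variable {G : ℝ}

theorem coef (hG : 1 / 3 < G) (hG1 : G < 1 / 2) (hn : 3 ≤ n) :
    0 < cB n G ∧ 2 * n * cB n G < cA n G ∧
    cA n G - (n - 2) * cB n G = (((n : ℝ) - 2) + n * G) / (G * (1 - G) * (n - 2)) ∧
    cA n G - 2 * (n - 1) * cB n G = 1 / (G * (1 - G)) ∧
    cA n G = (((n : ℝ) - 2) + (2 * n - 2) * G) / (G * (1 - G) * (n - 2)) := by
  have hn3 : (3 : ℝ) ≤ n := by exact_mod_cast hn
  have h2 : 0 < (n : ℝ) - 2 := by linarith
  have h0 : 0 < G := by linarith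
  have h1 : 0 < 1 - G := by linarith
  unfold cA cB
  refine ⟨by positivity, ?_, ?_, ?_, ?_⟩
  · have e : 1 / G + 3 / (1 - G) + 2 / ((1 - G) * (n - 2)) - 2 * n * (1 / ((1 - G) * (n - 2))) =
        ((1 - G) * (n - 2) + 3 * G * (n - 2) - 2 * G * (n - 1)) / (G * (1 - G) * (n - 2)) := by
      field_simp
      ring
    have : 0 < ((1 - G) * (n - 2) + 3 * G * (n - 2) - 2 * G * (n - 1)) / (G * (1 - G) * (n - 2)) := by
      refine div_pos ?_ (by positivity)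
      nlinarith
    linarith
  · field_simp; ring
  · field_simp; ring
  · field_simp; ring

/-- The coefficients of the inverse form. -/
theorem exists_abc (hG : 1 / 3 < G) (hG1 : G < 1 / 2) (hn : 3 ≤ n) (hc : cubic n G = 0) :
    ∃ α β γ : ℝ, cA n G * α = 1 ∧ (cA n G - (n - 2) * cB n G) * β = cB n G * α ∧
      (cA n G - 2 * (n - 1) * cB n G) * γ = 4 * cB n G * β ∧
      α + 2 * β + γ = G ^ 2 ∧ 3 * (α + 2 * β + γ) - 2 * (β + γ) = (1 - G) ^ 2 := by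
  obtain ⟨hB, hAB, e1, e2, e3⟩ := coef hG hG1 hn
  have hn3 : (3 : ℝ) ≤ n := by exact_mod_cast hn
  have h2 : 0 < (n : ℝ) - 2 := by linarith
  have h0 : 0 < G := by linarith
  have h1 : 0 < 1 - G := by linarith
  have hX : 0 < ((n : ℝ) - 2) + n * G := by positivity
  have hY : 0 < ((n : ℝ) - 2) + (2 * n - 2) * G := by nlinarith
  have hP : 0 < G * (1 - G) * ((n : ℝ) - 2) := by positivity
  refine ⟨1 / cA n G, cB n G * (1 / cA n G) / (cA n G - (n - 2) * cB n G),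
    4 * cB n G * (cB n G * (1 / cA n G) / (cA n G - (n - 2) * cB n G)) /
      (cA n G - 2 * (n - 1) * cB n G), ?_, ?_, ?_, ?_, ?_⟩
  · rw [mul_one_div_cancel]
    rw [e3]; positivity
  · rw [mul_div_cancel₀]
    rw [e1]; positivity
  · rw [mul_div_cancel₀]
    rw [e2]; positivity
  · rw [e1, e2, e3]
    unfold cB
    unfold cubic at hc
    obtain ⟨x, hx⟩ : ∃ x, x = ((n : ℝ) - 2) + n * G := ⟨_, rfl⟩
    obtain ⟨y, hy⟩ : ∃ y, y = ((n : ℝ) - 2) + (2 * n - 2) * G := ⟨_, rfl⟩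
    obtain ⟨m, hm⟩ : ∃ m, m = (n : ℝ) - 2 := ⟨_, rfl⟩
    obtain ⟨d, hd⟩ : ∃ d, d = 1 - G := ⟨_, rfl⟩
    rw [← hx] at hX ⊢
    rw [← hy] at hY ⊢
    rw [← hm] at h2 ⊢
    rw [← hd] at h1 ⊢
    have hx0 := hX.ne'
    have hy0 := hY.ne'
    have hm0 := h2.ne'
    have hd0 := h1.ne'
    have hG0 := h0.ne'
    field_simp
    rw [hx, hy, hm, hd]
    linear_combination -hc
  · rw [e1, e2, e3]
    unfold cB
    unfold cubic at hc
    obtain ⟨x, hx⟩ : ∃ x, x = ((n : ℝ) - 2) + n * G := ⟨_, rfl⟩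
    obtain ⟨y, hy⟩ : ∃ y, y = ((n : ℝ) - 2) + (2 * n - 2) * G := ⟨_, rfl⟩
    obtain ⟨m, hm⟩ : ∃ m, m = (n : ℝ) - 2 := ⟨_, rfl⟩
    obtain ⟨d, hd⟩ : ∃ d, d = 1 - G := ⟨_, rfl⟩
    rw [← hx] at hX ⊢
    rw [← hy] at hY ⊢
    rw [← hm] at h2 ⊢
    rw [← hd] at h1 ⊢
    have hx0 := hX.ne'
    have hy0 := hY.ne'
    have hm0 := h2.ne'
    have hd0 := h1.ne'
    have hG0 := h0.ne'
    field_simp
    rw [hx, hy, hm, hd]
    linear_combination hc

/-- The norm of `Y† f` from a solution of `T s = f`. -/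
theorem norm_adj {V : Type*} [NormedAddCommGroup V] [InnerProductSpace ℝ V]
    [FiniteDimensional ℝ V] {T : V →ₗ[ℝ] V} {Y : V ≃ₗ[ℝ] V}
    (hY : ∀ x y, ⟪T (Y x), Y y⟫ = ⟪x, y⟫) {f s : V} (hs : T s = f) :
    ‖LinearMap.adjoint (Y : V →ₗ[ℝ] V) f‖ ^ 2 = ⟪f, s⟫ := by
  have h1 : LinearMap.adjoint (Y : V →ₗ[ℝ] V) f = Y.symm s := by
    refine ext_inner_right ℝ fun x => ?_
    rw [LinearMap.adjoint_inner_left, ← hs, ← hY (Y.symm s) x, LinearEquiv.apply_symm_apply]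
    rfl
  rw [← real_inner_self_eq_norm_sq]
  conv_lhs => rw [LinearMap.adjoint_inner_left]
  rw [h1]
  show ⟪f, Y (Y.symm s)⟫ = _
  rw [LinearEquiv.apply_symm_apply]

/-- Support function bound. -/
theorem sup_bound {V : Type*} [NormedAddCommGroup V] [InnerProductSpace ℝ V]
    [FiniteDimensional ℝ V] {A : V →ₗ[ℝ] V} {c f : V} {b : ℝ}
    (h : ∀ x, ‖x‖ ≤ 1 → ⟪f, c + A x⟫ ≤ b) : ⟪f, c⟫ + ‖LinearMap.adjoint A f‖ ≤ b := by
  set u := LinearMap.adjoint A f with hu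
  by_cases h0 : u = 0
  · have := h 0 (by simp)
    rw [h0]
    simpa using this
  · have hn : 0 < ‖u‖ := norm_pos_iff.mpr h0
    have h1 := h (‖u‖⁻¹ • u) (by
      rw [norm_smul, norm_inv, norm_norm, inv_mul_cancel₀ hn.ne'])
    rw [inner_add_right, ← LinearMap.adjoint_inner_left, ← hu, inner_smul_right,
      real_inner_self_eq_norm_sq] at h1
    have : ‖u‖⁻¹ * ‖u‖ ^ 2 = ‖u‖ := by field_simp
    rw [this] at h1
    exact h1

variable {α β γ : ℝ}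

theorem sv_self {i j : Fin n} (h : i ≠ j) : dd (sv α β γ i j) i j = α + 2 * β + γ := by
  rw [dd_sv _ _ _ _ _ h]
  simp [ind, deg, del, h, h.symm]
  ring

theorem inner_tv_sv {i j k : Fin n} (h1 : i ≠ j) (h2 : j ≠ k) (h3 : i ≠ k) :
    ⟪tv i j k, sv α β γ i j + sv α β γ j k - sv α β γ i k⟫ =
      3 * (α + 2 * β + γ) - 2 * (β + γ) := by
  rw [inner_tv]
  simp only [dd_add, dd_sub]
  rw [dd_sv _ _ _ _ _ h1, dd_sv _ _ _ _ _ h1, dd_sv _ _ _ _ _ h1, dd_sv _ _ _ _ _ h2,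
    dd_sv _ _ _ _ _ h2, dd_sv _ _ _ _ _ h2, dd_sv _ _ _ _ _ h3, dd_sv _ _ _ _ _ h3,
    dd_sv _ _ _ _ _ h3]
  simp [ind, deg, del, h1, h1.symm, h2, h2.symm, h3, h3.symm]
  ring

/-- The linear map of the ellipsoid. -/
theorem exists_Y (hG : 1 / 3 < G) (hG1 : G < 1 / 2) (hn : 3 ≤ n) (hc : cubic n G = 0) :
    ∃ Y : VE n ≃ₗ[ℝ] VE n, (∀ x y, ⟪Top (cA n G) (cB n G) (Y x), Y y⟫ = ⟪x, y⟫) ∧
      (∀ i j : Fin n, i ≠ j → ‖LinearMap.adjoint (Y : VE n →ₗ[ℝ] VE n) (eps i j)‖ = G) ∧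
      (∀ i j k : Fin n, i ≠ j → j ≠ k → i ≠ k →
        ‖LinearMap.adjoint (Y : VE n →ₗ[ℝ] VE n) (tv i j k)‖ = 1 - G) := by
  obtain ⟨hB, hAB, -, -, -⟩ := coef hG hG1 hn
  obtain ⟨α, β, γ, a1, a2, a3, a4, a5⟩ := exists_abc hG hG1 hn hc
  obtain ⟨Y, hY⟩ := exists_congr (Top (cA n G) (cB n G) : VE n →ₗ[ℝ] VE n) (Top_symm _ _)
    (Top_pos hB.le hAB)
  refine ⟨Y, hY, fun i j h => ?_, fun i j k h1 h2 h3 => ?_⟩
  · have e := norm_adj hY (Top_sv a1 a2 a3 h)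
    rw [inner_eps, sv_self h, a4] at e
    exact (pow_left_inj₀ (norm_nonneg _) (by linarith) two_ne_zero).mp e
  · have hs : Top (cA n G) (cB n G) (sv α β γ i j + sv α β γ j k - sv α β γ i k) = tv i j k := by
      rw [map_sub, map_add, Top_sv a1 a2 a3 h1, Top_sv a1 a2 a3 h2, Top_sv a1 a2 a3 h3]
      rfl
    have e := norm_adj hY hs
    rw [inner_tv_sv h1 h2 h3, a5] at e
    exact (pow_left_inj₀ (norm_nonneg _) (by linarith) two_ne_zero).mp e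

/-- The family of vectors in John's condition. -/
noncomputable def uu (Y : VE n →ₗ[ℝ] VE n) : Edge n ⊕ Tri n → VE n
  | Sum.inl e => LinearMap.adjoint Y (eps e.1.1 e.1.2)
  | Sum.inr t => - LinearMap.adjoint Y (tv t.1.1 t.1.2.1 t.1.2.2)

/-- The weights in John's condition. -/
noncomputable def mm (n : ℕ) (G : ℝ) : Edge n ⊕ Tri n → ℝ
  | Sum.inl _ => 1 / G
  | Sum.inr _ => 1 / (2 * (n - 2) * (1 - G))

theorem john_MP (hG : 1 / 3 < G) (hG1 : G < 1 / 2) (hn : 3 ≤ n)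
    {Y : VE n ≃ₗ[ℝ] VE n} (hY : ∀ x y, ⟪Top (cA n G) (cB n G) (Y x), Y y⟫ = ⟪x, y⟫)
    (hY1 : ∀ i j : Fin n, i ≠ j → ‖LinearMap.adjoint (Y : VE n →ₗ[ℝ] VE n) (eps i j)‖ = G)
    (hY2 : ∀ i j k : Fin n, i ≠ j → j ≠ k → i ≠ k →
        ‖LinearMap.adjoint (Y : VE n →ₗ[ℝ] VE n) (tv i j k)‖ = 1 - G)
    {A' : VE n →ₗ[ℝ] VE n} {c' : VE n} (hin : ∀ x, ‖x‖ ≤ 1 → c' + A' x ∈ MP n)
    (hdet : |LinearMap.det (Y : VE n →ₗ[ℝ] VE n)| ≤ |LinearMap.det A'|) :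
    |LinearMap.det A'| = |LinearMap.det (Y : VE n →ₗ[ℝ] VE n)| ∧ c' = cen n (1 - G) ∧
      (∀ x, ‖LinearMap.adjoint ((Y.symm : VE n →ₗ[ℝ] VE n) ∘ₗ A') x‖ = ‖x‖) := by
  have hn3 : (3 : ℝ) ≤ n := by exact_mod_cast hn
  have h2 : 0 < (n : ℝ) - 2 := by linarith
  have h0 : 0 < G := by linarith
  have h1 : 0 < 1 - G := by linarith
  set Z : VE n →ₗ[ℝ] VE n := (Y.symm : VE n →ₗ[ℝ] VE n) ∘ₗ A' with hZ
  have hYZ : (Y : VE n →ₗ[ℝ] VE n) ∘ₗ Z = A' := by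
    ext x
    simp [hZ]
  have hYdet : LinearMap.det (Y : VE n →ₗ[ℝ] VE n) ≠ 0 := (LinearEquiv.isUnit_det' Y).ne_zero
  have hdZ : |LinearMap.det A'| = |LinearMap.det (Y : VE n →ₗ[ℝ] VE n)| * |LinearMap.det Z| := by
    rw [← hYZ, LinearMap.det_comp, abs_mul]
  have hYpos : 0 < |LinearMap.det (Y : VE n →ₗ[ℝ] VE n)| := abs_pos.mpr hYdet
  have hZ1 : 1 ≤ |LinearMap.det Z| := by
    rw [hdZ] at hdet
    by_contra hlt
    push Not at hlt
    nlinarith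
  have hadj : ∀ f, LinearMap.adjoint Z (LinearMap.adjoint (Y : VE n →ₗ[ℝ] VE n) f) =
      LinearMap.adjoint A' f := by
    intro f
    have h : LinearMap.adjoint A' =
        LinearMap.adjoint Z ∘ₗ LinearMap.adjoint (Y : VE n →ₗ[ℝ] VE n) := by
      rw [← LinearMap.adjoint_comp, hYZ]
    rw [h]
    rfl
  have hinn : ∀ f w, ⟪LinearMap.adjoint (Y : VE n →ₗ[ℝ] VE n) f, Y.symm w⟫ = ⟪f, w⟫ := by
    intro f w
    rw [LinearMap.adjoint_inner_left]
    show ⟪f, Y (Y.symm w)⟫ = _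
    rw [LinearEquiv.apply_symm_apply]
  have hJ := john (uu (Y : VE n →ₗ[ℝ] VE n)) (mm n G)
    (by
      rintro (e | t)
      · exact (one_div_pos.mpr h0).le
      · show 0 ≤ 1 / (2 * ((n : ℝ) - 2) * (1 - G))
        positivity)
    (by
      intro x y
      rw [Fintype.sum_sum_type]
      have e1 : ∑ e : Edge n, mm n G (Sum.inl e) *
          (⟪uu (Y : VE n →ₗ[ℝ] VE n) (Sum.inl e), x⟫ * ⟪uu (Y : VE n →ₗ[ℝ] VE n) (Sum.inl e), y⟫) =
          1 / G * ∑ e, (Y x) e * (Y y) e := by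
        rw [Finset.mul_sum]
        refine Finset.sum_congr rfl fun e _ => ?_
        show 1 / G * (⟪LinearMap.adjoint (Y : VE n →ₗ[ℝ] VE n) (eps e.1.1 e.1.2), x⟫ *
          ⟪LinearMap.adjoint (Y : VE n →ₗ[ℝ] VE n) (eps e.1.1 e.1.2), y⟫) = _
        rw [LinearMap.adjoint_inner_left, LinearMap.adjoint_inner_left, inner_eps, inner_eps]
        show 1 / G * (dd (Y x) e.1.1 e.1.2 * dd (Y y) e.1.1 e.1.2) = _
        rw [dd_edge, dd_edge]
      have e2 : ∑ t : Tri n, mm n G (Sum.inr t) *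
          (⟪uu (Y : VE n →ₗ[ℝ] VE n) (Sum.inr t), x⟫ * ⟪uu (Y : VE n →ₗ[ℝ] VE n) (Sum.inr t), y⟫) =
          1 / (2 * (n - 2) * (1 - G)) * (2 * (3 * n - 4) * ∑ e, (Y x) e * (Y y) e -
            2 * ∑ i, row (dd (Y x)) i * row (dd (Y y)) i) := by
        rw [← sum_tri_quad, Finset.mul_sum]
        refine Finset.sum_congr rfl fun t _ => ?_
        show 1 / (2 * (n - 2) * (1 - G)) *
          (⟪-LinearMap.adjoint (Y : VE n →ₗ[ℝ] VE n) (tv t.1.1 t.1.2.1 t.1.2.2), x⟫ *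
          ⟪-LinearMap.adjoint (Y : VE n →ₗ[ℝ] VE n) (tv t.1.1 t.1.2.1 t.1.2.2), y⟫) = _
        rw [inner_neg_left, inner_neg_left, neg_mul_neg, LinearMap.adjoint_inner_left,
          LinearMap.adjoint_inner_left]
        rfl
      rw [e1, e2, ← hY x y, inner_Top]
      unfold cA cB
      field_simp
      ring)
    (by
      rw [Fintype.sum_sum_type]
      refine ext_inner_right ℝ fun x => ?_
      rw [inner_add_left, sum_inner, sum_inner, inner_zero_left]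
      have e1 : ∑ e : Edge n, ⟪(mm n G (Sum.inl e) * ‖uu (Y : VE n →ₗ[ℝ] VE n) (Sum.inl e)‖) •
          uu (Y : VE n →ₗ[ℝ] VE n) (Sum.inl e), x⟫ = ∑ e, (Y x) e := by
        refine Finset.sum_congr rfl fun e _ => ?_
        show ⟪(1 / G * ‖LinearMap.adjoint (Y : VE n →ₗ[ℝ] VE n) (eps e.1.1 e.1.2)‖) •
          LinearMap.adjoint (Y : VE n →ₗ[ℝ] VE n) (eps e.1.1 e.1.2), x⟫ = _
        rw [hY1 _ _ e.2.ne, one_div, inv_mul_cancel₀ h0.ne', one_smul,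
          LinearMap.adjoint_inner_left, inner_eps]
        exact dd_edge (Y x) e
      have e2 : ∑ t : Tri n, ⟪(mm n G (Sum.inr t) * ‖uu (Y : VE n →ₗ[ℝ] VE n) (Sum.inr t)‖) •
          uu (Y : VE n →ₗ[ℝ] VE n) (Sum.inr t), x⟫ = -∑ e, (Y x) e := by
        have e3 := sum_tri_lin (Y x)
        have e4 : -∑ e, (Y x) e = (-(1 / (2 * ((n : ℝ) - 2)))) *
            ∑ t : Tri n, ⟪tv t.1.1 t.1.2.1 t.1.2.2, Y x⟫ := by
          rw [e3]; field_simp
        rw [e4, Finset.mul_sum]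
        refine Finset.sum_congr rfl fun t _ => ?_
        show ⟪(1 / (2 * (n - 2) * (1 - G)) *
          ‖-LinearMap.adjoint (Y : VE n →ₗ[ℝ] VE n) (tv t.1.1 t.1.2.1 t.1.2.2)‖) •
          (-LinearMap.adjoint (Y : VE n →ₗ[ℝ] VE n) (tv t.1.1 t.1.2.1 t.1.2.2)), x⟫ = _
        rw [norm_neg, hY2 _ _ _ t.2.1 t.2.2.1 t.2.2.2, inner_smul_left, inner_neg_left,
          LinearMap.adjoint_inner_left]
        have e5 : (1 : ℝ) / (2 * (n - 2) * (1 - G)) * (1 - G) = 1 / (2 * ((n : ℝ) - 2)) := by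
          field_simp
        rw [e5]
        simp only [conj_trivial]
        show _ * -⟪tv t.1.1 t.1.2.1 t.1.2.2, Y x⟫ = _
        ring
      rw [e1, e2]; ring)
    Z (Y.symm (c' - cen n (1 - G)))
    (by
      rintro (e | t)
      · show ⟪LinearMap.adjoint (Y : VE n →ₗ[ℝ] VE n) (eps e.1.1 e.1.2), _⟫ +
          ‖LinearMap.adjoint Z (LinearMap.adjoint (Y : VE n →ₗ[ℝ] VE n) (eps e.1.1 e.1.2))‖ ≤
          ‖LinearMap.adjoint (Y : VE n →ₗ[ℝ] VE n) (eps e.1.1 e.1.2)‖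
        rw [hinn, hadj, hY1 _ _ e.2.ne, inner_sub_right]
        have hb : ⟪(eps e.1.1 e.1.2 : VE n), c'⟫ + ‖LinearMap.adjoint A' (eps e.1.1 e.1.2)‖ ≤ 1 := by
          refine sup_bound fun x hx => ?_
          rw [inner_eps, dd_edge]
          exact ((hin x hx).1 e).2
        have hcen : ⟪(eps e.1.1 e.1.2 : VE n), cen n (1 - G)⟫ = 1 - G := by
          rw [inner_eps, dd_cen _ e.2.ne]
        rw [hcen]
        linarith
      · show ⟪-LinearMap.adjoint (Y : VE n →ₗ[ℝ] VE n) (tv t.1.1 t.1.2.1 t.1.2.2), _⟫ +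
          ‖LinearMap.adjoint Z (-LinearMap.adjoint (Y : VE n →ₗ[ℝ] VE n)
            (tv t.1.1 t.1.2.1 t.1.2.2))‖ ≤
          ‖-LinearMap.adjoint (Y : VE n →ₗ[ℝ] VE n) (tv t.1.1 t.1.2.1 t.1.2.2)‖
        rw [map_neg, norm_neg, norm_neg, inner_neg_left, hinn, hadj,
          hY2 _ _ _ t.2.1 t.2.2.1 t.2.2.2, inner_sub_right]
        have hb : ⟪-(tv t.1.1 t.1.2.1 t.1.2.2 : VE n), c'⟫ +
            ‖LinearMap.adjoint A' (-tv t.1.1 t.1.2.1 t.1.2.2)‖ ≤ 0 := by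
          refine sup_bound fun x hx => ?_
          rw [inner_neg_left, inner_tv]
          have := (hin x hx).2 _ _ _ t.2.1 t.2.2.1 t.2.2.2
          linarith
        rw [map_neg, norm_neg, inner_neg_left] at hb
        have hcen : ⟪(tv t.1.1 t.1.2.1 t.1.2.2 : VE n), cen n (1 - G)⟫ = 1 - G := by
          rw [inner_tv, dd_cen _ t.2.1, dd_cen _ t.2.2.1, dd_cen _ t.2.2.2]; ring
        rw [hcen]
        linarith)
    hZ1
  obtain ⟨j1, j2, j3⟩ := hJ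
  refine ⟨?_, ?_, j2⟩
  · rw [hdZ, j1, mul_one]
  · have := (LinearEquiv.map_eq_zero_iff Y.symm).mp j3
    exact sub_eq_zero.mp this

end

end Q144.JE
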