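import Pool.Agent.Q144.JEf

/-!
Volume of ellipsoids, maximality and uniqueness, and the inflation factor.
-/

namespace Q144.JE

open scoped BigOperators RealInnerProductSpace
open MeasureTheory Filter Topology

variable {n : ℕ}

/-- The image of the unit ball under `x ↦ c + A x`. -/
def ell (A : VE n →ₗ[ℝ] VE n) (c : VE n) : Set (VE n) :=
  (fun x => c + A x) '' Metric.closedBall 0 1

theorem vol_ell (A : VE n →ₗ[ℝ] VE n) (c : VE n) :
    volume (ell A c) = ENNReal.ofReal |LinearMap.det A| *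
      volume (Metric.closedBall (0 : VE n) 1) := by
  have : ell A c = (fun x => c + x) '' (A '' Metric.closedBall 0 1) := by
    unfold ell
    rw [Set.image_image]
  rw [this, Set.image_add_left, measure_preimage_add, Measure.addHaar_image_linearMap]

theorem vol_le_iff (A B : VE n →ₗ[ℝ] VE n) (c c' : VE n) :
    volume (ell A c) ≤ volume (ell B c') ↔ |LinearMap.det A| ≤ |LinearMap.det B| := by
  rw [vol_ell, vol_ell]
  have h1 : volume (Metric.closedBall (0 : VE n) 1) ≠ 0 :=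
    (Metric.measure_closedBall_pos volume 0 one_pos).ne'
  have h2 : volume (Metric.closedBall (0 : VE n) 1) ≠ ⊤ := measure_closedBall_lt_top.ne
  constructor
  · intro h
    by_contra hlt
    push Not at hlt
    have h3 : ENNReal.ofReal |LinearMap.det B| < ENNReal.ofReal |LinearMap.det A| :=
      (ENNReal.ofReal_lt_ofReal_iff_of_nonneg (abs_nonneg _)).mpr hlt
    have h4 := (ENNReal.mul_le_mul_iff_left h1 h2).mp h
    exact absurd h4 (not_le.mpr h3)
  · intro h
    exact mul_le_mul_left (ENNReal.ofReal_le_ofReal h) _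

section

variable {G : ℝ}

theorem norm_symm {Y : VE n ≃ₗ[ℝ] VE n} {A B : ℝ}
    (hY : ∀ x y, ⟪Top A B (Y x), Y y⟫ = ⟪x, y⟫) (w : VE n) :
    ‖Y.symm w‖ ^ 2 = ⟪Top A B w, w⟫ := by
  rw [← real_inner_self_eq_norm_sq, ← hY, LinearEquiv.apply_symm_apply]

theorem card_edge : (Fintype.card (Edge n) : ℝ) = n * (n - 1) / 2 := by
  have h := sum_edge (n := n) (fun i j => if i = j then 0 else 1) (fun i => by simp)
    (fun i j => by simp only [eq_comm])
  have e1 : ∑ e : Edge n, (if e.1.1 = e.1.2 then (0 : ℝ) else 1) = Fintype.card (Edge n) := by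
    rw [Finset.sum_congr rfl fun e _ => if_neg e.2.ne]
    simp
  have e2 : ∑ i : Fin n, ∑ j : Fin n, (if i = j then (0 : ℝ) else 1) = n * (n - 1) := by
    have : ∀ i j : Fin n, (if i = j then (0 : ℝ) else 1) = 1 - if i = j then 1 else 0 := by
      intro i j; split_ifs <;> simp
    simp only [this, Finset.sum_sub_distrib, Finset.sum_ite_eq, Finset.mem_univ, if_true,
      Finset.sum_const, Finset.card_univ, Fintype.card_fin, nsmul_eq_mul]
    ring
  rw [e1, e2] at h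
  linarith

theorem quad_eq (hG : 1 / 3 < G) (hG1 : G < 1 / 2) (hn : 3 ≤ n) (d : VE n) :
    ⟪Top (cA n G) (cB n G) (d - cen n (1 - G)), d - cen n (1 - G)⟫ =
      (n : ℝ) * (n - 1) / 2 * ((1 - G) / G) + obj n G (dd d) := by
  obtain ⟨-, -, -, e2, -⟩ := coef hG hG1 hn
  have h0 : 0 < G := by linarith
  have h1 : 0 < 1 - G := by linarith
  rw [inner_Top]
  have hrow : ∀ i, row (dd (d - cen n (1 - G))) i = row (dd d) i - (n - 1) * (1 - G) := by
    intro i
    unfold row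
    have : ∀ j, dd (d - cen n (1 - G)) i j = dd d i j - (1 - G) + if i = j then (1 - G) else 0 := by
      intro j
      by_cases h : i = j
      · subst h; simp [dd_self]
      · rw [dd_sub, dd_cen _ h, if_neg h]; ring
    rw [Finset.sum_congr rfl fun j _ => this j, Finset.sum_add_distrib, Finset.sum_sub_distrib]
    simp only [Finset.sum_const, Finset.card_univ, Fintype.card_fin, nsmul_eq_mul,
      Finset.sum_ite_eq, Finset.mem_univ, if_true]
    ring
  have s1 : ∑ e, (d - cen n (1 - G)) e * (d - cen n (1 - G)) e =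
      ∑ e, d e * d e - 2 * (1 - G) * ∑ e, d e + (1 - G) ^ 2 * (n * (n - 1) / 2) := by
    rw [← card_edge]
    have : ∀ e, (d - cen n (1 - G)) e * (d - cen n (1 - G)) e =
        d e * d e - 2 * (1 - G) * d e + (1 - G) ^ 2 * 1 := by
      intro e
      show (d e - (1 - G)) * (d e - (1 - G)) = _
      ring
    rw [Finset.sum_congr rfl fun e _ => this e, Finset.sum_add_distrib, Finset.sum_sub_distrib,
      ← Finset.mul_sum, ← Finset.mul_sum]
    simp
  have s2 : ∑ i, row (dd (d - cen n (1 - G))) i * row (dd (d - cen n (1 - G))) i =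
      ∑ i, row (dd d) i ^ 2 - 2 * ((n - 1) * (1 - G)) * ∑ i, row (dd d) i +
        n * ((n - 1) * (1 - G)) ^ 2 := by
    have : ∀ i, row (dd (d - cen n (1 - G))) i * row (dd (d - cen n (1 - G))) i =
        row (dd d) i ^ 2 - 2 * ((n - 1) * (1 - G)) * row (dd d) i + ((n - 1) * (1 - G)) ^ 2 := by
      intro i
      rw [hrow]; ring
    rw [Finset.sum_congr rfl fun i _ => this i, Finset.sum_add_distrib, Finset.sum_sub_distrib,
      ← Finset.mul_sum]
    simp
  have s3 : ∑ i, ∑ j, dd d i j ^ 2 = 2 * ∑ e, d e * d e := by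
    rw [← sum_mul_dd]
    exact Finset.sum_congr rfl fun i _ => Finset.sum_congr rfl fun j _ => by ring
  have s4 : ∑ i, row (dd d) i = 2 * ∑ e, d e := by
    have := sum_edge (dd d) (dd_self d) (dd_symm d)
    rw [Finset.sum_congr rfl fun e _ => dd_edge d e] at this
    exact this
  unfold obj F
  rw [s1, s2, s3, s4]
  have e3 : cA n G = 2 * (n - 1) * cB n G + 1 / (G * (1 - G)) := by linarith
  have e4 : (1 / G + 3 / (1 - G) + 2 / ((1 - G) * ((n : ℝ) - 2))) / 2 = cA n G / 2 := rfl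
  have e5 : 1 / ((1 - G) * ((n : ℝ) - 2)) = cB n G := rfl
  rw [e4, e5, e3]
  generalize cB n G = b
  generalize ∑ e, d e * d e = S
  generalize ∑ e, d e = L
  generalize ∑ i, row (dd d) i ^ 2 = Q
  field_simp
  ring

theorem quad_le (hG : 1 / 3 < G) (hG1 : G < 1 / 2) (hn : 3 ≤ n) {d : VE n} (hd : d ∈ MP n) :
    ⟪Top (cA n G) (cB n G) (d - cen n (1 - G)), d - cen n (1 - G)⟫ ≤ rsq n G := by
  rw [quad_eq hG hG1 hn]
  have h := obj_le hG hG1 hn ((mem_MP_iff d).mp hd)
  unfold maxval at h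
  unfold rsq
  have e : (2 - 3 * (1 - G)) / ((1 - G) * G) * ((n ^ 2 / 4 : ℕ) : ℝ) =
      ((n ^ 2 / 4 : ℕ) : ℝ) * ((3 * G - 1) / (G * (1 - G))) := by ring
  linarith

theorem quad_attained (hG : 1 / 3 < G) (hG1 : G < 1 / 2) (hn : 3 ≤ n) :
    ∃ d ∈ MP n, ⟪Top (cA n G) (cB n G) (d - cen n (1 - G)), d - cen n (1 - G)⟫ = rsq n G := by
  obtain ⟨d, hd, hdd⟩ := exists_of_SM (cut_mem (n := n))
  refine ⟨d, hd, ?_⟩
  rw [quad_eq hG hG1 hn, hdd, obj_cut hG hG1 hn]
  unfold maxval rsq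
  ring

theorem rsq_pos (hG : 1 / 3 < G) (hG1 : G < 1 / 2) (hn : 3 ≤ n) : 0 < rsq n G := by
  have hn3 : (3 : ℝ) ≤ n := by exact_mod_cast hn
  have h0 : 0 < G := by linarith
  have h1 : 0 < 1 - G := by linarith
  unfold rsq
  have a1 : 0 < (n : ℝ) * (n - 1) / 2 * ((1 - G) / G) := by
    have : 0 < (n : ℝ) - 1 := by linarith
    positivity
  have a2 : 0 ≤ ((n ^ 2 / 4 : ℕ) : ℝ) * ((3 * G - 1) / (G * (1 - G))) := by
    have : 0 < 3 * G - 1 := by linarith
    positivity
  linarith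

/-- The ellipsoid lies in the polytope. -/
theorem ell_sub (hG : 1 / 3 < G) (hG1 : G < 1 / 2)
    {Y : VE n ≃ₗ[ℝ] VE n}
    (hY1 : ∀ i j : Fin n, i ≠ j → ‖LinearMap.adjoint (Y : VE n →ₗ[ℝ] VE n) (eps i j)‖ = G)
    (hY2 : ∀ i j k : Fin n, i ≠ j → j ≠ k → i ≠ k →
        ‖LinearMap.adjoint (Y : VE n →ₗ[ℝ] VE n) (tv i j k)‖ = 1 - G) :
    ell (Y : VE n →ₗ[ℝ] VE n) (cen n (1 - G)) ⊆ MP n := by
  rintro _ ⟨x, hx, rfl⟩
  rw [mem_closedBall_zero_iff] at hx
  refine ⟨fun e => ?_, fun i j k h1 h2 h3 => ?_⟩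
  · have h := abs_real_inner_le_norm (LinearMap.adjoint (Y : VE n →ₗ[ℝ] VE n) (eps e.1.1 e.1.2)) x
    rw [hY1 _ _ e.2.ne, LinearMap.adjoint_inner_left, inner_eps, dd_edge] at h
    have h' : |((Y : VE n →ₗ[ℝ] VE n) x) e| ≤ G := by nlinarith [norm_nonneg x]
    obtain ⟨b1, b2⟩ := abs_le.mp h'
    show 0 ≤ (1 - G) + ((Y : VE n →ₗ[ℝ] VE n) x) e ∧ (1 - G) + ((Y : VE n →ₗ[ℝ] VE n) x) e ≤ 1
    constructor <;> linarith
  · have h := abs_real_inner_le_norm (LinearMap.adjoint (Y : VE n →ₗ[ℝ] VE n) (tv i j k)) x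
    rw [hY2 _ _ _ h1 h2 h3, LinearMap.adjoint_inner_left, inner_tv] at h
    have h' : |dd ((Y : VE n →ₗ[ℝ] VE n) x) i j + dd ((Y : VE n →ₗ[ℝ] VE n) x) j k -
        dd ((Y : VE n →ₗ[ℝ] VE n) x) i k| ≤ 1 - G := by nlinarith [norm_nonneg x]
    obtain ⟨b1, b2⟩ := abs_le.mp h'
    simp only [dd_add]
    rw [dd_cen _ h1, dd_cen _ h2, dd_cen _ h3]
    linarith

/-- An operator whose adjoint preserves norms maps the unit ball onto the unit ball. -/
theorem image_ball {V : Type*} [NormedAddCommGroup V] [InnerProductSpace ℝ V]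
    [FiniteDimensional ℝ V] {Z : V →ₗ[ℝ] V} (h : ∀ x, ‖LinearMap.adjoint Z x‖ = ‖x‖) :
    Z '' Metric.closedBall 0 1 = Metric.closedBall 0 1 := by
  have hinn : ∀ x y, ⟪LinearMap.adjoint Z x, LinearMap.adjoint Z y⟫ = ⟪x, y⟫ := by
    intro x y
    have h1 := h (x + y)
    have h2 : ‖LinearMap.adjoint Z x + LinearMap.adjoint Z y‖ ^ 2 = ‖x + y‖ ^ 2 := by
      rw [← map_add, h1]
    rw [norm_add_sq_real, norm_add_sq_real, h x, h y] at h2
    linarith
  have hZZ : ∀ x, Z (LinearMap.adjoint Z x) = x := by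
    intro x
    refine ext_inner_right ℝ fun y => ?_
    rw [← LinearMap.adjoint_inner_right, hinn]
  have hinj : Function.Injective (LinearMap.adjoint Z) := by
    intro x y hxy
    rw [← hZZ x, hxy, hZZ]
  have hsurj : Function.Surjective (LinearMap.adjoint Z) :=
    LinearMap.injective_iff_surjective.mp hinj
  ext y
  rw [mem_closedBall_zero_iff]
  constructor
  · rintro ⟨x, hx, rfl⟩
    rw [mem_closedBall_zero_iff] at hx
    obtain ⟨v, rfl⟩ := hsurj x
    rw [hZZ, ← h v]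
    exact hx
  · intro hy
    refine ⟨LinearMap.adjoint Z y, ?_, hZZ y⟩
    rw [mem_closedBall_zero_iff, h]
    exact hy

theorem ell_eq {Y : VE n ≃ₗ[ℝ] VE n} {A' : VE n →ₗ[ℝ] VE n} {c : VE n}
    (h : ∀ x, ‖LinearMap.adjoint ((Y.symm : VE n →ₗ[ℝ] VE n) ∘ₗ A') x‖ = ‖x‖) :
    ell A' c = ell (Y : VE n →ₗ[ℝ] VE n) c := by
  have hb := image_ball h
  unfold ell
  have e : (fun x => c + A' x) = (fun x => c + (Y : VE n →ₗ[ℝ] VE n) x) ∘
      ((Y.symm : VE n →ₗ[ℝ] VE n) ∘ₗ A') := by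
    funext x
    simp
  rw [e, Set.image_comp, hb]

/-- Membership in a dilate. -/
theorem mem_dilate {Y : VE n ≃ₗ[ℝ] VE n} {c d : VE n} {t : ℝ} (ht : 0 < t) :
    d ∈ AffineMap.homothety c t '' ell (Y : VE n →ₗ[ℝ] VE n) c ↔ ‖Y.symm (d - c)‖ ≤ t := by
  unfold ell
  rw [Set.image_image]
  constructor
  · rintro ⟨x, hx, rfl⟩
    rw [mem_closedBall_zero_iff] at hx
    have : AffineMap.homothety c t (c + (Y : VE n →ₗ[ℝ] VE n) x) - c = Y (t • x) := by
      rw [AffineMap.homothety_apply]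
      simp
    rw [this, LinearEquiv.symm_apply_apply, norm_smul, Real.norm_eq_abs, abs_of_pos ht]
    nlinarith
  · intro h
    refine ⟨t⁻¹ • Y.symm (d - c), ?_, ?_⟩
    · rw [mem_closedBall_zero_iff, norm_smul, norm_inv, Real.norm_eq_abs, abs_of_pos ht,
        inv_mul_le_iff₀ ht, mul_one]
      exact h
    · show AffineMap.homothety c t (c + (Y : VE n →ₗ[ℝ] VE n) (t⁻¹ • Y.symm (d - c))) = d
      rw [AffineMap.homothety_apply]
      simp only [LinearEquiv.coe_coe, map_smul, LinearEquiv.apply_symm_apply, vsub_eq_sub,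
        add_sub_cancel_left, vadd_eq_add]
      rw [smul_smul, mul_inv_cancel₀ ht.ne', one_smul, sub_add_cancel]

end

end Q144.JE
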