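import Mathlib

set_option autoImplicit false

/-! Straight-line drawings of `K_{3,3}`: among three red and three blue points in general position
there are two disjoint red-blue pairs whose segments cross. The proof is a pruned search over sign
vectors, evaluated by the kernel. -/

namespace Q144.K33

/-- conjunction over both truth values -/
def all (f : Bool → Bool) : Bool := f true && f false

theorem all_spec {f : Bool → Bool} (h : all f = true) (b : Bool) : f b = true := by
  unfold all at h
  rw [Bool.and_eq_true] at h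
  cases b
  · exact h.2
  · exact h.1

/-- implication -/
def imp (c r : Bool) : Bool := !c || r

theorem imp_spec {c r : Bool} (h : imp c r = true) (hc : c = true) : r = true := by
  unfold imp at h
  rw [hc] at h
  simpa using h

/-- affine relation of four points -/
def aff (a b c d : Bool) : Bool := !(a && !b && c && !d) && !(!a && b && !c && d)

/-- three term relation of five points -/
def gp (u v w x y z : Bool) : Bool :=
  !((u == v) && !(w == x) && (y == z)) && !(!(u == v) && (w == x) && !(y == z))

/-- no crossing of two segments -/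
def nc (u v w x : Bool) : Bool := !(!(u == v) && !(w == x))

/-- the pruned search -/
def chk : Bool :=
  all fun v6 =>
  all fun v17 =>
  all fun v8 =>
  all fun v4 =>
  imp (aff v17 v8 v6 v4) <|
  imp (nc (!v4) v8 v6 (!v17)) <|
  imp (nc (!v6) (!v8) v4 v17) <|
  all fun v5 =>
  all fun v16 =>
  all fun v7 =>
  imp (aff v16 v7 v5 v4) <|
  imp (nc (!v4) v7 v5 (!v16)) <|
  imp (nc (!v5) (!v7) v4 v16) <|
  all fun v9 =>
  imp (gp v4 v9 v5 v8 v6 v7) <|
  all fun v18 =>
  imp (aff v18 v9 v6 v5) <|
  imp (gp (!v4) v18 (!v5) v17 (!v6) v16) <|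
  imp (nc (!v5) v9 v6 (!v18)) <|
  imp (nc (!v6) (!v9) v5 v18) <|
  all fun v19 =>
  imp (aff v19 v9 v8 v7) <|
  imp (aff v19 v18 v17 v16) <|
  imp (gp v4 v19 (!v7) (!v17) (!v8) (!v16)) <|
  imp (gp v5 (!v19) v7 (!v18) (!v9) v16) <|
  imp (gp v6 v19 v8 v18 v9 v17) <|
  all fun v3 =>
  all fun v1 =>
  all fun v14 =>
  imp (aff v14 v8 v3 v1) <|
  imp (nc (!v1) v8 v3 (!v14)) <|
  imp (nc (!v3) (!v8) v1 v14) <|
  all fun v2 =>
  imp (gp v1 v9 v2 v8 v3 v7) <|
  all fun v13 =>
  imp (aff v13 v7 v2 v1) <|
  imp (gp v1 v19 (!v7) (!v14) (!v8) (!v13)) <|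
  imp (nc (!v1) v7 v2 (!v13)) <|
  imp (nc (!v2) (!v7) v1 v13) <|
  all fun v15 =>
  imp (aff v15 v9 v3 v2) <|
  imp (aff v19 v15 v14 v13) <|
  imp (gp (!v1) v15 (!v2) v14 (!v3) v13) <|
  imp (gp v2 (!v19) v7 (!v15) (!v9) v13) <|
  imp (gp v3 v19 v8 v15 v9 v14) <|
  imp (nc (!v2) v9 v3 (!v15)) <|
  imp (nc (!v3) (!v9) v2 v15) <|
  all fun v0 =>
  imp (gp v0 v7 v1 v5 v2 v4) <|
  imp (gp v0 v8 v1 v6 v3 v4) <|
  imp (gp v0 v9 v2 v6 v3 v5) <|
  all fun v11 =>
  imp (aff v11 v5 v2 v0) <|
  imp (gp v2 v16 v5 v13 v7 v11) <|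
  imp (gp v2 (!v18) v5 (!v15) (!v9) v11) <|
  imp (gp v11 (!v19) v13 (!v18) (!v15) v16) <|
  all fun v10 =>
  imp (aff v10 v4 v1 v0) <|
  imp (aff v16 v13 v11 v10) <|
  imp (gp (!v0) v13 (!v1) v11 (!v2) v10) <|
  imp (gp v0 v16 (!v4) (!v11) (!v5) (!v10)) <|
  imp (gp v1 (!v16) v4 (!v13) (!v7) v10) <|
  imp (gp v1 (!v17) v4 (!v14) (!v8) v10) <|
  imp (gp v10 v19 (!v13) (!v17) (!v14) (!v16)) <|
  imp (nc (!v10) v13 v11 (!v16)) <|
  imp (nc (!v11) (!v13) v10 v16) <|
  all fun v12 =>
  imp (aff v12 v6 v3 v0) <|
  imp (aff v17 v14 v12 v10) <|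
  imp (aff v18 v15 v12 v11) <|
  imp (gp (!v0) v14 (!v1) v12 (!v3) v10) <|
  imp (gp (!v0) v15 (!v2) v12 (!v3) v11) <|
  imp (gp v10 v15 v11 v14 v12 v13) <|
  imp (gp v0 v17 (!v4) (!v12) (!v6) (!v10)) <|
  imp (gp v0 v18 (!v5) (!v12) (!v6) (!v11)) <|
  imp (gp (!v10) v18 (!v11) v17 (!v12) v16) <|
  imp (gp v3 v17 v6 v14 v8 v12) <|
  imp (gp v3 v18 v6 v15 v9 v12) <|
  imp (gp v12 v19 v14 v18 v15 v17) <|
  imp (nc (!v10) v14 v12 (!v17)) <|
  imp (nc (!v11) v15 v12 (!v18)) <|
  imp (nc (!v12) (!v14) v10 v17) <|
  imp (nc (!v12) (!v15) v11 v18) <|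
  false

theorem chk_eq : chk = true := by decide +kernel

/-- oriented area (twice) in coordinates -/
def D (a b c : ℝ × ℝ) : ℝ := (b.1 - a.1) * (c.2 - a.2) - (b.2 - a.2) * (c.1 - a.1)

/-- sign of the oriented area -/
noncomputable def X (P : Fin 6 → ℝ × ℝ) (a b c : Fin 6) : Bool := decide (0 < D (P a) (P b) (P c))

/-- general position -/
def Gen (P : Fin 6 → ℝ × ℝ) : Prop :=
  ∀ a b c : Fin 6, a ≠ b → a ≠ c → b ≠ c → D (P a) (P b) (P c) ≠ 0

/-- the segments `ab` and `cd` cross -/
def Cross (P : Fin 6 → ℝ × ℝ) (a b c d : Fin 6) : Prop :=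
  D (P a) (P b) (P c) * D (P a) (P b) (P d) < 0 ∧ D (P c) (P d) (P a) * D (P c) (P d) (P b) < 0

theorem neg_flip {x y : ℝ} (h : x = -y) (hy : y ≠ 0) : decide (0 < x) = !decide (0 < y) := by
  subst h
  rcases lt_or_gt_of_ne hy with h | h
  · have h1 : ¬ (0 < y) := not_lt.2 h.le
    have h2 : 0 < -y := neg_pos.2 h
    simp [h1, h2, h.le, h]
  · have h2 : ¬ (0 < -y) := not_lt.2 (neg_nonpos.2 h.le)
    simp [h, h.le]

theorem s213 {P : Fin 6 → ℝ × ℝ} (hg : Gen P) (a b c : Fin 6) (h1 : a ≠ b) (h2 : a ≠ c)
    (h3 : b ≠ c) : X P b a c = !X P a b c :=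
  neg_flip (by unfold D; ring) (hg a b c h1 h2 h3)

theorem s132 {P : Fin 6 → ℝ × ℝ} (hg : Gen P) (a b c : Fin 6) (h1 : a ≠ b) (h2 : a ≠ c)
    (h3 : b ≠ c) : X P a c b = !X P a b c :=
  neg_flip (by unfold D; ring) (hg a b c h1 h2 h3)

theorem s321 {P : Fin 6 → ℝ × ℝ} (hg : Gen P) (a b c : Fin 6) (h1 : a ≠ b) (h2 : a ≠ c)
    (h3 : b ≠ c) : X P c b a = !X P a b c :=
  neg_flip (by unfold D; ring) (hg a b c h1 h2 h3)

theorem s231 {P : Fin 6 → ℝ × ℝ} (_ : Gen P) (a b c : Fin 6) (_ : a ≠ b) (_ : a ≠ c)
    (_ : b ≠ c) : X P b c a = X P a b c := by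
  unfold X
  rw [show D (P b) (P c) (P a) = D (P a) (P b) (P c) by unfold D; ring]

theorem s312 {P : Fin 6 → ℝ × ℝ} (_ : Gen P) (a b c : Fin 6) (_ : a ≠ b) (_ : a ≠ c)
    (_ : b ≠ c) : X P c a b = X P a b c := by
  unfold X
  rw [show D (P c) (P a) (P b) = D (P a) (P b) (P c) by unfold D; ring]

theorem sgn_cases {x : ℝ} (hx : x ≠ 0) :
    (decide (0 < x) = true ∧ 0 < x) ∨ (decide (0 < x) = false ∧ x < 0) := by
  rcases lt_or_gt_of_ne hx with h | h
  · right; exact ⟨by simp [h.le], h⟩
  · left; exact ⟨by simp [h], h⟩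

theorem h_aff {P : Fin 6 → ℝ × ℝ} (hg : Gen P) (a b c d : Fin 6)
    (hd : a ≠ b ∧ a ≠ c ∧ a ≠ d ∧ b ≠ c ∧ b ≠ d ∧ c ≠ d) :
    aff (X P b c d) (X P a c d) (X P a b d) (X P a b c) = true := by
  obtain ⟨hab, hac, had, hbc, hbd, hcd⟩ := hd
  have hs : D (P b) (P c) (P d) - D (P a) (P c) (P d) + D (P a) (P b) (P d)
      - D (P a) (P b) (P c) = 0 := by unfold D; ring
  unfold X
  rcases sgn_cases (hg b c d hbc hbd hcd) with ⟨e1, l1⟩ | ⟨e1, l1⟩ <;>
  rcases sgn_cases (hg a c d hac had hcd) with ⟨e2, l2⟩ | ⟨e2, l2⟩ <;>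
  rcases sgn_cases (hg a b d hab had hbd) with ⟨e3, l3⟩ | ⟨e3, l3⟩ <;>
  rcases sgn_cases (hg a b c hab hac hbc) with ⟨e4, l4⟩ | ⟨e4, l4⟩ <;>
  rw [e1, e2, e3, e4] <;> first | rfl | (exfalso; linarith)

theorem prod_cases {x y : ℝ} (hx : x ≠ 0) (hy : y ≠ 0) :
    ((decide (0 < x) == decide (0 < y)) = true ∧ 0 < x * y) ∨
    ((decide (0 < x) == decide (0 < y)) = false ∧ x * y < 0) := by
  rcases sgn_cases hx with ⟨e1, l1⟩ | ⟨e1, l1⟩ <;>
  rcases sgn_cases hy with ⟨e2, l2⟩ | ⟨e2, l2⟩ <;> rw [e1, e2]
  · left; exact ⟨rfl, mul_pos l1 l2⟩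
  · right; exact ⟨rfl, mul_neg_of_pos_of_neg l1 l2⟩
  · right; exact ⟨rfl, mul_neg_of_neg_of_pos l1 l2⟩
  · left; exact ⟨rfl, mul_pos_of_neg_of_neg l1 l2⟩

theorem h_gp {P : Fin 6 → ℝ × ℝ} (hg : Gen P) (p a b c d : Fin 6)
    (hd : (p ≠ a ∧ p ≠ b ∧ p ≠ c ∧ p ≠ d) ∧ a ≠ b ∧ a ≠ c ∧ a ≠ d ∧ b ≠ c ∧ b ≠ d ∧ c ≠ d) :
    gp (X P p a b) (X P p c d) (X P p a c) (X P p b d) (X P p a d) (X P p b c) = true := by
  obtain ⟨⟨hpa, hpb, hpc, hpd⟩, hab, hac, had, hbc, hbd, hcd⟩ := hd
  have hs : D (P p) (P a) (P b) * D (P p) (P c) (P d) - D (P p) (P a) (P c) * D (P p) (P b) (P d)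
      + D (P p) (P a) (P d) * D (P p) (P b) (P c) = 0 := by unfold D; ring
  unfold X gp
  rcases prod_cases (hg p a b hpa hpb hab) (hg p c d hpc hpd hcd) with ⟨e1, l1⟩ | ⟨e1, l1⟩ <;>
  rcases prod_cases (hg p a c hpa hpc hac) (hg p b d hpb hpd hbd) with ⟨e2, l2⟩ | ⟨e2, l2⟩ <;>
  rcases prod_cases (hg p a d hpa hpd had) (hg p b c hpb hpc hbc) with ⟨e3, l3⟩ | ⟨e3, l3⟩ <;>
  rw [e1, e2, e3] <;> first | rfl | (exfalso; linarith)

theorem h_nc {P : Fin 6 → ℝ × ℝ} (hg : Gen P)
    (hc : ∀ a b c d : Fin 6, a < 3 → c < 3 → 3 ≤ b → 3 ≤ d → a ≠ c → b ≠ d → ¬ Cross P a b c d)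
    (a b c d : Fin 6)
    (hd : a < 3 ∧ c < 3 ∧ 3 ≤ b ∧ 3 ≤ d ∧ a ≠ b ∧ a ≠ c ∧ a ≠ d ∧ b ≠ c ∧ b ≠ d ∧ c ≠ d) :
    nc (X P a b c) (X P a b d) (X P c d a) (X P c d b) = true := by
  obtain ⟨ha, hc', hb, hd', hab, hac, had, hbc, hbd, hcd⟩ := hd
  have hn := hc a b c d ha hc' hb hd' hac hbd
  unfold Cross at hn
  unfold X nc
  rcases prod_cases (hg a b c hab hac hbc) (hg a b d hab had hbd) with ⟨e1, l1⟩ | ⟨e1, l1⟩ <;>
  rcases prod_cases (hg c d a hcd hac.symm had.symm) (hg c d b hcd hbc.symm hbd.symm)
    with ⟨e2, l2⟩ | ⟨e2, l2⟩ <;>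
  rw [e1, e2] <;> first | rfl | exact absurd ⟨l1, l2⟩ hn

theorem exists_cross {P : Fin 6 → ℝ × ℝ} (hg : Gen P) :
    ∃ a b c d : Fin 6, a < 3 ∧ c < 3 ∧ 3 ≤ b ∧ 3 ≤ d ∧ a ≠ c ∧ b ≠ d ∧ Cross P a b c d := by
  by_contra hcon
  have hc : ∀ a b c d : Fin 6, a < 3 → c < 3 → 3 ≤ b → 3 ≤ d → a ≠ c → b ≠ d →
      ¬ Cross P a b c d := by
    intro a b c d h1 h2 h3 h4 h5 h6 h7
    exact hcon ⟨a, b, c, d, h1, h2, h3, h4, h5, h6, h7⟩
  have e := chk_eq
  unfold chk at e
  replace e := all_spec e (X P 0 2 5)
  replace e := all_spec e (X P 2 3 5)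
  replace e := all_spec e (X P 0 3 5)
  replace e := all_spec e (X P 0 2 3)
  replace e := imp_spec e (by
    have h := h_aff hg 0 2 3 5
      (by decide)
    exact h)
  replace e := imp_spec e (by
    have h := h_nc hg hc 0 3 2 5
      (by decide)
    rw [s132 hg 0 2 3 (by decide) (by decide) (by decide),
      s231 hg 0 2 5 (by decide) (by decide) (by decide),
      s132 hg 2 3 5 (by decide) (by decide) (by decide)] at h
    exact h)
  replace e := imp_spec e (by
    have h := h_nc hg hc 0 5 2 3
      (by decide)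
    rw [s132 hg 0 2 5 (by decide) (by decide) (by decide),
      s132 hg 0 3 5 (by decide) (by decide) (by decide),
      s231 hg 0 2 3 (by decide) (by decide) (by decide)] at h
    exact h)
  replace e := all_spec e (X P 0 2 4)
  replace e := all_spec e (X P 2 3 4)
  replace e := all_spec e (X P 0 3 4)
  replace e := imp_spec e (by
    have h := h_aff hg 0 2 3 4
      (by decide)
    exact h)
  replace e := imp_spec e (by
    have h := h_nc hg hc 0 3 2 4
      (by decide)
    rw [s132 hg 0 2 3 (by decide) (by decide) (by decide),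
      s231 hg 0 2 4 (by decide) (by decide) (by decide),
      s132 hg 2 3 4 (by decide) (by decide) (by decide)] at h
    exact h)
  replace e := imp_spec e (by
    have h := h_nc hg hc 0 4 2 3
      (by decide)
    rw [s132 hg 0 2 4 (by decide) (by decide) (by decide),
      s132 hg 0 3 4 (by decide) (by decide) (by decide),
      s231 hg 0 2 3 (by decide) (by decide) (by decide)] at h
    exact h)
  replace e := all_spec e (X P 0 4 5)
  replace e := imp_spec e (by
    have h := h_gp hg 0 2 3 4 5
      (by decide)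
    exact h)
  replace e := all_spec e (X P 2 4 5)
  replace e := imp_spec e (by
    have h := h_aff hg 0 2 4 5
      (by decide)
    exact h)
  replace e := imp_spec e (by
    have h := h_gp hg 2 0 3 4 5
      (by decide)
    rw [s213 hg 0 2 3 (by decide) (by decide) (by decide),
      s213 hg 0 2 4 (by decide) (by decide) (by decide),
      s213 hg 0 2 5 (by decide) (by decide) (by decide)] at h
    exact h)
  replace e := imp_spec e (by
    have h := h_nc hg hc 0 4 2 5
      (by decide)
    rw [s132 hg 0 2 4 (by decide) (by decide) (by decide),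
      s231 hg 0 2 5 (by decide) (by decide) (by decide),
      s132 hg 2 4 5 (by decide) (by decide) (by decide)] at h
    exact h)
  replace e := imp_spec e (by
    have h := h_nc hg hc 0 5 2 4
      (by decide)
    rw [s132 hg 0 2 5 (by decide) (by decide) (by decide),
      s132 hg 0 4 5 (by decide) (by decide) (by decide),
      s231 hg 0 2 4 (by decide) (by decide) (by decide)] at h
    exact h)
  replace e := all_spec e (X P 3 4 5)
  replace e := imp_spec e (by
    have h := h_aff hg 0 3 4 5
      (by decide)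
    exact h)
  replace e := imp_spec e (by
    have h := h_aff hg 2 3 4 5
      (by decide)
    exact h)
  replace e := imp_spec e (by
    have h := h_gp hg 3 0 2 4 5
      (by decide)
    rw [s312 hg 0 2 3 (by decide) (by decide) (by decide),
      s213 hg 0 3 4 (by decide) (by decide) (by decide),
      s213 hg 2 3 5 (by decide) (by decide) (by decide),
      s213 hg 0 3 5 (by decide) (by decide) (by decide),
      s213 hg 2 3 4 (by decide) (by decide) (by decide)] at h
    exact h)
  replace e := imp_spec e (by
    have h := h_gp hg 4 0 2 3 5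
      (by decide)
    rw [s312 hg 0 2 4 (by decide) (by decide) (by decide),
      s213 hg 3 4 5 (by decide) (by decide) (by decide),
      s312 hg 0 3 4 (by decide) (by decide) (by decide),
      s213 hg 2 4 5 (by decide) (by decide) (by decide),
      s213 hg 0 4 5 (by decide) (by decide) (by decide),
      s312 hg 2 3 4 (by decide) (by decide) (by decide)] at h
    exact h)
  replace e := imp_spec e (by
    have h := h_gp hg 5 0 2 3 4
      (by decide)
    rw [s312 hg 0 2 5 (by decide) (by decide) (by decide),
      s312 hg 3 4 5 (by decide) (by decide) (by decide),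
      s312 hg 0 3 5 (by decide) (by decide) (by decide),
      s312 hg 2 4 5 (by decide) (by decide) (by decide),
      s312 hg 0 4 5 (by decide) (by decide) (by decide),
      s312 hg 2 3 5 (by decide) (by decide) (by decide)] at h
    exact h)
  replace e := all_spec e (X P 0 1 5)
  replace e := all_spec e (X P 0 1 3)
  replace e := all_spec e (X P 1 3 5)
  replace e := imp_spec e (by
    have h := h_aff hg 0 1 3 5
      (by decide)
    exact h)
  replace e := imp_spec e (by
    have h := h_nc hg hc 0 3 1 5
      (by decide)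
    rw [s132 hg 0 1 3 (by decide) (by decide) (by decide),
      s231 hg 0 1 5 (by decide) (by decide) (by decide),
      s132 hg 1 3 5 (by decide) (by decide) (by decide)] at h
    exact h)
  replace e := imp_spec e (by
    have h := h_nc hg hc 0 5 1 3
      (by decide)
    rw [s132 hg 0 1 5 (by decide) (by decide) (by decide),
      s132 hg 0 3 5 (by decide) (by decide) (by decide),
      s231 hg 0 1 3 (by decide) (by decide) (by decide)] at h
    exact h)
  replace e := all_spec e (X P 0 1 4)
  replace e := imp_spec e (by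
    have h := h_gp hg 0 1 3 4 5
      (by decide)
    exact h)
  replace e := all_spec e (X P 1 3 4)
  replace e := imp_spec e (by
    have h := h_aff hg 0 1 3 4
      (by decide)
    exact h)
  replace e := imp_spec e (by
    have h := h_gp hg 3 0 1 4 5
      (by decide)
    rw [s312 hg 0 1 3 (by decide) (by decide) (by decide),
      s213 hg 0 3 4 (by decide) (by decide) (by decide),
      s213 hg 1 3 5 (by decide) (by decide) (by decide),
      s213 hg 0 3 5 (by decide) (by decide) (by decide),
      s213 hg 1 3 4 (by decide) (by decide) (by decide)] at h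
    exact h)
  replace e := imp_spec e (by
    have h := h_nc hg hc 0 3 1 4
      (by decide)
    rw [s132 hg 0 1 3 (by decide) (by decide) (by decide),
      s231 hg 0 1 4 (by decide) (by decide) (by decide),
      s132 hg 1 3 4 (by decide) (by decide) (by decide)] at h
    exact h)
  replace e := imp_spec e (by
    have h := h_nc hg hc 0 4 1 3
      (by decide)
    rw [s132 hg 0 1 4 (by decide) (by decide) (by decide),
      s132 hg 0 3 4 (by decide) (by decide) (by decide),
      s231 hg 0 1 3 (by decide) (by decide) (by decide)] at h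
    exact h)
  replace e := all_spec e (X P 1 4 5)
  replace e := imp_spec e (by
    have h := h_aff hg 0 1 4 5
      (by decide)
    exact h)
  replace e := imp_spec e (by
    have h := h_aff hg 1 3 4 5
      (by decide)
    exact h)
  replace e := imp_spec e (by
    have h := h_gp hg 1 0 3 4 5
      (by decide)
    rw [s213 hg 0 1 3 (by decide) (by decide) (by decide),
      s213 hg 0 1 4 (by decide) (by decide) (by decide),
      s213 hg 0 1 5 (by decide) (by decide) (by decide)] at h
    exact h)
  replace e := imp_spec e (by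
    have h := h_gp hg 4 0 1 3 5
      (by decide)
    rw [s312 hg 0 1 4 (by decide) (by decide) (by decide),
      s213 hg 3 4 5 (by decide) (by decide) (by decide),
      s312 hg 0 3 4 (by decide) (by decide) (by decide),
      s213 hg 1 4 5 (by decide) (by decide) (by decide),
      s213 hg 0 4 5 (by decide) (by decide) (by decide),
      s312 hg 1 3 4 (by decide) (by decide) (by decide)] at h
    exact h)
  replace e := imp_spec e (by
    have h := h_gp hg 5 0 1 3 4
      (by decide)
    rw [s312 hg 0 1 5 (by decide) (by decide) (by decide),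
      s312 hg 3 4 5 (by decide) (by decide) (by decide),
      s312 hg 0 3 5 (by decide) (by decide) (by decide),
      s312 hg 1 4 5 (by decide) (by decide) (by decide),
      s312 hg 0 4 5 (by decide) (by decide) (by decide),
      s312 hg 1 3 5 (by decide) (by decide) (by decide)] at h
    exact h)
  replace e := imp_spec e (by
    have h := h_nc hg hc 0 4 1 5
      (by decide)
    rw [s132 hg 0 1 4 (by decide) (by decide) (by decide),
      s231 hg 0 1 5 (by decide) (by decide) (by decide),
      s132 hg 1 4 5 (by decide) (by decide) (by decide)] at h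
    exact h)
  replace e := imp_spec e (by
    have h := h_nc hg hc 0 5 1 4
      (by decide)
    rw [s132 hg 0 1 5 (by decide) (by decide) (by decide),
      s132 hg 0 4 5 (by decide) (by decide) (by decide),
      s231 hg 0 1 4 (by decide) (by decide) (by decide)] at h
    exact h)
  replace e := all_spec e (X P 0 1 2)
  replace e := imp_spec e (by
    have h := h_gp hg 0 1 2 3 4
      (by decide)
    exact h)
  replace e := imp_spec e (by
    have h := h_gp hg 0 1 2 3 5
      (by decide)
    exact h)
  replace e := imp_spec e (by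
    have h := h_gp hg 0 1 2 4 5
      (by decide)
    exact h)
  replace e := all_spec e (X P 1 2 4)
  replace e := imp_spec e (by
    have h := h_aff hg 0 1 2 4
      (by decide)
    exact h)
  replace e := imp_spec e (by
    have h := h_gp hg 4 0 1 2 3
      (by decide)
    rw [s312 hg 0 1 4 (by decide) (by decide) (by decide),
      s312 hg 2 3 4 (by decide) (by decide) (by decide),
      s312 hg 0 2 4 (by decide) (by decide) (by decide),
      s312 hg 1 3 4 (by decide) (by decide) (by decide),
      s312 hg 0 3 4 (by decide) (by decide) (by decide),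
      s312 hg 1 2 4 (by decide) (by decide) (by decide)] at h
    exact h)
  replace e := imp_spec e (by
    have h := h_gp hg 4 0 1 2 5
      (by decide)
    rw [s312 hg 0 1 4 (by decide) (by decide) (by decide),
      s213 hg 2 4 5 (by decide) (by decide) (by decide),
      s312 hg 0 2 4 (by decide) (by decide) (by decide),
      s213 hg 1 4 5 (by decide) (by decide) (by decide),
      s213 hg 0 4 5 (by decide) (by decide) (by decide),
      s312 hg 1 2 4 (by decide) (by decide) (by decide)] at h
    exact h)
  replace e := imp_spec e (by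
    have h := h_gp hg 4 1 2 3 5
      (by decide)
    rw [s312 hg 1 2 4 (by decide) (by decide) (by decide),
      s213 hg 3 4 5 (by decide) (by decide) (by decide),
      s312 hg 1 3 4 (by decide) (by decide) (by decide),
      s213 hg 2 4 5 (by decide) (by decide) (by decide),
      s213 hg 1 4 5 (by decide) (by decide) (by decide),
      s312 hg 2 3 4 (by decide) (by decide) (by decide)] at h
    exact h)
  replace e := all_spec e (X P 1 2 3)
  replace e := imp_spec e (by
    have h := h_aff hg 0 1 2 3
      (by decide)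
    exact h)
  replace e := imp_spec e (by
    have h := h_aff hg 1 2 3 4
      (by decide)
    exact h)
  replace e := imp_spec e (by
    have h := h_gp hg 1 0 2 3 4
      (by decide)
    rw [s213 hg 0 1 2 (by decide) (by decide) (by decide),
      s213 hg 0 1 3 (by decide) (by decide) (by decide),
      s213 hg 0 1 4 (by decide) (by decide) (by decide)] at h
    exact h)
  replace e := imp_spec e (by
    have h := h_gp hg 2 0 1 3 4
      (by decide)
    rw [s312 hg 0 1 2 (by decide) (by decide) (by decide),
      s213 hg 0 2 3 (by decide) (by decide) (by decide),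
      s213 hg 1 2 4 (by decide) (by decide) (by decide),
      s213 hg 0 2 4 (by decide) (by decide) (by decide),
      s213 hg 1 2 3 (by decide) (by decide) (by decide)] at h
    exact h)
  replace e := imp_spec e (by
    have h := h_gp hg 3 0 1 2 4
      (by decide)
    rw [s312 hg 0 1 3 (by decide) (by decide) (by decide),
      s213 hg 2 3 4 (by decide) (by decide) (by decide),
      s312 hg 0 2 3 (by decide) (by decide) (by decide),
      s213 hg 1 3 4 (by decide) (by decide) (by decide),
      s213 hg 0 3 4 (by decide) (by decide) (by decide),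
      s312 hg 1 2 3 (by decide) (by decide) (by decide)] at h
    exact h)
  replace e := imp_spec e (by
    have h := h_gp hg 3 0 1 2 5
      (by decide)
    rw [s312 hg 0 1 3 (by decide) (by decide) (by decide),
      s213 hg 2 3 5 (by decide) (by decide) (by decide),
      s312 hg 0 2 3 (by decide) (by decide) (by decide),
      s213 hg 1 3 5 (by decide) (by decide) (by decide),
      s213 hg 0 3 5 (by decide) (by decide) (by decide),
      s312 hg 1 2 3 (by decide) (by decide) (by decide)] at h
    exact h)
  replace e := imp_spec e (by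
    have h := h_gp hg 3 1 2 4 5
      (by decide)
    rw [s312 hg 1 2 3 (by decide) (by decide) (by decide),
      s213 hg 1 3 4 (by decide) (by decide) (by decide),
      s213 hg 2 3 5 (by decide) (by decide) (by decide),
      s213 hg 1 3 5 (by decide) (by decide) (by decide),
      s213 hg 2 3 4 (by decide) (by decide) (by decide)] at h
    exact h)
  replace e := imp_spec e (by
    have h := h_nc hg hc 1 3 2 4
      (by decide)
    rw [s132 hg 1 2 3 (by decide) (by decide) (by decide),
      s231 hg 1 2 4 (by decide) (by decide) (by decide),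
      s132 hg 2 3 4 (by decide) (by decide) (by decide)] at h
    exact h)
  replace e := imp_spec e (by
    have h := h_nc hg hc 1 4 2 3
      (by decide)
    rw [s132 hg 1 2 4 (by decide) (by decide) (by decide),
      s132 hg 1 3 4 (by decide) (by decide) (by decide),
      s231 hg 1 2 3 (by decide) (by decide) (by decide)] at h
    exact h)
  replace e := all_spec e (X P 1 2 5)
  replace e := imp_spec e (by
    have h := h_aff hg 0 1 2 5
      (by decide)
    exact h)
  replace e := imp_spec e (by
    have h := h_aff hg 1 2 3 5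
      (by decide)
    exact h)
  replace e := imp_spec e (by
    have h := h_aff hg 1 2 4 5
      (by decide)
    exact h)
  replace e := imp_spec e (by
    have h := h_gp hg 1 0 2 3 5
      (by decide)
    rw [s213 hg 0 1 2 (by decide) (by decide) (by decide),
      s213 hg 0 1 3 (by decide) (by decide) (by decide),
      s213 hg 0 1 5 (by decide) (by decide) (by decide)] at h
    exact h)
  replace e := imp_spec e (by
    have h := h_gp hg 1 0 2 4 5
      (by decide)
    rw [s213 hg 0 1 2 (by decide) (by decide) (by decide),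
      s213 hg 0 1 4 (by decide) (by decide) (by decide),
      s213 hg 0 1 5 (by decide) (by decide) (by decide)] at h
    exact h)
  replace e := imp_spec e (by
    have h := h_gp hg 1 2 3 4 5
      (by decide)
    exact h)
  replace e := imp_spec e (by
    have h := h_gp hg 2 0 1 3 5
      (by decide)
    rw [s312 hg 0 1 2 (by decide) (by decide) (by decide),
      s213 hg 0 2 3 (by decide) (by decide) (by decide),
      s213 hg 1 2 5 (by decide) (by decide) (by decide),
      s213 hg 0 2 5 (by decide) (by decide) (by decide),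
      s213 hg 1 2 3 (by decide) (by decide) (by decide)] at h
    exact h)
  replace e := imp_spec e (by
    have h := h_gp hg 2 0 1 4 5
      (by decide)
    rw [s312 hg 0 1 2 (by decide) (by decide) (by decide),
      s213 hg 0 2 4 (by decide) (by decide) (by decide),
      s213 hg 1 2 5 (by decide) (by decide) (by decide),
      s213 hg 0 2 5 (by decide) (by decide) (by decide),
      s213 hg 1 2 4 (by decide) (by decide) (by decide)] at h
    exact h)
  replace e := imp_spec e (by
    have h := h_gp hg 2 1 3 4 5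
      (by decide)
    rw [s213 hg 1 2 3 (by decide) (by decide) (by decide),
      s213 hg 1 2 4 (by decide) (by decide) (by decide),
      s213 hg 1 2 5 (by decide) (by decide) (by decide)] at h
    exact h)
  replace e := imp_spec e (by
    have h := h_gp hg 5 0 1 2 3
      (by decide)
    rw [s312 hg 0 1 5 (by decide) (by decide) (by decide),
      s312 hg 2 3 5 (by decide) (by decide) (by decide),
      s312 hg 0 2 5 (by decide) (by decide) (by decide),
      s312 hg 1 3 5 (by decide) (by decide) (by decide),
      s312 hg 0 3 5 (by decide) (by decide) (by decide),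
      s312 hg 1 2 5 (by decide) (by decide) (by decide)] at h
    exact h)
  replace e := imp_spec e (by
    have h := h_gp hg 5 0 1 2 4
      (by decide)
    rw [s312 hg 0 1 5 (by decide) (by decide) (by decide),
      s312 hg 2 4 5 (by decide) (by decide) (by decide),
      s312 hg 0 2 5 (by decide) (by decide) (by decide),
      s312 hg 1 4 5 (by decide) (by decide) (by decide),
      s312 hg 0 4 5 (by decide) (by decide) (by decide),
      s312 hg 1 2 5 (by decide) (by decide) (by decide)] at h
    exact h)
  replace e := imp_spec e (by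
    have h := h_gp hg 5 1 2 3 4
      (by decide)
    rw [s312 hg 1 2 5 (by decide) (by decide) (by decide),
      s312 hg 3 4 5 (by decide) (by decide) (by decide),
      s312 hg 1 3 5 (by decide) (by decide) (by decide),
      s312 hg 2 4 5 (by decide) (by decide) (by decide),
      s312 hg 1 4 5 (by decide) (by decide) (by decide),
      s312 hg 2 3 5 (by decide) (by decide) (by decide)] at h
    exact h)
  replace e := imp_spec e (by
    have h := h_nc hg hc 1 3 2 5
      (by decide)
    rw [s132 hg 1 2 3 (by decide) (by decide) (by decide),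
      s231 hg 1 2 5 (by decide) (by decide) (by decide),
      s132 hg 2 3 5 (by decide) (by decide) (by decide)] at h
    exact h)
  replace e := imp_spec e (by
    have h := h_nc hg hc 1 4 2 5
      (by decide)
    rw [s132 hg 1 2 4 (by decide) (by decide) (by decide),
      s231 hg 1 2 5 (by decide) (by decide) (by decide),
      s132 hg 2 4 5 (by decide) (by decide) (by decide)] at h
    exact h)
  replace e := imp_spec e (by
    have h := h_nc hg hc 1 5 2 3
      (by decide)
    rw [s132 hg 1 2 5 (by decide) (by decide) (by decide),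
      s132 hg 1 3 5 (by decide) (by decide) (by decide),
      s231 hg 1 2 3 (by decide) (by decide) (by decide)] at h
    exact h)
  replace e := imp_spec e (by
    have h := h_nc hg hc 1 5 2 4
      (by decide)
    rw [s132 hg 1 2 5 (by decide) (by decide) (by decide),
      s132 hg 1 4 5 (by decide) (by decide) (by decide),
      s231 hg 1 2 4 (by decide) (by decide) (by decide)] at h
    exact h)
  exact Bool.noConfusion e

end Q144.K33
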