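import Pool.Agent.Q88.MK.Stm

/-!
# Project MK, job SET: the choice of the exponents
-/

set_option autoImplicit false

namespace Pool.Agent.Q144.MKSET

open Finset Pool.Agent.Q88.MK

theorem set1 (h : S_den) (h1 : S_tel) : S_set := by
  intro s b hs h1s hb
  obtain ⟨k1, hk1⟩ := h s b hs h1s hb
  choose! qi qj hq using hk1
  have hb1 : (1 : ℝ) ≤ b := by exact_mod_cast hb
  have hb0 : (0 : ℝ) < b := by linarith
  obtain ⟨q, hqd⟩ : ∃ q : ℕ → ℕ × ℕ, q = fun k => (qi k, qj k) := ⟨_, rfl⟩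
  have hE : ∀ k, E s (q k) = (qi k : ℝ) + qj k * s := fun k => by rw [hqd]; rfl
  have hlow : ∀ k, k1 ≤ k → (k : ℝ) / b < E s (q k) := fun k hk => by
    rw [hE]; exact (hq k hk).1
  have hupp : ∀ k, k1 ≤ k → E s (q k) < ((k : ℝ) + 1 / 2) / b := fun k hk => by
    rw [hE]; exact (hq k hk).2
  have hsep : ∀ k l, k1 ≤ k → k < l → 1 / (2 * (b : ℝ)) ≤ E s (q l) - E s (q k) := by
    intro k l hk hkl
    have e1 := hupp k hk
    have e2 := hlow l (hk.trans hkl.le)
    have e3 : (k : ℝ) + 1 ≤ l := by exact_mod_cast hkl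
    have e4 : 1 / (2 * (b : ℝ)) ≤ (l : ℝ) / b - ((k : ℝ) + 1 / 2) / b := by
      rw [← sub_div, div_le_div_iff₀ (by positivity) hb0]
      nlinarith
    linarith
  have hsepabs : ∀ k l, k1 ≤ k → k1 ≤ l → k ≠ l → 1 / (2 * (b : ℝ)) ≤ |E s (q k) - E s (q l)| := by
    intro k l hk hl hkl
    rcases lt_or_gt_of_ne hkl with h2 | h2
    · rw [abs_sub_comm]
      exact (hsep k l hk h2).trans (le_abs_self _)
    · exact (hsep l k hl h2).trans (le_abs_self _)
  refine ⟨max k1 (2 * b), fun K hK => ?_⟩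
  have hk0 : k1 ≤ max k1 (2 * b) := le_max_left _ _
  have hk0b : 2 * b ≤ max k1 (2 * b) := le_max_right _ _
  have hmem : ∀ k ∈ Finset.Ico (max k1 (2 * b)) K, k1 ≤ k ∧ 2 * b ≤ k ∧ k < K := by
    intro k hk
    rw [Finset.mem_Ico] at hk
    exact ⟨hk0.trans hk.1, hk0b.trans hk.1, hk.2⟩
  have hinj : ∀ k ∈ Finset.Ico (max k1 (2 * b)) K, ∀ l ∈ Finset.Ico (max k1 (2 * b)) K,
      q k = q l → k = l := by
    intro k hk l hl hkl
    by_contra hne
    have e1 := hsepabs k l (hmem k hk).1 (hmem l hl).1 hne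
    rw [hkl, sub_self, abs_zero] at e1
    have e2 : 0 < 1 / (2 * (b : ℝ)) := by positivity
    linarith
  refine ⟨(Finset.Ico (max k1 (2 * b)) K).image q, ?_, ?_, ?_, ?_⟩
  · refine Finset.card_image_le.trans ?_
    rw [Nat.card_Ico]
    omega
  · intro r hr
    obtain ⟨k, hk, rfl⟩ := Finset.mem_image.1 hr
    obtain ⟨e1, e2, e3⟩ := hmem k hk
    constructor
    · have e4 := hlow k e1
      have e5 : (2 : ℝ) ≤ (k : ℝ) / b := by
        rw [le_div_iff₀ hb0]
        exact_mod_cast e2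
      linarith
    · have e4 := hupp k e1
      have e5 : ((k : ℝ) + 1 / 2) / b ≤ (k : ℝ) + 1 / 2 := div_le_self (by positivity) hb1
      have e6 : (k : ℝ) + 1 ≤ K := by exact_mod_cast e3
      linarith
  · intro r hr t ht hrt
    obtain ⟨k, hk, rfl⟩ := Finset.mem_image.1 hr
    obtain ⟨l, hl, rfl⟩ := Finset.mem_image.1 ht
    exact hsepabs k l (hmem k hk).1 (hmem l hl).1 (fun e => hrt (by rw [e]))
  · rw [Finset.prod_image hinj]
    refine le_trans ?_ (h1 b (max k1 (2 * b)) K hb hK)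
    apply Finset.prod_le_prod
    · intro k hk
      have e1 := hlow k (hmem k hk).1
      have e2 : (0 : ℝ) ≤ (k : ℝ) / b := by positivity
      have e3 : 0 ≤ E s (q k) := by linarith
      positivity
    · intro k hk
      have e1 := hlow k (hmem k hk).1
      have e2 : (0 : ℝ) ≤ (k : ℝ) / b := by positivity
      have e3 : 0 ≤ E s (q k) := by linarith
      have e4 := hupp k (hmem k hk).1
      rw [lt_div_iff₀ hb0] at e4
      rw [div_le_div_iff₀ (by linarith) (by positivity)]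
      nlinarith

end Pool.Agent.Q144.MKSET
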