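import Pool.Agent.H104.ML.Stm

/-!
Project ML of helper104, job DET: the determinant of the matrix of the functions `α^j P_t(j)`.
-/

set_option autoImplicit false

open Polynomial Finset

namespace Pool.Agent.Q144.ML

open Pool.Agent.H104.ML

open Classical in
/-- the Newton basis -/
noncomputable def Nw {D : ℕ} (α : Fin D → ℂ) (s : Fin D) : ℂ[X] :=
  ∏ r ∈ univ.filter (fun r => r < s), (X - C (α r))

lemma Nw_monic {D : ℕ} (α : Fin D → ℂ) (s : Fin D) : (Nw α s).Monic :=
  monic_prod_of_monic _ _ fun r _ => monic_X_sub_C _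

lemma Nw_natDegree {D : ℕ} (α : Fin D → ℂ) (s : Fin D) : (Nw α s).natDegree = s := by
  classical
  unfold Nw
  rw [natDegree_prod_of_monic _ _ (fun r _ => monic_X_sub_C _)]
  simp only [natDegree_X_sub_C, sum_const, smul_eq_mul, mul_one]
  have h : (univ.filter (fun r : Fin D => r < s)) = Finset.Iio s := by
    ext r
    simp
  rw [h, Fin.card_Iio]

open Classical in
/-- the factor `(X - α_s)^τ` -/
lemma Nw_factor {D : ℕ} (α : Fin D → ℂ) (s s' : Fin D) (h : s ≤ s') :
    Nw α s' = (X - C (α s)) ^ tau α s *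
      ∏ r ∈ univ.filter (fun r => r < s' ∧ ¬ (r < s ∧ α r = α s)), (X - C (α r)) := by
  unfold Nw tau
  rw [← prod_filter_mul_prod_filter_not (univ.filter (fun r => r < s'))
    (fun r => r < s ∧ α r = α s), filter_filter, filter_filter]
  congr 1
  have h1 : (univ.filter (fun r => r < s' ∧ r < s ∧ α r = α s)) =
      univ.filter (fun r => r < s ∧ α r = α s) := by
    ext r
    simp only [mem_filter, mem_univ, true_and]
    exact ⟨fun h => h.2, fun h2 => ⟨h2.1.trans_le h, h2⟩⟩
  rw [h1, ← prod_const]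
  refine prod_congr rfl fun r hr => ?_
  rw [(mem_filter.1 hr).2.2]

open Classical in
theorem t_DET (hL : S_LEAD) : S_DET := by
  intro D α P hα hP
  obtain ⟨W, hWd⟩ : ∃ W : Matrix (Fin D) (Fin D) ℂ, ∀ i s, W i s = (Nw α s).coeff i :=
    ⟨Matrix.of fun i s => (Nw α s).coeff i, fun i s => rfl⟩
  have hW : W.det = 1 := by
    have h1 : W.BlockTriangular id := by
      intro i j hij
      rw [hWd]
      exact coeff_eq_zero_of_natDegree_lt (by rw [Nw_natDegree]; exact hij)
    rw [Matrix.det_of_upperTriangular h1]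
    refine prod_eq_one fun i _ => ?_
    rw [hWd]
    have h2 := (Nw_monic α i).coeff_natDegree
    rwa [Nw_natDegree] at h2
  have hent : ∀ s s' : Fin D, s ≤ s' → (Vm α P * W) s s' =
      ((tau α s).factorial : ℂ) * (((P (tau α s)).coeff (tau α s) : ℝ) : ℂ) * α s ^ tau α s *
        ∏ r ∈ univ.filter (fun r => r < s' ∧ ¬ (r < s ∧ α r = α s)), (α s - α r) := by
    intro s s' h
    have h1 := hL (tau α s) (α s)
      (∏ r ∈ univ.filter (fun r => r < s' ∧ ¬ (r < s ∧ α r = α s)), (X - C (α r)))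
      (P (tau α s)) (hP _)
    rw [← Nw_factor α s s' h, sum_over_range' _ (fun n => by ring) D
      (by rw [Nw_natDegree]; exact s'.2), sum_range] at h1
    rw [Matrix.mul_apply]
    have h2 : ∀ i : Fin D, Vm α P s i * W i s' = (Nw α s').coeff i * α s ^ (i : ℕ) *
        ((((P (tau α s)).eval ((i : ℕ) : ℝ)) : ℝ) : ℂ) := by
      intro i
      rw [hWd]
      unfold Vm
      ring
    rw [sum_congr rfl fun i _ => h2 i, h1, eval_prod]
    simp only [eval_sub, eval_X, eval_C]
  have hlow : (Vm α P * W).BlockTriangular OrderDual.toDual := by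
    intro s s' hs
    have hs' : s < s' := hs
    rw [hent s s' hs'.le]
    have h3 : ∏ r ∈ univ.filter (fun r => r < s' ∧ ¬ (r < s ∧ α r = α s)), (α s - α r) = 0 := by
      refine prod_eq_zero (i := s) ?_ (sub_self _)
      rw [mem_filter]
      exact ⟨mem_univ _, hs', fun h => lt_irrefl _ h.1⟩
    rw [h3, mul_zero]
  have hdet : (Vm α P).det = ∏ s, (Vm α P * W) s s := by
    rw [← Matrix.det_of_lowerTriangular _ hlow, Matrix.det_mul, hW, mul_one]
  rw [hdet, norm_prod]
  refine prod_congr rfl fun s _ => ?_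
  have h4 : (univ.filter (fun r => r < s ∧ ¬ (r < s ∧ α r = α s))) =
      univ.filter (fun r => r < s ∧ α r ≠ α s) := by
    ext r
    simp only [mem_filter, mem_univ, true_and]
    exact ⟨fun h => ⟨h.1, fun h2 => h.2 ⟨h.1, h2⟩⟩, fun h => ⟨h.1, fun h2 => h.2 h2.2⟩⟩
  rw [hent s s le_rfl, h4, norm_mul, norm_mul, norm_mul, norm_pow, hα, one_pow, mul_one, norm_prod,
    Complex.norm_natCast, Complex.norm_real, Real.norm_eq_abs]

end Pool.Agent.Q144.ML
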