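import Pool.Agent.Helper524.Mono.S_wulff_main
import Pool.Agent.Helper524.Mono.S_core
import Pool.Agent.Helper524.Mono.S_approx_of_spanning
import Pool.Agent.Helper524.Mono.S_approx_of_raise
import Pool.Agent.Helper524.Mono.S_suff_centered

set_option autoImplicit false

/-! Strictly rolling polyhedra (variant of the approximation argument of
`Pool.Agent.Helper524.Mono` with strict steps). -/

open MeasureTheory Set Metric
open scoped InnerProductSpace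

namespace Q144.MS

open Pool.Agent.Helper524.Mono

/-- strict version of `Step` -/
def SStep (p q : E3 × ℝ) : Prop := q.2 * ‖p.1‖ ^ 2 < p.2 * ⟪p.1, q.1⟫_ℝ

/-- strict version of `Rolls` -/
def SRolls (T : Finset (E3 × ℝ)) (τ : E3 × ℝ) : Prop :=
  τ ∈ T ∧ ∀ p ∈ T, Relation.ReflTransGen (fun a b => b ∈ T ∧ SStep a b) p τ

/-- strict version of `StepB` -/
def SStepB (χ : E3 → ℝ) (τ0 : ℝ) (p q : E3 × ℝ) : Prop :=
  ∀ b : E3, ‖b‖ ≤ τ0 → SStep (tilt χ b p) (tilt χ b q)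

/-- strict version of `RollsB` -/
def SRollsB (χ : E3 → ℝ) (τ0 : ℝ) (T : Finset (E3 × ℝ)) (τ : E3 × ℝ) : Prop :=
  τ ∈ T ∧ ∀ p ∈ T, Relation.ReflTransGen (fun a c => c ∈ T ∧ SStepB χ τ0 a c) p τ

/-- a strictly rolling polyhedron with centroid at the origin -/
def Good (P : Set E3) : Prop :=
  IsCompact P ∧ (interior P).Nonempty ∧ ∃ (T : Finset (E3 × ℝ)) (τ : E3 × ℝ), P = poly T ∧
    (∀ p ∈ T, p.1 ≠ 0 ∧ 0 < p.2) ∧ com (poly T) = 0 ∧ SRolls T τ

lemma srolls_tiltSys {χ : E3 → ℝ} {τ0 : ℝ} {T : Finset (E3 × ℝ)} {τ : E3 × ℝ}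
    (h : SRollsB χ τ0 T τ) {b : E3} (hb : ‖b‖ ≤ τ0) :
    SRolls (tiltSys χ b T) (tilt χ b τ) := by
  refine ⟨mem_tiltSys.2 ⟨τ, h.1, rfl⟩, ?_⟩
  intro p hp
  obtain ⟨q, hq, rfl⟩ := mem_tiltSys.1 hp
  exact (h.2 q hq).lift (tilt χ b) fun a c hac => ⟨mem_tiltSys.2 ⟨c, hac.1, rfl⟩, hac.2 b hb⟩

/-- points from which `τ` is reached in at most `n` steps -/
def Lev (χ : E3 → ℝ) (τ0 : ℝ) (T : Finset (E3 × ℝ)) (τ : E3 × ℝ) : ℕ → Set (E3 × ℝ)
  | 0 => {τ}
  | (n + 1) => {p | ∃ q ∈ T, StepB χ τ0 p q ∧ q ∈ Lev χ τ0 T τ n}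

lemma exists_lev {χ : E3 → ℝ} {τ0 : ℝ} {T : Finset (E3 × ℝ)} {τ p : E3 × ℝ}
    (h : Relation.ReflTransGen (fun a c => c ∈ T ∧ StepB χ τ0 a c) p τ) :
    ∃ n, p ∈ Lev χ τ0 T τ n := by
  induction h using Relation.ReflTransGen.head_induction_on with
  | refl => exact ⟨0, rfl⟩
  | head h1 _ ih =>
    obtain ⟨n, hn⟩ := ih
    exact ⟨n + 1, _, h1.1, h1.2, hn⟩

theorem exists_system_strict (g χ : E3 → ℝ) (hg : Continuous g) (hχc : Continuous χ)
    (m R δ τ0 : ℝ)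
    (hm : 0 < m) (hgm : ∀ v : E3, ‖v‖ = 1 → m ≤ g v ∧ g v ≤ R) (hSB : SB g) (hδ : 0 < δ)
    (hD : ∀ v : E3, ‖v‖ = 1 → χ v ≠ 0 → ∃ w : E3, ‖w‖ = 1 ∧ g w + δ ≤ g v * ⟪v, w⟫_ℝ)
    (hχ : ∀ v, 0 ≤ χ v ∧ χ v ≤ 1) (hτ0 : 0 < τ0) (hτ1 : τ0 ≤ 1 / 2)
    (hτδ : τ0 * (24 * (R + 1)) ≤ δ) (t : ℝ) (ht0 : 0 < t) (ht : t < 1) :
    ∃ (T : Finset (E3 × ℝ)) (τ : E3 × ℝ), SRollsB χ τ0 T τ ∧ (∀ q ∈ T, ‖q.1‖ = 1 ∧ 0 < q.2) ∧
      ∀ b : E3, ‖b‖ ≤ τ0 → (∀ x ∈ Wulff g χ b, t • x ∈ poly (tiltSys χ b T)) ∧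
        (∀ x ∈ poly (tiltSys χ b T), t • x ∈ Wulff g χ b) := by
  classical
  set s : ℝ := (1 + t) / 2 with hs
  have hs0 : 0 < s := by linarith
  have hs1 : s < 1 := by linarith
  have hts : t < s := by linarith
  obtain ⟨T, τ, hrolls, hTq, hTW⟩ := exists_system g χ hg hχc m R δ τ0 hm hgm hSB hδ hD hχ hτ0
    hτ1 hτδ s hs0 hs1
  have hlev : ∀ p ∈ T, ∃ n, p ∈ Lev χ τ0 T τ n := fun p hp => exists_lev (hrolls.2 p hp)
  set l : E3 × ℝ → ℕ := fun p => if h : ∃ n, p ∈ Lev χ τ0 T τ n then Nat.find h else 0 with hl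
  obtain ⟨N, hN⟩ : ∃ N, ∀ p ∈ T, l p ≤ N := ⟨T.sup l, fun p hp => Finset.le_sup hp⟩
  -- the stretching factor
  obtain ⟨c, hc1, hcN⟩ : ∃ c : ℝ, 1 < c ∧ t * c ^ N ≤ s := by
    have h1 : Filter.Tendsto (fun c : ℝ => t * c ^ N) (nhds 1) (nhds (t * 1 ^ N)) := by
      have : Continuous (fun c : ℝ => t * c ^ N) := by fun_prop
      exact this.tendsto 1
    have h2 : ∀ᶠ c in nhds (1 : ℝ), t * c ^ N < s := by
      apply h1.eventually_lt_const
      rw [one_pow, mul_one]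
      exact hts
    obtain ⟨ε, hε, hε2⟩ := Metric.eventually_nhds_iff.1 h2
    refine ⟨1 + ε / 2, by linarith, (hε2 ?_).le⟩
    rw [Real.dist_eq, add_sub_cancel_left, abs_of_pos (by linarith)]
    linarith
  have hc0 : 0 < c := by linarith
  set f : E3 × ℝ → E3 × ℝ := fun p => (p.1, p.2 * c ^ (l p)) with hf
  have hstep : ∀ p ∈ T, ∀ q ∈ T, StepB χ τ0 p q → l q < l p → SStepB χ τ0 (f p) (f q) := by
    intro p hp q hq h hlt b hb
    have h1 := h b hb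
    unfold Step at h1
    unfold SStep
    simp only [tilt, hf] at h1 ⊢
    have hpn : 0 < ‖p.1 - χ p.1 • b‖ := by
      rw [norm_pos_iff]
      intro h0
      have h1 : p.1 = χ p.1 • b := sub_eq_zero.1 h0
      have h2 : ‖χ p.1 • b‖ ≤ 1 / 2 := by
        rw [norm_smul, Real.norm_eq_abs, abs_of_nonneg (hχ p.1).1]
        calc χ p.1 * ‖b‖ ≤ 1 * ‖b‖ := mul_le_mul_of_nonneg_right (hχ p.1).2 (norm_nonneg _)
          _ ≤ 1 / 2 := by rw [one_mul]; exact hb.trans hτ1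
      rw [← h1, (hTq p hp).1] at h2
      norm_num at h2
    have hpos : 0 < q.2 * ‖p.1 - χ p.1 • b‖ ^ 2 := mul_pos (hTq q hq).2 (by positivity)
    have hcc : c ^ (l q) < c ^ (l p) := pow_lt_pow_right₀ hc1 hlt
    have hcq : 0 < c ^ (l q) := by positivity
    calc q.2 * c ^ l q * ‖p.1 - χ p.1 • b‖ ^ 2 = c ^ l q * (q.2 * ‖p.1 - χ p.1 • b‖ ^ 2) := by ring
      _ < c ^ l p * (q.2 * ‖p.1 - χ p.1 • b‖ ^ 2) := mul_lt_mul_of_pos_right hcc hpos
      _ ≤ c ^ l p * (p.2 * ⟪p.1 - χ p.1 • b, q.1 - χ q.1 • b⟫_ℝ) :=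
          mul_le_mul_of_nonneg_left h1 (by positivity)
      _ = p.2 * c ^ l p * ⟪p.1 - χ p.1 • b, q.1 - χ q.1 • b⟫_ℝ := by ring
  have hlfind : ∀ p, (h : ∃ n, p ∈ Lev χ τ0 T τ n) → l p = Nat.find h := fun p h => by
    rw [hl]
    simp only [dif_pos h]
  have hkey : ∀ n, ∀ p ∈ T, l p = n →
      Relation.ReflTransGen (fun a c => c ∈ T.image f ∧ SStepB χ τ0 a c) (f p) (f τ) := by
    intro n
    induction n using Nat.strong_induction_on with
    | _ n ih =>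
      intro p hp hpn
      have hex := hlev p hp
      have hspec := Nat.find_spec hex
      rw [← hlfind p hex, hpn] at hspec
      cases n with
      | zero =>
        have : p = τ := hspec
        rw [this]
      | succ n =>
        obtain ⟨q, hq, hpq, hqn⟩ := hspec
        have hql : l q ≤ n := by
          rw [hlfind q ⟨n, hqn⟩]
          exact Nat.find_min' _ hqn
        have h1 := ih (l q) (by omega) q hq rfl
        exact Relation.ReflTransGen.head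
          ⟨Finset.mem_image_of_mem f hq, hstep p hp q hq hpq (by omega)⟩ h1
  refine ⟨T.image f, f τ, ⟨Finset.mem_image_of_mem f hrolls.1, ?_⟩, ?_, ?_⟩
  · intro p' hp'
    obtain ⟨p, hp, rfl⟩ := Finset.mem_image.1 hp'
    exact hkey _ p hp rfl
  · intro p' hp'
    obtain ⟨p, hp, rfl⟩ := Finset.mem_image.1 hp'
    exact ⟨(hTq p hp).1, mul_pos (hTq p hp).2 (by positivity)⟩
  · intro b hb
    obtain ⟨hW1, hW2⟩ := hTW b hb
    constructor
    · intro x hx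
      rw [mem_poly_tiltSys]
      intro p' hp'
      obtain ⟨p, hp, rfl⟩ := Finset.mem_image.1 hp'
      have h1 := (mem_poly_tiltSys.1 (hW1 x hx)) p hp
      simp only [hf]
      rw [real_inner_smul_right] at h1 ⊢
      have hp2 := (hTq p hp).2
      have h2 : (1 : ℝ) ≤ c ^ l p := one_le_pow₀ hc1.le
      have h3 : p.2 ≤ p.2 * c ^ l p := by nlinarith
      rcases le_or_gt ⟪p.1 - χ p.1 • b, x⟫_ℝ 0 with h4 | h4
      · have : t * ⟪p.1 - χ p.1 • b, x⟫_ℝ ≤ 0 := mul_nonpos_of_nonneg_of_nonpos ht0.le h4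
        have : 0 < p.2 * c ^ l p := by positivity
        linarith
      · nlinarith
    · intro x hx
      rw [mem_poly_tiltSys] at hx
      have hcN0 : 0 < c ^ N := by positivity
      have h1 : (c ^ N)⁻¹ • x ∈ poly (tiltSys χ b T) := by
        rw [mem_poly_tiltSys]
        intro p hp
        have h2 := hx (f p) (Finset.mem_image_of_mem f hp)
        simp only [hf] at h2
        rw [real_inner_smul_right, inv_mul_le_iff₀ hcN0]
        refine h2.trans ?_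
        rw [mul_comm]
        exact mul_le_mul_of_nonneg_right (pow_le_pow_right₀ hc1.le (hN p hp)) (hTq p hp).2.le
      have h2 := hW2 _ h1
      intro v hv
      have h3 := h2 v hv
      rw [smul_smul, real_inner_smul_right] at h3
      rw [real_inner_smul_right]
      have hg0 : 0 < g v := hm.trans_le (hgm v hv).1
      have hts' : t ≤ s * (c ^ N)⁻¹ := by
        rw [le_mul_inv_iff₀ hcN0]
        exact hcN
      rcases le_or_gt ⟪v - χ v • b, x⟫_ℝ 0 with h4 | h4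
      · have : t * ⟪v - χ v • b, x⟫_ℝ ≤ 0 := mul_nonpos_of_nonneg_of_nonpos ht0.le h4
        linarith
      · nlinarith

/-- TARGET -/
theorem wulff_main (g χ : E3 → ℝ) (hg : Continuous g) (hχc : Continuous χ) (m R δ τ0 : ℝ)
    (hm : 0 < m) (hgm : ∀ v : E3, ‖v‖ = 1 → m ≤ g v ∧ g v ≤ R) (hSB : SB g) (hδ : 0 < δ)
    (hD : ∀ v : E3, ‖v‖ = 1 → χ v ≠ 0 → ∃ w : E3, ‖w‖ = 1 ∧ g w + δ ≤ g v * ⟪v, w⟫_ℝ)
    (hχ : ∀ v, 0 ≤ χ v ∧ χ v ≤ 1) (hτ0 : 0 < τ0) (hτ1 : τ0 ≤ 1 / 2)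
    (hτδ : τ0 * (24 * (R + 1)) ≤ δ)
    (hout : ∀ b : E3, ‖b‖ = τ0 → 0 < ⟪b, ∫ x in Wulff g χ b, x⟫_ℝ)
    (t : ℝ) (ht0 : 0 < t) (ht : t < 1) :
    ∃ (b : E3) (P : Set E3), ‖b‖ ≤ τ0 ∧ Good P ∧ (∀ x ∈ Wulff g χ b, t • x ∈ P) ∧
      (∀ x ∈ P, t • x ∈ Wulff g χ b) := by
  classical
  -- basic constants
  have hunit : ∃ e : E3, ‖e‖ = 1 := ⟨EuclideanSpace.single 0 1, by simp⟩
  obtain ⟨e0, he0⟩ := hunit
  have hmR : m ≤ R := (hgm e0 he0).1.trans (hgm e0 he0).2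
  have hR0 : 0 < R := hm.trans_le hmR
  have hR2 : 0 < 2 * R := by linarith
  -- positive minimum on the sphere
  have hMcont : ContinuousOn (fun b => ∫ x in Wulff g χ b, x) (sphere (0 : E3) τ0) :=
    (wulff_continuous g χ m R hm hgm hχ).mono (sphere_subset_closedBall.trans
      (closedBall_subset_closedBall hτ1))
  have hsne : (sphere (0 : E3) τ0).Nonempty := ⟨τ0 • e0, by
    rw [mem_sphere_zero_iff_norm, norm_smul, he0, mul_one, Real.norm_eq_abs, abs_of_pos hτ0]⟩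
  obtain ⟨b1, hb1, hmin⟩ := (isCompact_sphere (0 : E3) τ0).exists_isMinOn hsne
    (continuousOn_id.inner (𝕜 := ℝ) hMcont)
  set κ : ℝ := ⟪b1, ∫ x in Wulff g χ b1, x⟫_ℝ with hκ
  have hκ0 : 0 < κ := hout b1 (mem_sphere_zero_iff_norm.1 hb1)
  have hκmin : ∀ b : E3, ‖b‖ = τ0 → κ ≤ ⟪b, ∫ x in Wulff g χ b, x⟫_ℝ := fun b hb =>
    hmin (mem_sphere_zero_iff_norm.2 hb)
  obtain ⟨t1, ht10, ht11, hclose⟩ := moment_close (2 * R) (κ / (2 * τ0)) hR2 (by positivity)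
  set s : ℝ := max t t1 with hs
  have hs0 : 0 < s := lt_max_of_lt_left ht0
  have hs1 : s < 1 := max_lt ht ht11
  have hts : t ≤ s := le_max_left _ _
  have ht1s : t1 ≤ s := le_max_right _ _
  obtain ⟨T, τ, hrolls, hTq, hTW⟩ := exists_system_strict g χ hg hχc m R δ τ0 hm hgm hSB hδ hD hχ
    hτ0 hτ1 hτδ s hs0 hs1
  -- basic facts on W and P
  have hW : ∀ b : E3, ‖b‖ ≤ τ0 → IsCompact (Wulff g χ b) ∧ Convex ℝ (Wulff g χ b) ∧
      closedBall 0 (m / 2) ⊆ Wulff g χ b ∧ Wulff g χ b ⊆ closedBall 0 (2 * R) := fun b hb =>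
    wulff_basic g χ m R hm hgm hχ b (hb.trans hτ1)
  have hW0 : ∀ b : E3, ‖b‖ ≤ τ0 → (0 : E3) ∈ Wulff g χ b := fun b hb =>
    (hW b hb).2.2.1 (mem_closedBall_self (by positivity))
  have hPclosed : ∀ b : E3, IsClosed (poly (tiltSys χ b T)) := by
    intro b
    have : poly (tiltSys χ b T) = ⋂ p ∈ tiltSys χ b T, {x : E3 | ⟪p.1, x⟫_ℝ ≤ p.2} := by
      ext x
      simp only [poly, Set.mem_ofPred_eq, Set.mem_iInter]
    rw [this]
    refine isClosed_biInter fun p _ => ?_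
    exact isClosed_le (by fun_prop) continuous_const
  have hPconv : ∀ b : E3, Convex ℝ (poly (tiltSys χ b T)) := by
    intro b x hx y hy α β hα hβ hαβ p hp
    have h1 := hx p hp
    have h2 := hy p hp
    rw [inner_add_right, real_inner_smul_right, real_inner_smul_right]
    calc α * ⟪p.1, x⟫_ℝ + β * ⟪p.1, y⟫_ℝ ≤ α * p.2 + β * p.2 :=
          add_le_add (mul_le_mul_of_nonneg_left h1 hα) (mul_le_mul_of_nonneg_left h2 hβ)
      _ = p.2 := by rw [← add_mul, hαβ, one_mul]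
  have hPball : ∀ b : E3, ‖b‖ ≤ τ0 → poly (tiltSys χ b T) ⊆ closedBall 0 (2 * R / s) := by
    intro b hb x hx
    have h1 := (hW b hb).2.2.2 ((hTW b hb).2 x hx)
    rw [mem_closedBall_zero_iff, norm_smul, Real.norm_eq_abs, abs_of_pos hs0] at h1
    rw [mem_closedBall_zero_iff, le_div_iff₀ hs0]
    linarith
  have hPcomp : ∀ b : E3, ‖b‖ ≤ τ0 → IsCompact (poly (tiltSys χ b T)) := fun b hb =>
    (isCompact_closedBall (0 : E3) (2 * R / s)).of_isClosed_subset (hPclosed b) (hPball b hb)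
  have hPin : ∀ b : E3, ‖b‖ ≤ τ0 → closedBall 0 (s * (m / 2)) ⊆ poly (tiltSys χ b T) := by
    intro b hb y hy
    rw [mem_closedBall_zero_iff] at hy
    have h1 : s⁻¹ • y ∈ Wulff g χ b := (hW b hb).2.2.1 (by
      rw [mem_closedBall_zero_iff, norm_smul, norm_inv, Real.norm_eq_abs, abs_of_pos hs0,
        inv_mul_le_iff₀ hs0]
      exact hy)
    have h2 := (hTW b hb).1 _ h1
    rwa [smul_smul, mul_inv_cancel₀ hs0.ne', one_smul] at h2
  have hP0 : ∀ b : E3, ‖b‖ ≤ τ0 → (0 : E3) ∈ poly (tiltSys χ b T) := fun b hb =>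
    hPin b hb (mem_closedBall_self (by positivity))
  -- minimum of the right hand sides
  obtain ⟨q0, hq0, hq0min⟩ := T.exists_min_image (fun q => q.2) ⟨τ, hrolls.1⟩
  have hμ : 0 < q0.2 := (hTq q0 hq0).2
  -- continuity of the moment of P
  have hPcont : ContinuousOn (fun b => ∫ x in poly (tiltSys χ b T), x) (closedBall (0 : E3) τ0) := by
    refine moment_continuous (fun b => poly (tiltSys χ b T)) (closedBall (0 : E3) τ0) (2 * R / s)
      (by positivity) ?_ ?_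
    · intro b hb
      rw [mem_closedBall_zero_iff] at hb
      exact ⟨hPcomp b hb, hPconv b, hP0 b hb, hPball b hb⟩
    · intro b hb t' ht'0 ht'1
      rw [mem_closedBall_zero_iff] at hb
      refine ⟨(1 - t') * q0.2 / (2 * R / s), div_pos (mul_pos (by linarith) hμ) (by positivity), ?_⟩
      intro b' hb' hdist
      rw [mem_closedBall_zero_iff] at hb'
      rw [dist_eq_norm, lt_div_iff₀ (by positivity)] at hdist
      have key : ∀ a a' : E3, ‖a‖ ≤ τ0 → ‖a - a'‖ * (2 * R / s) ≤ (1 - t') * q0.2 →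
          ∀ x ∈ poly (tiltSys χ a T), t' • x ∈ poly (tiltSys χ a' T) := by
        intro a a' ha haa x hx
        rw [mem_poly_tiltSys]
        intro q hq
        have h1 := (mem_poly_tiltSys.1 hx) q hq
        have h2 : ⟪q.1 - χ q.1 • a', t' • x⟫_ℝ =
            t' * ⟪q.1 - χ q.1 • a, x⟫_ℝ + t' * (χ q.1 * ⟪a - a', x⟫_ℝ) := by
          simp only [inner_sub_left, real_inner_smul_left, real_inner_smul_right]
          ring
        have h3 : ⟪a - a', x⟫_ℝ ≤ (1 - t') * q0.2 := by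
          have h31 : ⟪a - a', x⟫_ℝ ≤ ‖a - a'‖ * ‖x‖ := real_inner_le_norm _ _
          have h32 : ‖x‖ ≤ 2 * R / s := mem_closedBall_zero_iff.1 (hPball a ha hx)
          have h33 := mul_le_mul_of_nonneg_left h32 (norm_nonneg (a - a'))
          linarith
        have hpos : 0 ≤ (1 - t') * q0.2 := mul_nonneg (by linarith) hμ.le
        have h4 : t' * (χ q.1 * ⟪a - a', x⟫_ℝ) ≤ (1 - t') * q0.2 := by
          have h41 : χ q.1 * ⟪a - a', x⟫_ℝ ≤ (1 - t') * q0.2 := by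
            rcases le_total 0 ⟪a - a', x⟫_ℝ with h0 | h0
            · calc χ q.1 * ⟪a - a', x⟫_ℝ ≤ 1 * ⟪a - a', x⟫_ℝ :=
                    mul_le_mul_of_nonneg_right (hχ q.1).2 h0
                _ ≤ (1 - t') * q0.2 := by rw [one_mul]; exact h3
            · exact (mul_nonpos_of_nonneg_of_nonpos (hχ q.1).1 h0).trans hpos
          rcases le_total 0 (χ q.1 * ⟪a - a', x⟫_ℝ) with h0 | h0
          · calc t' * (χ q.1 * ⟪a - a', x⟫_ℝ) ≤ 1 * (χ q.1 * ⟪a - a', x⟫_ℝ) :=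
                  mul_le_mul_of_nonneg_right ht'1.le h0
              _ ≤ (1 - t') * q0.2 := by rw [one_mul]; exact h41
          · exact (mul_nonpos_of_nonneg_of_nonpos ht'0.le h0).trans hpos
        have h5 : q0.2 ≤ q.2 := hq0min q hq
        have h6 : t' * ⟪q.1 - χ q.1 • a, x⟫_ℝ ≤ t' * q.2 := mul_le_mul_of_nonneg_left h1 ht'0.le
        have h7 : (1 - t') * q0.2 ≤ (1 - t') * q.2 :=
          mul_le_mul_of_nonneg_left h5 (by linarith)
        rw [h2]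
        linarith
      refine ⟨key b b' hb ?_, key b' b hb' hdist.le⟩
      rw [norm_sub_rev]
      exact hdist.le
  -- outward on the sphere
  have hout' : ∀ b : E3, ‖b‖ = τ0 → 0 < ⟪b, ∫ x in poly (tiltSys χ b T), x⟫_ℝ := by
    intro b hb
    have hbl : ‖b‖ ≤ τ0 := hb.le
    have h1 := (hclose s ht1s hs1 (Wulff g χ b) (poly (tiltSys χ b T)) (hW b hbl).1 (hW b hbl).2.1
      (hPcomp b hbl) (hW0 b hbl) (hP0 b hbl) (hW b hbl).2.2.2 (hTW b hbl).1 (hTW b hbl).2).1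
    have h2 := hκmin b hb
    have h3 : ⟪b, (∫ x in Wulff g χ b, x) - ∫ x in poly (tiltSys χ b T), x⟫_ℝ ≤
        ‖b‖ * ‖(∫ x in Wulff g χ b, x) - ∫ x in poly (tiltSys χ b T), x‖ := real_inner_le_norm _ _
    rw [hb, inner_sub_right] at h3
    have h4 : τ0 * ‖(∫ x in Wulff g χ b, x) - ∫ x in poly (tiltSys χ b T), x‖ <
        τ0 * (κ / (2 * τ0)) := mul_lt_mul_of_pos_left h1 hτ0
    have h5 : τ0 * (κ / (2 * τ0)) = κ / 2 := by
      field_simp
    rw [h5] at h4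
    linarith
  obtain ⟨b, hb, hbz⟩ := zero_of_outward (fun b => ∫ x in poly (tiltSys χ b T), x) τ0 hτ0 hPcont
    hout'
  rw [mem_closedBall_zero_iff] at hb
  have hcom : com (poly (tiltSys χ b T)) = 0 := by
    unfold com
    rw [show ∫ x in poly (tiltSys χ b T), x = 0 from hbz, smul_zero]
  have hT' : ∀ p ∈ tiltSys χ b T, p.1 ≠ 0 ∧ 0 < p.2 := by
    intro p hp
    obtain ⟨q, hq, rfl⟩ := mem_tiltSys.1 hp
    refine ⟨?_, (hTq q hq).2⟩
    intro h0
    have h1 : q.1 = χ q.1 • b := sub_eq_zero.1 h0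
    have h2 : ‖χ q.1 • b‖ ≤ 1 / 2 := by
      rw [norm_smul, Real.norm_eq_abs, abs_of_nonneg (hχ q.1).1]
      calc χ q.1 * ‖b‖ ≤ 1 * ‖b‖ := mul_le_mul_of_nonneg_right (hχ q.1).2 (norm_nonneg _)
        _ ≤ 1 / 2 := by rw [one_mul]; exact hb.trans hτ1
    rw [← h1, (hTq q hq).1] at h2
    norm_num at h2
  have hRolls := srolls_tiltSys hrolls hb
  have hpol : (interior (poly (tiltSys χ b T))).Nonempty := by
    refine ⟨0, ?_⟩
    rw [mem_interior]
    refine ⟨ball 0 (s * (m / 2)), ball_subset_closedBall.trans (hPin b hb), isOpen_ball,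
      mem_ball_self (by positivity)⟩
  have hscale : ∀ A : Set E3, Convex ℝ A → (0 : E3) ∈ A → ∀ x : E3, s • x ∈ A → t • x ∈ A := by
    intro A hA h0 x hx
    have h1 : t • x = (t / s) • (s • x) := by
      rw [smul_smul, div_mul_cancel₀ _ hs0.ne']
    rw [h1]
    exact hA.smul_mem_of_zero_mem h0 hx ⟨by positivity, (div_le_one hs0).2 hts⟩
  refine ⟨b, poly (tiltSys χ b T), hb,
    ⟨hPcomp b hb, hpol, _, _, rfl, hT', hcom, hRolls⟩, ?_, ?_⟩
  · intro x hx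
    exact hscale _ (hPconv b) (hP0 b hb) x ((hTW b hb).1 x hx)
  · intro x hx
    exact hscale _ (hW b hb).2.1 (hW0 b hb) x ((hTW b hb).2 x hx)



end Q144.MS
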