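import Pool.Agent.Q144.MSa

set_option autoImplicit false

/-! Strictly rolling polyhedra approximate every centred body with a single basin (variant of
`Pool.Agent.Helper524.Mono`). -/

open MeasureTheory Set Metric
open scoped InnerProductSpace

namespace Q144.MS

open Pool.Agent.Helper524.Mono hiding wulff_main core approx_of_spanning approx_of_raise approx_closed suff_centered
open Pool.Agent.Helper524.Mono.N_approx_of_raise hiding approx_of_raise
open Pool.Agent.Helper524.Mono.N_suff_centered hiding fam_step suff_centered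

/-- `K` is a limit of strictly rolling polyhedra. -/
def App (K : Set E3) : Prop :=
  ∀ ε : ℝ, 0 < ε → ∃ P : Set E3, Good P ∧ hausdorffDist K P < ε

theorem core (K : Set E3) (hK : CB K) (hSB : SB (supp K)) (χ : E3 → ℝ) (hχc : Continuous χ)
    (hχ : ∀ v, 0 ≤ χ v ∧ χ v ≤ 1) (δ : ℝ) (hδ : 0 < δ)
    (hD : ∀ v : E3, ‖v‖ = 1 → χ v ≠ 0 → ∃ w : E3, ‖w‖ = 1 ∧
      supp K w + δ ≤ supp K v * ⟪v, w⟫_ℝ)
    (hne : ∀ b : E3, b ≠ 0 → ‖b‖ ≤ 1 / 2 → Wulff (supp K) χ b ≠ K) : App K := by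
  
  obtain ⟨hKc, hKconv, hK0, hKint⟩ := hK
  have hKne : K.Nonempty := ⟨0, interior_subset hK0⟩
  obtain ⟨m, hm, hmK⟩ := Metric.nhds_basis_closedBall.mem_iff.1 (mem_interior_iff_mem_nhds.1 hK0)
  obtain ⟨R0, hR0⟩ := hKc.isBounded.subset_closedBall (0 : E3)
  set R : ℝ := max R0 1 with hR
  have hR1 : 1 ≤ R := le_max_right _ _
  have hKR : K ⊆ closedBall 0 R := hR0.trans (closedBall_subset_closedBall (le_max_left _ _))
  have hgm : ∀ v : E3, ‖v‖ = 1 → m ≤ supp K v ∧ supp K v ≤ R := fun v hv =>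
    ⟨le_supp_of_ball hKc hm.le hmK hv, supp_le_of_subset_ball hKne hKR hv⟩
  have hW0 : Wulff (supp K) χ 0 = K := by
    ext x
    constructor
    · intro h
      apply mem_of_inner_le_supp hKc hKconv hKne
      intro u hu
      have := h u hu
      rwa [smul_zero, sub_zero] at this
    · intro hx v hv
      rw [smul_zero, sub_zero]
      exact inner_le_supp hKc hx v
  intro ε hε
  obtain ⟨t, ht12, ht1, htε⟩ : ∃ t : ℝ, 1 / 2 ≤ t ∧ t < 1 ∧ 8 * R * (1 - t) < ε := by
    refine ⟨max (1/2) (1 - ε / (16 * R)), le_max_left _ _, ?_, ?_⟩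
    · apply max_lt (by norm_num)
      have : 0 < ε / (16 * R) := by positivity
      linarith
    · have h1 : 1 - max (1/2) (1 - ε / (16 * R)) ≤ ε / (16 * R) := by
        have := le_max_right (1/2) (1 - ε / (16 * R))
        linarith
      have h2 : 8 * R * (ε / (16 * R)) = ε / 2 := by field_simp; norm_num
      have h3 := mul_le_mul_of_nonneg_left h1 (show 0 ≤ 8 * R by positivity)
      linarith
  have ht0 : 0 < t := by linarith
  set τ0 : ℝ := min (1/2) (min (δ / (24 * (R + 1))) ((1 - t) * m / (1 + 2 * R))) with hτ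
  have h1t : 0 < 1 - t := by linarith
  have hτ0 : 0 < τ0 := by
    rw [hτ]
    apply lt_min (by norm_num)
    apply lt_min <;> positivity
  have hτ1 : τ0 ≤ 1 / 2 := min_le_left _ _
  have hτ2 : τ0 * (24 * (R + 1)) ≤ δ := by
    have : τ0 ≤ δ / (24 * (R + 1)) := (min_le_right _ _).trans (min_le_left _ _)
    rwa [le_div_iff₀ (by positivity)] at this
  have hτ3 : τ0 * (1 + 2 * R) ≤ (1 - t) * m := by
    have : τ0 ≤ (1 - t) * m / (1 + 2 * R) := (min_le_right _ _).trans (min_le_right _ _)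
    rwa [le_div_iff₀ (by positivity)] at this
  have hout : ∀ b : E3, ‖b‖ = τ0 → 0 < ⟪b, ∫ x in Wulff (supp K) χ b, x⟫_ℝ := by
    intro b hb
    have hb0 : b ≠ 0 := by
      intro h; rw [h, norm_zero] at hb; linarith
    have h := (wulff_gain (supp K) χ m R hm hgm hχ b (hb.le.trans hτ1)).2 (by
      rw [hW0]; exact (hne b hb0 (hb.le.trans hτ1)).symm)
    rwa [hW0, hKint, inner_zero_right] at h
  obtain ⟨b, P, hb, hP, hWP, hPW⟩ := wulff_main (supp K) χ (continuous_supp hKc hKne) hχc m R δ τ0 hm hgm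
    hSB hδ hD hχ hτ0 hτ1 hτ2 hout t ht0 ht1
  have s1 := wulff_sandwich (supp K) (supp K) χ m R τ0 t hm hgm hgm hχ b 0 (hb.trans hτ1)
    (fun v _ => by rw [sub_self, abs_zero]; exact hτ0.le) (by rw [sub_zero]; exact hb) ht0 ht1 hτ3
  have s2 := wulff_sandwich (supp K) (supp K) χ m R τ0 t hm hgm hgm hχ 0 b (by rw [norm_zero]; norm_num)
    (fun v _ => by rw [sub_self, abs_zero]; exact hτ0.le) (by rw [zero_sub, norm_neg]; exact hb) ht0 ht1 hτ3
  rw [hW0] at s1 s2
  have hWb := (wulff_basic (supp K) χ m R hm hgm hχ b (hb.trans hτ1)).2.2.2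
  refine ⟨P, hP, ?_⟩
  have hRt : R ≤ 2 * R / t := by
    rw [le_div_iff₀ ht0]; nlinarith
  have hPR : P ⊆ closedBall 0 (2 * R / t) := by
    intro x hx
    have := hWb (hPW x hx)
    rw [mem_closedBall_zero_iff, norm_smul, Real.norm_of_nonneg ht0.le] at this
    rw [mem_closedBall_zero_iff, le_div_iff₀ ht0]
    linarith
  have hfin := hausdorff_of_sandwich K P (2 * R / t) (t ^ 2) (by positivity) (by positivity)
    (by nlinarith) (hKR.trans (closedBall_subset_closedBall hRt)) hPR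
    (fun x hx => by rw [pow_two, mul_smul]; exact hWP _ (s2 x hx))
    (fun x hx => by rw [pow_two, mul_smul]; exact s1 _ (hPW x hx))
  refine lt_of_le_of_lt hfin (lt_of_le_of_lt ?_ htε)
  have h5 : 2 * R / t ≤ 4 * R := by
    rw [div_le_iff₀ ht0]; nlinarith
  have h6 : 1 - t ^ 2 ≤ 2 * (1 - t) := by nlinarith [sq_nonneg (1 - t)]
  have h7 : 0 ≤ 1 - t ^ 2 := by nlinarith
  calc (1 - t ^ 2) * (2 * R / t) ≤ (2 * (1 - t)) * (4 * R) := by gcongr
    _ = 8 * R * (1 - t) := by ring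




theorem approx_of_spanning (K : Set E3) (hK : CB K) (hSB : SB (supp K))
    (h : ∀ b : E3, b ≠ 0 → ∃ x ∈ XJ K, ⟪b, x⟫_ℝ < 0) : App K := by
  obtain ⟨hKc, hKconv, hK0, -⟩ := id hK
  obtain ⟨hc1, hc2, hc3⟩ := chi_props K hKc hKconv hK0
  have hδ : ∀ k : ℕ, (0 : ℝ) < 1 / ((k : ℝ) + 1) := fun k => by positivity
  by_cases hk : ∃ k : ℕ, ∀ b : E3, b ≠ 0 → ‖b‖ ≤ 1 / 2 →
      Wulff (supp K) (chi K (1 / ((k : ℝ) + 1))) b ≠ K
  · obtain ⟨k, hk⟩ := hk
    exact core K hK hSB (chi K (1 / ((k : ℝ) + 1))) (hc1 _).1 (hc1 _).2 (1 / ((k : ℝ) + 1)) (hδ k)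
      (hc2 _) hk
  · exfalso
    push Not at hk
    choose b hb0 hb1 hb2 using hk
    have hβ : ∀ k, ‖b k‖⁻¹ • b k ∈ sphere (0 : E3) 1 := by
      intro k
      rw [mem_sphere_zero_iff_norm, norm_smul, norm_inv, norm_norm]
      exact inv_mul_cancel₀ (norm_ne_zero_iff.2 (hb0 k))
    obtain ⟨β, hβ1, φ, hφ, hlim⟩ := (isCompact_sphere (0 : E3) 1).tendsto_subseq hβ
    have hβ0 : β ≠ 0 := by
      rintro rfl
      simp at hβ1
    obtain ⟨x, ⟨hxK, n, hn, hnx, hnK⟩, hlt⟩ := h β hβ0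
    obtain ⟨δ0, hδ0, r, hr, hpos⟩ := hc3 n hn hnK
    have hev : ∀ᶠ k : ℕ in Filter.atTop, 1 / ((k : ℝ) + 1) ≤ δ0 :=
      (tendsto_one_div_add_atTop_nhds_zero_nat (𝕜 := ℝ)).eventually (ge_mem_nhds hδ0)
    have hbx : ∀ k : ℕ, 1 / ((k : ℝ) + 1) ≤ δ0 → 0 ≤ ⟪‖b k‖⁻¹ • b k, x⟫_ℝ := by
      intro k hk
      have h1 := hpos _ (hδ k) hk n hn (by simpa using hr)
      have h2 : x ∈ Wulff (supp K) (chi K (1 / ((k : ℝ) + 1))) (b k) := by
        rw [hb2 k]
        exact hxK
      have h3 := h2 n hn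
      rw [inner_sub_left, real_inner_smul_left, hnx] at h3
      rw [real_inner_smul_left]
      apply mul_nonneg (by positivity)
      by_contra hc
      push Not at hc
      have := mul_neg_of_pos_of_neg h1 hc
      linarith
    have hlim2 : Filter.Tendsto (fun k => ⟪‖b (φ k)‖⁻¹ • b (φ k), x⟫_ℝ) Filter.atTop
        (nhds ⟪β, x⟫_ℝ) := by
      have hcont : Continuous (fun y : E3 => ⟪y, x⟫_ℝ) := by fun_prop
      exact (hcont.tendsto β).comp hlim
    have h4 : 0 ≤ ⟪β, x⟫_ℝ := by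
      apply ge_of_tendsto hlim2
      filter_upwards [hφ.tendsto_atTop.eventually hev] with k hk
      exact hbx (φ k) hk
    linarith



theorem approx_closed (K : Set E3) (hK : IsBody K)
    (h : ∀ ε : ℝ, 0 < ε → ∃ K' : Set E3, IsBody K' ∧ App K' ∧ hausdorffDist K K' < ε) :
    App K := by
  intro ε hε
  obtain ⟨K', hK', hap, hd⟩ := h (ε / 2) (by linarith)
  obtain ⟨P, hP, hd'⟩ := hap (ε / 2) (by linarith)
  refine ⟨P, hP, ?_⟩
  have hfin : hausdorffEDist K K' ≠ ⊤ :=
    hausdorffEDist_ne_top_of_nonempty_of_bounded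
      (hK.2.2.mono interior_subset) (hK'.2.2.mono interior_subset) hK.1.isBounded hK'.1.isBounded
  have h1 := hausdorffDist_triangle (u := P) hfin
  linarith



theorem approx_of_raise (K : Set E3) (hK : CB K) (hSB : SB (supp K)) (v0 : E3)
    (hv0 : ‖v0‖ = 1) (hmin : ∀ v : E3, ‖v‖ = 1 → supp K v0 ≤ supp K v)
    (h3 : ∀ b : E3, ‖b‖ = 1 → (∀ x ∈ XJ K, 0 ≤ ⟪b, x⟫_ℝ) → supp K v0 < supp K (-b)) :
    App K := by
  obtain ⟨hKc, hc, h0, hmom⟩ := hK
  have hne : K.Nonempty := ⟨0, interior_subset h0⟩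
  by_cases hB : (axB K).Nonempty
  swap
  · refine approx_of_spanning K ⟨hKc, hc, h0, hmom⟩ hSB fun b hb => ?_
    by_contra hcon
    push Not at hcon
    apply hB
    have hn : 0 < ‖b‖ := norm_pos_iff.2 hb
    refine ⟨‖b‖⁻¹ • b, ?_, ?_⟩
    · rw [norm_smul, norm_inv, norm_norm, inv_mul_cancel₀ hn.ne']
    · intro x hx
      rw [real_inner_smul_left]
      exact mul_nonneg (inv_nonneg.2 hn.le) (hcon x hx)
  set m := supp K v0 with hm_def
  have hm : 0 < m := by
    obtain ⟨r, hr, hrs⟩ := Metric.isOpen_iff.1 isOpen_interior 0 h0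
    have hball : closedBall (0 : E3) (r / 2) ⊆ K :=
      (closedBall_subset_ball (by linarith)).trans (hrs.trans interior_subset)
    have := le_supp_of_ball hKc (by linarith : (0:ℝ) ≤ r / 2) hball hv0
    linarith
  obtain ⟨R0, hR0⟩ := hKc.isBounded.subset_closedBall (0 : E3)
  set R := max R0 m with hRdef
  have hR : K ⊆ closedBall (0 : E3) R := hR0.trans (closedBall_subset_closedBall (le_max_left _ _))
  have hRm : m ≤ R := le_max_right _ _
  obtain ⟨s1, ζ, hs1, hs1', hζ, hfar⟩ := ax_far hKc hc h0 hmom hm hv0 hm_def.symm hmin hB (fun b hb => h3 b hb.1 hb.2)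
  obtain ⟨δ, hδ, hδP⟩ := ax_delta hKc hc h0 hζ
  obtain ⟨hχc, hχ⟩ := (chi_props K hKc hc h0).1 δ
  have hχD := (chi_props K hKc hc h0).2.1 δ
  intro ε hε
  set η := min (1 / 2) (ε / (16 * (R + 1))) with hη
  have hηpos : 0 < η := lt_min (by norm_num) (by positivity)
  have hη1 : η ≤ 1 / 2 := min_le_left _ _
  have hη2 : η ≤ ε / (16 * (R + 1)) := min_le_right _ _
  have hden : 0 < 1 + 2 * (R + 1) := by linarith
  set κ := η * m / (1 + 2 * (R + 1)) with hκ
  have hκpos : 0 < κ := by positivity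
  set τ0 := min (1 / 2) (min (δ / (48 * (R + 2))) κ) with hτ0
  have hτpos : 0 < τ0 := lt_min (by norm_num) (lt_min (by positivity) hκpos)
  have hτ1 : τ0 ≤ 1 / 2 := min_le_left _ _
  have hτ2 : τ0 ≤ δ / (48 * (R + 2)) := (min_le_right _ _).trans (min_le_left _ _)
  have hτ3 : τ0 ≤ κ := (min_le_right _ _).trans (min_le_right _ _)
  obtain ⟨s, hs, hss, hcl⟩ := ax_claim hKc hc h0 hmom hm hR hRm hmin hs1' hτpos hτ1 hfar hδP (min s1 (min (δ / 2) κ))
    (lt_min hs1 (lt_min (by linarith) hκpos)) (min_le_left _ _)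
  have hss1 : s ≤ s1 := hss.trans (min_le_left _ _)
  have hs1'' : s ≤ 1 := hss1.trans hs1'
  have hsδ : s ≤ δ / 2 := hss.trans ((min_le_right _ _).trans (min_le_left _ _))
  have hsκ : s ≤ κ := hss.trans ((min_le_right _ _).trans (min_le_right _ _))
  have hgb := axg_bounds hne hR hRm hs.le hs1''
  have hgc : Continuous (axg K (m + s)) := (continuous_supp hKc hne).max continuous_const
  have hSBg : SB (axg K (m + s)) := by
    intro r
    by_cases hr : r ≤ m + s
    · have : {u : E3 | ‖u‖ = 1 ∧ axg K (m + s) u < r} = ∅ := by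
        ext u
        simp only [Set.mem_ofPred_eq, Set.mem_empty_iff_false, iff_false, not_and, not_lt]
        intro _
        exact hr.trans (le_max_right _ _)
      rw [this]
      exact isPreconnected_empty
    · have : {u : E3 | ‖u‖ = 1 ∧ axg K (m + s) u < r} = {u : E3 | ‖u‖ = 1 ∧ supp K u < r} := by
        ext u
        simp only [Set.mem_ofPred_eq, axg, max_lt_iff]
        constructor
        · rintro ⟨a, b, _⟩; exact ⟨a, b⟩
        · rintro ⟨a, b⟩; exact ⟨a, b, not_le.1 hr⟩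
      rw [this]
      exact hSB r
  have hgD : ∀ v : E3, ‖v‖ = 1 → chi K δ v ≠ 0 → ∃ w : E3, ‖w‖ = 1 ∧
      axg K (m + s) w + δ / 2 ≤ axg K (m + s) v * ⟪v, w⟫_ℝ := by
    intro v hv hcv
    obtain ⟨w, hw, hw2⟩ := hχD v hv hcv
    refine ⟨w, hw, ?_⟩
    have h1 : m ≤ supp K w := hmin w hw
    have h2 : m ≤ supp K v := hmin v hv
    have h4 : 0 < supp K v * ⟪v, w⟫_ℝ := by linarith
    have h5 : 0 < ⟪v, w⟫_ℝ := by
      by_contra h
      push Not at h
      have : supp K v * ⟪v, w⟫_ℝ ≤ 0 := mul_nonpos_of_nonneg_of_nonpos (by linarith) h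
      linarith
    have h6 : axg K (m + s) w ≤ supp K w + s := max_le (by linarith) (by linarith)
    have h7 : supp K v * ⟪v, w⟫_ℝ ≤ axg K (m + s) v * ⟪v, w⟫_ℝ :=
      mul_le_mul_of_nonneg_right (le_max_left _ _) h5.le
    linarith
  set t := 1 - η with ht
  have ht0 : 0 < t := by linarith
  have ht1 : t < 1 := by linarith
  have hthalf : 1 / 2 ≤ t := by linarith
  have hτδ : τ0 * (24 * ((R + 1) + 1)) ≤ δ / 2 := by
    have h1 : τ0 * (24 * ((R + 1) + 1)) ≤ δ / (48 * (R + 2)) * (24 * ((R + 1) + 1)) :=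
      mul_le_mul_of_nonneg_right hτ2 (by linarith)
    have h2 : δ / (48 * (R + 2)) * (24 * ((R + 1) + 1)) = δ / 2 := by
      have : R + 2 ≠ 0 := by linarith
      have h3 : (R + 1) + 1 = R + 2 := by ring
      rw [h3]
      field_simp
      norm_num
    linarith
  obtain ⟨b, P, hb, hP, hWP, hPW⟩ := wulff_main (axg K (m + s)) (chi K δ) hgc hχc m (R + 1) (δ / 2) τ0 hm hgb hSBg
    (by linarith) hgD hχ hτpos hτ1 hτδ hcl t ht0 ht1
  have hb2 : ‖b‖ ≤ 1 / 2 := hb.trans hτ1
  refine ⟨P, hP, ?_⟩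
  have hW0 : Wulff (supp K) (chi K δ) 0 = K := ax_wulff_zero_supp hKc hc hne _
  have hsb : ∀ v : E3, ‖v‖ = 1 → m ≤ supp K v ∧ supp K v ≤ R + 1 := fun v hv =>
    ⟨hmin v hv, by linarith [supp_le_of_subset_ball hne hR hv]⟩
  have hdiff : ∀ v : E3, ‖v‖ = 1 → |supp K v - axg K (m + s) v| ≤ κ := by
    intro v hv
    have h1 : supp K v ≤ axg K (m + s) v := le_max_left _ _
    have h2 : axg K (m + s) v ≤ supp K v + s := max_le (by linarith) (by linarith [hmin v hv])
    rw [abs_le]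
    constructor <;> linarith
  have hκt : κ * (1 + 2 * (R + 1)) ≤ (1 - t) * m := by
    rw [hκ, div_mul_cancel₀ _ hden.ne', ht]
    linarith
  have hA1 : ∀ x ∈ K, t • x ∈ Wulff (axg K (m + s)) (chi K δ) b := by
    have := wulff_sandwich (supp K) (axg K (m + s)) (chi K δ) m (R + 1) κ t hm hsb hgb hχ 0 b
      (by rw [norm_zero]; norm_num) hdiff (by rw [zero_sub, norm_neg]; exact hb.trans hτ3) ht0 ht1 hκt
    rw [hW0] at this
    exact this
  have hA2 : ∀ x ∈ Wulff (axg K (m + s)) (chi K δ) b, t • x ∈ K := by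
    have := wulff_sandwich (axg K (m + s)) (supp K) (chi K δ) m (R + 1) κ t hm hgb hsb hχ b 0
      hb2 (fun v hv => by rw [abs_sub_comm]; exact hdiff v hv) (by rw [sub_zero]; exact hb.trans hτ3) ht0 ht1 hκt
    rw [hW0] at this
    exact this
  have hWball := (wulff_basic (axg K (m + s)) (chi K δ) m (R + 1) hm hgb hχ b hb2).2.2.2
  have hPball : P ⊆ closedBall (0 : E3) (4 * (R + 1)) := by
    intro x hx
    have h1 := mem_closedBall_zero_iff.1 (hWball (hPW x hx))
    rw [norm_smul, Real.norm_eq_abs, abs_of_pos ht0] at h1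
    rw [mem_closedBall_zero_iff]
    have h2 : 1 / 2 * ‖x‖ ≤ t * ‖x‖ := mul_le_mul_of_nonneg_right hthalf (norm_nonneg _)
    linarith
  have hKball : K ⊆ closedBall (0 : E3) (4 * (R + 1)) :=
    hR.trans (closedBall_subset_closedBall (by linarith))
  have htt : t * t < 1 := by nlinarith
  have hHd := hausdorff_of_sandwich K P (4 * (R + 1)) (t * t) (by linarith) (by positivity) htt hKball hPball
    (fun x hx => by rw [mul_smul]; exact hWP _ (hA1 x hx))
    (fun x hx => by rw [mul_smul]; exact hA2 _ (hPW x hx))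
  refine hHd.trans_lt ?_
  have h1 : (1 - t * t) ≤ 2 * η := by
    rw [ht]; nlinarith
  have h2 : (1 - t * t) * (4 * (R + 1)) ≤ 2 * η * (4 * (R + 1)) := mul_le_mul_of_nonneg_right h1 (by linarith)
  have h3 : η * (16 * (R + 1)) ≤ ε := by
    have h4 : 0 < 16 * (R + 1) := by linarith
    rw [le_div_iff₀ h4] at hη2
    exact hη2
  have h5 : 2 * η * (4 * (R + 1)) = (η * (16 * (R + 1))) / 2 := by ring
  linarith




lemma fam_step (K : Set E3) (hK : CB K) (hSB : SB (supp K)) (j : ℕ) (hF : Fam K j)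
    (hnext : ∀ K' : Set E3, CB K' → SB (supp K') → Fam K' (j + 1) → App K') :
    App K := by
  have hKc := hK.1
  have hKv := hK.2.1
  have h0i := hK.2.2.1
  have h0 : (0 : E3) ∈ K := interior_subset h0i
  have hne : K.Nonempty := ⟨0, h0⟩
  -- minimiser
  have hsph : IsCompact (sphere (0 : E3) 1) := isCompact_sphere _ _
  have hsne : (sphere (0 : E3) 1).Nonempty := NormedSpace.sphere_nonempty.2 zero_le_one
  obtain ⟨v0, hv0, hv0m⟩ := hsph.exists_isMinOn hsne (continuous_supp hKc hne).continuousOn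
  have hv0n : ‖v0‖ = 1 := by simpa using hv0
  have hmin0 : ∀ v : E3, ‖v‖ = 1 → supp K v0 ≤ supp K v := by
    intro v hv
    exact hv0m (by simpa using hv)
  by_cases h3 : ∀ b : E3, ‖b‖ = 1 → (∀ x ∈ XJ K, 0 ≤ ⟪b, x⟫_ℝ) → supp K v0 < supp K (-b)
  · exact approx_of_raise K hK hSB v0 hv0n hmin0 h3
  push Not at h3
  obtain ⟨b, hb, hB, hbm⟩ := h3
  have hmin1 : ∀ v : E3, ‖v‖ = 1 → supp K (-b) ≤ supp K v := fun v hv =>
    hbm.trans (hmin0 v hv)
  have hrig := rigid K hK b hb hB hmin1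
  have hbb : ⟪b, b⟫_ℝ = 1 := by rw [real_inner_self_eq_norm_sq, hb]; norm_num
  -- the reflection
  have hσin : ∀ v x : E3, ⟪v - (2 * ⟪b, v⟫_ℝ) • b, x⟫_ℝ = ⟪v, x - (2 * ⟪b, x⟫_ℝ) • b⟫_ℝ := by
    intro v x
    rw [inner_sub_left, inner_sub_right, real_inner_smul_left, real_inner_smul_right,
      real_inner_comm v b]
    ring
  have hσσ : ∀ v : E3, (v - (2 * ⟪b, v⟫_ℝ) • b) -
      (2 * ⟪b, v - (2 * ⟪b, v⟫_ℝ) • b⟫_ℝ) • b = v := by
    intro v
    have : ⟪b, v - (2 * ⟪b, v⟫_ℝ) • b⟫_ℝ = - ⟪b, v⟫_ℝ := by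
      rw [inner_sub_right, real_inner_smul_right, hbb]; ring
    rw [this]
    module
  have hσle : ∀ v : E3, supp K (v - (2 * ⟪b, v⟫_ℝ) • b) ≤ supp K v := by
    intro v
    refine supp_le hne fun x hx => ?_
    rw [hσin]
    exact inner_le_supp hKc (hrig x hx) v
  have hσeq : ∀ v : E3, supp K (v - (2 * ⟪b, v⟫_ℝ) • b) = supp K v := by
    intro v
    refine le_antisymm (hσle v) ?_
    have := hσle (v - (2 * ⟪b, v⟫_ℝ) • b)
    rwa [hσσ] at this
  have hσn : ∀ v : E3, ‖v - (2 * ⟪b, v⟫_ℝ) • b‖ = ‖v‖ := by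
    intro v
    have h1 : ‖v - (2 * ⟪b, v⟫_ℝ) • b‖ ^ 2 = ‖v‖ ^ 2 := by
      rw [← real_inner_self_eq_norm_sq, ← real_inner_self_eq_norm_sq, hσin, hσσ]
    exact (pow_left_inj₀ (norm_nonneg _) (norm_nonneg _) two_ne_zero).1 h1
  have hsb : supp K b = supp K (-b) := by
    have h1 := hσeq (-b)
    rw [inner_neg_right, hbb] at h1
    rw [← h1]
    congr 1
    module
  obtain ⟨-, ⟨θ, hθ, hflat0⟩, -⟩ := lower_half K hKc hKv h0i b hb hB
  have hflat : ∀ v : E3, ‖v‖ = 1 → (‖v - b‖ < θ ∨ ‖v + b‖ < θ) → supp K v = supp K b := by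
    intro v hv h
    rcases h with h | h
    · rw [hsb, ← hσeq v]
      refine hflat0 _ ((hσn v).trans hv) ?_
      have h1 := hσn (v - b)
      have h2 : v - (2 * ⟪b, v⟫_ℝ) • b + b = (v - b) - (2 * ⟪b, v - b⟫_ℝ) • b := by
        rw [inner_sub_right, hbb]
        module
      rw [h2, h1]
      exact h
    · rw [hsb]
      exact hflat0 v hv h
  have hmin : ∀ v : E3, ‖v‖ = 1 → supp K b ≤ supp K v := fun v hv => by
    rw [hsb]; exact hmin1 v hv
  -- positivity of m
  have hm : 0 < supp K b := by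
    obtain ⟨r, hr, hrb⟩ := Metric.isOpen_iff.1 isOpen_interior 0 h0i
    have h1 : closedBall (0 : E3) (r / 2) ⊆ K :=
      (closedBall_subset_ball (by linarith)).trans (hrb.trans interior_subset)
    have h2 := le_supp_of_ball hKc (by linarith) h1 hb
    linarith
  obtain ⟨s0, hs0, hbump⟩ := bump K hK hSB b hb θ hθ hmin hflat
  obtain ⟨c, hc, t, ht, hct⟩ := hF
  have hbc : ∀ i, ⟪b, c i⟫_ℝ = 0 := by
    intro i
    have h1 := hB _ (hct i).1
    have h2 := hB _ (hct i).2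
    rw [real_inner_smul_right] at h1 h2
    have h3 : 0 ≤ ⟪b, c i⟫_ℝ := nonneg_of_mul_nonneg_right h1 (ht i)
    have h4 : ⟪b, c i⟫_ℝ ≤ 0 := by
      by_contra h5
      push Not at h5
      nlinarith [ht i, mul_pos (ht i) h5]
    exact le_antisymm h4 h3
  obtain ⟨R, hR⟩ := hKc.isBounded.subset_closedBall (0 : E3)
  have hR0 : 0 ≤ R := by
    have := hR h0
    simpa using this
  refine approx_closed K ⟨hKc, hKv, ⟨0, h0i⟩⟩ fun ε hε => ?_
  have hev : ∀ x ∈ XJ K, ∀ᶠ s in nhdsWithin (0 : ℝ) (Ioi 0),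
      ((∀ v : E3, ‖v‖ = 1 → supp (Bump K b (supp K b + s)) v =
        max (supp K v) ((supp K b + s) * |⟪b, v⟫_ℝ|)) → x ∈ XJ (Bump K b (supp K b + s))) := by
    intro x hx
    obtain ⟨s1, hs1, h1⟩ := bump_persist K hK b hb hmin x hx
    filter_upwards [Ioo_mem_nhdsGT hs1] with s hs
    exact h1 s hs.1 hs.2
  have hε' : 0 < ε * supp K b / (2 * R + 1) := by positivity
  have hall : ∀ᶠ s in nhdsWithin (0 : ℝ) (Ioi 0), (0 < s ∧ s < s0 ∧ s < supp K b ∧
      s < ε * supp K b / (2 * R + 1)) ∧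
      (∀ i : Fin j, ((∀ v : E3, ‖v‖ = 1 → supp (Bump K b (supp K b + s)) v =
        max (supp K v) ((supp K b + s) * |⟪b, v⟫_ℝ|)) →
          (t i) • c i ∈ XJ (Bump K b (supp K b + s)))) ∧
      (∀ i : Fin j, ((∀ v : E3, ‖v‖ = 1 → supp (Bump K b (supp K b + s)) v =
        max (supp K v) ((supp K b + s) * |⟪b, v⟫_ℝ|)) →
          (-(t i)) • c i ∈ XJ (Bump K b (supp K b + s)))) := by
    refine Filter.Eventually.and ?_ (Filter.Eventually.and ?_ ?_)
    · filter_upwards [Ioo_mem_nhdsGT hs0, Ioo_mem_nhdsGT hm, Ioo_mem_nhdsGT hε'] with s h1 h2 h3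
      exact ⟨h1.1, h1.2, h2.2, h3.2⟩
    · exact Filter.eventually_all.2 fun i => hev _ (hct i).1
    · exact Filter.eventually_all.2 fun i => hev _ (hct i).2
  obtain ⟨s, ⟨hs, hss0, hsm, hsε⟩, hp1, hp2⟩ := hall.exists
  obtain ⟨hCB, hSB', hx1, hx2, hform⟩ := hbump s hs hss0
  obtain ⟨-, -, hsub, -, -, -, hshr⟩ := bump_basic K hKc hKv hne b hb (supp K b) s hm hs hmin
  have hm' : 0 < supp K b + s := by linarith
  refine ⟨Bump K b (supp K b + s), ⟨hCB.1, hCB.2.1, ⟨0, hCB.2.2.1⟩⟩, ?_, ?_⟩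
  · refine hnext _ hCB hSB' ⟨Fin.cons b c, orthonormal_cons hc hb hbc,
      Fin.cons (supp K b + s) t, ?_, ?_⟩
    · intro i
      refine Fin.cases ?_ (fun i => ?_) i
      · simpa using hm'
      · simpa using ht i
    · intro i
      refine Fin.cases ?_ (fun i => ?_) i
      · simp only [Fin.cons_zero]
        exact ⟨hx1, hx2⟩
      · simp only [Fin.cons_succ]
        exact ⟨hp1 i hform, hp2 i hform⟩
  · have ht0 : 0 < supp K b / (supp K b + s) := by positivity
    have ht1 : supp K b / (supp K b + s) < 1 := by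
      rw [div_lt_one hm']; linarith
    have hle : hausdorffDist K (Bump K b (supp K b + s)) ≤
        (1 - supp K b / (supp K b + s)) * (2 * R) := by
      refine hausdorff_of_sandwich K (Bump K b (supp K b + s)) (2 * R)
        (supp K b / (supp K b + s)) (by linarith) ht0 ht1 ?_ ?_ ?_ hshr
      · exact hR.trans (closedBall_subset_closedBall (by linarith))
      · intro x hx
        have h1 := hR (hshr x hx)
        rw [mem_closedBall_zero_iff, norm_smul, Real.norm_eq_abs, abs_of_pos ht0] at h1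
        rw [mem_closedBall_zero_iff]
        have h2 : (1 / 2 : ℝ) ≤ supp K b / (supp K b + s) := by
          rw [div_le_div_iff₀ (by norm_num) hm']; linarith
        nlinarith [norm_nonneg x]
      · intro x hx
        refine hsub ?_
        have := hKv h0 hx (a := 1 - supp K b / (supp K b + s)) (b := supp K b / (supp K b + s))
          (by linarith) ht0.le (by ring)
        simpa using this
    refine lt_of_le_of_lt hle ?_
    have h1 : 1 - supp K b / (supp K b + s) ≤ s / supp K b := by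
      rw [one_sub_div hm'.ne', add_sub_cancel_left]
      exact div_le_div_of_nonneg_left hs.le hm (by linarith)
    have h2 : s * (2 * R + 1) < ε * supp K b := (lt_div_iff₀ (by linarith)).1 hsε
    calc (1 - supp K b / (supp K b + s)) * (2 * R) ≤ (s / supp K b) * (2 * R) :=
          mul_le_mul_of_nonneg_right h1 (by linarith)
      _ = (s * (2 * R)) / supp K b := by ring
      _ < ε := by
        rw [div_lt_iff₀ hm]
        nlinarith

theorem suff_centered (K : Set E3) (hK : CB K) (hSB : SB (supp K)) : App K := by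
  have key : ∀ n : ℕ, n ≤ 4 → ∀ K : Set E3, CB K → SB (supp K) → Fam K (4 - n) →
      App K := by
    intro n
    induction n with
    | zero =>
      intro _ K _ _ hF
      exfalso
      obtain ⟨c, hc, -⟩ := hF
      have h1 := hc.linearIndependent.fintype_card_le_finrank
      simp at h1
    | succ n ih =>
      intro hn K hK hSB hF
      refine fam_step K hK hSB (4 - (n + 1)) hF ?_
      intro K' h1 h2 h3
      have h4 : 4 - (n + 1) + 1 = 4 - n := by omega
      rw [h4] at h3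
      exact ih (by omega) K' h1 h2 h3
  refine key 4 le_rfl K hK hSB ?_
  exact ⟨fun i => i.elim0, ⟨fun i => i.elim0, fun i => i.elim0⟩, fun i => i.elim0,
    fun i => i.elim0, fun i => i.elim0⟩




end Q144.MS
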