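import Pool.Agent.Q144.MSb
import Pool.Agent.Helper524.Mono.S_monostable_translate

set_option autoImplicit false

/-! A strictly rolling polyhedron; its stable face; faces of a polyhedron are given by active
inequalities. -/

open MeasureTheory Set Metric
open scoped InnerProductSpace

namespace Q144.MS

open Pool.Agent.Helper524.Mono hiding wulff_main core approx_of_spanning approx_of_raise approx_closed suff_centered

theorem supp_ball {u : E3} (hu : ‖u‖ = 1) : supp (closedBall (0 : E3) 1) u = 1 := by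
  have hne : (closedBall (0 : E3) 1).Nonempty := ⟨0, mem_closedBall_self (by norm_num)⟩
  refine le_antisymm (supp_le_of_subset_ball hne subset_rfl hu) ?_
  exact le_supp_of_ball (isCompact_closedBall _ _) (by norm_num) subset_rfl hu

theorem CB_ball : CB (closedBall (0 : E3) 1) := by
  refine ⟨isCompact_closedBall _ _, convex_closedBall _ _, ?_, ?_⟩
  · rw [interior_closedBall _ one_ne_zero]
    exact mem_ball_self one_pos
  · have h1 : ∫ x in closedBall (0 : E3) 1, x = ∫ x, (closedBall (0 : E3) 1).indicator id x :=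
      (integral_indicator measurableSet_closedBall).symm
    have h2 := integral_neg_eq_self (fun x => (closedBall (0 : E3) 1).indicator id x)
      (volume : Measure E3)
    have h3 : ∀ x : E3, (closedBall (0 : E3) 1).indicator id (-x) =
        -((closedBall (0 : E3) 1).indicator id x) := by
      intro x
      by_cases hx : x ∈ closedBall (0 : E3) 1
      · have hx' : -x ∈ closedBall (0 : E3) 1 := by
          rw [mem_closedBall_zero_iff] at hx ⊢
          rwa [norm_neg]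
        rw [indicator_of_mem hx, indicator_of_mem hx']
        rfl
      · have hx' : -x ∉ closedBall (0 : E3) 1 := by
          rw [mem_closedBall_zero_iff] at hx ⊢
          rwa [norm_neg]
        rw [indicator_of_notMem hx, indicator_of_notMem hx', neg_zero]
    simp only [h3] at h2
    rw [integral_neg] at h2
    rw [h1]
    have h4 : (2 : ℝ) • (∫ x, (closedBall (0 : E3) 1).indicator id x) = 0 := by
      rw [two_smul]
      nth_rewrite 1 [← h2]
      exact neg_add_cancel _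
    exact (smul_eq_zero.1 h4).resolve_left two_ne_zero

theorem SB_ball : SB (supp (closedBall (0 : E3) 1)) := by
  intro r
  by_cases hr : 1 < r
  · have : {u : E3 | ‖u‖ = 1 ∧ supp (closedBall (0 : E3) 1) u < r} = sphere (0 : E3) 1 := by
      ext u
      rw [mem_sphere_zero_iff_norm]
      constructor
      · rintro ⟨h, -⟩; exact h
      · intro h
        exact ⟨h, by rw [supp_ball h]; exact hr⟩
    rw [this]
    apply isPreconnected_sphere
    rw [← Module.finrank_eq_rank]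
    simp
  · have : {u : E3 | ‖u‖ = 1 ∧ supp (closedBall (0 : E3) 1) u < r} = ∅ := by
      rw [eq_empty_iff_forall_notMem]
      rintro u ⟨h1, h2⟩
      rw [supp_ball h1] at h2
      exact hr h2
    rw [this]
    exact isPreconnected_empty

theorem exists_good : ∃ P : Set E3, Good P := by
  obtain ⟨P, hP, -⟩ := suff_centered _ CB_ball SB_ball 1 one_pos
  exact ⟨P, hP⟩

lemma SRolls.rolls {T : Finset (E3 × ℝ)} {τ : E3 × ℝ} (h : SRolls T τ) : Rolls T τ :=
  ⟨h.1, fun p hp => (h.2 p hp).lift id fun _ _ hab => ⟨hab.1, le_of_lt hab.2⟩⟩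

/-- every 2-dimensional face lies on an active inequality -/
theorem face_active (T : Finset (E3 × ℝ)) (hT : ∀ p ∈ T, p.1 ≠ 0 ∧ 0 < p.2) {F : Set E3}
    (hF : IsFace2 (poly T) F) (hconv : Convex ℝ F) (hne : F.Nonempty) :
    ∃ q ∈ T, (∃ x ∈ poly T, ⟪q.1, x⟫_ℝ = q.2) ∧ F = face (poly T) q.1 ∧
      F = {x | x ∈ poly T ∧ ⟪q.1, x⟫_ℝ = q.2} := by
  obtain ⟨u, hu0, hFu, hdim⟩ := hF
  obtain ⟨z, hz⟩ := hne.intrinsicInterior hconv
  have hzF : z ∈ F := intrinsicInterior_subset hz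
  have hFP : ∀ x ∈ F, x ∈ poly T := by
    intro x hx
    rw [hFu] at hx
    exact hx.1
  have hzP : z ∈ poly T := hFP z hzF
  have hzmax : ∀ y ∈ poly T, ⟪u, y⟫_ℝ ≤ ⟪u, z⟫_ℝ := by
    have h := hzF
    rw [hFu] at h
    exact h.2
  have hu1 : ∀ x ∈ F, ⟪u, x - z⟫_ℝ = 0 := by
    intro x hx
    have h1 := hzmax x (hFP x hx)
    have h2 : ⟪u, z⟫_ℝ ≤ ⟪u, x⟫_ℝ := by
      have h := hx
      rw [hFu] at h
      exact h.2 z hzP
    rw [inner_sub_right]
    linarith
  have hact : ∀ q ∈ T, ⟪q.1, z⟫_ℝ = q.2 → ∀ x ∈ F, ⟪q.1, x - z⟫_ℝ = 0 := by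
    intro q hq hqz x hx
    obtain ⟨s, hs, hsF⟩ := N_stable_unique.stable_unique_back hz hx
    have h1 := hFP x hx q hq
    have h2 := hFP _ hsF q hq
    rw [inner_sub_right, real_inner_smul_right, hqz] at h2
    have h3 : ⟪q.1, x - z⟫_ℝ ≤ 0 := by
      rw [inner_sub_right]; linarith
    have h4 : 0 ≤ s * ⟪q.1, x - z⟫_ℝ := by linarith
    have h5 : 0 ≤ ⟪q.1, x - z⟫_ℝ := nonneg_of_mul_nonneg_right h4 hs
    linarith
  have hex : ∃ p ∈ T, ⟪p.1, z⟫_ℝ = p.2 := by
    by_contra hno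
    push Not at hno
    have hlt : ∀ p ∈ T, ⟪p.1, z⟫_ℝ < p.2 := fun p hp => lt_of_le_of_ne (hzP p hp) (hno p hp)
    have h1 : ∀ᶠ ε in nhds (0:ℝ), ∀ p ∈ T, ⟪p.1, z + ε • u⟫_ℝ < p.2 := by
      rw [Filter.eventually_all_finset]
      intro p hp
      have hc : Continuous fun ε : ℝ => ⟪p.1, z + ε • u⟫_ℝ := by fun_prop
      have h2 : ⟪p.1, z + (0:ℝ) • u⟫_ℝ < p.2 := by
        rw [zero_smul, add_zero]; exact hlt p hp
      exact hc.continuousAt.eventually (Iio_mem_nhds h2)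
    have h3 : ∀ᶠ ε in nhdsWithin (0:ℝ) (Ioi 0), 0 < ε ∧ ∀ p ∈ T, ⟪p.1, z + ε • u⟫_ℝ < p.2 :=
      (eventually_mem_nhdsWithin (a := (0:ℝ)) (s := Ioi 0)).and
        (h1.filter_mono nhdsWithin_le_nhds)
    obtain ⟨ε, hε, hεT⟩ := h3.exists
    have h4 := hzmax (z + ε • u) (fun p hp => (hεT p hp).le)
    rw [inner_add_right, real_inner_smul_right, real_inner_self_eq_norm_sq] at h4
    have h5 : 0 < ‖u‖ := norm_pos_iff.2 hu0
    have h6 : 0 < ε * ‖u‖ ^ 2 := by positivity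
    linarith
  obtain ⟨q, hq, hqz⟩ := hex
  obtain ⟨c, hc⟩ := N_stable_unique.stable_unique_line hdim hzF (hT q hq).1 (hact q hq hqz) hu1
  have hc0 : c ≠ 0 := by
    rintro rfl
    rw [zero_smul] at hc
    exact hu0 hc.symm
  have h0P : (0 : E3) ∈ poly T := by
    intro p hp
    rw [inner_zero_right]
    exact (hT p hp).2.le
  have hcpos : 0 < c := by
    rcases lt_or_gt_of_ne hc0 with h | h
    · exfalso
      have h1 := hzmax 0 h0P
      rw [inner_zero_right, ← hc, real_inner_smul_left, hqz] at h1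
      have h2 := (hT q hq).2
      have h3 := mul_neg_of_neg_of_pos h h2
      linarith
    · exact h
  have hface : F = face (poly T) q.1 := by
    rw [hFu, ← hc]
    ext x
    constructor
    · rintro ⟨h1, h2⟩
      refine ⟨h1, fun y hy => ?_⟩
      have h3 := h2 y hy
      rw [real_inner_smul_left, real_inner_smul_left] at h3
      exact le_of_mul_le_mul_left h3 hcpos
    · rintro ⟨h1, h2⟩
      refine ⟨h1, fun y hy => ?_⟩
      rw [real_inner_smul_left, real_inner_smul_left]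
      exact mul_le_mul_of_nonneg_left (h2 y hy) hcpos.le
  refine ⟨q, hq, ⟨z, hzP, hqz⟩, hface, ?_⟩
  rw [hface]
  ext x
  constructor
  · rintro ⟨h1, h2⟩
    have h3 := h2 z hzP
    exact ⟨h1, le_antisymm (h1 q hq) (by rw [← hqz]; exact h3)⟩
  · rintro ⟨h1, h2⟩
    exact ⟨h1, fun y hy => by rw [h2]; exact hy q hq⟩

theorem face_convex (T : Finset (E3 × ℝ)) (u : E3) : Convex ℝ (face (poly T) u) := by
  intro x hx y hy a b ha hb hab
  refine ⟨?_, ?_⟩
  · intro p hp
    have h1 := hx.1 p hp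
    have h2 := hy.1 p hp
    rw [inner_add_right, real_inner_smul_right, real_inner_smul_right]
    calc a * ⟪p.1, x⟫_ℝ + b * ⟪p.1, y⟫_ℝ ≤ a * p.2 + b * p.2 :=
          add_le_add (mul_le_mul_of_nonneg_left h1 ha) (mul_le_mul_of_nonneg_left h2 hb)
      _ = p.2 := by rw [← add_mul, hab, one_mul]
  · intro w hw
    have h1 := hx.2 w hw
    have h2 := hy.2 w hw
    rw [inner_add_right, real_inner_smul_right, real_inner_smul_right]
    calc ⟪u, w⟫_ℝ = a * ⟪u, w⟫_ℝ + b * ⟪u, w⟫_ℝ := by rw [← add_mul, hab, one_mul]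
      _ ≤ _ := add_le_add (mul_le_mul_of_nonneg_left h1 ha) (mul_le_mul_of_nonneg_left h2 hb)

theorem face2_nonempty {P F : Set E3} (hF : IsFace2 P F) : F.Nonempty := by
  obtain ⟨u, -, -, hdim⟩ := hF
  by_contra h
  rw [not_nonempty_iff_eq_empty] at h
  rw [h, vectorSpan_empty, finrank_bot] at hdim
  norm_num at hdim

/-- the foot of the perpendicular to the plane of `τ` is an inner point of that face -/
theorem foot_inner (T : Finset (E3 × ℝ)) (τ : E3 × ℝ) (hT : ∀ p ∈ T, p.1 ≠ 0 ∧ 0 < p.2)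
    (hcom : com (poly T) = 0) (hR : SRolls T τ) :
    ∃ ρ : ℝ, 0 < ρ ∧ ∀ x : E3, ‖x - (τ.2 / ‖τ.1‖ ^ 2) • τ.1‖ < ρ → ⟪τ.1, x⟫_ℝ ≤ τ.2 →
      x ∈ poly T := by
  obtain ⟨F, hF⟩ := exists_stable T hT ⟨τ, hR.1⟩ hcom
  obtain ⟨⟨u, hu0, hFu, hdim⟩, z, hz, hzort⟩ := hF
  have hzF : z ∈ F := intrinsicInterior_subset hz
  have hFP : ∀ x ∈ F, x ∈ poly T := by
    intro x hx
    rw [hFu] at hx
    exact hx.1
  have hzP : z ∈ poly T := hFP z hzF
  have hzmax : ∀ y ∈ poly T, ⟪u, y⟫_ℝ ≤ ⟪u, z⟫_ℝ := by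
    have h := hzF
    rw [hFu] at h
    exact h.2
  have hz1 : ∀ x ∈ F, ⟪z, x - z⟫_ℝ = 0 := by
    intro x hx
    have h := hzort x hx
    rw [hcom, zero_sub, inner_neg_left, neg_eq_zero] at h
    exact h
  have hact : ∀ q ∈ T, ⟪q.1, z⟫_ℝ = q.2 → ∀ x ∈ F, ⟪q.1, x - z⟫_ℝ = 0 := by
    intro q hq hqz x hx
    obtain ⟨s, hs, hsF⟩ := N_stable_unique.stable_unique_back hz hx
    have h1 := hFP x hx q hq
    have h2 := hFP _ hsF q hq
    rw [inner_sub_right, real_inner_smul_right, hqz] at h2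
    have h3 : ⟪q.1, x - z⟫_ℝ ≤ 0 := by
      rw [inner_sub_right]; linarith
    have h4 : 0 ≤ s * ⟪q.1, x - z⟫_ℝ := by linarith
    have h5 : 0 ≤ ⟪q.1, x - z⟫_ℝ := nonneg_of_mul_nonneg_right h4 hs
    linarith
  have hex : ∃ p ∈ T, ⟪p.1, z⟫_ℝ = p.2 := by
    by_contra hno
    push Not at hno
    have hlt : ∀ p ∈ T, ⟪p.1, z⟫_ℝ < p.2 := fun p hp => lt_of_le_of_ne (hzP p hp) (hno p hp)
    have h1 : ∀ᶠ ε in nhds (0:ℝ), ∀ p ∈ T, ⟪p.1, z + ε • u⟫_ℝ < p.2 := by
      rw [Filter.eventually_all_finset]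
      intro p hp
      have hc : Continuous fun ε : ℝ => ⟪p.1, z + ε • u⟫_ℝ := by fun_prop
      have h2 : ⟪p.1, z + (0:ℝ) • u⟫_ℝ < p.2 := by
        rw [zero_smul, add_zero]; exact hlt p hp
      exact hc.continuousAt.eventually (Iio_mem_nhds h2)
    have h3 : ∀ᶠ ε in nhdsWithin (0:ℝ) (Ioi 0), 0 < ε ∧ ∀ p ∈ T, ⟪p.1, z + ε • u⟫_ℝ < p.2 :=
      (eventually_mem_nhdsWithin (a := (0:ℝ)) (s := Ioi 0)).and
        (h1.filter_mono nhdsWithin_le_nhds)
    obtain ⟨ε, hε, hεT⟩ := h3.exists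
    have h4 := hzmax (z + ε • u) (fun p hp => (hεT p hp).le)
    rw [inner_add_right, real_inner_smul_right, real_inner_self_eq_norm_sq] at h4
    have h5 : 0 < ‖u‖ := norm_pos_iff.2 hu0
    have h6 : 0 < ε * ‖u‖ ^ 2 := by positivity
    linarith
  -- active inequalities are multiples of `z`
  have hmul : ∀ q ∈ T, ⟪q.1, z⟫_ℝ = q.2 → z = (q.2 / ‖q.1‖ ^ 2) • q.1 := by
    intro q hq hqz
    obtain ⟨c, hc⟩ := N_stable_unique.stable_unique_line hdim hzF (hT q hq).1 (hact q hq hqz) hz1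
    have hn : 0 < ‖q.1‖ := norm_pos_iff.2 (hT q hq).1
    have h1 : c * ‖q.1‖ ^ 2 = q.2 := by
      rw [← hqz, ← hc, real_inner_smul_right, real_inner_self_eq_norm_sq]
    rw [← hc, ← h1]
    congr 1
    field_simp
  have hstep : ∀ q ∈ T, ⟪q.1, z⟫_ℝ = q.2 → ∀ q' ∈ T, SStep q q' → False := by
    intro q hq hqz q' hq' hst
    have hn : 0 < ‖q.1‖ := norm_pos_iff.2 (hT q hq).1
    have h3 := hzP q' hq'
    rw [hmul q hq hqz, real_inner_smul_right, div_mul_eq_mul_div, div_le_iff₀ (by positivity),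
      real_inner_comm] at h3
    unfold SStep at hst
    linarith
  obtain ⟨p0, hp0, hp0z⟩ := hex
  have hp0τ : p0 = τ := by
    rcases Relation.ReflTransGen.cases_head (hR.2 p0 hp0) with h | ⟨c, h1, -⟩
    · exact h
    · exact absurd h1.2 (fun h => hstep p0 hp0 hp0z c h1.1 h)
  have huniq : ∀ q ∈ T, ⟪q.1, z⟫_ℝ = q.2 → q = τ := by
    intro q hq hqz
    rcases Relation.ReflTransGen.cases_head (hR.2 q hq) with h | ⟨c, h1, -⟩
    · exact h
    · exact absurd h1.2 (fun h => hstep q hq hqz c h1.1 h)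
  have hzτ : z = (τ.2 / ‖τ.1‖ ^ 2) • τ.1 := by
    rw [← hp0τ]
    exact hmul p0 hp0 hp0z
  rw [← hzτ]
  have hev : ∀ᶠ y in nhds z, ∀ p ∈ T, ⟪p.1, z⟫_ℝ < p.2 → ⟪p.1, y⟫_ℝ < p.2 := by
    rw [Filter.eventually_all_finset]
    intro p hp
    by_cases h : ⟪p.1, z⟫_ℝ < p.2
    · have hc : Continuous fun y : E3 => ⟪p.1, y⟫_ℝ := by fun_prop
      filter_upwards [hc.continuousAt.eventually_lt continuousAt_const h] with y hy _
      exact hy
    · exact Filter.Eventually.of_forall fun y h' => absurd h' h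
  obtain ⟨ρ, hρ, hball⟩ := Metric.eventually_nhds_iff.1 hev
  refine ⟨ρ, hρ, fun x hx hxτ p hp => ?_⟩
  rcases lt_or_eq_of_le (hzP p hp) with h | h
  · exact (hball (by rwa [dist_eq_norm]) p hp h).le
  · rw [huniq p hp h]
    exact hxτ

end Q144.MS
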