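import Pool.Agent.Q144.MSc
import Pool.Agent.Helper524.Mono.S_com_close

set_option autoImplicit false

/-! Cutting a strictly rolling polyhedron so that its stable face becomes tiny. -/

open MeasureTheory Set Metric
open scoped InnerProductSpace

namespace Q144.MS

open Pool.Agent.Helper524.Mono hiding wulff_main core approx_of_spanning approx_of_raise approx_closed suff_centered

open Classical in
/-- cut the system near the face of `τ` -/
noncomputable def cutSys (T : Finset (E3 × ℝ)) (τ : E3 × ℝ) (D : Finset E3) (s θ : ℝ) :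
    Finset (E3 × ℝ) :=
  insert (τ.1, τ.2 - θ) (T ∪ D.image (fun e => (τ.1 + θ • e, τ.2 - θ + θ * s)))

/-- translate an inequality by `-c` -/
noncomputable def sh (c : E3) (p : E3 × ℝ) : E3 × ℝ := (p.1, p.2 - ⟪p.1, c⟫_ℝ)

open Classical in
/-- translate a system by `-c` -/
noncomputable def shSys (c : E3) (T : Finset (E3 × ℝ)) : Finset (E3 × ℝ) := T.image (sh c)

lemma mem_cutSys {T : Finset (E3 × ℝ)} {τ : E3 × ℝ} {D : Finset E3} {s θ : ℝ} {p : E3 × ℝ} :
    p ∈ cutSys T τ D s θ ↔ p = (τ.1, τ.2 - θ) ∨ p ∈ T ∨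
      ∃ e ∈ D, (τ.1 + θ • e, τ.2 - θ + θ * s) = p := by
  classical
  unfold cutSys
  rw [Finset.mem_insert, Finset.mem_union, Finset.mem_image]

lemma mem_shSys {c : E3} {T : Finset (E3 × ℝ)} {p : E3 × ℝ} :
    p ∈ shSys c T ↔ ∃ q ∈ T, sh c q = p := by
  classical
  unfold shSys
  rw [Finset.mem_image]

lemma mem_poly_shSys {c : E3} {T : Finset (E3 × ℝ)} {x : E3} :
    x ∈ poly (shSys c T) ↔ x + c ∈ poly T := by
  constructor
  · intro h p hp
    have := h _ (mem_shSys.2 ⟨p, hp, rfl⟩)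
    simp only [sh] at this
    rw [inner_add_right]
    linarith
  · intro h p hp
    obtain ⟨q, hq, rfl⟩ := mem_shSys.1 hp
    have := h q hq
    rw [inner_add_right] at this
    simp only [sh]
    linarith

lemma poly_shSys_eq (c : E3) (T : Finset (E3 × ℝ)) :
    poly (shSys c T) = (fun x => x + -c) '' poly T := by
  ext x
  rw [mem_poly_shSys]
  constructor
  · intro h
    exact ⟨x + c, h, by simp⟩
  · rintro ⟨y, hy, rfl⟩
    simpa using hy

lemma poly_closed (T : Finset (E3 × ℝ)) : IsClosed (poly T) := by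
  have : poly T = ⋂ p ∈ T, {x : E3 | ⟪p.1, x⟫_ℝ ≤ p.2} := by
    ext x
    simp only [poly, Set.mem_ofPred_eq, Set.mem_iInter]
  rw [this]
  refine isClosed_biInter fun p _ => ?_
  exact isClosed_le (by fun_prop) continuous_const

lemma poly_convex (T : Finset (E3 × ℝ)) : Convex ℝ (poly T) := by
  intro x hx y hy α β hα hβ hαβ p hp
  have h1 := hx p hp
  have h2 := hy p hp
  rw [inner_add_right, real_inner_smul_right, real_inner_smul_right]
  calc α * ⟪p.1, x⟫_ℝ + β * ⟪p.1, y⟫_ℝ ≤ α * p.2 + β * p.2 :=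
        add_le_add (mul_le_mul_of_nonneg_left h1 hα) (mul_le_mul_of_nonneg_left h2 hβ)
    _ = p.2 := by rw [← add_mul, hαβ, one_mul]

lemma poly_interior (T : Finset (E3 × ℝ)) (hT : ∀ p ∈ T, 0 < p.2) :
    (0 : E3) ∈ interior (poly T) := by
  rw [mem_interior_iff_mem_nhds]
  have h1 : ∀ᶠ x in nhds (0 : E3), ∀ p ∈ T, ⟪p.1, x⟫_ℝ < p.2 := by
    rw [Filter.eventually_all_finset]
    intro p hp
    have hc : Continuous fun x : E3 => ⟪p.1, x⟫_ℝ := by fun_prop
    have h2 : ⟪p.1, (0 : E3)⟫_ℝ < p.2 := by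
      rw [inner_zero_right]; exact hT p hp
    exact hc.continuousAt.eventually (Iio_mem_nhds h2)
  filter_upwards [h1] with x hx p hp
  exact (hx p hp).le

/-- directions -/
lemma exists_dirs (n : E3) (hn : n ≠ 0) : ∃ D : Finset E3, D.Nonempty ∧
    (∀ e ∈ D, ‖e‖ = 1 ∧ ⟪n, e⟫_ℝ = 0 ∧ -e ∈ D) ∧
    ∀ (w : E3) (r : ℝ), ⟪n, w⟫_ℝ = 0 → (∀ e ∈ D, ⟪e, w⟫_ℝ ≤ r) → ‖w‖ ≤ 2 * r := by
  classical
  have hfr : Module.finrank ℝ ((ℝ ∙ n)ᗮ : Submodule ℝ E3) = 2 := by
    have : Fact (Module.finrank ℝ E3 = 2 + 1) := ⟨by simp⟩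
    exact Submodule.finrank_orthogonal_span_singleton hn
  set b := (stdOrthonormalBasis ℝ ((ℝ ∙ n)ᗮ : Submodule ℝ E3)).reindex (finCongr hfr) with hb
  have hbn : ∀ i, ‖((b i : ((ℝ ∙ n)ᗮ : Submodule ℝ E3)) : E3)‖ = 1 := fun i => b.norm_eq_one i
  have hbo : ∀ i, ⟪n, ((b i : ((ℝ ∙ n)ᗮ : Submodule ℝ E3)) : E3)⟫_ℝ = 0 := fun i =>
    Submodule.mem_orthogonal_singleton_iff_inner_right.1 (b i).2
  refine ⟨{(b 0 : E3), -(b 0 : E3), (b 1 : E3), -(b 1 : E3)}, ⟨(b 0 : E3), by simp⟩, ?_, ?_⟩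
  · intro e he
    simp only [Finset.mem_insert, Finset.mem_singleton] at he
    rcases he with rfl | rfl | rfl | rfl
    · exact ⟨hbn 0, hbo 0, by simp⟩
    · exact ⟨by rw [norm_neg]; exact hbn 0, by rw [inner_neg_right, hbo 0, neg_zero], by simp⟩
    · exact ⟨hbn 1, hbo 1, by simp⟩
    · exact ⟨by rw [norm_neg]; exact hbn 1, by rw [inner_neg_right, hbo 1, neg_zero], by simp⟩
  · intro w r hw hr
    have hwm : w ∈ ((ℝ ∙ n)ᗮ : Submodule ℝ E3) :=
      Submodule.mem_orthogonal_singleton_iff_inner_right.2 hw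
    have h1 := b.sum_repr ⟨w, hwm⟩
    rw [Fin.sum_univ_two] at h1
    have h2 := congrArg (Subtype.val) h1
    simp only [Submodule.coe_add, Submodule.coe_smul] at h2
    have h3 : ∀ i, b.repr ⟨w, hwm⟩ i = ⟪(b i : E3), w⟫_ℝ := fun i => by
      rw [b.repr_apply_apply]
      rfl
    rw [h3, h3] at h2
    have ha : |⟪(b 0 : E3), w⟫_ℝ| ≤ r := by
      rw [abs_le]
      have e1 := hr (b 0 : E3) (by simp)
      have e2 := hr (-(b 0 : E3)) (by simp)
      rw [inner_neg_left] at e2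
      constructor <;> linarith
    have hb' : |⟪(b 1 : E3), w⟫_ℝ| ≤ r := by
      rw [abs_le]
      have e1 := hr (b 1 : E3) (by simp)
      have e2 := hr (-(b 1 : E3)) (by simp)
      rw [inner_neg_left] at e2
      constructor <;> linarith
    calc ‖w‖ = ‖⟪(b 0 : E3), w⟫_ℝ • (b 0 : E3) + ⟪(b 1 : E3), w⟫_ℝ • (b 1 : E3)‖ := by rw [h2]
      _ ≤ ‖⟪(b 0 : E3), w⟫_ℝ • (b 0 : E3)‖ + ‖⟪(b 1 : E3), w⟫_ℝ • (b 1 : E3)‖ := norm_add_le _ _
      _ = |⟪(b 0 : E3), w⟫_ℝ| + |⟪(b 1 : E3), w⟫_ℝ| := by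
          rw [norm_smul, norm_smul, hbn, hbn, mul_one, mul_one, Real.norm_eq_abs, Real.norm_eq_abs]
      _ ≤ 2 * r := by linarith

lemma cut_sub {T : Finset (E3 × ℝ)} {τ : E3 × ℝ} {D : Finset E3} {s θ : ℝ} :
    poly (cutSys T τ D s θ) ⊆ poly T := fun _ hx p hp =>
  hx p (mem_cutSys.2 (Or.inr (Or.inl hp)))

lemma cut_pos {T : Finset (E3 × ℝ)} {τ : E3 × ℝ} {D : Finset E3} {s θ : ℝ}
    (hT : ∀ p ∈ T, p.1 ≠ 0 ∧ 0 < p.2) (hs : 0 < s) (hθ : 0 < θ) (hθ1 : θ < τ.2) :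
    ∀ p ∈ cutSys T τ D s θ, 0 < p.2 := by
  intro p hp
  rcases mem_cutSys.1 hp with rfl | hp | ⟨e, -, rfl⟩
  · simp only; linarith
  · exact (hT p hp).2
  · simp only
    have := mul_pos hθ hs
    linarith

/-- the centroid of the cut polyhedron tends to the origin -/
lemma com_cut (T : Finset (E3 × ℝ)) (τ : E3 × ℝ) (hτ : τ ∈ T) (D : Finset E3)
    (hT : ∀ p ∈ T, p.1 ≠ 0 ∧ 0 < p.2) (hD : ∀ e ∈ D, ‖e‖ = 1) (hcomp : IsCompact (poly T))
    (hcom : com (poly T) = 0) (η : ℝ) (hη : 0 < η) :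
    ∃ θ0 : ℝ, 0 < θ0 ∧ ∀ θ : ℝ, 0 < θ → θ < θ0 → ∀ s : ℝ, 0 < s →
      ‖com (poly (cutSys T τ D s θ))‖ < η := by
  have hbody : IsBody (poly T) :=
    ⟨hcomp, poly_convex T, ⟨0, poly_interior T fun p hp => (hT p hp).2⟩⟩
  obtain ⟨δ, hδ, hclose⟩ := com_close (poly T) hbody η hη
  obtain ⟨R0, hR0⟩ := hcomp.isBounded.subset_closedBall (0 : E3)
  set R : ℝ := max R0 1 with hR
  have hR1 : 1 ≤ R := le_max_right _ _
  have hPR : poly T ⊆ closedBall 0 R := hR0.trans (closedBall_subset_closedBall (le_max_left _ _))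
  have hh0 : 0 < τ.2 := (hT τ hτ).2
  refine ⟨min (τ.2) (δ * τ.2 / ((R + 1) * R)), lt_min hh0 (by positivity), ?_⟩
  intro θ hθ hθ0 s hs
  have hθ1 : θ < τ.2 := hθ0.trans_le (min_le_left _ _)
  have hθ2 : θ * ((R + 1) * R) < δ * τ.2 := by
    have := hθ0.trans_le (min_le_right _ _)
    rwa [lt_div_iff₀ (by positivity)] at this
  set P' := poly (cutSys T τ D s θ) with hP'
  have hP'c : IsCompact P' := hcomp.of_isClosed_subset (poly_closed _) cut_sub
  have hbody' : IsBody P' := ⟨hP'c, poly_convex _,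
    ⟨0, poly_interior _ (cut_pos hT hs hθ hθ1)⟩⟩
  have hden : 0 < τ.2 + θ * R := by positivity
  set t : ℝ := (τ.2 - θ) / (τ.2 + θ * R) with ht
  have ht0 : 0 < t := div_pos (by linarith) hden
  have ht1 : t < 1 := by
    rw [ht, div_lt_one hden]
    have : 0 < θ * R := by positivity
    linarith
  have htden : t * (τ.2 + θ * R) = τ.2 - θ := by
    rw [ht, div_mul_cancel₀ _ hden.ne']
  have hsub1 : ∀ x ∈ poly T, t • x ∈ P' := by
    intro x hx p hp
    rw [real_inner_smul_right]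
    rcases mem_cutSys.1 hp with rfl | hp | ⟨e, he, rfl⟩
    · simp only
      have h1 := hx τ hτ
      have h2 : t * ⟪τ.1, x⟫_ℝ ≤ t * τ.2 := mul_le_mul_of_nonneg_left h1 ht0.le
      have h3 : 0 ≤ t * (θ * R) := by positivity
      linarith
    · have h1 := hx p hp
      have h2 : t * ⟪p.1, x⟫_ℝ ≤ t * p.2 := mul_le_mul_of_nonneg_left h1 ht0.le
      have h3 : t * p.2 ≤ 1 * p.2 := mul_le_mul_of_nonneg_right ht1.le (hT p hp).2.le
      linarith
    · simp only
      have h1 := hx τ hτ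
      have h2 : ⟪e, x⟫_ℝ ≤ R := by
        refine (real_inner_le_norm _ _).trans ?_
        rw [hD e he, one_mul]
        exact mem_closedBall_zero_iff.1 (hPR hx)
      rw [inner_add_left, real_inner_smul_left]
      have h3 : t * (⟪τ.1, x⟫_ℝ + θ * ⟪e, x⟫_ℝ) ≤ t * (τ.2 + θ * R) :=
        mul_le_mul_of_nonneg_left (add_le_add h1 (mul_le_mul_of_nonneg_left h2 hθ.le)) ht0.le
      have h4 := mul_pos hθ hs
      linarith
  have hsub2 : ∀ x ∈ P', t • x ∈ poly T := by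
    intro x hx
    exact (poly_convex T).smul_mem_of_zero_mem
      (interior_subset (poly_interior T fun p hp => (hT p hp).2)) (cut_sub hx) ⟨ht0.le, ht1.le⟩
  have hH := hausdorff_of_sandwich (poly T) P' R t (by linarith) ht0 ht1 hPR
    (cut_sub.trans hPR) hsub1 hsub2
  have hlt : hausdorffDist (poly T) P' < δ := by
    refine hH.trans_lt ?_
    have h1 : (1 - t) * (τ.2 + θ * R) = θ * (R + 1) := by
      rw [sub_mul, htden]; ring
    have h2 : (1 - t) * τ.2 ≤ θ * (R + 1) := by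
      have : 0 ≤ (1 - t) * (θ * R) := mul_nonneg (by linarith) (by positivity)
      linarith
    have h3 : (1 - t) * R * τ.2 < δ * τ.2 := by
      calc (1 - t) * R * τ.2 = (1 - t) * τ.2 * R := by ring
        _ ≤ θ * (R + 1) * R := mul_le_mul_of_nonneg_right h2 (by linarith)
        _ < δ * τ.2 := by linarith
    exact lt_of_mul_lt_mul_right h3 hh0.le
  have := hclose P' hbody' hlt
  rwa [hcom, zero_sub, norm_neg] at this

/-- strict steps survive small translations -/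
lemma steps_stable (T : Finset (E3 × ℝ)) (hT : ∀ p ∈ T, p.1 ≠ 0 ∧ 0 < p.2) :
    ∃ η : ℝ, 0 < η ∧ ∀ c : E3, ‖c‖ < η → (∀ p ∈ T, 0 < (sh c p).2) ∧
      ∀ p ∈ T, ∀ q ∈ T, SStep p q → SStep (sh c p) (sh c q) := by
  have h1 : ∀ᶠ c in nhds (0 : E3), ∀ p ∈ T, 0 < (sh c p).2 := by
    rw [Filter.eventually_all_finset]
    intro p hp
    have hc : Continuous fun c : E3 => (sh c p).2 := by
      unfold sh
      fun_prop
    have h2 : 0 < (sh 0 p).2 := by
      simp only [sh, inner_zero_right, sub_zero]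
      exact (hT p hp).2
    exact hc.continuousAt.eventually (Ioi_mem_nhds h2)
  have h2 : ∀ᶠ c in nhds (0 : E3), ∀ p ∈ T, ∀ q ∈ T, SStep p q → SStep (sh c p) (sh c q) := by
    rw [Filter.eventually_all_finset]
    intro p hp
    rw [Filter.eventually_all_finset]
    intro q hq
    by_cases hpq : SStep p q
    · have hc : Continuous fun c : E3 =>
          (sh c p).2 * ⟪p.1, q.1⟫_ℝ - (sh c q).2 * ‖p.1‖ ^ 2 := by
        unfold sh
        fun_prop
      have h3 : 0 < (sh 0 p).2 * ⟪p.1, q.1⟫_ℝ - (sh 0 q).2 * ‖p.1‖ ^ 2 := by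
        simp only [sh, inner_zero_right, sub_zero]
        unfold SStep at hpq
        linarith
      filter_upwards [hc.continuousAt.eventually (Ioi_mem_nhds h3)] with c hc _
      have hc' : 0 < (sh c p).2 * ⟪p.1, q.1⟫_ℝ - (sh c q).2 * ‖p.1‖ ^ 2 := hc
      have e1 : (sh c p).1 = p.1 := rfl
      have e2 : (sh c q).1 = q.1 := rfl
      unfold SStep
      rw [e1, e2]
      linarith
    · exact Filter.Eventually.of_forall fun c h => absurd h hpq
  obtain ⟨η, hη, h⟩ := Metric.eventually_nhds_iff.1 (h1.and h2)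
  refine ⟨η, hη, fun c hc => h ?_⟩
  rwa [dist_zero_right]

end Q144.MS
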