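import Pool.Agent.Q144.MSd

set_option autoImplicit false

/-! A unistable polyhedron whose resting face has the least diameter. -/

open MeasureTheory Set Metric
open scoped InnerProductSpace

namespace Q144.MS

open Pool.Agent.Helper524.Mono hiding wulff_main core approx_of_spanning approx_of_raise approx_closed suff_centered

/-- chords of the faces, away from the face of `τ` -/
lemma chords (T : Finset (E3 × ℝ)) (τ : E3 × ℝ) (hτ : τ ∈ T) :
    ∃ κ : ℝ, 0 < κ ∧ ∀ q ∈ T, (∃ a ∈ poly T, ⟪q.1, a⟫_ℝ = q.2 ∧ ⟪τ.1, a⟫_ℝ < τ.2 ∧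
      ∃ b ∈ poly T, ⟪q.1, b⟫_ℝ = q.2 ∧ b ≠ a) →
      ∃ a ∈ poly T, ∃ b ∈ poly T, ⟪q.1, a⟫_ℝ = q.2 ∧ ⟪q.1, b⟫_ℝ = q.2 ∧
        ⟪τ.1, a⟫_ℝ ≤ τ.2 - κ ∧ ⟪τ.1, b⟫_ℝ ≤ τ.2 - κ ∧ κ ≤ ‖a - b‖ := by
  have h1 : ∀ q : E3 × ℝ, ∃ κ : ℝ, 0 < κ ∧ ((∃ a ∈ poly T, ⟪q.1, a⟫_ℝ = q.2 ∧ ⟪τ.1, a⟫_ℝ < τ.2 ∧
      ∃ b ∈ poly T, ⟪q.1, b⟫_ℝ = q.2 ∧ b ≠ a) →
      ∃ a ∈ poly T, ∃ b ∈ poly T, ⟪q.1, a⟫_ℝ = q.2 ∧ ⟪q.1, b⟫_ℝ = q.2 ∧
        ⟪τ.1, a⟫_ℝ ≤ τ.2 - κ ∧ ⟪τ.1, b⟫_ℝ ≤ τ.2 - κ ∧ κ ≤ ‖a - b‖) := by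
    intro q
    by_cases h : (∃ a ∈ poly T, ⟪q.1, a⟫_ℝ = q.2 ∧ ⟪τ.1, a⟫_ℝ < τ.2 ∧
      ∃ b ∈ poly T, ⟪q.1, b⟫_ℝ = q.2 ∧ b ≠ a)
    · obtain ⟨a, ha, haq, haτ, b, hb, hbq, hba⟩ := h
      set m : E3 := (1 / 2 : ℝ) • a + (1 / 2 : ℝ) • b with hm
      have hmP : m ∈ poly T := poly_convex T ha hb (by norm_num) (by norm_num) (by norm_num)
      have hmq : ⟪q.1, m⟫_ℝ = q.2 := by
        rw [hm, inner_add_right, real_inner_smul_right, real_inner_smul_right, haq, hbq]
        ring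
      have hmτ : ⟪τ.1, m⟫_ℝ < τ.2 := by
        have h2 := hb τ hτ
        rw [hm, inner_add_right, real_inner_smul_right, real_inner_smul_right]
        linarith
      have ham : a - m = (1 / 2 : ℝ) • (a - b) := by
        rw [hm]
        module
      have hne : 0 < ‖a - m‖ := by
        have h3 : 0 < ‖a - b‖ := norm_pos_iff.2 (sub_ne_zero.2 (Ne.symm hba))
        rw [ham, norm_smul, Real.norm_of_nonneg (by norm_num)]
        linarith
      refine ⟨min (min (τ.2 - ⟪τ.1, a⟫_ℝ) (τ.2 - ⟪τ.1, m⟫_ℝ)) ‖a - m‖,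
        lt_min (lt_min (by linarith) (by linarith)) hne, fun _ =>
        ⟨a, ha, m, hmP, haq, hmq, ?_, ?_, min_le_right _ _⟩⟩
      · have := (min_le_left (min (τ.2 - ⟪τ.1, a⟫_ℝ) (τ.2 - ⟪τ.1, m⟫_ℝ)) ‖a - m‖).trans
          (min_le_left _ _)
        linarith
      · have := (min_le_left (min (τ.2 - ⟪τ.1, a⟫_ℝ) (τ.2 - ⟪τ.1, m⟫_ℝ)) ‖a - m‖).trans
          (min_le_right _ _)
        linarith
    · exact ⟨1, one_pos, fun h' => absurd h' h⟩
  choose κ hκ hκ2 using h1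
  obtain ⟨q0, hq0, hmin⟩ := T.exists_min_image κ ⟨τ, hτ⟩
  refine ⟨κ q0, hκ q0, fun q hq hex => ?_⟩
  obtain ⟨a, ha, b, hb, h1, h2, h3, h4, h5⟩ := hκ2 q hex
  have := hmin q hq
  exact ⟨a, ha, b, hb, h1, h2, by linarith, by linarith, by linarith⟩

theorem main : ∃ P F₀ : Set E3, IsPolyhedron P ∧ IsStable P F₀ ∧ (∀ F, IsStable P F → F = F₀) ∧
    ∀ F, IsFace2 P F → F ≠ F₀ → diam F₀ < diam F := by
  obtain ⟨_, hPc, -, T, τ, rfl, hT, hcom, hR⟩ := exists_good
  obtain ⟨ρ, hρ, hfoot⟩ := foot_inner T τ hT hcom hR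
  obtain ⟨D, ⟨e0, he0⟩, hD, hDw⟩ := exists_dirs τ.1 (hT τ hR.1).1
  obtain ⟨κ, hκ, hch⟩ := chords T τ hR.1
  obtain ⟨η1, hη1, hst⟩ := steps_stable T hT
  obtain ⟨R0, hR0⟩ := hPc.isBounded.subset_closedBall (0 : E3)
  set R : ℝ := max R0 1 with hRdef
  have hR1 : 1 ≤ R := le_max_right _ _
  have hPR : poly T ⊆ closedBall 0 R := hR0.trans (closedBall_subset_closedBall (le_max_left _ _))
  have hτ0 : τ.1 ≠ 0 := (hT τ hR.1).1
  have hh0 : 0 < τ.2 := (hT τ hR.1).2
  have hN : 0 < ‖τ.1‖ := norm_pos_iff.2 hτ0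
  -- size of the resting face
  set s : ℝ := min (κ / 8) (ρ / 16) with hs
  have hs0 : 0 < s := lt_min (by linarith) (by linarith)
  have hsκ : 8 * s ≤ κ := by
    have : s ≤ κ / 8 := min_le_left _ _
    linarith
  have hsρ : 16 * s ≤ ρ := by
    have : s ≤ ρ / 16 := min_le_right _ _
    linarith
  set η : ℝ := min η1 (min (s / 2) (τ.2 / (4 * ‖τ.1‖))) with hη
  have hη0 : 0 < η := lt_min hη1 (lt_min (by linarith) (by positivity))
  obtain ⟨θ0, hθ0, hcut⟩ := com_cut T τ hR.1 D hT (fun e he => (hD e he).1) hPc hcom η hη0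
  obtain ⟨θ, hθ, hθlt, hθ1, hθ2, hθ3, hθ4⟩ : ∃ θ : ℝ, 0 < θ ∧ θ < θ0 ∧ θ ≤ τ.2 / 2 ∧
      θ * (R + 1) ≤ κ ∧ θ * (4 * τ.2) ≤ s * ‖τ.1‖ ^ 2 ∧ θ * (1 + 5 * s) ≤ ρ / 4 * ‖τ.1‖ := by
    refine ⟨min (θ0 / 2) (min (τ.2 / 2) (min (κ / (R + 1)) (min (s * ‖τ.1‖ ^ 2 / (4 * τ.2))
      (ρ / 4 * ‖τ.1‖ / (1 + 5 * s))))), ?_, ?_, ?_, ?_, ?_, ?_⟩
    · refine lt_min (by linarith) (lt_min (by linarith) (lt_min (by positivity)
        (lt_min (by positivity) (by positivity))))
    · exact (min_le_left _ _).trans_lt (by linarith)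
    · exact (min_le_right _ _).trans (min_le_left _ _)
    · rw [← le_div_iff₀ (by linarith)]
      exact (min_le_right _ _).trans ((min_le_right _ _).trans (min_le_left _ _))
    · rw [← le_div_iff₀ (by linarith)]
      exact (min_le_right _ _).trans ((min_le_right _ _).trans ((min_le_right _ _).trans
        (min_le_left _ _)))
    · rw [← le_div_iff₀ (by linarith)]
      exact (min_le_right _ _).trans ((min_le_right _ _).trans ((min_le_right _ _).trans
        (min_le_right _ _)))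
  set T' := cutSys T τ D s θ with hT'
  set c : E3 := com (poly T') with hc
  have hcη : ‖c‖ < η := hcut θ hθ hθlt s hs0
  have hcη1 : ‖c‖ < η1 := hcη.trans_le (min_le_left _ _)
  have hcs : ‖c‖ < s / 2 := hcη.trans_le ((min_le_right _ _).trans (min_le_left _ _))
  have hcN : ‖c‖ * (4 * ‖τ.1‖) < τ.2 := by
    have := hcη.trans_le ((min_le_right _ _).trans (min_le_right _ _))
    rwa [lt_div_iff₀ (by positivity)] at this
  have hc0 : |⟪τ.1, c⟫_ℝ| ≤ τ.2 / 4 := by
    have := abs_real_inner_le_norm τ.1 c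
    nlinarith
  have hc0' := abs_le.1 hc0
  have hce : ∀ e ∈ D, |⟪e, c⟫_ℝ| ≤ s / 2 := by
    intro e he
    have := abs_real_inner_le_norm e c
    rw [(hD e he).1, one_mul] at this
    linarith
  obtain ⟨hpos, hsteps⟩ := hst c hcη1
  set T'' := shSys c T' with hT''
  -- positivity
  have hpn : ∀ e ∈ D, ⟪τ.1 + θ • e, τ.1⟫_ℝ = ‖τ.1‖ ^ 2 := by
    intro e he
    rw [inner_add_left, real_inner_smul_left, real_inner_comm, real_inner_self_eq_norm_sq,
      real_inner_comm, (hD e he).2.1]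
    ring
  have hpnn : ∀ e ∈ D, ‖τ.1 + θ • e‖ ^ 2 = ‖τ.1‖ ^ 2 + θ ^ 2 := by
    intro e he
    rw [← real_inner_self_eq_norm_sq, inner_add_right, hpn e he, real_inner_smul_right,
      inner_add_left, real_inner_smul_left, (hD e he).2.1, real_inner_self_eq_norm_sq, (hD e he).1]
    ring
  have hTpos : ∀ p ∈ T'', p.1 ≠ 0 ∧ 0 < p.2 := by
    intro p hp
    obtain ⟨q, hq, rfl⟩ := mem_shSys.1 hp
    rcases mem_cutSys.1 hq with rfl | hq | ⟨e, he, rfl⟩
    · refine ⟨hτ0, ?_⟩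
      simp only [sh]
      linarith
    · exact ⟨(hT q hq).1, hpos q hq⟩
    · refine ⟨?_, ?_⟩
      · intro h0
        have h0' : τ.1 + θ • e = 0 := h0
        have := hpn e he
        rw [h0', inner_zero_left] at this
        have : 0 < ‖τ.1‖ ^ 2 := by positivity
        linarith
      · simp only [sh]
        rw [inner_add_left, real_inner_smul_left]
        have h1 := (abs_le.1 (hce e he)).2
        have h2 : θ * ⟪e, c⟫_ℝ ≤ θ * (s / 2) := mul_le_mul_of_nonneg_left h1 hθ.le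
        have h3 := mul_pos hθ hs0
        linarith
  set τ' : E3 × ℝ := (τ.1, τ.2 - θ) with hτ'
  have hτ'T : τ' ∈ T' := mem_cutSys.2 (Or.inl rfl)
  have hτ'T'' : sh c τ' ∈ T'' := mem_shSys.2 ⟨_, hτ'T, rfl⟩
  -- rolling
  have hroll : Rolls T'' (sh c τ') := by
    refine ⟨hτ'T'', ?_⟩
    intro p hp
    obtain ⟨q, hq, rfl⟩ := mem_shSys.1 hp
    rcases mem_cutSys.1 hq with rfl | hq | ⟨e, he, rfl⟩
    · exact Relation.ReflTransGen.refl
    · have h1 : ∀ x, Relation.ReflTransGen (fun a b => b ∈ T ∧ SStep a b) q x → x ∈ T ∧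
          Relation.ReflTransGen (fun a b => b ∈ T'' ∧ Step a b) (sh c q) (sh c x) := by
        intro x hx
        induction hx with
        | refl => exact ⟨hq, Relation.ReflTransGen.refl⟩
        | tail _ hbc ih =>
          refine ⟨hbc.1, ih.2.tail ⟨mem_shSys.2 ⟨_, mem_cutSys.2 (Or.inr (Or.inl hbc.1)), rfl⟩, ?_⟩⟩
          exact le_of_lt (hsteps _ ih.1 _ hbc.1 hbc.2)
      refine (h1 τ (hR.2 q hq)).2.tail ⟨hτ'T'', ?_⟩
      unfold Step
      simp only [sh, hτ']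
      rw [real_inner_self_eq_norm_sq]
      exact mul_le_mul_of_nonneg_right (by linarith) (by positivity)
    · refine Relation.ReflTransGen.single ⟨hτ'T'', ?_⟩
      unfold Step
      simp only [sh, hτ']
      rw [hpn e he, hpnn e he, inner_add_left, real_inner_smul_left]
      have h1 := (abs_le.1 (hce e he)).2
      have h2 : (τ.2 - θ - ⟪τ.1, c⟫_ℝ) * θ ≤ (s - ⟪e, c⟫_ℝ) * ‖τ.1‖ ^ 2 := by
        have h3 : (τ.2 - θ - ⟪τ.1, c⟫_ℝ) * θ ≤ (2 * τ.2) * θ :=
          mul_le_mul_of_nonneg_right (by linarith) hθ.le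
        have h4 : (s / 2) * ‖τ.1‖ ^ 2 ≤ (s - ⟪e, c⟫_ℝ) * ‖τ.1‖ ^ 2 :=
          mul_le_mul_of_nonneg_right (by linarith) (by positivity)
        linarith
      have h5 := mul_le_mul_of_nonneg_left h2 hθ.le
      nlinarith
  have hcomp' : IsCompact (poly T') := hPc.of_isClosed_subset (poly_closed _) cut_sub
  have hint' : (interior (poly T')).Nonempty :=
    ⟨0, poly_interior _ (cut_pos hT hs0 hθ (by linarith))⟩
  have hP''eq : poly T'' = (fun x => x + -c) '' poly T' := poly_shSys_eq c T'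
  have hcomp'' : IsCompact (poly T'') := by
    rw [hP''eq]
    exact hcomp'.image (by fun_prop)
  have hint'' : (interior (poly T'')).Nonempty := ⟨0, poly_interior _ fun p hp => (hTpos p hp).2⟩
  have hcom'' : com (poly T'') = 0 := by
    rw [hP''eq, N_monostable_translate.monostable_translate_com hcomp' hint', ← hc, add_neg_cancel]
  obtain ⟨F, hF⟩ := exists_stable T'' hTpos ⟨_, hτ'T''⟩ hcom''
  have huniq : ∀ F', IsStable (poly T'') F' → F' = face (poly T'') τ.1 := fun F' hF' =>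
    stable_unique T'' (sh c τ') hTpos hroll hcom'' F' hF'
  have hF0 : IsStable (poly T'') (face (poly T'') τ.1) := by
    rw [← huniq F hF]
    exact hF
  -- points on the cut faces
  have hpts : ∀ e ∈ D, ∀ y : ℝ, s ≤ y → y ≤ 6 * s → ∃ x : E3, x ∈ poly T' ∧
      ⟪τ.1, x⟫_ℝ = τ.2 - θ + θ * (s - y) ∧ ⟪e, x⟫_ℝ = y := by
    intro e he y hy1 hy2
    obtain ⟨hen, heτ, -⟩ := hD e he
    set α : ℝ := (τ.2 - θ + θ * (s - y)) / ‖τ.1‖ ^ 2 with hα
    refine ⟨α • τ.1 + y • e, ?_, ?_, ?_⟩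
    · have h1 : ⟪τ.1, α • τ.1 + y • e⟫_ℝ = τ.2 - θ + θ * (s - y) := by
        rw [inner_add_right, real_inner_smul_right, real_inner_smul_right, heτ,
          real_inner_self_eq_norm_sq, hα]
        field_simp
        ring
      have hys : 0 ≤ θ * (y - s) := mul_nonneg hθ.le (by linarith)
      have hinP : α • τ.1 + y • e ∈ poly T := by
        apply hfoot
        · have h2 : α • τ.1 + y • e - (τ.2 / ‖τ.1‖ ^ 2) • τ.1 =
              (-(θ * (1 + (y - s))) / ‖τ.1‖ ^ 2) • τ.1 + y • e := by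
            rw [add_sub_right_comm, ← sub_smul, hα, ← sub_div]
            congr 3
            ring
          rw [h2]
          refine (norm_add_le _ _).trans_lt ?_
          rw [norm_smul, norm_smul, hen, mul_one, Real.norm_of_nonneg (by linarith : 0 ≤ y),
            norm_div, norm_neg, Real.norm_of_nonneg (by
              apply mul_nonneg hθ.le; linarith : 0 ≤ θ * (1 + (y - s))),
            Real.norm_of_nonneg (by positivity : 0 ≤ ‖τ.1‖ ^ 2)]
          have h3 : θ * (1 + (y - s)) / ‖τ.1‖ ^ 2 * ‖τ.1‖ = θ * (1 + (y - s)) / ‖τ.1‖ := by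
            field_simp
          rw [h3]
          have h4 : θ * (1 + (y - s)) / ‖τ.1‖ ≤ ρ / 4 := by
            rw [div_le_iff₀ hN]
            refine le_trans ?_ hθ4
            exact mul_le_mul_of_nonneg_left (by linarith) hθ.le
          linarith
        · rw [h1]
          linarith
      intro p hp
      rcases mem_cutSys.1 hp with rfl | hp | ⟨e', he', rfl⟩
      · simp only
        rw [h1]
        linarith
      · exact hinP p hp
      · simp only
        rw [inner_add_left, h1, real_inner_smul_left, inner_add_right, real_inner_smul_right,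
          real_inner_smul_right, real_inner_comm τ.1 e', (hD e' he').2.1]
        have h5 : ⟪e', e⟫_ℝ ≤ 1 := by
          have := real_inner_le_norm e' e
          rwa [(hD e' he').1, hen, one_mul] at this
        have h6 : y * ⟪e', e⟫_ℝ ≤ y * 1 := mul_le_mul_of_nonneg_left h5 (by linarith)
        have h7 : θ * (y * ⟪e', e⟫_ℝ) ≤ θ * (y * 1) := mul_le_mul_of_nonneg_left h6 hθ.le
        linarith
    · rw [inner_add_right, real_inner_smul_right, real_inner_smul_right, heτ,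
        real_inner_self_eq_norm_sq, hα]
      field_simp
      ring
    · rw [inner_add_right, real_inner_smul_right, real_inner_smul_right,
        real_inner_comm τ.1 e, heτ, real_inner_self_eq_norm_sq, hen]
      ring
  -- diameter of the resting face
  have hdiam0 : diam (face (poly T'') τ.1) ≤ 4 * s := by
    obtain ⟨x0, hx0, hx0τ, -⟩ := hpts e0 he0 s le_rfl (by linarith)
    have hx0'' : x0 - c ∈ poly T'' := by
      rw [mem_poly_shSys, sub_add_cancel]
      exact hx0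
    have hge : ∀ x ∈ face (poly T'') τ.1, τ.2 - θ ≤ ⟪τ.1, x + c⟫_ℝ := by
      intro x hx
      have h1 := hx.2 _ hx0''
      rw [inner_sub_right, hx0τ] at h1
      rw [inner_add_right]
      linarith
    have hle : ∀ x ∈ face (poly T'') τ.1, ⟪τ.1, x + c⟫_ℝ = τ.2 - θ ∧
        ∀ e ∈ D, ⟪e, x + c⟫_ℝ ≤ s := by
      intro x hx
      have hxT' : x + c ∈ poly T' := mem_poly_shSys.1 hx.1
      have h1 := hge x hx
      have h2 : ⟪τ.1, x + c⟫_ℝ ≤ τ.2 - θ := hxT' _ hτ'T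
      refine ⟨le_antisymm h2 h1, fun e he => ?_⟩
      have h3 : ⟪τ.1 + θ • e, x + c⟫_ℝ ≤ τ.2 - θ + θ * s :=
        hxT' _ (mem_cutSys.2 (Or.inr (Or.inr ⟨e, he, rfl⟩)))
      rw [inner_add_left, real_inner_smul_left] at h3
      have h4 : θ * ⟪e, x + c⟫_ℝ ≤ θ * s := by linarith
      exact le_of_mul_le_mul_left h4 hθ
    apply Metric.diam_le_of_forall_dist_le (by linarith)
    intro x hx y hy
    obtain ⟨hx1, hx2⟩ := hle x hx
    obtain ⟨hy1, hy2⟩ := hle y hy
    rw [dist_eq_norm]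
    have h1 := hDw (x - y) (2 * s) (by
      rw [inner_add_right] at hx1 hy1
      rw [inner_sub_right]
      linarith) (fun e he => by
        have e1 := hx2 e he
        have e2 := hy2 (-e) (hD e he).2.2
        rw [inner_neg_left] at e2
        rw [inner_add_right] at e1 e2
        rw [inner_sub_right]
        linarith)
    linarith
  refine ⟨poly T'', face (poly T'') τ.1, ⟨hcomp'', hint'', T'', rfl⟩, hF0, huniq, ?_⟩
  intro G hG hGne
  refine hdiam0.trans_lt ?_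
  have hGn : G.Nonempty := face2_nonempty hG
  have hGsub : G ⊆ poly T'' := by
    obtain ⟨u, -, rfl, -⟩ := hG
    exact fun x hx => hx.1
  have hGb : Bornology.IsBounded G := hcomp''.isBounded.subset hGsub
  have hGconv : Convex ℝ G := by
    obtain ⟨u, -, rfl, -⟩ := hG
    exact face_convex _ _
  obtain ⟨q'', hq'', -, hGface, hGeq⟩ := face_active T'' hTpos hG hGconv hGn
  obtain ⟨q, hq, rfl⟩ := mem_shSys.1 hq''
  have hmemG : ∀ x ∈ poly T', ⟪q.1, x⟫_ℝ = q.2 → x - c ∈ G := by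
    intro x hx hxq
    rw [hGeq]
    refine ⟨by rw [mem_poly_shSys, sub_add_cancel]; exact hx, ?_⟩
    simp only [sh]
    rw [inner_sub_right, hxq]
  have hsufx : ∀ x ∈ poly T', ∀ y ∈ poly T', ⟪q.1, x⟫_ℝ = q.2 → ⟪q.1, y⟫_ℝ = q.2 →
      4 * s < ‖x - y‖ → 4 * s < diam G := by
    intro x hx y hy hxq hyq hxy
    have h1 := Metric.dist_le_diam_of_mem hGb (hmemG x hx hxq) (hmemG y hy hyq)
    rw [dist_eq_norm, sub_sub_sub_cancel_right] at h1
    linarith
  rcases mem_cutSys.1 hq with rfl | hqT | ⟨e, he, rfl⟩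
  · exact absurd hGface hGne
  · -- an old face
    obtain ⟨x1, hx1, x2, hx2, hx12⟩ : ∃ x1 ∈ G, ∃ x2 ∈ G, x2 ≠ x1 := by
      by_contra hcon
      push Not at hcon
      have hsing : G.Subsingleton := fun a ha b hb => hcon b hb a ha
      obtain ⟨u, -, -, hdim⟩ := hG
      rw [(vectorSpan_eq_bot_iff_subsingleton ℝ).2 hsing, finrank_bot] at hdim
      norm_num at hdim
    have hG1 : ∀ x ∈ G, x + c ∈ poly T ∧ ⟪q.1, x + c⟫_ℝ = q.2 ∧ ⟪τ.1, x + c⟫_ℝ < τ.2 := by
      intro x hx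
      have h1 : x + c ∈ poly T' := mem_poly_shSys.1 (hGsub hx)
      have h2 := hx
      rw [hGeq] at h2
      have h3 := h2.2
      simp only [sh] at h3
      have h4 : ⟪τ.1, x + c⟫_ℝ ≤ τ.2 - θ := h1 _ hτ'T
      refine ⟨cut_sub h1, ?_, by linarith⟩
      rw [inner_add_right]
      linarith
    obtain ⟨a, ha, b, hb, haq, hbq, haτ, hbτ, hab⟩ := hch q hqT
      ⟨x1 + c, (hG1 x1 hx1).1, (hG1 x1 hx1).2.1, (hG1 x1 hx1).2.2,
        x2 + c, (hG1 x2 hx2).1, (hG1 x2 hx2).2.1, fun h => hx12 (add_right_cancel h)⟩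
    have hin : ∀ x ∈ poly T, ⟪τ.1, x⟫_ℝ ≤ τ.2 - κ → x ∈ poly T' := by
      intro x hx hxτ p hp
      have hRθ : θ ≤ θ * (R + 1) := by nlinarith
      rcases mem_cutSys.1 hp with rfl | hp | ⟨e, he, rfl⟩
      · simp only
        linarith
      · exact hx p hp
      · simp only
        rw [inner_add_left, real_inner_smul_left]
        have h2 : ⟪e, x⟫_ℝ ≤ R := by
          refine (real_inner_le_norm _ _).trans ?_
          rw [(hD e he).1, one_mul]
          exact mem_closedBall_zero_iff.1 (hPR hx)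
        have h3 : θ * ⟪e, x⟫_ℝ ≤ θ * R := mul_le_mul_of_nonneg_left h2 hθ.le
        have h4 := mul_pos hθ hs0
        nlinarith
    exact hsufx a (hin a ha haτ) b (hin b hb hbτ) haq hbq (by linarith)
  · -- a cut face
    obtain ⟨x, hx, hxτ, hxe⟩ := hpts e he s le_rfl (by linarith)
    obtain ⟨y, hy, hyτ, hye⟩ := hpts e he (6 * s) (by linarith) le_rfl
    refine hsufx y hy x hx ?_ ?_ ?_
    · simp only
      rw [inner_add_left, real_inner_smul_left, hyτ, hye]
      ring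
    · simp only
      rw [inner_add_left, real_inner_smul_left, hxτ, hxe]
      ring
    · have h1 := real_inner_le_norm e (y - x)
      rw [(hD e he).1, one_mul, inner_sub_right, hxe, hye] at h1
      linarith

end Q144.MS
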