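import Mathlib

set_option autoImplicit false

namespace Q144.Maehara

/-- The key rank-one identity (with denominators cleared). -/
lemma key (m1 m2 m3 x y z : ℝ) (hs : m1 + m2 + m3 = -2)
    (hr : m1 * m2 + m1 * m3 + m2 * m3 = -2 * (m1 * m2 * m3))
    (hl : (m2 ^ 2 + m1) * x + (m3 ^ 2 + m1) * y + (m1 ^ 2 + m1) * z = 0) :
    (m1 + 1) ^ 2 *
      (4 * m1 * m2 ^ 2 * (m3 + 1) ^ 2 * (m1 * z * x - m2 * x ^ 2)
        + 4 * m1 * m3 ^ 2 * (m2 + 1) ^ 2 * (m1 * z * y - m3 * y ^ 2)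
        + 4 * m2 ^ 2 * m3 ^ 2 * (m1 + 1) ^ 2 * x * y
        + m2 * m3 * m1 ^ 2 * (x + y + z) ^ 2)
      = -3 * m1 ^ 2 * (m2 * m3) * (m2 * x - m3 * y) ^ 2 := by
  have h1 : m1 = -2 - m2 - m3 := by linarith
  have hZ : (m1 ^ 2 + m1) * z = -(m2 ^ 2 + m1) * x - (m3 ^ 2 + m1) * y := by linarith
  set Z : ℝ := (m1 ^ 2 + m1) * z with hZdef
  have e1 : (m1 + 1) ^ 2 *
      (4 * m1 * m2 ^ 2 * (m3 + 1) ^ 2 * (m1 * z * x - m2 * x ^ 2)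
        + 4 * m1 * m3 ^ 2 * (m2 + 1) ^ 2 * (m1 * z * y - m3 * y ^ 2)
        + 4 * m2 ^ 2 * m3 ^ 2 * (m1 + 1) ^ 2 * x * y
        + m2 * m3 * m1 ^ 2 * (x + y + z) ^ 2)
      = 4 * m1 * m2 ^ 2 * (m3 + 1) ^ 2 * ((m1 + 1) * Z * x - (m1 + 1) ^ 2 * m2 * x ^ 2)
        + 4 * m1 * m3 ^ 2 * (m2 + 1) ^ 2 * ((m1 + 1) * Z * y - (m1 + 1) ^ 2 * m3 * y ^ 2)
        + 4 * m2 ^ 2 * m3 ^ 2 * (m1 + 1) ^ 4 * x * y
        + m2 * m3 * (m1 * (m1 + 1) * (x + y) + Z) ^ 2 := by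
    rw [hZdef]; ring
  rw [e1, hZ]
  subst h1
  have hr' : (-2 - m2 - m3) * m2 + (-2 - m2 - m3) * m3 + m2 * m3
      + 2 * ((-2 - m2 - m3) * m2 * m3) = 0 := by linarith
  linear_combination (-2*x^2*m2^3*m3^2 - 7*x^2*m2^3*m3 - 8*x^2*m2^3 - 2*x^2*m2^2*m3^3 - 11*x^2*m2^2*m3^2 - 22*x^2*m2^2*m3 - 16*x^2*m2^2 - x^2*m2*m3^3 - 6*x^2*m2*m3^2 - 12*x^2*m2*m3 - 8*x^2*m2 - 4*x*y*m2^3*m3^2 - 4*x*y*m2^3 - 4*x*y*m2^2*m3^3 - 6*x*y*m2^2*m3^2 - 16*x*y*m2^2*m3 - 12*x*y*m2^2 - 16*x*y*m2*m3^2 - 28*x*y*m2*m3 - 8*x*y*m2 - 4*x*y*m3^3 - 12*x*y*m3^2 - 8*x*y*m3 - 2*y^2*m2^3*m3^2 - y^2*m2^3*m3 - 2*y^2*m2^2*m3^3 - 11*y^2*m2^2*m3^2 - 6*y^2*m2^2*m3 - 7*y^2*m2*m3^3 - 22*y^2*m2*m3^2 - 12*y^2*m2*m3 - 8*y^2*m3^3 - 16*y^2*m3^2 - 8*y^2*m3) * hr'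

/-- With all eigenvalues nonzero the product is positive. -/
lemma prod_pos (m1 m2 m3 : ℝ) (h1 : m1 ≠ 0) (h2 : m2 ≠ 0) (h3 : m3 ≠ 0)
    (hs : m1 + m2 + m3 = -2)
    (hr : m1 * m2 + m1 * m3 + m2 * m3 = -2 * (m1 * m2 * m3)) : 0 < m1 * m2 * m3 := by
  -- first the case analysis for one distinguished sign pattern
  have aux : ∀ a b c : ℝ, 0 < a → 0 < b → c < 0 → a + b + c = -2 →
      a * b + a * c + b * c = -2 * (a * b * c) → False := by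
    intro a b c ha hb hc hs hr
    -- c = -2 - a - b
    have hc' : c = -2 - a - b := by linarith
    subst hc'
    nlinarith [mul_pos ha hb, mul_pos (mul_pos ha hb) ha, mul_pos (mul_pos ha hb) hb]
  have aux2 : ∀ a b c : ℝ, a < 0 → b < 0 → c < 0 → a + b + c = -2 →
      a * b + a * c + b * c = -2 * (a * b * c) → False := by
    intro a b c ha hb hc hs hr
    have hab := mul_pos_of_neg_of_neg ha hb
    have hac := mul_pos_of_neg_of_neg ha hc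
    have hbc := mul_pos_of_neg_of_neg hb hc
    have habc : a * b * c < 0 := mul_neg_of_pos_of_neg hab hc
    -- (a+b+c)(ab+bc+ca) - 9abc <= 0 ... for negatives
    have h9 : (a + b + c) * (a * b + a * c + b * c) - 9 * (a * b * c) ≤ 0 := by
      nlinarith [mul_nonneg (neg_nonneg.mpr ha.le) (sq_nonneg (b - c)),
        mul_nonneg (neg_nonneg.mpr hb.le) (sq_nonneg (a - c)),
        mul_nonneg (neg_nonneg.mpr hc.le) (sq_nonneg (a - b))]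
    rw [hs, hr] at h9
    linarith
  rcases lt_or_gt_of_ne h1 with a1 | a1 <;> rcases lt_or_gt_of_ne h2 with a2 | a2 <;>
    rcases lt_or_gt_of_ne h3 with a3 | a3
  · exact (aux2 m1 m2 m3 a1 a2 a3 hs hr).elim
  · exact mul_pos (mul_pos_of_neg_of_neg a1 a2) a3
  · exact mul_pos_of_neg_of_neg (mul_neg_of_neg_of_pos a1 a2) a3
  · exact (aux m2 m3 m1 a2 a3 a1 (by linarith) (by linarith)).elim
  · exact mul_pos_of_neg_of_neg (mul_neg_of_pos_of_neg a1 a2) a3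
  · exact (aux m1 m3 m2 a1 a3 a2 (by linarith) (by linarith)).elim
  · exact (aux m1 m2 m3 a1 a2 a3 (by linarith) (by linarith)).elim
  · exact mul_pos (mul_pos a1 a2) a3

lemma ne_neg_one (m1 m2 m3 : ℝ) 
    (hs : m1 + m2 + m3 = -2)
    (hr : m1 * m2 + m1 * m3 + m2 * m3 = -2 * (m1 * m2 * m3)) 
    (hp : 0 < m1 * m2 * m3) : m1 ≠ -1 := by
  rintro rfl
  have : m2 + m3 = -1 := by linarith
  have h : m3 = -1 - m2 := by linarith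
  subst h
  nlinarith

/-- one block is nonpositive -/
lemma block (m1 m2 m3 x y z : ℝ) (h1 : m1 ≠ 0) (h2 : m2 ≠ 0) (h3 : m3 ≠ 0)
    (hs : m1 + m2 + m3 = -2)
    (hr : m1 * m2 + m1 * m3 + m2 * m3 = -2 * (m1 * m2 * m3))
    (hl : (m2 ^ 2 + m1) * x + (m3 ^ 2 + m1) * y + (m1 ^ 2 + m1) * z = 0) :
    4 * (m1 * m2 * ((m3 + 1) ^ 2 / m3)) * (m1 * z * x - m2 * x ^ 2)
      + 4 * (m1 * m3 * ((m2 + 1) ^ 2 / m2)) * (m1 * z * y - m3 * y ^ 2)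
      + 4 * (m2 * m3 * ((m1 + 1) ^ 2 / m1)) * (m1 * x * y)
      + m1 ^ 2 * (x + y + z) ^ 2 ≤ 0 := by
  have hk := key m1 m2 m3 x y z hs hr hl
  have hp := prod_pos m1 m2 m3 h1 h2 h3 hs hr
  have hn := ne_neg_one m1 m2 m3 hs hr hp
  have hn' : m1 + 1 ≠ 0 := by
    intro h; exact hn (by linarith)
  have hpos : 0 < (m1 + 1) ^ 2 := by positivity
  have e : (m1 + 1) ^ 2 * (4 * (m1 * m2 * ((m3 + 1) ^ 2 / m3)) * (m1 * z * x - m2 * x ^ 2)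
      + 4 * (m1 * m3 * ((m2 + 1) ^ 2 / m2)) * (m1 * z * y - m3 * y ^ 2)
      + 4 * (m2 * m3 * ((m1 + 1) ^ 2 / m1)) * (m1 * x * y)
      + m1 ^ 2 * (x + y + z) ^ 2) = -3 * m1 ^ 2 * (m2 * x - m3 * y) ^ 2 := by
    have h23 : m2 * m3 ≠ 0 := mul_ne_zero h2 h3
    apply mul_left_cancel₀ h23
    calc m2 * m3 * ((m1 + 1) ^ 2 * (4 * (m1 * m2 * ((m3 + 1) ^ 2 / m3)) * (m1 * z * x - m2 * x ^ 2)
      + 4 * (m1 * m3 * ((m2 + 1) ^ 2 / m2)) * (m1 * z * y - m3 * y ^ 2)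
      + 4 * (m2 * m3 * ((m1 + 1) ^ 2 / m1)) * (m1 * x * y)
      + m1 ^ 2 * (x + y + z) ^ 2)) = (m1 + 1) ^ 2 *
      (4 * m1 * m2 ^ 2 * (m3 + 1) ^ 2 * (m1 * z * x - m2 * x ^ 2)
        + 4 * m1 * m3 ^ 2 * (m2 + 1) ^ 2 * (m1 * z * y - m3 * y ^ 2)
        + 4 * m2 ^ 2 * m3 ^ 2 * (m1 + 1) ^ 2 * x * y
        + m2 * m3 * m1 ^ 2 * (x + y + z) ^ 2) := by
          field_simp
      _ = _ := by rw [hk]; ring
  by_contra hc
  push Not at hc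
  have := mul_pos hpos hc
  rw [e] at this
  nlinarith [mul_nonneg (sq_nonneg m1) (sq_nonneg (m2 * x - m3 * y))]

/-- The final contradiction from the moment relations. -/
lemma final (m1 m2 m3 T111 T222 T333 T112 T113 T221 T223 T331 T332 T123
    f12 f13 f23 L1 L2 L3 G1 G2 G3 t1 t2 t3 : ℝ)
    (h1 : m1 ≠ 0) (h2 : m2 ≠ 0) (h3 : m3 ≠ 0)
    (hs : m1 + m2 + m3 = -2)
    (hr : m1 * m2 + m1 * m3 + m2 * m3 = -2 * (m1 * m2 * m3))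
    (ht1 : t1 = -m1 * (T111 + T221 + T331))
    (ht2 : t2 = -m2 * (T112 + T222 + T332))
    (ht3 : t3 = -m3 * (T113 + T223 + T333))
    (hE1 : m1 ^ 2 * T111 + m2 ^ 2 * T221 + m3 ^ 2 * T331 = t1)
    (hE2 : m1 ^ 2 * T112 + m2 ^ 2 * T222 + m3 ^ 2 * T332 = t2)
    (hE3 : m1 ^ 2 * T113 + m2 ^ 2 * T223 + m3 ^ 2 * T333 = t3)
    (hf12 : f12 = -2 * (m1 * T112 ^ 2 + m2 * T221 ^ 2 + m3 * T123 ^ 2))
    (hf13 : f13 = -2 * (m1 * T113 ^ 2 + m2 * T123 ^ 2 + m3 * T331 ^ 2))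
    (hf23 : f23 = -2 * (m1 * T123 ^ 2 + m2 * T223 ^ 2 + m3 * T332 ^ 2))
    (g12 : 4 * m1 * m2 * (f12 + 2 * (m1 * T111 * T221 + m2 * T112 * T222 + m3 * T113 * T223))
      = -2 * m2 * G2 - 2 * m1 * L1 - 1 + 4 * m2 * (t1 * T221 + t2 * T222 + t3 * T223))
    (g21 : 4 * m1 * m2 * (f12 + 2 * (m1 * T111 * T221 + m2 * T112 * T222 + m3 * T113 * T223))
      = -2 * m1 * G1 - 2 * m2 * L2 - 1 + 4 * m1 * (t1 * T111 + t2 * T112 + t3 * T113))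
    (g13 : 4 * m1 * m3 * (f13 + 2 * (m1 * T111 * T331 + m2 * T112 * T332 + m3 * T113 * T333))
      = -2 * m3 * G3 - 2 * m1 * L1 - 1 + 4 * m3 * (t1 * T331 + t2 * T332 + t3 * T333))
    (g31 : 4 * m1 * m3 * (f13 + 2 * (m1 * T111 * T331 + m2 * T112 * T332 + m3 * T113 * T333))
      = -2 * m1 * G1 - 2 * m3 * L3 - 1 + 4 * m1 * (t1 * T111 + t2 * T112 + t3 * T113))
    (g23 : 4 * m2 * m3 * (f23 + 2 * (m1 * T221 * T331 + m2 * T222 * T332 + m3 * T223 * T333))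
      = -2 * m3 * G3 - 2 * m2 * L2 - 1 + 4 * m3 * (t1 * T331 + t2 * T332 + t3 * T333))
    (g32 : 4 * m2 * m3 * (f23 + 2 * (m1 * T221 * T331 + m2 * T222 * T332 + m3 * T223 * T333))
      = -2 * m2 * G2 - 2 * m3 * L3 - 1 + 4 * m2 * (t1 * T221 + t2 * T222 + t3 * T223))
    (hL : L1 + L2 + L3 = 1)
    (hG : m1 ^ 2 * G1 + m2 ^ 2 * G2 + m3 ^ 2 * G3 - (t1 ^ 2 + t2 ^ 2 + t3 ^ 2) = 1) : False := by
  have hp := prod_pos m1 m2 m3 h1 h2 h3 hs hr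
  set S12 := 4 * m1 * m2 * (f12 + 2 * (m1 * T111 * T221 + m2 * T112 * T222 + m3 * T113 * T223))
    with hS12
  set S13 := 4 * m1 * m3 * (f13 + 2 * (m1 * T111 * T331 + m2 * T112 * T332 + m3 * T113 * T333))
    with hS13
  set S23 := 4 * m2 * m3 * (f23 + 2 * (m1 * T221 * T331 + m2 * T222 * T332 + m3 * T223 * T333))
    with hS23
  set Y1 := -2 * m1 * G1 + 4 * m1 * (t1 * T111 + t2 * T112 + t3 * T113) with hY1
  set Y2 := -2 * m2 * G2 + 4 * m2 * (t1 * T221 + t2 * T222 + t3 * T223) with hY2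
  set Y3 := -2 * m3 * G3 + 4 * m3 * (t1 * T331 + t2 * T332 + t3 * T333) with hY3
  have e12 : S12 = Y2 + (-2 * m1 * L1) - 1 := by rw [g12, hY2]; ring
  have e21 : S12 = Y1 + (-2 * m2 * L2) - 1 := by rw [g21, hY1]; ring
  have e13 : S13 = Y3 + (-2 * m1 * L1) - 1 := by rw [g13, hY3]; ring
  have e31 : S13 = Y1 + (-2 * m3 * L3) - 1 := by rw [g31, hY1]; ring
  have e23 : S23 = Y3 + (-2 * m2 * L2) - 1 := by rw [g23, hY3]; ring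
  have e32 : S23 = Y2 + (-2 * m3 * L3) - 1 := by rw [g32, hY2]; ring
  have hmY : m1 * Y1 + m2 * Y2 + m3 * Y3 = -2 + 2 * (t1 ^ 2 + t2 ^ 2 + t3 ^ 2) := by
    rw [hY1, hY2, hY3]
    linear_combination (-2) * hG + 4 * t1 * hE1 + 4 * t2 * hE2 + 4 * t3 * hE3
  -- k = X_a - Y_a
  obtain ⟨κ, k1⟩ : ∃ κ, -2 * m1 * L1 = Y1 + κ := ⟨-2 * m1 * L1 - Y1, by ring⟩
  have k2 : -2 * m2 * L2 = Y2 + κ := by linarith
  have k3 : -2 * m3 * L3 = Y3 + κ := by linarith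
  have l1 : L1 = -(Y1 + κ) / (2 * m1) := by field_simp; linarith
  have l2 : L2 = -(Y2 + κ) / (2 * m2) := by field_simp; linarith
  have l3 : L3 = -(Y3 + κ) / (2 * m3) := by field_simp; linarith
  have hYd : Y1 / m1 + Y2 / m2 + Y3 / m3 = 2 * κ - 2 := by
    have hinv : 1 / m1 + 1 / m2 + 1 / m3 = -2 := by
      field_simp
      linarith
    have : (Y1 + κ) / m1 + (Y2 + κ) / m2 + (Y3 + κ) / m3 = -2 := by
      rw [l1, l2, l3] at hL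
      have : (Y1 + κ) / m1 + (Y2 + κ) / m2 + (Y3 + κ) / m3
        = -2 * (-(Y1 + κ) / (2 * m1) + -(Y2 + κ) / (2 * m2) + -(Y3 + κ) / (2 * m3)) := by
        field_simp
        ring
      rw [this, hL]; ring
    have h4 : (Y1 + κ) / m1 + (Y2 + κ) / m2 + (Y3 + κ) / m3
      = Y1 / m1 + Y2 / m2 + Y3 / m3 + κ * (1 / m1 + 1 / m2 + 1 / m3) := by ring
    rw [h4, hinv] at this
    linarith
  have hinv : 1 / m1 + 1 / m2 + 1 / m3 = -2 := by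
    field_simp
    linarith
  have hmain : (m3 + 1) ^ 2 / m3 * S12 + (m2 + 1) ^ 2 / m2 * S13 + (m1 + 1) ^ 2 / m1 * S23
      = 2 - 2 * (t1 ^ 2 + t2 ^ 2 + t3 ^ 2) := by
    have a1 : (m1 + 1) ^ 2 / m1 = 2 + m1 + 1 / m1 := by field_simp; ring
    have a2 : (m2 + 1) ^ 2 / m2 = 2 + m2 + 1 / m2 := by field_simp; ring
    have a3 : (m3 + 1) ^ 2 / m3 = 2 + m3 + 1 / m3 := by field_simp; ring
    have s12 : S12 = (Y1 + Y2 + Y3) + κ - 1 - Y3 := by linarith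
    have s13 : S13 = (Y1 + Y2 + Y3) + κ - 1 - Y2 := by linarith
    have s23 : S23 = (Y1 + Y2 + Y3) + κ - 1 - Y1 := by linarith
    rw [a1, a2, a3, s12, s13, s23]
    have hYd' : Y1 * (1 / m1) + Y2 * (1 / m2) + Y3 * (1 / m3) = 2 * κ - 2 := by
      rw [← hYd]; ring
    linear_combination ((Y1 + Y2 + Y3) + κ - 1) * hinv + ((Y1 + Y2 + Y3) + κ - 1) * hs
      - hmY - hYd'
  have b1 := block m1 m2 m3 T221 T331 T111 h1 h2 h3 hs hr (by rw [ht1] at hE1; linarith)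
  have b2 := block m2 m1 m3 T112 T332 T222 h2 h1 h3 (by linarith) (by linarith)
    (by rw [ht2] at hE2; linarith)
  have b3 := block m3 m1 m2 T113 T223 T333 h3 h1 h2 (by linarith) (by linarith)
    (by rw [ht3] at hE3; linarith)
  have hT : 0 ≤ m1 * m2 * m3 * T123 ^ 2 := by positivity
  have hsum : (4 * (m1 * m2 * ((m3 + 1) ^ 2 / m3)) * (m1 * T111 * T221 - m2 * T221 ^ 2)
      + 4 * (m1 * m3 * ((m2 + 1) ^ 2 / m2)) * (m1 * T111 * T331 - m3 * T331 ^ 2)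
      + 4 * (m2 * m3 * ((m1 + 1) ^ 2 / m1)) * (m1 * T221 * T331)
      + m1 ^ 2 * (T221 + T331 + T111) ^ 2)
     + (4 * (m2 * m1 * ((m3 + 1) ^ 2 / m3)) * (m2 * T222 * T112 - m1 * T112 ^ 2)
      + 4 * (m2 * m3 * ((m1 + 1) ^ 2 / m1)) * (m2 * T222 * T332 - m3 * T332 ^ 2)
      + 4 * (m1 * m3 * ((m2 + 1) ^ 2 / m2)) * (m2 * T112 * T332)
      + m2 ^ 2 * (T112 + T332 + T222) ^ 2)
     + (4 * (m3 * m1 * ((m2 + 1) ^ 2 / m2)) * (m3 * T333 * T113 - m1 * T113 ^ 2)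
      + 4 * (m3 * m2 * ((m1 + 1) ^ 2 / m1)) * (m3 * T333 * T223 - m2 * T223 ^ 2)
      + 4 * (m1 * m2 * ((m3 + 1) ^ 2 / m3)) * (m3 * T113 * T223)
      + m3 ^ 2 * (T113 + T223 + T333) ^ 2)
     - 8 * (m1 * m2 * m3) * T123 ^ 2 = 1 := by
    have a1 : (m1 + 1) ^ 2 / m1 = 2 + m1 + 1 / m1 := by field_simp; ring
    have a2 : (m2 + 1) ^ 2 / m2 = 2 + m2 + 1 / m2 := by field_simp; ring
    have a3 : (m3 + 1) ^ 2 / m3 = 2 + m3 + 1 / m3 := by field_simp; ring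
    rw [ht1, ht2, ht3, hS12, hS13, hS23, hf12, hf13, hf23, a1, a2, a3] at hmain
    rw [a1, a2, a3]
    have i1 : m1 * (1 / m1) = 1 := by field_simp
    have i2 : m2 * (1 / m2) = 1 := by field_simp
    have i3 : m3 * (1 / m3) = 1 := by field_simp
    linear_combination (1/2) * hmain + 4 * m1 * m2 * m3 * T123 ^ 2 * hs + 4 * m2 * m3 * T123 ^ 2 * i1 + 4 * m1 * m3 * T123 ^ 2 * i2 + 4 * m1 * m2 * T123 ^ 2 * i3
      + 4 * T123 ^ 2 * hr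
  linarith

end Q144.Maehara
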