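import Pool.Agent.Q144.MaeharaAlg

set_option autoImplicit false

namespace Q144.Maehara

open Finset Matrix

/-- weighted sum -/
noncomputable def W (k f : Fin 5 → ℝ) : ℝ := ∑ i, k i * f i

/-- squared norm of the point -/
def N (p : Fin 5 → Fin 3 → ℝ) (i : Fin 5) : ℝ := p i 0 ^ 2 + p i 1 ^ 2 + p i 2 ^ 2

section

variable (p c : Fin 5 → Fin 3 → ℝ) (t : Fin 5 → ℝ)

noncomputable def MP : Matrix (Fin 5) (Fin 5) ℝ :=
  Matrix.of fun i a => ![N p i, 1, p i 0, p i 1, p i 2] a

noncomputable def MC : Matrix (Fin 5) (Fin 5) ℝ :=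
  Matrix.of fun i a => ![1, N c i - 1, -2 * c i 0, -2 * c i 1, -2 * c i 2] a

lemma kernel (h : ∀ i j, (p i 0 - c j 0) ^ 2 + (p i 1 - c j 1) ^ 2 + (p i 2 - c j 2) ^ 2
      = 1 + if i = j then t i else 0) (i j : Fin 5) :
    N p i + N c j - 1 - 2 * (p i 0 * c j 0 + p i 1 * c j 1 + p i 2 * c j 2)
      = if i = j then t i else 0 := by
  have := h i j
  unfold N
  linarith

lemma mul_eq (h : ∀ i j, (p i 0 - c j 0) ^ 2 + (p i 1 - c j 1) ^ 2 + (p i 2 - c j 2) ^ 2
      = 1 + if i = j then t i else 0) :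
    MP p * (MC c)ᵀ = Matrix.diagonal t := by
  ext i j
  rw [Matrix.mul_apply, Matrix.diagonal_apply]
  have := kernel p c t h i j
  simp only [MP, MC, Matrix.transpose_apply, Matrix.of_apply, Fin.sum_univ_five]
  simp only [Matrix.cons_val]
  rw [← this]
  ring

lemma mul_one' (ht : ∀ i, t i ≠ 0)
    (h : ∀ i j, (p i 0 - c j 0) ^ 2 + (p i 1 - c j 1) ^ 2 + (p i 2 - c j 2) ^ 2
      = 1 + if i = j then t i else 0) :
    MP p * ((MC c)ᵀ * Matrix.diagonal (fun i => (t i)⁻¹)) = 1 := by
  rw [← Matrix.mul_assoc, mul_eq p c t h, Matrix.diagonal_mul_diagonal]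
  rw [← Matrix.diagonal_one]
  congr 1
  funext i
  exact mul_inv_cancel₀ (ht i)

lemma one_mul' (ht : ∀ i, t i ≠ 0)
    (h : ∀ i j, (p i 0 - c j 0) ^ 2 + (p i 1 - c j 1) ^ 2 + (p i 2 - c j 2) ^ 2
      = 1 + if i = j then t i else 0) :
    ((MC c)ᵀ * Matrix.diagonal (fun i => (t i)⁻¹)) * MP p = 1 :=
  mul_eq_one_comm.mp (mul_one' p c t ht h)

lemma entry (ht : ∀ i, t i ≠ 0)
    (h : ∀ i j, (p i 0 - c j 0) ^ 2 + (p i 1 - c j 1) ^ 2 + (p i 2 - c j 2) ^ 2
      = 1 + if i = j then t i else 0) (a b : Fin 5) :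
    W (fun i => (t i)⁻¹) (fun i => MC c i a * MP p i b) = if a = b then 1 else 0 := by
  have := congrFun (congrFun (one_mul' p c t ht h) a) b
  rw [Matrix.mul_apply, Matrix.one_apply] at this
  rw [← this]
  unfold W
  refine Finset.sum_congr rfl fun i _ => ?_
  rw [Matrix.mul_diagonal, Matrix.transpose_apply]
  ring

/-- the bilinear expansion -/
lemma expand (ht : ∀ i, t i ≠ 0)
    (h : ∀ i j, (p i 0 - c j 0) ^ 2 + (p i 1 - c j 1) ^ 2 + (p i 2 - c j 2) ^ 2
      = 1 + if i = j then t i else 0) (f g : Fin 5 → ℝ) :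
    W (fun i => (t i)⁻¹) (fun i => f i * g i)
      = W (fun i => (t i)⁻¹) f * W (fun i => (t i)⁻¹) (fun i => N p i * g i)
        + W (fun i => (t i)⁻¹) (fun i => (N c i - 1) * f i) * W (fun i => (t i)⁻¹) g
        - 2 * (W (fun i => (t i)⁻¹) (fun i => c i 0 * f i) * W (fun i => (t i)⁻¹) (fun i => p i 0 * g i)
          + W (fun i => (t i)⁻¹) (fun i => c i 1 * f i) * W (fun i => (t i)⁻¹) (fun i => p i 1 * g i)
          + W (fun i => (t i)⁻¹) (fun i => c i 2 * f i) * W (fun i => (t i)⁻¹) (fun i => p i 2 * g i)) := by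
  have hK := kernel p c t h
  have key : ∑ i, ∑ j, ((t i)⁻¹ * g i) * ((t j)⁻¹ * f j) *
      (N p i + N c j - 1 - 2 * (p i 0 * c j 0 + p i 1 * c j 1 + p i 2 * c j 2))
      = ∑ i, (t i)⁻¹ * (f i * g i) := by
    refine Finset.sum_congr rfl fun i _ => ?_
    rw [Finset.sum_eq_single i]
    · rw [hK i i, if_pos rfl]
      have := ht i
      field_simp
    · intro j _ hj
      rw [hK i j, if_neg (Ne.symm hj), mul_zero]
    · intro hi; exact absurd (Finset.mem_univ i) hi
  have e : ∑ i, ∑ j, ((t i)⁻¹ * g i) * ((t j)⁻¹ * f j) *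
      (N p i + N c j - 1 - 2 * (p i 0 * c j 0 + p i 1 * c j 1 + p i 2 * c j 2))
      = (∑ j, (t j)⁻¹ * f j) * (∑ i, (t i)⁻¹ * (N p i * g i))
        + (∑ j, (t j)⁻¹ * ((N c j - 1) * f j)) * (∑ i, (t i)⁻¹ * g i)
        - 2 * ((∑ j, (t j)⁻¹ * (c j 0 * f j)) * (∑ i, (t i)⁻¹ * (p i 0 * g i))
          + (∑ j, (t j)⁻¹ * (c j 1 * f j)) * (∑ i, (t i)⁻¹ * (p i 1 * g i))
          + (∑ j, (t j)⁻¹ * (c j 2 * f j)) * (∑ i, (t i)⁻¹ * (p i 2 * g i))) := by
    simp only [Finset.mul_sum, Finset.sum_mul, ← Finset.sum_add_distrib, ← Finset.sum_sub_distrib]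
    refine Finset.sum_congr rfl fun i _ => Finset.sum_congr rfl fun j _ => ?_
    ring
  unfold W
  rw [← key, e]

/-- reproducing identity -/
lemma repr (ht : ∀ i, t i ≠ 0)
    (h : ∀ i j, (p i 0 - c j 0) ^ 2 + (p i 1 - c j 1) ^ 2 + (p i 2 - c j 2) ^ 2
      = 1 + if i = j then t i else 0) (f : Fin 5 → ℝ) (i : Fin 5) :
    f i = N p i * W (fun i => (t i)⁻¹) f + W (fun i => (t i)⁻¹) (fun i => (N c i - 1) * f i)
        - 2 * (p i 0 * W (fun i => (t i)⁻¹) (fun i => c i 0 * f i)
          + p i 1 * W (fun i => (t i)⁻¹) (fun i => c i 1 * f i)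
          + p i 2 * W (fun i => (t i)⁻¹) (fun i => c i 2 * f i)) := by
  have hK := kernel p c t h
  have key : ∑ j, ((t j)⁻¹ * f j) *
      (N p i + N c j - 1 - 2 * (p i 0 * c j 0 + p i 1 * c j 1 + p i 2 * c j 2)) = f i := by
    rw [Finset.sum_eq_single i]
    · rw [hK i i, if_pos rfl]
      have := ht i
      field_simp
    · intro j _ hj
      rw [hK i j, if_neg (Ne.symm hj), mul_zero]
    · intro hi; exact absurd (Finset.mem_univ i) hi
  rw [← key]
  unfold W
  rw [key]
  rw [← key]
  simp only [Finset.mul_sum, ← Finset.sum_add_distrib, ← Finset.sum_sub_distrib]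
  refine Finset.sum_congr rfl fun j _ => ?_
  ring

end

section
variable {k : Fin 5 → ℝ}

lemma W_congr {f g : Fin 5 → ℝ} (h : ∀ i, f i = g i) : W k f = W k g := by
  unfold W
  exact Finset.sum_congr rfl fun i _ => by rw [h i]

lemma W_add (f g : Fin 5 → ℝ) : W k (fun i => f i + g i) = W k f + W k g := by
  unfold W
  rw [← Finset.sum_add_distrib]
  exact Finset.sum_congr rfl fun i _ => by ring

lemma W_sub (f g : Fin 5 → ℝ) : W k (fun i => f i - g i) = W k f - W k g := by
  unfold W
  rw [← Finset.sum_sub_distrib]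
  exact Finset.sum_congr rfl fun i _ => by ring

lemma W_smul (a : ℝ) (f : Fin 5 → ℝ) : W k (fun i => a * f i) = a * W k f := by
  unfold W
  rw [Finset.mul_sum]
  exact Finset.sum_congr rfl fun i _ => by ring

end

theorem core (p c : Fin 5 → Fin 3 → ℝ) (t : Fin 5 → ℝ) (ht : ∀ i, t i ≠ 0)
    (h : ∀ i j, (p i 0 - c j 0) ^ 2 + (p i 1 - c j 1) ^ 2 + (p i 2 - c j 2) ^ 2
      = 1 + if i = j then t i else 0)
    (d01 : W (fun i => (t i)⁻¹) (fun i => c i 0 * c i 1) = 0)
    (d02 : W (fun i => (t i)⁻¹) (fun i => c i 0 * c i 2) = 0)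
    (d12 : W (fun i => (t i)⁻¹) (fun i => c i 1 * c i 2) = 0) : False := by
  have hen := entry p c t ht h
  have hex := expand p c t ht h
  have hrp := repr p c t ht h
  generalize hk : (fun i => (t i)⁻¹) = k at *
  -- the moment identities
  have w_np : W k (fun i => N p i) = 1 := by
    have := hen 0 0
    simp only [MC, MP, Matrix.of_apply, Matrix.cons_val, if_true] at this
    refine Eq.trans ?_ this; exact W_congr fun i => by ring
  have w_1 : W k (fun _ => 1) = 0 := by
    have := hen 0 1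
    simp only [MC, MP, Matrix.of_apply, Matrix.cons_val] at this
    rw [if_neg (by decide)] at this
    rw [← this]; exact W_congr fun i => by ring
  have w_p0 : W k (fun i => p i 0) = 0 := by
    have := hen 0 2
    simp only [MC, MP, Matrix.of_apply, Matrix.cons_val] at this
    rw [if_neg (by decide)] at this
    rw [← this]; exact W_congr fun i => by ring
  have w_p1 : W k (fun i => p i 1) = 0 := by
    have := hen 0 3
    simp only [MC, MP, Matrix.of_apply, Matrix.cons_val] at this
    rw [if_neg (by decide)] at this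
    rw [← this]; exact W_congr fun i => by ring
  have w_p2 : W k (fun i => p i 2) = 0 := by
    have := hen 0 4
    simp only [MC, MP, Matrix.of_apply, Matrix.cons_val] at this
    rw [if_neg (by decide)] at this
    rw [← this]; exact W_congr fun i => by ring
  have w_ncnp : W k (fun i => (N c i - 1) * N p i) = 0 := by
    have := hen 1 0
    simp only [MC, MP, Matrix.of_apply, Matrix.cons_val] at this
    rw [if_neg (by decide)] at this
    exact this
  have w_nc : W k (fun i => N c i - 1) = 1 := by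
    have := hen 1 1
    simp only [MC, MP, Matrix.of_apply, Matrix.cons_val, if_true] at this
    refine Eq.trans ?_ this; exact W_congr fun i => by ring
  have w_ncp0 : W k (fun i => (N c i - 1) * p i 0) = 0 := by
    have := hen 1 2
    simp only [MC, MP, Matrix.of_apply, Matrix.cons_val] at this
    rw [if_neg (by decide)] at this
    exact this
  have w_ncp1 : W k (fun i => (N c i - 1) * p i 1) = 0 := by
    have := hen 1 3
    simp only [MC, MP, Matrix.of_apply, Matrix.cons_val] at this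
    rw [if_neg (by decide)] at this
    exact this
  have w_ncp2 : W k (fun i => (N c i - 1) * p i 2) = 0 := by
    have := hen 1 4
    simp only [MC, MP, Matrix.of_apply, Matrix.cons_val] at this
    rw [if_neg (by decide)] at this
    exact this
  have w_c0np : W k (fun i => -2 * c i 0 * N p i) = 0 := by
    have := hen 2 0
    simp only [MC, MP, Matrix.of_apply, Matrix.cons_val] at this
    rw [if_neg (by decide)] at this
    exact this
  have w_c1np : W k (fun i => -2 * c i 1 * N p i) = 0 := by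
    have := hen 3 0
    simp only [MC, MP, Matrix.of_apply, Matrix.cons_val] at this
    rw [if_neg (by decide)] at this
    exact this
  have w_c2np : W k (fun i => -2 * c i 2 * N p i) = 0 := by
    have := hen 4 0
    simp only [MC, MP, Matrix.of_apply, Matrix.cons_val] at this
    rw [if_neg (by decide)] at this
    exact this
  have w_c0 : W k (fun i => -2 * c i 0 * 1) = 0 := by
    have := hen 2 1
    simp only [MC, MP, Matrix.of_apply, Matrix.cons_val] at this
    rw [if_neg (by decide)] at this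
    exact this
  have w_c1 : W k (fun i => -2 * c i 1 * 1) = 0 := by
    have := hen 3 1
    simp only [MC, MP, Matrix.of_apply, Matrix.cons_val] at this
    rw [if_neg (by decide)] at this
    exact this
  have w_c2 : W k (fun i => -2 * c i 2 * 1) = 0 := by
    have := hen 4 1
    simp only [MC, MP, Matrix.of_apply, Matrix.cons_val] at this
    rw [if_neg (by decide)] at this
    exact this
  have w_c0p0 : W k (fun i => -2 * c i 0 * p i 0) = 1 := by
    have := hen 2 2
    simp only [MC, MP, Matrix.of_apply, Matrix.cons_val, if_true] at this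
    exact this
  have w_c1p1 : W k (fun i => -2 * c i 1 * p i 1) = 1 := by
    have := hen 3 3
    simp only [MC, MP, Matrix.of_apply, Matrix.cons_val, if_true] at this
    exact this
  have w_c2p2 : W k (fun i => -2 * c i 2 * p i 2) = 1 := by
    have := hen 4 4
    simp only [MC, MP, Matrix.of_apply, Matrix.cons_val, if_true] at this
    exact this
  have w_c0p1 : W k (fun i => -2 * c i 0 * p i 1) = 0 := by
    have := hen 2 3
    simp only [MC, MP, Matrix.of_apply, Matrix.cons_val] at this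
    rw [if_neg (by decide)] at this
    exact this
  have w_c0p2 : W k (fun i => -2 * c i 0 * p i 2) = 0 := by
    have := hen 2 4
    simp only [MC, MP, Matrix.of_apply, Matrix.cons_val] at this
    rw [if_neg (by decide)] at this
    exact this
  have w_c1p2 : W k (fun i => -2 * c i 1 * p i 2) = 0 := by
    have := hen 3 4
    simp only [MC, MP, Matrix.of_apply, Matrix.cons_val] at this
    rw [if_neg (by decide)] at this
    exact this
  clear hen
  -- the affine relation
  obtain ⟨m0, hm0⟩ : ∃ m0, m0 = -2 * W k (fun i => c i 0 * c i 0) := ⟨_, rfl⟩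
  obtain ⟨m1, hm1⟩ : ∃ m1, m1 = -2 * W k (fun i => c i 1 * c i 1) := ⟨_, rfl⟩
  obtain ⟨m2, hm2⟩ : ∃ m2, m2 = -2 * W k (fun i => c i 2 * c i 2) := ⟨_, rfl⟩
  obtain ⟨s0, hs0⟩ : ∃ s, s = W k (fun i => (N c i - 1) * c i 0) := ⟨_, rfl⟩
  obtain ⟨s1, hs1⟩ : ∃ s, s = W k (fun i => (N c i - 1) * c i 1) := ⟨_, rfl⟩
  obtain ⟨s2, hs2⟩ : ∃ s, s = W k (fun i => (N c i - 1) * c i 2) := ⟨_, rfl⟩
  have v_c0 : W k (fun i => c i 0) = 0 := by
    have : W k (fun i => -2 * c i 0 * 1) = -2 * W k (fun i => c i 0) := by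
      rw [← W_smul]; exact W_congr fun i => by ring
    linarith
  have v_c1 : W k (fun i => c i 1) = 0 := by
    have : W k (fun i => -2 * c i 1 * 1) = -2 * W k (fun i => c i 1) := by
      rw [← W_smul]; exact W_congr fun i => by ring
    linarith
  have v_c2 : W k (fun i => c i 2) = 0 := by
    have : W k (fun i => -2 * c i 2 * 1) = -2 * W k (fun i => c i 2) := by
      rw [← W_smul]; exact W_congr fun i => by ring
    linarith
  have d10 : W k (fun i => c i 1 * c i 0) = 0 := by
    rw [← d01]; exact W_congr fun i => by ring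
  have d20 : W k (fun i => c i 2 * c i 0) = 0 := by
    rw [← d02]; exact W_congr fun i => by ring
  have d21 : W k (fun i => c i 2 * c i 1) = 0 := by
    rw [← d12]; exact W_congr fun i => by ring
  have hc0 : ∀ i, c i 0 = m0 * p i 0 + s0 := by
    intro i
    have := hrp (fun i => c i 0) i
    rw [v_c0, d10, d20, ← hs0] at this
    rw [this, hm0]; ring
  have hc1 : ∀ i, c i 1 = m1 * p i 1 + s1 := by
    intro i
    have := hrp (fun i => c i 1) i
    rw [v_c1, d01, d21, ← hs1] at this
    rw [this, hm1]; ring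
  have hc2 : ∀ i, c i 2 = m2 * p i 2 + s2 := by
    intro i
    have := hrp (fun i => c i 2) i
    rw [v_c2, d02, d12, ← hs2] at this
    rw [this, hm2]; ring
  clear hrp
  -- eigenvalue relations
  have A01 : W k (fun i => p i 0 * p i 1) * m0 = 0 := by
    have e : W k (fun i => -2 * c i 0 * p i 1)
        = -2 * m0 * W k (fun i => p i 0 * p i 1) + -2 * s0 * W k (fun i => p i 1) := by
      rw [← W_smul, ← W_smul, ← W_add]; exact W_congr fun i => by rw [hc0 i]; ring
    rw [w_c0p1, w_p1] at e; linarith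
  have A02 : W k (fun i => p i 0 * p i 2) * m0 = 0 := by
    have e : W k (fun i => -2 * c i 0 * p i 2)
        = -2 * m0 * W k (fun i => p i 0 * p i 2) + -2 * s0 * W k (fun i => p i 2) := by
      rw [← W_smul, ← W_smul, ← W_add]; exact W_congr fun i => by rw [hc0 i]; ring
    rw [w_c0p2, w_p2] at e; linarith
  have A12 : W k (fun i => p i 1 * p i 2) * m1 = 0 := by
    have e : W k (fun i => -2 * c i 1 * p i 2)
        = -2 * m1 * W k (fun i => p i 1 * p i 2) + -2 * s1 * W k (fun i => p i 2) := by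
      rw [← W_smul, ← W_smul, ← W_add]; exact W_congr fun i => by rw [hc1 i]; ring
    rw [w_c1p2, w_p2] at e; linarith
  have A0 : -2 * m0 * W k (fun i => p i 0 * p i 0) = 1 := by
    have e : W k (fun i => -2 * c i 0 * p i 0)
        = -2 * m0 * W k (fun i => p i 0 * p i 0) + -2 * s0 * W k (fun i => p i 0) := by
      rw [← W_smul, ← W_smul, ← W_add]; exact W_congr fun i => by rw [hc0 i]; ring
    rw [w_c0p0, w_p0] at e; linarith
  have A1 : -2 * m1 * W k (fun i => p i 1 * p i 1) = 1 := by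
    have e : W k (fun i => -2 * c i 1 * p i 1)
        = -2 * m1 * W k (fun i => p i 1 * p i 1) + -2 * s1 * W k (fun i => p i 1) := by
      rw [← W_smul, ← W_smul, ← W_add]; exact W_congr fun i => by rw [hc1 i]; ring
    rw [w_c1p1, w_p1] at e; linarith
  have A2 : -2 * m2 * W k (fun i => p i 2 * p i 2) = 1 := by
    have e : W k (fun i => -2 * c i 2 * p i 2)
        = -2 * m2 * W k (fun i => p i 2 * p i 2) + -2 * s2 * W k (fun i => p i 2) := by
      rw [← W_smul, ← W_smul, ← W_add]; exact W_congr fun i => by rw [hc2 i]; ring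
    rw [w_c2p2, w_p2] at e; linarith
  have n0 : m0 ≠ 0 := by rintro rfl; norm_num at A0
  have n1 : m1 ≠ 0 := by rintro rfl; norm_num at A1
  have n2 : m2 ≠ 0 := by rintro rfl; norm_num at A2
  have B01 : W k (fun i => p i 0 * p i 1) = 0 := (mul_eq_zero.mp A01).resolve_right n0
  have B02 : W k (fun i => p i 0 * p i 2) = 0 := (mul_eq_zero.mp A02).resolve_right n0
  have B12 : W k (fun i => p i 1 * p i 2) = 0 := (mul_eq_zero.mp A12).resolve_right n1
  set a0 := W k (fun i => p i 0 * p i 0) with ha0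
  set a1 := W k (fun i => p i 1 * p i 1) with ha1
  set a2 := W k (fun i => p i 2 * p i 2) with ha2
  have htr : a0 + a1 + a2 = 1 := by
    rw [← w_np, ha0, ha1, ha2, ← W_add, ← W_add]
    exact W_congr fun i => by unfold N; ring
  have hsum : m0 + m1 + m2 = -2 := by
    have e : W k (fun i => N c i - 1) = W k (fun i => c i 0 * c i 0) + W k (fun i => c i 1 * c i 1)
        + W k (fun i => c i 2 * c i 2) - W k (fun _ => 1) := by
      rw [← W_add, ← W_add, ← W_sub]
      exact W_congr fun i => by unfold N; ring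
    rw [w_nc, w_1] at e
    linarith
  have hrec : m0 * m1 + m0 * m2 + m1 * m2 = -2 * (m0 * m1 * m2) := by
    linear_combination (-2 * m0 * m1 * m2) * htr - (m1 * m2) * A0 - m0 * m2 * A1 - m0 * m1 * A2
  -- third moments
  have wT : ∀ a : Fin 3, W k (fun i => N p i * p i a) = W k (fun i => p i 0 * p i 0 * p i a)
      + W k (fun i => p i 1 * p i 1 * p i a) + W k (fun i => p i 2 * p i 2 * p i a) := by
    intro a
    rw [← W_add, ← W_add]
    exact W_congr fun i => by unfold N; ring
  have wNC : ∀ g : Fin 5 → ℝ, W k (fun i => N c i * g i)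
      = m0 ^ 2 * W k (fun i => p i 0 * p i 0 * g i) + m1 ^ 2 * W k (fun i => p i 1 * p i 1 * g i)
        + m2 ^ 2 * W k (fun i => p i 2 * p i 2 * g i)
        + 2 * m0 * s0 * W k (fun i => p i 0 * g i) + 2 * m1 * s1 * W k (fun i => p i 1 * g i)
        + 2 * m2 * s2 * W k (fun i => p i 2 * g i) + (s0 ^ 2 + s1 ^ 2 + s2 ^ 2) * W k g := by
    intro g
    simp only [← W_smul, ← W_add]
    exact W_congr fun i => by unfold N; rw [hc0 i, hc1 i, hc2 i]; ring
  have wS : ∀ g : Fin 5 → ℝ, W k (fun i => (N c i - 1) * g i) = W k (fun i => N c i * g i) - W k g := by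
    intro g
    rw [← W_sub]
    exact W_congr fun i => by ring
  set T000 := W k (fun i => p i 0 * p i 0 * p i 0) with hT000
  set T110 := W k (fun i => p i 1 * p i 1 * p i 0) with hT110
  set T220 := W k (fun i => p i 2 * p i 2 * p i 0) with hT220
  set T001 := W k (fun i => p i 0 * p i 0 * p i 1) with hT001
  set T111 := W k (fun i => p i 1 * p i 1 * p i 1) with hT111
  set T221 := W k (fun i => p i 2 * p i 2 * p i 1) with hT221
  set T002 := W k (fun i => p i 0 * p i 0 * p i 2) with hT002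
  set T112 := W k (fun i => p i 1 * p i 1 * p i 2) with hT112
  set T222 := W k (fun i => p i 2 * p i 2 * p i 2) with hT222
  set T012 := W k (fun i => p i 0 * p i 1 * p i 2) with hT012
  have B10 : W k (fun i => p i 1 * p i 0) = 0 := by
    rw [← B01]; exact W_congr fun i => by ring
  have B20 : W k (fun i => p i 2 * p i 0) = 0 := by
    rw [← B02]; exact W_congr fun i => by ring
  have B21 : W k (fun i => p i 2 * p i 1) = 0 := by
    rw [← B12]; exact W_congr fun i => by ring
  have hE0 : m0 ^ 2 * T000 + m1 ^ 2 * T110 + m2 ^ 2 * T220 = s0 := by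
    have e1 := wS (fun i => p i 0)
    rw [w_ncp0, wNC (fun i => p i 0), B10, B20, w_p0, ← ha0] at e1
    linear_combination -e1 + s0 * A0
  have hE1 : m0 ^ 2 * T001 + m1 ^ 2 * T111 + m2 ^ 2 * T221 = s1 := by
    have e1 := wS (fun i => p i 1)
    rw [w_ncp1, wNC (fun i => p i 1), B01, B21, w_p1, ← ha1] at e1
    linear_combination -e1 + s1 * A1
  have hE2 : m0 ^ 2 * T002 + m1 ^ 2 * T112 + m2 ^ 2 * T222 = s2 := by
    have e1 := wS (fun i => p i 2)
    rw [w_ncp2, wNC (fun i => p i 2), B02, B12, w_p2, ← ha2] at e1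
    linear_combination -e1 + s2 * A2
  have hn0 : W k (fun i => N p i * p i 0) * m0 = -s0 := by
    have e : W k (fun i => -2 * c i 0 * N p i)
        = -2 * m0 * W k (fun i => N p i * p i 0) + -2 * s0 * W k (fun i => N p i) := by
      rw [← W_smul, ← W_smul, ← W_add]; exact W_congr fun i => by rw [hc0 i]; ring
    rw [w_c0np, w_np] at e; linarith
  have hn1 : W k (fun i => N p i * p i 1) * m1 = -s1 := by
    have e : W k (fun i => -2 * c i 1 * N p i)
        = -2 * m1 * W k (fun i => N p i * p i 1) + -2 * s1 * W k (fun i => N p i) := by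
      rw [← W_smul, ← W_smul, ← W_add]; exact W_congr fun i => by rw [hc1 i]; ring
    rw [w_c1np, w_np] at e; linarith
  have hn2 : W k (fun i => N p i * p i 2) * m2 = -s2 := by
    have e : W k (fun i => -2 * c i 2 * N p i)
        = -2 * m2 * W k (fun i => N p i * p i 2) + -2 * s2 * W k (fun i => N p i) := by
      rw [← W_smul, ← W_smul, ← W_add]; exact W_congr fun i => by rw [hc2 i]; ring
    rw [w_c2np, w_np] at e; linarith
  have hs0' : s0 = -m0 * (T000 + T110 + T220) := by
    have := wT 0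
    rw [this] at hn0; linarith
  have hs1' : s1 = -m1 * (T001 + T111 + T221) := by
    have := wT 1
    rw [this] at hn1; linarith
  have hs2' : s2 = -m2 * (T002 + T112 + T222) := by
    have := wT 2
    rw [this] at hn2; linarith
  -- fourth moments
  set f01 := W k (fun i => (p i 0 * p i 1) * (p i 0 * p i 1)) with hf01
  set f02 := W k (fun i => (p i 0 * p i 2) * (p i 0 * p i 2)) with hf02
  set f12 := W k (fun i => (p i 1 * p i 2) * (p i 1 * p i 2)) with hf12
  have F01 : f01 = -2 * (m0 * T001 ^ 2 + m1 * T110 ^ 2 + m2 * T012 ^ 2) := by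
    have e := hex (fun i => p i 0 * p i 1) (fun i => p i 0 * p i 1)
    have x0 : W k (fun i => c i 0 * (p i 0 * p i 1)) = m0 * T001 := by
      have : W k (fun i => c i 0 * (p i 0 * p i 1)) = m0 * T001 + s0 * W k (fun i => p i 0 * p i 1) := by
        rw [hT001, ← W_smul, ← W_smul, ← W_add]; exact W_congr fun i => by rw [hc0 i]; ring
      rw [this, B01]; ring
    have x1 : W k (fun i => c i 1 * (p i 0 * p i 1)) = m1 * T110 := by
      have : W k (fun i => c i 1 * (p i 0 * p i 1)) = m1 * T110 + s1 * W k (fun i => p i 0 * p i 1) := by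
        rw [hT110, ← W_smul, ← W_smul, ← W_add]; exact W_congr fun i => by rw [hc1 i]; ring
      rw [this, B01]; ring
    have x2 : W k (fun i => c i 2 * (p i 0 * p i 1)) = m2 * T012 := by
      have : W k (fun i => c i 2 * (p i 0 * p i 1)) = m2 * T012 + s2 * W k (fun i => p i 0 * p i 1) := by
        rw [hT012, ← W_smul, ← W_smul, ← W_add]; exact W_congr fun i => by rw [hc2 i]; ring
      rw [this, B01]; ring
    have y0 : W k (fun i => p i 0 * (p i 0 * p i 1)) = T001 := by
      rw [hT001]; exact W_congr fun i => by ring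
    have y1 : W k (fun i => p i 1 * (p i 0 * p i 1)) = T110 := by
      rw [hT110]; exact W_congr fun i => by ring
    have y2 : W k (fun i => p i 2 * (p i 0 * p i 1)) = T012 := by
      rw [hT012]; exact W_congr fun i => by ring
    rw [x0, x1, x2, y0, y1, y2, B01, ← hf01] at e
    rw [e]; ring
  have F02 : f02 = -2 * (m0 * T002 ^ 2 + m1 * T012 ^ 2 + m2 * T220 ^ 2) := by
    have e := hex (fun i => p i 0 * p i 2) (fun i => p i 0 * p i 2)
    have x0 : W k (fun i => c i 0 * (p i 0 * p i 2)) = m0 * T002 := by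
      have : W k (fun i => c i 0 * (p i 0 * p i 2)) = m0 * T002 + s0 * W k (fun i => p i 0 * p i 2) := by
        rw [hT002, ← W_smul, ← W_smul, ← W_add]; exact W_congr fun i => by rw [hc0 i]; ring
      rw [this, B02]; ring
    have x1 : W k (fun i => c i 1 * (p i 0 * p i 2)) = m1 * T012 := by
      have : W k (fun i => c i 1 * (p i 0 * p i 2)) = m1 * T012 + s1 * W k (fun i => p i 0 * p i 2) := by
        rw [hT012, ← W_smul, ← W_smul, ← W_add]; exact W_congr fun i => by rw [hc1 i]; ring
      rw [this, B02]; ring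
    have x2 : W k (fun i => c i 2 * (p i 0 * p i 2)) = m2 * T220 := by
      have : W k (fun i => c i 2 * (p i 0 * p i 2)) = m2 * T220 + s2 * W k (fun i => p i 0 * p i 2) := by
        rw [hT220, ← W_smul, ← W_smul, ← W_add]; exact W_congr fun i => by rw [hc2 i]; ring
      rw [this, B02]; ring
    have y0 : W k (fun i => p i 0 * (p i 0 * p i 2)) = T002 := by
      rw [hT002]; exact W_congr fun i => by ring
    have y1 : W k (fun i => p i 1 * (p i 0 * p i 2)) = T012 := by
      rw [hT012]; exact W_congr fun i => by ring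
    have y2 : W k (fun i => p i 2 * (p i 0 * p i 2)) = T220 := by
      rw [hT220]; exact W_congr fun i => by ring
    rw [x0, x1, x2, y0, y1, y2, B02, ← hf02] at e
    rw [e]; ring
  have F12 : f12 = -2 * (m0 * T012 ^ 2 + m1 * T112 ^ 2 + m2 * T221 ^ 2) := by
    have e := hex (fun i => p i 1 * p i 2) (fun i => p i 1 * p i 2)
    have x0 : W k (fun i => c i 0 * (p i 1 * p i 2)) = m0 * T012 := by
      have : W k (fun i => c i 0 * (p i 1 * p i 2)) = m0 * T012 + s0 * W k (fun i => p i 1 * p i 2) := by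
        rw [hT012, ← W_smul, ← W_smul, ← W_add]; exact W_congr fun i => by rw [hc0 i]; ring
      rw [this, B12]; ring
    have x1 : W k (fun i => c i 1 * (p i 1 * p i 2)) = m1 * T112 := by
      have : W k (fun i => c i 1 * (p i 1 * p i 2)) = m1 * T112 + s1 * W k (fun i => p i 1 * p i 2) := by
        rw [hT112, ← W_smul, ← W_smul, ← W_add]; exact W_congr fun i => by rw [hc1 i]; ring
      rw [this, B12]; ring
    have x2 : W k (fun i => c i 2 * (p i 1 * p i 2)) = m2 * T221 := by
      have : W k (fun i => c i 2 * (p i 1 * p i 2)) = m2 * T221 + s2 * W k (fun i => p i 1 * p i 2) := by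
        rw [hT221, ← W_smul, ← W_smul, ← W_add]; exact W_congr fun i => by rw [hc2 i]; ring
      rw [this, B12]; ring
    have y0 : W k (fun i => p i 0 * (p i 1 * p i 2)) = T012 := by
      rw [hT012]; exact W_congr fun i => by ring
    have y1 : W k (fun i => p i 1 * (p i 1 * p i 2)) = T112 := by
      rw [hT112]; exact W_congr fun i => by ring
    have y2 : W k (fun i => p i 2 * (p i 1 * p i 2)) = T221 := by
      rw [hT221]; exact W_congr fun i => by ring
    rw [x0, x1, x2, y0, y1, y2, B12, ← hf12] at e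
    rw [e]; ring
  obtain ⟨L0, hL0⟩ : ∃ L, L = W k (fun i => N c i * (p i 0 * p i 0)) := ⟨_, rfl⟩
  obtain ⟨L1, hL1⟩ : ∃ L, L = W k (fun i => N c i * (p i 1 * p i 1)) := ⟨_, rfl⟩
  obtain ⟨L2, hL2⟩ : ∃ L, L = W k (fun i => N c i * (p i 2 * p i 2)) := ⟨_, rfl⟩
  obtain ⟨G0, hG0⟩ : ∃ L, L = W k (fun i => N p i * (p i 0 * p i 0)) := ⟨_, rfl⟩
  obtain ⟨G1, hG1⟩ : ∃ L, L = W k (fun i => N p i * (p i 1 * p i 1)) := ⟨_, rfl⟩
  obtain ⟨G2, hG2⟩ : ∃ L, L = W k (fun i => N p i * (p i 2 * p i 2)) := ⟨_, rfl⟩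
  have z00 : W k (fun i => c i 0 * (p i 0 * p i 0)) = m0 * T000 + s0 * a0 := by
    rw [hT000, ha0, ← W_smul, ← W_smul, ← W_add]; exact W_congr fun i => by rw [hc0 i]; ring
  have y00 : W k (fun i => p i 0 * (p i 0 * p i 0)) = T000 := by
    rw [hT000]; exact W_congr fun i => by ring
  have z01 : W k (fun i => c i 1 * (p i 0 * p i 0)) = m1 * T001 + s1 * a0 := by
    rw [hT001, ha0, ← W_smul, ← W_smul, ← W_add]; exact W_congr fun i => by rw [hc1 i]; ring
  have y01 : W k (fun i => p i 1 * (p i 0 * p i 0)) = T001 := by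
    rw [hT001]; exact W_congr fun i => by ring
  have z02 : W k (fun i => c i 2 * (p i 0 * p i 0)) = m2 * T002 + s2 * a0 := by
    rw [hT002, ha0, ← W_smul, ← W_smul, ← W_add]; exact W_congr fun i => by rw [hc2 i]; ring
  have y02 : W k (fun i => p i 2 * (p i 0 * p i 0)) = T002 := by
    rw [hT002]; exact W_congr fun i => by ring
  have z10 : W k (fun i => c i 0 * (p i 1 * p i 1)) = m0 * T110 + s0 * a1 := by
    rw [hT110, ha1, ← W_smul, ← W_smul, ← W_add]; exact W_congr fun i => by rw [hc0 i]; ring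
  have y10 : W k (fun i => p i 0 * (p i 1 * p i 1)) = T110 := by
    rw [hT110]; exact W_congr fun i => by ring
  have z11 : W k (fun i => c i 1 * (p i 1 * p i 1)) = m1 * T111 + s1 * a1 := by
    rw [hT111, ha1, ← W_smul, ← W_smul, ← W_add]; exact W_congr fun i => by rw [hc1 i]; ring
  have y11 : W k (fun i => p i 1 * (p i 1 * p i 1)) = T111 := by
    rw [hT111]; exact W_congr fun i => by ring
  have z12 : W k (fun i => c i 2 * (p i 1 * p i 1)) = m2 * T112 + s2 * a1 := by
    rw [hT112, ha1, ← W_smul, ← W_smul, ← W_add]; exact W_congr fun i => by rw [hc2 i]; ring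
  have y12 : W k (fun i => p i 2 * (p i 1 * p i 1)) = T112 := by
    rw [hT112]; exact W_congr fun i => by ring
  have z20 : W k (fun i => c i 0 * (p i 2 * p i 2)) = m0 * T220 + s0 * a2 := by
    rw [hT220, ha2, ← W_smul, ← W_smul, ← W_add]; exact W_congr fun i => by rw [hc0 i]; ring
  have y20 : W k (fun i => p i 0 * (p i 2 * p i 2)) = T220 := by
    rw [hT220]; exact W_congr fun i => by ring
  have z21 : W k (fun i => c i 1 * (p i 2 * p i 2)) = m1 * T221 + s1 * a2 := by
    rw [hT221, ha2, ← W_smul, ← W_smul, ← W_add]; exact W_congr fun i => by rw [hc1 i]; ring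
  have y21 : W k (fun i => p i 1 * (p i 2 * p i 2)) = T221 := by
    rw [hT221]; exact W_congr fun i => by ring
  have z22 : W k (fun i => c i 2 * (p i 2 * p i 2)) = m2 * T222 + s2 * a2 := by
    rw [hT222, ha2, ← W_smul, ← W_smul, ← W_add]; exact W_congr fun i => by rw [hc2 i]; ring
  have y22 : W k (fun i => p i 2 * (p i 2 * p i 2)) = T222 := by
    rw [hT222]; exact W_congr fun i => by ring
  have g01 : 4 * m0 * m1 * (f01 + 2 * (m0 * T000 * T110 + m1 * T001 * T111 + m2 * T002 * T112))
      = -2 * m1 * G1 - 2 * m0 * L0 - 1 + 4 * m1 * (s0 * T110 + s1 * T111 + s2 * T112) := by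
    have e := hex (fun i => p i 0 * p i 0) (fun i => p i 1 * p i 1)
    have hf : W k (fun i => (p i 0 * p i 0) * (p i 1 * p i 1)) = f01 := by
      rw [hf01]; exact W_congr fun i => by ring
    rw [hf, ← ha0, ← ha1, wS (fun i => p i 0 * p i 0), ← hG1, ← hL0, ← ha0, z00, z01, z02, y10, y11, y12] at e
    linear_combination (4 * m0 * m1) * e + (-2 * m1 * G1) * A0 + (-2 * m0 * L0) * A1 + (2 * m1 * a1) * A0 - A1 + (4 * m1 * (s0 * T110 + s1 * T111 + s2 * T112)) * A0
  have g10 : 4 * m0 * m1 * (f01 + 2 * (m0 * T000 * T110 + m1 * T001 * T111 + m2 * T002 * T112))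
      = -2 * m0 * G0 - 2 * m1 * L1 - 1 + 4 * m0 * (s0 * T000 + s1 * T001 + s2 * T002) := by
    have e := hex (fun i => p i 1 * p i 1) (fun i => p i 0 * p i 0)
    have hf : W k (fun i => (p i 1 * p i 1) * (p i 0 * p i 0)) = f01 := by
      rw [hf01]; exact W_congr fun i => by ring
    rw [hf, ← ha1, ← ha0, wS (fun i => p i 1 * p i 1), ← hG0, ← hL1, ← ha1, z10, z11, z12, y00, y01, y02] at e
    linear_combination (4 * m1 * m0) * e + (-2 * m0 * G0) * A1 + (-2 * m1 * L1) * A0 + (2 * m0 * a0) * A1 - A0 + (4 * m0 * (s0 * T000 + s1 * T001 + s2 * T002)) * A1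
  have g02 : 4 * m0 * m2 * (f02 + 2 * (m0 * T000 * T220 + m1 * T001 * T221 + m2 * T002 * T222))
      = -2 * m2 * G2 - 2 * m0 * L0 - 1 + 4 * m2 * (s0 * T220 + s1 * T221 + s2 * T222) := by
    have e := hex (fun i => p i 0 * p i 0) (fun i => p i 2 * p i 2)
    have hf : W k (fun i => (p i 0 * p i 0) * (p i 2 * p i 2)) = f02 := by
      rw [hf02]; exact W_congr fun i => by ring
    rw [hf, ← ha0, ← ha2, wS (fun i => p i 0 * p i 0), ← hG2, ← hL0, ← ha0, z00, z01, z02, y20, y21, y22] at e
    linear_combination (4 * m0 * m2) * e + (-2 * m2 * G2) * A0 + (-2 * m0 * L0) * A2 + (2 * m2 * a2) * A0 - A2 + (4 * m2 * (s0 * T220 + s1 * T221 + s2 * T222)) * A0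
  have g20 : 4 * m0 * m2 * (f02 + 2 * (m0 * T000 * T220 + m1 * T001 * T221 + m2 * T002 * T222))
      = -2 * m0 * G0 - 2 * m2 * L2 - 1 + 4 * m0 * (s0 * T000 + s1 * T001 + s2 * T002) := by
    have e := hex (fun i => p i 2 * p i 2) (fun i => p i 0 * p i 0)
    have hf : W k (fun i => (p i 2 * p i 2) * (p i 0 * p i 0)) = f02 := by
      rw [hf02]; exact W_congr fun i => by ring
    rw [hf, ← ha2, ← ha0, wS (fun i => p i 2 * p i 2), ← hG0, ← hL2, ← ha2, z20, z21, z22, y00, y01, y02] at e
    linear_combination (4 * m2 * m0) * e + (-2 * m0 * G0) * A2 + (-2 * m2 * L2) * A0 + (2 * m0 * a0) * A2 - A0 + (4 * m0 * (s0 * T000 + s1 * T001 + s2 * T002)) * A2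
  have g12 : 4 * m1 * m2 * (f12 + 2 * (m0 * T110 * T220 + m1 * T111 * T221 + m2 * T112 * T222))
      = -2 * m2 * G2 - 2 * m1 * L1 - 1 + 4 * m2 * (s0 * T220 + s1 * T221 + s2 * T222) := by
    have e := hex (fun i => p i 1 * p i 1) (fun i => p i 2 * p i 2)
    have hf : W k (fun i => (p i 1 * p i 1) * (p i 2 * p i 2)) = f12 := by
      rw [hf12]; exact W_congr fun i => by ring
    rw [hf, ← ha1, ← ha2, wS (fun i => p i 1 * p i 1), ← hG2, ← hL1, ← ha1, z10, z11, z12, y20, y21, y22] at e
    linear_combination (4 * m1 * m2) * e + (-2 * m2 * G2) * A1 + (-2 * m1 * L1) * A2 + (2 * m2 * a2) * A1 - A2 + (4 * m2 * (s0 * T220 + s1 * T221 + s2 * T222)) * A1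
  have g21 : 4 * m1 * m2 * (f12 + 2 * (m0 * T110 * T220 + m1 * T111 * T221 + m2 * T112 * T222))
      = -2 * m1 * G1 - 2 * m2 * L2 - 1 + 4 * m1 * (s0 * T110 + s1 * T111 + s2 * T112) := by
    have e := hex (fun i => p i 2 * p i 2) (fun i => p i 1 * p i 1)
    have hf : W k (fun i => (p i 2 * p i 2) * (p i 1 * p i 1)) = f12 := by
      rw [hf12]; exact W_congr fun i => by ring
    rw [hf, ← ha2, ← ha1, wS (fun i => p i 2 * p i 2), ← hG1, ← hL2, ← ha2, z20, z21, z22, y10, y11, y12] at e
    linear_combination (4 * m2 * m1) * e + (-2 * m1 * G1) * A2 + (-2 * m2 * L2) * A1 + (2 * m1 * a1) * A2 - A1 + (4 * m1 * (s0 * T110 + s1 * T111 + s2 * T112)) * A2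
  have hLs : L0 + L1 + L2 = 1 := by
    have e := wS (fun i => N p i)
    rw [w_ncnp, w_np] at e
    have e2 : L0 + L1 + L2 = W k (fun i => N c i * N p i) := by
      rw [hL0, hL1, hL2, ← W_add, ← W_add]
      exact W_congr fun i => by unfold N; ring
    linarith
  have hGs : m0 ^ 2 * G0 + m1 ^ 2 * G1 + m2 ^ 2 * G2 - (s0 ^ 2 + s1 ^ 2 + s2 ^ 2) = 1 := by
    have e := wS (fun i => N p i)
    rw [w_ncnp, w_np] at e
    have e2 : W k (fun i => N c i * N p i) = m0 ^ 2 * G0 + m1 ^ 2 * G1 + m2 ^ 2 * G2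
        + 2 * m0 * s0 * W k (fun i => N p i * p i 0) + 2 * m1 * s1 * W k (fun i => N p i * p i 1)
        + 2 * m2 * s2 * W k (fun i => N p i * p i 2)
        + (s0 ^ 2 + s1 ^ 2 + s2 ^ 2) * W k (fun i => N p i) := by
      rw [hG0, hG1, hG2]
      simp only [← W_smul, ← W_add]
      exact W_congr fun i => by unfold N; rw [hc0 i, hc1 i, hc2 i]; ring
    rw [w_np] at e2
    linear_combination -e2 - e - 2 * s0 * hn0 - 2 * s1 * hn1 - 2 * s2 * hn2
  exact final m0 m1 m2 T000 T111 T222 T001 T002 T110 T112 T220 T221 T012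
    f01 f02 f12 L0 L1 L2 G0 G1 G2 s0 s1 s2 n0 n1 n2 hsum hrec hs0' hs1' hs2'
    (by linarith) (by linarith) (by linarith) F01 F02 F12 g01 g10 g02 g20 g12 g21 hLs hGs

end Q144.Maehara
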