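import Pool.Agent.Q144.MaeharaCore

set_option autoImplicit false

namespace Q144.Maehara

open Finset

abbrev E3 := EuclideanSpace ℝ (Fin 3)

theorem five (p c : Fin 5 → E3) (h : ∀ i j, i ≠ j → dist (p i) (c j) = 1)
    (hn : ∀ i, dist (p i) (c i) ≠ 1) : False := by
  set t : Fin 5 → ℝ := fun i => dist (p i) (c i) ^ 2 - 1 with ht
  have ht0 : ∀ i, t i ≠ 0 := by
    intro i hi
    have h1 : dist (p i) (c i) ^ 2 = 1 := by
      have : t i = dist (p i) (c i) ^ 2 - 1 := rfl
      linarith
    have h2 : dist (p i) (c i) = 1 := by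
      have h3 := dist_nonneg (x := p i) (y := c i)
      nlinarith
    exact hn i h2
  let G : E3 →ₗ[ℝ] E3 :=
    { toFun := fun x => ∑ i, ((t i)⁻¹ * inner ℝ (c i) x) • c i
      map_add' := by
        intro x y
        rw [← Finset.sum_add_distrib]
        refine Finset.sum_congr rfl fun i _ => ?_
        rw [inner_add_right, mul_add, add_smul]
      map_smul' := by
        intro r x
        rw [RingHom.id_apply, Finset.smul_sum]
        refine Finset.sum_congr rfl fun i _ => ?_
        rw [inner_smul_right, smul_smul]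
        congr 1
        ring }
  have hG : G.IsSymmetric := by
    intro x y
    change inner ℝ (∑ i, ((t i)⁻¹ * inner ℝ (c i) x) • c i) y
      = inner ℝ x (∑ i, ((t i)⁻¹ * inner ℝ (c i) y) • c i)
    rw [sum_inner, inner_sum]
    refine Finset.sum_congr rfl fun i _ => ?_
    rw [inner_smul_left, inner_smul_right, real_inner_comm x (c i)]
    simp only [conj_trivial]
    ring
  have hfin : Module.finrank ℝ E3 = 3 := finrank_euclideanSpace_fin
  set b := hG.eigenvectorBasis hfin with hb
  have hdist : ∀ x y : E3, (inner ℝ (b 0) x - inner ℝ (b 0) y) ^ 2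
      + (inner ℝ (b 1) x - inner ℝ (b 1) y) ^ 2
      + (inner ℝ (b 2) x - inner ℝ (b 2) y) ^ 2 = dist x y ^ 2 := by
    intro x y
    rw [dist_eq_norm, ← real_inner_self_eq_norm_sq, ← b.sum_inner_mul_inner (x - y) (x - y),
      Fin.sum_univ_three]
    rw [real_inner_comm (b 0) (x - y), real_inner_comm (b 1) (x - y), real_inner_comm (b 2) (x - y)]
    rw [inner_sub_right, inner_sub_right, inner_sub_right]
    ring
  have hoff : ∀ a a' : Fin 3, a ≠ a' →
      W (fun i => (t i)⁻¹) (fun i => inner ℝ (b a) (c i) * inner ℝ (b a') (c i)) = 0 := by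
    intro a a' haa
    have e1 : inner ℝ (G (b a)) (b a') = 0 := by
      rw [hb, hG.apply_eigenvectorBasis hfin a, inner_smul_left]
      rw [orthonormal_iff_ite.mp (hG.eigenvectorBasis hfin).orthonormal a a', if_neg haa, mul_zero]
    have e2 : inner ℝ (G (b a)) (b a')
        = inner ℝ (∑ i, ((t i)⁻¹ * inner ℝ (c i) (b a)) • c i) (b a') := rfl
    rw [e2, sum_inner] at e1
    rw [← e1]
    unfold W
    refine Finset.sum_congr rfl fun i _ => ?_
    rw [inner_smul_left, real_inner_comm (b a) (c i), real_inner_comm (b a') (c i)]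
    simp only [conj_trivial]
    ring
  refine core (fun i a => inner ℝ (b a) (p i)) (fun i a => inner ℝ (b a) (c i)) t ht0 ?_
    (hoff 0 1 (by decide)) (hoff 0 2 (by decide)) (hoff 1 2 (by decide))
  intro i j
  rw [hdist]
  by_cases hij : i = j
  · subst hij
    rw [if_pos rfl, ht]
    ring
  · rw [if_neg hij, h i j hij]
    norm_num

/-- No `K_{3,3}` of unit distances in three-space. -/
theorem noK33 (a b c x y z : E3) (hab : a ≠ b) (hac : a ≠ c) (hbc : b ≠ c)
    (hxy : x ≠ y) (hxz : x ≠ z) (hyz : y ≠ z)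
    (h : ∀ u ∈ ({a, b, c} : Set E3), ∀ v ∈ ({x, y, z} : Set E3), dist u v = 1) : False := by
  have hA : AffineIndependent ℝ ![a, b, c] := by
    refine EuclideanGeometry.Cospherical.affineIndependent_of_ne (p₁ := a) (p₂ := b) (p₃ := c)
      ⟨x, 1, fun u hu => h u hu x (by simp)⟩ hab hac hbc
  have hX : AffineIndependent ℝ ![x, y, z] := by
    refine EuclideanGeometry.Cospherical.affineIndependent_of_ne (p₁ := x) (p₂ := y) (p₃ := z)
      ⟨a, 1, fun u hu => ?_⟩ hxy hxz hyz
    rw [dist_comm]
    exact h a (by simp) u hu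
  have hA2 : Module.finrank ℝ (vectorSpan ℝ (Set.range ![a, b, c])) = 2 :=
    hA.finrank_vectorSpan (by simp)
  have hX2 : Module.finrank ℝ (vectorSpan ℝ (Set.range ![x, y, z])) = 2 :=
    hX.finrank_vectorSpan (by simp)
  have horth : vectorSpan ℝ (Set.range ![a, b, c]) ≤ (vectorSpan ℝ (Set.range ![x, y, z]))ᗮ := by
    rw [← Submodule.isOrtho_iff_le]
    unfold vectorSpan
    rw [Submodule.isOrtho_span]
    intro u hu v hv
    obtain ⟨u1, hu1, u2, hu2, rfl⟩ := hu
    obtain ⟨v1, hv1, v2, hv2, rfl⟩ := hv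
    have r : ∀ a b c : E3, Set.range ![a, b, c] = {a, b, c} := by
      intro a b c
      ext w
      constructor
      · rintro ⟨i, rfl⟩
        fin_cases i <;> simp
      · rintro (rfl | rfl | rfl)
        · exact ⟨0, rfl⟩
        · exact ⟨1, rfl⟩
        · exact ⟨2, rfl⟩
    have r1 := r a b c
    have r2 := r x y z
    rw [r1] at hu1 hu2
    rw [r2] at hv1 hv2
    have d11 := h u1 hu1 v1 hv1
    have d12 := h u1 hu1 v2 hv2
    have d21 := h u2 hu2 v1 hv1
    have d22 := h u2 hu2 v2 hv2
    have q : ∀ u v : E3, dist u v = 1 → ‖u‖ ^ 2 - 2 * inner ℝ u v + ‖v‖ ^ 2 = 1 := by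
      intro u v huv
      rw [dist_eq_norm] at huv
      rw [← norm_sub_sq_real, huv]; norm_num
    have q11 := q _ _ d11
    have q12 := q _ _ d12
    have q21 := q _ _ d21
    have q22 := q _ _ d22
    simp only [vsub_eq_sub, inner_sub_left, inner_sub_right]
    linarith
  have h1 := Submodule.finrank_mono horth
  have h2 := Submodule.finrank_add_finrank_orthogonal (vectorSpan ℝ (Set.range ![x, y, z]))
  have hfin : Module.finrank ℝ E3 = 3 := finrank_euclideanSpace_fin
  omega

theorem five' (c : Fin 5 → E3) (h : ∀ i, ∃ p, ∀ j, j ≠ i → dist p (c j) = 1) :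
    ∃ p, ∀ j, dist p (c j) = 1 := by
  by_contra hcon
  push Not at hcon
  choose p hp using h
  refine five p c (fun i j hij => hp i j (Ne.symm hij)) ?_
  intro i hi
  obtain ⟨j, hj⟩ := hcon (p i)
  by_cases hji : j = i
  · subst hji; exact hj hi
  · exact hj (hp i j hji)

theorem main (S : Set E3) (hS : 5 ≤ S.encard)
    (h : ∀ T : Set E3, T ⊆ S → T.encard = 4 → ∃ p : E3, ∀ c ∈ T, p ∈ Metric.sphere c 1) :
    ∃ p : E3, ∀ c ∈ S, p ∈ Metric.sphere c 1 := by
  by_contra hcon
  push Not at hcon
  -- three distinct elements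
  obtain ⟨T0, hT0, hT0c⟩ : ∃ T ⊆ S, T.encard = 4 :=
    Set.exists_subset_encard_eq (le_trans (by norm_num) hS)
  obtain ⟨a, b, c, d0, hab, hac, had, hbc, hbd, hcd, hTe⟩ := Set.encard_eq_four.mp hT0c
  subst hTe
  have haS : a ∈ S := hT0 (by simp)
  have hbS : b ∈ S := hT0 (by simp)
  have hcS : c ∈ S := hT0 (by simp)
  obtain ⟨p0, hp0⟩ := h _ hT0 hT0c
  obtain ⟨d, hdS, hd⟩ := hcon p0
  have hda : d ≠ a := by rintro rfl; exact hd (hp0 _ (by simp))
  have hdb : d ≠ b := by rintro rfl; exact hd (hp0 _ (by simp))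
  have hdc : d ≠ c := by rintro rfl; exact hd (hp0 _ (by simp))
  have h4 : ({a, b, c, d} : Set E3).encard = 4 :=
    Set.encard_eq_four.mpr ⟨a, b, c, d, hab, hac, hda.symm, hbc, hdb.symm, hdc.symm, rfl⟩
  obtain ⟨p1, hp1⟩ := h {a, b, c, d} (by
    intro x hx
    simp only [Set.mem_insert_iff, Set.mem_singleton_iff] at hx
    rcases hx with rfl | rfl | rfl | rfl <;> assumption) h4
  obtain ⟨e, heS, he⟩ := hcon p1
  have hea : e ≠ a := by rintro rfl; exact he (hp1 _ (by simp))
  have heb : e ≠ b := by rintro rfl; exact he (hp1 _ (by simp))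
  have hec : e ≠ c := by rintro rfl; exact he (hp1 _ (by simp))
  have hed : e ≠ d := by rintro rfl; exact he (hp1 _ (by simp))
  have hquad : ∀ u v w x : E3, u ∈ S → v ∈ S → w ∈ S → x ∈ S → u ≠ v → u ≠ w → u ≠ x → v ≠ w →
      v ≠ x → w ≠ x → ∃ p, dist p u = 1 ∧ dist p v = 1 ∧ dist p w = 1 ∧ dist p x = 1 := by
    intro u v w x hu hv hw hx h1 h2 h3 h4 h5 h6
    obtain ⟨p, hp⟩ := h {u, v, w, x} (by
      intro y hy
      simp only [Set.mem_insert_iff, Set.mem_singleton_iff] at hy
      rcases hy with rfl | rfl | rfl | rfl <;> assumption)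
      (Set.encard_eq_four.mpr ⟨u, v, w, x, h1, h2, h3, h4, h5, h6, rfl⟩)
    exact ⟨p, hp u (by simp), hp v (by simp), hp w (by simp), hp x (by simp)⟩
  have hfive : ∀ i : Fin 5, ∃ p, ∀ j : Fin 5, j ≠ i → dist p ((![a, b, c, d, e] : Fin 5 → E3) j) = 1 := by
    have E0 := hquad b c d e hbS hcS hdS heS hbc hdb.symm heb.symm hdc.symm hec.symm hed.symm
    have E1 := hquad a c d e haS hcS hdS heS hac hda.symm hea.symm hdc.symm hec.symm hed.symm
    have E2 := hquad a b d e haS hbS hdS heS hab hda.symm hea.symm hdb.symm heb.symm hed.symm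
    have E3' := hquad a b c e haS hbS hcS heS hab hac hea.symm hbc heb.symm hec.symm
    have E4 := hquad a b c d haS hbS hcS hdS hab hac hda.symm hbc hdb.symm hdc.symm
    clear * - E0 E1 E2 E3' E4
    intro i
    fin_cases i
    · obtain ⟨p, h1, h2, h3, h4⟩ := E0
      exact ⟨p, fun j hj => by
        fin_cases j
        · exact absurd rfl hj
        · exact h1
        · exact h2
        · exact h3
        · exact h4⟩
    · obtain ⟨p, h1, h2, h3, h4⟩ := E1
      exact ⟨p, fun j hj => by
        fin_cases j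
        · exact h1
        · exact absurd rfl hj
        · exact h2
        · exact h3
        · exact h4⟩
    · obtain ⟨p, h1, h2, h3, h4⟩ := E2
      exact ⟨p, fun j hj => by
        fin_cases j
        · exact h1
        · exact h2
        · exact absurd rfl hj
        · exact h3
        · exact h4⟩
    · obtain ⟨p, h1, h2, h3, h4⟩ := E3'
      exact ⟨p, fun j hj => by
        fin_cases j
        · exact h1
        · exact h2
        · exact h3
        · exact absurd rfl hj
        · exact h4⟩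
    · obtain ⟨p, h1, h2, h3, h4⟩ := E4
      exact ⟨p, fun j hj => by
        fin_cases j
        · exact h1
        · exact h2
        · exact h3
        · exact h4
        · exact absurd rfl hj⟩
  obtain ⟨p2, hp2⟩ := five' ![a, b, c, d, e] hfive
  have q0 : dist p2 a = 1 := hp2 0
  have q1 : dist p2 b = 1 := hp2 1
  have q2 : dist p2 c = 1 := hp2 2
  have q3 : dist p2 d = 1 := hp2 3
  have q4 : dist p2 e = 1 := hp2 4
  have n01 : p0 ≠ p1 := by rintro rfl; exact hd (hp1 _ (by simp))
  have n02 : p0 ≠ p2 := by rintro rfl; exact hd q3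
  have n12 : p1 ≠ p2 := by rintro rfl; exact he q4
  refine noK33 a b c p0 p1 p2 hab hac hbc n01 n02 n12 ?_
  intro u hu v hv
  rw [dist_comm]
  simp only [Set.mem_insert_iff, Set.mem_singleton_iff] at hu hv
  rcases hv with rfl | rfl | rfl
  · exact hp0 u (by rcases hu with rfl | rfl | rfl <;> simp)
  · exact hp1 u (by rcases hu with rfl | rfl | rfl <;> simp)
  · rcases hu with rfl | rfl | rfl
    · exact q0
    · exact q1
    · exact q2

end Q144.Maehara
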