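import Mathlib

set_option autoImplicit false

/-! Polytope moves: continuity of the volume of convex hulls. -/

open MeasureTheory Metric Set

namespace Q144.PM

/-- `d`-space -/
abbrev E (d : ℕ) := EuclideanSpace ℝ (Fin d)

variable {d : ℕ}

/-- the volume as a real number -/
noncomputable def vol (P : Set (E d)) : ℝ := (volume P).toReal

/-- `P` and `Q` are at Hausdorff distance at most `δ` -/
def Close (δ : ℝ) (P Q : Set (E d)) : Prop :=
  (∀ x ∈ P, ∃ y ∈ Q, ‖x - y‖ ≤ δ) ∧ (∀ y ∈ Q, ∃ x ∈ P, ‖x - y‖ ≤ δ)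

theorem close_up {P Q : Set (E d)} (hP : Convex ℝ P) {p : E d} {ρ δ : ℝ}
    (hρ : 0 < ρ) (hb : closedBall p ρ ⊆ P) (hδ : 0 ≤ δ) (hc : Close δ P Q) {y : E d} (hy : y ∈ Q) :
    p + (1 + δ / ρ)⁻¹ • (y - p) ∈ P := by
  obtain ⟨x, hx, hxy⟩ := hc.2 y hy
  have h0 : 0 ≤ δ / ρ := by positivity
  have h1 : 0 < 1 + δ / ρ := by linarith
  rcases hδ.eq_or_lt with rfl | hδ'
  · have : y = x := by
      have h2 : ‖x - y‖ = 0 := le_antisymm hxy (norm_nonneg _)
      exact (sub_eq_zero.1 (norm_eq_zero.1 h2)).symm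
    rw [this]
    simpa using hx
  have hz : p + (ρ / δ) • (y - x) ∈ P := by
    apply hb
    rw [mem_closedBall, dist_eq_norm, add_sub_cancel_left, norm_smul,
      Real.norm_of_nonneg (by positivity), norm_sub_rev]
    calc ρ / δ * ‖x - y‖ ≤ ρ / δ * δ := mul_le_mul_of_nonneg_left hxy (by positivity)
      _ = ρ := by field_simp
  have h2 := hP hx hz (a := (1 + δ / ρ)⁻¹) (b := (1 + δ / ρ)⁻¹ * (δ / ρ)) (by positivity)
    (by positivity) (by field_simp)
  convert h2 using 1
  have h3 : (1 + δ / ρ)⁻¹ * (δ / ρ) * (ρ / δ) = (1 + δ / ρ)⁻¹ := by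
    field_simp
  rw [smul_add, smul_smul, h3]
  have h4 : p = (1 + δ / ρ)⁻¹ • p + ((1 + δ / ρ)⁻¹ * (δ / ρ)) • p := by
    rw [← add_smul]
    have : (1 + δ / ρ)⁻¹ + (1 + δ / ρ)⁻¹ * (δ / ρ) = 1 := by field_simp
    rw [this, one_smul]
  calc p + (1 + δ / ρ)⁻¹ • (y - p)
      = (1 + δ / ρ)⁻¹ • p + ((1 + δ / ρ)⁻¹ * (δ / ρ)) • p + (1 + δ / ρ)⁻¹ • (y - p) := by
        rw [← h4]
    _ = _ := by
        simp only [smul_sub]
        abel

theorem close_down {P Q : Set (E d)} (hQ : Convex ℝ Q) (hQc : IsClosed Q)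
    {p : E d} {ρ δ : ℝ} (hρ : 0 < ρ) (hb : closedBall p ρ ⊆ P)
    (hδρ : δ < ρ) (hc : Close δ P Q) {x : E d} (hx : x ∈ P) :
    p + (1 - δ / ρ) • (x - p) ∈ Q := by
  by_contra hcon
  have hQne : Q.Nonempty := by
    obtain ⟨y, hy, -⟩ := hc.1 x hx
    exact ⟨y, hy⟩
  obtain ⟨f, u, hfu, huf⟩ := geometric_hahn_banach_closed_point hQ hQc hcon
  set y : E d := (InnerProductSpace.toDual ℝ (E d)).symm f with hy
  have hfy : ∀ z, f z = inner ℝ y z := fun z => by
    rw [hy, InnerProductSpace.toDual_symm_apply]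
  have hy0 : y ≠ 0 := by
    intro h0
    obtain ⟨z, hz⟩ := hQne
    have h1 := hfu z hz
    rw [hfy, h0, inner_zero_left] at h1
    rw [hfy, h0, inner_zero_left] at huf
    linarith
  have hyn : 0 < ‖y‖ := norm_pos_iff.2 hy0
  have hδ0 : 0 ≤ δ := by
    obtain ⟨z, -, hz⟩ := hc.1 x hx
    exact (norm_nonneg _).trans hz
  have key : ∀ z ∈ P, inner ℝ y z < u + δ * ‖y‖ := by
    intro z hz
    obtain ⟨q, hq, hzq⟩ := hc.1 z hz
    have h1 := hfu q hq
    rw [hfy] at h1
    have h2 : inner ℝ y z = inner ℝ y q + inner ℝ y (z - q) := by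
      rw [inner_sub_right]; ring
    have h3 := real_inner_le_norm y (z - q)
    nlinarith
  have h1 := key x hx
  have h2 := key (p + (ρ / ‖y‖) • y) (hb (by
    rw [mem_closedBall, dist_eq_norm, add_sub_cancel_left, norm_smul,
      Real.norm_of_nonneg (by positivity)]
    have : ρ / ‖y‖ * ‖y‖ = ρ := by field_simp
    rw [this]))
  rw [inner_add_right, inner_smul_right, real_inner_self_eq_norm_sq] at h2
  have h3 : ρ / ‖y‖ * ‖y‖ ^ 2 = ρ * ‖y‖ := by field_simp
  rw [h3] at h2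
  rw [hfy, inner_add_right, inner_smul_right, inner_sub_right] at huf
  have hr0 : 0 ≤ δ / ρ := by positivity
  have hr1 : δ / ρ < 1 := (div_lt_one hρ).2 hδρ
  have h4 : δ / ρ * ρ = δ := by field_simp
  have h5 : δ / ρ * (inner ℝ y p + ρ * ‖y‖) ≤ δ / ρ * (u + δ * ‖y‖) :=
    mul_le_mul_of_nonneg_left h2.le hr0
  have h6 : (1 - δ / ρ) * inner ℝ y x < (1 - δ / ρ) * (u + δ * ‖y‖) :=
    mul_lt_mul_of_pos_left h1 (by linarith)
  have h7 : δ / ρ * (inner ℝ y p + ρ * ‖y‖) = δ / ρ * inner ℝ y p + δ * ‖y‖ := by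
    rw [mul_add, ← mul_assoc, h4]
  nlinarith

theorem vol_homothety (P : Set (E d)) (p : E d) {t : ℝ} (ht : 0 ≤ t) :
    vol ((fun x => p + t • (x - p)) '' P) = t ^ d * vol P := by
  have h1 : (fun x => p + t • (x - p)) '' P = (AffineMap.homothety p t) '' P := by
    congr 1
    funext x
    rw [AffineMap.homothety_apply, vsub_eq_sub, vadd_eq_add, add_comm]
  unfold vol
  rw [h1, Measure.addHaar_image_homothety]
  simp only [finrank_euclideanSpace, Fintype.card_fin]
  rw [ENNReal.toReal_mul, abs_of_nonneg (by positivity), ENNReal.toReal_ofReal (by positivity)]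

theorem vol_mono {P Q : Set (E d)} (h : P ⊆ Q) (hQ : IsCompact Q) : vol P ≤ vol Q :=
  ENNReal.toReal_mono hQ.measure_lt_top.ne (measure_mono h)

theorem vol_pos {P : Set (E d)} (hi : (interior P).Nonempty) (hP : IsCompact P) : 0 < vol P :=
  ENNReal.toReal_pos ((isOpen_interior.measure_pos volume hi).trans_le
    (measure_mono interior_subset)).ne' hP.measure_lt_top.ne

/-- continuity of the volume in the Hausdorff sense -/
theorem vol_cont {P : Set (E d)} (hP : Convex ℝ P) (hPc : IsCompact P)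
    (hi : (interior P).Nonempty) {U : Set ℝ} (hU : U ∈ nhds (vol P)) :
    ∃ δ : ℝ, 0 < δ ∧ ∀ Q : Set (E d), Convex ℝ Q → IsCompact Q → Close δ P Q →
      (interior Q).Nonempty ∧ vol Q ∈ U := by
  obtain ⟨p, hp⟩ := hi
  obtain ⟨ρ, hρ, hb⟩ := Metric.nhds_basis_closedBall.mem_iff.1 (mem_interior_iff_mem_nhds.1 hp)
  -- continuity of the two bounds
  have hc1 : Filter.Tendsto (fun δ : ℝ => (1 + δ / ρ) ^ d * vol P) (nhds 0) (nhds (vol P)) := by
    have : Continuous (fun δ : ℝ => (1 + δ / ρ) ^ d * vol P) := by fun_prop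
    have h := this.tendsto 0
    simpa using h
  have hc2 : Filter.Tendsto (fun δ : ℝ => (1 - δ / ρ) ^ d * vol P) (nhds 0) (nhds (vol P)) := by
    have : Continuous (fun δ : ℝ => (1 - δ / ρ) ^ d * vol P) := by fun_prop
    have h := this.tendsto 0
    simpa using h
  obtain ⟨ε, hε, hεU⟩ := Metric.mem_nhds_iff.1 hU
  have hev := (hc1.eventually (Metric.ball_mem_nhds (vol P) hε)).and
    (hc2.eventually (Metric.ball_mem_nhds (vol P) hε))
  obtain ⟨δ0, hδ0, hδ⟩ := Metric.eventually_nhds_iff.1 hev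
  have hδpos : 0 < min (δ0 / 2) (ρ / 2) := lt_min (by linarith) (by linarith)
  refine ⟨min (δ0 / 2) (ρ / 2), hδpos, ?_⟩
  intro Q hQ hQc hclose
  set δ := min (δ0 / 2) (ρ / 2) with hδdef
  have hδρ : δ < ρ := (min_le_right _ _).trans_lt (by linarith)
  have hδδ0 : δ < δ0 := (min_le_left _ _).trans_lt (by linarith)
  obtain ⟨hB1, hB2⟩ := hδ (show dist δ 0 < δ0 by
    rw [Real.dist_eq, sub_zero, abs_of_pos hδpos]; exact hδδ0)
  rw [Real.dist_eq] at hB1 hB2
  have ht0 : 0 < 1 - δ / ρ := by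
    have := (div_lt_one hρ).2 hδρ
    linarith
  have hs0 : 0 < 1 + δ / ρ := by positivity
  -- inclusion from below
  have hsub1 : (fun x => p + (1 - δ / ρ) • (x - p)) '' P ⊆ Q := by
    rintro _ ⟨x, hx, rfl⟩
    exact close_down hQ hQc.isClosed hρ hb hδρ hclose hx
  have hsub2 : Q ⊆ (fun x => p + (1 + δ / ρ) • (x - p)) '' P := by
    intro y hy
    refine ⟨p + (1 + δ / ρ)⁻¹ • (y - p), close_up hP hρ hb hδpos.le hclose hy, ?_⟩
    simp only
    rw [add_sub_cancel_left, smul_smul, mul_inv_cancel₀ hs0.ne', one_smul]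
    abel
  have hcimg : IsCompact ((fun x => p + (1 + δ / ρ) • (x - p)) '' P) :=
    hPc.image (by fun_prop)
  have hv1 : (1 - δ / ρ) ^ d * vol P ≤ vol Q := by
    rw [← vol_homothety P p ht0.le]
    exact vol_mono hsub1 hQc
  have hv2 : vol Q ≤ (1 + δ / ρ) ^ d * vol P := by
    rw [← vol_homothety P p hs0.le]
    exact vol_mono hsub2 hcimg
  constructor
  · refine ⟨p, ?_⟩
    rw [mem_interior_iff_mem_nhds, Metric.mem_nhds_iff]
    refine ⟨(1 - δ / ρ) * ρ, by positivity, ?_⟩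
    intro z hz
    apply hsub1
    refine ⟨p + (1 - δ / ρ)⁻¹ • (z - p), ?_, ?_⟩
    · apply hb
      rw [mem_closedBall, dist_eq_norm, add_sub_cancel_left, norm_smul,
        Real.norm_of_nonneg (by positivity)]
      rw [mem_ball, dist_eq_norm] at hz
      rw [inv_mul_le_iff₀ ht0]
      exact hz.le
    · simp only
      rw [add_sub_cancel_left, smul_smul, mul_inv_cancel₀ ht0.ne', one_smul]
      abel
  · apply hεU
    rw [Metric.mem_ball, Real.dist_eq, abs_lt]
    rw [abs_lt] at hB1 hB2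
    constructor <;> linarith

/-- the convex hull of a family -/
def hull {κ : Type} (W : κ → E d) : Set (E d) := convexHull ℝ (range W)

theorem hull_convex {κ : Type} (W : κ → E d) : Convex ℝ (hull W) := convex_convexHull ℝ _

theorem hull_compact {κ : Type} [Finite κ] (W : κ → E d) : IsCompact (hull W) :=
  (finite_range W).isCompact_convexHull ℝ

theorem hull_close {κ ι : Type} {W : κ → E d} {V : ι → E d} {δ : ℝ}
    (h1 : ∀ k, ∃ i, ‖W k - V i‖ ≤ δ) (h2 : ∀ i, ∃ k, ‖W k - V i‖ ≤ δ) :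
    Close δ (hull V) (hull W) := by
  have aux : ∀ {α β : Type} (X : α → E d) (Y : β → E d), (∀ a, ∃ b, ‖X a - Y b‖ ≤ δ) →
      ∀ x ∈ hull X, ∃ y ∈ hull Y, ‖x - y‖ ≤ δ := by
    intro α β X Y h
    have hconv : Convex ℝ {x : E d | ∃ y ∈ hull Y, ‖x - y‖ ≤ δ} := by
      rintro x ⟨y, hy, hxy⟩ x' ⟨y', hy', hxy'⟩ a b ha hb hab
      refine ⟨a • y + b • y', hull_convex Y hy hy' ha hb hab, ?_⟩
      have e : a • x + b • x' - (a • y + b • y') = a • (x - y) + b • (x' - y') := by
        simp only [smul_sub]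
        abel
      rw [e]
      calc ‖a • (x - y) + b • (x' - y')‖ ≤ ‖a • (x - y)‖ + ‖b • (x' - y')‖ := norm_add_le _ _
        _ = a * ‖x - y‖ + b * ‖x' - y'‖ := by
            rw [norm_smul, norm_smul, Real.norm_of_nonneg ha, Real.norm_of_nonneg hb]
        _ ≤ a * δ + b * δ := add_le_add (mul_le_mul_of_nonneg_left hxy ha)
            (mul_le_mul_of_nonneg_left hxy' hb)
        _ = δ := by rw [← add_mul, hab, one_mul]
    have hsub : hull X ⊆ {x : E d | ∃ y ∈ hull Y, ‖x - y‖ ≤ δ} := by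
      apply convexHull_min _ hconv
      rintro _ ⟨a, rfl⟩
      obtain ⟨b, hb⟩ := h a
      exact ⟨Y b, subset_convexHull ℝ _ ⟨b, rfl⟩, hb⟩
    exact fun x hx => hsub hx
  constructor
  · refine aux V W fun i => ?_
    obtain ⟨k, hk⟩ := h2 i
    exact ⟨k, by rwa [norm_sub_rev]⟩
  · intro y hy
    obtain ⟨x, hx, hxy⟩ := aux W V h1 y hy
    exact ⟨x, hx, by rwa [norm_sub_rev]⟩

/-- the volume of the hull of a family depends continuously on the family -/
theorem hull_vol_continuousAt {ι : Type} [Finite ι] {V : ι → E d}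
    (hi : (interior (hull V)).Nonempty) :
    ContinuousAt (fun W : ι → E d => vol (hull W)) V := by
  have := Fintype.ofFinite ι
  intro U hU
  obtain ⟨δ, hδ, h⟩ := vol_cont (hull_convex V) (hull_compact V) hi hU
  rw [Filter.mem_map, Metric.mem_nhds_iff]
  refine ⟨δ, hδ, fun W hW => ?_⟩
  have hW' : ∀ i, ‖W i - V i‖ ≤ δ := by
    intro i
    rw [← dist_eq_norm]
    exact (dist_le_pi_dist W V i).trans (mem_ball.1 hW).le
  exact (h _ (hull_convex W) (hull_compact W)
    (hull_close (fun i => ⟨i, hW' i⟩) fun i => ⟨i, hW' i⟩)).2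

/-- adding a point outside strictly increases the volume -/
theorem vol_lt_of_notMem {P : Set (E d)} (hP : Convex ℝ P) (hPc : IsCompact P)
    (hi : (interior P).Nonempty) {x : E d} (hx : x ∉ P) :
    vol P < vol (convexHull ℝ (P ∪ {x})) := by
  set Q : Set (E d) := convexHull ℝ (P ∪ {x}) with hQ
  have hQc : IsCompact Q := by
    have h1 : Q = convexJoin ℝ P {x} := by
      rw [hQ, Convex.convexHull_union hP (convex_singleton x) (hi.mono interior_subset)
        (singleton_nonempty x)]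
    rw [h1]
    have : convexJoin ℝ P {x} = (fun q : ℝ × E d => q.1 • x + (1 - q.1) • q.2) ''
        (Icc (0 : ℝ) 1 ×ˢ P) := by
      ext z
      constructor
      · intro hz
        rw [mem_convexJoin] at hz
        obtain ⟨p, hp, y, hy, hz⟩ := hz
        rw [mem_singleton_iff] at hy
        subst hy
        obtain ⟨a, b, ha, hb, hab, rfl⟩ := hz
        refine ⟨(b, p), ⟨⟨hb, by linarith⟩, hp⟩, ?_⟩
        simp only
        rw [show 1 - b = a by linarith, add_comm]
      · rintro ⟨⟨b, p⟩, ⟨⟨hb0, hb1⟩, hp⟩, rfl⟩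
        rw [mem_convexJoin]
        refine ⟨p, hp, x, mem_singleton x, 1 - b, b, by linarith, hb0, by ring, ?_⟩
        simp only
        rw [add_comm]
    rw [this]
    exact (isCompact_Icc.prod hPc).image (by fun_prop)
  have hPQ : P ⊆ Q := subset_union_left.trans (subset_convexHull ℝ _)
  have hxQ : x ∈ Q := subset_convexHull ℝ _ (mem_union_right _ (mem_singleton x))
  obtain ⟨δ, hδ, hball⟩ := Metric.isOpen_iff.1 hPc.isClosed.isOpen_compl x hx
  obtain ⟨q, hq⟩ := hi
  have hqQ : q ∈ interior Q := interior_mono hPQ hq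
  -- an interior point of `Q` close to `x`
  obtain ⟨t, ht0, ht1, htδ⟩ : ∃ t : ℝ, 0 < t ∧ t ≤ 1 ∧ t * ‖q - x‖ < δ := by
    refine ⟨min 1 (δ / (2 * (‖q - x‖ + 1))), lt_min one_pos (by positivity), min_le_left _ _, ?_⟩
    have h1 : min 1 (δ / (2 * (‖q - x‖ + 1))) * ‖q - x‖ ≤
        δ / (2 * (‖q - x‖ + 1)) * ‖q - x‖ :=
      mul_le_mul_of_nonneg_right (min_le_right _ _) (norm_nonneg _)
    have h2 : δ / (2 * (‖q - x‖ + 1)) * ‖q - x‖ < δ := by
      rw [div_mul_eq_mul_div, div_lt_iff₀ (by positivity)]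
      have := norm_nonneg (q - x)
      nlinarith
    linarith
  have hy : x + t • (q - x) ∈ interior Q :=
    (convex_convexHull ℝ _).add_smul_sub_mem_interior hxQ hqQ ⟨ht0, ht1⟩
  have hyb : x + t • (q - x) ∈ ball x δ := by
    rw [mem_ball, dist_eq_norm, add_sub_cancel_left, norm_smul, Real.norm_of_nonneg ht0.le]
    exact htδ
  have hO : IsOpen (interior Q ∩ ball x δ) := isOpen_interior.inter isOpen_ball
  have hpos : 0 < volume (interior Q ∩ ball x δ) := hO.measure_pos volume ⟨_, hy, hyb⟩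
  have hdisj : Disjoint P (interior Q ∩ ball x δ) := by
    rw [Set.disjoint_left]
    intro z hz hz'
    exact hball hz'.2 hz
  have hle : volume P + volume (interior Q ∩ ball x δ) ≤ volume Q := by
    rw [← measure_union hdisj hO.measurableSet]
    exact measure_mono (union_subset hPQ (inter_subset_left.trans interior_subset))
  have hlt : volume P < volume Q :=
    lt_of_lt_of_le (ENNReal.lt_add_right hPc.measure_lt_top.ne hpos.ne') hle
  exact (ENNReal.toReal_lt_toReal hPc.measure_lt_top.ne hQc.measure_lt_top.ne).2 hlt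

end Q144.PM
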