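import Pool.Agent.Q144.PMa

set_option autoImplicit false

/-! Polytope moves: the move relation and its local structure. -/

open MeasureTheory Metric Set

namespace Q144.PM

variable {d : ℕ}

/-- a full-dimensional polytope -/
def IsPoly (P : Set (E d)) : Prop :=
  (∃ S : Set (E d), S.Finite ∧ P = convexHull ℝ S) ∧ (interior P).Nonempty

/-- `Q` is obtained from `P` by inserting a point -/
def Ins (P Q : Set (E d)) : Prop :=
  ∃ x : E d, Q = convexHull ℝ (P ∪ {x}) ∧ Q.extremePoints ℝ = P.extremePoints ℝ ∪ {x}

/-- polytopes with volume in `I` -/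
def InI (I : Set ℝ) (P : Set (E d)) : Prop := IsPoly P ∧ vol P ∈ I

/-- one move within the window `I` -/
def R (I : Set ℝ) (P Q : Set (E d)) : Prop := InI I P ∧ InI I Q ∧ (Ins P Q ∨ Ins Q P)

/-- connected by moves within the window `I` -/
def Conn (I : Set ℝ) (P Q : Set (E d)) : Prop := Relation.ReflTransGen (R I) P Q

theorem R.symm {I : Set ℝ} {P Q : Set (E d)} (h : R I P Q) : R I Q P :=
  ⟨h.2.1, h.1, h.2.2.symm⟩

theorem Conn.symm {I : Set ℝ} {P Q : Set (E d)} (h : Conn I P Q) : Conn I Q P := by
  unfold Conn at h ⊢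
  induction h with
  | refl => exact Relation.ReflTransGen.refl
  | tail _ h1 ih => exact Relation.ReflTransGen.head h1.symm ih

theorem Conn.trans {I : Set ℝ} {P Q S : Set (E d)} (h : Conn I P Q) (h' : Conn I Q S) :
    Conn I P S := Relation.ReflTransGen.trans h h'

/-- every point of `S` is separated from the others by a linear functional -/
def Sep (S : Set (E d)) : Prop :=
  ∀ y ∈ S, ∃ f : E d, ∀ z ∈ S, z ≠ y → inner ℝ f z < inner ℝ f y

/-- family version -/
def FSep {ι : Type} (V : ι → E d) : Prop :=
  ∀ k, ∃ f : E d, ∀ l, l ≠ k → inner ℝ f (V l) < inner ℝ f (V k)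

theorem Sep.mono {S T : Set (E d)} (h : Sep S) (hT : T ⊆ S) : Sep T := by
  intro y hy
  obtain ⟨f, hf⟩ := h y (hT hy)
  exact ⟨f, fun z hz => hf z (hT hz)⟩

theorem FSep.injective {ι : Type} {V : ι → E d} (h : FSep V) : Function.Injective V := by
  intro a b hab
  by_contra hne
  obtain ⟨f, hf⟩ := h a
  have := hf b (Ne.symm hne)
  rw [hab] at this
  exact lt_irrefl _ this

theorem FSep.sep {ι : Type} {V : ι → E d} (h : FSep V) : Sep (range V) := by
  rintro _ ⟨k, rfl⟩
  obtain ⟨f, hf⟩ := h k
  refine ⟨f, ?_⟩
  rintro _ ⟨l, rfl⟩ hne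
  exact hf l fun e => hne (by rw [e])

theorem Sep.notMem {S : Set (E d)} (h : Sep S) {y : E d} (hy : y ∈ S) :
    y ∉ convexHull ℝ (S \ {y}) := by
  obtain ⟨f, hf⟩ := h y hy
  intro hmem
  have hsub : convexHull ℝ (S \ {y}) ⊆ {z | inner ℝ f z < inner ℝ f y} := by
    apply convexHull_min
    · rintro z ⟨hz, hne⟩
      exact hf z hz hne
    · intro a ha b hb s t hs ht hst
      simp only [mem_ofPred_eq] at ha hb ⊢
      rw [inner_add_right, inner_smul_right, inner_smul_right]
      have e : inner ℝ f y = s * inner ℝ f y + t * inner ℝ f y := by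
        rw [← add_mul, hst, one_mul]
      rw [e]
      rcases hs.eq_or_lt with rfl | hs'
      · have : t = 1 := by linarith
        subst this
        linarith
      · have h1 := mul_lt_mul_of_pos_left ha hs'
        have h2 := mul_le_mul_of_nonneg_left hb.le ht
        linarith
  have hlt := hsub hmem
  simp only [mem_ofPred_eq] at hlt
  exact lt_irrefl _ hlt

/-- separation of a point from a compact convex set by a vector -/
theorem exists_vec {K : Set (E d)} (hK : Convex ℝ K) (hKc : IsClosed K) {x : E d} (hx : x ∉ K) :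
    ∃ f : E d, ∀ z ∈ K, inner ℝ f z < inner ℝ f x := by
  obtain ⟨f, u, h1, h2⟩ := geometric_hahn_banach_closed_point hK hKc hx
  refine ⟨(InnerProductSpace.toDual ℝ (E d)).symm f, fun z hz => ?_⟩
  rw [InnerProductSpace.toDual_symm_apply, InnerProductSpace.toDual_symm_apply]
  exact (h1 z hz).trans h2

theorem sep_of_notMem {S : Set (E d)} (hS : S.Finite)
    (h : ∀ y ∈ S, y ∉ convexHull ℝ (S \ {y})) : Sep S := by
  intro y hy
  obtain ⟨f, hf⟩ := exists_vec (convex_convexHull ℝ (S \ {y}))
    ((hS.subset sdiff_subset).isCompact_convexHull ℝ).isClosed (h y hy)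
  exact ⟨f, fun z hz hne => hf z (subset_convexHull ℝ _ ⟨hz, hne⟩)⟩

theorem ext_of_sep {S : Set (E d)} (hS : S.Finite) (h : Sep S) :
    (convexHull ℝ S).extremePoints ℝ = S := by
  apply subset_antisymm extremePoints_convexHull_subset
  intro x hx
  by_contra hne
  have hsub : (convexHull ℝ S).extremePoints ℝ ⊆ S \ {x} := fun z hz =>
    ⟨extremePoints_convexHull_subset hz, fun e => hne (by rw [← mem_singleton_iff.1 e]; exact hz)⟩
  have hfin : (S \ {x}).Finite := hS.subset sdiff_subset
  have h1 := closure_convexHull_extremePoints (hS.isCompact_convexHull ℝ)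
    (convex_convexHull ℝ S)
  have h2 : x ∈ closure (convexHull ℝ ((convexHull ℝ S).extremePoints ℝ)) := by
    rw [h1]
    exact subset_convexHull ℝ _ hx
  have h3 : closure (convexHull ℝ ((convexHull ℝ S).extremePoints ℝ)) ⊆
      convexHull ℝ (S \ {x}) :=
    closure_minimal (convexHull_mono hsub) (hfin.isCompact_convexHull ℝ).isClosed
  exact h.notMem hx (h3 h2)

theorem sep_ext {S : Set (E d)} (hS : S.Finite) :
    Sep ((convexHull ℝ S).extremePoints ℝ) := by
  have hfin : ((convexHull ℝ S).extremePoints ℝ).Finite :=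
    hS.subset extremePoints_convexHull_subset
  apply sep_of_notMem hfin
  have h1 := (convex_convexHull ℝ S).convexIndependent_extremePoints
  rw [convexIndependent_set_iff_notMem_convexHull_sdiff] at h1
  exact h1

theorem R_insert {I : Set ℝ} {S : Set (E d)} (hS : S.Finite) {x : E d}
    (h : Sep (insert x S)) (h1 : InI I (convexHull ℝ S))
    (h2 : InI I (convexHull ℝ (insert x S))) :
    R I (convexHull ℝ S) (convexHull ℝ (insert x S)) := by
  refine ⟨h1, h2, Or.inl ⟨x, ?_, ?_⟩⟩
  · rw [convexHull_convexHull_union_left, union_singleton]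
  · rw [ext_of_sep (hS.insert x) h, ext_of_sep hS (h.mono (subset_insert x S)), union_singleton]

/-- a family with an additional point -/
def O {ι : Type} (V : ι → E d) (x : E d) : Option ι → E d
  | none => x
  | some i => V i

theorem range_O {ι : Type} (V : ι → E d) (x : E d) : range (O V x) = insert x (range V) := by
  ext y
  constructor
  · rintro ⟨o, rfl⟩
    cases o with
    | none => exact mem_insert _ _
    | some i => exact mem_insert_of_mem _ ⟨i, rfl⟩
  · rintro (rfl | ⟨i, rfl⟩)
    · exact ⟨none, rfl⟩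
    · exact ⟨some i, rfl⟩

theorem isPoly_hull {ι : Type} [Finite ι] {V : ι → E d} (h : (interior (hull V)).Nonempty) :
    IsPoly (hull V) := ⟨⟨range V, finite_range V, rfl⟩, h⟩

/-- replacing one vertex -/
theorem conn_update {I : Set ℝ} {ι : Type} [Finite ι] [DecidableEq ι] {V : ι → E d} {i : ι}
    {x : E d}
    (h : FSep (O V x)) (h1 : InI I (hull V)) (h2 : InI I (hull (O V x)))
    (h3 : InI I (hull (Function.update V i x))) :
    Conn I (hull V) (hull (Function.update V i x)) := by
  have hinj := h.injective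
  have hVx : ∀ j, V j ≠ x := fun j e => by
    have : O V x (some j) = O V x none := e
    exact absurd (hinj this) (by simp)
  have hVinj : Function.Injective V := fun a b e => by
    have : O V x (some a) = O V x (some b) := e
    exact Option.some_injective _ (hinj this)
  have hsep : Sep (insert x (range V)) := by
    rw [← range_O]
    exact h.sep
  have hset : insert (V i) (range (Function.update V i x)) = insert x (range V) := by
    ext y
    constructor
    · rintro (rfl | ⟨j, rfl⟩)
      · exact mem_insert_of_mem _ ⟨i, rfl⟩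
      · by_cases hj : j = i
        · subst hj
          rw [Function.update_self]
          exact mem_insert _ _
        · rw [Function.update_of_ne hj]
          exact mem_insert_of_mem _ ⟨j, rfl⟩
    · rintro (rfl | ⟨j, rfl⟩)
      · exact mem_insert_of_mem _ ⟨i, Function.update_self ..⟩
      · by_cases hj : j = i
        · subst hj
          exact mem_insert _ _
        · exact mem_insert_of_mem _ ⟨j, Function.update_of_ne hj ..⟩
  have hO : hull (O V x) = convexHull ℝ (insert x (range V)) := by
    unfold hull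
    rw [range_O]
  rw [hO] at h2
  have r1 : R I (hull V) (convexHull ℝ (insert x (range V))) :=
    R_insert (finite_range V) hsep h1 h2
  have r2 : R I (hull (Function.update V i x)) (convexHull ℝ (insert x (range V))) := by
    rw [← hset] at h2 hsep ⊢
    exact R_insert (finite_range _) hsep h3 h2
  exact Relation.ReflTransGen.tail (Relation.ReflTransGen.single r1) r2.symm

/-- deleting one vertex -/
theorem R_delete {I : Set ℝ} {ι : Type} [Finite ι] {V : ι → E d} (i : ι)
    (h : FSep V) (h1 : InI I (hull (fun j : {j : ι // j ≠ i} => V j))) (h2 : InI I (hull V)) :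
    R I (hull (fun j : {j : ι // j ≠ i} => V j)) (hull V) := by
  have hset : insert (V i) (range (fun j : {j : ι // j ≠ i} => V j)) = range V := by
    ext y
    constructor
    · rintro (rfl | ⟨j, rfl⟩)
      · exact ⟨i, rfl⟩
      · exact ⟨j, rfl⟩
    · rintro ⟨j, rfl⟩
      by_cases hj : j = i
      · subst hj
        exact mem_insert _ _
      · exact mem_insert_of_mem _ ⟨⟨j, hj⟩, rfl⟩
  have hh : hull V = convexHull ℝ (insert (V i) (range (fun j : {j : ι // j ≠ i} => V j))) := by
    rw [hset]
    rfl
  rw [hh] at h2 ⊢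
  apply R_insert (finite_range _) _ h1 h2
  rw [hset]
  exact h.sep

/-- robustness of the insertion of a point near a vertex -/
theorem robust (hd : 2 ≤ d) {ι : Type} [Finite ι] {V : ι → E d} (hV : FSep V) (i : ι) :
    ∃ e : E d, ‖e‖ = 1 ∧ ∃ ε : ℝ, 0 < ε ∧ ∀ W : ι → E d, (∀ j, ‖W j - V j‖ < ε) →
      ∀ u : E d, (‖u - e‖ < ε ∨ ‖u + e‖ < ε) → ∀ s : ℝ, 0 < s → s < ε →
        FSep (O W (W i + s • u)) := by
  classical
  have := Fintype.ofFinite ι
  choose f hf using hV
  -- a direction orthogonal to `f i`
  obtain ⟨e, he, hfe⟩ : ∃ e : E d, ‖e‖ = 1 ∧ inner ℝ (f i) e = 0 := by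
    have h1 : (ℝ ∙ (f i))ᗮ ≠ (⊥ : Submodule ℝ (E d)) := by
      intro h
      have h2 := Submodule.finrank_add_finrank_orthogonal (ℝ ∙ (f i))
      rw [h, finrank_bot, finrank_euclideanSpace, Fintype.card_fin] at h2
      have h3 : Module.finrank ℝ (ℝ ∙ (f i)) ≤ 1 := by
        have := finrank_span_le_card (R := ℝ) ({f i} : Set (E d))
        simpa using this
      omega
    obtain ⟨z, hz, hz0⟩ := Submodule.exists_mem_ne_zero_of_ne_bot h1
    have hzn : 0 < ‖z‖ := norm_pos_iff.2 hz0
    refine ⟨‖z‖⁻¹ • z, ?_, ?_⟩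
    · rw [norm_smul, norm_inv, norm_norm, inv_mul_cancel₀ hzn.ne']
    · rw [inner_smul_right, Submodule.mem_orthogonal_singleton_iff_inner_right.1 hz, mul_zero]
  have hee : inner ℝ e e = (1 : ℝ) := by rw [real_inner_self_eq_norm_sq, he]; norm_num
  -- perturbed functionals
  obtain ⟨lam, hlam, hlam1⟩ : ∃ lam : ℝ, 0 < lam ∧ ∀ j, j ≠ i →
      inner ℝ (f i + lam • e) (V j) < inner ℝ (f i + lam • e) (V i) ∧
      inner ℝ (f i - lam • e) (V j) < inner ℝ (f i - lam • e) (V i) := by
    have hev : ∀ᶠ lam in nhds (0 : ℝ), ∀ j, j ≠ i →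
        inner ℝ (f i + lam • e) (V j) < inner ℝ (f i + lam • e) (V i) ∧
        inner ℝ (f i - lam • e) (V j) < inner ℝ (f i - lam • e) (V i) := by
      rw [Filter.eventually_all]
      intro j
      by_cases hj : j = i
      · exact Filter.Eventually.of_forall fun _ h => absurd hj h
      have hc1 : Continuous fun lam : ℝ =>
          inner ℝ (f i + lam • e) (V i) - inner ℝ (f i + lam • e) (V j) := by fun_prop
      have hc2 : Continuous fun lam : ℝ =>
          inner ℝ (f i - lam • e) (V i) - inner ℝ (f i - lam • e) (V j) := by fun_prop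
      have hfj := hf i j hj
      have h01 : 0 < inner ℝ (f i + (0 : ℝ) • e) (V i) - inner ℝ (f i + (0 : ℝ) • e) (V j) := by
        rw [zero_smul, add_zero]; linarith
      have h02 : 0 < inner ℝ (f i - (0 : ℝ) • e) (V i) - inner ℝ (f i - (0 : ℝ) • e) (V j) := by
        rw [zero_smul, sub_zero]; linarith
      filter_upwards [hc1.continuousAt.eventually (Ioi_mem_nhds h01),
        hc2.continuousAt.eventually (Ioi_mem_nhds h02)] with lam h1 h2 _
      have h1' : 0 < inner ℝ (f i + lam • e) (V i) - inner ℝ (f i + lam • e) (V j) := h1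
      have h2' : 0 < inner ℝ (f i - lam • e) (V i) - inner ℝ (f i - lam • e) (V j) := h2
      constructor <;> linarith
    obtain ⟨δ, hδ, hh⟩ := Metric.eventually_nhds_iff.1 hev
    refine ⟨δ / 2, by linarith, hh ?_⟩
    rw [Real.dist_eq, sub_zero, abs_of_pos (by linarith)]
    linarith
  set gp : E d := f i + lam • e with hgp
  set gm : E d := f i - lam • e with hgm
  have hgpe : 0 < inner ℝ gp e := by
    rw [hgp, inner_add_left, real_inner_smul_left, hfe, hee]
    linarith
  have hgme : inner ℝ gm e < (0 : ℝ) := by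
    rw [hgm, inner_sub_left, real_inner_smul_left, hfe, hee]
    linarith
  -- open conditions
  have hop : ∀ e' : E d, ∀ g1 g2 : E d, 0 < inner ℝ g1 e' → inner ℝ g2 e' < (0 : ℝ) →
      (∀ j, j ≠ i → inner ℝ g1 (V j) < inner ℝ g1 (V i)) →
      (∀ j, j ≠ i → inner ℝ g2 (V j) < inner ℝ g2 (V i)) →
      ∃ ε : ℝ, 0 < ε ∧ ∀ W : ι → E d, (∀ j, ‖W j - V j‖ < ε) →
      ∀ u : E d, ‖u - e'‖ < ε → ∀ s : ℝ, 0 < s → s < ε → FSep (O W (W i + s • u)) := by
    intro e' g1 g2 hg1 hg2 hg1V hg2V
    have hev : ∀ᶠ p in nhds ((V, e', (0 : ℝ)) : (ι → E d) × E d × ℝ),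
        (0 < inner ℝ g1 p.2.1 ∧ inner ℝ g2 p.2.1 < (0 : ℝ)) ∧
        (∀ j, j ≠ i → inner ℝ g1 (p.1 j) < inner ℝ g1 (p.1 i) ∧
          inner ℝ g2 (p.1 j) < inner ℝ g2 (p.1 i)) ∧
        (∀ j k, k ≠ j → inner ℝ (f j) (p.1 k) < inner ℝ (f j) (p.1 j)) ∧
        (∀ j, j ≠ i → inner ℝ (f j) (p.1 i + p.2.2 • p.2.1) < inner ℝ (f j) (p.1 j)) := by
      have aux : ∀ F G : (ι → E d) × E d × ℝ → ℝ, Continuous F → Continuous G →
          F (V, e', 0) < G (V, e', 0) → ∀ᶠ p in nhds ((V, e', (0 : ℝ)) : (ι → E d) × E d × ℝ),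
          F p < G p := fun F G hF hG h =>
        hF.continuousAt.eventually_lt hG.continuousAt h
      refine ((aux _ _ continuous_const (by fun_prop) (by simpa using hg1)).and
        (aux _ _ (by fun_prop) continuous_const (by simpa using hg2))).and ?_
      refine (Filter.eventually_all.2 fun j => ?_).and
        ((Filter.eventually_all.2 fun j => Filter.eventually_all.2 fun k => ?_).and
          (Filter.eventually_all.2 fun j => ?_))
      · by_cases hj : j = i
        · exact Filter.Eventually.of_forall fun _ h => absurd hj h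
        · filter_upwards [aux (fun p => inner ℝ g1 (p.1 j)) (fun p => inner ℝ g1 (p.1 i))
            (by fun_prop) (by fun_prop) (by simpa using hg1V j hj),
            aux (fun p => inner ℝ g2 (p.1 j)) (fun p => inner ℝ g2 (p.1 i))
            (by fun_prop) (by fun_prop) (by simpa using hg2V j hj)] with p h1 h2 _
          exact ⟨h1, h2⟩
      · by_cases hk : k = j
        · exact Filter.Eventually.of_forall fun _ h => absurd hk h
        · filter_upwards [aux (fun p => inner ℝ (f j) (p.1 k)) (fun p => inner ℝ (f j) (p.1 j))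
            (by fun_prop) (by fun_prop) (by simpa using hf j k hk)] with p h1 _
          exact h1
      · by_cases hj : j = i
        · exact Filter.Eventually.of_forall fun _ h => absurd hj h
        · filter_upwards [aux (fun p => inner ℝ (f j) (p.1 i + p.2.2 • p.2.1))
            (fun p => inner ℝ (f j) (p.1 j))
            (by fun_prop) (by fun_prop) (by simpa using hf j i (Ne.symm hj))] with p h1 _
          exact h1
    obtain ⟨ε, hε, hh⟩ := Metric.eventually_nhds_iff.1 hev
    refine ⟨ε, hε, fun W hW u hu s hs hsε => ?_⟩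
    have hdist : dist ((W, u, s) : (ι → E d) × E d × ℝ) (V, e', 0) < ε := by
      rw [Prod.dist_eq, Prod.dist_eq]
      refine max_lt ?_ (max_lt ?_ ?_)
      · rw [dist_pi_lt_iff hε]
        intro j
        rw [dist_eq_norm]
        exact hW j
      · rw [dist_eq_norm]; exact hu
      · rw [Real.dist_eq, sub_zero, abs_of_pos hs]; exact hsε
    obtain ⟨⟨c1, c2⟩, c3, c4, c5⟩ := hh hdist
    simp only at c1 c2 c3 c4 c5
    have hx1 : inner ℝ g1 (W i) < inner ℝ g1 (W i + s • u) := by
      rw [inner_add_right, inner_smul_right]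
      have := mul_pos hs c1
      linarith
    have hx2 : inner ℝ g2 (W i + s • u) < inner ℝ g2 (W i) := by
      rw [inner_add_right, inner_smul_right]
      have := mul_neg_of_pos_of_neg hs c2
      linarith
    intro o
    cases o with
    | none =>
      refine ⟨g1, fun l hl => ?_⟩
      cases l with
      | none => exact absurd rfl hl
      | some j =>
        change inner ℝ g1 (W j) < inner ℝ g1 (W i + s • u)
        by_cases hj : j = i
        · rw [hj]; exact hx1
        · exact (c3 j hj).1.trans hx1
    | some k =>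
      by_cases hk : k = i
      · subst hk
        refine ⟨g2, fun l hl => ?_⟩
        cases l with
        | none => exact hx2
        | some j =>
          have hj : j ≠ k := fun e => hl (by rw [e])
          exact (c3 j hj).2
      · refine ⟨f k, fun l hl => ?_⟩
        cases l with
        | none => exact c5 k hk
        | some j =>
          have hj : j ≠ k := fun e => hl (by rw [e])
          exact c4 k j hj
  obtain ⟨ε1, hε1, h1⟩ := hop e gp gm hgpe hgme (fun j hj => (hlam1 j hj).1)
    (fun j hj => (hlam1 j hj).2)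
  obtain ⟨ε2, hε2, h2⟩ := hop (-e) gm gp (by rw [inner_neg_right]; linarith)
    (by rw [inner_neg_right]; linarith) (fun j hj => (hlam1 j hj).2) (fun j hj => (hlam1 j hj).1)
  refine ⟨e, he, min ε1 ε2, lt_min hε1 hε2, fun W hW u hu s hs hsε => ?_⟩
  rcases hu with hu | hu
  · exact h1 W (fun j => (hW j).trans_le (min_le_left _ _)) u (hu.trans_le (min_le_left _ _)) s hs
      (hsε.trans_le (min_le_left _ _))
  · exact h2 W (fun j => (hW j).trans_le (min_le_right _ _)) u (by
      rw [sub_neg_eq_add]
      exact hu.trans_le (min_le_right _ _)) s hs (hsε.trans_le (min_le_right _ _))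

end Q144.PM
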