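import Pool.Agent.Q144.PMb

set_option autoImplicit false

/-! Polytope moves: paths of vertex families are realised by moves. -/

open MeasureTheory Metric Set

namespace Q144.PM

variable {d : ℕ}

/-- good families of vertices -/
def GG {ι : Type} (J : Set ℝ) (V : ι → E d) : Prop :=
  FSep V ∧ (interior (hull V)).Nonempty ∧ vol (hull V) ∈ J

theorem fsep_nhds {ι : Type} [Finite ι] {V : ι → E d} (hV : FSep V) :
    ∀ᶠ W in nhds V, FSep W := by
  have := Fintype.ofFinite ι
  choose f hf using hV
  have hev : ∀ᶠ W in nhds V, ∀ j k, k ≠ j → inner ℝ (f j) (W k) < inner ℝ (f j) (W j) := by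
    refine Filter.eventually_all.2 fun j => Filter.eventually_all.2 fun k => ?_
    by_cases hk : k = j
    · exact Filter.Eventually.of_forall fun _ h => absurd hk h
    · have hc1 : Continuous fun W : ι → E d => inner ℝ (f j) (W k) := by fun_prop
      have hc2 : Continuous fun W : ι → E d => inner ℝ (f j) (W j) := by fun_prop
      filter_upwards [hc1.continuousAt.eventually_lt hc2.continuousAt (hf j k hk)] with W h _
      exact h
  filter_upwards [hev] with W hW j
  exact ⟨f j, fun k hk => hW j k hk⟩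

/-- all small changes of one vertex are realised by moves -/
theorem step (hd : 2 ≤ d) {I J : Set ℝ} (hJI : J ⊆ I) (hJ : IsOpen J) {ι : Type} [Finite ι]
    [DecidableEq ι] {V : ι → E d} (hV : GG J V) :
    ∃ δ : ℝ, 0 < δ ∧ ∀ W : ι → E d, (∀ j, ‖W j - V j‖ < δ) → ∀ (i : ι) (y : E d),
      ‖y - V i‖ < δ → Conn I (hull W) (hull (Function.update W i y)) := by
  have := Fintype.ofFinite ι
  obtain ⟨hVs, hVi, hVv⟩ := hV
  obtain ⟨δv, hδv, hvol⟩ := vol_cont (hull_convex V) (hull_compact V) hVi (hJ.mem_nhds hVv)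
  choose e he ε hε hrob using fun i => robust hd hVs i
  -- a common bound
  obtain ⟨ε0, hε0, hε0le⟩ : ∃ ε0 : ℝ, 0 < ε0 ∧ ∀ i, ε0 ≤ ε i := by
    rcases isEmpty_or_nonempty ι with h | h
    · exact ⟨1, one_pos, fun i => h.elim i⟩
    · obtain ⟨i0, hi0⟩ := exists_min_image univ ε finite_univ univ_nonempty
      exact ⟨ε i0, hε i0, fun i => hi0.2 i (mem_univ i)⟩
  set K : ℝ := 4 / ε0 + 1 with hK
  have hK1 : 1 < K := by
    have : 0 < 4 / ε0 := by positivity
    linarith
  have hKε : 2 / K < ε0 := by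
    rw [div_lt_iff₀ (by linarith), hK]
    have : ε0 * (4 / ε0) = 4 := by field_simp
    nlinarith
  set δ : ℝ := min ε0 δv / (2 * (K + 2)) with hδdef
  have hδ : 0 < δ := by
    have : 0 < min ε0 δv := lt_min hε0 hδv
    positivity
  have hKδ : (K + 2) * δ < min ε0 δv := by
    have h1 : (K + 2) * δ = min ε0 δv / 2 := by
      rw [hδdef]
      field_simp
    have : 0 < min ε0 δv := lt_min hε0 hδv
    rw [h1]
    linarith
  have hKδε : (K + 2) * δ < ε0 := hKδ.trans_le (min_le_left _ _)
  have hKδv : (K + 2) * δ < δv := hKδ.trans_le (min_le_right _ _)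
  refine ⟨δ, hδ, ?_⟩
  intro W hW i y hy
  -- families near `V` are fine
  have hin : ∀ {κ : Type} [Finite κ] (T : κ → E d), (∀ k, ∃ j, ‖T k - V j‖ ≤ (K + 2) * δ) →
      (∀ j, ∃ k, ‖T k - V j‖ ≤ (K + 2) * δ) → InI I (hull T) := by
    intro κ _ T h1 h2
    obtain ⟨h3, h4⟩ := hvol (hull T) (hull_convex T) (hull_compact T)
      (hull_close (fun k => by
        obtain ⟨j, hj⟩ := h1 k
        exact ⟨j, hj.trans hKδv.le⟩) fun j => by
        obtain ⟨k, hk⟩ := h2 j
        exact ⟨k, hk.trans hKδv.le⟩)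
    exact ⟨isPoly_hull h3, hJI h4⟩
  have hinF : ∀ T : ι → E d, (∀ j, ‖T j - V j‖ ≤ (K + 2) * δ) → InI I (hull T) := fun T hT =>
    hin T (fun k => ⟨k, hT k⟩) fun j => ⟨j, hT j⟩
  have hinO : ∀ (T : ι → E d) (x : E d), (∀ j, ‖T j - V j‖ ≤ (K + 2) * δ) →
      ‖x - V i‖ ≤ (K + 2) * δ → InI I (hull (O T x)) := by
    intro T x hT hx
    refine hin (O T x) (fun o => ?_) fun j => ⟨some j, hT j⟩
    cases o with
    | none => exact ⟨i, hx⟩
    | some j => exact ⟨j, hT j⟩
  have hδ1 : δ ≤ (K + 2) * δ := by nlinarith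
  have hδ2 : (K + 1) * δ ≤ (K + 2) * δ := by nlinarith
  have hKδ0 : 0 < K * δ := by positivity
  have hKδε' : K * δ < ε0 := by nlinarith
  set x1 : E d := W i + (K * δ) • e i with hx1
  have hx1V : ‖x1 - V i‖ ≤ (K + 1) * δ := by
    have e1 : x1 - V i = (W i - V i) + (K * δ) • e i := by rw [hx1]; abel
    rw [e1]
    refine (norm_add_le _ _).trans ?_
    rw [norm_smul, he i, mul_one, Real.norm_of_nonneg hKδ0.le]
    have := hW i
    linarith
  -- first move
  have hO1 : FSep (O W x1) := hrob i W (fun j => (hW j).trans_le (by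
    have := hε0le i
    nlinarith)) (e i) (Or.inl (by rw [sub_self, norm_zero]; exact hε i)) (K * δ) hKδ0
    (hKδε'.trans_le (hε0le i))
  have hW0 : ∀ j, ‖W j - V j‖ ≤ (K + 2) * δ := fun j => (hW j).le.trans hδ1
  set W1 : ι → E d := Function.update W i x1 with hW1
  have hW1V' : ∀ j, ‖W1 j - V j‖ ≤ (K + 1) * δ := by
    intro j
    by_cases hj : j = i
    · subst hj
      rw [hW1, Function.update_self]
      exact hx1V
    · rw [hW1, Function.update_of_ne hj]
      refine (hW j).le.trans ?_
      nlinarith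
  have hW1V : ∀ j, ‖W1 j - V j‖ ≤ (K + 2) * δ := fun j => (hW1V' j).trans hδ2
  have m1 : Conn I (hull W) (hull W1) :=
    conn_update hO1 (hinF W hW0) (hinO W x1 hW0 (hx1V.trans hδ2)) (hinF W1 hW1V)
  -- second move
  set u : E d := (K * δ)⁻¹ • (y - x1) with hu
  have hyu : x1 + (K * δ) • u = y := by
    rw [hu, smul_smul, mul_inv_cancel₀ hKδ0.ne', one_smul]
    abel
  have hue : ‖u + e i‖ < ε i := by
    have e1 : u + e i = (K * δ)⁻¹ • (y - W i) := by
      rw [hu, hx1]
      have e2 : e i = (K * δ)⁻¹ • ((K * δ) • e i) := by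
        rw [smul_smul, inv_mul_cancel₀ hKδ0.ne', one_smul]
      nth_rewrite 2 [e2]
      rw [← smul_add]
      congr 1
      abel
    rw [e1, norm_smul, norm_inv, Real.norm_of_nonneg hKδ0.le]
    have h1 : ‖y - W i‖ < 2 * δ := by
      have e3 : y - W i = (y - V i) - (W i - V i) := by abel
      rw [e3]
      refine (norm_sub_le _ _).trans_lt ?_
      have := hW i
      linarith
    calc (K * δ)⁻¹ * ‖y - W i‖ < (K * δ)⁻¹ * (2 * δ) :=
          mul_lt_mul_of_pos_left h1 (inv_pos.2 hKδ0)
      _ = 2 / K := by field_simp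
      _ < ε0 := hKε
      _ ≤ ε i := hε0le i
  have hO2 : FSep (O W1 y) := by
    have h1 := hrob i W1 (fun j => (hW1V' j).trans_lt (by
      have := hε0le i
      nlinarith)) u (Or.inr hue) (K * δ) hKδ0 (hKδε'.trans_le (hε0le i))
    have h2 : W1 i = x1 := by rw [hW1, Function.update_self]
    rw [h2, hyu] at h1
    exact h1
  have hW2 : Function.update W1 i y = Function.update W i y := by
    rw [hW1, Function.update_idem]
  have hyV : ‖y - V i‖ ≤ (K + 2) * δ := hy.le.trans hδ1
  have hWyV : ∀ j, ‖Function.update W i y j - V j‖ ≤ (K + 2) * δ := by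
    intro j
    by_cases hj : j = i
    · subst hj
      rw [Function.update_self]
      exact hyV
    · rw [Function.update_of_ne hj]
      exact hW0 j
  have m2 : Conn I (hull W1) (hull (Function.update W1 i y)) := by
    apply conn_update hO2 (hinF W1 hW1V) (hinO W1 y hW1V hyV)
    rw [hW2]
    exact hinF _ hWyV
  rw [hW2] at m2
  exact m1.trans m2

/-- nearby families are connected -/
theorem local_conn (hd : 2 ≤ d) {I J : Set ℝ} (hJI : J ⊆ I) (hJ : IsOpen J) {ι : Type} [Finite ι]
    {V : ι → E d} (hV : GG J V) : ∀ᶠ W in nhds V, Conn I (hull V) (hull W) := by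
  classical
  have := Fintype.ofFinite ι
  obtain ⟨δ, hδ, hstep⟩ := step hd hJI hJ hV
  rw [Metric.eventually_nhds_iff]
  refine ⟨δ, hδ, fun W hW => ?_⟩
  have hWj : ∀ j, ‖W j - V j‖ < δ := fun j => by
    rw [← dist_eq_norm]
    exact (dist_le_pi_dist W V j).trans_lt hW
  have key : ∀ s : Finset ι, Conn I (hull V) (hull (fun j => if j ∈ s then W j else V j)) := by
    intro s
    induction s using Finset.induction_on with
    | empty =>
      simp only [Finset.notMem_empty, if_false]
      exact Relation.ReflTransGen.refl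
    | insert i s his ih =>
      refine ih.trans ?_
      have h1 := hstep (fun j => if j ∈ s then W j else V j) (fun j => by
        split_ifs
        · exact hWj j
        · rw [sub_self, norm_zero]; exact hδ) i (W i) (hWj i)
      have h2 : Function.update (fun j => if j ∈ s then W j else V j) i (W i) =
          (fun j => if j ∈ insert i s then W j else V j) := by
        funext j
        by_cases hj : j = i
        · subst hj
          rw [Function.update_self, if_pos (Finset.mem_insert_self _ _)]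
        · rw [Function.update_of_ne hj]
          simp [hj]
      rwa [h2] at h1
  have := key Finset.univ
  simpa using this

/-- a connected set of good families gives connected polytopes -/
theorem conn_of_preconnected (hd : 2 ≤ d) {I J : Set ℝ} (hJI : J ⊆ I) (hJ : IsOpen J) {ι : Type}
    [Finite ι] {S : Set (ι → E d)} (hS : IsPreconnected S) (hG : ∀ V ∈ S, GG J V)
    {V W : ι → E d} (hV : V ∈ S) (hW : W ∈ S) : Conn I (hull V) (hull W) := by
  refine hS.induction₂ (fun V W => Conn I (hull V) (hull W)) ?_ ?_ ?_ hV hW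
  · intro V hV
    exact (local_conn hd hJI hJ (hG V hV)).filter_mono nhdsWithin_le_nhds
  · intro a b c _ _ _ h1 h2
    exact h1.trans h2
  · intro a b _ _ h
    exact h.symm

/-- a path of good families gives connected polytopes -/
theorem conn_of_path (hd : 2 ≤ d) {I J : Set ℝ} (hJI : J ⊆ I) (hJ : IsOpen J) {ι : Type}
    [Finite ι] {γ : ℝ → ι → E d} {A : Set ℝ} (hA : IsPreconnected A) (hγ : ContinuousOn γ A)
    (hG : ∀ t ∈ A, GG J (γ t)) {s t : ℝ} (hs : s ∈ A) (ht : t ∈ A) :
    Conn I (hull (γ s)) (hull (γ t)) :=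
  conn_of_preconnected hd hJI hJ (hA.image γ hγ) (by
    rintro _ ⟨t, ht, rfl⟩
    exact hG t ht) ⟨s, hs, rfl⟩ ⟨t, ht, rfl⟩

end Q144.PM
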