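import Pool.Agent.Q144.VHb

set_option autoImplicit false

/-! Volumetric Helly partition: normalisation and the main theorem. -/

open MeasureTheory Metric Set

open scoped Pointwise

namespace Q144.VH

variable {d : ℕ}

theorem interior_of_volume {C : Set (E d)} (hC : Convex ℝ C) (hv : 0 < volume C) :
    (interior C).Nonempty := by
  by_contra hcon
  rw [not_nonempty_iff_eq_empty] at hcon
  have h1 : C ⊆ frontier C := by
    rw [frontier, hcon, sdiff_empty]
    exact subset_closure
  have h2 := measure_mono_null h1 (hC.addHaar_frontier volume)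
  exact hv.ne' h2

theorem compact_of_volume {C : Set (E d)} (hC : Convex ℝ C) (hcl : IsClosed C) {p : E d}
    (hp : p ∈ interior C) (hv : volume C < ⊤) : IsCompact C := by
  obtain ⟨ρ, hρ, hb⟩ := Metric.mem_nhds_iff.1 (mem_interior_iff_mem_nhds.1 hp)
  have hvb : 0 < (volume (ball (0 : E d) (ρ / 2))).toReal :=
    ENNReal.toReal_pos (measure_ball_pos volume _ (by positivity)).ne' measure_ball_lt_top.ne
  obtain ⟨m0, hm0⟩ := exists_nat_gt ((volume C).toReal / (volume (ball (0 : E d) (ρ / 2))).toReal)
  set C' : Set (E d) := (fun x => x + p) ⁻¹' C with hC'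
  have hC'c : Convex ℝ C' := by
    have := hC.translate_preimage_left p
    simpa [hC'] using this
  have hC'b : ball 0 ρ ⊆ C' := by
    intro x hx
    apply hb
    rw [mem_ball_iff_norm, add_sub_cancel_right]
    exact mem_ball_zero_iff.1 hx
  have hsub : C' ⊆ closedBall 0 (2 * (m0 + 1 : ℕ) * ρ) := by
    intro x hx
    rw [mem_closedBall_zero_iff]
    by_contra hcon
    rw [not_le] at hcon
    have h1 := many_balls hC'c hρ hC'b hx (m0 + 1) (by omega) hcon.le
    have h2 : ((m0 + 1 : ℕ) : ENNReal) * volume (ball (0 : E d) (ρ / 2)) ≤ volume C := by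
      refine h1.trans ((measure_mono inter_subset_left).trans (le_of_eq ?_))
      exact measure_preimage_add_right volume p C
    have h3 := ENNReal.toReal_mono hv.ne h2
    rw [ENNReal.toReal_mul, ENNReal.toReal_natCast] at h3
    rw [div_lt_iff₀ hvb] at hm0
    push_cast at h3
    nlinarith
  refine Metric.isCompact_of_isClosed_isBounded hcl ?_
  refine (isBounded_closedBall (x := p) (r := 2 * (m0 + 1 : ℕ) * ρ)).subset ?_
  intro x hx
  have h1 : x - p ∈ C' := by
    change x - p + p ∈ C
    rwa [sub_add_cancel]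
  have h2 := hsub h1
  rw [mem_closedBall_zero_iff] at h2
  rw [mem_closedBall, dist_eq_norm]
  exact h2

theorem core (d : ℕ) (hd : 1 ≤ d) (δ : ℝ) (hδ : 0 < δ) (hδ1 : δ < 1) :
    ∃ r : ℕ, 0 < r ∧ ∀ (ι : Type) [Fintype ι] (K : ι → Set (E d)),
      (∀ i, Convex ℝ (K i)) → (∀ i, IsClosed (K i)) → (interior (⋂ i, K i)).Nonempty →
      (∀ s : Finset ι, s.card ≤ 2 * d → 1 ≤ volume (⋂ i ∈ s, K i)) →
      ∃ c : ι → Fin r, ∀ j, ENNReal.ofReal (1 - δ) ≤ volume (⋂ i ∈ {i | c i = j}, K i) := by
  classical
  have hd1 : (1 : ℝ) ≤ d := by exact_mod_cast hd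
  set ρ : ℝ := 1 / (d * (d + 1)) with hρ
  have hρ0 : 0 < ρ := by positivity
  set R : ℝ := d + 1 with hR
  have hR0 : 0 < R := by positivity
  set B : Set (E d) := closedBall (0 : E d) ((2 * d + d * (2 / ρ * R)) * R) with hB
  have hBf : volume B ≠ ⊤ := (isCompact_closedBall _ _).measure_lt_top.ne
  obtain ⟨r, hr, hpart⟩ := partition_lemma d hd δ hδ hδ1 ρ hρ0 (volume B).toReal
  refine ⟨r, hr, ?_⟩
  intro ι _ K hKc hcl hint hvol
  by_cases hbig : ENNReal.ofReal (1 - δ) ≤ volume (⋂ i, K i)
  · refine ⟨fun _ => ⟨0, hr⟩, fun j => hbig.trans (measure_mono ?_)⟩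
    intro x hx
    rw [mem_iInter] at hx
    exact mem_iInter₂.2 fun i _ => hx i
  rw [not_le] at hbig
  have hfin : volume (⋂ i, K i) < ⊤ := hbig.trans_le le_top
  obtain ⟨v0, hv0⟩ := hint
  have hKK : Convex ℝ (⋂ i, K i) := convex_iInter hKc
  have hcomp := compact_of_volume hKK (isClosed_iInter hcl) hv0 hfin
  set S : Set (E d) := (fun x => x + v0) ⁻¹' (⋂ i, K i) with hS
  have hSc : IsCompact S := by
    have h1 : S = (Homeomorph.addRight v0) ⁻¹' (⋂ i, K i) := rfl
    rw [h1, Homeomorph.isCompact_preimage]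
    exact hcomp
  have hSconv : Convex ℝ S := by
    have := hKK.translate_preimage_left v0
    simpa [hS] using this
  have hS0 : (0 : E d) ∈ S := by
    change (0 : E d) + v0 ∈ (⋂ i, K i)
    rw [zero_add]
    exact interior_subset hv0
  have hspan : Submodule.span ℝ S = ⊤ := by
    obtain ⟨ε, hε, hb⟩ := Metric.mem_nhds_iff.1 (mem_interior_iff_mem_nhds.1 hv0)
    apply Submodule.eq_top_of_nonempty_interior'
    refine ⟨0, mem_interior_iff_mem_nhds.2 (Metric.mem_nhds_iff.2 ⟨ε, hε, ?_⟩)⟩
    intro x hx
    apply Submodule.subset_span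
    apply hb
    rw [mem_ball_iff_norm, add_sub_cancel_right]
    exact mem_ball_zero_iff.1 hx
  obtain ⟨w, hwS, hwi, hwβ⟩ := exists_max_basis hSc hspan
  have : Nonempty (Fin d) := ⟨⟨0, hd⟩⟩
  set bw := basisOfLinearIndependentOfCardEqFinrank hwi (by simp) with hbw
  set A : E d ≃ₗ[ℝ] E d := (WithLp.linearEquiv 2 ℝ (Fin d → ℝ)).trans bw.equivFun.symm with hA
  have hAx : ∀ x : E d, A x = ∑ j, x j • w j := by
    intro x
    rw [hA, LinearEquiv.trans_apply, Module.Basis.equivFun_symm_apply]
    simp [hbw]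
  set g : E d := WithLp.toLp 2 (fun _ => 1 / ((d : ℝ) + 1)) with hg
  have hgj : ∀ j, g j = 1 / ((d : ℝ) + 1) := fun j => rfl
  set T : E d → E d := fun x => A (x + g) + v0 with hT
  have hTc : Continuous T := by
    have : Continuous A := A.toContinuousLinearEquiv.continuous
    exact (this.comp (continuous_id.add continuous_const)).add continuous_const
  have hTaff : ∀ x y : E d, ∀ a b : ℝ, a + b = 1 → T (a • x + b • y) = a • T x + b • T y := by
    intro x y a b hab
    have h1 : a • x + b • y + g = a • (x + g) + b • (y + g) := by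
      have : g = a • g + b • g := by rw [← add_smul, hab, one_smul]
      calc a • x + b • y + g = a • x + b • y + (a • g + b • g) := by rw [← this]
        _ = _ := by rw [smul_add, smul_add]; abel
    have h2 : v0 = a • v0 + b • v0 := by rw [← add_smul, hab, one_smul]
    simp only [hT]
    rw [h1, map_add, map_smul, map_smul, smul_add, smul_add]
    calc a • A (x + g) + b • A (y + g) + v0
        = a • A (x + g) + b • A (y + g) + (a • v0 + b • v0) := by rw [← h2]
      _ = _ := by abel
  set κ : ℝ := |LinearMap.det (A.symm : E d →ₗ[ℝ] E d)| with hκ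
  have hκ0 : 0 < κ := abs_pos.2 (LinearEquiv.isUnit_det' A.symm).ne_zero
  have hTvol : ∀ X : Set (E d), volume (T ⁻¹' X) = ENNReal.ofReal κ * volume X := by
    intro X
    have h1 : T ⁻¹' X = (fun x => x + g) ⁻¹' (A ⁻¹' ((fun x => x + v0) ⁻¹' X)) := rfl
    rw [h1, measure_preimage_add_right, Measure.addHaar_preimage_linearEquiv,
      measure_preimage_add_right]
  set K' : ι → Set (E d) := fun i => T ⁻¹' (K i) with hK'
  have hK'c : ∀ i, Convex ℝ (K' i) := by
    intro i x hx y hy a b ha hb hab
    change T (a • x + b • y) ∈ K i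
    rw [hTaff x y a b hab]
    exact hKc i hx hy ha hb hab
  have hK'cl : ∀ i, IsClosed (K' i) := fun i => (hcl i).preimage hTc
  have hK'b : ∀ i, ball 0 ρ ⊆ K' i := by
    intro i x hx
    have hxj : ∀ j, |x j| < ρ := by
      intro j
      have h1 := PiLp.norm_apply_le x j
      rw [Real.norm_eq_abs] at h1
      exact h1.trans_lt (mem_ball_zero_iff.1 hx)
    have hρle : ρ ≤ 1 / ((d : ℝ) + 1) := by
      rw [hρ]
      apply one_div_le_one_div_of_le (by positivity)
      nlinarith
    have hpos : ∀ j, 0 ≤ (x + g) j := by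
      intro j
      have h1 := (abs_lt.1 (hxj j)).1
      have h2 : (x + g) j = x j + g j := rfl
      rw [h2, hgj]
      linarith
    have hsum : ∑ j, (x + g) j ≤ 1 := by
      have h1 : ∑ j, (x + g) j ≤ ∑ _j : Fin d, (ρ + 1 / ((d : ℝ) + 1)) := by
        refine Finset.sum_le_sum fun j _ => ?_
        have h1 := (abs_lt.1 (hxj j)).2
        have h2 : (x + g) j = x j + g j := rfl
        rw [h2, hgj]
        linarith
      rw [Finset.sum_const, Finset.card_univ, Fintype.card_fin, nsmul_eq_mul] at h1
      have h2 : (d : ℝ) * (ρ + 1 / (d + 1)) = 1 := by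
        rw [hρ]
        field_simp
        ring
      linarith
    have h1 : A (x + g) ∈ S := by
      rw [hAx]
      have h2 := hSconv.sum_mem (t := (Finset.univ : Finset (Option (Fin d))))
        (w := fun o => match o with
          | none => 1 - ∑ j, (x + g) j
          | some j => (x + g) j)
        (z := fun o => match o with
          | none => 0
          | some j => w j)
        (fun o _ => by
          cases o with
          | none => simp only; linarith
          | some j => exact hpos j)
        (by rw [Fintype.sum_option]; ring)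
        (fun o _ => by
          cases o with
          | none => exact hS0
          | some j => exact hwS j)
      rw [Fintype.sum_option] at h2
      simpa using h2
    have h3 := mem_iInter.1 h1 i
    exact h3
  have hK'int : ∀ s : Set ι, (⋂ i ∈ s, K' i) = T ⁻¹' (⋂ i ∈ s, K i) := by
    intro s
    simp only [hK', preimage_iInter]
  have hK'bd : ⋂ i, K' i ⊆ closedBall 0 R := by
    intro x hx
    have h1 : A (x + g) ∈ S := by
      change A (x + g) + v0 ∈ (⋂ i, K i)
      rw [mem_iInter] at hx ⊢
      exact hx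
    obtain ⟨β, hβ, hβe⟩ := hwβ _ h1
    have h2 : x + g = WithLp.toLp 2 β := by
      apply A.injective
      rw [hβe, hAx]
    have h3 : ‖x + g‖ ≤ d := by
      apply abs_le_of_sq_le_sq' _ (by positivity) |>.2
      rw [h2, EuclideanSpace.norm_sq_eq]
      calc ∑ j, ‖β j‖ ^ 2 ≤ ∑ _j : Fin d, (1 : ℝ) := by
            refine Finset.sum_le_sum fun j _ => ?_
            rw [Real.norm_eq_abs]
            have := hβ j
            have := abs_nonneg (β j)
            nlinarith
        _ = d := by simp
        _ ≤ (d : ℝ) ^ 2 := by nlinarith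
    have h4 : ‖g‖ ≤ 1 := by
      apply abs_le_of_sq_le_sq' _ (by positivity) |>.2
      rw [EuclideanSpace.norm_sq_eq]
      calc ∑ j, ‖g j‖ ^ 2 ≤ ∑ _j : Fin d, (1 / ((d : ℝ) + 1)) := by
            refine Finset.sum_le_sum fun j _ => ?_
            rw [hgj, Real.norm_of_nonneg (by positivity)]
            have h5 : 1 / ((d : ℝ) + 1) ≤ 1 := by
              rw [div_le_one (by positivity)]
              linarith
            have h6 : 0 ≤ 1 / ((d : ℝ) + 1) := by positivity
            nlinarith
        _ = d * (1 / ((d : ℝ) + 1)) := by simp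
        _ ≤ 1 ^ 2 := by
            rw [mul_one_div, div_le_iff₀ (by positivity)]
            linarith
    rw [mem_closedBall_zero_iff]
    have h5 : ‖x‖ ≤ ‖x + g‖ + ‖g‖ := by
      have := norm_sub_le (x + g) g
      rwa [add_sub_cancel_right] at this
    rw [hR]
    linarith
  have hK'v : ∀ s : Finset ι, s.card ≤ 2 * d → ENNReal.ofReal κ ≤ volume (⋂ i ∈ s, K' i) := by
    intro s hs
    have h1 := hK'int (s : Set ι)
    simp only [Finset.mem_coe] at h1
    rw [h1, hTvol]
    calc ENNReal.ofReal κ = ENNReal.ofReal κ * 1 := (mul_one _).symm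
      _ ≤ _ := by gcongr; exact hvol s hs
  have hκle : κ ≤ (volume B).toReal := by
    have h1 := volume_bound K' hK'c hK'cl hρ0 hR0 hK'b hK'bd hK'v
    rwa [ENNReal.ofReal_le_iff_le_toReal hBf] at h1
  obtain ⟨c, hc⟩ := hpart κ hκ0 hκle ι K' hK'c hK'b (fun i => by
    have := hK'v {i} (by simp; omega)
    simpa using this)
  refine ⟨c, fun j => ?_⟩
  have h1 := hc j
  rw [hK'int, hTvol, mul_comm (1 - δ) κ, ENNReal.ofReal_mul hκ0.le] at h1
  rwa [ENNReal.mul_le_mul_iff_right (ENNReal.ofReal_pos.2 hκ0).ne' ENNReal.ofReal_ne_top] at h1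

theorem main (d : ℕ) (hd : 1 ≤ d) (δ : ℝ) (hδ : 0 < δ) :
    ∃ r : ℕ, ∀ (ι : Type) [Finite ι] (K : ι → Set (E d)), (∀ i, Convex ℝ (K i)) →
      (∀ s : Finset ι, s.card ≤ 2 * d → 1 ≤ volume (⋂ i ∈ s, K i)) →
      ∃ c : ι → Fin r, ∀ j, ENNReal.ofReal (1 - δ) ≤ volume (⋂ i ∈ {i | c i = j}, K i) := by
  classical
  rcases lt_or_ge δ 1 with hδ1 | hδ1
  · obtain ⟨r, hr, hcore⟩ := core d hd δ hδ hδ1
    refine ⟨r, ?_⟩
    intro ι _ K hKc hvol
    have := Fintype.ofFinite ι
    have hKi : ∀ i, (interior (K i)).Nonempty := by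
      intro i
      have h1 := hvol {i} (by simp; omega)
      simp only [Finset.mem_singleton, iInter_iInter_eq_left] at h1
      exact interior_of_volume (hKc i) (lt_of_lt_of_le one_pos h1)
    have hhelly : (⋂ i ∈ (Finset.univ : Finset ι), interior (K i)).Nonempty := by
      apply Convex.helly_theorem' (𝕜 := ℝ) (fun i _ => (hKc i).interior)
      intro I _ hIc
      rw [finrank_euclideanSpace, Fintype.card_fin] at hIc
      have h1 := hvol I (by omega)
      obtain ⟨x, hx⟩ := interior_of_volume (convex_iInter₂ fun i _ => hKc i)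
        (lt_of_lt_of_le one_pos h1)
      refine ⟨x, mem_iInter₂.2 fun i hi => ?_⟩
      exact interior_mono (iInter₂_subset i hi) hx
    have hint : (interior (⋂ i, closure (K i))).Nonempty := by
      obtain ⟨x, hx⟩ := hhelly
      refine ⟨x, ?_⟩
      rw [interior_iInter_of_finite, mem_iInter]
      intro i
      exact interior_mono subset_closure (mem_iInter₂.1 hx i (Finset.mem_univ i))
    obtain ⟨c, hc⟩ := hcore ι (fun i => closure (K i)) (fun i => (hKc i).closure)
      (fun i => isClosed_closure) hint (fun s hs => (hvol s hs).trans (measure_mono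
        (iInter₂_mono fun i _ => subset_closure)))
    refine ⟨c, fun j => (hc j).trans ?_⟩
    have hconv : Convex ℝ (⋂ i ∈ {i | c i = j}, closure (K i)) :=
      convex_iInter₂ fun i _ => (hKc i).closure
    rw [← measure_interior_of_null_frontier (hconv.addHaar_frontier volume)]
    apply measure_mono
    intro x hx
    refine mem_iInter₂.2 fun i hi => ?_
    have h1 : x ∈ interior (closure (K i)) := interior_mono (iInter₂_subset i hi) hx
    rw [(hKc i).interior_closure_eq_interior_of_nonempty_interior (hKi i)] at h1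
    exact interior_subset h1
  · refine ⟨1, ?_⟩
    intro ι _ K _ _
    refine ⟨fun _ => 0, fun j => ?_⟩
    rw [ENNReal.ofReal_of_nonpos (by linarith)]
    exact bot_le

theorem main_family (d : ℕ) (hd : 1 ≤ d) (δ : ℝ) (hδ : 0 < δ) :
    ∃ r : ℕ, ∀ (ι : Type) [Finite ι] (K : ι → Set (E d)), (∀ i, Convex ℝ (K i)) →
      ((∀ f : Fin (2 * d) → ι, 1 ≤ volume (⋂ j, K (f j))) ∨
        (2 * d ≤ Nat.card ι ∧
          ∀ f : Fin (2 * d) → ι, Function.Injective f → 1 ≤ volume (⋂ j, K (f j)))) →
      ∃ c : ι → Fin r, ∀ j, ENNReal.ofReal (1 - δ) ≤ volume (⋂ i ∈ {i | c i = j}, K i) := by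
  classical
  obtain ⟨r, hr⟩ := main d hd δ hδ
  refine ⟨r, ?_⟩
  intro ι _ K hKc hyp
  have := Fintype.ofFinite ι
  apply hr ι K hKc
  intro s hs
  rcases hyp with hyp | ⟨hcard, hyp⟩
  · rcases s.eq_empty_or_nonempty with rfl | ⟨i0, hi0⟩
    · have h0 : Nonempty (Fin d) := ⟨⟨0, hd⟩⟩
      have h1 : Nontrivial (E d) := inferInstance
      have h2 : NoncompactSpace (E d) := NormedSpace.noncompactSpace ℝ (E d)
      have hinf : volume (univ : Set (E d)) = ⊤ := measure_univ_of_isAddLeftInvariant volume
      simp only [Finset.notMem_empty, iInter_of_empty, iInter_univ]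
      rw [hinf]
      exact le_top
    · set f : Fin (2 * d) → ι := fun j =>
        if h : (j : ℕ) < s.card then (s.equivFin.symm ⟨j, h⟩ : ι) else i0 with hf
      refine (hyp f).trans (measure_mono ?_)
      intro x hx
      rw [mem_iInter] at hx
      refine mem_iInter₂.2 fun i hi => ?_
      have h1 := hx ⟨(s.equivFin ⟨i, hi⟩ : ℕ), lt_of_lt_of_le (s.equivFin ⟨i, hi⟩).2 hs⟩
      simpa [hf] using h1
  · obtain ⟨s', hss', hs'c⟩ := Finset.exists_superset_card_eq hs
      (by rwa [Nat.card_eq_fintype_card] at hcard)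
    set e := (s'.equivFinOfCardEq hs'c).symm with he
    refine (hyp (fun j => (e j : ι)) (Subtype.val_injective.comp e.injective)).trans
      (measure_mono ?_)
    intro x hx
    rw [mem_iInter] at hx
    refine mem_iInter₂.2 fun i hi => ?_
    have h1 := hx (e.symm ⟨i, hss' hi⟩)
    simpa using h1

end Q144.VH
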