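import Pool.Agent.Q144.PMc
import Pool.Agent.Q144.VHc

set_option autoImplicit false

/-! Polytope moves: removing a vertex at constant volume. -/

open MeasureTheory Metric Set

namespace Q144.PM

variable {d : ℕ}

theorem hull_smul {ι : Type} (V : ι → E d) (t : ℝ) :
    hull (fun j => t • V j) = (fun x => (0 : E d) + t • (x - 0)) '' hull V := by
  have h1 : (fun x : E d => (0 : E d) + t • (x - 0)) = (LinearMap.lsmul ℝ (E d) t) := by
    funext x
    simp
  unfold hull
  rw [h1, LinearMap.image_convexHull]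
  congr 1
  ext y
  constructor
  · rintro ⟨j, rfl⟩
    exact ⟨V j, ⟨j, rfl⟩, rfl⟩
  · rintro ⟨_, ⟨j, rfl⟩, rfl⟩
    exact ⟨j, rfl⟩

theorem vol_hull_smul {ι : Type} (V : ι → E d) {t : ℝ} (ht : 0 ≤ t) :
    vol (hull (fun j => t • V j)) = t ^ d * vol (hull V) := by
  rw [hull_smul, vol_homothety _ _ ht]

theorem interior_hull {ι : Type} [Finite ι] {V : ι → E d} (h : 0 < vol (hull V)) :
    (interior (hull V)).Nonempty := by
  apply Q144.VH.interior_of_volume (hull_convex V)
  by_contra hcon
  have h1 : volume (hull V) = 0 := le_antisymm (not_lt.1 hcon) bot_le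
  unfold vol at h
  rw [h1] at h
  simp at h

theorem fsep_of_notMem {ι : Type} [Finite ι] {V : ι → E d}
    (h : ∀ k, V k ∉ convexHull ℝ (V '' {k}ᶜ)) : FSep V := by
  intro k
  obtain ⟨f, hf⟩ := exists_vec (convex_convexHull ℝ (V '' {k}ᶜ))
    ((toFinite (V '' {k}ᶜ)).isCompact_convexHull ℝ).isClosed (h k)
  exact ⟨f, fun l hl => hf _ (subset_convexHull ℝ _ ⟨l, hl, rfl⟩)⟩

theorem fsep_smul {ι : Type} {V : ι → E d} (h : FSep V) {t : ℝ} (ht : 0 < t) :
    FSep (fun j => t • V j) := by
  intro k
  obtain ⟨f, hf⟩ := h k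
  refine ⟨f, fun l hl => ?_⟩
  simp only
  rw [inner_smul_right, inner_smul_right]
  exact mul_lt_mul_of_pos_left (hf l hl) ht

/-- moving a vertex towards a nearest point keeps convex position -/
theorem fsep_path {ι : Type} [Finite ι] [DecidableEq ι] {V : ι → E d} (hV : FSep V) (i : ι)
    {p : E d} (hp : p ∈ convexHull ℝ (V '' {i}ᶜ))
    (hnear : ∀ z ∈ convexHull ℝ (V '' {i}ᶜ), ‖V i - p‖ ≤ ‖V i - z‖) {t : ℝ} (ht0 : 0 ≤ t)
    (ht1 : t < 1) : FSep (Function.update V i ((1 - t) • V i + t • p)) := by
  set K := convexHull ℝ (V '' {i}ᶜ) with hK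
  set x : E d := (1 - t) • V i + t • p with hx
  have hKV : K ⊆ hull V := convexHull_mono (image_subset_range V _)
  have hVi : V i ∈ hull V := subset_convexHull ℝ _ ⟨i, rfl⟩
  have hpV : p ∈ hull V := hKV hp
  have hVK : V i ∉ K := by
    have h1 := hV.sep.notMem ⟨i, rfl⟩
    intro h2
    apply h1
    refine convexHull_mono ?_ h2
    rintro _ ⟨j, hj, rfl⟩
    exact ⟨⟨j, rfl⟩, fun e => hj (hV.injective e)⟩
  have hpi : 0 < ‖V i - p‖ := by
    rw [norm_pos_iff, sub_ne_zero]
    intro e
    exact hVK (e ▸ hp)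
  have hxV : x ∈ hull V := hull_convex V hVi hpV (by linarith) ht0 (by ring)
  apply fsep_of_notMem
  intro k
  by_cases hk : k = i
  · subst hk
    rw [Function.update_self]
    have himg : (Function.update V k x) '' {k}ᶜ = V '' {k}ᶜ := by
      apply image_congr
      intro j hj
      exact Function.update_of_ne hj ..
    rw [himg]
    intro hmem
    have h1 := hnear x hmem
    have h2 : V k - x = t • (V k - p) := by
      rw [hx]
      module
    rw [h2, norm_smul, Real.norm_of_nonneg ht0] at h1
    nlinarith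
  · rw [Function.update_of_ne hk]
    intro hmem
    set A := (Function.update V i x) '' {k}ᶜ with hA
    have hAV : A ⊆ hull V := by
      rintro _ ⟨j, -, rfl⟩
      by_cases hj : j = i
      · subst hj
        rw [Function.update_self]
        exact hxV
      · rw [Function.update_of_ne hj]
        exact subset_convexHull ℝ _ ⟨j, rfl⟩
    have hext : V k ∈ (hull V).extremePoints ℝ := by
      have := ext_of_sep (finite_range V) hV.sep
      unfold hull
      rw [this]
      exact ⟨k, rfl⟩
    have hext2 : V k ∈ (convexHull ℝ A).extremePoints ℝ :=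
      inter_extremePoints_subset_extremePoints_of_subset
        (convexHull_min hAV (hull_convex V)) ⟨hmem, hext⟩
    obtain ⟨l, hl, hle⟩ := extremePoints_convexHull_subset hext2
    by_cases hli : l = i
    · rw [hli, Function.update_self] at hle
      -- `V k` is in the open segment
      rcases ht0.eq_or_lt with h0 | h0
      · rw [hx, ← h0, sub_zero, one_smul, zero_smul, add_zero] at hle
        exact hk (hV.injective hle.symm)
      · have h3 := hext.2 hVi hpV (by
          rw [← hle, hx]
          exact ⟨1 - t, t, by linarith, h0, by ring, rfl⟩)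
        exact hk (hV.injective h3).symm
    · rw [Function.update_of_ne hli] at hle
      exact hl (hV.injective hle)

theorem exists_removable {ι : Type} [Finite ι] {V : ι → E d} (hV : Function.Injective V)
    (hi : (interior (hull V)).Nonempty) (hc : d + 2 ≤ Nat.card ι) :
    ∃ i, (interior (convexHull ℝ (V '' {i}ᶜ))).Nonempty := by
  classical
  have := Fintype.ofFinite ι
  unfold hull at hi
  rw [interior_convexHull_nonempty_iff_affineSpan_eq_top] at hi
  obtain ⟨t, hts, hspan, hind⟩ := exists_affineIndependent ℝ (E d) (range V)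
  have htf : t.Finite := (finite_range V).subset hts
  have := htf.fintype
  have hcard : Nat.card t ≤ d + 1 := by
    have h1 := hind.card_le_finrank_succ
    rw [← Nat.card_eq_fintype_card] at h1
    change Nat.card t ≤ _ at h1
    have h2 : Module.finrank ℝ (vectorSpan ℝ (range ((↑) : t → E d))) ≤ d := by
      have h3 := Submodule.finrank_le (vectorSpan ℝ (range ((↑) : t → E d)))
      rwa [finrank_euclideanSpace, Fintype.card_fin] at h3
    omega
  obtain ⟨i, hit⟩ : ∃ i, V i ∉ t := by
    by_contra hcon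
    push Not at hcon
    have h1 : Nat.card ι ≤ Nat.card t :=
      Nat.card_le_card_of_injective (fun i => (⟨V i, hcon i⟩ : t)) fun a b h =>
        hV (congrArg Subtype.val h)
    omega
  refine ⟨i, ?_⟩
  rw [interior_convexHull_nonempty_iff_affineSpan_eq_top, eq_top_iff, ← hi, ← hspan]
  apply affineSpan_mono
  intro y hy
  obtain ⟨j, rfl⟩ := hts hy
  exact ⟨j, fun e => hit (by rw [← mem_singleton_iff.1 e]; exact hy), rfl⟩

theorem restrict_hull {ι : Type} (V : ι → E d) (i : ι) :
    hull (fun j : {j : ι // j ≠ i} => V j) = convexHull ℝ (V '' {i}ᶜ) := by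
  unfold hull
  congr 1
  ext y
  constructor
  · rintro ⟨j, rfl⟩
    exact ⟨j, j.2, rfl⟩
  · rintro ⟨j, hj, rfl⟩
    exact ⟨⟨j, hj⟩, rfl⟩

/-- removing a vertex -/
theorem reduce (hd : 2 ≤ d) {I J : Set ℝ} (hJI : J ⊆ I) (hJ : IsOpen J) (hJ0 : J ⊆ Ioi 0)
    {ι : Type} [Finite ι] {V : ι → E d} (hV : GG J V) (hc : d + 2 ≤ Nat.card ι) :
    ∃ (i : ι) (W : {j : ι // j ≠ i} → E d), GG J W ∧ Conn I (hull V) (hull W) := by
  classical
  obtain ⟨hVs, hVi, hVv⟩ := hV
  obtain ⟨i, hi⟩ := exists_removable hVs.injective hVi hc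
  set K := convexHull ℝ (V '' {i}ᶜ) with hK
  have hKc : IsCompact K := (toFinite (V '' {i}ᶜ)).isCompact_convexHull ℝ
  have hKconv : Convex ℝ K := convex_convexHull ℝ _
  obtain ⟨p, hp, hpd⟩ := hKc.exists_infDist_eq_dist (hi.mono interior_subset) (V i)
  have hnear : ∀ z ∈ K, ‖V i - p‖ ≤ ‖V i - z‖ := by
    intro z hz
    rw [← dist_eq_norm, ← dist_eq_norm, ← hpd]
    exact infDist_le_dist_of_mem hz
  -- the family
  set U : ℝ → ι → E d := fun t => Function.update V i ((1 - t) • V i + t • p) with hU
  have hUc : Continuous U := by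
    apply continuous_pi
    intro j
    by_cases hj : j = i
    · subst hj
      simp only [hU, Function.update_self]
      fun_prop
    · simp only [hU, Function.update_of_ne hj]
      exact continuous_const
  have hUi : ∀ t j, j ≠ i → U t j = V j := fun t j hj => by
    simp only [hU, Function.update_of_ne hj]
  have hKU : ∀ t, K ⊆ hull (U t) := by
    intro t
    apply convexHull_mono
    rintro _ ⟨j, hj, rfl⟩
    exact ⟨j, hUi t j hj⟩
  have hUint : ∀ t, (interior (hull (U t))).Nonempty := fun t => hi.mono (interior_mono (hKU t))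
  set F : ℝ → ℝ := fun t => vol (hull (U t)) with hF
  have hFc : Continuous F := by
    rw [continuous_iff_continuousAt]
    intro t
    exact ContinuousAt.comp (g := fun W : ι → E d => vol (hull W)) (f := U)
      (hull_vol_continuousAt (hUint t)) hUc.continuousAt
  have hFpos : ∀ t, 0 < F t := fun t => vol_pos (hUint t) (hull_compact _)
  have hU0 : U 0 = V := by
    simp only [hU, sub_zero, one_smul, zero_smul, add_zero, Function.update_eq_self]
  have hU1 : hull (U 1) = K := by
    apply subset_antisymm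
    · apply convexHull_min _ hKconv
      rintro _ ⟨j, rfl⟩
      by_cases hj : j = i
      · subst hj
        simp only [hU, sub_self, zero_smul, one_smul, zero_add, Function.update_self]
        exact hp
      · rw [hUi 1 j hj]
        exact subset_convexHull ℝ _ ⟨j, hj, rfl⟩
    · exact hKU 1
  set c : ℝ := vol (hull V) with hc'
  have hcpos : 0 < c := vol_pos hVi (hull_compact _)
  have hd0 : d ≠ 0 := by omega
  set lam : ℝ → ℝ := fun t => (c / F t) ^ ((d : ℝ)⁻¹) with hlam
  have hlamc : Continuous lam := by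
    rw [hlam]
    refine Continuous.rpow_const (continuous_const.div hFc fun t => (hFpos t).ne') ?_
    intro t
    right
    positivity
  have hlampos : ∀ t, 0 < lam t := fun t => Real.rpow_pos_of_pos (div_pos hcpos (hFpos t)) _
  have hlamd : ∀ t, lam t ^ d = c / F t := fun t =>
    Real.rpow_inv_natCast_pow (div_pos hcpos (hFpos t)).le hd0
  set γ : ℝ → ι → E d := fun t j => lam t • U t j with hγ
  have hγc : Continuous γ := by
    apply continuous_pi
    intro j
    exact hlamc.smul ((continuous_apply j).comp hUc)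
  have hγv : ∀ t, vol (hull (γ t)) = c := by
    intro t
    rw [hγ]
    simp only
    rw [vol_hull_smul _ (hlampos t).le, hlamd]
    exact div_mul_cancel₀ _ (hFpos t).ne'
  have hγG : ∀ t ∈ Ico (0 : ℝ) 1, GG J (γ t) := by
    intro t ht
    refine ⟨fsep_smul (fsep_path hVs i hp hnear ht.1 ht.2) (hlampos t), ?_, ?_⟩
    · apply interior_hull
      rw [hγv]
      exact hcpos
    · rw [hγv]
      exact hVv
  -- close to `1` the volume of the remaining hull is fine
  have hKv : 0 < vol K := vol_pos hi hKc
  have hG : Continuous fun t => lam t ^ d * vol K := by fun_prop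
  have hG1 : lam 1 ^ d * vol K = c := by
    rw [hlamd]
    have : F 1 = vol K := by
      simp only [hF]
      rw [hU1]
    rw [this]
    exact div_mul_cancel₀ _ hKv.ne'
  have hev : ∀ᶠ t in nhds (1 : ℝ), lam t ^ d * vol K ∈ J := by
    apply hG.continuousAt.eventually (hJ.mem_nhds _)
    change lam 1 ^ d * vol K ∈ J
    rw [hG1]
    exact hVv
  obtain ⟨ε, hε, hε2⟩ := Metric.eventually_nhds_iff.1 hev
  obtain ⟨t, ht0, ht1, htd⟩ : ∃ t : ℝ, 0 ≤ t ∧ t < 1 ∧ dist t 1 < ε := by
    refine ⟨max 0 (1 - ε / 2), le_max_left _ _, max_lt one_pos (by linarith), ?_⟩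
    rw [Real.dist_eq, abs_lt]
    have h1 : 1 - ε / 2 ≤ max 0 (1 - ε / 2) := le_max_right _ _
    have h2 : max 0 (1 - ε / 2) ≤ 1 := max_le zero_le_one (by linarith)
    constructor <;> linarith
  have htJ := hε2 htd
  have hconn : Conn I (hull (γ 0)) (hull (γ t)) :=
    conn_of_path hd hJI hJ (isPreconnected_Ico (a := (0 : ℝ)) (b := 1)) hγc.continuousOn hγG
      (left_mem_Ico.2 one_pos) ⟨ht0, ht1⟩
  have hγ0 : γ 0 = V := by
    have h1 : lam 0 = 1 := by
      simp only [hlam, hF]
      rw [hU0, ← hc', div_self hcpos.ne', Real.one_rpow]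
    funext j
    simp only [hγ]
    rw [h1, one_smul, hU0]
  rw [hγ0] at hconn
  refine ⟨i, fun j => γ t j, ?_, ?_⟩
  · have hW : hull (fun j : {j : ι // j ≠ i} => γ t j) =
        hull (fun j : {j : ι // j ≠ i} => lam t • V j) := by
      congr 1
      funext j
      simp only [hγ]
      rw [hUi t j j.2]
    have hWv : vol (hull (fun j : {j : ι // j ≠ i} => γ t j)) ∈ J := by
      rw [hW, vol_hull_smul (fun j : {j : ι // j ≠ i} => V j) (hlampos t).le, restrict_hull]
      exact htJ
    refine ⟨?_, interior_hull (hJ0 hWv), hWv⟩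
    intro k
    obtain ⟨f, hf⟩ := (hγG t ⟨ht0, ht1⟩).1 k
    exact ⟨f, fun l hl => hf l fun e => hl (Subtype.ext e)⟩
  · refine hconn.trans ?_
    have hW : hull (fun j : {j : ι // j ≠ i} => γ t j) =
        hull (fun j : {j : ι // j ≠ i} => lam t • V j) := by
      congr 1
      funext j
      simp only [hγ]
      rw [hUi t j j.2]
    have hWv : vol (hull (fun j : {j : ι // j ≠ i} => γ t j)) ∈ J := by
      rw [hW, vol_hull_smul (fun j : {j : ι // j ≠ i} => V j) (hlampos t).le, restrict_hull]
      exact htJ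
    have hγt := hγG t ⟨ht0, ht1⟩
    exact Relation.ReflTransGen.single (R_delete i hγt.1
      ⟨isPoly_hull (interior_hull (hJ0 hWv)), hJI hWv⟩
      ⟨isPoly_hull hγt.2.1, hJI hγt.2.2⟩).symm

/-- reduction to a simplex -/
theorem to_simplex (hd : 2 ≤ d) {I J : Set ℝ} (hJI : J ⊆ I) (hJ : IsOpen J) (hJ0 : J ⊆ Ioi 0)
    (n : ℕ) : ∀ (ι : Type) [Finite ι] (V : ι → E d), GG J V → Nat.card ι = d + 1 + n →
    ∃ W : Option (Fin d) → E d, GG J W ∧ Conn I (hull V) (hull W) := by
  induction n with
  | zero =>
    intro ι _ V hV hc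
    have := Fintype.ofFinite ι
    have e : Option (Fin d) ≃ ι := Fintype.equivOfCardEq (by
      rw [Nat.card_eq_fintype_card] at hc
      simp [hc])
    have hh : hull (V ∘ e) = hull V := by
      unfold hull
      rw [e.surjective.range_comp]
    refine ⟨V ∘ e, ⟨?_, by rw [hh]; exact hV.2.1, by rw [hh]; exact hV.2.2⟩, ?_⟩
    · intro k
      obtain ⟨f, hf⟩ := hV.1 (e k)
      exact ⟨f, fun l hl => hf (e l) fun h => hl (e.injective h)⟩
    · rw [hh]
      exact Relation.ReflTransGen.refl
  | succ n ih =>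
    intro ι _ V hV hc
    classical
    obtain ⟨i, W, hW, hconn⟩ := reduce hd hJI hJ hJ0 hV (by omega)
    have hcW : Nat.card {j : ι // j ≠ i} = d + 1 + n := by
      have := Fintype.ofFinite ι
      rw [Nat.card_eq_fintype_card] at hc ⊢
      have h1 := Fintype.card_subtype_compl (fun j : ι => j = i)
      have h2 : Fintype.card {j : ι // j = i} = 1 := by simp
      have h3 : Fintype.card {j : ι // j ≠ i} = Fintype.card {j : ι // ¬ j = i} := rfl
      omega
    obtain ⟨W', hW', hconn'⟩ := ih _ W hW hcW
    exact ⟨W', hW', hconn.trans hconn'⟩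

end Q144.PM
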