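import Pool.Agent.Q144.PMd

set_option autoImplicit false

/-! Polytope moves: simplices. -/

open MeasureTheory Metric Set

namespace Q144.PM

variable {d : ℕ}

/-- the simplex with a vertex `c` and edge vectors the rows of `A` -/
noncomputable def sx (A : Matrix (Fin d) (Fin d) ℝ) (c : E d) : Option (Fin d) → E d
  | none => c
  | some j => c + WithLp.toLp 2 (A j)

/-- the volume of the standard simplex -/
noncomputable def v0 (d : ℕ) : ℝ := vol (hull (sx (1 : Matrix (Fin d) (Fin d) ℝ) 0))

theorem inner_row (A : Matrix (Fin d) (Fin d) ℝ) (f : E d) (j : Fin d) :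
    inner ℝ f (WithLp.toLp 2 (A j)) = ∑ i, A j i * f i := by
  rw [PiLp.inner_apply]
  rfl

theorem fsep_sx {A : Matrix (Fin d) (Fin d) ℝ} (hA : A.det ≠ 0) (c : E d) : FSep (sx A c) := by
  have hsol : ∀ b : Fin d → ℝ, ∃ f : E d, ∀ j, inner ℝ f (WithLp.toLp 2 (A j)) = b j := by
    intro b
    refine ⟨WithLp.toLp 2 (Matrix.mulVec A⁻¹ b), fun j => ?_⟩
    rw [inner_row]
    have h1 : Matrix.mulVec A (Matrix.mulVec A⁻¹ b) = b := by
      rw [Matrix.mulVec_mulVec, Matrix.mul_nonsing_inv _ (isUnit_iff_ne_zero.2 hA),
        Matrix.one_mulVec]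
    have h2 := congrFun h1 j
    rw [← h2]
    rfl
  intro o
  cases o with
  | none =>
    obtain ⟨f, hf⟩ := hsol fun _ => -1
    refine ⟨f, fun l hl => ?_⟩
    cases l with
    | none => exact absurd rfl hl
    | some j =>
      simp only [sx]
      rw [inner_add_right, hf]
      linarith
  | some k =>
    obtain ⟨f, hf⟩ := hsol fun j => if j = k then 1 else 0
    refine ⟨f, fun l hl => ?_⟩
    cases l with
    | none =>
      simp only [sx]
      rw [inner_add_right, hf, if_pos rfl]
      linarith
    | some j =>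
      have hjk : j ≠ k := fun e => hl (by rw [e])
      simp only [sx]
      rw [inner_add_right, inner_add_right, hf, hf, if_pos rfl, if_neg hjk]
      linarith

/-- the linear map with rows of `A` as images of the unit vectors -/
noncomputable def LA (A : Matrix (Fin d) (Fin d) ℝ) : E d →ₗ[ℝ] E d := Matrix.toLpLin 2 2 A.transpose

theorem LA_det (A : Matrix (Fin d) (Fin d) ℝ) : LinearMap.det (LA A) = A.det := by
  unfold LA
  rw [Matrix.toLpLin_eq_toLin, LinearMap.det_toLin, Matrix.det_transpose]

theorem LA_row (A : Matrix (Fin d) (Fin d) ℝ) (j : Fin d) :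
    LA A (WithLp.toLp 2 ((1 : Matrix (Fin d) (Fin d) ℝ) j)) = WithLp.toLp 2 (A j) := by
  unfold LA
  rw [Matrix.toLpLin_toLp]
  congr 1
  funext i
  rw [Matrix.toLin'_apply]
  simp [Matrix.mulVec, dotProduct, Matrix.one_apply]

theorem hull_sx (A : Matrix (Fin d) (Fin d) ℝ) (c : E d) :
    hull (sx A c) = (fun x => x + c) '' (LA A '' hull (sx 1 0)) := by
  have h1 : (fun x : E d => x + c) '' (LA A '' hull (sx 1 0)) =
      ((LA A).toAffineMap + AffineMap.const ℝ (E d) c) '' hull (sx 1 0) := by
    rw [image_image]
    rfl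
  rw [h1]
  unfold hull
  rw [AffineMap.image_convexHull]
  congr 1
  ext y
  constructor
  · rintro ⟨o, rfl⟩
    refine ⟨sx 1 0 o, ⟨o, rfl⟩, ?_⟩
    cases o with
    | none => simp [sx]
    | some j =>
      simp only [sx, zero_add, AffineMap.coe_add, Pi.add_apply, LinearMap.coe_toAffineMap,
        AffineMap.const_apply]
      rw [LA_row, add_comm]
  · rintro ⟨_, ⟨o, rfl⟩, rfl⟩
    refine ⟨o, ?_⟩
    cases o with
    | none => simp [sx]
    | some j =>
      simp only [sx, zero_add, AffineMap.coe_add, Pi.add_apply, LinearMap.coe_toAffineMap,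
        AffineMap.const_apply]
      rw [LA_row, add_comm]

theorem vol_sx (A : Matrix (Fin d) (Fin d) ℝ) (c : E d) :
    vol (hull (sx A c)) = |A.det| * v0 d := by
  rw [hull_sx]
  unfold v0 vol
  rw [image_add_right, measure_preimage_add_right, Measure.addHaar_image_linearMap, LA_det,
    ENNReal.toReal_mul, ENNReal.toReal_ofReal (abs_nonneg _)]

theorem v0_pos (d : ℕ) : 0 < v0 d := by
  unfold v0
  apply vol_pos _ (hull_compact _)
  have h1 : FSep (sx (1 : Matrix (Fin d) (Fin d) ℝ) 0) := fsep_sx (by simp) 0
  unfold hull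
  rw [interior_convexHull_nonempty_iff_affineSpan_eq_top]
  rw [eq_top_iff]
  intro x _
  have hsub : ∀ z : E d, z ∈ Submodule.span ℝ (range fun j : Fin d =>
      (WithLp.toLp 2 ((1 : Matrix (Fin d) (Fin d) ℝ) j) : E d)) → z ∈
      affineSpan ℝ (range (sx (1 : Matrix (Fin d) (Fin d) ℝ) 0)) := by
    intro z hz
    have h0 : (0 : E d) ∈ affineSpan ℝ (range (sx (1 : Matrix (Fin d) (Fin d) ℝ) 0)) :=
      subset_affineSpan ℝ _ ⟨none, rfl⟩
    have hdir : ∀ z ∈ Submodule.span ℝ (range fun j : Fin d =>
        (WithLp.toLp 2 ((1 : Matrix (Fin d) (Fin d) ℝ) j) : E d)),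
        z ∈ (affineSpan ℝ (range (sx (1 : Matrix (Fin d) (Fin d) ℝ) 0))).direction := by
      intro z hz
      refine (Submodule.span_le.2 ?_) hz
      rintro _ ⟨j, rfl⟩
      have h2 : (WithLp.toLp 2 ((1 : Matrix (Fin d) (Fin d) ℝ) j) : E d) ∈
          affineSpan ℝ (range (sx (1 : Matrix (Fin d) (Fin d) ℝ) 0)) :=
        subset_affineSpan ℝ _ ⟨some j, by simp [sx]⟩
      have h3 := AffineSubspace.vsub_mem_direction h2 h0
      simpa using h3
    have h4 := AffineSubspace.vadd_mem_of_mem_direction (hdir z hz) h0
    simpa using h4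
  apply hsub
  have h5 : x = ∑ j, x j • (WithLp.toLp 2 ((1 : Matrix (Fin d) (Fin d) ℝ) j) : E d) := by
    ext i
    simp [Matrix.one_apply]
  rw [h5]
  exact Submodule.sum_mem _ fun j _ => Submodule.smul_mem _ _ (Submodule.subset_span ⟨j, rfl⟩)

theorem gg_sx {J : Set ℝ} (hJ0 : J ⊆ Ioi 0) {A : Matrix (Fin d) (Fin d) ℝ} {c : E d}
    (h : |A.det| * v0 d ∈ J) : GG J (sx A c) := by
  have hpos : 0 < |A.det| * v0 d := hJ0 h
  have hA : A.det ≠ 0 := by
    intro h0
    rw [h0, abs_zero, zero_mul] at hpos
    exact lt_irrefl _ hpos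
  have hv : vol (hull (sx A c)) ∈ J := by rw [vol_sx]; exact h
  exact ⟨fsep_sx hA c, interior_hull (hJ0 hv), hv⟩

theorem exists_sx (W : Option (Fin d) → E d) :
    ∃ (A : Matrix (Fin d) (Fin d) ℝ) (c : E d), sx A c = W := by
  refine ⟨fun j i => (W (some j) - W none) i, W none, ?_⟩
  funext o
  cases o with
  | none => rfl
  | some j =>
    simp only [sx]
    have : (WithLp.toLp 2 (fun i => (W (some j) - W none) i) : E d) = W (some j) - W none := rfl
    rw [this]
    abel

theorem continuous_sx {A : ℝ → Matrix (Fin d) (Fin d) ℝ} {c : ℝ → E d} (hA : Continuous A)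
    (hc : Continuous c) : Continuous (fun t => sx (A t) (c t)) := by
  apply continuous_pi
  intro o
  cases o with
  | none => exact hc
  | some j =>
    simp only [sx]
    have h1 : Continuous fun t => A t j := (continuous_apply j).comp hA
    have h2 : Continuous fun t => (WithLp.toLp 2 (A t j) : E d) :=
      (PiLp.continuous_toLp 2 (fun _ : Fin d => ℝ)).comp h1
    exact hc.add h2

/-- paths of simplices -/
theorem conn_sx (hd : 2 ≤ d) {I J : Set ℝ} (hJI : J ⊆ I) (hJ : IsOpen J) (hJ0 : J ⊆ Ioi 0)
    {A : ℝ → Matrix (Fin d) (Fin d) ℝ} {c : ℝ → E d} (hA : Continuous A) (hc : Continuous c)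
    (h : ∀ t ∈ Icc (0 : ℝ) 1, |(A t).det| * v0 d ∈ J) :
    Conn I (hull (sx (A 0) (c 0))) (hull (sx (A 1) (c 1))) :=
  conn_of_path hd hJI hJ (isPreconnected_Icc (a := (0 : ℝ)) (b := 1))
    (continuous_sx hA hc).continuousOn (fun t ht => gg_sx hJ0 (h t ht))
    (left_mem_Icc.2 zero_le_one) (right_mem_Icc.2 zero_le_one)

theorem conn_translate (hd : 2 ≤ d) {I J : Set ℝ} (hJI : J ⊆ I) (hJ : IsOpen J)
    (hJ0 : J ⊆ Ioi 0) {A : Matrix (Fin d) (Fin d) ℝ} (h : |A.det| * v0 d ∈ J) (c : E d) :
    Conn I (hull (sx A c)) (hull (sx A 0)) := by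
  have h1 := conn_sx hd hJI hJ hJ0 (A := fun _ => A) (c := fun t => (1 - t) • c)
    continuous_const (by fun_prop) (fun t _ => h)
  simpa using h1

theorem continuous_transvection (i j : Fin d) (a : ℝ) :
    Continuous fun t : ℝ => Matrix.transvection i j (t * a) := by
  unfold Matrix.transvection
  apply continuous_const.add
  apply continuous_matrix
  intro k l
  by_cases h : i = k ∧ j = l
  · simp only [Matrix.single, Matrix.of_apply, if_pos h]
    fun_prop
  · simp only [Matrix.single, Matrix.of_apply, if_neg h]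
    exact continuous_const

theorem conn_transvec_left (hd : 2 ≤ d) {I J : Set ℝ} (hJI : J ⊆ I) (hJ : IsOpen J)
    (hJ0 : J ⊆ Ioi 0) {A : Matrix (Fin d) (Fin d) ℝ} (h : |A.det| * v0 d ∈ J)
    (T : Matrix.TransvectionStruct (Fin d) ℝ) :
    Conn I (hull (sx (T.toMatrix * A) 0)) (hull (sx A 0)) := by
  have h1 := conn_sx hd hJI hJ hJ0 (A := fun t => Matrix.transvection T.i T.j (t * T.c) * A)
    (c := fun _ => 0) ((continuous_transvection _ _ _).matrix_mul continuous_const)
    continuous_const (fun t _ => by
      rw [Matrix.det_mul, Matrix.det_transvection_of_ne _ _ T.hij, one_mul]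
      exact h)
  simp only [zero_mul, Matrix.transvection_zero, one_mul] at h1
  exact h1.symm

theorem conn_transvec_right (hd : 2 ≤ d) {I J : Set ℝ} (hJI : J ⊆ I) (hJ : IsOpen J)
    (hJ0 : J ⊆ Ioi 0) {A : Matrix (Fin d) (Fin d) ℝ} (h : |A.det| * v0 d ∈ J)
    (T : Matrix.TransvectionStruct (Fin d) ℝ) :
    Conn I (hull (sx (A * T.toMatrix) 0)) (hull (sx A 0)) := by
  have h1 := conn_sx hd hJI hJ hJ0 (A := fun t => A * Matrix.transvection T.i T.j (t * T.c))
    (c := fun _ => 0) (continuous_const.matrix_mul (continuous_transvection _ _ _))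
    continuous_const (fun t _ => by
      rw [Matrix.det_mul, Matrix.det_transvection_of_ne _ _ T.hij, mul_one]
      exact h)
  simp only [zero_mul, Matrix.transvection_zero, mul_one, one_mul] at h1
  exact h1.symm

theorem conn_lists (hd : 2 ≤ d) {I J : Set ℝ} (hJI : J ⊆ I) (hJ : IsOpen J)
    (hJ0 : J ⊆ Ioi 0) {A : Matrix (Fin d) (Fin d) ℝ} (h : |A.det| * v0 d ∈ J)
    (L L' : List (Matrix.TransvectionStruct (Fin d) ℝ)) :
    Conn I (hull (sx ((L.map Matrix.TransvectionStruct.toMatrix).prod * A *
      (L'.map Matrix.TransvectionStruct.toMatrix).prod) 0)) (hull (sx A 0)) := by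
  have hL : ∀ L : List (Matrix.TransvectionStruct (Fin d) ℝ),
      ((L.map Matrix.TransvectionStruct.toMatrix).prod).det = 1 := fun L =>
    Matrix.TransvectionStruct.det_toMatrix_prod L
  induction L with
  | nil =>
    simp only [List.map_nil, List.prod_nil, one_mul]
    induction L' using List.reverseRecOn with
    | nil =>
      simp only [List.map_nil, List.prod_nil, mul_one]
      exact Relation.ReflTransGen.refl
    | append_singleton L' T ih =>
      rw [List.map_append, List.prod_append, List.map_singleton, List.prod_singleton, ← mul_assoc]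
      refine (conn_transvec_right hd hJI hJ hJ0 ?_ T).trans ih
      rw [Matrix.det_mul, hL, mul_one]
      exact h
  | cons T L ih =>
    rw [List.map_cons, List.prod_cons, mul_assoc, mul_assoc, ← mul_assoc (List.prod _)]
    refine (conn_transvec_left hd hJI hJ hJ0 ?_ T).trans ih
    rw [Matrix.det_mul, Matrix.det_mul, hL, hL, mul_one, one_mul]
    exact h

/-- flipping the sign of one diagonal entry -/
theorem conn_flip (hd : 2 ≤ d) {I J : Set ℝ} (hJI : J ⊆ I) (hJ : IsOpen J)
    (hJ0 : J ⊆ Ioi 0) {D : Fin d → ℝ} (h : |(Matrix.diagonal D).det| * v0 d ∈ J) (k : Fin d) :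
    Conn I (hull (sx (Matrix.diagonal (Function.update D k (-D k))) 0))
      (hull (sx (Matrix.diagonal D) 0)) := by
  classical
  set D' := Function.update D k (-D k) with hD'
  have hdet : (Matrix.diagonal D').det = -(Matrix.diagonal D).det := by
    rw [Matrix.det_diagonal, Matrix.det_diagonal, hD', Finset.prod_update_of_mem (Finset.mem_univ k),
      ← Finset.mul_prod_erase Finset.univ D (Finset.mem_univ k), Finset.sdiff_singleton_eq_erase]
    ring
  have h' : |(Matrix.diagonal D').det| * v0 d ∈ J := by
    rw [hdet, abs_neg]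
    exact h
  set u : Fin d → ℝ := fun j => if j = k then 0 else 1 with hu
  set M : ℝ → Matrix (Fin d) (Fin d) ℝ := fun t =>
    (1 + Matrix.replicateCol Unit ((1 - t) • u) * Matrix.replicateRow Unit (Pi.single k (1 : ℝ) : Fin d → ℝ)) *
      Matrix.diagonal D with hM
  have hMdet : ∀ t, (M t).det = (Matrix.diagonal D).det := by
    intro t
    rw [hM]
    rw [Matrix.det_mul, Matrix.det_one_add_replicateCol_mul_replicateRow, single_dotProduct]
    simp [hu]
  have hMe : ∀ t i j, M t i j = (if i = j then D i else 0) +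
      (if i = k then 0 else (if j = k then (1 - t) * D k else 0)) := by
    intro t i j
    rw [hM]
    simp only
    rw [Matrix.mul_diagonal, Matrix.add_apply, Matrix.mul_apply]
    simp only [Matrix.replicateCol_apply, Matrix.replicateRow_apply, Finset.univ_unique,
      Finset.sum_singleton, Pi.smul_apply, smul_eq_mul, hu, Matrix.one_apply, Pi.single_apply]
    split_ifs <;> simp_all
  have hMc : Continuous M := by
    apply continuous_matrix
    intro i j
    simp only [hMe]
    split_ifs <;> fun_prop
  have h1 := conn_sx hd hJI hJ hJ0 (A := M) (c := fun _ => 0) hMc continuous_const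
    (fun t _ => by rw [hMdet]; exact h)
  have hM1 : M 1 = Matrix.diagonal D := by
    ext i j
    rw [hMe, Matrix.diagonal_apply]
    simp
  rw [hM1] at h1
  refine Conn.trans ?_ h1
  -- relabel and translate
  have h2 := (conn_translate hd hJI hJ hJ0 h' (WithLp.toLp 2 (Pi.single k (D k)))).symm
  have h3 : hull (sx (Matrix.diagonal D') (WithLp.toLp 2 (Pi.single k (D k)))) =
      hull (sx (M 0) 0) := by
    have h4 : sx (Matrix.diagonal D') (WithLp.toLp 2 (Pi.single k (D k))) =
        sx (M 0) 0 ∘ Equiv.swap none (some k) := by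
      funext o
      cases o with
      | none =>
        simp only [Function.comp_apply, Equiv.swap_apply_left, sx, zero_add]
        congr 1
        funext i
        rw [hMe, Pi.single_apply]
        by_cases hi : k = i
        · subst hi
          simp
        · simp [hi, Ne.symm hi]
      | some j =>
        by_cases hj : j = k
        · subst hj
          simp only [Function.comp_apply, Equiv.swap_apply_right, sx]
          ext i
          simp only [PiLp.add_apply, PiLp.zero_apply, Matrix.diagonal_apply, hD']
          by_cases hi : i = j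
          · subst hi
            simp
          · simp [hi, Ne.symm hi]
        · have hne : (some j : Option (Fin d)) ≠ some k := fun e => hj (Option.some_injective _ e)
          simp only [Function.comp_apply]
          rw [Equiv.swap_apply_of_ne_of_ne (by simp) hne]
          simp only [sx, zero_add]
          ext i
          simp only [PiLp.add_apply, Matrix.diagonal_apply, hD', hMe, if_neg hj, sub_zero, one_mul,
            Pi.single_apply, Function.update_of_ne hj]
          ring
    unfold hull
    rw [h4, (Equiv.swap none (some k)).surjective.range_comp]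
  rw [h3] at h2
  exact h2

theorem conn_abs (hd : 2 ≤ d) {I J : Set ℝ} (hJI : J ⊆ I) (hJ : IsOpen J)
    (hJ0 : J ⊆ Ioi 0) {D : Fin d → ℝ} (h : |(Matrix.diagonal D).det| * v0 d ∈ J) :
    Conn I (hull (sx (Matrix.diagonal D) 0)) (hull (sx (Matrix.diagonal fun j => |D j|) 0)) := by
  classical
  have key : ∀ s : Finset (Fin d), Conn I (hull (sx (Matrix.diagonal D) 0))
      (hull (sx (Matrix.diagonal fun j => if j ∈ s then |D j| else D j) 0)) := by
    intro s
    induction s using Finset.induction_on with
    | empty =>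
      simp only [Finset.notMem_empty, if_false]
      exact Relation.ReflTransGen.refl
    | insert k s hks ih =>
      refine ih.trans ?_
      set G : Fin d → ℝ := fun j => if j ∈ s then |D j| else D j with hG
      have hGk : G k = D k := by simp only [hG, if_neg hks]
      have hGdet : |(Matrix.diagonal G).det| * v0 d ∈ J := by
        have : |(Matrix.diagonal G).det| = |(Matrix.diagonal D).det| := by
          rw [Matrix.det_diagonal, Matrix.det_diagonal, Finset.abs_prod, Finset.abs_prod]
          refine Finset.prod_congr rfl fun j _ => ?_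
          simp only [hG]
          split_ifs
          · exact abs_abs _
          · rfl
        rw [this]
        exact h
      rcases le_or_gt 0 (D k) with h0 | h0
      · have : (fun j => if j ∈ insert k s then |D j| else D j) = G := by
          funext j
          by_cases hj : j = k
          · subst hj
            simp only [hG, Finset.mem_insert_self, if_true, if_neg hks, abs_of_nonneg h0]
          · simp [hG, hj]
        rw [this]
        exact Relation.ReflTransGen.refl
      · have : (fun j => if j ∈ insert k s then |D j| else D j) =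
            Function.update G k (-G k) := by
          funext j
          by_cases hj : j = k
          · subst hj
            rw [Function.update_self, hGk]
            simp only [Finset.mem_insert_self, if_true, abs_of_neg h0]
          · rw [Function.update_of_ne hj]
            simp [hG, hj]
        rw [this]
        exact (conn_flip hd hJI hJ hJ0 hGdet k).symm
  have := key Finset.univ
  simpa using this

/-- positive diagonal matrices -/
theorem conn_diag (hd : 2 ≤ d) {I J : Set ℝ} (hJI : J ⊆ I) (hJ : IsOpen J)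
    (hJ0 : J ⊆ Ioi 0) (hJc : J.OrdConnected) {D D' : Fin d → ℝ} (hD : ∀ j, 0 < D j)
    (hD' : ∀ j, 0 < D' j)
    (h : |(Matrix.diagonal D).det| * v0 d ∈ J) (h' : |(Matrix.diagonal D').det| * v0 d ∈ J) :
    Conn I (hull (sx (Matrix.diagonal D) 0)) (hull (sx (Matrix.diagonal D') 0)) := by
  have hv := v0_pos d
  set G : ℝ → Fin d → ℝ := fun t j => Real.exp ((1 - t) * Real.log (D j) + t * Real.log (D' j))
    with hG
  have hG0 : G 0 = D := by
    funext j
    simp only [hG, sub_zero, one_mul, zero_mul, add_zero]
    exact Real.exp_log (hD j)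
  have hG1 : G 1 = D' := by
    funext j
    simp only [hG, sub_self, one_mul, zero_mul, zero_add]
    exact Real.exp_log (hD' j)
  have hdet : ∀ E : Fin d → ℝ, (∀ j, 0 < E j) → |(Matrix.diagonal E).det| * v0 d =
      Real.exp ((∑ j, Real.log (E j)) + Real.log (v0 d)) := by
    intro E hE
    rw [Matrix.det_diagonal, abs_of_pos (Finset.prod_pos fun j _ => hE j), Real.exp_add,
      Real.exp_sum, Real.exp_log hv]
    congr 1
    exact Finset.prod_congr rfl fun j _ => (Real.exp_log (hE j)).symm
  set a := (∑ j, Real.log (D j)) + Real.log (v0 d) with ha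
  set b := (∑ j, Real.log (D' j)) + Real.log (v0 d) with hb
  rw [hdet D hD] at h
  rw [hdet D' hD'] at h'
  have hGdet : ∀ t ∈ Icc (0 : ℝ) 1, |(Matrix.diagonal (G t)).det| * v0 d ∈ J := by
    intro t ht
    rw [hdet (G t) fun j => Real.exp_pos _]
    have e1 : (∑ j, Real.log (G t j)) + Real.log (v0 d) = (1 - t) * a + t * b := by
      simp only [hG, Real.log_exp, Finset.sum_add_distrib, ← Finset.mul_sum, ha, hb]
      ring
    rw [e1]
    rcases le_total a b with hab | hab
    · exact hJc.out h h' ⟨Real.exp_le_exp.2 (by nlinarith [ht.1, ht.2]),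
        Real.exp_le_exp.2 (by nlinarith [ht.1, ht.2])⟩
    · exact hJc.out h' h ⟨Real.exp_le_exp.2 (by nlinarith [ht.1, ht.2]),
        Real.exp_le_exp.2 (by nlinarith [ht.1, ht.2])⟩
  have hGc : Continuous fun t => Matrix.diagonal (G t) := by
    apply Continuous.matrix_diagonal
    apply continuous_pi
    intro j
    simp only [hG]
    fun_prop
  have h1 := conn_sx hd hJI hJ hJ0 (A := fun t => Matrix.diagonal (G t)) (c := fun _ => 0) hGc
    continuous_const hGdet
  simp only [hG0, hG1] at h1
  exact h1

/-- all simplices of the window are connected -/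
theorem conn_simplices (hd : 2 ≤ d) {I J : Set ℝ} (hJI : J ⊆ I) (hJ : IsOpen J)
    (hJ0 : J ⊆ Ioi 0) (hJc : J.OrdConnected) {V W : Option (Fin d) → E d} (hV : GG J V)
    (hW : GG J W) : Conn I (hull V) (hull W) := by
  have key : ∀ V : Option (Fin d) → E d, GG J V → ∃ D : Fin d → ℝ, (∀ j, 0 < D j) ∧
      |(Matrix.diagonal D).det| * v0 d ∈ J ∧ Conn I (hull V) (hull (sx (Matrix.diagonal D) 0)) := by
    intro V hV
    obtain ⟨A, c, rfl⟩ := exists_sx V
    have hAJ : |A.det| * v0 d ∈ J := by
      have := hV.2.2
      rwa [vol_sx] at this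
    obtain ⟨L, L', D, hAD⟩ :=
      Matrix.Pivot.exists_list_transvec_mul_diagonal_mul_list_transvec A
    have hdet : A.det = (Matrix.diagonal D).det := by
      rw [hAD, Matrix.det_mul, Matrix.det_mul, Matrix.TransvectionStruct.det_toMatrix_prod,
        Matrix.TransvectionStruct.det_toMatrix_prod, one_mul, mul_one]
    have hDJ : |(Matrix.diagonal D).det| * v0 d ∈ J := by rwa [← hdet]
    have c1 := conn_translate hd hJI hJ hJ0 hAJ c
    have c2 := conn_lists hd hJI hJ hJ0 hDJ L L'
    rw [← hAD] at c2
    have c3 := conn_abs hd hJI hJ hJ0 hDJ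
    have hD0 : ∀ j, D j ≠ 0 := by
      intro j h0
      have : (Matrix.diagonal D).det = 0 := by
        rw [Matrix.det_diagonal]
        exact Finset.prod_eq_zero (Finset.mem_univ j) h0
      rw [this, abs_zero, zero_mul] at hDJ
      exact absurd (mem_Ioi.1 (hJ0 hDJ)) (lt_irrefl _)
    refine ⟨fun j => |D j|, fun j => abs_pos.2 (hD0 j), ?_, (c1.trans c2).trans c3⟩
    have : |(Matrix.diagonal fun j => |D j|).det| = |(Matrix.diagonal D).det| := by
      rw [Matrix.det_diagonal, Matrix.det_diagonal, Finset.abs_prod, Finset.abs_prod]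
      exact Finset.prod_congr rfl fun j _ => abs_abs _
    rw [this]
    exact hDJ
  obtain ⟨D, hD, hDJ, hc⟩ := key V hV
  obtain ⟨D', hD', hDJ', hc'⟩ := key W hW
  exact (hc.trans (conn_diag hd hJI hJ hJ0 hJc hD hD' hDJ hDJ')).trans hc'.symm

end Q144.PM
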