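import Pool.Agent.Q144.PMe

set_option autoImplicit false

/-! Polytope moves: the connectivity theorem. -/

open MeasureTheory Metric Set

namespace Q144.PM

variable {d : ℕ}

theorem poly_ext {P : Set (E d)} (hP : IsPoly P) :
    (P.extremePoints ℝ).Finite ∧ Sep (P.extremePoints ℝ) ∧
      P = convexHull ℝ (P.extremePoints ℝ) := by
  obtain ⟨⟨S, hS, rfl⟩, -⟩ := hP
  have hfin : ((convexHull ℝ S).extremePoints ℝ).Finite :=
    hS.subset extremePoints_convexHull_subset
  refine ⟨hfin, sep_ext hS, ?_⟩
  have h1 := closure_convexHull_extremePoints (hS.isCompact_convexHull ℝ) (convex_convexHull ℝ S)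
  rw [(hfin.isCompact_convexHull ℝ).isClosed.closure_eq] at h1
  exact h1.symm

theorem poly_compact {P : Set (E d)} (hP : IsPoly P) : IsCompact P := by
  obtain ⟨⟨S, hS, rfl⟩, -⟩ := hP
  exact hS.isCompact_convexHull ℝ

theorem poly_convex {P : Set (E d)} (hP : IsPoly P) : Convex ℝ P := by
  obtain ⟨⟨S, -, rfl⟩, -⟩ := hP
  exact convex_convexHull ℝ S

theorem card_ge {ι : Type} [Finite ι] {V : ι → E d} (hi : (interior (hull V)).Nonempty) :
    d + 1 ≤ Nat.card ι := by
  have := Fintype.ofFinite ι
  unfold hull at hi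
  rw [interior_convexHull_nonempty_iff_affineSpan_eq_top] at hi
  have hne : Nonempty ι := by
    by_contra hcon
    rw [not_nonempty_iff] at hcon
    have h1 : range V = ∅ := range_eq_empty V
    rw [h1, AffineSubspace.span_empty] at hi
    exact AffineSubspace.bot_ne_top ℝ (E d) (E d) hi
  have hc : Fintype.card ι = (Fintype.card ι - 1) + 1 :=
    (Nat.succ_pred_eq_of_pos Fintype.card_pos).symm
  have h2 := finrank_vectorSpan_range_le ℝ V hc
  have h3 : vectorSpan ℝ (range V) = ⊤ := by
    rw [← direction_affineSpan, hi, AffineSubspace.direction_top]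
  rw [h3, finrank_top, finrank_euclideanSpace, Fintype.card_fin] at h2
  rw [Nat.card_eq_fintype_card]
  omega

theorem exists_family {P : Set (E d)} (hP : IsPoly P) :
    ∃ (ι : Type) (_ : Finite ι) (V : ι → E d), FSep V ∧ hull V = P := by
  obtain ⟨hfin, hsep, hPe⟩ := poly_ext hP
  refine ⟨P.extremePoints ℝ, hfin, Subtype.val, ?_, ?_⟩
  · intro k
    obtain ⟨f, hf⟩ := hsep k k.2
    exact ⟨f, fun l hl => hf l l.2 fun e => hl (Subtype.ext e)⟩
  · unfold hull
    rw [Subtype.range_coe]
    exact hPe.symm

/-- the first move: into the interior of the window -/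
theorem first_move (hd : 2 ≤ d) {I : Set ℝ} (hI : I.OrdConnected) {P : Set (E d)}
    (hP : InI I P) {w : ℝ} (hw : w ∈ I) (hvw : vol P < w) :
    ∃ (ι : Type) (_ : Finite ι) (W : ι → E d), GG (interior I) W ∧ Conn I P (hull W) := by
  obtain ⟨hPp, hPv⟩ := hP
  obtain ⟨ι, hι, V, hVs, rfl⟩ := exists_family hPp
  have hPc := hull_compact V
  have hPconv := hull_convex V
  obtain ⟨i⟩ : Nonempty ι := by
    have h1 := card_ge hPp.2
    by_contra hcon
    rw [not_nonempty_iff] at hcon
    rw [Nat.card_of_isEmpty] at h1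
    omega
  obtain ⟨e, he, ε, hε, hrob⟩ := robust hd hVs i
  obtain ⟨δ, hδ, hvol⟩ := vol_cont hPconv hPc hPp.2 (Iio_mem_nhds hvw)
  obtain ⟨s, hs, hsε, hsδ⟩ : ∃ s : ℝ, 0 < s ∧ s < ε ∧ s ≤ δ := by
    refine ⟨min (ε / 2) δ, lt_min (by linarith) hδ, ?_, min_le_right _ _⟩
    exact (min_le_left _ _).trans_lt (by linarith)
  set x : E d := V i + s • e with hx
  have hO : FSep (O V x) := hrob V (fun j => by rw [sub_self, norm_zero]; exact hε) e
    (Or.inl (by rw [sub_self, norm_zero]; exact hε)) s hs hsε
  have hclose := hvol (hull (O V x)) (hull_convex _) (hull_compact _)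
    (hull_close (fun o => by
      cases o with
      | none =>
        refine ⟨i, ?_⟩
        change ‖x - V i‖ ≤ δ
        rw [hx, add_sub_cancel_left, norm_smul, he, mul_one, Real.norm_of_nonneg hs.le]
        exact hsδ
      | some j => exact ⟨j, by change ‖V j - V j‖ ≤ δ; rw [sub_self, norm_zero]; exact hδ.le⟩)
      fun j => ⟨some j, by change ‖V j - V j‖ ≤ δ; rw [sub_self, norm_zero]; exact hδ.le⟩)
  have hins : hull (O V x) = convexHull ℝ (insert x (range V)) := by
    unfold hull
    rw [range_O]
  have hins2 : hull (O V x) = convexHull ℝ (hull V ∪ {x}) := by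
    rw [hins]
    unfold hull
    rw [convexHull_convexHull_union_left, union_singleton]
  have hxP : x ∉ hull V := by
    intro hmem
    obtain ⟨f, hf⟩ := hO none
    have hsub : hull V ⊆ {z | inner ℝ f z < inner ℝ f x} := by
      apply convexHull_min
      · rintro _ ⟨j, rfl⟩
        exact hf (some j) (by simp)
      · intro a ha b hb s t hs ht hst
        simp only [mem_ofPred_eq] at ha hb ⊢
        rw [inner_add_right, inner_smul_right, inner_smul_right]
        have e : inner ℝ f x = s * inner ℝ f x + t * inner ℝ f x := by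
          rw [← add_mul, hst, one_mul]
        rw [e]
        rcases hs.eq_or_lt with rfl | hs'
        · have : t = 1 := by linarith
          subst this
          linarith
        · have h1 := mul_lt_mul_of_pos_left ha hs'
          have h2 := mul_le_mul_of_nonneg_left hb.le ht
          linarith
    have hlt := hsub hmem
    simp only [mem_ofPred_eq] at hlt
    exact lt_irrefl _ hlt
  have hgt : vol (hull V) < vol (hull (O V x)) := by
    rw [hins2]
    exact vol_lt_of_notMem hPconv hPc hPp.2 hxP
  have hlt : vol (hull (O V x)) < w := hclose.2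
  have hIoo : Ioo (vol (hull V)) w ⊆ interior I :=
    interior_maximal (fun y hy => hI.out hPv hw ⟨hy.1.le, hy.2.le⟩) isOpen_Ioo
  have hJ : vol (hull (O V x)) ∈ interior I := hIoo ⟨hgt, hlt⟩
  refine ⟨Option ι, inferInstance, O V x, ⟨hO, hclose.1, hJ⟩, ?_⟩
  apply Relation.ReflTransGen.single
  rw [hins]
  apply R_insert (finite_range V)
  · rw [← range_O]
    exact hO.sep
  · exact ⟨hPp, hPv⟩
  · rw [← hins]
    exact ⟨isPoly_hull hclose.1, interior_subset hJ⟩

/-- connectivity when the window has no largest element -/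
theorem connected_of_no_max (hd : 2 ≤ d) {I : Set ℝ} (hI0 : I ⊆ Ioi 0) (hI : I.OrdConnected)
    (hmax : ∀ v ∈ I, ∃ w ∈ I, v < w) {P Q : Set (E d)} (hP : InI I P) (hQ : InI I Q) :
    Conn I P Q := by
  have hJI : interior I ⊆ I := interior_subset
  have hJ0 : interior I ⊆ Ioi 0 := hJI.trans hI0
  have hJc : (interior I).OrdConnected := hI.convex.interior.ordConnected
  have key : ∀ P : Set (E d), InI I P → ∃ W : Option (Fin d) → E d, GG (interior I) W ∧
      Conn I P (hull W) := by
    intro P hP
    obtain ⟨w, hw, hvw⟩ := hmax _ hP.2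
    obtain ⟨ι, hι, V, hV, hc⟩ := first_move hd hI hP hw hvw
    have hcard := card_ge hV.2.1
    obtain ⟨W, hW, hc'⟩ := to_simplex hd hJI isOpen_interior hJ0 (Nat.card ι - (d + 1)) ι V hV
      (by omega)
    exact ⟨W, hW, hc.trans hc'⟩
  obtain ⟨V, hV, hc⟩ := key P hP
  obtain ⟨W, hW, hc'⟩ := key Q hQ
  exact (hc.trans (conn_simplices hd hJI isOpen_interior hJ0 hJc hV hW)).trans hc'.symm

/-- simplices of every volume exist -/
theorem exists_simplex (hd : 2 ≤ d) {b : ℝ} (hb : 0 < b) :
    ∃ W : Option (Fin d) → E d, FSep W ∧ (interior (hull W)).Nonempty ∧ vol (hull W) = b := by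
  have hv := v0_pos d
  set μ : ℝ := (b / v0 d) ^ ((d : ℝ)⁻¹) with hμ
  have hμ0 : 0 < μ := Real.rpow_pos_of_pos (by positivity) _
  have hμd : μ ^ d = b / v0 d := Real.rpow_inv_natCast_pow (by positivity) (by omega)
  have hdet : (Matrix.diagonal fun _ : Fin d => μ).det = b / v0 d := by
    rw [Matrix.det_diagonal, Finset.prod_const, Finset.card_univ, Fintype.card_fin, hμd]
  have hpos : 0 < b / v0 d := by positivity
  have hvol : vol (hull (sx (Matrix.diagonal fun _ : Fin d => μ) 0)) = b := by
    rw [vol_sx, hdet, abs_of_pos hpos, div_mul_cancel₀ _ hv.ne']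
  refine ⟨_, fsep_sx (by rw [hdet]; exact hpos.ne') 0, interior_hull (by rw [hvol]; exact hb),
    hvol⟩

/-- a simplex of maximal volume is isolated -/
theorem isolated {I : Set ℝ} {b : ℝ} (hb : ∀ v ∈ I, v ≤ b) {W : Option (Fin d) → E d}
    (hWs : FSep W) (hWi : (interior (hull W)).Nonempty) (hWb : vol (hull W) = b)
    {Q : Set (E d)} (h : R I (hull W) Q) : Q = hull W := by
  obtain ⟨hP, hQ, hins | hins⟩ := h
  · obtain ⟨x, rfl, -⟩ := hins
    by_contra hne
    have hx : x ∉ hull W := by
      intro hx
      apply hne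
      rw [union_eq_left.2 (singleton_subset_iff.2 hx)]
      exact (hull_convex W).convexHull_eq
    have h1 := vol_lt_of_notMem (hull_convex W) (hull_compact W) hWi hx
    have h2 := hb _ hQ.2
    linarith
  · obtain ⟨x, hPx, hext⟩ := hins
    obtain ⟨hfin, -, hQe⟩ := poly_ext hQ.1
    have : Finite (Q.extremePoints ℝ) := hfin
    have hWext : (hull W).extremePoints ℝ = range W := ext_of_sep (finite_range W) hWs.sep
    have hsub : Q.extremePoints ℝ ⊆ range W := by
      rw [← hWext, hext]
      exact subset_union_left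
    have hc1 : d + 1 ≤ Nat.card (Q.extremePoints ℝ) := by
      apply card_ge (V := (Subtype.val : Q.extremePoints ℝ → E d))
      unfold hull
      rw [Subtype.range_coe, ← hQe]
      exact hQ.1.2
    have hc2 : (range W).ncard ≤ d + 1 := by
      have h1 : (range W).ncard ≤ Nat.card (Option (Fin d)) := by
        rw [← image_univ, ← ncard_univ]
        exact ncard_image_le
      simpa using h1
    have heq : Q.extremePoints ℝ = range W := by
      apply eq_of_subset_of_ncard_le hsub _ (finite_range W)
      have hc3 : (Q.extremePoints ℝ).ncard = Nat.card (Q.extremePoints ℝ) :=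
        (Nat.card_coe_set_eq _).symm
      omega
    rw [hQe, heq]
    rfl

end Q144.PM
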