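import Mathlib

/-!
# Hidden sets, the algebraic part

`K` is a convex cone, `p` a sublinear function on it (the gauge of a convex set seen from one of its
points), `D` a larger convex set.  If there are arbitrarily large finite sets of points of `D`
outside `{p ≤ 1}` that are pairwise hidden by `{p ≤ 1}`, then there is an infinite such set.
-/

namespace Q144.PS

variable {E : Type*} [AddCommGroup E] [Module ℝ E]

/-- Gauge data. -/
structure GG (K : Set E) (p : E → ℝ) (D : Set E) : Prop where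
  zero_mem : (0 : E) ∈ K
  add_mem : ∀ v ∈ K, ∀ w ∈ K, v + w ∈ K
  smul_mem : ∀ t : ℝ, 0 ≤ t → ∀ v ∈ K, t • v ∈ K
  nonneg : ∀ v ∈ K, 0 ≤ p v
  homog : ∀ t : ℝ, 0 ≤ t → ∀ v ∈ K, p (t • v) = t * p v
  sub : ∀ v ∈ K, ∀ w ∈ K, p (v + w) ≤ p v + p w
  convD : Convex ℝ D
  zeroD : (0 : E) ∈ D
  memD : ∀ v ∈ K, p v ≤ 1 → v ∈ D

/-- The open segment between `x` and `y` meets `{p ≤ 1}`. -/
def Hid (p : E → ℝ) (x y : E) : Prop :=
  ∃ s : ℝ, 0 < s ∧ s < 1 ∧ p ((1 - s) • x + s • y) ≤ 1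

/-- `p` is not additive on the pair. -/
def R (p : E → ℝ) (x y : E) : Prop := p (x + y) < p x + p y

variable {K : Set E} {p : E → ℝ} {D : Set E}

theorem hid_symm {x y : E} (h : Hid p x y) : Hid p y x := by
  obtain ⟨s, h0, h1, h2⟩ := h
  refine ⟨1 - s, by linarith, by linarith, ?_⟩
  rwa [show (1 - (1 - s)) • y + (1 - s) • x = (1 - s) • x + s • y by
    rw [sub_sub_cancel, add_comm]]

theorem hid_self {x : E} (h : Hid p x x) : p x ≤ 1 := by
  obtain ⟨s, h0, h1, h2⟩ := h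
  rwa [← add_smul, sub_add_cancel, one_smul] at h2

theorem R_symm {x y : E} (h : R p x y) : R p y x := by
  unfold R at *
  rw [add_comm y x]
  linarith

namespace GG

theorem comb_mem (G : GG K p D) {v w : E} (hv : v ∈ K) (hw : w ∈ K) {a b : ℝ} (ha : 0 ≤ a)
    (hb : 0 ≤ b) : a • v + b • w ∈ K :=
  G.add_mem _ (G.smul_mem a ha v hv) _ (G.smul_mem b hb w hw)

theorem comb_le (G : GG K p D) {v w : E} (hv : v ∈ K) (hw : w ∈ K) {a b : ℝ} (ha : 0 ≤ a)
    (hb : 0 ≤ b) : p (a • v + b • w) ≤ a * p v + b * p w := by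
  have := G.sub _ (G.smul_mem a ha v hv) _ (G.smul_mem b hb w hw)
  rwa [G.homog a ha v hv, G.homog b hb w hw] at this

theorem D_scale (G : GG K p D) {x : E} (hx : x ∈ D) {α : ℝ} (h0 : 0 ≤ α) (h1 : α ≤ 1) :
    α • x ∈ D := by
  have := G.convD hx G.zeroD h0 (show 0 ≤ 1 - α by linarith) (by ring)
  simpa using this

theorem hid_scale (G : GG K p D) {x y : E} (hx : x ∈ K) (hy : y ∈ K) (h : Hid p x y) {α : ℝ}
    (hα : 0 < α) (hα1 : α ≤ 1) : Hid p x (α • y) := by
  obtain ⟨s, h0, h1, h2⟩ := h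
  set d : ℝ := (1 - s) + s / α with hd
  have hsα : s ≤ s / α := by
    rw [le_div_iff₀ hα]; nlinarith
  have hd1 : 1 ≤ d := by rw [hd]; linarith
  have hd0 : 0 < d := by linarith
  have hsa : 0 < s / α := by positivity
  have hz : (1 - s) • x + s • y ∈ K := G.comb_mem hx hy (by linarith) h0.le
  refine ⟨s / α / d, by positivity, ?_, ?_⟩
  · rw [div_lt_one hd0, hd]; linarith
  · have e1 : 1 - s / α / d = (1 / d) * (1 - s) := by
      rw [eq_comm, one_div, inv_mul_eq_div, eq_sub_iff_add_eq, ← add_div]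
      exact div_self hd0.ne'
    have e2 : s / α / d * α = (1 / d) * s := by
      field_simp
    rw [smul_smul, e1, e2, mul_smul, mul_smul, ← smul_add, G.homog (1 / d) (by positivity) _ hz]
    have h3 : 1 / d ≤ 1 := by rw [div_le_one hd0]; exact hd1
    have h4 := G.nonneg _ hz
    have h5 : 0 ≤ 1 / d := by positivity
    nlinarith

theorem hid_of (G : GG K p D) {v w : E} (hv : v ∈ K) (hw : w ∈ K) {a b α β : ℝ} (ha : 0 < a)
    (hb : 0 < b) (hα : 0 < α) (hβ : 0 < β) (h : p (a • v + b • w) ≤ a / α + b / β) :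
    Hid p (α • v) (β • w) := by
  set d : ℝ := a / α + b / β with hd
  have hz : a • v + b • w ∈ K := G.comb_mem hv hw ha.le hb.le
  have h1 : 0 < a / α := by positivity
  have h2 : 0 < b / β := by positivity
  have hd0 : 0 < d := by positivity
  refine ⟨b / β / d, by positivity, ?_, ?_⟩
  · rw [div_lt_one hd0, hd]; linarith
  · have e1 : (1 - b / β / d) * α = (1 / d) * a := by
      have : 1 - b / β / d = (a / α) / d := by
        rw [sub_eq_iff_eq_add, ← add_div, ← hd, div_self hd0.ne']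
      rw [this]
      field_simp
    have e2 : b / β / d * β = (1 / d) * b := by
      field_simp
    rw [smul_smul, smul_smul, e1, e2, mul_smul, mul_smul, ← smul_add,
      G.homog (1 / d) (by positivity) _ hz, one_div, inv_mul_le_iff₀ hd0, mul_one]
    exact h

theorem D_comb (G : GG K p D) {v w : E} {a b α β ν : ℝ} (ha : 0 < a)
    (hb : 0 < b) (hα : 0 < α) (hβ : 0 < β) (hv : α • v ∈ D) (hw : β • w ∈ D) (hν0 : 0 ≤ ν)
    (hν : ν ≤ 1 / (a / α + b / β)) : ν • (a • v + b • w) ∈ D := by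
  set d : ℝ := a / α + b / β with hd
  have hd0 : 0 < d := by positivity
  have key : (1 / d) • (a • v + b • w) ∈ D := by
    have := G.convD hv hw (show 0 ≤ a / α / d by positivity) (show 0 ≤ b / β / d by positivity)
      (by rw [← add_div, ← hd, div_self hd0.ne'])
    have e1 : a / α / d * α = (1 / d) * a := by field_simp
    have e2 : b / β / d * β = (1 / d) * b := by field_simp
    rwa [smul_smul, smul_smul, e1, e2, mul_smul, mul_smul, ← smul_add] at this
  have h2 := G.D_scale key (α := ν * d) (by positivity) (by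
    rw [le_div_iff₀ hd0] at hν; linarith)
  rwa [smul_smul, show ν * d * (1 / d) = ν by field_simp] at h2

theorem add_cone (G : GG K p D) {x y : E} (hx : x ∈ K) (hy : y ∈ K) (h : ¬ R p x y) {a b : ℝ}
    (ha : 0 ≤ a) (hb : 0 ≤ b) : p (a • x + b • y) = a * p x + b * p y := by
  unfold R at h
  push Not at h
  refine le_antisymm (G.comb_le hx hy ha hb) ?_
  rcases le_total a b with hab | hab
  · -- b (x + y) = (a x + b y) + (b - a) x
    have h1 := G.sub _ (G.comb_mem hx hy ha hb) _ (G.smul_mem (b - a) (by linarith) x hx)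
    have h2 : a • x + b • y + (b - a) • x = b • (x + y) := by
      rw [sub_smul, smul_add]; abel
    rw [h2, G.homog b hb _ (G.add_mem x hx y hy), G.homog (b - a) (by linarith) x hx] at h1
    nlinarith
  · have h1 := G.sub _ (G.comb_mem hx hy ha hb) _ (G.smul_mem (a - b) (by linarith) y hy)
    have h2 : a • x + b • y + (a - b) • y = a • (x + y) := by
      rw [sub_smul, smul_add]; abel
    rw [h2, G.homog a ha _ (G.add_mem x hx y hy), G.homog (a - b) (by linarith) y hy] at h1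
    nlinarith

theorem R_of_hid (G : GG K p D) {x y : E} (hx : x ∈ K) (hy : y ∈ K) (h1 : 1 < p x)
    (h2 : 1 < p y) (h : Hid p x y) : R p x y := by
  by_contra hR
  obtain ⟨s, hs0, hs1, h3⟩ := h
  rw [G.add_cone hx hy hR (by linarith) hs0.le] at h3
  nlinarith

theorem not_R_self (G : GG K p D) {x : E} (hx : x ∈ K) : ¬ R p x x := by
  unfold R
  rw [← two_smul ℝ x, G.homog 2 (by norm_num) x hx]
  linarith

theorem R_smul (G : GG K p D) {x y : E} (hx : x ∈ K) (hy : y ∈ K) {a b : ℝ}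
    (ha : 0 < a) (hb : 0 < b) (h : R p x y) : R p (a • x) (b • y) := by
  by_contra hc
  have h1 := G.add_cone (G.smul_mem a ha.le x hx) (G.smul_mem b hb.le y hy) hc
    (a := a⁻¹) (b := b⁻¹) (by positivity) (by positivity)
  rw [smul_smul, smul_smul, inv_mul_cancel₀ ha.ne', inv_mul_cancel₀ hb.ne', one_smul, one_smul,
    G.homog a ha.le x hx, G.homog b hb.le y hy] at h1
  unfold R at h
  rw [← mul_assoc, ← mul_assoc, inv_mul_cancel₀ ha.ne', inv_mul_cancel₀ hb.ne', one_mul,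
    one_mul] at h1
  linarith

end GG

/-- Arbitrarily large finite cliques of `R`. -/
def Unb (p : E → ℝ) (F : Set E) : Prop :=
  ∀ N : ℕ, ∃ T : Finset E, (∀ v ∈ T, v ∈ F) ∧ (∀ v ∈ T, ∀ w ∈ T, v ≠ w → R p v w) ∧ N ≤ T.card

theorem Unb.union {F F1 F2 : Set E} (h : Unb p F) (hs : ∀ v ∈ F, v ∈ F1 ∨ v ∈ F2) :
    Unb p F1 ∨ Unb p F2 := by
  classical
  by_contra hc
  push Not at hc
  obtain ⟨h1, h2⟩ := hc
  unfold Unb at h1 h2
  push Not at h1 h2
  obtain ⟨N1, h1⟩ := h1
  obtain ⟨N2, h2⟩ := h2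
  obtain ⟨T, hT, hR, hN⟩ := h (N1 + N2)
  have a1 := h1 (T.filter (· ∈ F1)) (fun v hv => (Finset.mem_filter.1 hv).2)
    (fun v hv w hw hne => hR v (Finset.mem_filter.1 hv).1 w (Finset.mem_filter.1 hw).1 hne)
  have a2 := h2 (T.filter (· ∈ F2)) (fun v hv => (Finset.mem_filter.1 hv).2)
    (fun v hv w hw hne => hR v (Finset.mem_filter.1 hv).1 w (Finset.mem_filter.1 hw).1 hne)
  have : T.card ≤ (T.filter (· ∈ F1)).card + (T.filter (· ∈ F2)).card := by
    refine le_trans (Finset.card_le_card ?_) (Finset.card_union_le _ _)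
    intro v hv
    rw [Finset.mem_union, Finset.mem_filter, Finset.mem_filter]
    rcases hs v (hT v hv) with h3 | h3
    · exact Or.inl ⟨hv, h3⟩
    · exact Or.inr ⟨hv, h3⟩
  omega

theorem Unb.nonempty {F : Set E} (h : Unb p F) : ∃ v, v ∈ F := by
  obtain ⟨T, hT, -, hN⟩ := h 1
  obtain ⟨v, hv⟩ := Finset.card_pos.1 (by omega : 0 < T.card)
  exact ⟨v, hT v hv⟩

theorem Unb.pair {F : Set E} (h : Unb p F) : ∃ u ∈ F, ∃ z ∈ F, R p u z := by
  obtain ⟨T, hT, hR, hN⟩ := h 2
  obtain ⟨u, hu, z, hz, hne⟩ := Finset.one_lt_card.1 (by omega : 1 < T.card)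
  exact ⟨u, hT u hu, z, hT z hz, hR u hu z hz hne⟩

/-- An infinite hidden set. -/
def InfHid (K : Set E) (p : E → ℝ) (D : Set E) : Prop :=
  ∃ A : Set E, A.Infinite ∧ (∀ a ∈ A, a ∈ K ∧ a ∈ D ∧ 1 < p a) ∧
    ∀ a ∈ A, ∀ b ∈ A, a ≠ b → Hid p a b

theorem infHid_of_seq (x : ℕ → E) (h1 : ∀ n, x n ∈ K ∧ x n ∈ D ∧ 1 < p (x n))
    (h2 : ∀ m n, m < n → Hid p (x m) (x n)) : InfHid K p D := by
  have hinj : Function.Injective x := by
    intro m n hmn
    by_contra hne
    rcases lt_or_gt_of_ne hne with h | h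
    · have := h2 m n h
      rw [← hmn] at this
      have h3 := hid_self this
      have h4 := (h1 m).2.2
      linarith
    · have := h2 n m h
      rw [hmn] at this
      have h3 := hid_self this
      have h4 := (h1 n).2.2
      linarith
  refine ⟨Set.range x, Set.infinite_range_of_injective hinj, ?_, ?_⟩
  · rintro a ⟨n, rfl⟩
    exact h1 n
  · rintro a ⟨m, rfl⟩ b ⟨n, rfl⟩ hne
    rcases lt_trichotomy m n with h | h | h
    · exact h2 m n h
    · exact absurd (congrArg x h) hne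
    · exact hid_symm (h2 n m h)

/-- The state of the construction. -/
structure Good (K : Set E) (p : E → ℝ) (D : Set E) (F : Set E) (A : Finset E) : Prop where
  sub : ∀ v ∈ F, v ∈ K ∧ p v = 1 ∧ ∃ θ : ℝ, 1 < θ ∧ θ • v ∈ D
  unb : Unb p F
  memA : ∀ a ∈ A, a ∈ K ∧ a ∈ D ∧ 1 < p a
  hidA : ∀ a ∈ A, ∀ b ∈ A, a ≠ b → Hid p a b
  ev : ∀ v ∈ F, ∀ a ∈ A, ∃ η : ℝ, 0 < η ∧ Hid p a ((1 + η) • v)

theorem good_extend [DecidableEq E] {F F' : Set E} {A : Finset E} (g : Good K p D F A)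
    {a : E} (ha : a ∈ K ∧ a ∈ D ∧ 1 < p a) (hA : ∀ b ∈ A, Hid p b a)
    (h1 : ∀ v ∈ F', v ∈ K ∧ p v = 1 ∧ ∃ θ : ℝ, 1 < θ ∧ θ • v ∈ D) (h2 : Unb p F')
    (h3 : ∀ v ∈ F', ∀ b ∈ A, ∃ η : ℝ, 0 < η ∧ Hid p b ((1 + η) • v))
    (h4 : ∀ v ∈ F', ∃ η : ℝ, 0 < η ∧ Hid p a ((1 + η) • v)) :
    a ∉ A ∧ Good K p D F' (insert a A) := by
  refine ⟨fun h => ?_, h1, h2, ?_, ?_, ?_⟩
  · have := hid_self (hA a h)
    linarith [ha.2.2]
  · intro b hb
    rcases Finset.mem_insert.1 hb with rfl | hb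
    · exact ha
    · exact g.memA b hb
  · intro b hb c hc hne
    rcases Finset.mem_insert.1 hb with hb1 | hb1
    · rcases Finset.mem_insert.1 hc with hc1 | hc1
      · exact absurd (hb1.trans hc1.symm) hne
      · rw [hb1]
        exact hid_symm (hA c hc1)
    · rcases Finset.mem_insert.1 hc with hc1 | hc1
      · rw [hc1]
        exact hA b hb1
      · exact g.hidA b hb1 c hc1 hne
  · intro v hv b hb
    rcases Finset.mem_insert.1 hb with rfl | hb
    · exact h4 v hv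
    · exact h3 v hv b hb

/-- Small multiples of an element of `F` are usable. -/
theorem good_thr (G : GG K p D) {F : Set E} {A : Finset E} (g : Good K p D F A) {v : E}
    (hv : v ∈ F) : ∃ η₀ : ℝ, 0 < η₀ ∧ ∀ η : ℝ, 0 < η → η ≤ η₀ →
      (1 + η) • v ∈ D ∧ ∀ a ∈ A, Hid p a ((1 + η) • v) := by
  classical
  obtain ⟨hvK, -, θ, hθ, hθD⟩ := g.sub v hv
  have key : ∀ A' : Finset E, A' ⊆ A → ∃ η₀ : ℝ, 0 < η₀ ∧ ∀ η : ℝ, 0 < η → η ≤ η₀ →
      ∀ a ∈ A', Hid p a ((1 + η) • v) := by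
    intro A'
    induction A' using Finset.induction_on with
    | empty => intro _; exact ⟨1, one_pos, fun η _ _ a ha => absurd ha (Finset.notMem_empty a)⟩
    | insert b B _ ih =>
      intro hB
      obtain ⟨η₀, h0, h1⟩ := ih (fun x hx => hB (Finset.mem_insert_of_mem hx))
      have hbA : b ∈ A := hB (Finset.mem_insert_self b B)
      obtain ⟨η₁, h2, h3⟩ := g.ev v hv b hbA
      refine ⟨min η₀ η₁, lt_min h0 h2, fun η hη hη1 a ha => ?_⟩
      rcases Finset.mem_insert.1 ha with rfl | ha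
      · have h4 : η ≤ η₁ := hη1.trans (min_le_right _ _)
        have h5 := G.hid_scale (g.memA a hbA).1 (G.smul_mem (1 + η₁) (by linarith) v hvK) h3
          (α := (1 + η) / (1 + η₁)) (by positivity) (by
            rw [div_le_one (by linarith)]; linarith)
        rwa [smul_smul, div_mul_cancel₀ _ (by linarith : (1 : ℝ) + η₁ ≠ 0)] at h5
      · exact h1 η hη (hη1.trans (min_le_left _ _)) a ha
  obtain ⟨η₀, h0, h1⟩ := key A subset_rfl
  refine ⟨min η₀ (θ - 1), lt_min h0 (by linarith), fun η hη hη1 => ⟨?_, ?_⟩⟩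
  · have h2 : η ≤ θ - 1 := hη1.trans (min_le_right _ _)
    have h3 := G.D_scale hθD (α := (1 + η) / θ) (by positivity) (by
      rw [div_le_one (by linarith)]; linarith)
    rwa [smul_smul, div_mul_cancel₀ _ (by linarith : θ ≠ 0)] at h3
  · exact h1 η hη (hη1.trans (min_le_left _ _))

end Q144.PS
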