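import Pool.Agent.Q144.PSa

/-!
# Hidden sets: the tree argument
-/

namespace Q144.PS

variable {E : Type*} [AddCommGroup E] [Module ℝ E] {K : Set E} {p : E → ℝ} {D : Set E}

/-- Passing to a midpoint with a point of the body. -/
theorem GG.mid_hid (G : GG K p D) {a u y : E} (ha : a ∈ K) (hu : u ∈ K) (hy : y ∈ K)
    (hpy : p y ≤ 1) {η : ℝ} (hη : 0 < η) (h : Hid p a ((1 + η) • u)) :
    Hid p a ((1 + η / (2 + η)) • ((1 / 2 : ℝ) • (u + y))) := by
  obtain ⟨s, h0, h1, h2⟩ := h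
  set q : ℝ := s * (1 + η) with hq
  have hq0 : 0 < q := by positivity
  have hz : (1 - s) • a + s • ((1 + η) • u) ∈ K :=
    G.comb_mem ha (G.smul_mem (1 + η) (by linarith) u hu) (by linarith) h0.le
  refine ⟨(q + s) / (1 + q), by positivity, ?_, ?_⟩
  · rw [div_lt_one (by linarith)]; linarith
  · have e1 : 1 - (q + s) / (1 + q) = (1 / (1 + q)) * (1 - s) := by
      field_simp; ring
    have e2 : (q + s) / (1 + q) * ((1 + η / (2 + η)) * (1 / 2)) = q / (1 + q) := by
      have h2η : (2 + η) ≠ 0 := by positivity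
      field_simp
      rw [hq]; ring
    have e3 : q / (1 + q) = (1 / (1 + q)) * (s * (1 + η)) := by
      rw [← hq]; ring
    have key : (1 - (q + s) / (1 + q)) • a +
        ((q + s) / (1 + q)) • ((1 + η / (2 + η)) • ((1 / 2 : ℝ) • (u + y))) =
        (1 / (1 + q)) • ((1 - s) • a + s • ((1 + η) • u)) + (q / (1 + q)) • y := by
      rw [smul_smul (1 + η / (2 + η)), smul_smul ((q + s) / (1 + q)), e2, e1, smul_add (q / (1 + q)),
        ← add_assoc, smul_add (1 / (1 + q)), smul_smul, smul_smul, smul_smul,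
        mul_assoc (1 / (1 + q)) s (1 + η), ← e3]
    rw [key]
    have h3 := G.comb_le hz hy (a := 1 / (1 + q)) (b := q / (1 + q)) (by positivity) (by positivity)
    have h4 : 1 / (1 + q) * p ((1 - s) • a + s • ((1 + η) • u)) ≤ 1 / (1 + q) * 1 :=
      mul_le_mul_of_nonneg_left h2 (by positivity)
    have h5 : q / (1 + q) * p y ≤ q / (1 + q) * 1 := mul_le_mul_of_nonneg_left hpy (by positivity)
    have h6 : 1 / (1 + q) * 1 + q / (1 + q) * 1 = 1 := by field_simp
    linarith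

theorem one_div_ge {η : ℝ} (h : 0 ≤ η) : 1 - η ≤ 1 / (1 + η) := by
  rw [le_div_iff₀ (by linarith)]
  nlinarith [mul_nonneg h h]

/-- Case beta. -/
theorem step_beta [DecidableEq E] (G : GG K p D) {F : Set E} {A : Finset E} (g : Good K p D F A)
    {u z : E} (hu : u ∈ F) (hz : z ∈ F) (huz : R p u z)
    (hb : Unb p {y ∈ F | ¬ R p u y}) :
    ∃ (F' : Set E) (a : E), a ∉ A ∧ Good K p D F' (insert a A) := by
  obtain ⟨huK, hpu, θu, hθu, hθuD⟩ := g.sub u hu
  obtain ⟨hzK, hpz, -⟩ := g.sub z hz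
  obtain ⟨η₀, h0, h1⟩ := good_thr G g hz
  have hdef : 0 < 2 - p (u + z) := by
    unfold R at huz; linarith
  set δ : ℝ := (2 - p (u + z)) / 4 with hδ
  have hδ0 : 0 < δ := by rw [hδ]; linarith
  set η : ℝ := min η₀ δ with hη
  have hη0 : 0 < η := lt_min h0 hδ0
  have hηδ : η ≤ δ := min_le_right _ _
  obtain ⟨hD, hH⟩ := h1 η hη0 (min_le_left _ _)
  refine ⟨(fun y => (1 / 2 : ℝ) • (u + y)) '' {y ∈ F | ¬ R p u y}, (1 + η) • z,
    good_extend g ?_ hH ?_ ?_ ?_ ?_⟩
  · refine ⟨G.smul_mem _ (by linarith) z hzK, hD, ?_⟩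
    rw [G.homog _ (by linarith) z hzK, hpz]; linarith
  · rintro v ⟨y, ⟨hy, hRy⟩, rfl⟩
    obtain ⟨hyK, hpy, θy, hθy, hθyD⟩ := g.sub y hy
    have h2 : p (u + y) = 2 := by
      have := G.add_cone huK hyK hRy (a := 1) (b := 1) zero_le_one zero_le_one
      rw [one_smul, one_smul, hpu, hpy] at this
      rw [this]; norm_num
    refine ⟨G.smul_mem _ (by norm_num) _ (G.add_mem u huK y hyK), ?_, ?_⟩
    · show p ((1 / 2 : ℝ) • (u + y)) = 1
      rw [G.homog _ (by norm_num) _ (G.add_mem u huK y hyK), h2]; norm_num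
    · have h3 : 1 / θu < 1 := by rw [div_lt_one (by linarith)]; exact hθu
      have h4 : 1 / θy < 1 := by rw [div_lt_one (by linarith)]; exact hθy
      have h5 : 0 < 1 / θu := by positivity
      have h6 : 0 < 1 / θy := by positivity
      have h7 : 1 / 2 < 1 / (1 / θu + 1 / θy) := by
        apply one_div_lt_one_div_of_lt (by linarith); linarith
      refine ⟨2 * (1 / (1 / θu + 1 / θy)), by linarith, ?_⟩
      have h8 := G.D_comb (v := u) (w := y) one_pos one_pos (by linarith) (by linarith) hθuD hθyD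
        (by positivity) (le_refl (1 / (1 / θu + 1 / θy)))
      rw [one_smul, one_smul] at h8
      show (2 * (1 / (1 / θu + 1 / θy))) • ((1 / 2 : ℝ) • (u + y)) ∈ D
      rwa [smul_smul, show 2 * (1 / (1 / θu + 1 / θy)) * (1 / 2) = 1 / (1 / θu + 1 / θy) by ring]
  · intro N
    obtain ⟨T, hT, hR, hN⟩ := hb N
    refine ⟨T.image (fun y => (1 / 2 : ℝ) • (u + y)), ?_, ?_, ?_⟩
    · intro v hv
      obtain ⟨y, hy, rfl⟩ := Finset.mem_image.1 hv
      exact ⟨y, hT y hy, rfl⟩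
    · intro v hv w hw hne
      obtain ⟨y, hy, rfl⟩ := Finset.mem_image.1 hv
      obtain ⟨y', hy', rfl⟩ := Finset.mem_image.1 hw
      have hyy : y ≠ y' := fun h => hne (by rw [h])
      have h3 := hR y hy y' hy' hyy
      obtain ⟨⟨hyF, hRy⟩, ⟨hyF', hRy'⟩⟩ := And.intro (hT y hy) (hT y' hy')
      obtain ⟨hyK, hpy, -⟩ := g.sub y hyF
      obtain ⟨hyK', hpy', -⟩ := g.sub y' hyF'
      have k1 := G.add_cone huK hyK hRy (a := 1 / 2) (b := 1 / 2) (by norm_num) (by norm_num)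
      have k2 := G.add_cone huK hyK' hRy' (a := 1 / 2) (b := 1 / 2) (by norm_num) (by norm_num)
      have k3 := G.comb_le huK (G.add_mem y hyK y' hyK') (a := 1) (b := 1 / 2) (by norm_num)
        (by norm_num)
      unfold R at h3 ⊢
      rw [smul_add, smul_add, k1, k2, hpu, hpy, hpy']
      have k4 : (1 / 2 : ℝ) • u + (1 / 2 : ℝ) • y + ((1 / 2 : ℝ) • u + (1 / 2 : ℝ) • y') =
          (1 : ℝ) • u + (1 / 2 : ℝ) • (y + y') := by
        rw [smul_add, show (1 : ℝ) • u = (1 / 2 : ℝ) • u + (1 / 2 : ℝ) • u by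
          rw [← add_smul]; norm_num]
        abel
      rw [k4]
      rw [hpy, hpy'] at h3
      rw [hpu] at k3
      linarith
    · rw [Finset.card_image_of_injective]
      · exact hN
      · intro y y' h
        have h3 : (1 / 2 : ℝ) • (u + y) = (1 / 2 : ℝ) • (u + y') := h
        have h4 := smul_right_injective E (by norm_num : (1 / 2 : ℝ) ≠ 0) h3
        exact add_left_cancel h4
  · rintro v ⟨y, ⟨hy, hRy⟩, rfl⟩ b hb
    obtain ⟨hyK, hpy, -⟩ := g.sub y hy
    obtain ⟨η₁, h2, h3⟩ := g.ev u hu b hb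
    exact ⟨η₁ / (2 + η₁), by positivity, G.mid_hid (g.memA b hb).1 huK hyK hpy.le h2 h3⟩
  · rintro v ⟨y, ⟨hy, hRy⟩, rfl⟩
    obtain ⟨hyK, hpy, -⟩ := g.sub y hy
    refine ⟨δ, hδ0, ?_⟩
    have hm : (1 / 2 : ℝ) • (u + y) ∈ K := G.smul_mem _ (by norm_num) _ (G.add_mem u huK y hyK)
    refine G.hid_of hzK hm one_pos one_pos (by linarith) (by linarith) ?_
    have k1 := G.comb_le (G.add_mem u huK z hzK) (G.add_mem y hyK z hzK) (a := 1 / 2) (b := 1 / 2)
      (by norm_num) (by norm_num)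
    have k2 := G.sub y hyK z hzK
    have k3 : (1 : ℝ) • z + (1 : ℝ) • ((1 / 2 : ℝ) • (u + y)) =
        (1 / 2 : ℝ) • (u + z) + (1 / 2 : ℝ) • (y + z) := by
      rw [one_smul, one_smul, smul_add, smul_add, smul_add]
      have : z = (1 / 2 : ℝ) • z + (1 / 2 : ℝ) • z := by rw [← add_smul]; norm_num
      nth_rewrite 1 [this]
      abel
    rw [k3]
    have k4 := one_div_ge hη0.le
    have k5 := one_div_ge hδ0.le
    rw [hpy, hpz] at k2
    linarith

/-- Case alpha. -/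
theorem step_alpha [DecidableEq E] (G : GG K p D) {F : Set E} {A : Finset E} (g : Good K p D F A)
    {u : E} (hu : u ∈ F) {τ : ℝ} (hτ : 0 < τ) (hD : (1 + τ) • u ∈ D)
    (hH : ∀ a ∈ A, Hid p a ((1 + τ) • u))
    (hb : Unb p {y ∈ F | ∃ η : ℝ, 0 < η ∧ Hid p ((1 + τ) • u) ((1 + η) • y)}) :
    ∃ (F' : Set E) (a : E), a ∉ A ∧ Good K p D F' (insert a A) := by
  obtain ⟨huK, hpu, -⟩ := g.sub u hu
  refine ⟨_, (1 + τ) • u, good_extend g ?_ hH ?_ hb ?_ ?_⟩
  · refine ⟨G.smul_mem _ (by linarith) u huK, hD, ?_⟩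
    rw [G.homog _ (by linarith) u huK, hpu]; linarith
  · rintro v ⟨hv, -⟩
    exact g.sub v hv
  · rintro v ⟨hv, -⟩ b hb
    exact g.ev v hv b hb
  · rintro v ⟨-, hv⟩
    exact hv

/-- Case gamma: the points. -/
theorem gamma_pt (G : GG K p D) {u y : E} (hu : u ∈ K) (hy : y ∈ K) {τ : ℝ}
    (hτ : 0 < τ) (hn : ¬ ∃ η : ℝ, 0 < η ∧ Hid p ((1 + τ) • u) ((1 + η) • y)) {s : ℝ} (hs : 0 < s) :
    1 + s - τ ≤ p (u + s • y) := by
  by_contra hc
  push Not at hc
  apply hn
  set gap : ℝ := 1 + s - τ - p (u + s • y) with hgap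
  have hg0 : 0 < gap := by rw [hgap]; linarith
  refine ⟨gap / s, by positivity, ?_⟩
  refine G.hid_of hu hy one_pos hs (by linarith) (by positivity) ?_
  have k1 := one_div_ge hτ.le
  have k2 : s - gap ≤ s / (1 + gap / s) := by
    rw [le_div_iff₀ (by positivity)]
    have : (s - gap) * (1 + gap / s) = s - gap * gap / s := by field_simp; ring
    rw [this]
    have : 0 ≤ gap * gap / s := by positivity
    linarith
  rw [one_smul]
  linarith

/-- Case gamma: the gain is positive. -/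
theorem gamma_gain (G : GG K p D) {u y : E} (hu : u ∈ K) (hpu : p u = 1) (hy : y ∈ K)
    (hR : p (u + y) < 2) {τ : ℝ} {s : ℝ} (hs1 : 1 ≤ s) (hs : τ < s * (2 - p (u + y)))
    (h : 1 + s - τ ≤ p (u + s • y)) :
    0 < p (u + s • y) + 1 / 2 - p ((u + s • y) + (1 / 2 : ℝ) • u) := by
  by_contra hc
  push Not at hc
  have hV : u + s • y ∈ K := G.add_mem u hu _ (G.smul_mem s (by linarith) y hy)
  have hU : (1 / 2 : ℝ) • u ∈ K := G.smul_mem _ (by norm_num) u hu
  have hpU : p ((1 / 2 : ℝ) • u) = 1 / 2 := by rw [G.homog _ (by norm_num) u hu, hpu]; norm_num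
  have hnR : ¬ R p (u + s • y) ((1 / 2 : ℝ) • u) := by
    unfold R; rw [hpU]; push Not; linarith
  have hs0 : 0 < s := by linarith
  have h1s : 1 / s ≤ 1 := by rw [div_le_one hs0]; exact hs1
  have k := G.add_cone hV hU hnR (a := 1 / s) (b := 2 * (1 - 1 / s)) (by positivity) (by linarith)
  have e : (1 / s) • (u + s • y) + (2 * (1 - 1 / s)) • ((1 / 2 : ℝ) • u) = u + y := by
    rw [smul_add, smul_smul, smul_smul, one_div_mul_cancel hs0.ne', one_smul,
      show 2 * (1 - 1 / s) * (1 / 2) = 1 - 1 / s by ring, sub_smul, one_smul]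
    abel
  rw [e, hpU] at k
  have k2 : (1 + s - τ) * (1 / s) ≤ 1 / s * p (u + s • y) := by
    rw [mul_comm (1 / s)]
    exact mul_le_mul_of_nonneg_right h (by positivity)
  have k3 : (1 + s - τ) * (1 / s) = 1 / s + 1 - τ / s := by field_simp
  have k4 : τ / s < 2 - p (u + y) := by
    rw [div_lt_iff₀ hs0]; linarith
  linarith

end Q144.PS
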