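import Pool.Agent.Q144.PSb

/-!
# Hidden sets: arbitrarily large finite hidden sets give an infinite one
-/

namespace Q144.PS

variable {E : Type*} [AddCommGroup E] [Module ℝ E] {K : Set E} {p : E → ℝ} {D : Set E}

theorem finset_lower {α : Type*} (s : Finset α) (f : α → ℝ) (h : ∀ x ∈ s, 0 < f x) :
    ∃ m : ℝ, 0 < m ∧ ∀ x ∈ s, m ≤ f x := by
  classical
  induction s using Finset.induction_on with
  | empty => exact ⟨1, one_pos, fun x hx => absurd hx (Finset.notMem_empty x)⟩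
  | insert a s _ ih =>
    obtain ⟨m, hm, hm1⟩ := ih (fun x hx => h x (Finset.mem_insert_of_mem hx))
    refine ⟨min m (f a), lt_min hm (h a (Finset.mem_insert_self a s)), fun x hx => ?_⟩
    rcases Finset.mem_insert.1 hx with rfl | hx
    · exact min_le_right _ _
    · exact (min_le_left _ _).trans (hm1 x hx)

/-- The gain of a vector. -/
noncomputable def gn (p : E → ℝ) (u V : E) : ℝ := p V + 1 / 2 - p (V + (1 / 2 : ℝ) • u)

theorem gamma_inf (G : GG K p D) {u : E} (hu : u ∈ K) (hpu : p u = 1) {θu : ℝ} (hθ : 1 < θu)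
    (hθD : θu • u ∈ D) {τ₀ : ℝ} (hτ₀ : 0 < τ₀)
    (H : ∀ τ : ℝ, 0 < τ → τ ≤ τ₀ → ∃ y : E, y ∈ K ∧ p y = 1 ∧ p (u + y) < 2 ∧
      ¬ ∃ η : ℝ, 0 < η ∧ Hid p ((1 + τ) • u) ((1 + η) • y)) : InfHid K p D := by
  classical
  have key : ∀ s : Finset (E × ℝ), (∀ q ∈ s, q.1 ∈ K ∧ 0 < p q.1 ∧ 0 < gn p u q.1 ∧ 0 < q.2 ∧
      q.2 * p q.1 ≤ gn p u q.1 / 4 ∧ ((1 + q.2) / p q.1) • q.1 ∈ D) → ∃ q' : E × ℝ,
      (q'.1 ∈ K ∧ 0 < p q'.1 ∧ 0 < gn p u q'.1 ∧ 0 < q'.2 ∧
      q'.2 * p q'.1 ≤ gn p u q'.1 / 4 ∧ ((1 + q'.2) / p q'.1) • q'.1 ∈ D) ∧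
      ∀ q ∈ s, p (q.1 + q'.1) ≤ p q.1 + p q'.1 - (3 / 4) * gn p u q.1 ∧
      q'.2 * p q'.1 ≤ gn p u q.1 / 4 := by
    intro s hs
    obtain ⟨m, hm, hm1⟩ := finset_lower s (fun q => gn p u q.1 / 4) (fun q hq => by
      have := (hs q hq).2.2.1
      show 0 < gn p u q.1 / 4
      linarith)
    have h1θ : 0 < 1 - 1 / θu := by
      have : 1 / θu < 1 := by rw [div_lt_one (by linarith)]; exact hθ
      linarith
    set τ : ℝ := min (min τ₀ m) ((1 - 1 / θu) / 2) with hτ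
    have hτ0 : 0 < τ := lt_min (lt_min hτ₀ hm) (by linarith)
    have hτ1 : τ ≤ τ₀ := (min_le_left _ _).trans (min_le_left _ _)
    have hτ2 : τ ≤ m := (min_le_left _ _).trans (min_le_right _ _)
    have hτ3 : τ < 1 - 1 / θu := lt_of_le_of_lt (min_le_right _ _) (by linarith)
    obtain ⟨y, hy, hpy, hR, hn⟩ := H τ hτ0 hτ1
    have hd : 0 < 2 - p (u + y) := by linarith
    set s' : ℝ := max 1 ((τ + 1) / (2 - p (u + y))) with hs'
    have hs1 : 1 ≤ s' := le_max_left _ _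
    have hs0 : 0 < s' := by linarith
    have hs2 : τ < s' * (2 - p (u + y)) := by
      have : (τ + 1) / (2 - p (u + y)) ≤ s' := le_max_right _ _
      rw [div_le_iff₀ hd] at this
      linarith
    have hpt := gamma_pt G hu hy hτ0 hn hs0
    have hgain := gamma_gain G hu hpu hy hR hs1 hs2 hpt
    set V : E := u + s' • y with hV
    have hVK : V ∈ K := G.add_mem u hu _ (G.smul_mem s' hs0.le y hy)
    have hθp : 0 < 1 / θu := by positivity
    have hpV : 0 < p V := by linarith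
    have hyD : (1 : ℝ) • y ∈ D := by
      rw [one_smul]; exact G.memD y hy hpy.le
    set ν : ℝ := 1 / (1 / θu + s' / 1) with hν
    have hνD : ν • ((1 : ℝ) • u + s' • y) ∈ D :=
      G.D_comb one_pos hs0 (by linarith) one_pos hθD hyD (by positivity) le_rfl
    rw [one_smul, ← hV] at hνD
    have hνp : 1 < ν * p V := by
      rw [hν, div_one, one_div_mul_eq_div, one_lt_div (by linarith)]
      linarith
    have hν0 : 0 < ν := by positivity
    set η : ℝ := min (min (gn p u V / 4) m / p V) (ν * p V - 1) with hη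
    have hgn : 0 < gn p u V := hgain
    have hη0 : 0 < η := lt_min (div_pos (lt_min (by linarith) hm) hpV) (by linarith)
    have hη1 : η * p V ≤ min (gn p u V / 4) m := by
      have : η ≤ min (gn p u V / 4) m / p V := min_le_left _ _
      rwa [le_div_iff₀ hpV] at this
    refine ⟨(V, η), ⟨hVK, hpV, hgn, hη0, hη1.trans (min_le_left _ _), ?_⟩, ?_⟩
    · show ((1 + η) / p V) • V ∈ D
      have h2 : η ≤ ν * p V - 1 := min_le_right _ _
      have h3 := G.D_scale hνD (α := (1 + η) / (ν * p V)) (by positivity) (by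
        rw [div_le_one (by positivity)]; linarith)
      rwa [smul_smul, show (1 + η) / (ν * p V) * ν = (1 + η) / p V by field_simp] at h3
    · rintro ⟨W, ηW⟩ hW
      obtain ⟨w1, w2, w3, w4, w5, w6⟩ := hs _ hW
      have w7 : m ≤ gn p u W / 4 := hm1 _ hW
      refine ⟨?_, ?_⟩
      · show p (W + V) ≤ p W + p V - (3 / 4) * gn p u W
        have e1 : W + V = (W + (1 / 2 : ℝ) • u) + ((1 / 2 : ℝ) • u + s' • y) := by
          have : u = (1 / 2 : ℝ) • u + (1 / 2 : ℝ) • u := by rw [← add_smul]; norm_num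
          rw [hV]
          nth_rewrite 1 [this]
          abel
        have hU : (1 / 2 : ℝ) • u ∈ K := G.smul_mem _ (by norm_num) u hu
        have e2 := G.sub _ (G.add_mem W w1 _ hU) _ (G.add_mem _ hU _ (G.smul_mem s' hs0.le y hy))
        rw [← e1] at e2
        have e3 := G.comb_le hu hy (a := 1 / 2) (b := s') (by norm_num) hs0.le
        rw [hpu, hpy] at e3
        have e4 : gn p u W = p W + 1 / 2 - p (W + (1 / 2 : ℝ) • u) := rfl
        linarith
      · show η * p V ≤ gn p u W / 4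
        exact (hη1.trans (min_le_right _ _)).trans w7
  obtain ⟨f, hf, hfr⟩ := exists_seq_of_forall_finset_exists
    (fun q : E × ℝ => q.1 ∈ K ∧ 0 < p q.1 ∧ 0 < gn p u q.1 ∧ 0 < q.2 ∧ q.2 * p q.1 ≤ gn p u q.1 / 4 ∧
      ((1 + q.2) / p q.1) • q.1 ∈ D)
    (fun q q' : E × ℝ => p (q.1 + q'.1) ≤ p q.1 + p q'.1 - (3 / 4) * gn p u q.1 ∧
      q'.2 * p q'.1 ≤ gn p u q.1 / 4) key
  refine infHid_of_seq (fun n => ((1 + (f n).2) / p (f n).1) • (f n).1) ?_ ?_
  · intro n
    obtain ⟨h1, h2, h3, h4, h5, h6⟩ := hf n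
    refine ⟨G.smul_mem _ (by positivity) _ h1, h6, ?_⟩
    rw [G.homog _ (by positivity) _ h1, div_mul_cancel₀ _ h2.ne']
    linarith
  · intro m n hmn
    obtain ⟨h1, h2, h3, h4, h5, h6⟩ := hf m
    obtain ⟨k1, k2, k3, k4, k5, k6⟩ := hf n
    obtain ⟨r1, r2⟩ := hfr m n hmn
    refine G.hid_of h1 k1 one_pos one_pos (by positivity) (by positivity) ?_
    rw [one_smul, one_smul, one_div_div, one_div_div]
    have a1 : p (f m).1 - (f m).2 * p (f m).1 ≤ p (f m).1 / (1 + (f m).2) := by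
      rw [le_div_iff₀ (by linarith)]
      nlinarith [mul_pos (mul_pos h4 h4) h2]
    have a2 : p (f n).1 - (f n).2 * p (f n).1 ≤ p (f n).1 / (1 + (f n).2) := by
      rw [le_div_iff₀ (by linarith)]
      nlinarith [mul_pos (mul_pos k4 k4) k2]
    linarith

/-- The step of the construction. -/
theorem step [DecidableEq E] (G : GG K p D) {F : Set E} {A : Finset E} (g : Good K p D F A)
    (hI : ¬ InfHid K p D) :
    ∃ (F' : Set E) (a : E), a ∉ A ∧ Good K p D F' (insert a A) := by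
  obtain ⟨u, hu, z, hz, huz⟩ := g.unb.pair
  by_cases hb : Unb p {y ∈ F | ¬ R p u y}
  · exact step_beta G g hu hz huz hb
  obtain ⟨η₀, h0, h1⟩ := good_thr G g hu
  by_contra hc
  apply hI
  obtain ⟨huK, hpu, θu, hθu, hθuD⟩ := g.sub u hu
  refine gamma_inf G huK hpu hθu hθuD h0 (fun τ hτ hτ1 => ?_)
  obtain ⟨hD, hH⟩ := h1 τ hτ hτ1
  have ha : ¬ Unb p {y ∈ F | ∃ η : ℝ, 0 < η ∧ Hid p ((1 + τ) • u) ((1 + η) • y)} :=
    fun h => hc (step_alpha G g hu hτ hD hH h)
  have h2 : Unb p {y ∈ F | ¬ ∃ η : ℝ, 0 < η ∧ Hid p ((1 + τ) • u) ((1 + η) • y)} := by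
    rcases g.unb.union (F1 := {y ∈ F | ∃ η : ℝ, 0 < η ∧ Hid p ((1 + τ) • u) ((1 + η) • y)})
      (F2 := {y ∈ F | ¬ ∃ η : ℝ, 0 < η ∧ Hid p ((1 + τ) • u) ((1 + η) • y)})
      (fun v hv => by
        by_cases h : ∃ η : ℝ, 0 < η ∧ Hid p ((1 + τ) • u) ((1 + η) • v)
        · exact Or.inl ⟨hv, h⟩
        · exact Or.inr ⟨hv, h⟩) with h | h
    · exact absurd h ha
    · exact h
  have h3 : Unb p {y ∈ F | R p u y ∧ ¬ ∃ η : ℝ, 0 < η ∧ Hid p ((1 + τ) • u) ((1 + η) • y)} := by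
    rcases h2.union (F1 := {y ∈ F | ¬ R p u y})
      (F2 := {y ∈ F | R p u y ∧ ¬ ∃ η : ℝ, 0 < η ∧ Hid p ((1 + τ) • u) ((1 + η) • y)})
      (fun v hv => by
        by_cases h : R p u v
        · exact Or.inr ⟨hv.1, h, hv.2⟩
        · exact Or.inl ⟨hv.1, h⟩) with h | h
    · exact absurd h hb
    · exact h
  obtain ⟨y, hyF, hyR, hyn⟩ := h3.nonempty
  obtain ⟨hyK, hpy, -⟩ := g.sub y hyF
  refine ⟨y, hyK, hpy, ?_, hyn⟩
  unfold R at hyR
  rw [hpu, hpy] at hyR
  linarith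

/-- Points of `D` outside the body, seen from the base point. -/
def Out (K : Set E) (p : E → ℝ) (D : Set E) : Set E := {v | v ∈ K ∧ v ∈ D ∧ 1 < p v}

/-- Arbitrarily large finite hidden sets. -/
def FinHid (K : Set E) (p : E → ℝ) (D : Set E) (N : ℕ) : Prop :=
  ∃ T : Finset E, (∀ v ∈ T, v ∈ Out K p D) ∧ (∀ v ∈ T, ∀ w ∈ T, v ≠ w → Hid p v w) ∧ N ≤ T.card

theorem good_start (G : GG K p D) (h : ∀ N, FinHid K p D N) :
    ∃ F : Set E, Good K p D F ∅ := by
  classical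
  refine ⟨{v | v ∈ K ∧ p v = 1 ∧ ∃ θ : ℝ, 1 < θ ∧ θ • v ∈ D}, fun v hv => hv, ?_,
    fun a ha => absurd ha (Finset.notMem_empty a), fun a ha => absurd ha (Finset.notMem_empty a),
    fun v _ a ha => absurd ha (Finset.notMem_empty a)⟩
  intro N
  obtain ⟨T, hT, hH, hN⟩ := h N
  have hR : ∀ v ∈ T, ∀ w ∈ T, v ≠ w → R p ((1 / p v) • v) ((1 / p w) • w) := by
    intro v hv w hw hne
    obtain ⟨a1, a2, a3⟩ := hT v hv
    obtain ⟨b1, b2, b3⟩ := hT w hw
    exact G.R_smul a1 b1 (by positivity) (by positivity) (G.R_of_hid a1 b1 a3 b3 (hH v hv w hw hne))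
  refine ⟨T.image (fun v => (1 / p v) • v), ?_, ?_, ?_⟩
  · intro v hv
    obtain ⟨y, hy, rfl⟩ := Finset.mem_image.1 hv
    obtain ⟨a1, a2, a3⟩ := hT y hy
    have h0 : 0 < p y := by linarith
    refine ⟨G.smul_mem _ (by positivity) y a1, ?_, p y, a3, ?_⟩
    · show p ((1 / p y) • y) = 1
      rw [G.homog _ (by positivity) y a1, one_div_mul_cancel h0.ne']
    · show p y • ((1 / p y) • y) ∈ D
      rw [smul_smul, mul_one_div_cancel h0.ne', one_smul]
      exact a2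
  · intro v hv w hw hne
    obtain ⟨y, hy, rfl⟩ := Finset.mem_image.1 hv
    obtain ⟨y', hy', rfl⟩ := Finset.mem_image.1 hw
    exact hR y hy y' hy' (fun h => hne (by rw [h]))
  · rw [Finset.card_image_of_injOn]
    · exact hN
    · intro y hy y' hy' he
      by_contra hne
      have h1 := hR y hy y' hy' hne
      have he' : (1 / p y) • y = (1 / p y') • y' := he
      rw [← he'] at h1
      have hyK := (hT y hy).1
      have h0 : 0 < p y := by linarith [(hT y hy).2.2]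
      exact G.not_R_self (G.smul_mem _ (by positivity) y hyK) h1

/-- **Theorem A.** -/
theorem theoremA (G : GG K p D) (h : ∀ N, FinHid K p D N) : InfHid K p D := by
  classical
  by_contra hI
  obtain ⟨F₀, g₀⟩ := good_start G h
  let St := {q : Set E × Finset E // Good K p D q.1 q.2}
  have hstep : ∀ q : St, ∃ q' : St, q.1.2 ⊆ q'.1.2 ∧ q.1.2.card < q'.1.2.card := by
    intro q
    obtain ⟨F', a, ha, g'⟩ := step G q.2 hI
    refine ⟨⟨(F', insert a q.1.2), g'⟩, Finset.subset_insert _ _, ?_⟩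
    show q.1.2.card < (insert a q.1.2).card
    rw [Finset.card_insert_of_notMem ha]
    omega
  choose nxt hn1 hn2 using hstep
  let sq : ℕ → St := fun n => Nat.rec ⟨(F₀, ∅), g₀⟩ (fun _ q => nxt q) n
  have hs : ∀ n, sq (n + 1) = nxt (sq n) := fun n => rfl
  have hmono : ∀ m n, m ≤ n → (sq m).1.2 ⊆ (sq n).1.2 := by
    intro m n hmn
    induction n, hmn using Nat.le_induction with
    | base => exact subset_rfl
    | succ n _ ih => exact ih.trans (by rw [hs n]; exact hn1 _)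
  have hcard : ∀ n, n ≤ (sq n).1.2.card := by
    intro n
    induction n with
    | zero => exact Nat.zero_le _
    | succ n ih =>
      have := hn2 (sq n)
      rw [hs n]
      omega
  apply hI
  refine ⟨⋃ n, ((sq n).1.2 : Set E), ?_, ?_, ?_⟩
  · intro hfin
    obtain ⟨n, hn⟩ : ∃ n : ℕ, hfin.toFinset.card < n := ⟨_, Nat.lt_succ_self _⟩
    have h1 : (sq n).1.2 ⊆ hfin.toFinset := by
      intro x hx
      rw [Set.Finite.mem_toFinset]
      exact Set.mem_iUnion.2 ⟨n, hx⟩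
    have h2 := Finset.card_le_card h1
    have h3 := hcard n
    omega
  · intro a ha
    obtain ⟨n, hn⟩ := Set.mem_iUnion.1 ha
    exact (sq n).2.memA a hn
  · intro a ha b hb hne
    obtain ⟨m, hm⟩ := Set.mem_iUnion.1 ha
    obtain ⟨n, hn⟩ := Set.mem_iUnion.1 hb
    exact (sq (max m n)).2.hidA a (hmono m _ (le_max_left _ _) hm) b
      (hmono n _ (le_max_right _ _) hn) hne

end Q144.PS
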