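import Pool.Agent.Q144.PSc

/-!
# Hidden sets: a largest clique gives a finite convex cover
-/

namespace Q144.PS

variable {E : Type*} [AddCommGroup E] [Module ℝ E] {K : Set E} {p : E → ℝ} {D : Set E}

theorem finHid_of_R (G : GG K p D) (T : Finset E) (hT : ∀ v ∈ T, v ∈ Out K p D)
    (hR : ∀ v ∈ T, ∀ w ∈ T, v ≠ w → R p v w) : FinHid K p D T.card := by
  classical
  have hR' : ∀ v ∈ T, ∀ w ∈ T, v ≠ w → R p ((1 / p v) • v) ((1 / p w) • w) := by
    intro v hv w hw hne
    obtain ⟨a1, a2, a3⟩ := hT v hv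
    obtain ⟨b1, b2, b3⟩ := hT w hw
    exact G.R_smul a1 b1 (by positivity) (by positivity) (hR v hv w hw hne)
  have hone : ∀ v ∈ T, p ((1 / p v) • v) = 1 := by
    intro v hv
    obtain ⟨a1, a2, a3⟩ := hT v hv
    have h0 : 0 < p v := by linarith
    rw [G.homog _ (by positivity) v a1, one_div_mul_cancel h0.ne']
  obtain ⟨δ, hδ, hδ1⟩ := finset_lower (T ×ˢ T)
    (fun q => if q.1 ≠ q.2 then 2 - p ((1 / p q.1) • q.1 + (1 / p q.2) • q.2) else 1) (by
      rintro ⟨v, w⟩ hq
      obtain ⟨hv, hw⟩ := Finset.mem_product.1 hq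
      by_cases h : v ≠ w
      · show 0 < if v ≠ w then 2 - p ((1 / p v) • v + (1 / p w) • w) else 1
        rw [if_pos h]
        have := hR' v hv w hw h
        unfold R at this
        rw [hone v hv, hone w hw] at this
        linarith
      · show 0 < if v ≠ w then 2 - p ((1 / p v) • v + (1 / p w) • w) else 1
        rw [if_neg h]; norm_num)
  obtain ⟨κ, hκ, hκ1⟩ := finset_lower T (fun v => p v - 1) (fun v hv => by
    have := (hT v hv).2.2
    show 0 < p v - 1
    linarith)
  set η : ℝ := min (δ / 2) κ with hη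
  have hη0 : 0 < η := lt_min (by linarith) hκ
  have hηδ : η ≤ δ / 2 := min_le_left _ _
  refine ⟨T.image (fun v => (1 + η) • ((1 / p v) • v)), ?_, ?_, ?_⟩
  · intro x hx
    obtain ⟨v, hv, rfl⟩ := Finset.mem_image.1 hx
    obtain ⟨a1, a2, a3⟩ := hT v hv
    have h0 : 0 < p v := by linarith
    have hK : (1 / p v) • v ∈ K := G.smul_mem _ (by positivity) v a1
    refine ⟨G.smul_mem _ (by linarith) _ hK, ?_, ?_⟩
    · have h1 : κ ≤ p v - 1 := hκ1 v hv
      have h2 : η ≤ κ := min_le_right _ _
      have h3 := G.D_scale a2 (α := (1 + η) * (1 / p v)) (by positivity) (by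
        rw [mul_one_div, div_le_one h0]; linarith)
      rwa [mul_smul] at h3
    · rw [G.homog _ (by linarith) _ hK, hone v hv]; linarith
  · intro x hx y hy hne
    obtain ⟨v, hv, rfl⟩ := Finset.mem_image.1 hx
    obtain ⟨w, hw, rfl⟩ := Finset.mem_image.1 hy
    have hvw : v ≠ w := fun h => hne (by rw [h])
    obtain ⟨a1, a2, a3⟩ := hT v hv
    obtain ⟨b1, b2, b3⟩ := hT w hw
    have hKv : (1 / p v) • v ∈ K := G.smul_mem _ (by positivity) v a1
    have hKw : (1 / p w) • w ∈ K := G.smul_mem _ (by positivity) w b1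
    refine G.hid_of hKv hKw one_pos one_pos (by linarith) (by linarith) ?_
    rw [one_smul ℝ ((1 / p v) • v), one_smul ℝ ((1 / p w) • w)]
    have h1 := hδ1 (v, w) (Finset.mem_product.2 ⟨hv, hw⟩)
    have h2 : δ ≤ if v ≠ w then 2 - p ((1 / p v) • v + (1 / p w) • w) else 1 := h1
    rw [if_pos hvw] at h2
    have h3 := one_div_ge hη0.le
    linarith
  · rw [Finset.card_image_of_injOn]
    intro v hv w hw he
    by_contra hne
    have h1 := hR' v hv w hw hne
    have he' : (1 + η) • ((1 / p v) • v) = (1 + η) • ((1 / p w) • w) := he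
    have h2 := smul_right_injective E (by linarith : (1 + η) ≠ 0) he'
    have h3 : (1 / p v) • v = (1 / p w) • w := h2
    rw [← h3] at h1
    obtain ⟨a1, a2, a3⟩ := hT v hv
    exact G.not_R_self (G.smul_mem _ (by positivity) v a1) h1

theorem add3 (G : GG K p D) {x y z : E} (hx : x ∈ K) (hy : y ∈ K) (hz : z ∈ K)
    (h : p x + p y + p z ≤ p (x + y + z)) {a b c : ℝ} (ha : 0 ≤ a) (hb : 0 ≤ b) (hc : 0 ≤ c)
    (ha1 : a ≤ 1) (hb1 : b ≤ 1) (hc1 : c ≤ 1) :
    a * p x + b * p y + c * p z ≤ p (a • x + b • y + c • z) := by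
  have k1 : a • x + b • y + c • z ∈ K := G.add_mem _ (G.comb_mem hx hy ha hb) _ (G.smul_mem c hc z hz)
  have k2 : (1 - a) • x + (1 - b) • y ∈ K := G.comb_mem hx hy (by linarith) (by linarith)
  have k3 : (1 - c) • z ∈ K := G.smul_mem _ (by linarith) z hz
  have e : x + y + z = (a • x + b • y + c • z) + (((1 - a) • x + (1 - b) • y) + (1 - c) • z) := by
    rw [sub_smul, sub_smul, sub_smul, one_smul, one_smul, one_smul]; abel
  have h1 := G.sub _ k1 _ (G.add_mem _ k2 _ k3)
  rw [← e] at h1
  have h2 := G.sub _ k2 _ k3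
  have h3 := G.comb_le hx hy (a := 1 - a) (b := 1 - b) (by linarith) (by linarith)
  rw [G.homog _ (by linarith) z hz] at h2
  linarith

/-- The cover by finitely many convex sets. -/
theorem cover (G : GG K p D) {N : ℕ} (hN : ¬ FinHid K p D N) :
    ∃ T : ℕ → Set E, (∀ i, Convex ℝ (T i)) ∧ (∀ i, ∀ v ∈ T i, v ∈ K ∧ 1 < p v) ∧
      ∀ v ∈ Out K p D, ∃ i < N, v ∈ T i := by
  classical
  set P : Set ℕ := {n | ∃ T : Finset E, (∀ v ∈ T, v ∈ Out K p D) ∧
    (∀ v ∈ T, ∀ w ∈ T, v ≠ w → R p v w) ∧ T.card = n} with hP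
  have hPb : ∀ n ∈ P, n < N := by
    rintro n ⟨T, hT, hR, rfl⟩
    by_contra hc
    push Not at hc
    obtain ⟨T', h1, h2, h3⟩ := finHid_of_R G T hT hR
    exact hN ⟨T', h1, h2, hc.trans h3⟩
  have hPn : P.Nonempty := ⟨0, ∅, fun v hv => absurd hv (Finset.notMem_empty v),
    fun v hv => absurd hv (Finset.notMem_empty v), Finset.card_empty⟩
  have hPB : BddAbove P := ⟨N, fun n hn => (hPb n hn).le⟩
  obtain ⟨E₀, hE, hER, hEc⟩ := Nat.sSup_mem hPn hPB
  have hmax : ∀ T : Finset E, (∀ v ∈ T, v ∈ Out K p D) → (∀ v ∈ T, ∀ w ∈ T, v ≠ w → R p v w) →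
      T.card ≤ E₀.card := by
    intro T h1 h2
    rw [hEc]
    exact le_csSup hPB ⟨T, h1, h2, rfl⟩
  have hcardN : E₀.card < N := hPb _ ⟨E₀, hE, hER, rfl⟩
  -- additivity inside a class
  have hclass : ∀ e ∈ E₀, ∀ v ∈ Out K p D, ∀ w ∈ Out K p D, ¬ R p v e → ¬ R p w e →
      ¬ R p (e + v) (e + w) := by
    intro e he v hv w hw hve hwe hR
    obtain ⟨e1, e2, e3⟩ := hE e he
    have hmid : ∀ x ∈ Out K p D, ¬ R p x e → (1 / 2 : ℝ) • (e + x) ∈ Out K p D := by
      rintro x ⟨x1, x2, x3⟩ hxe
      refine ⟨G.smul_mem _ (by norm_num) _ (G.add_mem e e1 x x1), ?_, ?_⟩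
      · have := G.convD e2 x2 (show (0 : ℝ) ≤ 1 / 2 by norm_num) (show (0 : ℝ) ≤ 1 / 2 by norm_num)
          (by norm_num)
        rwa [← smul_add] at this
      · have k := G.add_cone e1 x1 (fun h => hxe (R_symm h)) (a := 1 / 2) (b := 1 / 2)
          (by norm_num) (by norm_num)
        rw [smul_add, k]; linarith
    have hRf : ∀ f ∈ E₀, f ≠ e → ∀ x ∈ Out K p D, ¬ R p x e → R p f ((1 / 2 : ℝ) • (e + x)) := by
      rintro f hf hfe x ⟨x1, x2, x3⟩ hxe
      obtain ⟨f1, f2, f3⟩ := hE f hf
      have h1 := hER f hf e he hfe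
      have h2 : R p f (e + x) := by
        unfold R at h1 ⊢
        have k := G.add_cone e1 x1 (fun h => hxe (R_symm h)) (a := 1) (b := 1)
          (by norm_num) (by norm_num)
        rw [one_smul, one_smul] at k
        have k2 := G.sub (f + e) (G.add_mem f f1 e e1) x x1
        rw [k, ← add_assoc]
        linarith
      have := G.R_smul f1 (G.add_mem e e1 x x1) one_pos (show (0 : ℝ) < 1 / 2 by norm_num) h2
      rwa [one_smul] at this
    have hvw : R p ((1 / 2 : ℝ) • (e + v)) ((1 / 2 : ℝ) • (e + w)) :=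
      G.R_smul (G.add_mem e e1 v hv.1) (G.add_mem e e1 w hw.1) (by norm_num) (by norm_num) hR
    have hne : ∀ x y : E, x ∈ K → R p x y → x ≠ y := by
      intro x y hx hxy h
      rw [← h] at hxy
      exact G.not_R_self hx hxy
    have mv := hmid v hv hve
    have mw := hmid w hw hwe
    have hb := hmax (insert ((1 / 2 : ℝ) • (e + v)) (insert ((1 / 2 : ℝ) • (e + w)) (E₀.erase e)))
      (by
        intro x hx
        rcases Finset.mem_insert.1 hx with h | h
        · rw [h]; exact mv
        · rcases Finset.mem_insert.1 h with h | h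
          · rw [h]; exact mw
          · exact hE x (Finset.mem_of_mem_erase h))
      (by
        intro x hx y hy hxy
        rcases Finset.mem_insert.1 hx with h | h
        · rcases Finset.mem_insert.1 hy with h' | h'
          · exact absurd (h.trans h'.symm) hxy
          · rcases Finset.mem_insert.1 h' with h' | h'
            · rw [h, h']; exact hvw
            · rw [h]
              exact R_symm (hRf y (Finset.mem_of_mem_erase h') (Finset.ne_of_mem_erase h') v hv hve)
        · rcases Finset.mem_insert.1 h with h | h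
          · rcases Finset.mem_insert.1 hy with h' | h'
            · rw [h, h']; exact R_symm hvw
            · rcases Finset.mem_insert.1 h' with h' | h'
              · exact absurd (h.trans h'.symm) hxy
              · rw [h]
                exact R_symm (hRf y (Finset.mem_of_mem_erase h') (Finset.ne_of_mem_erase h') w hw
                  hwe)
          · rcases Finset.mem_insert.1 hy with h' | h'
            · rw [h']
              exact hRf x (Finset.mem_of_mem_erase h) (Finset.ne_of_mem_erase h) v hv hve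
            · rcases Finset.mem_insert.1 h' with h' | h'
              · rw [h']
                exact hRf x (Finset.mem_of_mem_erase h) (Finset.ne_of_mem_erase h) w hw hwe
              · exact hER x (Finset.mem_of_mem_erase h) y (Finset.mem_of_mem_erase h') hxy)
    have c1 : (1 / 2 : ℝ) • (e + w) ∉ E₀.erase e := by
      intro h
      have := hRf _ (Finset.mem_of_mem_erase h) (Finset.ne_of_mem_erase h) w hw hwe
      exact G.not_R_self mw.1 this
    have c2 : (1 / 2 : ℝ) • (e + v) ∉ insert ((1 / 2 : ℝ) • (e + w)) (E₀.erase e) := by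
      intro h
      rcases Finset.mem_insert.1 h with h | h
      · exact hne _ _ mv.1 hvw h
      · have := hRf _ (Finset.mem_of_mem_erase h) (Finset.ne_of_mem_erase h) v hv hve
        exact G.not_R_self mv.1 this
    rw [Finset.card_insert_of_notMem c2, Finset.card_insert_of_notMem c1,
      Finset.card_erase_of_mem he] at hb
    have : 0 < E₀.card := Finset.card_pos.2 ⟨e, he⟩
    omega
  -- the enumeration
  set S : E → Set E := fun e => {v | v ∈ Out K p D ∧ ¬ R p v e} with hS
  have hSconv : ∀ e ∈ E₀, Convex ℝ (S e) := by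
    intro e he v hv w hw a b ha hb hab
    obtain ⟨hvO, hve⟩ := hv
    obtain ⟨hwO, hwe⟩ := hw
    obtain ⟨e1, e2, e3⟩ := hE e he
    obtain ⟨v1, v2, v3⟩ := hvO
    obtain ⟨w1, w2, w3⟩ := hwO
    have hadd := hclass e he v ⟨v1, v2, v3⟩ w ⟨w1, w2, w3⟩ hve hwe
    unfold R at hadd
    push Not at hadd
    have kv := G.add_cone e1 v1 (fun h => hve (R_symm h)) (a := 1) (b := 1) (by norm_num)
      (by norm_num)
    have kw := G.add_cone e1 w1 (fun h => hwe (R_symm h)) (a := 1) (b := 1) (by norm_num)
      (by norm_num)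
    rw [one_smul, one_smul] at kv kw
    have h2e : (2 : ℝ) • e ∈ K := G.smul_mem _ (by norm_num) e e1
    have hp2e : p ((2 : ℝ) • e) = 2 * p e := G.homog _ (by norm_num) e e1
    have hsum : p ((2 : ℝ) • e) + p v + p w ≤ p ((2 : ℝ) • e + v + w) := by
      have e5 : (2 : ℝ) • e + v + w = e + v + (e + w) := by rw [two_smul]; abel
      rw [e5, hp2e]
      linarith
    have ha1 : a ≤ 1 := by linarith
    have hb1 : b ≤ 1 := by linarith
    have q1 := add3 G h2e v1 w1 hsum (a := 0) (b := a) (c := b) le_rfl ha hb (by norm_num) ha1 hb1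
    have q2 := add3 G h2e v1 w1 hsum (a := 1 / 2) (b := a) (c := b) (by norm_num) ha hb
      (by norm_num) ha1 hb1
    rw [zero_smul, zero_add] at q1
    rw [smul_smul, show (1 / 2 : ℝ) * 2 = 1 by norm_num, one_smul, hp2e] at q2
    refine ⟨⟨G.comb_mem v1 w1 ha hb, G.convD v2 w2 ha hb hab, ?_⟩, ?_⟩
    · have : 1 < a * p v + b * p w := by
        rcases ha.eq_or_lt with h | h
        · rw [← h] at hab ⊢
          have : b = 1 := by linarith
          rw [this]; linarith
        · nlinarith
      linarith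
    · unfold R
      push Not
      have e6 : a • v + b • w + e = e + a • v + b • w := by abel
      have q3 := G.comb_le v1 w1 ha hb
      rw [e6]
      linarith
  have hcov : ∀ v ∈ Out K p D, ∃ e ∈ E₀, v ∈ S e := by
    intro v hv
    by_contra hc
    push Not at hc
    have hRv : ∀ e ∈ E₀, R p v e := by
      intro e he
      by_contra h
      exact hc e he ⟨hv, h⟩
    have hvn : v ∉ E₀ := fun h => G.not_R_self hv.1 (hRv v h)
    have := hmax (insert v E₀)
      (by
        intro x hx
        rcases Finset.mem_insert.1 hx with h | h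
        · rw [h]; exact hv
        · exact hE x h)
      (by
        intro x hx y hy hxy
        rcases Finset.mem_insert.1 hx with h | h
        · rcases Finset.mem_insert.1 hy with h' | h'
          · exact absurd (h.trans h'.symm) hxy
          · rw [h]; exact hRv y h'
        · rcases Finset.mem_insert.1 hy with h' | h'
          · rw [h']; exact R_symm (hRv x h)
          · exact hER x h y h' hxy)
    rw [Finset.card_insert_of_notMem hvn] at this
    omega
  refine ⟨fun i => if h : i < E₀.card then S (E₀.equivFin.symm ⟨i, h⟩).1 else ∅, ?_, ?_, ?_⟩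
  · intro i
    by_cases h : i < E₀.card
    · simp only [h, dif_pos]
      exact hSconv _ (E₀.equivFin.symm ⟨i, h⟩).2
    · simp only [h, dif_neg, not_false_eq_true]
      exact convex_empty
  · intro i v hv
    by_cases h : i < E₀.card
    · simp only [h, dif_pos] at hv
      exact ⟨hv.1.1, hv.1.2.2⟩
    · simp only [h, dif_neg, not_false_eq_true] at hv
      exact absurd hv (Set.notMem_empty v)
  · intro v hv
    obtain ⟨e, he, hve⟩ := hcov v hv
    have hlt := (E₀.equivFin ⟨e, he⟩).2
    refine ⟨(E₀.equivFin ⟨e, he⟩).1, hlt.trans hcardN, ?_⟩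
    simp only [hlt, dif_pos]
    have : E₀.equivFin.symm ⟨(E₀.equivFin ⟨e, he⟩).1, hlt⟩ = ⟨e, he⟩ := by
      rw [Equiv.symm_apply_eq]
    rw [this]
    exact hve

end Q144.PS
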