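import Pool.Agent.Q144.PSd

/-!
# Hidden sets: the gauge of a convex set seen from one of its points
-/

namespace Q144.PS

variable {E : Type*} [AddCommGroup E] [Module ℝ E]

/-- The cone of a set. -/
def Kc (C : Set E) : Set E := {v | ∃ t : ℝ, 0 < t ∧ t • v ∈ C}

/-- The gauge of a set. -/
noncomputable def pc (C : Set E) (v : E) : ℝ := sInf {r : ℝ | 0 < r ∧ r⁻¹ • v ∈ C}

variable {C D : Set E}

theorem star (hC : Convex ℝ C) (h0 : (0 : E) ∈ C) {v : E} (hv : v ∈ C) {a : ℝ} (ha : 0 ≤ a)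
    (ha1 : a ≤ 1) : a • v ∈ C := by
  have := hC hv h0 ha (show 0 ≤ 1 - a by linarith) (by ring)
  simpa using this

theorem pc_nonneg (v : E) : 0 ≤ pc C v := Real.sInf_nonneg (fun r hr => hr.1.le)

theorem pc_le_iff (hC : Convex ℝ C) (h0 : (0 : E) ∈ C)
    (hcl : ∀ v : E, (∀ t : ℝ, 0 ≤ t → t < 1 → t • v ∈ C) → v ∈ C) {v : E} (hv : v ∈ Kc C) {r : ℝ}
    (hr : 0 < r) : pc C v ≤ r ↔ r⁻¹ • v ∈ C := by
  constructor
  · intro h
    apply hcl
    intro t ht ht1
    rcases ht.eq_or_lt with h1 | h1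
    · rw [← h1, zero_smul]; exact h0
    have hne : {r : ℝ | 0 < r ∧ r⁻¹ • v ∈ C}.Nonempty := by
      obtain ⟨s, hs, hsv⟩ := hv
      exact ⟨s⁻¹, by positivity, by rwa [inv_inv]⟩
    have hlt : pc C v < r / t := by
      have : r < r / t := by rw [lt_div_iff₀ h1]; nlinarith
      linarith
    obtain ⟨r', ⟨hr'0, hr'⟩, hr'2⟩ := exists_lt_of_csInf_lt hne hlt
    have h2 := star hC h0 hr' (a := t * r⁻¹ * r') (by positivity) (by
      rw [lt_div_iff₀ h1] at hr'2
      rw [mul_right_comm, ← div_eq_mul_inv, div_le_one hr]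
      linarith)
    rw [smul_smul, mul_assoc (t * r⁻¹), mul_inv_cancel₀ hr'0.ne', mul_one] at h2
    rwa [smul_smul]
  · intro h
    exact csInf_le ⟨0, fun r hr => hr.1.le⟩ ⟨hr, h⟩

theorem eq_of_le_iff {a b : ℝ} (ha : 0 ≤ a) (hb : 0 ≤ b) (h : ∀ r : ℝ, 0 < r → (a ≤ r ↔ b ≤ r)) :
    a = b := by
  rcases lt_trichotomy a b with h1 | h1 | h1
  · have := (h ((a + b) / 2) (by linarith)).1 (by linarith)
    linarith
  · exact h1
  · have := (h ((a + b) / 2) (by linarith)).2 (by linarith)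
    linarith

theorem GG_of (hC : Convex ℝ C) (h0 : (0 : E) ∈ C)
    (hcl : ∀ v : E, (∀ t : ℝ, 0 ≤ t → t < 1 → t • v ∈ C) → v ∈ C) (hD : Convex ℝ D)
    (hCD : C ⊆ D) : GG (Kc C) (pc C) D := by
  have hadd : ∀ v ∈ Kc C, ∀ w ∈ Kc C, v + w ∈ Kc C := by
    rintro v ⟨t, ht, hv⟩ w ⟨s, hs, hw⟩
    refine ⟨1 / (1 / t + 1 / s), by positivity, ?_⟩
    have := hC hv hw (show 0 ≤ (1 / t) / (1 / t + 1 / s) by positivity)
      (show 0 ≤ (1 / s) / (1 / t + 1 / s) by positivity) (by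
        rw [← add_div, div_self (by positivity)])
    rw [smul_smul, smul_smul, show (1 / t) / (1 / t + 1 / s) * t = 1 / (1 / t + 1 / s) by
      field_simp, show (1 / s) / (1 / t + 1 / s) * s = 1 / (1 / t + 1 / s) by
      field_simp, ← smul_add] at this
    exact this
  have hsm : ∀ t : ℝ, 0 ≤ t → ∀ v ∈ Kc C, t • v ∈ Kc C := by
    rintro t ht v ⟨s, hs, hv⟩
    rcases ht.eq_or_lt with h1 | h1
    · rw [← h1, zero_smul]
      exact ⟨1, one_pos, by rwa [smul_zero]⟩
    · refine ⟨s / t, by positivity, ?_⟩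
      rwa [smul_smul, div_mul_cancel₀ _ h1.ne']
  refine ⟨⟨1, one_pos, by rwa [smul_zero]⟩, hadd, hsm, fun v _ => pc_nonneg v, ?_, ?_, hD,
    hCD h0, ?_⟩
  · intro t ht v hv
    rcases ht.eq_or_lt with h1 | h1
    · rw [← h1, zero_smul, zero_mul]
      refine eq_of_le_iff (pc_nonneg _) le_rfl (fun r hr => ?_)
      rw [pc_le_iff hC h0 hcl ⟨1, one_pos, by rwa [smul_zero]⟩ hr, smul_zero]
      exact ⟨fun _ => hr.le, fun _ => h0⟩
    · refine eq_of_le_iff (pc_nonneg _) (mul_nonneg ht (pc_nonneg _)) (fun r hr => ?_)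
      rw [pc_le_iff hC h0 hcl (hsm t ht v hv) hr, ← le_div_iff₀' h1,
        pc_le_iff hC h0 hcl hv (by positivity), smul_smul, inv_div, div_eq_inv_mul]
  · intro v hv w hw
    refine le_of_forall_pos_le_add (fun ε hε => ?_)
    have hr : 0 < pc C v + ε / 2 := by have := pc_nonneg (C := C) v; linarith
    have hs : 0 < pc C w + ε / 2 := by have := pc_nonneg (C := C) w; linarith
    have h1 := (pc_le_iff hC h0 hcl hv hr).1 (by linarith)
    have h2 := (pc_le_iff hC h0 hcl hw hs).1 (by linarith)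
    set r := pc C v + ε / 2 with hrr
    set s := pc C w + ε / 2 with hss
    have h3 : pc C (v + w) ≤ r + s := by
      rw [pc_le_iff hC h0 hcl (hadd v hv w hw) (by positivity)]
      have := hC h1 h2 (show 0 ≤ r / (r + s) by positivity) (show 0 ≤ s / (r + s) by positivity)
        (by rw [← add_div, div_self (by positivity)])
      rw [smul_smul, smul_smul, show r / (r + s) * r⁻¹ = (r + s)⁻¹ by field_simp,
        show s / (r + s) * s⁻¹ = (r + s)⁻¹ by field_simp, ← smul_add] at this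
      exact this
    linarith
  · intro v hv h
    have := (pc_le_iff hC h0 hcl hv one_pos).1 h
    rw [inv_one, one_smul] at this
    exact hCD this

end Q144.PS
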