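import Pool.Agent.Q144.PSe

/-!
# Hidden sets: base points, domination, and the uniform bound
-/

open Filter Topology

namespace Q144.PS

variable {X : Type*} [AddCommGroup X] [Module ℝ X]

/-- Translate. -/
def tr (c : X) (C : Set X) : Set X := {v | c + v ∈ C}

theorem tr_convex {C : Set X} (hC : Convex ℝ C) (c : X) : Convex ℝ (tr c C) := by
  intro v hv w hw a b ha hb hab
  have h := hC hv hw ha hb hab
  show c + (a • v + b • w) ∈ C
  have e : a • (c + v) + b • (c + w) = c + (a • v + b • w) := by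
    have h1 : a • c + b • c = c := by rw [← add_smul, hab, one_smul]
    rw [smul_add, smul_add]
    calc a • c + a • v + (b • c + b • w) = (a • c + b • c) + (a • v + b • w) := by abel
      _ = c + (a • v + b • w) := by rw [h1]
  rwa [e] at h

/-- Closed along segments. -/
def RC (C : Set X) : Prop :=
  ∀ c ∈ C, ∀ v : X, (∀ t : ℝ, 0 ≤ t → t < 1 → c + t • v ∈ C) → c + v ∈ C

/-- The points of `D \ C` seen from `c` through `C`. -/
def Sc (C D : Set X) (c : X) : Set X :=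
  {x | x ∈ D ∧ x ∉ C ∧ ∃ t : ℝ, 0 < t ∧ c + t • (x - c) ∈ C}

/-- Finite hidden sets in `Sc`. -/
def FH (C D : Set X) (c : X) (N : ℕ) : Prop :=
  ∃ T : Finset X, (∀ x ∈ T, x ∈ Sc C D c) ∧
    (∀ x ∈ T, ∀ y ∈ T, x ≠ y → ∃ z ∈ segment ℝ x y, z ∈ C) ∧ N ≤ T.card

variable {C D : Set X}

theorem GGc (hC : Convex ℝ C) (hcl : RC C) (hD : Convex ℝ D) (hCD : C ⊆ D) {c : X} (hc : c ∈ C) :
    GG (Kc (tr c C)) (pc (tr c C)) (tr c D) :=
  GG_of (tr_convex hC c) (by show c + 0 ∈ C; rwa [add_zero]) (fun v hv => hcl c hc v hv)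
    (tr_convex hD c) (fun v hv => hCD hv)

theorem pc_one (hC : Convex ℝ C) (hcl : RC C) {c : X} (hc : c ∈ C) {v : X}
    (hv : v ∈ Kc (tr c C)) : pc (tr c C) v ≤ 1 ↔ c + v ∈ C := by
  rw [pc_le_iff (tr_convex hC c) (by show c + 0 ∈ C; rwa [add_zero]) (fun v hv => hcl c hc v hv)
    hv one_pos, inv_one, one_smul]
  rfl

theorem out_iff (hC : Convex ℝ C) (hcl : RC C) {c : X} (hc : c ∈ C) {v : X} :
    v ∈ Out (Kc (tr c C)) (pc (tr c C)) (tr c D) ↔ c + v ∈ Sc C D c := by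
  constructor
  · rintro ⟨h1, h2, h3⟩
    refine ⟨h2, ?_, ?_⟩
    · intro h
      have := (pc_one hC hcl hc h1).2 h
      linarith
    · rw [add_sub_cancel_left]
      exact h1
  · rintro ⟨h1, h2, h3⟩
    rw [add_sub_cancel_left] at h3
    have hK : v ∈ Kc (tr c C) := h3
    refine ⟨hK, h1, ?_⟩
    by_contra h
    push Not at h
    exact h2 ((pc_one hC hcl hc hK).1 h)

theorem hid_iff (hC : Convex ℝ C) (hcl : RC C) (hD : Convex ℝ D) (hCD : C ⊆ D) {c : X}
    (hc : c ∈ C) {v w : X}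
    (hv : v ∈ Kc (tr c C)) (hw : w ∈ Kc (tr c C)) (hv' : c + v ∉ C) (hw' : c + w ∉ C) :
    Hid (pc (tr c C)) v w ↔ ∃ z ∈ segment ℝ (c + v) (c + w), z ∈ C := by
  have G := GGc hC hcl hD hCD hc
  have e : ∀ s : ℝ, (1 - s) • (c + v) + s • (c + w) = c + ((1 - s) • v + s • w) := by
    intro s
    rw [smul_add, smul_add, sub_smul, sub_smul, one_smul, one_smul]
    abel
  constructor
  · rintro ⟨s, h0, h1, h2⟩
    rw [pc_one hC hcl hc (G.comb_mem hv hw (by linarith) h0.le), ← e] at h2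
    exact ⟨_, ⟨1 - s, s, by linarith, h0.le, by ring, rfl⟩, h2⟩
  · rintro ⟨z, ⟨a, b, ha, hb, hab, rfl⟩, hz⟩
    have ha' : a = 1 - b := by linarith
    subst ha'
    have hb0 : 0 < b := by
      rcases hb.eq_or_lt with h | h
      · exfalso
        rw [← h] at hz
        apply hv'
        simpa using hz
      · exact h
    have hb1 : b < 1 := by
      rcases (show b ≤ 1 by linarith).eq_or_lt with h | h
      · exfalso
        rw [h] at hz
        apply hw'
        simpa using hz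
      · exact h
    refine ⟨b, hb0, hb1, ?_⟩
    rw [pc_one hC hcl hc (G.comb_mem hv hw (by linarith) hb0.le), ← e]
    exact hz

theorem finHid_of_FH (hC : Convex ℝ C) (hcl : RC C) (hD : Convex ℝ D) (hCD : C ⊆ D) {c : X}
    (hc : c ∈ C) {N : ℕ} (h : FH C D c N) :
    FinHid (Kc (tr c C)) (pc (tr c C)) (tr c D) N := by
  classical
  obtain ⟨T, hT, hH, hN⟩ := h
  have hO : ∀ x ∈ T, x - c ∈ Out (Kc (tr c C)) (pc (tr c C)) (tr c D) := by
    intro x hx
    rw [out_iff hC hcl hc, add_sub_cancel]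
    exact hT x hx
  refine ⟨T.image (fun x => x - c), ?_, ?_, ?_⟩
  · intro v hv
    obtain ⟨x, hx, rfl⟩ := Finset.mem_image.1 hv
    exact hO x hx
  · intro v hv w hw hne
    obtain ⟨x, hx, rfl⟩ := Finset.mem_image.1 hv
    obtain ⟨y, hy, rfl⟩ := Finset.mem_image.1 hw
    have hxy : x ≠ y := fun h => hne (by rw [h])
    rw [hid_iff hC hcl hD hCD hc (hO x hx).1 (hO y hy).1
      (by rw [add_sub_cancel]; exact (hT x hx).2.1) (by rw [add_sub_cancel]; exact (hT y hy).2.1),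
      add_sub_cancel, add_sub_cancel]
    exact hH x hx y hy hxy
  · rw [Finset.card_image_of_injective _ (sub_left_injective)]
    exact hN

theorem FH_of_finHid (hC : Convex ℝ C) (hcl : RC C) (hD : Convex ℝ D) (hCD : C ⊆ D) {c : X}
    (hc : c ∈ C) {N : ℕ} (h : FinHid (Kc (tr c C)) (pc (tr c C)) (tr c D) N) :
    FH C D c N := by
  classical
  obtain ⟨T, hT, hH, hN⟩ := h
  refine ⟨T.image (fun x => c + x), ?_, ?_, ?_⟩
  · intro v hv
    obtain ⟨x, hx, rfl⟩ := Finset.mem_image.1 hv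
    exact (out_iff hC hcl hc).1 (hT x hx)
  · intro v hv w hw hne
    obtain ⟨x, hx, rfl⟩ := Finset.mem_image.1 hv
    obtain ⟨y, hy, rfl⟩ := Finset.mem_image.1 hw
    have hxy : x ≠ y := fun h => hne (by rw [h])
    exact (hid_iff hC hcl hD hCD hc (hT x hx).1 (hT y hy).1
      ((out_iff hC hcl hc).1 (hT x hx)).2.1 ((out_iff hC hcl hc).1 (hT y hy)).2.1).1
      (hH x hx y hy hxy)
  · rw [Finset.card_image_of_injective _ (add_right_injective c)]
    exact hN

/-- An infinite hidden subset. -/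
def InfH (C D : Set X) : Prop :=
  ∃ A : Set X, A.Infinite ∧ A ⊆ D \ C ∧ ∀ a ∈ A, ∀ b ∈ A, a ≠ b → ∃ z ∈ segment ℝ a b, z ∈ C

theorem infH_of_FH (hC : Convex ℝ C) (hcl : RC C) (hD : Convex ℝ D) (hCD : C ⊆ D) {c : X}
    (hc : c ∈ C) (h : ∀ N, FH C D c N) : InfH C D := by
  have G := GGc hC hcl hD hCD hc
  obtain ⟨A, hA, hAO, hAH⟩ := theoremA G (fun N => finHid_of_FH hC hcl hD hCD hc (h N))
  have hS : ∀ a ∈ A, c + a ∈ Sc C D c := fun a ha => (out_iff hC hcl hc).1 (hAO a ha)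
  refine ⟨(fun x => c + x) '' A, hA.image (add_right_injective c).injOn, ?_, ?_⟩
  · rintro _ ⟨a, ha, rfl⟩
    exact ⟨(hS a ha).1, (hS a ha).2.1⟩
  · rintro _ ⟨a, ha, rfl⟩ _ ⟨b, hb, rfl⟩ hne
    have hab : a ≠ b := fun h => hne (by rw [h])
    exact (hid_iff hC hcl hD hCD hc (hAO a ha).1 (hAO b hb).1 (hS a ha).2.1 (hS b hb).2.1).1
      (hAH a ha b hb hab)

theorem cover_c (hC : Convex ℝ C) (hcl : RC C) (hD : Convex ℝ D) (hCD : C ⊆ D) {c : X}
    (hc : c ∈ C) {N : ℕ} (h : ¬ FH C D c N) :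
    ∃ T : ℕ → Set X, (∀ i, Convex ℝ (T i)) ∧ (∀ i, ∀ x ∈ T i, x ∉ C) ∧
      ∀ x ∈ Sc C D c, ∃ i < N, x ∈ T i := by
  have G := GGc hC hcl hD hCD hc
  obtain ⟨T, h1, h2, h3⟩ := cover G (fun h' => h (FH_of_finHid hC hcl hD hCD hc h'))
  refine ⟨fun i => tr (-c) (T i), fun i => tr_convex (h1 i) _, ?_, ?_⟩
  · intro i x hx hxC
    obtain ⟨k1, k2⟩ := h2 i _ hx
    have := (pc_one hC hcl hc k1).2 (by rwa [add_neg_cancel_left])
    linarith
  · intro x hx
    have hO : -c + x ∈ Out (Kc (tr c C)) (pc (tr c C)) (tr c D) := by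
      rw [out_iff hC hcl hc, add_neg_cancel_left]
      exact hx
    obtain ⟨i, hi, hxi⟩ := h3 _ hO
    exact ⟨i, hi, hxi⟩

/-- Domination of base points. -/
def Dom (C : Set X) (c d : X) (r : ℝ) : Prop := ∀ y ∈ C, d + r • (y - c) ∈ C

theorem dom_lower (hC : Convex ℝ C) {c d : X} {r r' : ℝ} (hd : d ∈ C) (h : Dom C c d r)
    (hr : 0 < r) (h0 : 0 ≤ r') (h1 : r' ≤ r) : Dom C c d r' := by
  intro y hy
  have h2 := hC hd (h y hy) (show 0 ≤ 1 - r' / r by
    have : r' / r ≤ 1 := by rw [div_le_one hr]; exact h1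
    linarith) (show 0 ≤ r' / r by positivity) (by ring)
  have e : (1 - r' / r) • d + (r' / r) • (d + r • (y - c)) = d + r' • (y - c) := by
    rw [smul_add, smul_smul, div_mul_cancel₀ _ hr.ne', sub_smul, one_smul]; abel
  rwa [e] at h2

theorem dom_mix (hC : Convex ℝ C) {c d e : X} {r ε : ℝ} (he : e ∈ C) (h : Dom C c d r)
    (h0 : 0 ≤ ε) (h1 : ε ≤ 1) : Dom C c ((1 - ε) • d + ε • e) ((1 - ε) * r) := by
  intro y hy
  have h2 := hC (h y hy) he (show 0 ≤ 1 - ε by linarith) h0 (by ring)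
  have e' : (1 - ε) • (d + r • (y - c)) + ε • e =
      (1 - ε) • d + ε • e + ((1 - ε) * r) • (y - c) := by
    rw [smul_add, smul_smul]; abel
  rwa [e'] at h2

theorem dom_new (hC : Convex ℝ C) {c d : X} {ε : ℝ} (hd : d ∈ C)
    (h0 : 0 ≤ ε) (h1 : ε ≤ 1) : Dom C c ((1 - ε) • d + ε • c) ε := by
  intro y hy
  have h2 := hC hd hy (show 0 ≤ 1 - ε by linarith) h0 (by ring)
  have e' : (1 - ε) • d + ε • y = (1 - ε) • d + ε • c + ε • (y - c) := by
    rw [smul_sub]; abel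
  rwa [e'] at h2

theorem Sc_mono (hC : Convex ℝ C) {c d : X} (hc : c ∈ C) {r : ℝ} (hr : 0 < r) (h : Dom C c d r) :
    Sc C D c ⊆ Sc C D d := by
  rintro x ⟨h1, h2, t, ht, h3⟩
  refine ⟨h1, h2, r * t / (1 + r * t), by positivity, ?_⟩
  have h4 := h _ h3
  rw [add_sub_cancel_left, smul_smul] at h4
  set m : ℝ := r * t with hm
  have hm0 : 0 < m := by positivity
  have h5 := hC h4 hc (show 0 ≤ 1 / (1 + m) by positivity) (show 0 ≤ m / (1 + m) by positivity)
    (by rw [← add_div, div_self (by positivity)])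
  have e1 : 1 / (1 + m) = 1 - m / (1 + m) := by
    rw [eq_sub_iff_add_eq, ← add_div, div_self (by positivity)]
  have e2 : 1 / (1 + m) * m = m / (1 + m) := by ring
  have e : (1 / (1 + m)) • (d + m • (x - c)) + (m / (1 + m)) • c =
      d + (m / (1 + m)) • (x - d) := by
    rw [smul_add, smul_smul, e2, e1, sub_smul, one_smul, smul_sub, smul_sub]; abel
  rwa [e] at h5

theorem FH_mono (hC : Convex ℝ C) {c d : X} (hc : c ∈ C) {r : ℝ} (hr : 0 < r) (h : Dom C c d r)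
    {N : ℕ} (hF : FH C D c N) : FH C D d N := by
  obtain ⟨T, h1, h2, h3⟩ := hF
  exact ⟨T, fun x hx => Sc_mono hC hc hr h (h1 x hx), h2, h3⟩

theorem RC_of_closed [TopologicalSpace X] [ContinuousAdd X] [ContinuousSMul ℝ X]
    (hC : IsClosed C) : RC C := by
  intro c hc v h
  have hcont : Continuous (fun t : ℝ => c + t • v) := by fun_prop
  have hcl : IsClosed {t : ℝ | c + t • v ∈ C} := hC.preimage hcont
  have h1 : (1 : ℝ) ∈ closure (Set.Ico (0 : ℝ) 1) := by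
    rw [closure_Ico (by norm_num)]; exact ⟨zero_le_one, le_rfl⟩
  have h2 : (1 : ℝ) ∈ {t : ℝ | c + t • v ∈ C} :=
    closure_minimal (s := Set.Ico (0 : ℝ) 1) (fun t ht => h t ht.1 ht.2) hcl h1
  have h3 : c + (1 : ℝ) • v ∈ C := h2
  rwa [one_smul] at h3

/-- Finitely many points are seen from a common base point. -/
theorem common_base (hC : Convex ℝ C) (hne : C.Nonempty) (F : Finset X)
    (hF : ∀ x ∈ F, ∃ c ∈ C, x ∈ Sc C D c) : ∃ c ∈ C, ∀ x ∈ F, x ∈ Sc C D c := by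
  classical
  induction F using Finset.induction_on with
  | empty =>
    obtain ⟨c, hc⟩ := hne
    exact ⟨c, hc, fun x hx => absurd hx (Finset.notMem_empty x)⟩
  | insert a F _ ih =>
    obtain ⟨c, hc, hcF⟩ := ih (fun x hx => hF x (Finset.mem_insert_of_mem hx))
    obtain ⟨c', hc', hc'a⟩ := hF a (Finset.mem_insert_self a F)
    have h1 : Dom C c' ((1 - 1 / 2 : ℝ) • c + (1 / 2 : ℝ) • c') (1 / 2) :=
      dom_new hC hc (by norm_num) (by norm_num)
    have h2 : Dom C c ((1 - 1 / 2 : ℝ) • c' + (1 / 2 : ℝ) • c) (1 / 2) :=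
      dom_new hC hc' (by norm_num) (by norm_num)
    have e : (1 - 1 / 2 : ℝ) • c' + (1 / 2 : ℝ) • c = (1 - 1 / 2 : ℝ) • c + (1 / 2 : ℝ) • c' := by
      rw [show (1 - 1 / 2 : ℝ) = 1 / 2 by norm_num, add_comm]
    rw [e] at h2
    have hm : (1 - 1 / 2 : ℝ) • c + (1 / 2 : ℝ) • c' ∈ C :=
      hC hc hc' (show (0 : ℝ) ≤ 1 - 1 / 2 by norm_num) (show (0 : ℝ) ≤ 1 / 2 by norm_num)
        (by norm_num)
    refine ⟨_, hm, fun x hx => ?_⟩
    rcases Finset.mem_insert.1 hx with h | h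
    · rw [h]; exact Sc_mono hC hc' (by norm_num) h1 hc'a
    · exact Sc_mono hC hc (by norm_num) h2 (hcF x h)

end Q144.PS
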