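import Pool.Agent.Q144.PSf

/-!
# Hidden sets: completeness, affine hulls, compactness
-/

open Filter Topology

namespace Q144.PS

section topo

variable {X : Type*} [AddCommGroup X] [Module ℝ X] [MetricSpace X] [CompleteSpace X]
  [IsTopologicalAddGroup X] [ContinuousSMul ℝ X] {C D : Set X}

theorem pow_step (n : ℕ) (e : ℝ) (he : e ≤ (1 / 2 : ℝ) ^ (n + 2)) :
    1 / 2 + (1 / 2 : ℝ) ^ (n + 2) ≤ (1 - e) * (1 / 2 + (1 / 2 : ℝ) ^ (n + 1)) := by
  have h1 : (1 / 2 : ℝ) ^ (n + 1) = 2 * (1 / 2 : ℝ) ^ (n + 2) := by ring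
  have h2 : 0 < (1 / 2 : ℝ) ^ (n + 2) := by positivity
  have h3 : (1 / 2 : ℝ) ^ (n + 2) ≤ 1 / 4 := by
    have h4 : (1 / 2 : ℝ) ^ n ≤ 1 := pow_le_one₀ (by norm_num) (by norm_num)
    have h5 : (1 / 2 : ℝ) ^ (n + 2) = (1 / 2 : ℝ) ^ n * (1 / 4) := by ring
    rw [h5]; linarith
  rw [h1]
  set q := (1 / 2 : ℝ) ^ (n + 2)
  have h6 : (1 - q) * (1 / 2 + 2 * q) ≤ (1 - e) * (1 / 2 + 2 * q) :=
    mul_le_mul_of_nonneg_right (by linarith) (by positivity)
  nlinarith

theorem uniform_bound (hCc : IsClosed C) (hC : Convex ℝ C) (hD : Convex ℝ D) (hCD : C ⊆ D)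
    (hI : ¬ InfH C D) : ∃ N : ℕ, ∀ c ∈ C, ¬ FH C D c N := by
  classical
  have hcl : RC C := RC_of_closed hCc
  by_contra hcon
  push Not at hcon
  choose cs hcs hFH using hcon
  have hε : ∀ (n : ℕ) (x : X), ∃ ε : ℝ, 0 < ε ∧ ε ≤ (1 / 2 : ℝ) ^ (n + 2) ∧
      dist x ((1 - ε) • x + ε • cs (n + 1)) ≤ (1 / 2 : ℝ) ^ n := by
    intro n x
    have hc : Continuous (fun ε : ℝ => dist x ((1 - ε) • x + ε • cs (n + 1))) := by fun_prop
    have h0 : dist x ((1 - (0 : ℝ)) • x + (0 : ℝ) • cs (n + 1)) < (1 / 2 : ℝ) ^ n := by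
      rw [sub_zero, one_smul, zero_smul, add_zero, dist_self]; positivity
    have h1 : ∀ᶠ ε in 𝓝 (0 : ℝ), dist x ((1 - ε) • x + ε • cs (n + 1)) < (1 / 2 : ℝ) ^ n :=
      hc.continuousAt.eventually_lt continuousAt_const h0
    obtain ⟨δ, hδ, hδ1⟩ := Metric.eventually_nhds_iff.1 h1
    refine ⟨min (δ / 2) ((1 / 2 : ℝ) ^ (n + 2)), lt_min (by linarith) (by positivity),
      min_le_right _ _, (hδ1 ?_).le⟩
    have h3 : 0 < min (δ / 2) ((1 / 2 : ℝ) ^ (n + 2)) := lt_min (by linarith) (by positivity)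
    rw [Real.dist_eq, sub_zero, abs_of_pos h3]
    have := min_le_left (δ / 2) ((1 / 2 : ℝ) ^ (n + 2))
    linarith
  choose eps he1 he2 he3 using hε
  have he4 : ∀ n x, eps n x ≤ 1 := fun n x =>
    (he2 n x).trans (pow_le_one₀ (by norm_num) (by norm_num))
  let d : ℕ → X := fun n => Nat.rec (cs 0) (fun n x => (1 - eps n x) • x + eps n x • cs (n + 1)) n
  have hd : ∀ n, d (n + 1) = (1 - eps n (d n)) • d n + eps n (d n) • cs (n + 1) := fun n => rfl
  have hdC : ∀ n, d n ∈ C := by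
    intro n
    induction n with
    | zero => exact hcs 0
    | succ n ih =>
      rw [hd n]
      have := he4 n (d n)
      exact hC ih (hcs (n + 1)) (by linarith) (he1 n (d n)).le (by ring)
  let lam : ℕ → ℝ := fun j => Nat.casesOn j 1 (fun j => eps j (d j))
  have hlam0 : ∀ j, 0 < lam j := by
    intro j
    cases j with
    | zero => exact one_pos
    | succ j => exact he1 j (d j)
  have hdom0 : ∀ j, Dom C (cs j) (d j) (lam j) := by
    intro j
    cases j with
    | zero =>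
      intro y hy
      show cs 0 + (1 : ℝ) • (y - cs 0) ∈ C
      rwa [one_smul, add_sub_cancel]
    | succ j =>
      rw [hd j]
      exact dom_new hC (hdC j) (he1 j (d j)).le (he4 j (d j))
  have hdom : ∀ j k, Dom C (cs j) (d (j + k)) (lam j * (1 / 2 + (1 / 2 : ℝ) ^ (j + k + 1))) := by
    intro j k
    induction k with
    | zero =>
      have h1 : (1 / 2 : ℝ) ^ (j + 0 + 1) ≤ 1 / 2 := by
        rw [Nat.add_zero, pow_succ]
        have : (1 / 2 : ℝ) ^ j ≤ 1 := pow_le_one₀ (by norm_num) (by norm_num)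
        linarith
      have h2 := hlam0 j
      have h3 : 0 < (1 / 2 : ℝ) ^ (j + 0 + 1) := by positivity
      refine dom_lower hC (hdC j) (hdom0 j) h2 (by positivity) ?_
      nlinarith
    | succ k ih =>
      have h1 := dom_mix hC (hcs (j + k + 1)) ih (he1 (j + k) (d (j + k))).le (he4 (j + k) (d (j + k)))
      rw [← hd (j + k)] at h1
      have h2 := hlam0 j
      have h3 := pow_step (j + k) _ (he2 (j + k) (d (j + k)))
      have h5 : 0 < 1 / 2 + (1 / 2 : ℝ) ^ (j + k + 2) := by positivity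
      refine dom_lower hC (hdC (j + k + 1)) h1 ?_ (by positivity) ?_
      · have : 0 < (1 - eps (j + k) (d (j + k))) * (1 / 2 + (1 / 2 : ℝ) ^ (j + k + 1)) := by linarith
        calc (0 : ℝ) < lam j * ((1 - eps (j + k) (d (j + k))) * (1 / 2 + (1 / 2 : ℝ) ^ (j + k + 1))) :=
              mul_pos h2 this
          _ = _ := by ring
      · calc lam j * (1 / 2 + (1 / 2 : ℝ) ^ (j + (k + 1) + 1))
            ≤ lam j * ((1 - eps (j + k) (d (j + k))) * (1 / 2 + (1 / 2 : ℝ) ^ (j + k + 1))) :=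
              mul_le_mul_of_nonneg_left h3 h2.le
          _ = _ := by ring
  have hcau : CauchySeq d := by
    refine cauchySeq_of_le_geometric (1 / 2) 1 (by norm_num) (fun n => ?_)
    rw [one_mul, hd n]
    exact he3 n (d n)
  obtain ⟨cstar, hlim⟩ := cauchySeq_tendsto_of_complete hcau
  have hcstar : cstar ∈ C := hCc.mem_of_tendsto hlim (Eventually.of_forall hdC)
  have hdoms : ∀ j, Dom C (cs j) cstar (lam j / 2) := by
    intro j y hy
    have h1 : Tendsto (fun n => d n + (lam j / 2) • (y - cs j)) atTop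
        (𝓝 (cstar + (lam j / 2) • (y - cs j))) := hlim.add tendsto_const_nhds
    refine hCc.mem_of_tendsto h1 ?_
    filter_upwards [eventually_ge_atTop j] with n hn
    obtain ⟨k, rfl⟩ := Nat.exists_eq_add_of_le hn
    have h2 := hlam0 j
    have h3 : 0 < (1 / 2 : ℝ) ^ (j + k + 1) := by positivity
    exact dom_lower hC (hdC (j + k)) (hdom j k) (by positivity) (by positivity)
      (by nlinarith) y hy
  apply hI
  refine infH_of_FH hC hcl hD hCD hcstar (fun N => ?_)
  have h2 := hlam0 N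
  exact FH_mono hC (hcs N) (by positivity) (hdoms N) (hFH N)

end topo

section alg

variable {X : Type*} [AddCommGroup X] [Module ℝ X] {C D : Set X}

/-- Differences in the direction of a convex set. -/
theorem span_form (hC : Convex ℝ C) {c : X} (hc : c ∈ C) {v : X}
    (hv : v ∈ Submodule.span ℝ (C -ᵥ C)) :
    ∃ r : ℝ, 0 ≤ r ∧ ∃ x ∈ C, ∃ y ∈ C, v = r • (x - y) := by
  induction hv using Submodule.span_induction with
  | mem x hx =>
    obtain ⟨a, ha, b, hb, rfl⟩ := Set.mem_vsub.1 hx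
    exact ⟨1, zero_le_one, a, ha, b, hb, by rw [one_smul]; rfl⟩
  | zero => exact ⟨0, le_rfl, c, hc, c, hc, by rw [zero_smul]⟩
  | add x y _ _ hx hy =>
    obtain ⟨r, hr, a, ha, b, hb, rfl⟩ := hx
    obtain ⟨s, hs, a', ha', b', hb', rfl⟩ := hy
    rcases (add_nonneg hr hs).eq_or_lt with h | h
    · have h1 : r = 0 := by linarith
      have h2 : s = 0 := by linarith
      exact ⟨0, le_rfl, c, hc, c, hc, by rw [h1, h2, zero_smul, zero_smul, zero_smul, add_zero]⟩
    · have hsum : r / (r + s) + s / (r + s) = 1 := by rw [← add_div, div_self h.ne']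
      refine ⟨r + s, h.le, _, hC ha ha' (by positivity) (by positivity) hsum, _,
        hC hb hb' (by positivity) (by positivity) hsum, ?_⟩
      rw [smul_sub (r + s), smul_add, smul_add, smul_smul, smul_smul, smul_smul, smul_smul,
        mul_div_cancel₀ _ h.ne', mul_div_cancel₀ _ h.ne', smul_sub, smul_sub]
      abel
  | smul t x _ hx =>
    obtain ⟨r, hr, a, ha, b, hb, rfl⟩ := hx
    rcases le_total 0 t with h | h
    · exact ⟨t * r, by positivity, a, ha, b, hb, by rw [mul_smul]⟩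
    · refine ⟨(-t) * r, mul_nonneg (by linarith) hr, b, hb, a, ha, ?_⟩
      rw [mul_smul, neg_smul, ← smul_neg, ← smul_neg, neg_sub]

theorem seen_of_aff (hC : Convex ℝ C) (hne : C.Nonempty) {x : X} (hx : x ∈ affineSpan ℝ C)
    (hxD : x ∈ D) (hxC : x ∉ C) : ∃ c ∈ C, x ∈ Sc C D c := by
  obtain ⟨c₀, hc₀⟩ := hne
  have h1 : x -ᵥ c₀ ∈ (affineSpan ℝ C).direction :=
    AffineSubspace.vsub_mem_direction hx (subset_affineSpan ℝ C hc₀)
  rw [direction_affineSpan, vectorSpan_def] at h1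
  obtain ⟨r, hr, a, ha, b, hb, h2⟩ := span_form hC hc₀ h1
  have h3 : x = c₀ + r • (a - b) := by
    rw [← h2, vsub_eq_sub, add_sub_cancel]
  have hm : (1 / 2 : ℝ) • c₀ + (1 / 2 : ℝ) • b ∈ C :=
    hC hc₀ hb (by norm_num) (by norm_num) (by norm_num)
  refine ⟨_, hm, hxD, hxC, 1 / (1 + 2 * r), by positivity, ?_⟩
  have h4 := hC hc₀ ha (show 0 ≤ (1 + r) / (1 + 2 * r) by positivity)
    (show 0 ≤ r / (1 + 2 * r) by positivity) (by
      rw [← add_div, div_eq_one_iff_eq (by positivity)]; ring)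
  have e : ((1 + r) / (1 + 2 * r)) • c₀ + (r / (1 + 2 * r)) • a =
      (1 / 2 : ℝ) • c₀ + (1 / 2 : ℝ) • b +
        (1 / (1 + 2 * r)) • (x - ((1 / 2 : ℝ) • c₀ + (1 / 2 : ℝ) • b)) := by
    rw [h3]
    have hne : (1 + 2 * r) ≠ 0 := by positivity
    match_scalars
    · field_simp; ring
    · field_simp
    · field_simp; ring
  rwa [e] at h4

/-- A hidden set with at least three points lies in the affine hull. -/
theorem mem_aff_of_hidden {a b d : X} (ha : a ∉ C) (hb : b ∉ C) (hd : d ∉ C)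
    (h1 : ∃ z ∈ segment ℝ a b, z ∈ C) (h2 : ∃ z ∈ segment ℝ a d, z ∈ C)
    (h3 : ∃ z ∈ segment ℝ b d, z ∈ C) : a ∈ affineSpan ℝ C := by
  have norm : ∀ {x y : X}, x ∉ C → y ∉ C → (∃ z ∈ segment ℝ x y, z ∈ C) →
      ∃ s : ℝ, 0 < s ∧ s < 1 ∧ (1 - s) • x + s • y ∈ C := by
    rintro x y hx hy ⟨z, ⟨s', s, h0, h0', hs, rfl⟩, hz⟩
    have : s' = 1 - s := by linarith
    subst this
    refine ⟨s, ?_, ?_, hz⟩
    · rcases h0'.eq_or_lt with h | h
      · exfalso; rw [← h] at hz; apply hx; simpa using hz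
      · exact h
    · rcases (show s ≤ 1 by linarith).eq_or_lt with h | h
      · exfalso; rw [h] at hz; apply hy; simpa using hz
      · exact h
  obtain ⟨r, hr0, hr1, k1⟩ := norm ha hb h1
  obtain ⟨s, hs0, hs1, k2⟩ := norm ha hd h2
  obtain ⟨t, ht0, ht1, k3⟩ := norm hb hd h3
  set κ : ℝ := (1 - t) * (1 - r) / r + t * (1 - s) / s with hκ
  have hκ0 : 0 < κ := by
    have : 0 < (1 - t) * (1 - r) / r := div_pos (mul_pos (by linarith) (by linarith)) hr0
    have : 0 < t * (1 - s) / s := div_pos (mul_pos ht0 (by linarith)) hs0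
    positivity
  set c1 := (1 - r) • a + r • b with hc1
  set c2 := (1 - s) • a + s • d with hc2
  set c3 := (1 - t) • b + t • d with hc3
  set α : ℝ := (1 - t) / r / κ with hα
  set β : ℝ := t / s / κ with hβ
  have f1 : α * r = (1 - t) * (1 / κ) := by rw [hα]; field_simp
  have f2 : β * s = t * (1 / κ) := by rw [hβ]; field_simp
  have f3 : α + β = 1 + 1 / κ := by
    have : (1 - t) / r + t / s = κ + 1 := by rw [hκ]; field_simp; ring
    rw [hα, hβ, ← add_div, this, add_div, div_self hκ0.ne']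
  have e : a = (α • (c1 -ᵥ c3) + β • (c2 -ᵥ c3)) +ᵥ c3 := by
    rw [vsub_eq_sub, vsub_eq_sub, vadd_eq_add, hc1, hc2, hc3]
    match_scalars
    · linear_combination (-1) * f3 + f1 + f2
    · linear_combination (-1) * f1 + (1 - t) * f3
    · linear_combination (-1) * f2 + t * f3
  rw [e]
  have m1 := subset_affineSpan ℝ C k1
  have m2 := subset_affineSpan ℝ C k2
  have m3 := subset_affineSpan ℝ C k3
  refine AffineSubspace.vadd_mem_of_mem_direction ?_ m3
  exact Submodule.add_mem _ (Submodule.smul_mem _ _ (AffineSubspace.vsub_mem_direction m1 m3))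
    (Submodule.smul_mem _ _ (AffineSubspace.vsub_mem_direction m2 m3))

end alg

end Q144.PS
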