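import Pool.Agent.Q144.PSg

/-!
# Hidden sets: both directions
-/

open Filter Topology

namespace Q144.PS

section alg

variable {X : Type*} [AddCommGroup X] [Module ℝ X] {C D : Set X}

theorem backward {n : ℕ} {H : Fin n → Set X}
    (hH : C = ⋂ i, H i)
    (hHc : ∀ i, Convex ℝ ((D ∩ (affineSpan ℝ C : Set X)) \ H i)) : ¬ InfH C D := by
  classical
  rintro ⟨A, hA, hAD, hAH⟩
  have haff : ∀ a ∈ A, a ∈ D ∩ (affineSpan ℝ C : Set X) := by
    intro a ha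
    obtain ⟨b, hb, hba⟩ := hA.exists_notMem_finset {a}
    obtain ⟨d, hd, hdab⟩ := hA.exists_notMem_finset {a, b}
    rw [Finset.mem_singleton] at hba
    rw [Finset.mem_insert, Finset.mem_singleton] at hdab
    push Not at hdab
    exact ⟨(hAD ha).1, mem_aff_of_hidden (hAD ha).2 (hAD hb).2 (hAD hd).2
      (hAH a ha b hb (Ne.symm hba)) (hAH a ha d hd (Ne.symm hdab.1))
      (hAH b hb d hd (Ne.symm hdab.2))⟩
  have hex : ∀ a ∈ A, ∃ i : Fin n, a ∉ H i := by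
    intro a ha
    by_contra hc
    push Not at hc
    apply (hAD ha).2
    rw [hH]
    exact Set.mem_iInter.2 hc
  obtain ⟨a₀, ha₀⟩ := hA.nonempty
  have hn : Nonempty (Fin n) := ⟨(hex a₀ ha₀).choose⟩
  choose! f hf using hex
  obtain ⟨x, hx, y, hy, hne, hxy⟩ := hA.exists_ne_map_eq_of_mapsTo
    (f := f) (t := Set.univ) (fun _ _ => Set.mem_univ _) Set.finite_univ
  obtain ⟨z, hz, hzC⟩ := hAH x hx y hy hne
  have h1 : x ∈ (D ∩ (affineSpan ℝ C : Set X)) \ H (f x) := ⟨haff x hx, hf x hx⟩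
  have h2 : y ∈ (D ∩ (affineSpan ℝ C : Set X)) \ H (f x) := ⟨haff y hy, by rw [hxy]; exact hf y hy⟩
  have h3 := (hHc (f x)).segment_subset h1 h2 hz
  apply h3.2
  rw [hH] at hzC
  exact Set.mem_iInter.1 hzC _

/-- The local colouring. -/
theorem local_col (hC : Convex ℝ C) (hcl : RC C) (hD : Convex ℝ D) (hCD : C ⊆ D)
    (hne : C.Nonempty) {N : ℕ} (hN0 : 0 < N) (hN : ∀ c ∈ C, ¬ FH C D c N) (F : Finset X) :
    ∃ g : X → Fin N, ∀ i, Disjoint
      (convexHull ℝ {x | x ∈ F ∧ (x ∈ D ∧ x ∉ C ∧ x ∈ affineSpan ℝ C) ∧ g x = i}) C := by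
  classical
  obtain ⟨c, hc, hcF⟩ := common_base (D := D) hC hne
    (F.filter (fun x => x ∈ D ∧ x ∉ C ∧ x ∈ affineSpan ℝ C)) (fun x hx => by
      obtain ⟨h1, h2, h3, h4⟩ := Finset.mem_filter.1 hx
      exact seen_of_aff hC hne h4 h2 h3)
  obtain ⟨T, hT1, hT2, hT3⟩ := cover_c hC hcl hD hCD hc (hN c hc)
  refine ⟨fun x => if h : ∃ i < N, x ∈ T i then ⟨h.choose, h.choose_spec.1⟩ else ⟨0, hN0⟩, ?_⟩
  intro i
  have hsub : {x | x ∈ F ∧ (x ∈ D ∧ x ∉ C ∧ x ∈ affineSpan ℝ C) ∧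
      (if h : ∃ i < N, x ∈ T i then (⟨h.choose, h.choose_spec.1⟩ : Fin N) else ⟨0, hN0⟩) = i} ⊆
      T i := by
    rintro x ⟨hxF, hx, hxi⟩
    have hxS : x ∈ Sc C D c := hcF x (Finset.mem_filter.2 ⟨hxF, hx⟩)
    have hex : ∃ i < N, x ∈ T i := hT3 x hxS
    rw [dif_pos hex] at hxi
    rw [← hxi]
    exact hex.choose_spec.2
  rw [Set.disjoint_left]
  intro z hz hzC
  exact hT2 i z (convexHull_min hsub (hT1 i) hz) hzC

end alg

section topo

variable {X : Type*} [AddCommGroup X] [Module ℝ X] [MetricSpace X] [CompleteSpace X]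
  [IsTopologicalAddGroup X] [ContinuousSMul ℝ X] {C D : Set X}

theorem forward (hCc : IsClosed C) (hC : Convex ℝ C) (hD : Convex ℝ D) (hCD : C ⊆ D)
    (hI : ¬ InfH C D) : ∃ (n : ℕ) (H : Fin n → Set X), 0 < n ∧
      (∀ i, H i ⊆ D ∩ (affineSpan ℝ C : Set X)) ∧ C = ⋂ i, H i ∧
      ∀ i, Convex ℝ (H i) ∧ Convex ℝ ((D ∩ (affineSpan ℝ C : Set X)) \ H i) := by
  classical
  rcases C.eq_empty_or_nonempty with h0 | hne
  · refine ⟨1, fun _ => ∅, one_pos, fun _ => Set.empty_subset _, ?_, fun _ => ⟨convex_empty, ?_⟩⟩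
    · rw [h0, Set.iInter_const]
    · rw [h0, AffineSubspace.span_empty, AffineSubspace.bot_coe, Set.inter_empty, Set.empty_diff]
      exact convex_empty
  have hcl : RC C := RC_of_closed hCc
  obtain ⟨N, hN⟩ := uniform_bound hCc hC hD hCD hI
  have hN0 : 0 < N := by
    rcases Nat.eq_zero_or_pos N with h | h
    · exfalso
      obtain ⟨c, hc⟩ := hne
      apply hN c hc
      rw [h]
      exact ⟨∅, fun x hx => absurd hx (Finset.notMem_empty x),
        fun x hx => absurd hx (Finset.notMem_empty x), Nat.zero_le _⟩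
    · exact h
  choose g hg using local_col hC hcl hD hCD hne hN0 hN
  obtain ⟨χ, hχ⟩ := Finset.rado_selection g
  set Z : Fin N → Set X := fun i => {x | (x ∈ D ∧ x ∉ C ∧ x ∈ affineSpan ℝ C) ∧ χ x = i} with hZ
  have hdisj : ∀ i, Disjoint C (convexHull ℝ (Z i)) := by
    intro i
    rw [Set.disjoint_right]
    intro z hz hzC
    rw [convexHull_eq_union_convexHull_finite_subsets] at hz
    obtain ⟨s, hs⟩ := Set.mem_iUnion.1 hz
    obtain ⟨hsZ, hzs⟩ := Set.mem_iUnion.1 hs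
    obtain ⟨t, hst, ht⟩ := hχ s
    have h1 : (s : Set X) ⊆ {x | x ∈ t ∧ (x ∈ D ∧ x ∉ C ∧ x ∈ affineSpan ℝ C) ∧ g t x = i} := by
      intro x hx
      obtain ⟨k1, k2⟩ := hsZ hx
      exact ⟨hst hx, k1, by rw [← ht x hx]; exact k2⟩
    exact Set.disjoint_left.1 (hg t i) (convexHull_mono h1 hzs) hzC
  have hsep : ∀ i, ∃ Q : Set X, Convex ℝ Q ∧ Convex ℝ Qᶜ ∧ C ⊆ Q ∧ convexHull ℝ (Z i) ⊆ Qᶜ :=
    fun i => exists_convex_convex_compl_subset hC (convex_convexHull ℝ (Z i)) (hdisj i)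
  choose Q hQ1 hQ2 hQ3 hQ4 using hsep
  have haff : Convex ℝ (D ∩ (affineSpan ℝ C : Set X)) := hD.inter (affineSpan ℝ C).convex
  refine ⟨N, fun i => Q i ∩ (D ∩ (affineSpan ℝ C : Set X)), hN0, fun i => Set.inter_subset_right,
    ?_, fun i => ⟨(hQ1 i).inter haff, ?_⟩⟩
  · apply Set.Subset.antisymm
    · intro x hx
      exact Set.mem_iInter.2 (fun i => ⟨hQ3 i hx, hCD hx, subset_affineSpan ℝ C hx⟩)
    · intro x hx
      rw [Set.mem_iInter] at hx
      by_contra hxC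
      have hx0 := hx ⟨0, hN0⟩
      have h1 : x ∈ Z (χ x) := ⟨⟨hx0.2.1, hxC, hx0.2.2⟩, rfl⟩
      exact hQ4 (χ x) (subset_convexHull ℝ _ h1) (hx (χ x)).1
  · have e : (D ∩ (affineSpan ℝ C : Set X)) \ (Q i ∩ (D ∩ (affineSpan ℝ C : Set X))) =
        (Q i)ᶜ ∩ (D ∩ (affineSpan ℝ C : Set X)) := by
      ext x
      constructor
      · rintro ⟨h1, h2⟩
        exact ⟨fun h => h2 ⟨h, h1⟩, h1⟩
      · rintro ⟨h1, h2⟩
        exact ⟨h2, fun h => h1 h.1⟩
    rw [e]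
    exact (hQ2 i).inter haff

end topo

end Q144.PS
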