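import Pool.Agent.Q275.RT.Stm

/-!
Project RT of helper275, job CMP: the primes after the gap.
-/

set_option autoImplicit false

namespace Pool.Agent.Q144.RT

open Finset

/-- the `h` largest elements -/
theorem top_part (R : Finset ℕ) : ∀ h : ℕ, h ≤ R.card → ∃ B ⊆ R, B.card = h ∧
    ∀ b ∈ B, ∀ q ∈ R, q ∉ B → q ≤ b := by
  intro h
  induction h with
  | zero => exact fun _ => ⟨∅, empty_subset _, card_empty, by simp⟩
  | succ h ih =>
    intro hh
    obtain ⟨B, hB, hc, hb⟩ := ih (by omega)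
    have hne : (R \ B).Nonempty := by
      rw [← card_pos, card_sdiff_of_subset hB]; omega
    have hm := (R \ B).max'_mem hne
    rw [mem_sdiff] at hm
    refine ⟨insert ((R \ B).max' hne) B, insert_subset hm.1 hB, by
      rw [card_insert_of_notMem hm.2, hc], ?_⟩
    intro b hb' q hq hq'
    rw [mem_insert, not_or] at hq'
    rcases mem_insert.1 hb' with rfl | hb'
    · exact (R \ B).le_max' q (mem_sdiff.2 ⟨hq, hq'.2⟩)
    · exact hb b hb' q hq hq'.2

/-- `a ≤ x e ^ ((a - x) / z)` for `z ≤ x`, `x ≤ a` -/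
theorem up_le {a x z : ℝ} (hz : 0 < z) (hzx : z ≤ x) (hxa : x ≤ a) : a ≤ x * Real.exp ((a - x) / z) := by
  have hx : 0 < x := hz.trans_le hzx
  have h1 : (a - x) / x ≤ (a - x) / z := div_le_div_of_nonneg_left (by linarith) hz hzx
  have h2 := Real.add_one_le_exp ((a - x) / x)
  have h3 : a = x * ((a - x) / x + 1) := by field_simp; ring
  calc a = x * ((a - x) / x + 1) := h3
    _ ≤ x * Real.exp ((a - x) / z) := by
      refine mul_le_mul_of_nonneg_left (h2.trans ?_) hx.le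
      exact Real.exp_le_exp.2 h1

theorem cmp_aux (m x G : ℕ) (R A : Finset ℕ) (hG : 0 < G) (hA : A.Nonempty)
    (hR : ∀ r ∈ R, 1 ≤ r ∧ r ≤ x) (hAx : ∀ a ∈ A, x + G ≤ a) (hs : ∑ a ∈ A, a ≤ ∑ r ∈ R, r)
    (hc : R.card ≤ A.card + m) :
    (G : ℝ) * ∏ a ∈ A, (a : ℝ) ≤ m * Real.exp m * ∏ r ∈ R, (r : ℝ) := by
  have hA1 : 1 ≤ A.card := card_pos.2 hA
  have hsA : A.card * (x + G) ≤ ∑ a ∈ A, a := by
    simpa using card_nsmul_le_sum A (fun a => a) (x + G) hAx
  have hsR : ∑ r ∈ R, r ≤ R.card * x := by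
    simpa using sum_le_card_nsmul R (fun a => a) x (fun r hr => (hR r hr).2)
  have hcard : A.card < R.card := by
    by_contra hcon
    push Not at hcon
    have h1 : R.card * x ≤ A.card * x := Nat.mul_le_mul_right _ hcon
    have h2 : A.card * (x + G) = A.card * x + A.card * G := by ring
    have h3 : 0 < A.card * G := Nat.mul_pos hA1 hG
    omega
  obtain ⟨B, hBR, hBc, hB⟩ := top_part R A.card hcard.le
  have hne : (R \ B).Nonempty := by
    rw [← card_pos, card_sdiff_of_subset hBR]; omega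
  obtain ⟨z, hz, hzm⟩ : ∃ z ∈ R \ B, ∀ q ∈ R \ B, q ≤ z :=
    ⟨(R \ B).max' hne, (R \ B).max'_mem hne, fun q hq => (R \ B).le_max' q hq⟩
  have hzR : z ∈ R := (mem_sdiff.1 hz).1
  have hzB : z ∉ B := (mem_sdiff.1 hz).2
  have hz1 : 1 ≤ z := (hR z hzR).1
  have hzx : z ≤ x := (hR z hzR).2
  have hQc : (R \ B).card ≤ m := by rw [card_sdiff_of_subset hBR]; omega
  have hsQ : ∑ q ∈ R \ B, q ≤ m * z := by
    calc ∑ q ∈ R \ B, q ≤ (R \ B).card * z := by
          simpa using sum_le_card_nsmul (R \ B) (fun a => a) z hzm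
      _ ≤ m * z := Nat.mul_le_mul_right _ hQc
  have hsplit : ∑ q ∈ R \ B, q + ∑ b ∈ B, b = ∑ r ∈ R, r := sum_sdiff hBR
  have hsB : ∑ b ∈ B, b ≤ A.card * x := by
    rw [← hBc]
    simpa using sum_le_card_nsmul B (fun a => a) x (fun r hr => (hR r (hBR hr)).2)
  have hAG : A.card * (x + G) = A.card * x + A.card * G := by ring
  have hGle : G ≤ A.card * G := Nat.le_mul_of_pos_left _ hA1
  have hGm : G ≤ m * z := by omega
  have hz0 : (0 : ℝ) < z := by exact_mod_cast hz1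
  have hx0 : (0 : ℝ) < x := by exact_mod_cast (hz1.trans hzx)
  -- the product over `A`
  have hPA : ∏ a ∈ A, (a : ℝ) ≤ (x : ℝ) ^ A.card * Real.exp ((∑ a ∈ A, (a : ℝ) - A.card * x) / z) := by
    calc ∏ a ∈ A, (a : ℝ) ≤ ∏ a ∈ A, ((x : ℝ) * Real.exp (((a : ℝ) - x) / z)) := by
          refine prod_le_prod (fun _ _ => by positivity) (fun a ha => up_le hz0 (by exact_mod_cast hzx) ?_)
          have := hAx a ha
          exact_mod_cast (by omega : x ≤ a)
      _ = _ := by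
          rw [prod_mul_distrib, prod_const, ← Real.exp_sum, ← sum_div, sum_sub_distrib, sum_const,
            nsmul_eq_mul]
  have hPB : (x : ℝ) ^ A.card ≤ (∏ b ∈ B, (b : ℝ)) *
      Real.exp ((A.card * x - ∑ b ∈ B, (b : ℝ)) / z) := by
    calc (x : ℝ) ^ A.card = ∏ b ∈ B, (x : ℝ) := by rw [prod_const, hBc]
      _ ≤ ∏ b ∈ B, ((b : ℝ) * Real.exp (((x : ℝ) - b) / z)) := by
          refine prod_le_prod (fun _ _ => by positivity) (fun b hb => up_le hz0 ?_ ?_)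
          · exact_mod_cast hB b hb z hzR hzB
          · exact_mod_cast (hR b (hBR hb)).2
      _ = _ := by
          rw [prod_mul_distrib, ← Real.exp_sum, ← sum_div, sum_sub_distrib, sum_const,
            nsmul_eq_mul, hBc]
  have hB0 : 0 ≤ ∏ b ∈ B, (b : ℝ) := prod_nonneg fun _ _ => by positivity
  have hdiff : (∑ a ∈ A, (a : ℝ)) ≤ (m : ℝ) * (z : ℝ) + ∑ b ∈ B, (b : ℝ) := by
    have h7 : ∑ a ∈ A, a ≤ m * z + ∑ b ∈ B, b := by omega
    have h8 := (Nat.cast_le (α := ℝ)).2 h7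
    push_cast at h8
    exact h8
  have hAB : ∏ a ∈ A, (a : ℝ) ≤ (∏ b ∈ B, (b : ℝ)) * Real.exp m := by
    calc ∏ a ∈ A, (a : ℝ) ≤ (x : ℝ) ^ A.card * Real.exp ((∑ a ∈ A, (a : ℝ) - A.card * x) / z) := hPA
      _ ≤ ((∏ b ∈ B, (b : ℝ)) * Real.exp ((A.card * x - ∑ b ∈ B, (b : ℝ)) / z)) *
          Real.exp ((∑ a ∈ A, (a : ℝ) - A.card * x) / z) :=
        mul_le_mul_of_nonneg_right hPB (Real.exp_pos _).le
      _ = (∏ b ∈ B, (b : ℝ)) * Real.exp ((∑ a ∈ A, (a : ℝ) - ∑ b ∈ B, (b : ℝ)) / z) := by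
        rw [mul_assoc, ← Real.exp_add]; congr 2; ring
      _ ≤ _ := by
        refine mul_le_mul_of_nonneg_left (Real.exp_le_exp.2 ?_) hB0
        rw [div_le_iff₀ hz0]; linarith
  have hQ : (z : ℝ) ≤ ∏ q ∈ R \ B, (q : ℝ) := by
    rw [← mul_prod_erase (R \ B) (fun q : ℕ => (q : ℝ)) hz]
    refine le_mul_of_one_le_right hz0.le ?_
    have : ∀ q ∈ (R \ B).erase z, (1 : ℝ) ≤ (q : ℝ) := fun q hq => by
      exact_mod_cast (hR q (mem_sdiff.1 (mem_of_mem_erase hq)).1).1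
    calc (1 : ℝ) = ∏ q ∈ (R \ B).erase z, (1 : ℝ) := by simp
      _ ≤ _ := prod_le_prod (fun _ _ => zero_le_one) this
  have hGm' : (G : ℝ) ≤ m * z := by exact_mod_cast hGm
  calc (G : ℝ) * ∏ a ∈ A, (a : ℝ) ≤ (m * z) * ((∏ b ∈ B, (b : ℝ)) * Real.exp m) :=
        mul_le_mul hGm' hAB (prod_nonneg fun _ _ => by positivity) (by positivity)
    _ = m * Real.exp m * (z * ∏ b ∈ B, (b : ℝ)) := by ring
    _ ≤ m * Real.exp m * ((∏ q ∈ R \ B, (q : ℝ)) * ∏ b ∈ B, (b : ℝ)) := by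
        refine mul_le_mul_of_nonneg_left (mul_le_mul_of_nonneg_right hQ hB0) (by positivity)
    _ = _ := by rw [prod_sdiff hBR]

theorem cmp : Pool.Agent.Q275.RT.S_CMP := fun m x G R A hG hA hR hAx hs hc =>
  cmp_aux m x G R A hG hA hR hAx hs hc

end Pool.Agent.Q144.RT
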