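import Mathlib

set_option autoImplicit false

/-! Relative interiors of convex sets. The lemmas `mem_ri`, `aff_comb`, `extend_ri` and
`segment_ri` are taken from the starting file `Results/MP_d6d24d_co/NoDual.lean`. -/

namespace Q144.RI

variable {E : Type*} [NormedAddCommGroup E] [NormedSpace ℝ E]

lemma mem_ri {s : Set E} {x : E} : x ∈ intrinsicInterior ℝ s ↔
    x ∈ affineSpan ℝ s ∧ ∃ ε > 0, ∀ w ∈ affineSpan ℝ s, dist w x < ε → w ∈ s := by
  rw [mem_intrinsicInterior]
  constructor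
  · rintro ⟨y, hy, rfl⟩
    refine ⟨y.2, ?_⟩
    rw [mem_interior_iff_mem_nhds, Metric.mem_nhds_iff] at hy
    obtain ⟨ε, hε, h⟩ := hy
    refine ⟨ε, hε, fun w hw hd => ?_⟩
    exact h (show (⟨w, hw⟩ : affineSpan ℝ s) ∈ Metric.ball y ε from hd)
  · rintro ⟨hx, ε, hε, h⟩
    refine ⟨⟨x, hx⟩, ?_, rfl⟩
    rw [mem_interior_iff_mem_nhds, Metric.mem_nhds_iff]
    refine ⟨ε, hε, fun w hw => ?_⟩
    exact h w w.2 hw

lemma aff_comb {s : Set E} {x y : E} (hx : x ∈ affineSpan ℝ s) (hy : y ∈ affineSpan ℝ s)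
    {z : E} (hz : z ∈ affineSpan ℝ s) (c : ℝ) : x + c • (y - z) ∈ affineSpan ℝ s := by
  have h1 : y -ᵥ z ∈ (affineSpan ℝ s).direction := AffineSubspace.vsub_mem_direction hy hz
  have h2 := (affineSpan ℝ s).direction.smul_mem c h1
  have h3 := AffineSubspace.vadd_mem_of_mem_direction h2 hx
  simpa [vsub_eq_sub, vadd_eq_add, add_comm] using h3

lemma extend_ri {s : Set E} {x y : E} (hx : x ∈ intrinsicInterior ℝ s) (hy : y ∈ s) :
    ∃ z ∈ s, x ∈ openSegment ℝ y z := by
  obtain ⟨hxa, ε, hε, h⟩ := mem_ri.1 hx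
  have hya : y ∈ affineSpan ℝ s := subset_affineSpan ℝ s hy
  set c : ℝ := ε / (2 * (‖x - y‖ + 1)) with hc
  have hn : 0 ≤ ‖x - y‖ := norm_nonneg _
  have hc0 : 0 < c := by positivity
  refine ⟨x + c • (x - y), h _ (aff_comb hxa hxa hya c) ?_, ?_⟩
  · rw [dist_eq_norm, add_sub_cancel_left, norm_smul, Real.norm_of_nonneg hc0.le, hc]
    rw [div_mul_eq_mul_div, div_lt_iff₀ (by positivity)]
    nlinarith
  · refine ⟨c / (1 + c), 1 / (1 + c), by positivity, by positivity, by field_simp; ring, ?_⟩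
    have : (1 + c) ≠ 0 := by positivity
    have e : (c / (1 + c)) • y + (1 / (1 + c)) • (x + c • (x - y)) =
        ((1 / (1 + c)) * (1 + c)) • x := by
      rw [smul_add, smul_smul, smul_sub]
      module
    rw [e, one_div_mul_cancel this, one_smul]

lemma segment_ri {s : Set E} [FiniteDimensional ℝ E] (hs : Convex ℝ s) {x y z : E}
    (hy : y ∈ intrinsicInterior ℝ s)
    (hz : z ∈ closure s) (hx : x ∈ openSegment ℝ y z) : x ∈ intrinsicInterior ℝ s := by
  obtain ⟨hya, ε, hε, h⟩ := mem_ri.1 hy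
  obtain ⟨a, b, ha, hb, hab, rfl⟩ := hx
  have hza : z ∈ affineSpan ℝ s := by
    have : closure s ⊆ (affineSpan ℝ s : Set E) := by
      apply closure_minimal (subset_affineSpan ℝ s)
      exact AffineSubspace.closed_of_finiteDimensional _
    exact this hz
  have hxa : a • y + b • z ∈ affineSpan ℝ s := by
    have := aff_comb hya hza hya b
    have e : y + b • (z - y) = a • y + b • z := by
      rw [show a = 1 - b by linarith]; module
    rwa [e] at this
  rw [mem_ri]
  refine ⟨hxa, a * ε / 2, by positivity, fun w hw hd => ?_⟩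
  -- a point of `s` close to `z`
  obtain ⟨z', hz's, hz'd⟩ := Metric.mem_closure_iff.1 hz (a * ε / (2 * b)) (by positivity)
  have hz'a := subset_affineSpan ℝ s hz's
  have hy'' : y + (1 / a) • ((w - (a • y + b • z)) + b • (z - z')) ∈ s := by
    apply h
    · have h1 := aff_comb hya hw hxa (1 / a)
      have h2 := aff_comb h1 hza hz'a ((1 / a) * b)
      convert h2 using 1
      module
    · rw [dist_eq_norm, add_sub_cancel_left, norm_smul, Real.norm_of_nonneg (by positivity)]
      have n1 : ‖w - (a • y + b • z)‖ < a * ε / 2 := by rwa [dist_eq_norm] at hd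
      have n2 : ‖b • (z - z')‖ < a * ε / 2 := by
        rw [norm_smul, Real.norm_of_nonneg hb.le, ← dist_eq_norm]
        calc b * dist z z' < b * (a * ε / (2 * b)) := by
              exact mul_lt_mul_of_pos_left hz'd hb
          _ = a * ε / 2 := by field_simp
      calc 1 / a * ‖w - (a • y + b • z) + b • (z - z')‖
          ≤ 1 / a * (‖w - (a • y + b • z)‖ + ‖b • (z - z')‖) :=
            mul_le_mul_of_nonneg_left (norm_add_le _ _) (by positivity)
        _ < 1 / a * (a * ε / 2 + a * ε / 2) := by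
            apply mul_lt_mul_of_pos_left (add_lt_add n1 n2) (by positivity)
        _ = ε := by field_simp; ring
  have := hs hy'' hz's ha.le hb.le hab
  convert this using 1
  rw [smul_add, smul_smul, mul_one_div_cancel ha.ne', one_smul]
  module

/-- a positive relation of the points of `S` around `x` -/
def PosRel (S : Finset E) (x : E) : Prop :=
  ∃ w : E → ℝ, (∀ s ∈ S, 0 < w s) ∧ ∑ s ∈ S, w s • (s - x) = 0

theorem posRel_of_ri {A : Finset E} {x : E} (hx : x ∈ intrinsicInterior ℝ (convexHull ℝ (A : Set E))) :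
    PosRel A x := by
  have hne : A.Nonempty := by
    by_contra hcon
    rw [Finset.not_nonempty_iff_eq_empty] at hcon
    rw [hcon] at hx
    simp at hx
  have hcard : (0 : ℝ) < A.card := by exact_mod_cast Finset.card_pos.2 hne
  set c : E := ∑ a ∈ A, (1 / (A.card : ℝ)) • a with hc
  have hcA : c ∈ convexHull ℝ (A : Set E) := by
    rw [Finset.mem_convexHull']
    refine ⟨fun _ => 1 / (A.card : ℝ), fun _ _ => by positivity, ?_, hc.symm⟩
    rw [Finset.sum_const, nsmul_eq_mul, mul_one_div_cancel hcard.ne']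
  obtain ⟨z, hz, hxz⟩ := extend_ri hx hcA
  obtain ⟨α, β, hα, hβ, hαβ, hxe⟩ := hxz
  obtain ⟨μ, hμ0, hμ1, hμz⟩ := Finset.mem_convexHull'.1 hz
  refine ⟨fun a => α * (1 / (A.card : ℝ)) + β * μ a, fun a ha => ?_, ?_⟩
  · have := hμ0 a ha
    positivity
  · have e1 : ∑ s ∈ A, (α * (1 / (A.card : ℝ)) + β * μ s) • (s - x) =
        α • c + β • z - (α * ∑ s ∈ A, (1 / (A.card : ℝ)) + β * ∑ s ∈ A, μ s) • x := by
      rw [hc, ← hμz, Finset.smul_sum, Finset.smul_sum, Finset.mul_sum, Finset.mul_sum,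
        ← Finset.sum_add_distrib, ← Finset.sum_add_distrib, Finset.sum_smul,
        ← Finset.sum_sub_distrib]
      refine Finset.sum_congr rfl fun a _ => ?_
      module
    rw [e1, hμ1, Finset.sum_const, nsmul_eq_mul, mul_one_div_cancel hcard.ne', mul_one, mul_one,
      hαβ, one_smul, hxe, sub_self]

theorem ri_of_posRel [FiniteDimensional ℝ E] {A : Finset E} {x : E} (hne : A.Nonempty)
    (h : PosRel A x) : x ∈ intrinsicInterior ℝ (convexHull ℝ (A : Set E)) := by
  obtain ⟨w0, hw0, hrel⟩ := h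
  set W : ℝ := ∑ s ∈ A, w0 s with hW
  have hWpos : 0 < W := Finset.sum_pos hw0 hne
  set w : E → ℝ := fun s => w0 s / W with hw
  have hwpos : ∀ s ∈ A, 0 < w s := fun s hs => div_pos (hw0 s hs) hWpos
  have hwsum : ∑ s ∈ A, w s = 1 := by
    rw [hw, ← Finset.sum_div, div_self hWpos.ne']
  have hwx : ∑ s ∈ A, w s • s = x := by
    have e1 : ∑ s ∈ A, w s • s = (1 / W) • ∑ s ∈ A, w0 s • (s - x) + (∑ s ∈ A, w s) • x := by
      rw [Finset.smul_sum, Finset.sum_smul, ← Finset.sum_add_distrib]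
      refine Finset.sum_congr rfl fun a _ => ?_
      rw [hw]
      simp only
      rw [div_eq_mul_one_div]
      module
    rw [e1, hrel, smul_zero, zero_add, hwsum, one_smul]
  have hconv := convex_convexHull ℝ (A : Set E)
  obtain ⟨y, hy⟩ := Set.Nonempty.intrinsicInterior hconv
    (convexHull_nonempty_iff.2 (Finset.coe_nonempty.2 hne))
  have hyA := intrinsicInterior_subset hy
  obtain ⟨μ, hμ0, hμ1, hμy⟩ := Finset.mem_convexHull'.1 hyA
  obtain ⟨m, hmA, hmin⟩ := Finset.exists_min_image A w hne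
  have hm1 : w m ≤ 1 := by
    rw [← hwsum]
    exact Finset.single_le_sum (fun s hs => (hwpos s hs).le) hmA
  set ε : ℝ := w m / 2 with hε
  have hε0 : 0 < ε := by have := hwpos m hmA; positivity
  have hε1 : ε < 1 := by rw [hε]; linarith
  have hεμ : ∀ s ∈ A, 0 ≤ w s - ε * μ s := by
    intro s hs
    have h1 : μ s ≤ 1 := by
      rw [← hμ1]; exact Finset.single_le_sum hμ0 hs
    have h2 := hmin s hs
    have h3 : ε * μ s ≤ ε * 1 := mul_le_mul_of_nonneg_left h1 hε0.le
    have h4 := hwpos m hmA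
    rw [hε] at h3 ⊢
    linarith
  set z : E := ∑ s ∈ A, ((w s - ε * μ s) / (1 - ε)) • s with hz
  have hzA : z ∈ convexHull ℝ (A : Set E) := by
    rw [Finset.mem_convexHull']
    refine ⟨fun s => (w s - ε * μ s) / (1 - ε), fun s hs =>
      div_nonneg (hεμ s hs) (by linarith), ?_, hz.symm⟩
    rw [← Finset.sum_div, Finset.sum_sub_distrib, ← Finset.mul_sum, hμ1, hwsum, mul_one,
      div_self (by linarith)]
  refine segment_ri hconv hy (subset_closure hzA) ⟨ε, 1 - ε, hε0, by linarith, by ring, ?_⟩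
  rw [hz, ← hμy, Finset.smul_sum, Finset.smul_sum, ← Finset.sum_add_distrib, ← hwx]
  refine Finset.sum_congr rfl fun s _ => ?_
  have h1 : (1 - ε) ≠ 0 := by linarith
  rw [smul_smul, smul_smul, ← add_smul]
  congr 1
  field_simp
  ring

theorem convex_of_posRel {S : Finset E} {x : E} (hne : S.Nonempty) (h : PosRel S x) :
    x ∈ convexHull ℝ (S : Set E) := by
  obtain ⟨w0, hw0, hrel⟩ := h
  set W : ℝ := ∑ s ∈ S, w0 s with hW
  have hWpos : 0 < W := Finset.sum_pos hw0 hne
  rw [Finset.mem_convexHull']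
  refine ⟨fun s => w0 s / W, fun s hs => (div_pos (hw0 s hs) hWpos).le, ?_, ?_⟩
  · rw [← Finset.sum_div, div_self hWpos.ne']
  · have e1 : ∑ s ∈ S, (w0 s / W) • s = (1 / W) • ∑ s ∈ S, w0 s • (s - x) +
        (∑ s ∈ S, w0 s / W) • x := by
      rw [Finset.smul_sum, Finset.sum_smul, ← Finset.sum_add_distrib]
      refine Finset.sum_congr rfl fun a _ => ?_
      rw [div_eq_mul_one_div]
      module
    rw [e1, hrel, smul_zero, zero_add, ← Finset.sum_div, div_self hWpos.ne', one_smul]

end Q144.RI
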