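import Mathlib
import Pool.Agent.Q16.SQ.Stm5
import Pool.Agent.Helper549.Tri.Basic
set_option autoImplicit false
noncomputable section
open scoped BigOperators
open Pool.Agent.Helper549.Tri

namespace Pool.Agent.Q144.SQTOPD

open Pool.Agent.Helper549.Tri.Basic Q16.SQ

theorem dense_ne (g : ℂ → ℝ) (d : ℂ) (c : ℝ) (hc : c ≠ 0)
    (h : ∀ (w : ℂ) (s : ℝ), g (w + (s : ℂ) * d) = g w + s * c) : Dense {w | g w ≠ 0} := by
  rw [Metric.dense_iff]
  intro x r hr
  by_cases hx : g x = 0
  · have hp : 0 < r / (2 * (‖d‖ + 1)) := by positivity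
    refine ⟨x + ((r / (2 * (‖d‖ + 1)) : ℝ) : ℂ) * d, ?_, ?_⟩
    · rw [Metric.mem_ball, dist_eq_norm, add_sub_cancel_left, norm_mul, Complex.norm_real,
        Real.norm_of_nonneg hp.le, div_mul_eq_mul_div, div_lt_iff₀ (by positivity)]
      nlinarith [norm_nonneg d]
    · show g _ ≠ 0
      rw [h, hx, zero_add]
      exact mul_ne_zero hp.ne' hc
  · exact ⟨x, Metric.mem_ball_self hr, hx⟩

theorem open_dense_G (v : Fin 3 → ℂ) (hv : 0 < dd v) :
    IsOpen {w | Gw v w} ∧ Dense {w | Gw v w} := by
  have he : {w | Gw v w} = ⋂ k : Fin 3, ({w : ℂ | (v k).im - w.im ≠ 0} ∩ {w | lam v k w ≠ 0}) := by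
    ext w
    simp only [Gw, Set.mem_setOf_eq, Set.mem_iInter, Set.mem_inter_iff, sub_ne_zero]
  have ho1 : ∀ k : Fin 3, IsOpen {w : ℂ | (v k).im - w.im ≠ 0} := fun k =>
    isOpen_ne_fun (by fun_prop) (by fun_prop)
  have ho2 : ∀ k : Fin 3, IsOpen {w : ℂ | lam v k w ≠ 0} := fun k =>
    isOpen_ne_fun (lam_cont v k) (by fun_prop)
  have hd1 : ∀ k : Fin 3, Dense {w : ℂ | (v k).im - w.im ≠ 0} := fun k =>
    dense_ne (fun w => (v k).im - w.im) Complex.I (-1) (by norm_num) (by
      intro w s
      simp only [Complex.add_im, Complex.mul_im, Complex.ofReal_re, Complex.ofReal_im,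
        Complex.I_re, Complex.I_im]
      ring)
  have hd2 : ∀ k : Fin 3, Dense {w : ℂ | lam v k w ≠ 0} := fun k =>
    dense_ne (lam v k) (v k - v (k + 1)) (dd v) hv.ne' (by
      intro w s
      have h1 := lam_self v k
      rw [← h1]
      simp only [lam, cr, Complex.add_re, Complex.add_im, Complex.sub_re, Complex.sub_im,
        Complex.mul_re, Complex.mul_im, Complex.ofReal_re, Complex.ofReal_im]
      ring)
  rw [he]
  constructor
  · exact isOpen_iInter_of_finite fun k => (ho1 k).inter (ho2 k)
  · exact dense_iInter_of_isOpen (fun k => (ho1 k).inter (ho2 k))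
      (fun k => (hd1 k).inter_of_isOpen_left (hd2 k) (ho1 k))

theorem hull_eq (v : Fin 3 → ℂ) (hv : 0 < dd v) : hull v = closure (interior (hull v)) := by
  have hne : (interior (hull v)).Nonempty := by
    refine ⟨(1 / 3 : ℝ) • v 0 + (2 / 3 : ℝ) • ((1 / 2 : ℝ) • v 1 + (1 / 2 : ℝ) • v 2), ?_⟩
    rw [mem_int v hv]
    intro k
    rw [lam_affine v k _ _ _ _ (by norm_num), lam_affine v k _ _ _ _ (by norm_num)]
    obtain rfl | rfl | rfl := fin3_cases k <;>
    · simp only [lam, sd, dd, cr, e01, e02, e11, e12, e21, e22, Complex.sub_re, Complex.sub_im]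
        at hv ⊢
      nlinarith
  have hc : Convex ℝ (hull v) := convex_convexHull ℝ _
  rw [hc.closure_interior_eq_closure_of_nonempty_interior hne, (hull_closed v).closure_eq]

open Classical in
theorem t_TOPD : S_TOPD := by
  intro N T t hT ht hsum
  set D : Set ℂ := {w | Gw T w} ∩ ⋂ i, {w | Gw (t i) w} with hD
  have hDd : Dense D := by
    refine (open_dense_G T hT).2.inter_of_isOpen_left ?_ (open_dense_G T hT).1
    exact dense_iInter_of_isOpen (fun i => (open_dense_G (t i) (ht i)).1)
      (fun i => (open_dense_G (t i) (ht i)).2)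
  have hS : ∀ w ∈ D, (∑ i, if w ∈ interior (hull (t i)) then (1 : ℝ) else 0) =
      if w ∈ interior (hull T) then (1 : ℝ) else 0 := by
    intro w hw
    exact hsum w hw.1 (fun i => Set.mem_iInter.1 hw.2 i)
  refine ⟨hT, ht, ?_, ?_⟩
  · apply Set.Subset.antisymm
    · apply Set.iUnion_subset
      intro i
      rw [hull_eq (t i) (ht i)]
      apply closure_minimal _ (hull_closed T)
      refine (hDd.open_subset_closure_inter isOpen_interior).trans ?_
      apply closure_minimal _ (hull_closed T)
      rintro w ⟨hw1, hw2⟩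
      have h1 := hS w hw2
      have h2 : (if w ∈ interior (hull (t i)) then (1 : ℝ) else 0) ≤
          ∑ i, if w ∈ interior (hull (t i)) then (1 : ℝ) else 0 :=
        Finset.single_le_sum (f := fun i => if w ∈ interior (hull (t i)) then (1 : ℝ) else 0)
          (fun j _ => by split_ifs <;> norm_num) (Finset.mem_univ i)
      rw [if_pos hw1, h1] at h2
      by_contra h3
      have h4 : w ∉ interior (hull T) := fun h => h3 (interior_subset h)
      rw [if_neg h4] at h2
      linarith
    · rw [hull_eq T hT]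
      have hcl : IsClosed (⋃ i, hull (t i)) := isClosed_iUnion_of_finite fun i => hull_closed (t i)
      apply closure_minimal _ hcl
      refine (hDd.open_subset_closure_inter isOpen_interior).trans ?_
      apply closure_minimal _ hcl
      rintro w ⟨hw1, hw2⟩
      have h1 := hS w hw2
      rw [if_pos hw1] at h1
      by_contra h3
      have h4 : (∑ i, if w ∈ interior (hull (t i)) then (1 : ℝ) else 0) = 0 := by
        apply Finset.sum_eq_zero
        intro i _
        rw [if_neg]
        intro h
        exact h3 (Set.mem_iUnion.2 ⟨i, interior_subset h⟩)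
      rw [h4] at h1
      norm_num at h1
  · intro i j hij
    rw [Set.disjoint_iff_inter_eq_empty]
    by_contra hne
    have hne' := Set.nonempty_iff_ne_empty.2 hne
    obtain ⟨w, hw1, hw2⟩ := hDd.inter_open_nonempty _ (isOpen_interior.inter isOpen_interior) hne'
    have h1 := hS w hw2
    have h2 : (∑ k ∈ ({i, j} : Finset (Fin N)), if w ∈ interior (hull (t k)) then (1 : ℝ) else 0) ≤
        ∑ k, if w ∈ interior (hull (t k)) then (1 : ℝ) else 0 :=
      Finset.sum_le_sum_of_subset_of_nonneg (Finset.subset_univ _)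
        (fun k _ _ => by split_ifs <;> norm_num)
    rw [Finset.sum_pair hij, if_pos hw1.1, if_pos hw1.2, h1] at h2
    split_ifs at h2 <;> linarith

end Pool.Agent.Q144.SQTOPD
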