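import Pool.Agent.Q144.RelInt

set_option autoImplicit false

/-! A Steinitz type theorem with prescribed points. -/

namespace Q144.RI

variable {E : Type} [NormedAddCommGroup E] [NormedSpace ℝ E] [FiniteDimensional ℝ E]

/-- span of the differences -/
def L (S : Finset E) (x : E) : Submodule ℝ E := Submodule.span ℝ ((fun s => s - x) '' (S : Set E))

omit [FiniteDimensional ℝ E] in
theorem L_mono {S S' : Finset E} (x : E) (h : S ⊆ S') : L S x ≤ L S' x :=
  Submodule.span_mono (Set.image_mono (Finset.coe_subset.2 h))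

omit [FiniteDimensional ℝ E] in
theorem mem_L {S : Finset E} {x s : E} (h : s ∈ S) : s - x ∈ L S x :=
  Submodule.subset_span ⟨s, h, rfl⟩

omit [FiniteDimensional ℝ E] in
theorem rep {S : Finset E} {x v : E} (h : v ∈ L S x) :
    ∃ c : E → ℝ, ∑ s ∈ S, c s • (s - x) = v :=
  (Submodule.mem_span_image_finset_iff_exists_fun' ℝ).1 h

omit [FiniteDimensional ℝ E] in
theorem glue [DecidableEq E] {S N : Finset E} {x : E} (hS : PosRel S x) (hd : Disjoint S N)
    {u : E → ℝ} (hu : ∀ s ∈ N, 0 < u s) (h : ∑ s ∈ N, u s • (s - x) ∈ L S x) :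
    PosRel (S ∪ N) x := by
  obtain ⟨ω, hω, hrel⟩ := hS
  obtain ⟨c, hc⟩ := rep ((L S x).neg_mem h)
  set M : ℝ := ∑ s ∈ S, |c s| / ω s + 1 with hM
  have hpos : ∀ s ∈ S, 0 < c s + M * ω s := by
    intro s hs
    have h1 : |c s| / ω s ≤ ∑ s ∈ S, |c s| / ω s :=
      Finset.single_le_sum (f := fun s => |c s| / ω s)
        (fun s hs => div_nonneg (abs_nonneg _) (hω s hs).le) hs
    have h2 : |c s| / ω s * ω s = |c s| := div_mul_cancel₀ _ (hω s hs).ne'
    have h3 : (|c s| / ω s + 1) * ω s ≤ M * ω s :=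
      mul_le_mul_of_nonneg_right (by linarith) (hω s hs).le
    have h4 := neg_abs_le (c s)
    have h5 := hω s hs
    nlinarith
  refine ⟨fun s => if s ∈ S then c s + M * ω s else u s, ?_, ?_⟩
  · intro s hs
    by_cases hsS : s ∈ S
    · simp only [hsS, if_true]; exact hpos s hsS
    · simp only [hsS, if_false]
      exact hu s ((Finset.mem_union.1 hs).resolve_left hsS)
  · rw [Finset.sum_union hd]
    have e1 : ∑ s ∈ S, (if s ∈ S then c s + M * ω s else u s) • (s - x) =
        - ∑ s ∈ N, u s • (s - x) := by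
      calc _ = ∑ s ∈ S, (c s + M * ω s) • (s - x) :=
            Finset.sum_congr rfl fun s hs => by rw [if_pos hs]
        _ = ∑ s ∈ S, c s • (s - x) + M • ∑ s ∈ S, ω s • (s - x) := by
            rw [Finset.smul_sum, ← Finset.sum_add_distrib]
            refine Finset.sum_congr rfl fun s _ => ?_
            module
        _ = _ := by rw [hrel, smul_zero, add_zero, hc]
    have e2 : ∑ s ∈ N, (if s ∈ S then c s + M * ω s else u s) • (s - x) =
        ∑ s ∈ N, u s • (s - x) :=
      Finset.sum_congr rfl fun s hs => by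
        rw [if_neg (fun h => Finset.disjoint_left.1 hd h hs)]
    rw [e1, e2, neg_add_cancel]

/-- one extension step -/
theorem step [DecidableEq E] {A S : Finset E} {x : E} (hA : PosRel A x) (hSA : S ⊆ A)
    (hS : PosRel S x) (hne : L S x ≠ L A x) :
    ∃ S', S ⊆ S' ∧ S' ⊆ A ∧ PosRel S' x ∧
      Module.finrank ℝ (L S x) < Module.finrank ℝ (L S' x) ∧
      S'.card + 2 * Module.finrank ℝ (L S x) ≤ S.card + 2 * Module.finrank ℝ (L S' x) := by
  classical
  obtain ⟨w, hw, hrel⟩ := hA
  set π := (L S x).mkQ with hπ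
  have hπ0 : ∀ v, π v = 0 ↔ v ∈ L S x := by
    intro v
    rw [hπ, Submodule.mkQ_apply, Submodule.Quotient.mk_eq_zero]
  -- points not killed by the projection
  set A1 := A.filter (fun a => π (a - x) ≠ 0) with hA1
  have hA1ne : A1.Nonempty := by
    by_contra hcon
    rw [Finset.not_nonempty_iff_eq_empty, Finset.filter_eq_empty_iff] at hcon
    apply hne
    apply le_antisymm (L_mono x hSA)
    rw [L, Submodule.span_le]
    rintro _ ⟨a, ha, rfl⟩
    have := hcon ha
    push Not at this
    exact (hπ0 _).1 this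
  have hrel1 : ∑ a ∈ A1, w a • π (a - x) = 0 := by
    have h1 : ∑ a ∈ A, w a • π (a - x) = 0 := by
      have := congrArg π hrel
      rw [map_sum, map_zero] at this
      simpa only [map_smul] using this
    rw [← h1, hA1]
    apply Finset.sum_filter_of_ne
    intro a _ h h0
    exact h (by rw [h0, smul_zero])
  have hW : 0 < ∑ a ∈ A1, w a :=
    Finset.sum_pos (fun a ha => hw a (Finset.mem_filter.1 ha).1) hA1ne
  have h0mem : (0 : E ⧸ L S x) ∈ convexHull ℝ ((fun a => π (a - x)) '' (A1 : Set E)) := by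
    have h2 : A1.centerMass w (fun a => π (a - x)) ∈
        convexHull ℝ ((fun a => π (a - x)) '' (A1 : Set E)) := by
      apply Finset.centerMass_mem_convexHull _ (fun a ha => (hw a (Finset.mem_filter.1 ha).1).le) hW
      intro a ha
      exact ⟨a, ha, rfl⟩
    have h3 : A1.centerMass w (fun a => π (a - x)) = 0 := by
      unfold Finset.centerMass
      rw [hrel1, smul_zero]
    rwa [h3] at h2
  obtain ⟨ι, hι, z, c, hz, haff, hc, hc1, hcz⟩ := eq_pos_convex_span_of_mem_convexHull h0mem
  choose t ht htz using fun i => hz (Set.mem_range_self i)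
  have htA1 : ∀ i, t i ∈ A1 := fun i => ht i
  have htinj : Function.Injective t := by
    intro i j hij
    apply haff.injective
    rw [← htz i, ← htz j, hij]
  have hcardpos : 0 < Fintype.card ι := by
    rw [Fintype.card_pos_iff]
    by_contra hcon
    rw [not_nonempty_iff] at hcon
    rw [Finset.univ_eq_empty, Finset.sum_empty] at hc1
    exact zero_ne_one hc1
  have hcard2 : 2 ≤ Fintype.card ι := by
    by_contra hcon
    have hc1' : Fintype.card ι = 1 := by omega
    obtain ⟨i, hi⟩ := Fintype.card_eq_one_iff.1 hc1'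
    have huniv : (Finset.univ : Finset ι) = {i} := by
      ext j; simp [hi j]
    rw [huniv, Finset.sum_singleton] at hcz
    have h1 : z i = 0 := by
      rcases smul_eq_zero.1 hcz with h | h
      · exact absurd h (hc i).ne'
      · exact h
    have h2 := (Finset.mem_filter.1 (htA1 i)).2
    apply h2
    rw [← h1]; exact htz i
  set N : Finset E := Finset.univ.image t with hN
  have hNcard : N.card = Fintype.card ι := by
    rw [hN, Finset.card_image_of_injective _ htinj, Finset.card_univ]
  have hdis : Disjoint S N := by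
    rw [Finset.disjoint_left]
    intro s hs hsN
    obtain ⟨i, -, rfl⟩ := Finset.mem_image.1 hsN
    exact (Finset.mem_filter.1 (htA1 i)).2 ((hπ0 _).2 (mem_L hs))
  have hNA : N ⊆ A := by
    intro s hs
    obtain ⟨i, -, rfl⟩ := Finset.mem_image.1 hs
    exact (Finset.mem_filter.1 (htA1 i)).1
  -- weights on `N`
  obtain ⟨u, hu⟩ : ∃ u : E → ℝ, ∀ i, u (t i) = c i :=
    ⟨fun e => if h : ∃ i, t i = e then c h.choose else 0, fun i => by
      have hex : ∃ j, t j = t i := ⟨i, rfl⟩
      simp only [hex, dif_pos]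
      rw [htinj hex.choose_spec]⟩
  have hsum : ∑ s ∈ N, u s • (s - x) ∈ L S x := by
    rw [← hπ0, hN, Finset.sum_image (fun i _ j _ h => htinj h), map_sum]
    rw [← hcz]
    refine Finset.sum_congr rfl fun i _ => ?_
    rw [map_smul, hu i]
    congr 1
    exact htz i
  have hpr := glue hS hdis (u := u) (by
    intro s hs
    obtain ⟨i, -, rfl⟩ := Finset.mem_image.1 hs
    rw [hu i]; exact hc i) hsum
  refine ⟨S ∪ N, Finset.subset_union_left, Finset.union_subset hSA hNA, hpr, ?_⟩
  -- dimension count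
  set L' := L (S ∪ N) x with hL'
  have hLL' : L S x ≤ L' := L_mono x Finset.subset_union_left
  set f := π.domRestrict L' with hf
  have hrank := LinearMap.finrank_range_add_finrank_ker f
  have hker : Module.finrank ℝ (L S x) ≤ Module.finrank ℝ (LinearMap.ker f) := by
    apply LinearMap.finrank_le_finrank_of_injective
      (f := (Submodule.inclusion hLL').codRestrict (LinearMap.ker f) (by
        intro v
        rw [LinearMap.mem_ker, hf]
        exact (hπ0 _).2 v.2))
    intro v v' h
    have h1 := congrArg Subtype.val h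
    have h2 : ((Submodule.inclusion hLL' v : L') : E) = (Submodule.inclusion hLL' v' : L') :=
      congrArg Subtype.val h1
    exact Subtype.ext h2
  have hrange : Fintype.card ι - 1 ≤ Module.finrank ℝ (LinearMap.range f) := by
    have h1 := haff.finrank_vectorSpan (n := Fintype.card ι - 1) (by omega)
    rw [← h1]
    apply Submodule.finrank_mono
    rw [vectorSpan_def, Submodule.span_le]
    rintro _ ⟨_, ⟨i, rfl⟩, _, ⟨j, rfl⟩, rfl⟩
    have hi : t i - x ∈ L' := mem_L (Finset.mem_union_right _
      (Finset.mem_image_of_mem t (Finset.mem_univ i)))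
    have hj : t j - x ∈ L' := mem_L (Finset.mem_union_right _
      (Finset.mem_image_of_mem t (Finset.mem_univ j)))
    refine ⟨⟨t i - x, hi⟩ - ⟨t j - x, hj⟩, ?_⟩
    rw [hf, map_sub]
    show π (t i - x) - π (t j - x) = z i -ᵥ z j
    rw [vsub_eq_sub]
    exact congrArg₂ _ (htz i) (htz j)
  rw [Finset.card_union_of_disjoint hdis, hNcard]
  omega

/-- Steinitz's theorem with prescribed points -/
theorem steinitz [DecidableEq E] {A : Finset E} {x : E} (hA : PosRel A x) :
    ∀ (m : ℕ) (S : Finset E), S ⊆ A → PosRel S x →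
    Module.finrank ℝ (L A x) ≤ Module.finrank ℝ (L S x) + m →
    S.card ≤ 2 * Module.finrank ℝ (L S x) + 1 →
    ∃ S', S ⊆ S' ∧ S' ⊆ A ∧ PosRel S' x ∧ L S' x = L A x ∧
      S'.card ≤ 2 * Module.finrank ℝ (L A x) + 1 := by
  intro m
  induction m with
  | zero =>
    intro S hSA hS hd hcard
    have heq : L S x = L A x :=
      Submodule.eq_of_le_of_finrank_le (L_mono x hSA) (by simpa using hd)
    exact ⟨S, Finset.Subset.refl _, hSA, hS, heq, by rw [← heq]; exact hcard⟩
  | succ m ih =>
    intro S hSA hS hd hcard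
    by_cases heq : L S x = L A x
    · exact ⟨S, Finset.Subset.refl _, hSA, hS, heq, by rw [← heq]; exact hcard⟩
    · obtain ⟨S1, h1, h2, h3, h4, h5⟩ := step hA hSA hS heq
      obtain ⟨S', g1, g2, g3, g4, g5⟩ := ih S1 h2 h3 (by omega) (by omega)
      exact ⟨S', h1.trans g1, g2, g3, g4, g5⟩

/-- the relation extends to larger subsets once the span is full -/
theorem enlarge [DecidableEq E] {A S S'' : Finset E} {x : E} (hS : PosRel S x)
    (hL : L S x = L A x) (h1 : S ⊆ S'') (h2 : S'' ⊆ A) : PosRel S'' x := by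
  have hg := glue hS (N := S'' \ S) Finset.disjoint_sdiff (u := fun _ => 1)
    (fun _ _ => one_pos) (by
      apply Submodule.sum_mem
      intro s hs
      apply Submodule.smul_mem
      rw [hL]
      exact mem_L (h2 (Finset.mem_sdiff.1 hs).1))
  rwa [Finset.union_sdiff_of_subset h1] at hg

/-- the key statement -/
theorem key [DecidableEq E] {A B : Finset E} {k : ℕ} {x : E}
    (hk : k ≤ 2 * Module.finrank ℝ E + 1) (hBA : B ⊆ A) (hBk : B.card = k)
    (hxB : x ∈ convexHull ℝ (B : Set E))
    (hxA : x ∈ intrinsicInterior ℝ (convexHull ℝ (A : Set E))) :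
    ∃ S C : Finset E, S ⊆ A ∧ S.card ≤ 2 * Module.finrank ℝ E + 1 ∧ C ⊆ S ∧ C.card = k ∧
      x ∈ convexHull ℝ (C : Set E) ∧ x ∈ intrinsicInterior ℝ (convexHull ℝ (S : Set E)) ∧
      L S x = L A x := by
  have hA := posRel_of_ri hxA
  obtain ⟨ι, hι, z, c, hz, haff, hc, hc1, hcz⟩ := eq_pos_convex_span_of_mem_convexHull hxB
  have hcardpos : 0 < Fintype.card ι := by
    rw [Fintype.card_pos_iff]
    by_contra hcon
    rw [not_nonempty_iff] at hcon
    rw [Finset.univ_eq_empty, Finset.sum_empty] at hc1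
    exact zero_ne_one hc1
  set S0 : Finset E := Finset.univ.image z with hS0
  have hS0card : S0.card = Fintype.card ι := by
    rw [hS0, Finset.card_image_of_injective _ haff.injective, Finset.card_univ]
  have hS0B : S0 ⊆ B := by
    intro s hs
    obtain ⟨i, -, rfl⟩ := Finset.mem_image.1 hs
    exact hz (Set.mem_range_self i)
  have hS0ne : S0.Nonempty := by
    rw [← Finset.card_pos, hS0card]; exact hcardpos
  have hS0rel : PosRel S0 x := by
    obtain ⟨u, hu⟩ : ∃ u : E → ℝ, ∀ i, u (z i) = c i :=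
      ⟨fun e => if h : ∃ i, z i = e then c h.choose else 0, fun i => by
        have hex : ∃ j, z j = z i := ⟨i, rfl⟩
        simp only [hex, dif_pos]
        rw [haff.injective hex.choose_spec]⟩
    refine ⟨u, ?_, ?_⟩
    · intro s hs
      obtain ⟨i, -, rfl⟩ := Finset.mem_image.1 hs
      rw [hu i]; exact hc i
    · rw [hS0, Finset.sum_image (fun i _ j _ h => haff.injective h)]
      calc ∑ i, u (z i) • (z i - x) = ∑ i, c i • z i - (∑ i, c i) • x := by
            rw [Finset.sum_smul, ← Finset.sum_sub_distrib]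
            refine Finset.sum_congr rfl fun i _ => ?_
            rw [hu i, smul_sub]
        _ = 0 := by rw [hcz, hc1, one_smul, sub_self]
  have hS0L : Fintype.card ι - 1 ≤ Module.finrank ℝ (L S0 x) := by
    have h1 := haff.finrank_vectorSpan (n := Fintype.card ι - 1) (by omega)
    rw [← h1]
    apply Submodule.finrank_mono
    rw [vectorSpan_def, Submodule.span_le]
    rintro _ ⟨_, ⟨i, rfl⟩, _, ⟨j, rfl⟩, rfl⟩
    have e : z i -ᵥ z j = (z i - x) - (z j - x) := by rw [vsub_eq_sub]; abel
    show z i -ᵥ z j ∈ L S0 x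
    rw [e]
    exact Submodule.sub_mem _ (mem_L (Finset.mem_image_of_mem z (Finset.mem_univ i)))
      (mem_L (Finset.mem_image_of_mem z (Finset.mem_univ j)))
  obtain ⟨S1, h1, h2, h3, h4, h5⟩ := steinitz hA (Module.finrank ℝ (L A x)) S0
    (hS0B.trans hBA) hS0rel (by omega) (by omega)
  have hd : Module.finrank ℝ (L A x) ≤ Module.finrank ℝ E := Submodule.finrank_le _
  have hS0k : S0.card ≤ k := by rw [← hBk]; exact Finset.card_le_card hS0B
  have hkA : k ≤ A.card := by rw [← hBk]; exact Finset.card_le_card hBA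
  -- enlarge to at least `k` points
  obtain ⟨S2, g1, g2, g3, g4⟩ : ∃ S2, S1 ⊆ S2 ∧ S2 ⊆ A ∧ k ≤ S2.card ∧
      S2.card ≤ 2 * Module.finrank ℝ E + 1 := by
    rcases le_total k S1.card with h | h
    · exact ⟨S1, Finset.Subset.refl _, h2, h, by omega⟩
    · obtain ⟨S2, e1, e2, e3⟩ := Finset.exists_subsuperset_card_eq h2 h hkA
      exact ⟨S2, e1, e2, by omega, by omega⟩
  obtain ⟨C, c1, c2, c3⟩ := Finset.exists_subsuperset_card_eq (h1.trans g1) hS0k g3
  have hS2 : PosRel S2 x := enlarge h3 h4 g1 g2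
  refine ⟨S2, C, g2, g4, c2, c3, ?_, ?_, ?_⟩
  · exact convexHull_mono (Finset.coe_subset.2 c1) (convex_of_posRel hS0ne hS0rel)
  · exact ri_of_posRel (hS0ne.mono (h1.trans g1)) hS2
  · exact le_antisymm (L_mono x g2) (by rw [← h4]; exact L_mono x g1)

end Q144.RI
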