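import Mathlib

set_option autoImplicit false

/-! Volumetric Helly partition: the compactness part. -/

open MeasureTheory Metric Set

open scoped Pointwise

namespace Q144.VH

/-- `d`-space -/
abbrev E (d : ℕ) := EuclideanSpace ℝ (Fin d)

variable {d : ℕ}

theorem many_balls {C : Set (E d)} (hC : Convex ℝ C) {ρ : ℝ} (hρ : 0 < ρ) (hb : ball 0 ρ ⊆ C)
    {p : E d} (hp : p ∈ C) (m : ℕ) (hm : 1 ≤ m) (hpm : 2 * m * ρ ≤ ‖p‖) :
    (m : ENNReal) * volume (ball (0 : E d) (ρ / 2)) ≤
      volume (C ∩ closedBall (0 : E d) (2 * m * ρ)) := by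
  have hm1 : (1 : ℝ) ≤ m := by exact_mod_cast hm
  have hpn : 0 < ‖p‖ := lt_of_lt_of_le (by positivity) hpm
  set c : ℕ → E d := fun k => ((k : ℝ) * ρ / ‖p‖) • p with hc
  have hcn : ∀ k, ‖c k‖ = k * ρ := by
    intro k
    rw [hc]
    simp only
    rw [norm_smul, Real.norm_of_nonneg (by positivity)]
    field_simp
  have hcd : ∀ k l, k < l → ρ ≤ dist (c k) (c l) := by
    intro k l hkl
    have e : c l - c k = (((l : ℝ) - k) * ρ / ‖p‖) • p := by
      rw [hc]
      simp only
      rw [← sub_smul]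
      congr 1
      ring
    have hkl' : (1 : ℝ) ≤ (l : ℝ) - k := by
      have : (k : ℝ) + 1 ≤ l := by exact_mod_cast hkl
      linarith
    rw [dist_comm, dist_eq_norm, e, norm_smul, Real.norm_of_nonneg (by positivity)]
    have : ((l : ℝ) - k) * ρ / ‖p‖ * ‖p‖ = ((l : ℝ) - k) * ρ := by field_simp
    rw [this]
    nlinarith
  have hsub : ∀ k ∈ Finset.range m, ball (c k) (ρ / 2) ⊆ C ∩ closedBall (0 : E d) (2 * m * ρ) := by
    intro k hk x hx
    have hkm : (k : ℝ) + 1 ≤ m := by exact_mod_cast Finset.mem_range.1 hk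
    have hk0 : (0 : ℝ) ≤ k := Nat.cast_nonneg k
    set θ : ℝ := (k : ℝ) * ρ / ‖p‖ with hθ
    have hθ0 : 0 ≤ θ := by positivity
    have hθ1 : θ ≤ 1 / 2 := by
      rw [hθ, div_le_iff₀ hpn]
      nlinarith
    have hx' : ‖x - c k‖ < ρ / 2 := by rwa [mem_ball, dist_eq_norm] at hx
    constructor
    · have h1 : (1 / (1 - θ)) • (x - c k) ∈ ball (0 : E d) ρ := by
        rw [mem_ball_zero_iff, norm_smul, Real.norm_of_nonneg (by
          apply one_div_nonneg.2; linarith)]
        rw [one_div_mul_eq_div, div_lt_iff₀ (by linarith)]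
        nlinarith
      have h2 := hC hp (hb h1) hθ0 (show 0 ≤ 1 - θ by linarith) (by ring)
      have h3 : θ • p + (1 - θ) • (1 / (1 - θ)) • (x - c k) = x := by
        rw [smul_smul, mul_one_div_cancel (by linarith), one_smul, hc]
        simp only
        rw [← hθ]
        abel
      rwa [h3] at h2
    · rw [mem_closedBall_zero_iff]
      have h1 : ‖x‖ ≤ ‖x - c k‖ + ‖c k‖ := by
        have := norm_add_le (x - c k) (c k)
        rwa [sub_add_cancel] at this
      rw [hcn k] at h1
      nlinarith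
  have hdis : Set.PairwiseDisjoint (↑(Finset.range m) : Set ℕ) (fun k => ball (c k) (ρ / 2)) := by
    intro k _ l _ hkl
    rcases lt_or_gt_of_ne hkl with h | h
    · apply ball_disjoint_ball
      have := hcd k l h
      linarith
    · apply ball_disjoint_ball
      have := hcd l k h
      rw [dist_comm] at this
      linarith
  calc (m : ENNReal) * volume (ball (0 : E d) (ρ / 2))
      = ∑ k ∈ Finset.range m, volume (ball (c k) (ρ / 2)) := by
        simp_rw [Measure.addHaar_ball_center]
        rw [Finset.sum_const, Finset.card_range, nsmul_eq_mul]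
    _ = volume (⋃ k ∈ Finset.range m, ball (c k) (ρ / 2)) :=
        (measure_biUnion_finset hdis (fun _ _ => measurableSet_ball)).symm
    _ ≤ volume (C ∩ closedBall (0 : E d) (2 * m * ρ)) :=
        measure_mono (iUnion₂_subset hsub)

/-- partition lemma: convex sets containing a fixed ball, each of volume at least `D ≤ Dm` -/
theorem partition_lemma (d : ℕ) (hd : 1 ≤ d) (δ : ℝ) (hδ : 0 < δ) (hδ1 : δ < 1) (ρ : ℝ) (hρ : 0 < ρ) (Dm : ℝ) :
    ∃ r : ℕ, 0 < r ∧ ∀ (D : ℝ), 0 < D → D ≤ Dm → ∀ (ι : Type) [Fintype ι] (K : ι → Set (E d)),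
      (∀ i, Convex ℝ (K i)) → (∀ i, ball 0 ρ ⊆ K i) → (∀ i, ENNReal.ofReal D ≤ volume (K i)) →
      ∃ c : ι → Fin r, ∀ j, ENNReal.ofReal ((1 - δ) * D) ≤ volume (⋂ i ∈ {i | c i = j}, K i) := by
  classical
  -- radius
  have hvb : 0 < (volume (ball (0 : E d) (ρ / 2))).toReal :=
    ENNReal.toReal_pos (measure_ball_pos volume _ (by positivity)).ne' measure_ball_lt_top.ne
  set vb := (volume (ball (0 : E d) (ρ / 2))).toReal with hvbdef
  have hvbe : volume (ball (0 : E d) (ρ / 2)) = ENNReal.ofReal vb :=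
    (ENNReal.ofReal_toReal measure_ball_lt_top.ne).symm
  obtain ⟨m0, hm0⟩ := exists_nat_gt (Dm / vb)
  set m : ℕ := m0 + 1 with hm
  have hmD : Dm ≤ m * vb := by
    rw [div_lt_iff₀ hvb] at hm0
    have : (m : ℝ) = m0 + 1 := by rw [hm]; push_cast; ring
    rw [this]
    nlinarith
  set R : ℝ := 2 * m * ρ with hR
  -- shrinking factor
  obtain ⟨η, hη0, hη1, hηd⟩ : ∃ η : ℝ, 0 < η ∧ η < 1 ∧ 1 - δ ≤ (1 - η) ^ d := by
    refine ⟨δ / (d + 1), by positivity, ?_, ?_⟩
    · rw [div_lt_one (by positivity)]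
      have : (0 : ℝ) ≤ d := Nat.cast_nonneg d
      linarith
    · have h1 : -2 ≤ -(δ / ((d : ℝ) + 1)) := by
        have : δ / ((d : ℝ) + 1) ≤ 1 := by
          rw [div_le_one (by positivity)]
          have : (0 : ℝ) ≤ d := Nat.cast_nonneg d
          linarith
        linarith
      have h2 := one_add_mul_le_pow h1 d
      have h3 : (d : ℝ) * (δ / (d + 1)) ≤ δ := by
        rw [mul_div_assoc', div_le_iff₀ (by positivity)]
        nlinarith
      have h4 : (1 + -(δ / ((d : ℝ) + 1))) = 1 - δ / (d + 1) := by ring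
      rw [h4] at h2
      linarith
  set ε : ℝ := η * ρ / 4 with hε
  have hε0 : 0 < ε := by positivity
  obtain ⟨t, -, htcov⟩ := (isCompact_closedBall (0 : E d) R).elim_finite_subcover_image
    (b := univ) (c := fun p => ball p ε) (fun p _ => isOpen_ball)
    (fun x _ => mem_iUnion₂.2 ⟨x, mem_univ x, mem_ball_self hε0⟩) |> fun ⟨t, h1, h2, h3⟩ =>
      (⟨h2.toFinset, trivial, by simpa using h3⟩ : ∃ t : Finset (E d), True ∧
        closedBall (0 : E d) R ⊆ ⋃ p ∈ t, ball p ε)
  refine ⟨Fintype.card (Finset t), Fintype.card_pos, ?_⟩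
  intro D hD hDm ι _ K hKc hKb hKv
  set code : ι → Finset t := fun i =>
    Finset.univ.filter (fun p : t => ∃ x ∈ K i ∩ closedBall (0 : E d) R, dist x (p : E d) ≤ ε)
    with hcode
  set e := Fintype.equivFin (Finset t) with he
  refine ⟨fun i => e (code i), fun j => ?_⟩
  by_cases hne : ∃ i0, e (code i0) = j
  · obtain ⟨i0, hi0⟩ := hne
    -- volume of the truncated set
    have hvC : ENNReal.ofReal D ≤ volume (K i0 ∩ closedBall (0 : E d) R) := by
      by_cases hsub : K i0 ⊆ closedBall (0 : E d) R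
      · rw [inter_eq_left.2 hsub]; exact hKv i0
      · rw [not_subset] at hsub
        obtain ⟨p, hp, hpR⟩ := hsub
        rw [mem_closedBall_zero_iff, not_le] at hpR
        refine le_trans ?_ (many_balls (hKc i0) hρ (hKb i0) hp m (by omega) hpR.le)
        rw [hvbe, ← ENNReal.ofReal_natCast, ← ENNReal.ofReal_mul (Nat.cast_nonneg m)]
        exact ENNReal.ofReal_le_ofReal (hDm.trans hmD)
    -- the shrunken copy lies in every member of the class
    have hin : (1 - η) • (K i0 ∩ closedBall (0 : E d) R) ⊆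
        ⋂ i ∈ {i | (fun i => e (code i)) i = j}, K i := by
      rintro _ ⟨x, ⟨hxK, hxR⟩, rfl⟩
      refine mem_iInter₂.2 fun i hi => ?_
      have hcodei : code i0 = code i := by
        have h1 : e (code i) = j := hi
        exact e.injective (hi0.trans h1.symm)
      have hx2 := htcov hxR
      rw [mem_iUnion₂] at hx2
      obtain ⟨p, hpt, hxp⟩ := hx2
      have h1 : (⟨p, hpt⟩ : t) ∈ code i0 := by
        rw [hcode]
        simp only [Finset.mem_filter, Finset.mem_univ, true_and]
        exact ⟨x, ⟨hxK, hxR⟩, (mem_ball.1 hxp).le⟩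
      rw [hcodei, hcode] at h1
      simp only [Finset.mem_filter, Finset.mem_univ, true_and] at h1
      obtain ⟨x', ⟨hx'K, -⟩, hx'p⟩ := h1
      have hdist : ‖x - x'‖ < 2 * ε := by
        rw [← dist_eq_norm]
        have h2 := dist_triangle x p x'
        rw [mem_ball] at hxp
        rw [dist_comm p x'] at h2
        linarith
      have hz : ((1 - η) / η) • (x - x') ∈ ball (0 : E d) ρ := by
        rw [mem_ball_zero_iff, norm_smul, Real.norm_of_nonneg (by
          apply div_nonneg <;> linarith)]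
        rw [div_mul_eq_mul_div, div_lt_iff₀ hη0]
        have h3 : (1 - η) * ‖x - x'‖ ≤ 1 * ‖x - x'‖ :=
          mul_le_mul_of_nonneg_right (by linarith) (norm_nonneg _)
        rw [hε] at hdist
        nlinarith
      have h4 := hKc i hx'K (hKb i hz) (show 0 ≤ 1 - η by linarith) hη0.le (by ring)
      have h5 : (1 - η) • x' + η • ((1 - η) / η) • (x - x') = (1 - η) • x := by
        rw [smul_smul, mul_div_cancel₀ _ hη0.ne', ← smul_add]
        congr 1
        abel
      rw [h5] at h4
      exact h4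
    refine le_trans ?_ (measure_mono hin)
    rw [Measure.addHaar_smul]
    simp only [finrank_euclideanSpace, Fintype.card_fin]
    rw [abs_of_nonneg (by apply pow_nonneg; linarith)]
    calc ENNReal.ofReal ((1 - δ) * D) ≤ ENNReal.ofReal ((1 - η) ^ d * D) :=
          ENNReal.ofReal_le_ofReal (mul_le_mul_of_nonneg_right hηd hD.le)
      _ = ENNReal.ofReal ((1 - η) ^ d) * ENNReal.ofReal D :=
          ENNReal.ofReal_mul (by apply pow_nonneg; linarith)
      _ ≤ _ := by gcongr
  · have : (⋂ i ∈ {i | (fun i => e (code i)) i = j}, K i) = univ := by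
      refine eq_univ_of_forall fun x => mem_iInter₂.2 fun i hi => ?_
      exact absurd ⟨i, hi⟩ hne
    rw [this]
    have hinf : volume (univ : Set (E d)) = ⊤ := by
      have : Nonempty (Fin d) := ⟨⟨0, hd⟩⟩
      have : Nontrivial (E d) := inferInstance
      have : NoncompactSpace (E d) := NormedSpace.noncompactSpace ℝ (E d)
      exact measure_univ_of_isAddLeftInvariant volume
    rw [hinf]
    exact le_top

end Q144.VH
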