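import Pool.Agent.Q144.VHa

set_option autoImplicit false

/-! Volumetric Helly partition: extremal bases and the volume bound. -/

open MeasureTheory Metric Set

open scoped Pointwise

namespace Q144.VH

variable {d : ℕ}

/-- coordinate matrix of a family of vectors -/
noncomputable def mat (w : Fin d → E d) : Matrix (Fin d) (Fin d) ℝ := fun i j => w i j

theorem continuous_mat_det : Continuous (fun w : Fin d → E d => (mat w).det) := by
  apply Continuous.matrix_det
  unfold mat
  fun_prop

theorem mat_det_ne_zero {w : Fin d → E d} (hw : LinearIndependent ℝ w) : (mat w).det ≠ 0 := by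
  have h1 : LinearIndependent ℝ (mat w).row := by
    have h2 : LinearIndependent ℝ ((EuclideanSpace.equiv (Fin d) ℝ).toLinearMap ∘ w) :=
      hw.map' _ (LinearEquiv.ker _)
    exact h2
  have h3 := Matrix.linearIndependent_rows_iff_isUnit.1 h1
  rw [Matrix.isUnit_iff_isUnit_det] at h3
  exact h3.ne_zero

theorem linearIndependent_of_det {w : Fin d → E d} (hw : (mat w).det ≠ 0) :
    LinearIndependent ℝ w := by
  have h1 : LinearIndependent ℝ (mat w).row := by
    rw [Matrix.linearIndependent_rows_iff_isUnit, Matrix.isUnit_iff_isUnit_det]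
    exact isUnit_iff_ne_zero.2 hw
  exact LinearIndependent.of_comp (EuclideanSpace.equiv (Fin d) ℝ).toLinearMap h1

theorem exists_max_basis {S : Set (E d)} (hS : IsCompact S)
    (hspan : Submodule.span ℝ S = ⊤) :
    ∃ w : Fin d → E d, (∀ j, w j ∈ S) ∧ LinearIndependent ℝ w ∧
      ∀ x ∈ S, ∃ β : Fin d → ℝ, (∀ j, |β j| ≤ 1) ∧ x = ∑ j, β j • w j := by
  classical
  obtain ⟨f, hfS, -, hfi⟩ := Submodule.exists_fun_fin_finrank_span_eq ℝ S
  have hfr : Module.finrank ℝ (Submodule.span ℝ S) = d := by
    rw [hspan, finrank_top]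
    simp
  set w0 : Fin d → E d := fun j => f (finCongr hfr.symm j) with hw0
  have hw0i : LinearIndependent ℝ w0 := hfi.comp _ (finCongr hfr.symm).injective
  have hcomp : IsCompact (Set.univ.pi (fun _ : Fin d => S)) := isCompact_univ_pi fun _ => hS
  obtain ⟨w, hwS, hwmax⟩ := hcomp.exists_isMaxOn ⟨w0, fun j _ => hfS _⟩
    (continuous_mat_det.abs.continuousOn)
  have hwne : (mat w).det ≠ 0 := by
    intro h
    have h1 := hwmax (show w0 ∈ Set.univ.pi (fun _ : Fin d => S) from fun j _ => hfS _)
    simp only [h, abs_zero] at h1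
    exact mat_det_ne_zero hw0i (abs_eq_zero.1 (le_antisymm h1 (abs_nonneg _)))
  refine ⟨w, fun j => hwS j (mem_univ j), linearIndependent_of_det hwne, ?_⟩
  intro x hx
  set xv : Fin d → ℝ := fun i => x i with hxv
  set β : Fin d → ℝ := Matrix.vecMul xv (mat w)⁻¹ with hβ
  have hxe : x = ∑ j, β j • w j := by
    have h1 : Matrix.vecMul β (mat w) = xv := by
      rw [hβ, Matrix.vecMul_vecMul, Matrix.nonsing_inv_mul _ (isUnit_iff_ne_zero.2 hwne),
        Matrix.vecMul_one]
    rw [Matrix.vecMul_eq_sum] at h1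
    ext i
    have h2 := congrFun h1 i
    simp only [Finset.sum_apply, Pi.smul_apply] at h2
    simp only [hxv, mat] at h2
    rw [← h2]
    simp
  refine ⟨β, fun j => ?_, hxe⟩
  have h1 : (mat (Function.update w j x)).det = β j * (mat w).det := by
    have h2 : mat (Function.update w j x) = (mat w).updateRow j (∑ k, β k • (mat w) k) := by
      ext a b
      rw [Matrix.updateRow_apply]
      unfold mat
      rcases eq_or_ne a j with rfl | h
      · simp only [Function.update_self, if_true]
        conv_lhs => rw [hxe]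
        simp
      · simp [h]
    rw [h2, Matrix.det_updateRow_sum]
    rfl
  have h2 := hwmax (show Function.update w j x ∈ Set.univ.pi (fun _ : Fin d => S) by
    intro k _
    rcases eq_or_ne k j with rfl | h
    · rw [Function.update_self]; exact hx
    · rw [Function.update_of_ne h]; exact hwS k (mem_univ k))
  simp only [mem_ofPred_eq] at h2
  rw [h1, abs_mul] at h2
  exact le_of_mul_le_mul_right (by simpa using h2) (abs_pos.2 hwne)

/-- the polar of a set -/
def pol (K : Set (E d)) : Set (E d) := {y | ∀ x ∈ K, inner ℝ y x ≤ 1}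

theorem pol_closed (K : Set (E d)) : IsClosed (pol K) := by
  have : pol K = ⋂ x ∈ K, {y | inner ℝ y x ≤ 1} := by
    ext y
    simp [pol]
  rw [this]
  exact isClosed_biInter fun x _ => isClosed_le (by fun_prop) continuous_const

theorem pol_norm {K : Set (E d)} {ρ : ℝ} (hρ : 0 < ρ) (hb : ball 0 ρ ⊆ K) {y : E d}
    (hy : y ∈ pol K) : ‖y‖ ≤ 2 / ρ := by
  rcases eq_or_ne y 0 with rfl | h
  · rw [norm_zero]; positivity
  have hn : 0 < ‖y‖ := norm_pos_iff.2 h
  have h1 : (ρ / 2 / ‖y‖) • y ∈ ball (0 : E d) ρ := by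
    rw [mem_ball_zero_iff, norm_smul, Real.norm_of_nonneg (by positivity)]
    have : ρ / 2 / ‖y‖ * ‖y‖ = ρ / 2 := by field_simp
    rw [this]
    linarith
  have h2 := hy _ (hb h1)
  rw [inner_smul_right, real_inner_self_eq_norm_sq] at h2
  have h3 : ρ / 2 / ‖y‖ * ‖y‖ ^ 2 = ρ / 2 * ‖y‖ := by field_simp
  rw [h3] at h2
  rw [le_div_iff₀ hρ]
  linarith

theorem bipolar {K : Set (E d)} (hK : Convex ℝ K) (hcl : IsClosed K) (h0 : (0 : E d) ∈ K)
    {x : E d} (hx : x ∉ K) : ∃ y ∈ pol K, 1 < inner ℝ y x := by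
  obtain ⟨f, u, hfu, hux⟩ := geometric_hahn_banach_closed_point hK hcl hx
  have hu : 0 < u := by
    have := hfu 0 h0
    rwa [map_zero] at this
  refine ⟨(1 / u) • (InnerProductSpace.toDual ℝ (E d)).symm f, ?_, ?_⟩
  · intro a ha
    rw [real_inner_smul_left, InnerProductSpace.toDual_symm_apply, one_div_mul_eq_div,
      div_le_one hu]
    exact (hfu a ha).le
  · rw [real_inner_smul_left, InnerProductSpace.toDual_symm_apply, one_div_mul_eq_div,
      one_lt_div hu]
    exact hux

theorem volume_bound {ι : Type} [Finite ι] (K : ι → Set (E d))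
    (hKc : ∀ i, Convex ℝ (K i)) (hcl : ∀ i, IsClosed (K i)) {ρ R : ℝ} (hρ : 0 < ρ) (hR : 0 < R)
    (hb : ∀ i, ball 0 ρ ⊆ K i) (hbd : ⋂ i, K i ⊆ closedBall 0 R) {D : ENNReal}
    (hD : ∀ s : Finset ι, s.card ≤ 2 * d → D ≤ volume (⋂ i ∈ s, K i)) :
    D ≤ volume (closedBall (0 : E d) ((2 * d + d * (2 / ρ * R)) * R)) := by
  classical
  have := Fintype.ofFinite ι
  have h0 : ∀ i, (0 : E d) ∈ K i := fun i => hb i (mem_ball_self hρ)
  rcases Nat.eq_zero_or_pos d with rfl | hd
  · -- dimension zero
    have h1 := hD ∅ (by simp)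
    refine h1.trans (measure_mono fun x _ => ?_)
    have : x = 0 := Subsingleton.elim _ _
    rw [this]
    simp
  set A : Set (E d) := ⋃ i, pol (K i) with hA
  have hAc : IsCompact A := by
    refine isCompact_iUnion fun i => ?_
    refine (isCompact_closedBall (0 : E d) (2 / ρ)).of_isClosed_subset (pol_closed _) ?_
    intro y hy
    rw [mem_closedBall_zero_iff]
    exact pol_norm hρ (hb i) hy
  have hin : ∀ x : E d, (∀ y ∈ A, inner ℝ y x ≤ 1) → x ∈ ⋂ i, K i := by
    intro x hx
    rw [mem_iInter]
    intro i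
    by_contra hxi
    obtain ⟨y, hy, hyx⟩ := bipolar (hKc i) (hcl i) (h0 i) hxi
    exact absurd (hx y (mem_iUnion.2 ⟨i, hy⟩)) (not_le.2 hyx)
  have hspan : Submodule.span ℝ A = ⊤ := by
    by_contra hne
    have h1 : (Submodule.span ℝ A)ᗮ ≠ ⊥ := by
      intro h
      exact hne ((Submodule.orthogonal_eq_bot_iff).1 h)
    obtain ⟨z, hz, hz0⟩ := Submodule.exists_mem_ne_zero_of_ne_bot h1
    have h2 : ((R + 1) / ‖z‖) • z ∈ ⋂ i, K i := by
      apply hin
      intro y hy
      have h3 := (Submodule.mem_orthogonal _ z).1 hz y (Submodule.subset_span hy)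
      rw [inner_smul_right, h3]
      norm_num
    have h3 := hbd h2
    have hzn : 0 < ‖z‖ := norm_pos_iff.2 hz0
    rw [mem_closedBall_zero_iff, norm_smul, Real.norm_of_nonneg (by positivity)] at h3
    have h4 : (R + 1) / ‖z‖ * ‖z‖ = R + 1 := by field_simp
    linarith
  obtain ⟨w, hwA, -, hwβ⟩ := exists_max_basis hAc hspan
  choose ix hix using fun j => mem_iUnion.1 (hwA j)
  have hX : ∀ x : E d, ∑ j, |inner ℝ (w j) x| ≤ 1 → x ∈ ⋂ i, K i := by
    intro x hx
    apply hin
    intro y hy
    obtain ⟨β, hβ, rfl⟩ := hwβ y hy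
    rw [sum_inner]
    refine le_trans (Finset.sum_le_sum fun j _ => ?_) hx
    rw [real_inner_smul_left]
    calc β j * inner ℝ (w j) x ≤ |β j * inner ℝ (w j) x| := le_abs_self _
      _ = |β j| * |inner ℝ (w j) x| := abs_mul _ _
      _ ≤ 1 * |inner ℝ (w j) x| := mul_le_mul_of_nonneg_right (hβ j) (abs_nonneg _)
      _ = _ := one_mul _
  set M : ℝ := d * (2 / ρ * R) with hM
  have hM0 : 0 ≤ M := by positivity
  -- Helly
  set F : Option ι → Set (E d) := fun o => match o with
    | none => {x | M < -∑ j, inner ℝ (w j) x}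
    | some i => K i with hF
  have hFconv : ∀ o, Convex ℝ (F o) := by
    intro o
    cases o with
    | none =>
      intro x hx y hy a b ha hb hab
      simp only [hF, mem_ofPred_eq] at hx hy ⊢
      have h1 : -∑ j, inner ℝ (w j) (a • x + b • y) =
          a * (-∑ j, inner ℝ (w j) x) + b * (-∑ j, inner ℝ (w j) y) := by
        simp only [inner_add_right, inner_smul_right, Finset.sum_add_distrib, ← Finset.mul_sum]
        ring
      rw [h1]
      have h2 : M = a * M + b * M := by rw [← add_mul, hab, one_mul]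
      rw [h2]
      rcases ha.eq_or_lt with rfl | ha'
      · have hb1 : b = 1 := by linarith
        subst hb1
        linarith
      · have := mul_lt_mul_of_pos_left hx ha'
        have := mul_le_mul_of_nonneg_left hy.le hb
        linarith
    | some i => exact hKc i
  have hempty : ¬ (⋂ o ∈ (Finset.univ : Finset (Option ι)), F o).Nonempty := by
    rintro ⟨x, hx⟩
    rw [mem_iInter₂] at hx
    have hx1 : x ∈ ⋂ i, K i := mem_iInter.2 fun i => hx (some i) (Finset.mem_univ _)
    have hx2 : M < -∑ j, inner ℝ (w j) x := hx none (Finset.mem_univ _)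
    have hx3 := hbd hx1
    rw [mem_closedBall_zero_iff] at hx3
    have h1 : -∑ j, inner ℝ (w j) x ≤ ∑ _j : Fin d, (2 / ρ * R) := by
      rw [← Finset.sum_neg_distrib]
      refine Finset.sum_le_sum fun j _ => ?_
      calc -inner ℝ (w j) x ≤ |inner ℝ (w j) x| := neg_le_abs _
        _ ≤ ‖w j‖ * ‖x‖ := abs_real_inner_le_norm _ _
        _ ≤ 2 / ρ * R := mul_le_mul (pol_norm hρ (hb _) (hix j)) hx3 (norm_nonneg _) (by positivity)
    rw [Finset.sum_const, Finset.card_univ, Fintype.card_fin, nsmul_eq_mul] at h1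
    linarith
  have hI : ∃ I : Finset (Option ι), I.card ≤ d + 1 ∧ ¬ (⋂ o ∈ I, F o).Nonempty := by
    by_contra hcon
    push Not at hcon
    apply hempty
    apply Convex.helly_theorem' (𝕜 := ℝ) (fun o _ => hFconv o)
    intro I _ hIc
    rw [finrank_euclideanSpace, Fintype.card_fin] at hIc
    exact hcon I hIc
  obtain ⟨I, hIc, hIe⟩ := hI
  have hnone : none ∈ I := by
    by_contra hn
    apply hIe
    refine ⟨0, mem_iInter₂.2 fun o ho => ?_⟩
    cases o with
    | none => exact absurd ho hn
    | some i => exact h0 i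
  set J : Finset ι := Finset.eraseNone I with hJ
  have hJc : J.card ≤ d := by
    have h1 : (J.map Function.Embedding.some).card = (I.erase none).card := by
      rw [hJ, Finset.map_some_eraseNone]
    rw [Finset.card_map, Finset.card_erase_of_mem hnone] at h1
    omega
  set s : Finset ι := J ∪ Finset.univ.image ix with hs
  have hsc : s.card ≤ 2 * d := by
    have h1 : (Finset.univ.image ix).card ≤ d := by
      refine Finset.card_image_le.trans ?_
      simp
    have h2 : s.card ≤ J.card + (Finset.univ.image ix).card := Finset.card_union_le J _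
    omega
  refine (hD s hsc).trans (measure_mono ?_)
  intro x hx
  rw [mem_iInter₂] at hx
  have hxJ : -∑ j, inner ℝ (w j) x ≤ M := by
    by_contra hcon
    rw [not_le] at hcon
    apply hIe
    refine ⟨x, mem_iInter₂.2 fun o ho => ?_⟩
    cases o with
    | none => exact hcon
    | some i => exact hx i (Finset.mem_union_left _ (by rw [hJ, Finset.mem_eraseNone]; exact ho))
  have hxw : ∀ j, inner ℝ (w j) x ≤ 1 := fun j =>
    hix j x (hx (ix j) (Finset.mem_union_right _ (Finset.mem_image_of_mem _ (Finset.mem_univ j))))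
  have hsum : ∑ j, |inner ℝ (w j) x| ≤ 2 * d + M := by
    have h1 : ∑ j, |inner ℝ (w j) x| ≤ ∑ j, (2 - inner ℝ (w j) x) := by
      refine Finset.sum_le_sum fun j _ => ?_
      have := hxw j
      rw [abs_le]
      constructor <;> linarith
    rw [Finset.sum_sub_distrib, Finset.sum_const, Finset.card_univ, Fintype.card_fin,
      nsmul_eq_mul] at h1
    linarith
  set lam : ℝ := 2 * d + M with hlam
  have hlam0 : 0 < lam := by
    have : (1 : ℝ) ≤ d := by exact_mod_cast hd
    linarith
  have hy : (1 / lam) • x ∈ ⋂ i, K i := by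
    apply hX
    have h1 : ∀ j, |inner ℝ (w j) ((1 / lam) • x)| = 1 / lam * |inner ℝ (w j) x| := by
      intro j
      rw [inner_smul_right, abs_mul, abs_of_pos (by positivity)]
    simp_rw [h1]
    rw [← Finset.mul_sum, one_div_mul_eq_div, div_le_one hlam0]
    exact hsum
  have hy2 := hbd hy
  rw [mem_closedBall_zero_iff, norm_smul, Real.norm_of_nonneg (by positivity),
    one_div_mul_eq_div, div_le_iff₀ hlam0] at hy2
  rw [mem_closedBall_zero_iff]
  linarith

end Q144.VH
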